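import Pool.Agent.MP_b5eafd_co.CDefs
import Pool.Agent.MP_b5eafd_co.Gen
import Pool.Agent.MP_b5eafd_co.VDefs
import Pool.Agent.MP_b5eafd_co.Tree

-- part MP_b5eafd_co.LinkScal
section

/-
HINTS. The programs scKR (Gen.lean) are straight line programs; readable source in team-store h88_progs.py (function scal).
Unfold with simp only [scKR] / unfold + intro lets (or `extract_lets`), push_cast / Nat.cast_ofNat.  With om = 1 - c^2, y = 1 - x, ic = c⁻¹, dt = y ic^2, d = om dt: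
for c > 0 the field rel gives lam = 1 + d.  i3 = (3u^2)⁻¹, p3 = 3 + d(3+d), dp3 = d p3 = lam^3 - 1, N = dp3 + l^3, mu = u + N i3 = P.mu 0 l lam, K = (1+dp3)(lam+mu) = P.Kt,
At as in CDefs (eps = beta⁻¹), w = (dp3 + u^3) i3, p4 = 4 + d(6 + d(4+d)), g1 = a dt (p4 + p3 (u + w)), lc = a w + (l+mu)(a+em) >= 0,
rest = ((At + L lam) d + (At + L x) y) y - K (2(1+s) y ic - 2 (1+c)⁻¹), Z = At + L (l - 2y), ZW = Z (l-x)(x+mu), Lc = (6+8a)(lam-l)^2 - lam ic^2.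
IDENTITY: P.v 0 c x l lam = om (rest + g1 + max 0 Z (l-x)(x+mu)) + l^3 lc - m0   (use d c^2 = om y, d c = om y ic, 1 - c = om (1+c)⁻¹, u^3 i3 u.. : mu (dp3+u^3) - u^4 = u dp3 + N w).
Prove it in pieces with generalised atoms (set / generalize) rather than one field_simp.
sc0: xl.  sc1: eta.  sc2: lc divided by c^2 (max 0 (c^2 Lc) is 0 or c^2 Lc; l > 0).  sc3: lamV.  sc4: SV (N + u^3 = lam^3 + l^3 - (1-u^3) >= 0).  sc5: xmu.  sc6: lup.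
sc9: c^2 (lam - x) = y and lam <= (lam^2+1)/2 <= (V + 1 - l^2)/2.  sc8: v < 0 in both cases of max 0 Z (if Z < 0 the first clause is free, and then the second clause must be gm0 < 0, etc.).
sc7: l <= om Lc (Lc > 0), so l^3 lc <= om l^2 Lc lc and v <= om * (negative) - m0, om >= 0, so om = 0 and c = 1.
-/

set_option autoImplicit false

namespace Pool.Agent.MP_b5eafd_co
noncomputable section

namespace LinkScalAux

theorem lam_eq (P : Par) (c x l lam : ℝ) (hc : P.Cons 0 c x l lam) (h0 : 0 < c) :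
    lam = 1 + (1 - c ^ 2) * ((1 - x) * c⁻¹ ^ 2) := by
  have h := hc.rel
  have hne : c ≠ 0 := ne_of_gt h0
  field_simp
  linear_combination h

theorem a_nonneg (P : Par) (hP : P.OK) : 0 ≤ P.a := by
  have h1 : P.u ^ 3 ≤ 1 := pow_le_one₀ hP.u_pos.le hP.u_lt.le
  have h2 := hP.β_pos
  unfold Par.a
  have : 0 ≤ 1 - P.u ^ 3 := by linarith
  positivity

/-- `l ≤ om * Lc` as soon as `l > 0` or `Lc > 0`. -/
theorem l_le (P : Par) (c x l lam : ℝ) (hc : P.Cons 0 c x l lam) (h0 : 0 < c)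
    (h : 0 < l ∨ 0 < (6 + 8 * P.a) * (lam - l) ^ 2 - lam * c⁻¹ ^ 2) :
    l ≤ (1 - c ^ 2) * ((6 + 8 * P.a) * (lam - l) ^ 2 - lam * c⁻¹ ^ 2) := by
  have hl := hc.lc
  have hne : c ≠ 0 := ne_of_gt h0
  have hc2 : 0 < c ^ 2 := by positivity
  have he : (6 + 8 * P.a + 4 * P.β * 0) * c ^ 2 * (lam - l) ^ 2 - lam
      = c ^ 2 * ((6 + 8 * P.a) * (lam - l) ^ 2 - lam * c⁻¹ ^ 2) := by
    field_simp
    ring
  rw [he, add_zero] at hl
  generalize (6 + 8 * P.a) * (lam - l) ^ 2 - lam * c⁻¹ ^ 2 = Lc at h hl ⊢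
  rcases le_total (c ^ 2 * Lc) 0 with h1 | h1
  · rw [max_eq_left h1, mul_zero] at hl
    rcases h with h | h
    · exact absurd hl (not_le.mpr (mul_pos h hc2))
    · exact absurd h1 (not_le.mpr (mul_pos hc2 h))
  · rw [max_eq_right h1] at hl
    have : l * c ^ 2 ≤ ((1 - c ^ 2) * Lc) * c ^ 2 := by linarith
    exact le_of_mul_le_mul_right this hc2

theorem ident (u a L s em m0 c x l om y dt d ic ip i3 p3 p4 mu K At w M : ℝ)
    (hom : om = 1 - c ^ 2) (hy : y = 1 - x) (hd : d = om * dt) (h1 : d * c ^ 2 = om * y)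
    (h2 : d * c = om * (y * ic)) (h3 : 1 - c = om * ip)
    (hp3 : p3 = 3 + d * (3 + d)) (hp4 : p4 = 4 + d * (6 + d * (4 + d)))
    (hmu : mu = u + (d * p3 + l ^ 2 * l) * i3) (hK : K = (1 + d * p3) * (1 + d + mu))
    (hw : w = (d * p3 + u ^ 2 * u) * i3) :
    a * (K - 1 - mu * (1 - u ^ 3) - u ^ 4) + l ^ 3 * (l + mu) * (a + em)
      + (At + L * (1 + d)) * ((1 + d) - 1) ^ 2 * c ^ 2
      + (1 - c ^ 2) * ((At + L * x) * (1 - x) ^ 2 + M * ((l + 0 - x) * (x + mu)))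
      - K * (2 * (1 + s) * ((1 + d) - 1) * c - 2 * (1 - c)) - m0
    = om * ((((At + L * (1 + d)) * d + (At + L * x) * y) * y
          - K * (2 * (1 + s) * (y * ic) - 2 * ip)) + a * dt * (p4 + p3 * (u + w)))
        + l ^ 2 * l * (a * w + (l + mu) * (a + em)) - m0 + om * (M * ((l - x) * (x + mu))) := by
  have e1 : K - 1 - mu * (1 - u ^ 3) - u ^ 4 = d * (p4 + p3 * (u + w)) + l ^ 3 * w := by
    rw [hK, hw, hp4, hmu, hp3]
    ring
  rw [← hom, ← hy]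
  linear_combination a * e1 + (At + L * (1 + d)) * d * h1 - K * (2 * (1 + s) * h2 - 2 * h3)
    + a * (p4 + p3 * (u + w)) * hd

/-- the quantities of the straight line programs. -/
def dd (c x : ℝ) : ℝ := (1 - c ^ 2) * ((1 - x) * c⁻¹ ^ 2)
def p3 (c x : ℝ) : ℝ := 3 + dd c x * (3 + dd c x)
def p4 (c x : ℝ) : ℝ := 4 + dd c x * (6 + dd c x * (4 + dd c x))
def mu (u c x l : ℝ) : ℝ := u + (dd c x * p3 c x + l ^ 2 * l) * (3 * u ^ 2)⁻¹
def KK (u c x l : ℝ) : ℝ := (1 + dd c x * p3 c x) * (1 + dd c x + mu u c x l)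
def At (u a eps L l2 K0 s em c x l : ℝ) : ℝ :=
  L * (1 - a) - 2 * eps * mu u c x l + l2 + (KK u c x l - K0) * (s ^ 2 * (1 - em)⁻¹)
def ww (u c x : ℝ) : ℝ := (dd c x * p3 c x + u ^ 2 * u) * (3 * u ^ 2)⁻¹
def lcq (u a em c x l : ℝ) : ℝ := a * ww u c x + (l + mu u c x l) * (a + em)
def rg (u a eps L l2 K0 s em c x l : ℝ) : ℝ :=
  (((At u a eps L l2 K0 s em c x l + L * (1 + dd c x)) * dd c x
      + (At u a eps L l2 K0 s em c x l + L * x) * (1 - x)) * (1 - x)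
    - KK u c x l * (2 * (1 + s) * ((1 - x) * c⁻¹) - 2 * (1 + c)⁻¹))
  + a * ((1 - x) * c⁻¹ ^ 2) * (p4 c x + p3 c x * (u + ww u c x))
def ZZ (u a eps L l2 K0 s em c x l : ℝ) : ℝ :=
  At u a eps L l2 K0 s em c x l + L * (l - 2 * (1 - x))
def WW (u c x l : ℝ) : ℝ := (l - x) * (x + mu u c x l)
def Lc (a c x l : ℝ) : ℝ := (6 + 8 * a) * (1 + dd c x - l) ^ 2 - (1 + dd c x) * c⁻¹ ^ 2

theorem sc7_imp (u a eps L l2 K0 s em V m0 c x l : ℝ) (h : sc7R u a eps L l2 K0 s em V m0 c x l) :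
    0 < c ∧ 0 < Lc a c x l ∧
      (ZZ u a eps L l2 K0 s em c x l < 0 ∨
        rg u a eps L l2 K0 s em c x l + l ^ 2 * Lc a c x l * lcq u a em c x l
          + ZZ u a eps L l2 K0 s em c x l * WW u c x l < 0) ∧
      (0 < ZZ u a eps L l2 K0 s em c x l ∨
        rg u a eps L l2 K0 s em c x l + l ^ 2 * Lc a c x l * lcq u a em c x l < 0) := by
  simp only [sc7R, Nat.cast_ofNat, Nat.cast_one] at h
  exact h

theorem sc8_imp (u a eps L l2 K0 s em V m0 c x l : ℝ) (h : sc8R u a eps L l2 K0 s em V m0 c x l) :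
    0 < c ∧
      (ZZ u a eps L l2 K0 s em c x l < 0 ∨
        (1 - c ^ 2) * rg u a eps L l2 K0 s em c x l + l ^ 2 * l * lcq u a em c x l - m0
          + (1 - c ^ 2) * (ZZ u a eps L l2 K0 s em c x l * WW u c x l) < 0) ∧
      (0 < ZZ u a eps L l2 K0 s em c x l ∨
        (1 - c ^ 2) * rg u a eps L l2 K0 s em c x l + l ^ 2 * l * lcq u a em c x l - m0 < 0) := by
  simp only [sc8R, Nat.cast_ofNat, Nat.cast_one] at h
  exact h

theorem mu_eq (P : Par) (c x l : ℝ) : P.mu 0 l (1 + dd c x) = mu P.u c x l := by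
  unfold Par.mu mu p3
  rw [div_eq_mul_inv]
  ring

theorem Kt_eq (P : Par) (c x l : ℝ) : P.Kt 0 l (1 + dd c x) = KK P.u c x l := by
  unfold Par.Kt KK
  rw [mu_eq]
  unfold p3
  ring

theorem At_eq (P : Par) (c x l : ℝ) :
    P.At 0 l (1 + dd c x) = At P.u P.a P.β⁻¹ P.L P.l2 P.K0 P.s P.em c x l := by
  unfold Par.At At
  rw [mu_eq, Kt_eq, div_eq_mul_inv, div_eq_mul_inv]
  ring

theorem v_eq (P : Par) (c x l : ℝ) (h0 : 0 < c) :
    P.v 0 c x l (1 + dd c x) =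
      (1 - c ^ 2) * rg P.u P.a P.β⁻¹ P.L P.l2 P.K0 P.s P.em c x l
        + l ^ 2 * l * lcq P.u P.a P.em c x l - P.m0
        + (1 - c ^ 2) * (max 0 (ZZ P.u P.a P.β⁻¹ P.L P.l2 P.K0 P.s P.em c x l) * WW P.u c x l) := by
  have hne : c ≠ 0 := ne_of_gt h0
  have hne1 : 1 + c ≠ 0 := by positivity
  unfold Par.v
  rw [mu_eq, Kt_eq, At_eq]
  have hZ : At P.u P.a P.β⁻¹ P.L P.l2 P.K0 P.s P.em c x l + P.L * (l + 0 - 2 * (1 - x))
      = ZZ P.u P.a P.β⁻¹ P.L P.l2 P.K0 P.s P.em c x l := by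
    unfold ZZ
    rw [add_zero]
  rw [hZ]
  refine ident P.u P.a P.L P.s P.em P.m0 c x l (1 - c ^ 2) (1 - x) ((1 - x) * c⁻¹ ^ 2) (dd c x)
    c⁻¹ (1 + c)⁻¹ (3 * P.u ^ 2)⁻¹ (p3 c x) (p4 c x) (mu P.u c x l) (KK P.u c x l) _ (ww P.u c x) _
    rfl rfl rfl ?_ ?_ ?_ rfl rfl rfl rfl rfl
  · unfold dd
    field_simp
  · unfold dd
    field_simp
  · field_simp
    ring

theorem lcq_nonneg (u a em c x l : ℝ) (hu : 0 < u) (ha : 0 ≤ a) (hem : 0 ≤ em) (hl : 0 ≤ l)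
    (hd : 0 ≤ dd c x) : 0 ≤ lcq u a em c x l := by
  unfold lcq ww mu p3
  positivity

end LinkScalAux

open LinkScalAux in
theorem scal_link (P : Par) (hP : P.OK) (c x l lam : ℝ) (hc : P.Cons 0 c x l lam)
    (hv : 0 ≤ P.v 0 c x l lam)
    (h : sc0R P.u P.a P.β⁻¹ P.L P.l2 P.K0 P.s P.em P.V P.m0 c x l ∨
      sc1R P.u P.a P.β⁻¹ P.L P.l2 P.K0 P.s P.em P.V P.m0 c x l ∨
      sc2R P.u P.a P.β⁻¹ P.L P.l2 P.K0 P.s P.em P.V P.m0 c x l ∨
      sc3R P.u P.a P.β⁻¹ P.L P.l2 P.K0 P.s P.em P.V P.m0 c x l ∨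
      sc4R P.u P.a P.β⁻¹ P.L P.l2 P.K0 P.s P.em P.V P.m0 c x l ∨
      sc5R P.u P.a P.β⁻¹ P.L P.l2 P.K0 P.s P.em P.V P.m0 c x l ∨
      sc6R P.u P.a P.β⁻¹ P.L P.l2 P.K0 P.s P.em P.V P.m0 c x l ∨
      sc7R P.u P.a P.β⁻¹ P.L P.l2 P.K0 P.s P.em P.V P.m0 c x l ∨
      sc8R P.u P.a P.β⁻¹ P.L P.l2 P.K0 P.s P.em P.V P.m0 c x l ∨
      sc9R P.u P.a P.β⁻¹ P.L P.l2 P.K0 P.s P.em P.V P.m0 c x l) : c = 1 := by
  rcases h with h | h | h | h | h | h | h | h | h | h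
  · simp only [sc0R] at h
    have := hc.xl
    linarith
  · simp only [sc1R, Nat.cast_one] at h
    have := hc.eta
    linarith
  · simp only [sc2R, Nat.cast_one, Nat.cast_ofNat] at h
    obtain ⟨h0, h1, h2⟩ := h
    have hl := l_le P c x l lam hc h0 (Or.inl h1)
    rw [← lam_eq P c x l lam hc h0] at h2
    linarith
  · simp only [sc3R, Nat.cast_one] at h
    obtain ⟨h0, h2⟩ := h
    rw [← lam_eq P c x l lam hc h0] at h2
    have := hc.lamV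
    linarith
  · simp only [sc4R, Nat.cast_one, Nat.cast_ofNat] at h
    obtain ⟨h0, h2⟩ := h
    have hlam := lam_eq P c x l lam hc h0
    have hS := hc.SV
    have hl1 := hc.lam1
    have hl0 := hc.l0
    have hu := hP.u_pos
    generalize (1 - c ^ 2) * ((1 - x) * c⁻¹ ^ 2) = d at h2 hlam
    have hnn : 0 ≤ lam ^ 3 + l ^ 3 - (1 - P.u ^ 3) - 0 := by
      have h3 : 1 ≤ lam ^ 3 := one_le_pow₀ hl1
      have h4 : 0 ≤ l ^ 3 := by positivity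
      have h5 : 0 ≤ P.u ^ 3 := by positivity
      linarith
    rw [max_eq_right hnn] at hS
    subst hlam
    exfalso
    have e1 : (1 + d) ^ 3 + l ^ 3 - (1 - P.u ^ 3) - 0
        = d * (3 + d * (3 + d)) + l ^ 2 * l + P.u ^ 2 * P.u := by ring
    rw [e1, pow_succ _ 2] at hS
    linarith
  · simp only [sc5R, Nat.cast_one, Nat.cast_ofNat] at h
    obtain ⟨h0, h2⟩ := h
    have hlam : lam = 1 + dd c x := lam_eq P c x l lam hc h0
    have hx := hc.xmu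
    rw [hlam, mu_eq] at hx
    have h3 : x + mu P.u c x l < 0 := h2
    linarith
  · simp only [sc6R, Nat.cast_ofNat] at h
    have := hc.lup
    linarith
  · obtain ⟨h0, hL, h1, h2⟩ := sc7_imp _ _ _ _ _ _ _ _ _ _ _ _ _ h
    have hlam : lam = 1 + dd c x := lam_eq P c x l lam hc h0
    have hd : 0 ≤ dd c x := by
      have := hc.lam1
      linarith
    have hl : l ≤ (1 - c ^ 2) * Lc P.a c x l := by
      have := l_le P c x l lam hc h0 (Or.inr (by rw [hlam]; exact hL))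
      rw [hlam] at this
      exact this
    have hq := lcq_nonneg P.u P.a P.em c x l hP.u_pos (a_nonneg P hP) hP.em_nonneg hc.l0 hd
    rw [hlam, v_eq P c x l h0] at hv
    have hm := hP.m0_nonneg
    have hc1 := hc.c1
    have hom : 0 ≤ 1 - c ^ 2 := by nlinarith
    generalize rg P.u P.a P.β⁻¹ P.L P.l2 P.K0 P.s P.em c x l = R at h1 h2 hv
    generalize ZZ P.u P.a P.β⁻¹ P.L P.l2 P.K0 P.s P.em c x l = Z at h1 h2 hv
    generalize WW P.u c x l = W at h1 hv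
    generalize lcq P.u P.a P.em c x l = q at h1 h2 hv hq
    generalize Lc P.a c x l = T at h1 h2 hl hL
    have hneg : R + l ^ 2 * T * q + max 0 Z * W < 0 := by
      rcases le_or_gt Z 0 with hZ | hZ
      · rw [max_eq_left hZ]
        rcases h2 with h2 | h2
        · linarith
        · linarith
      · rw [max_eq_right hZ.le]
        rcases h1 with h1 | h1
        · linarith
        · linarith
    have hb : l ^ 2 * l * q ≤ l ^ 2 * ((1 - c ^ 2) * T) * q :=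
      mul_le_mul_of_nonneg_right (mul_le_mul_of_nonneg_left hl (sq_nonneg l)) hq
    have hge : 0 ≤ (1 - c ^ 2) * (R + l ^ 2 * T * q + max 0 Z * W) := by linarith
    have hz : 1 - c ^ 2 = 0 := by
      by_contra hne
      have hpos : 0 < 1 - c ^ 2 := lt_of_le_of_ne hom (Ne.symm hne)
      have := mul_neg_of_pos_of_neg hpos hneg
      linarith
    have hf : (1 - c) * (1 + c) = 0 := by linarith
    rcases mul_eq_zero.mp hf with h3 | h3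
    · linarith
    · linarith
  · obtain ⟨h0, h1, h2⟩ := sc8_imp _ _ _ _ _ _ _ _ _ _ _ _ _ h
    have hlam : lam = 1 + dd c x := lam_eq P c x l lam hc h0
    rw [hlam, v_eq P c x l h0] at hv
    exfalso
    generalize ZZ P.u P.a P.β⁻¹ P.L P.l2 P.K0 P.s P.em c x l = Z at h1 h2 hv
    rcases le_or_gt Z 0 with hZ | hZ
    · rw [max_eq_left hZ, zero_mul, mul_zero, add_zero] at hv
      rcases h2 with h2 | h2
      · linarith
      · linarith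
    · rw [max_eq_right hZ.le] at hv
      rcases h1 with h1 | h1
      · linarith
      · linarith
  · simp only [sc9R, Nat.cast_one, Nat.cast_ofNat] at h
    have hr := hc.rel
    have hV := hc.lamV
    have h1 : lam - x ≤ (P.V + 1 - l ^ 2) * (1 / 2) - x := by nlinarith [sq_nonneg (lam - 1)]
    have h2 := mul_le_mul_of_nonneg_left h1 (sq_nonneg c)
    exfalso
    linarith

theorem box_link (P : Par) (X xn emn ah : ℝ) (h : bx0R P.a P.em P.V X xn emn ah) :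
    (∀ c x l lam : ℝ, P.Cons 0 c x l lam → xn ≤ x ∧ x ≤ X ∧ l ≤ X) ∧
    ∀ e : ℝ, -P.em ≤ e → e ≤ P.a + 1 / 1000 → emn ≤ e ∧ e ≤ ah := by
  simp only [bx0R, Nat.cast_one, Nat.cast_ofNat] at h
  obtain ⟨h1, h2, h3, h4, h5⟩ := h
  refine ⟨fun c x l lam hc => ?_, fun e he1 he2 => ⟨by linarith, by linarith⟩⟩
  have hx : x ^ 2 ≤ X ^ 2 := by
    have := hc.xV
    linarith
  have hl : l ^ 2 ≤ X ^ 2 := by
    have h6 := hc.lamV
    have h7 : 1 ≤ lam ^ 2 := one_le_pow₀ hc.lam1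
    linarith
  have hx' := abs_le_of_sq_le_sq' hx h1.le
  have hl' := abs_le_of_sq_le_sq' hl h1.le
  exact ⟨by linarith [hx'.1], hx'.2, hl'.2⟩

/-- parameters in the middle regime. -/
def Pmid (β u C s K0 em m0 l1 l2 V : ℝ) : Par :=
  ⟨β, u, Real.exp (2 * β * u ^ 3 / 3), C, s, K0, em, m0, l1, l2, V⟩

theorem mid_par (β u C s K0 em m0 l1 l2 V : ℝ) :
    mdAR β u = (Pmid β u C s K0 em m0 l1 l2 V).a ∧ mdLR β C = (Pmid β u C s K0 em m0 l1 l2 V).L := by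
  constructor
  · simp only [mdAR, Pmid, Par.a, Nat.cast_one, Nat.cast_ofNat]
    ring
  · simp only [mdLR, Pmid, Par.L, Nat.cast_ofNat]
    ring

theorem mid_row0 (β u C s K0 em m0 l1 l2 V e : ℝ) (h : rm0R β u e) :
    (Pmid β u C s K0 em m0 l1 l2 V).a < e := by
  simp only [rm0R, Nat.cast_one, Nat.cast_ofNat] at h
  simp only [Pmid, Par.a]
  linarith

theorem mid_row1 (β u C s K0 em m0 l1 l2 V e Δ : ℝ) (h : rm1R β u C s K0 m0 l1 l2 e Δ) :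
    0 < (Pmid β u C s K0 em m0 l1 l2 V).bE Δ e ∧
    K0 * s ^ 2 * e ^ 2 / (1 + e) - ((Pmid β u C s K0 em m0 l1 l2 V).a - e)
        * (Pmid β u C s K0 em m0 l1 l2 V).TE Δ e / β ^ 2 ≤
      -((Pmid β u C s K0 em m0 l1 l2 V).a * u ^ 4) - m0 + l1 * e + l2 * e ^ 2 := by
  simp only [rm1R, Nat.cast_one, Nat.cast_ofNat, Nat.cast_zero] at h
  have hg : Δ ^ 2 * (Δ * Real.exp Δ - Real.exp Δ + 1) * ((Real.exp Δ - 1) ^ 2 - Δ ^ 2 * Real.exp Δ)⁻¹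
      = gT Δ := by
    unfold gT detT
    rw [div_eq_mul_inv]
  have hb : Δ * (2 * (Real.exp Δ - 1) - Δ * (Real.exp Δ + 1))
      * ((Real.exp Δ - 1) ^ 2 - Δ ^ 2 * Real.exp Δ)⁻¹ = bT Δ := by
    unfold bT detT
    rw [div_eq_mul_inv]
  rw [hg, hb] at h
  have hy : (C + gT Δ + bT Δ) * (1 / 2) = yT C Δ := by
    unfold yT
    ring
  rw [hy, zero_sub] at h
  have hX : 2 / 3 * (β * (u ^ 2 * u)) = 2 * β * u ^ 3 / 3 := by ring
  rw [hX] at h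
  obtain ⟨h1, h2⟩ := h
  have hE : (Pmid β u C s K0 em m0 l1 l2 V).bE Δ e = Real.exp (-yT C Δ) *
      ((gT Δ - bT Δ * yT C Δ) * (1 + e) + bT Δ * (β * (u ^ 2 * u) + (β + 2) * e)) := by
    simp only [Pmid, Par.bE, aC, bC]
    ring
  refine ⟨by rw [hE]; exact mul_pos (Real.exp_pos _) h1, ?_⟩
  unfold Par.TE
  rw [hE]
  simp only [Pmid, Par.a, dC]
  rw [div_eq_mul_inv _ (1 + e), div_eq_mul_inv _ (β ^ 2), ← inv_pow]
  linarith

theorem mid_cell (β u C s K0 em m0 l1 l2 V y0 r κ : ℝ) (hβ : 0 < β) (hu0 : 0 < u) (hu1 : u < 1)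
    (h : cm0R β u C K0 em m0 V y0 r κ) :
    (Pmid β u C s K0 em m0 l1 l2 V).OK ∧ (Pmid β u C s K0 em m0 l1 l2 V).EmOK ∧
      (Pmid β u C s K0 em m0 l1 l2 V).VOK := by
  simp only [cm0R, Nat.cast_one, Nat.cast_ofNat, Nat.cast_zero] at h
  have hX : 2 / 3 * (β * (u ^ 2 * u)) = 2 * β * u ^ 3 / 3 := by ring
  rw [hX, zero_sub] at h
  obtain ⟨h1, h2, h3, h4, h5, h6, h7, h8, h9, h10, h11, h12⟩ := h
  refine ⟨⟨hβ, hu0, hu1, Real.exp_pos _, ?_, ?_, h10.le, ?_, h12.le⟩, ⟨y0, h1, ?_⟩,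
    Or.inr ⟨r, κ, h3.le, h4, ?_, ?_, ?_⟩⟩
  · simp only [Pmid, Par.L]
    rw [div_eq_mul_inv]
    exact h8.le
  · simp only [Pmid]
    linarith
  · simp only [Pmid]
    linarith
  · simp only [Pmid]
    rw [← Real.exp_sub]
    linarith
  · linarith
  · simp only [Pmid]
    linarith
  · simp only [Pmid]
    linarith

end
end Pool.Agent.MP_b5eafd_co

end

-- part MP_b5eafd_co.Th
section

/-
HINTS. tanh = sinh/cosh; derivative of tanh is 1 - tanh^2.  log(1+sg) = theta - log cosh, log(1-sg) = -theta - log cosh, so hh(sg) = theta sg - log cosh.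
exists_star: IVT for g = fv - bet/3 = 2 theta sg/3 - log cosh theta; g(1.812) > 0 > g(1.8125) (root 1.81224, values about +4.7e-5 and -5.0e-5);
with z = exp(-2 theta): sg = (1-z)/(1+z), log cosh = theta - log 2 + log(1+z); bound z = exp(-3.624) = 0.0266758, exp(-3.625) = 0.0266491 to 1e-7 via
Real.exp_one_gt_d9 / exp_one_lt_d9 and Real.exp_bound, log(1+z) by z - z^2/2 <= . <= z - z^2/2 + z^3/3, Real.log_two_gt_d9.
fv_le_log_two: 1/(3 s^2) + 2 s/3 - 1 = (1-s)^2 (1+2s)/(3 s^2) <= (1-s)^2/s^2, 1 - s <= 2z, z <= 0.05, s >= 0.9, theta z <= 0.19, log(1+z) >= z/(1+z).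
bet' = (sg - 2 theta (1 - sg^2))/sg^3 > 0 iff sinh(2 theta) > 4 theta.  exists_inverse: bet strictly monotone and continuous on Ici thetas, bet >= theta;
e.g. StrictMonoOn + continuousAt_of_image_mem_nhds / OrderIso, or prove continuity by hand from monotonicity.
tri_close: use theta' = theta +- h: (bet theta' - bet theta) t/3 >= fv theta' - fv theta - gamma; difference quotients tend to the derivatives.
-/

set_option autoImplicit false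
open Finset Filter Topology

namespace Pool.Agent.MP_b5eafd_co
noncomputable section
open Classical

theorem sg_pos {θ : ℝ} (h : 0 < θ) : 0 < sg θ := by
  unfold sg
  rw [Real.tanh_eq_sinh_div_cosh]
  exact div_pos (Real.sinh_pos_iff.2 h) (Real.cosh_pos θ)

theorem sg_lt_one (θ : ℝ) : sg θ < 1 := Real.tanh_lt_one θ

theorem th_sg_fun : sg = fun θ => Real.sinh θ / Real.cosh θ := by
  funext θ
  exact Real.tanh_eq_sinh_div_cosh θ

theorem continuous_sg : Continuous sg := by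
  rw [th_sg_fun]
  exact Real.continuous_sinh.div Real.continuous_cosh (fun x => (Real.cosh_pos x).ne')

theorem th_exp_neg (θ : ℝ) : Real.exp (-θ) = Real.exp θ * Real.exp (-2 * θ) := by
  rw [← Real.exp_add]; ring_nf

theorem th_sg_z (θ : ℝ) : sg θ = (1 - Real.exp (-2 * θ)) / (1 + Real.exp (-2 * θ)) := by
  unfold sg
  rw [Real.tanh_eq, th_exp_neg]
  have h1 := Real.exp_pos θ
  have h2 := Real.exp_pos (-2 * θ)
  field_simp

theorem th_cosh (θ : ℝ) : Real.cosh θ = Real.exp θ / 2 * (1 + Real.exp (-2 * θ)) := by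
  rw [Real.cosh_eq, th_exp_neg]; ring

theorem th_logcosh (θ : ℝ) :
    Real.log (Real.cosh θ) = θ - Real.log 2 + Real.log (1 + Real.exp (-2 * θ)) := by
  have h1 := Real.exp_pos θ
  have h2 := Real.exp_pos (-2 * θ)
  rw [th_cosh, Real.log_mul (by positivity) (by positivity),
    Real.log_div h1.ne' (by norm_num), Real.log_exp]

theorem th_z1 : Real.exp (-2 * (1812 / 1000 : ℝ)) ≤ 2668 / 100000 := by
  have h := Real.sum_le_exp_of_nonneg (x := (3624 / 1000 : ℝ)) (by norm_num) 15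
  have h2 : (100000 / 2668 : ℝ) ≤ Real.exp (3624 / 1000) := by
    refine le_trans ?_ h
    simp only [Finset.sum_range_succ, Finset.sum_range_zero, Nat.factorial]
    norm_num
  have h3 : Real.exp (-2 * (1812 / 1000 : ℝ)) = (Real.exp (3624 / 1000))⁻¹ := by
    rw [← Real.exp_neg]; norm_num
  rw [h3]
  have := inv_anti₀ (by norm_num : (0 : ℝ) < 100000 / 2668) h2
  refine le_trans this ?_
  norm_num

theorem th_z2 : (26645 / 1000000 : ℝ) ≤ Real.exp (-2 * (18125 / 10000 : ℝ)) := by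
  have h := Real.exp_bound' (x := (625 / 1000 : ℝ)) (by norm_num) (by norm_num) (n := 7)
    (by norm_num)
  have h1 : Real.exp (625 / 1000) ≤ 18683 / 10000 := by
    refine le_trans h ?_
    simp only [Finset.sum_range_succ, Finset.sum_range_zero, Nat.factorial]
    norm_num
  have he := Real.exp_one_lt_d9
  have hp := Real.exp_pos 1
  have h2 : Real.exp (3625 / 1000) = Real.exp 1 ^ 3 * Real.exp (625 / 1000) := by
    rw [← Real.exp_nat_mul, ← Real.exp_add]; norm_num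
  have h3 : Real.exp 1 ^ 3 ≤ (2.7182818286 : ℝ) ^ 3 := pow_le_pow_left₀ hp.le he.le 3
  have h4 : Real.exp (3625 / 1000) ≤ 1000000 / 26645 := by
    rw [h2]
    refine le_trans (mul_le_mul h3 h1 (Real.exp_pos _).le (by positivity)) ?_
    norm_num
  have h5 : Real.exp (-2 * (18125 / 10000 : ℝ)) = (Real.exp (3625 / 1000))⁻¹ := by
    rw [← Real.exp_neg]; norm_num
  rw [h5]
  have := inv_anti₀ (Real.exp_pos _) h4
  refine le_trans ?_ this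
  norm_num

theorem th_log1 {z : ℝ} (h0 : 0 < z) (h : z ≤ 2668 / 100000) :
    Real.log (1 + z) ≤ 26332 / 1000000 := by
  rw [Real.log_le_iff_le_exp (by linarith)]
  have h1 := Real.sum_le_exp_of_nonneg (x := (26332 / 1000000 : ℝ)) (by norm_num) 4
  refine le_trans ?_ h1
  simp only [Finset.sum_range_succ, Finset.sum_range_zero, Nat.factorial]
  norm_num
  linarith

theorem th_log2 {z : ℝ} (h : (26645 / 1000000 : ℝ) ≤ z) :
    (26294 / 1000000 : ℝ) ≤ Real.log (1 + z) := by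
  rw [Real.le_log_iff_exp_le (by linarith)]
  have h1 := Real.exp_bound' (x := (26294 / 1000000 : ℝ)) (by norm_num) (by norm_num) (n := 3)
    (by norm_num)
  refine le_trans h1 ?_
  simp only [Finset.sum_range_succ, Finset.sum_range_zero, Nat.factorial]
  norm_num
  linarith

theorem exists_star : ∃ θ, IsStar θ := by
  have hc : Continuous (fun θ : ℝ => 2 * θ * sg θ / 3 - Real.log (Real.cosh θ)) := by
    refine Continuous.sub (((continuous_const.mul continuous_id).mul continuous_sg).div_const _) ?_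
    exact Real.continuous_cosh.log (fun x => (Real.cosh_pos x).ne')
  have ha : 0 ≤ 2 * (1812 / 1000 : ℝ) * sg (1812 / 1000) / 3
      - Real.log (Real.cosh (1812 / 1000)) := by
    rw [th_logcosh, th_sg_z]
    have hz := th_z1
    have hz0 := Real.exp_pos (-2 * (1812 / 1000 : ℝ))
    have hl := th_log1 hz0 hz
    have h2 := Real.log_two_gt_d9
    generalize Real.exp (-2 * (1812 / 1000 : ℝ)) = z at *
    have : (948026 / 1000000 : ℝ) ≤ (1 - z) / (1 + z) := by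
      rw [le_div_iff₀ (by linarith)]; linarith
    linarith
  have hb : 2 * (18125 / 10000 : ℝ) * sg (18125 / 10000) / 3
      - Real.log (Real.cosh (18125 / 10000)) ≤ 0 := by
    rw [th_logcosh, th_sg_z]
    have hz := th_z2
    have hl := th_log2 hz
    have h2 := Real.log_two_lt_d9
    generalize Real.exp (-2 * (18125 / 10000 : ℝ)) = z at *
    have : (1 - z) / (1 + z) ≤ (948094 / 1000000 : ℝ) := by
      rw [div_le_iff₀ (by linarith)]; linarith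
    linarith
  obtain ⟨θ, hθ, h0⟩ := intermediate_value_Icc' (by norm_num : (1812 / 1000 : ℝ) ≤ 18125 / 10000)
    hc.continuousOn ⟨hb, ha⟩
  refine ⟨θ, hθ.1, hθ.2, ?_⟩
  unfold fv
  have h0' : 2 * θ * sg θ / 3 - Real.log (Real.cosh θ) = 0 := h0
  linarith

theorem th_log_one_add (θ : ℝ) : Real.log (1 + sg θ) = θ - Real.log (Real.cosh θ) := by
  have hc := Real.cosh_pos θ
  have : 1 + sg θ = Real.exp θ / Real.cosh θ := by
    rw [th_sg_fun, ← Real.cosh_add_sinh]; field_simp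
  rw [this, Real.log_div (Real.exp_pos θ).ne' hc.ne', Real.log_exp]

theorem th_log_one_sub (θ : ℝ) : Real.log (1 - sg θ) = -θ - Real.log (Real.cosh θ) := by
  have hc := Real.cosh_pos θ
  have : 1 - sg θ = Real.exp (-θ) / Real.cosh θ := by
    rw [th_sg_fun, ← Real.cosh_sub_sinh]; field_simp
  rw [this, Real.log_div (Real.exp_pos _).ne' hc.ne', Real.log_exp]

theorem fv_eq {θ : ℝ} (h : 0 < θ) : fv θ = hh (sg θ) + bet θ / 3 * (1 - sg θ ^ 3) := by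
  have hs := sg_pos h
  unfold fv hh
  rw [th_log_one_add, th_log_one_sub]
  unfold bet
  field_simp
  ring

theorem th_exp3 : (20 : ℝ) ≤ Real.exp 3 := by
  have he := Real.exp_one_gt_d9
  have h2 : Real.exp 3 = Real.exp 1 ^ 3 := by
    rw [← Real.exp_nat_mul]; norm_num
  have h3 : (2.7182818283 : ℝ) ^ 3 ≤ Real.exp 1 ^ 3 := pow_le_pow_left₀ (by norm_num) he.le 3
  rw [h2]
  refine le_trans ?_ h3
  norm_num

theorem th_z_bounds {θ : ℝ} (h : 3 / 2 ≤ θ) :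
    Real.exp (-2 * θ) ≤ 1 / 20 ∧ θ * Real.exp (-2 * θ) ≤ 3 / 40 := by
  have h1 : Real.exp (-2 * θ) * Real.exp (2 * θ) = 1 := by
    rw [← Real.exp_add]; simp
  have h2 : Real.exp (2 * θ) = Real.exp 3 * Real.exp (2 * θ - 3) := by
    rw [← Real.exp_add]; ring_nf
  have h3 := Real.add_one_le_exp (2 * θ - 3)
  have h4 := th_exp3
  have h5 : 20 * (2 * θ - 2) ≤ Real.exp (2 * θ) := by
    rw [h2]
    exact mul_le_mul h4 (by linarith) (by linarith) (by linarith)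
  have hz := Real.exp_pos (-2 * θ)
  generalize Real.exp (-2 * θ) = z at *
  generalize Real.exp (2 * θ) = w at *
  have h6 : z * (20 * (2 * θ - 2)) ≤ 1 := by
    rw [← h1]; exact mul_le_mul_of_nonneg_left h5 hz.le
  have h7 : z ≤ 1 / 20 := by nlinarith
  refine ⟨h7, ?_⟩
  nlinarith

theorem fv_le_log_two {θ : ℝ} (h : 3 / 2 ≤ θ) : fv θ ≤ Real.log 2 := by
  obtain ⟨hz1, hz2⟩ := th_z_bounds h
  have hz := Real.exp_pos (-2 * θ)
  unfold fv bet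
  rw [th_logcosh, th_sg_z]
  generalize Real.exp (-2 * θ) = z at *
  have hl : z / (1 + z) ≤ Real.log (1 + z) := by
    have := Real.one_sub_inv_le_log_of_pos (x := 1 + z) (by linarith)
    refine le_trans (le_of_eq ?_) this
    field_simp
    ring
  have h1 : 0 < 1 - z := by linarith
  have h2 : 0 < 1 + z := by linarith
  have key : θ / ((1 - z) / (1 + z)) ^ 2 / 3 + 2 * θ * ((1 - z) / (1 + z)) / 3 - θ
      = (θ * z) * (4 * (3 - z) / (3 * (1 - z) ^ 2)) * (z / (1 + z)) := by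
    field_simp
    ring
  have h3 : 4 * (3 - z) / (3 * (1 - z) ^ 2) ≤ 5 := by
    rw [div_le_iff₀ (by positivity)]; nlinarith
  have h4 : 0 ≤ 4 * (3 - z) / (3 * (1 - z) ^ 2) := by
    apply div_nonneg <;> nlinarith
  have h5 : (θ * z) * (4 * (3 - z) / (3 * (1 - z) ^ 2)) ≤ 1 := by
    have : 0 ≤ θ * z := by positivity
    nlinarith
  have h6 : 0 ≤ z / (1 + z) := by positivity
  have h7 := mul_le_mul_of_nonneg_right h5 h6
  linarith

theorem le_bet {θ : ℝ} (h : 0 < θ) : θ ≤ bet θ := by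
  have h1 := sg_pos h
  have h2 := sg_lt_one θ
  unfold bet
  rw [le_div_iff₀ (by positivity)]
  have : sg θ ^ 2 ≤ 1 := by nlinarith
  nlinarith

theorem th_hasDerivAt_sg (θ : ℝ) : HasDerivAt sg (1 - sg θ ^ 2) θ := by
  have hc := Real.cosh_pos θ
  have h := (Real.hasDerivAt_sinh θ).div (Real.hasDerivAt_cosh θ) hc.ne'
  rw [th_sg_fun]
  refine HasDerivAt.congr_deriv h ?_
  field_simp

theorem th_hasDerivAt_logcosh (θ : ℝ) :
    HasDerivAt (fun x => Real.log (Real.cosh x)) (sg θ) θ := by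
  have hc := Real.cosh_pos θ
  have h := (Real.hasDerivAt_cosh θ).log hc.ne'
  rw [th_sg_fun]
  exact h

/-- the derivative of `bet` is positive and `fv' = bet' (1 - σ^3) / 3`. -/
theorem hasDerivAt_bet_fv {θ : ℝ} (h : 3 / 2 ≤ θ) :
    ∃ D : ℝ, 0 < D ∧ HasDerivAt bet D θ ∧ HasDerivAt fv (D * (1 - sg θ ^ 3) / 3) θ := by
  have hs := sg_pos (show 0 < θ by linarith)
  have hsg := th_hasDerivAt_sg θ
  have hb : HasDerivAt bet ((sg θ - 2 * θ * (1 - sg θ ^ 2)) / sg θ ^ 3) θ := by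
    have h1 := (hasDerivAt_id' θ).div (hsg.fun_pow 2) (pow_pos hs 2).ne'
    refine HasDerivAt.congr_deriv h1 ?_
    simp only [Nat.cast_ofNat, Nat.add_one_sub_one, pow_one]
    field_simp
  refine ⟨_, ?_, hb, ?_⟩
  · apply div_pos _ (pow_pos hs 3)
    obtain ⟨hz1, hz2⟩ := th_z_bounds h
    have hz := Real.exp_pos (-2 * θ)
    rw [th_sg_z]
    generalize Real.exp (-2 * θ) = z at *
    have h2 : 0 < 1 + z := by linarith
    have key : (1 - z) / (1 + z) - 2 * θ * (1 - ((1 - z) / (1 + z)) ^ 2)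
        = (1 - z ^ 2 - 8 * (θ * z)) / (1 + z) ^ 2 := by
      field_simp
      ring
    rw [key]
    apply div_pos _ (by positivity)
    nlinarith
  · have h1 := ((hb.div_const 3).add
      ((((hasDerivAt_id' θ).const_mul 2).mul hsg).div_const 3)).sub (th_hasDerivAt_logcosh θ)
    refine HasDerivAt.congr_deriv h1 ?_
    field_simp
    ring

theorem th_bet_cont : ContinuousOn bet (Set.Ici (3 / 2 : ℝ)) := fun x hx => by
  obtain ⟨D, -, hD, -⟩ := hasDerivAt_bet_fv (θ := x) hx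
  exact hD.continuousAt.continuousWithinAt

theorem th_bet_mono : StrictMonoOn bet (Set.Ici (3 / 2 : ℝ)) := by
  refine strictMonoOn_of_deriv_pos (convex_Ici _) th_bet_cont ?_
  intro x hx
  obtain ⟨D, h0, hD, -⟩ := hasDerivAt_bet_fv (θ := x) (interior_subset hx)
  rw [hD.deriv]
  exact h0

theorem exists_inverse {θs : ℝ} (h : 3 / 2 ≤ θs) :
    ∃ T : ℝ → ℝ, ContinuousOn T (Set.Ioi (bet θs)) ∧ ∀ β, bet θs < β → θs < T β ∧ bet (T β) = β := by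
  have hex : ∀ β, ∃ θ, bet θs < β → θs < θ ∧ bet θ = β := by
    intro β
    by_cases hβ : bet θs < β
    · have h1 : θs ≤ bet θs := le_bet (by linarith)
      have h2 : β ≤ bet β := le_bet (by linarith)
      obtain ⟨θ, hθ, h0⟩ := intermediate_value_Icc (show θs ≤ β by linarith)
        (th_bet_cont.mono (fun x hx => le_trans h hx.1)) ⟨hβ.le, h2⟩
      refine ⟨θ, fun _ => ⟨lt_of_le_of_ne hθ.1 ?_, h0⟩⟩
      intro he
      rw [← he] at h0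
      linarith
    · exact ⟨0, fun h' => absurd h' hβ⟩
  choose T hT using hex
  refine ⟨T, ?_, hT⟩
  have hmem : ∀ β, bet θs < β → T β ∈ Set.Ici (3 / 2 : ℝ) := fun β hβ =>
    le_trans h (hT β hβ).1.le
  have hmono : MonotoneOn T (Set.Ioi (bet θs)) := by
    intro a ha b hb hab
    by_contra hc
    have := th_bet_mono (hmem b hb) (hmem a ha) (not_le.1 hc)
    rw [(hT a ha).2, (hT b hb).2] at this
    linarith
  intro β hβ
  refine (continuousAt_of_monotoneOn_of_image_mem_nhds hmono (Ioi_mem_nhds hβ) ?_).continuousWithinAt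
  refine mem_of_superset (Ioi_mem_nhds (hT β hβ).1) ?_
  intro θ hθ
  have hθ' : θ ∈ Set.Ici (3 / 2 : ℝ) := le_trans h (le_of_lt hθ)
  have h1 : bet θs < bet θ := th_bet_mono h hθ' hθ
  exact ⟨bet θ, h1, th_bet_mono.injOn (hmem _ h1) hθ' (hT _ h1).2⟩

theorem th_left {u : ℝ → ℝ} {c x a : ℝ} (h : HasDerivAt u c x) (hc : 0 < c) (ha : a < x) :
    ∃ y, a < y ∧ y < x ∧ u y < u x := by
  have h1 := hasDerivAt_iff_tendsto_slope.1 h
  have h2 : ∀ᶠ y in 𝓝[<] x, 0 < slope u x y :=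
    (h1.eventually (lt_mem_nhds hc)).filter_mono (nhdsLT_le_nhdsNE x)
  have h3 : ∀ᶠ y in 𝓝[<] x, y ∈ Set.Ioo a x := Ioo_mem_nhdsLT ha
  obtain ⟨y, hy1, hy2⟩ := (h2.and h3).exists
  refine ⟨y, hy2.1, hy2.2, ?_⟩
  rw [slope_def_field] at hy1
  have h4 : y - x < 0 := by linarith [hy2.2]
  by_contra hn
  have := div_nonpos_of_nonneg_of_nonpos (show 0 ≤ u y - u x by linarith) h4.le
  linarith

theorem th_right {u : ℝ → ℝ} {c x : ℝ} (h : HasDerivAt u c x) (hc : 0 < c) :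
    ∃ y, x < y ∧ u x < u y := by
  have h1 := hasDerivAt_iff_tendsto_slope.1 h
  have h2 : ∀ᶠ y in 𝓝[>] x, 0 < slope u x y :=
    (h1.eventually (lt_mem_nhds hc)).filter_mono (nhdsGT_le_nhdsNE x)
  have h3 : ∀ᶠ y in 𝓝[>] x, y ∈ Set.Ioi x := self_mem_nhdsWithin
  obtain ⟨y, hy1, hy2⟩ := (h2.and h3).exists
  refine ⟨y, hy2, ?_⟩
  rw [slope_def_field] at hy1
  have h4 : 0 < y - x := sub_pos.2 hy2
  by_contra hn
  have := div_nonpos_of_nonpos_of_nonneg (show u y - u x ≤ 0 by linarith) h4.le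
  linarith

/-- near minimisers have the right triangle density. -/
theorem tri_close {θs θ : ℝ} (h : 3 / 2 ≤ θs) (hθ : θs < θ) (ε : ℝ) (hε : 0 < ε) :
    ∃ γ : ℝ, 0 < γ ∧ ∀ E t : ℝ, (∀ θ', θs ≤ θ' → fv θ' ≤ E + bet θ' / 3 * t) →
      E + bet θ / 3 * t ≤ fv θ + γ → |t - (1 - sg θ ^ 3)| ≤ ε := by
  have hθ' : 3 / 2 ≤ θ := by linarith
  obtain ⟨D, hD, hb, hf⟩ := hasDerivAt_bet_fv hθ'
  have h1 := ((hb.const_mul ((1 - sg θ ^ 3 + ε) / 3))).sub hf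
  have h2 := hf.sub ((hb.const_mul ((1 - sg θ ^ 3 - ε) / 3)))
  obtain ⟨y, hy1, hy2, hy3⟩ := th_left h1 (by nlinarith [mul_pos hD hε]) hθ
  obtain ⟨w, hw1, hw3⟩ := th_right h2 (by nlinarith [mul_pos hD hε])
  simp only [Pi.sub_apply] at hy3 hw3
  have hyb : bet y < bet θ := th_bet_mono (show 3 / 2 ≤ y by linarith) hθ' hy2
  have hwb : bet θ < bet w := th_bet_mono hθ' (show 3 / 2 ≤ w by linarith) hw1
  refine ⟨min (((1 - sg θ ^ 3 + ε) / 3 * bet θ - fv θ) - ((1 - sg θ ^ 3 + ε) / 3 * bet y - fv y))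
    ((fv w - (1 - sg θ ^ 3 - ε) / 3 * bet w) - (fv θ - (1 - sg θ ^ 3 - ε) / 3 * bet θ)),
    lt_min (by linarith) (by linarith), ?_⟩
  intro E t hE hE2
  have e1 := hE y hy1.le
  have e2 := hE w (by linarith)
  have m1 := min_le_left (((1 - sg θ ^ 3 + ε) / 3 * bet θ - fv θ) - ((1 - sg θ ^ 3 + ε) / 3 * bet y - fv y))
    ((fv w - (1 - sg θ ^ 3 - ε) / 3 * bet w) - (fv θ - (1 - sg θ ^ 3 - ε) / 3 * bet θ))
  have m2 := min_le_right (((1 - sg θ ^ 3 + ε) / 3 * bet θ - fv θ) - ((1 - sg θ ^ 3 + ε) / 3 * bet y - fv y))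
    ((fv w - (1 - sg θ ^ 3 - ε) / 3 * bet w) - (fv θ - (1 - sg θ ^ 3 - ε) / 3 * bet θ))
  rw [abs_le]
  constructor
  · have : (bet w - bet θ) * (1 - sg θ ^ 3 - ε) ≤ (bet w - bet θ) * t := by nlinarith
    have := le_of_mul_le_mul_left this (by linarith)
    linarith
  · have : (bet θ - bet y) * t ≤ (bet θ - bet y) * (1 - sg θ ^ 3 + ε) := by nlinarith
    have := le_of_mul_le_mul_left this (by linarith)
    linarith

end
end Pool.Agent.MP_b5eafd_co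

end

-- part MP_b5eafd_co.Two
section

/-
HINTS. detT > 0 iff exp D - 1 > D exp(D/2) iff sinh(D/2) > D/2.   With z = y - yT, g = gT, b = bT:
fT = F(z) = z^2 + (g+b) z + g - exp z (g + b z);  F(0) = F'(0) = 0 and F(D) = F'(D) = 0 (field_simp with detT).  b < 0 (2(e^D - 1) < D(e^D+1)).
F'' = 2 - exp z (g + 2b + b z), F''' = - exp z (g + 3b + b z) is negative for z < z0 and positive for z > z0 (z0 = -(g+3b)/b), so F'' is strictly
decreasing then strictly increasing, and F'' -> 2 at -infinity (or: F''(z) >= 2 - small).  Rolle: F' vanishes at 0, z1, D (0<z1<D), F'' vanishes at z2 in (0,z1), z3 in (z1,D).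
Hence z2 < z0 < z3, F'' > 0 on (-inf,z2) and (z3,inf), F'' < 0 on (z2,z3).  So F' < 0 on (-inf,0), > 0 on (0,z1), < 0 on (z1,D), > 0 on (D,inf); F is
strictly decreasing/increasing accordingly, which gives F >= 0 with zeros only at 0 and D.
value_pt: h(u) = lhs - rhs has h(u0) = h'(u0) = 0, h'' = 1/u - 2 kappa: convex on [0, 1/(2kappa)] which contains u0, concave after, h(M) >= 0.
-/

set_option autoImplicit false
open Finset Filter Topology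

namespace Pool.Agent.MP_b5eafd_co
noncomputable section
open Classical

theorem detT_pos {Δ : ℝ} (h : 0 < Δ) : 0 < detT Δ := by
  have h1 : Δ / 2 < Real.sinh (Δ / 2) := Real.self_lt_sinh_iff.2 (by linarith)
  rw [Real.sinh_eq] at h1
  have h2 : Real.exp Δ = Real.exp (Δ / 2) * Real.exp (Δ / 2) := by
    rw [← Real.exp_add]; ring_nf
  have h3 : Real.exp (-(Δ / 2)) * Real.exp (Δ / 2) = 1 := by
    rw [← Real.exp_add]; simp
  have hw := Real.exp_pos (Δ / 2)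
  unfold detT
  rw [h2]
  generalize Real.exp (Δ / 2) = w at *
  generalize Real.exp (-(Δ / 2)) = v at *
  have h4 : Δ * w < w * w - 1 := by nlinarith
  have h5 : 0 < Δ * w := by positivity
  nlinarith

theorem two_mono {f f' : ℝ → ℝ} (hf : ∀ x, HasDerivAt f (f' x) x) {a b : ℝ} (hab : a < b)
    (h : ∀ x, a < x → x < b → 0 < f' x) : f a < f b := by
  obtain ⟨c, hc, hc2⟩ := exists_hasDerivAt_eq_slope f f' hab
    (fun x _ => (hf x).continuousAt.continuousWithinAt) (fun x _ => hf x)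
  have h1 := h c hc.1 hc.2
  rw [hc2] at h1
  have := (div_pos_iff_of_pos_right (sub_pos.2 hab)).1 h1
  linarith

theorem two_anti {f f' : ℝ → ℝ} (hf : ∀ x, HasDerivAt f (f' x) x) {a b : ℝ} (hab : a < b)
    (h : ∀ x, a < x → x < b → f' x < 0) : f b < f a := by
  have := two_mono (f := fun x => -f x) (f' := fun x => -f' x) (fun x => (hf x).neg) hab
    (fun x h1 h2 => by linarith [h x h1 h2])
  linarith

theorem two_rolle {f f' : ℝ → ℝ} (hf : ∀ x, HasDerivAt f (f' x) x) {a b : ℝ} (hab : a < b)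
    (h : f a = f b) : ∃ c, a < c ∧ c < b ∧ f' c = 0 := by
  obtain ⟨c, hc, hc2⟩ := exists_hasDerivAt_eq_zero hab
    (fun x _ => (hf x).continuousAt.continuousWithinAt) h (fun x _ => hf x)
  exact ⟨c, hc.1, hc.2, hc2⟩

theorem two_abstract {F P H K : ℝ → ℝ} (hF : ∀ x, HasDerivAt F (P x) x)
    (hP : ∀ x, HasDerivAt P (H x) x) (hH : ∀ x, HasDerivAt H (K x) x) {z0 D : ℝ} (hD : 0 < D)
    (hK1 : ∀ z, z < z0 → K z < 0) (hK2 : ∀ z, z0 < z → 0 < K z)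
    (hF0 : F 0 = 0) (hP0 : P 0 = 0) (hFD : F D = 0) (hPD : P D = 0) (z : ℝ) (hz0 : z ≠ 0)
    (hzD : z ≠ D) : 0 < F z := by
  obtain ⟨z1, h11, h12, h13⟩ := two_rolle hF hD (by rw [hF0, hFD])
  obtain ⟨z2, h21, h22, h23⟩ := two_rolle hP h11 (by rw [hP0, h13])
  obtain ⟨z3, h31, h32, h33⟩ := two_rolle hP h12 (by rw [hPD, h13])
  have h23' : z2 < z3 := by linarith
  have ha : z2 < z0 := by
    by_contra hn
    have := two_mono hH h23' (fun x h1 _ => hK2 x (by linarith))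
    linarith
  have hb : z0 < z3 := by
    by_contra hn
    have := two_anti hH h23' (fun x _ h2 => hK1 x (by linarith))
    linarith
  have H1 : ∀ x, x < z2 → 0 < H x := fun x hx => by
    have := two_anti hH hx (fun y _ h2 => hK1 y (by linarith))
    linarith
  have H2 : ∀ x, z2 < x → x < z3 → H x < 0 := fun x hx hx' => by
    rcases le_total x z0 with h | h
    · have := two_anti hH hx (fun y _ h2 => hK1 y (by linarith))
      linarith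
    · have := two_mono hH hx' (fun y h1 _ => hK2 y (by linarith))
      linarith
  have H3 : ∀ x, z3 < x → 0 < H x := fun x hx => by
    have := two_mono hH hx (fun y h1 _ => hK2 y (by linarith))
    linarith
  have P1 : ∀ x, x < 0 → P x < 0 := fun x hx => by
    have := two_mono hP hx (fun y _ h2 => H1 y (by linarith))
    linarith
  have P2 : ∀ x, 0 < x → x < z1 → 0 < P x := fun x hx hx' => by
    rcases le_total x z2 with h | h
    · have := two_mono hP hx (fun y _ h2 => H1 y (by linarith))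
      linarith
    · have := two_anti hP hx' (fun y h1 h2 => H2 y (by linarith) (by linarith))
      linarith
  have P3 : ∀ x, z1 < x → x < D → P x < 0 := fun x hx hx' => by
    rcases le_total x z3 with h | h
    · have := two_anti hP hx (fun y h1 h2 => H2 y (by linarith) (by linarith))
      linarith
    · have := two_mono hP hx' (fun y h1 _ => H3 y (by linarith))
      linarith
  have P4 : ∀ x, D < x → 0 < P x := fun x hx => by
    have := two_mono hP hx (fun y h1 _ => H3 y (by linarith))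
    linarith
  rcases lt_or_gt_of_ne hz0 with h | h
  · have := two_anti hF h (fun y _ h2 => P1 y h2)
    linarith
  · rcases lt_or_gt_of_ne hzD with h' | h'
    · rcases le_total z z1 with h'' | h''
      · have := two_mono hF h (fun y h1 h2 => P2 y h1 (by linarith))
        linarith
      · have := two_anti hF h' (fun y h1 h2 => P3 y (by linarith) h2)
        linarith
    · have := two_mono hF h' (fun y h1 _ => P4 y h1)
      linarith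

theorem two_bT_neg {Δ : ℝ} (h : 0 < Δ) : bT Δ < 0 := by
  have hd := detT_pos h
  have h1 : ∀ x : ℝ, HasDerivAt (fun x => x * (Real.exp x + 1) - 2 * (Real.exp x - 1))
      (1 + (x - 1) * Real.exp x) x := by
    intro x
    have := ((hasDerivAt_id' x).mul ((Real.hasDerivAt_exp x).add_const 1)).sub
      (((Real.hasDerivAt_exp x).sub_const 1).const_mul 2)
    refine HasDerivAt.congr_deriv this ?_
    ring
  have h2 := two_mono h1 h (fun x hx _ => by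
    have e1 := Real.add_one_lt_exp (x := -x) (by linarith)
    have e2 : Real.exp (-x) * Real.exp x = 1 := by rw [← Real.exp_add]; simp
    have e3 := Real.exp_pos x
    nlinarith)
  simp only [Real.exp_zero, zero_mul, sub_self, mul_zero] at h2
  unfold bT
  apply div_neg_of_neg_of_pos _ hd
  apply mul_neg_of_pos_of_neg h
  linarith

theorem two_fT_eq (C Δ y : ℝ) : fT C Δ y = (y - yT C Δ) ^ 2 + (gT Δ + bT Δ) * (y - yT C Δ) + gT Δ
    - Real.exp (y - yT C Δ) * (gT Δ + bT Δ * (y - yT C Δ)) := by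
  have h1 : Real.exp (y - yT C Δ) = Real.exp (-yT C Δ) * Real.exp y := by
    rw [← Real.exp_add]; ring_nf
  have h2 : C = 2 * yT C Δ - gT Δ - bT Δ := by unfold yT; ring
  rw [h1]
  unfold fT dC aC bC
  generalize yT C Δ = t at *
  rw [h2]
  ring

theorem two_F_pos {Δ : ℝ} (h : 0 < Δ) (z : ℝ) (hz0 : z ≠ 0) (hzD : z ≠ Δ) :
    0 < z ^ 2 + (gT Δ + bT Δ) * z + gT Δ - Real.exp z * (gT Δ + bT Δ * z) := by
  have hb := two_bT_neg h
  have hd := detT_pos h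
  refine two_abstract
    (F := fun z => z ^ 2 + (gT Δ + bT Δ) * z + gT Δ - Real.exp z * (gT Δ + bT Δ * z))
    (P := fun z => 2 * z + (gT Δ + bT Δ) - Real.exp z * (gT Δ + bT Δ + bT Δ * z))
    (H := fun z => 2 - Real.exp z * (gT Δ + 2 * bT Δ + bT Δ * z))
    (K := fun z => - (Real.exp z * (gT Δ + 3 * bT Δ + bT Δ * z)))
    (z0 := -(gT Δ + 3 * bT Δ) / bT Δ) ?_ ?_ ?_ h ?_ ?_ ?_ ?_ ?_ ?_ z hz0 hzD
  · intro x
    have := ((((hasDerivAt_id' x).fun_pow 2).add ((hasDerivAt_id' x).const_mul (gT Δ + bT Δ))).add_const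
      (gT Δ)).sub ((Real.hasDerivAt_exp x).mul (((hasDerivAt_id' x).const_mul (bT Δ)).const_add (gT Δ)))
    refine HasDerivAt.congr_deriv this ?_
    simp only [Nat.cast_ofNat, Nat.add_one_sub_one, pow_one]
    ring
  · intro x
    have := ((((hasDerivAt_id' x).const_mul 2)).add_const
      (gT Δ + bT Δ)).sub ((Real.hasDerivAt_exp x).mul
        (((hasDerivAt_id' x).const_mul (bT Δ)).const_add (gT Δ + bT Δ)))
    refine HasDerivAt.congr_deriv this ?_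
    ring
  · intro x
    have := ((Real.hasDerivAt_exp x).mul
        (((hasDerivAt_id' x).const_mul (bT Δ)).const_add (gT Δ + 2 * bT Δ))).const_sub 2
    refine HasDerivAt.congr_deriv this ?_
    ring
  · intro x hx
    rw [lt_div_iff_of_neg hb] at hx
    have : 0 < Real.exp x * (gT Δ + 3 * bT Δ + bT Δ * x) :=
      mul_pos (Real.exp_pos x) (by linarith)
    show - (Real.exp x * (gT Δ + 3 * bT Δ + bT Δ * x)) < 0
    linarith
  · intro x hx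
    rw [div_lt_iff_of_neg hb] at hx
    have : Real.exp x * (gT Δ + 3 * bT Δ + bT Δ * x) < 0 :=
      mul_neg_of_pos_of_neg (Real.exp_pos x) (by linarith)
    show 0 < - (Real.exp x * (gT Δ + 3 * bT Δ + bT Δ * x))
    linarith
  · simp
  · simp
  · show Δ ^ 2 + (gT Δ + bT Δ) * Δ + gT Δ - Real.exp Δ * (gT Δ + bT Δ * Δ) = 0
    unfold gT bT
    field_simp
    unfold detT
    ring
  · show 2 * Δ + (gT Δ + bT Δ) - Real.exp Δ * (gT Δ + bT Δ + bT Δ * Δ) = 0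
    unfold gT bT
    field_simp
    unfold detT
    ring

theorem two_F_zero {Δ : ℝ} (h : 0 < Δ) :
    Δ ^ 2 + (gT Δ + bT Δ) * Δ + gT Δ - Real.exp Δ * (gT Δ + bT Δ * Δ) = 0 := by
  have hd := detT_pos h
  unfold gT bT
  field_simp
  unfold detT
  ring

theorem two_point (C : ℝ) {Δ : ℝ} (h : 0 < Δ) (y : ℝ) :
    0 ≤ fT C Δ y ∧ (fT C Δ y = 0 → y = yT C Δ ∨ y = yT C Δ + Δ) := by
  rw [two_fT_eq]
  by_cases h0 : y - yT C Δ = 0
  · refine ⟨?_, fun _ => Or.inl (by linarith)⟩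
    rw [h0]; simp
  by_cases h1 : y - yT C Δ = Δ
  · refine ⟨?_, fun _ => Or.inr (by linarith)⟩
    rw [h1, two_F_zero h]
  have := two_F_pos h _ h0 h1
  exact ⟨this.le, fun h2 => absurd h2 this.ne'⟩

theorem value_pt (u0 κ M u : ℝ) (h0 : 0 < u0) (hκ : 0 ≤ κ) (hκ1 : 2 * κ * u0 ≤ 1) (hu0 : 0 ≤ u)
    (huM : u ≤ M) (hM0 : u0 ≤ M)
    (hM : u0 * Real.log u0 + (1 + Real.log u0) * (M - u0) + κ * (M - u0) ^ 2 ≤ M * Real.log M) :
    u0 * Real.log u0 + (1 + Real.log u0) * (u - u0) + κ * (u - u0) ^ 2 ≤ u * Real.log u := by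
  have hc : Continuous (fun x : ℝ => x * Real.log x - (1 + Real.log u0) * (x - u0)
      - κ * (x - u0) ^ 2) := by
    refine (Real.continuous_mul_log.sub ?_).sub ?_ <;> fun_prop
  have hd : ∀ x : ℝ, 0 < x → HasDerivAt (fun x : ℝ => x * Real.log x - (1 + Real.log u0) * (x - u0)
      - κ * (x - u0) ^ 2) (Real.log x - Real.log u0 - 2 * κ * (x - u0)) x := by
    intro x hx
    have := ((Real.hasDerivAt_mul_log hx.ne').sub
      (((hasDerivAt_id' x).sub_const u0).const_mul (1 + Real.log u0))).sub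
      ((((hasDerivAt_id' x).sub_const u0).fun_pow 2).const_mul κ)
    refine HasDerivAt.congr_deriv this ?_
    simp only [Nat.cast_ofNat, Nat.add_one_sub_one, pow_one]
    ring
  by_contra hn
  rw [not_le] at hn
  rcases lt_trichotomy u u0 with h | h | h
  · obtain ⟨c, hc1, hc2⟩ := exists_hasDerivAt_eq_slope _ _ h hc.continuousOn
      (fun x hx => hd x (lt_of_le_of_lt hu0 hx.1))
    have hc0 : 0 < c := lt_of_le_of_lt hu0 hc1.1
    have e1 : Real.log c - Real.log u0 ≤ (c - u0) / u0 := by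
      rw [← Real.log_div hc0.ne' h0.ne']
      refine le_trans (Real.log_le_sub_one_of_pos (div_pos hc0 h0)) (le_of_eq ?_)
      field_simp
    have e2 : (c - u0) / u0 ≤ 2 * κ * (c - u0) := by
      rw [div_le_iff₀ h0]
      nlinarith [hc1.2]
    have e3 : 0 < (u0 * Real.log u0 - (1 + Real.log u0) * (u0 - u0) - κ * (u0 - u0) ^ 2
        - (u * Real.log u - (1 + Real.log u0) * (u - u0) - κ * (u - u0) ^ 2)) / (u0 - u) := by
      apply div_pos _ (sub_pos.2 h)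
      nlinarith
    rw [← hc2] at e3
    linarith
  · rw [h] at hn
    simp at hn
  · have huM' : u < M := by
      refine lt_of_le_of_ne huM ?_
      intro he
      rw [he] at hn
      linarith
    obtain ⟨c, hc1, hc2⟩ := exists_hasDerivAt_eq_slope _ _ h hc.continuousOn
      (fun x hx => hd x (lt_trans h0 hx.1))
    obtain ⟨d, hd1, hd2⟩ := exists_hasDerivAt_eq_slope _ _ huM' hc.continuousOn
      (fun x hx => hd x (lt_trans (lt_trans h0 h) hx.1))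
    have e1 : Real.log c - Real.log u0 - 2 * κ * (c - u0) < 0 := by
      rw [hc2]
      apply div_neg_of_neg_of_pos _ (sub_pos.2 h)
      nlinarith
    have e2 : 0 < Real.log d - Real.log u0 - 2 * κ * (d - u0) := by
      rw [hd2]
      apply div_pos _ (sub_pos.2 huM')
      nlinarith
    have hcd : c < d := lt_trans hc1.2 hd1.1
    have hud : 0 < d - u0 := by linarith [hc1.1]
    have hl0 : 0 ≤ (c - u0) / (d - u0) := div_nonneg (by linarith [hc1.1]) hud.le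
    have hl1 : 0 ≤ (d - c) / (d - u0) := div_nonneg (by linarith) hud.le
    have hs : (d - c) / (d - u0) + (c - u0) / (d - u0) = 1 := by
      field_simp
      ring
    have e3 := strictConcaveOn_log_Ioi.concaveOn.2 (show u0 ∈ Set.Ioi (0 : ℝ) from h0)
      (show d ∈ Set.Ioi (0 : ℝ) from lt_trans (lt_trans h0 h) hd1.1) hl1 hl0 hs
    have e4 : ((d - c) / (d - u0)) • u0 + ((c - u0) / (d - u0)) • d = c := by
      simp only [smul_eq_mul]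
      field_simp
      ring
    rw [e4] at e3
    simp only [smul_eq_mul] at e3
    have e5 : (c - u0) / (d - u0) * (d - u0) = c - u0 := by field_simp
    have e6 : (d - c) / (d - u0) = 1 - (c - u0) / (d - u0) := by linarith
    rw [e6] at e3
    have e7 := mul_nonneg hl0 e2.le
    have e8 : (c - u0) / (d - u0) * (Real.log d - Real.log u0 - 2 * κ * (d - u0))
        = (c - u0) / (d - u0) * (Real.log d - Real.log u0) - 2 * κ * ((c - u0) / (d - u0) * (d - u0)) := by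
      ring
    rw [e8, e5] at e7
    nlinarith

end
end Pool.Agent.MP_b5eafd_co

end

-- part MP_b5eafd_co.LinkTight
section

/-
HINTS. The programs (Gen.lean) are straight line programs; readable source in team-store h88_progs.py (functions base, rowt, cellt, cells).
io = theta⁻¹, z = exp(-2 theta) in (0,1), q = theta^2 z, so q io = theta z, q io^2 = z; sigma = sg theta = (1-z)/(1+z) (th_sg_z in Th.lean), cosh theta = exp theta (1+z)/2,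
beta = theta/sigma^2, beta sigma^2 = theta, kap = beta - theta = 4 theta z/(1-z)^2, dz = (1-z)^2 - 4 theta^2 z = z^2 detT(2 theta) > 0 (detT_pos; exp(2 theta) = z⁻¹).
gT(2theta) = z g', bT(2theta) = z b', g' = 4 theta^2 (2 theta - 1 + z)/dz, b' = 4 theta (1 - z - theta (1+z))/dz;  C = -2 theta - gT - bT = -theta cn, yT C (2theta) = -theta.
cosh theta * aC = (1+z)/2 (g' + b' theta), cosh theta * bC = (1+z)/2 b' = theta^2 bb;  cosh theta * bE(2theta, e) = theta^2 (W0t - bb bh + w1t e)  (beta u^3 = theta sigma - bh),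
dC C (2theta) = theta^2 (W0t - 1), W0t = 2(1-z)^2/dz.  ch0 = E cosh theta, E = exp(-(2/3) bh).  TE(2theta, e) = T00 + w e with w = E theta^2 w1t is affine in e, theta^2/beta^2 = sigma^4.
First prove these as separate lemmas in the variables theta, z (atoms; field_simp; ring), never unfold everything at once.
Row inequality for Delta: LHS - RHS = e^2 (K0/(1+e) + w/beta^2 - l2) - (a-e)(TE Delta e - TE (2theta) e)/beta^2 - a (T00/beta^2 - u^4), and a >= 0.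
For Delta = 2 theta - dj: zj = z exp dj = exp(-Delta), gT Delta = zj gp, bT Delta = zj bp (same formulas), yT = y, ch0 exp(-y) zj = E (1+z)/2 exp(dj - theta - y).
 (if 1 - zj etc. vanish nothing breaks: Delta > 0 is part of rtjR, so detT Delta > 0.)
tight_base_semi: h = sigma^3 - u^3 >= 0, bh = beta h, E >= 1 - 2bh/3, W0t - bb bh > 0 since bb < 0 (theta(1+z) > 1-z),
 T00 - theta^2 >= theta^2 bh (-bb (1 - 2bh/3) - (2/3) W0t), beta^2 u^4 - theta^2 = -beta^2 (sigma^4 - u^4) <= -(4/3) beta u bh since sigma^4 - u^4 >= (4/3) u (sigma^3 - u^3).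
tight_cell: EmOK with y0 = theta - r: beta + 1 - y0 = kap + 1 + r, theta - beta u^3 = 2 theta z/(1+z) + bh, exp y0 / ch0 = 2 exp(2bh/3 - r)/(1+z), exp beta / ch0 = 2 exp(kap + 2bh/3)/(1+z).
tight_ch: IsStar gives log cosh theta = 2 theta sigma/3 = 2 beta sigma^3/3.
-/

set_option autoImplicit false

namespace Pool.Agent.MP_b5eafd_co
noncomputable section

/-- `θ^2 exp (-2θ)`. -/
def qT (θ : ℝ) : ℝ := θ ^ 2 * Real.exp (-(2 * θ))
/-- `β (σ^3 - u^3)`. -/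
def bhT (θ u : ℝ) : ℝ := bet θ * (sg θ ^ 3 - u ^ 3)
def Pt0 (θ u K0 em l2 V : ℝ) : Par :=
  ⟨bet θ, u, Real.exp (-(2 / 3 * bhT θ u)) * Real.cosh θ, -(2 * θ) - gT (2 * θ) - bT (2 * θ), 1, K0, em,
    0, 0, l2, V⟩
/-- parameters in the tight regimes. -/
def Pt (θ u K0 em l2 V : ℝ) : Par :=
  { Pt0 θ u K0 em l2 V with
    l1 := ((Pt0 θ u K0 em l2 V).TE (2 * θ) 0 - (Pt0 θ u K0 em l2 V).a *
      ((Pt0 θ u K0 em l2 V).TE (2 * θ) 1 - (Pt0 θ u K0 em l2 V).TE (2 * θ) 0)) / bet θ ^ 2 }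

/-- the row inequality at one point. -/
def RowAt (P : Par) (Δ e : ℝ) : Prop :=
  0 < Δ ∧ 0 < P.bE Δ e ∧
    P.K0 * P.s ^ 2 * e ^ 2 / (1 + e) - (P.a - e) * P.TE Δ e / P.β ^ 2 ≤
      -(P.a * P.u ^ 4) - P.m0 + P.l1 * e + P.l2 * e ^ 2

namespace LinkTightAux

def bz (io q : ℝ) : ℝ := q * io * io
def bsg (io q : ℝ) : ℝ := (1 - bz io q) * (1 + bz io q)⁻¹
def bkap (io q : ℝ) : ℝ := 4 * (q * io) * ((1 - bz io q) ^ 2)⁻¹
def bidz (io q : ℝ) : ℝ := ((1 - bz io q) ^ 2 - 4 * q)⁻¹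
def bnb (io q : ℝ) : ℝ := io * (1 - bz io q) - (1 + bz io q)
def bcn (io q : ℝ) : ℝ :=
  2 + 4 * q * (2 - io * (1 - bz io q)) * bidz io q + 4 * (q * io) * bnb io q * bidz io q
def bw1 (io q : ℝ) : ℝ :=
  2 * (1 + bz io q) * (1 - bz io q - 2 * (q * io) + (2 + bkap io q) * bnb io q) * bidz io q
def bW0 (io q : ℝ) : ℝ := 2 * (1 - bz io q) ^ 2 * bidz io q
def bbb (io q : ℝ) : ℝ := 2 * bnb io q * (1 + bz io q) * bidz io q
def gp (D w : ℝ) : ℝ := D ^ 2 * (D - (1 - w)) * ((1 - w) ^ 2 - D ^ 2 * w)⁻¹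
def bp (D w : ℝ) : ℝ := D * (2 * (1 - w) - D * (1 + w)) * ((1 - w) ^ 2 - D ^ 2 * w)⁻¹
def bc2 (io q bh K0 l2 e : ℝ) : ℝ :=
  K0 * (1 + e)⁻¹ + Real.exp (0 - 2 / 3 * bh) * bw1 io q * (bsg io q ^ 2) ^ 2 - l2
def bb0 (io q bh e : ℝ) : ℝ := bW0 io q - bbb io q * bh + bw1 io q * e
def by0 (io q D w : ℝ) : ℝ := (0 - io⁻¹ * bcn io q + w * (gp D w + bp D w)) * (1 / 2)
def bBj (io q bh e D w : ℝ) : ℝ :=
  (gp D w - bp D w * by0 io q D w) * (1 + e)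
    + bp D w * (io⁻¹ * bsg io q - bh + (io⁻¹ + bkap io q + 2) * e)
def bTj (io q bh e dj D w : ℝ) : ℝ :=
  Real.exp (0 - 2 / 3 * bh) * (1 + bz io q) * (1 / 2) * Real.exp (dj - io⁻¹ - by0 io q D w)
      * bBj io q bh e D w
    - (w * gp D w - by0 io q D w ^ 2 + (0 - io⁻¹ * bcn io q) * by0 io q D w)

theorem rt0_iff (io q a bh K0 l2 e dj : ℝ) :
    rt0R io q a bh K0 l2 e dj ↔ bc2 io q bh K0 l2 e < 0 ∧ 0 < bb0 io q bh e := by
  simp only [rt0R, Nat.cast_ofNat, Nat.cast_one, Nat.cast_zero]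
  exact Iff.rfl

theorem rtj_iff (io q a bh K0 l2 e dj : ℝ) :
    rtjR io q a bh K0 l2 e dj ↔ 0 < 2 * io⁻¹ - dj ∧
      0 < bBj io q bh e (2 * io⁻¹ - dj) (bz io q * Real.exp dj) ∧
      e ^ 2 * bc2 io q bh K0 l2 e - (a - e) *
        (bTj io q bh e dj (2 * io⁻¹ - dj) (bz io q * Real.exp dj) * (bsg io q ^ 2 * io) ^ 2
          - (bsg io q ^ 2) ^ 2 * (Real.exp (0 - 2 / 3 * bh) * bb0 io q bh e - bW0 io q + 1)) < 0 := by
  simp only [rtjR, Nat.cast_ofNat, Nat.cast_one, Nat.cast_zero]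
  exact Iff.rfl

theorem ct0_iff (io q u bh K0 em V r : ℝ) :
    ct0R io q u bh K0 em V r ↔ 0 < bkap io q + 1 + r ∧
      0 < 2 * (q * io) * (1 + bz io q)⁻¹ + bh - r + 1
        - 2 * Real.exp (2 / 3 * bh - r) * (1 + bz io q)⁻¹ + em * (bkap io q + 1 + r) ∧
      0 < V - 206 / 100 * Real.exp (bkap io q + 2 / 3 * bh) * (1 + bz io q)⁻¹ ∧
      0 < 2 + bsg io q ^ 2 * bcn io q ∧ 0 < 1 + u - K0 ∧ 0 < em ∧ 0 < 1 - em := by
  simp only [ct0R, Nat.cast_ofNat, Nat.cast_one]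
  exact Iff.rfl

theorem cs0_iff (io q u bh : ℝ) :
    cs0R io q u bh ↔ 0 < 4 / 3 * u * io ^ 2 * (bsg io q ^ 2 * io)⁻¹
      - bbb io q * (1 - 2 / 3 * bh) - 2 / 3 * bW0 io q := by
  simp only [cs0R, Nat.cast_ofNat, Nat.cast_one]
  exact Iff.rfl

theorem cvU_eq (io q : ℝ) : cvUR io q = bsg io q := by
  simp only [cvUR, Nat.cast_one]
  rfl

theorem cvEps_eq (io q : ℝ) : cvEpsR io q = bsg io q ^ 2 * io := by
  simp only [cvEpsR, Nat.cast_one]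
  rfl

theorem cvA_eq (io q : ℝ) : cvAR io q =
    q * io * (1 + bsg io q + bsg io q ^ 2) * (1 + bz io q) * ((1 - bz io q) ^ 2)⁻¹ := by
  simp only [cvAR, Nat.cast_one]
  rfl

theorem cvL_eq (io q : ℝ) : cvLR io q = 2 + bsg io q ^ 2 * bcn io q := by
  simp only [cvLR, Nat.cast_one, Nat.cast_ofNat]
  rfl

theorem smA_eq (io q u : ℝ) : smAR io q u = (1 - u ^ 2 * u) * (2 * (bsg io q ^ 2 * io))⁻¹ := by
  simp only [smAR, Nat.cast_one, Nat.cast_ofNat]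
  rfl

theorem smH_eq (io q u : ℝ) :
    smHR io q u = (bsg io q ^ 2 * bsg io q - u ^ 2 * u) * (bsg io q ^ 2 * io)⁻¹ := by
  simp only [smHR, Nat.cast_one]
  rfl

/-- the two point coefficients in the variable `w = exp (-D)`. -/
theorem gb_eq {D : ℝ} (hD : 0 < D) :
    0 < (1 - Real.exp (-D)) ^ 2 - D ^ 2 * Real.exp (-D) ∧
    gT D = Real.exp (-D) * gp D (Real.exp (-D)) ∧
    bT D = Real.exp (-D) * bp D (Real.exp (-D)) := by
  have hd := detT_pos hD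
  have hR := Real.exp_pos D
  have hw : Real.exp (-D) = (Real.exp D)⁻¹ := Real.exp_neg D
  unfold gT bT gp bp
  unfold detT at hd ⊢
  rw [hw]
  generalize Real.exp D = R at *
  have e1 : (1 - R⁻¹) ^ 2 - D ^ 2 * R⁻¹ = ((R - 1) ^ 2 - D ^ 2 * R) / R ^ 2 := by
    field_simp
  rw [e1]
  generalize (R - 1) ^ 2 - D ^ 2 * R = d at *
  refine ⟨by positivity, ?_, ?_⟩
  · field_simp
    ring
  · field_simp

theorem z_lt {θ : ℝ} (hθ : 0 < θ) : Real.exp (-(2 * θ)) < 1 := by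
  rw [Real.exp_lt_one_iff]
  linarith

theorem sg_z (θ : ℝ) : sg θ = (1 - Real.exp (-(2 * θ))) * (1 + Real.exp (-(2 * θ)))⁻¹ := by
  rw [th_sg_z, neg_mul, div_eq_mul_inv]

theorem cosh_z (θ : ℝ) : Real.cosh θ = Real.exp θ / 2 * (1 + Real.exp (-(2 * θ))) := by
  rw [th_cosh, neg_mul]

theorem tz_eq {θ : ℝ} (hθ : 0 < θ) : qT θ * θ⁻¹ = θ * Real.exp (-(2 * θ)) := by
  unfold qT
  field_simp

theorem bz_eq {θ : ℝ} (hθ : 0 < θ) : bz θ⁻¹ (qT θ) = Real.exp (-(2 * θ)) := by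
  unfold bz qT
  field_simp

theorem bsg_eq {θ : ℝ} (hθ : 0 < θ) : bsg θ⁻¹ (qT θ) = sg θ := by
  unfold bsg
  rw [bz_eq hθ, sg_z]

theorem bet_pos {θ : ℝ} (hθ : 0 < θ) : 0 < bet θ := lt_of_lt_of_le hθ (le_bet hθ)

theorem bet_sg {θ : ℝ} (hθ : 0 < θ) : bet θ * sg θ ^ 2 = θ := by
  have := sg_pos hθ
  unfold bet
  field_simp

theorem eps_eq {θ : ℝ} (hθ : 0 < θ) : sg θ ^ 2 * θ⁻¹ = (bet θ)⁻¹ := by
  unfold bet
  rw [inv_div, div_eq_mul_inv]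

theorem bkap_eq {θ : ℝ} (hθ : 0 < θ) : bkap θ⁻¹ (qT θ) = bet θ - θ := by
  unfold bkap bet
  rw [bz_eq hθ, tz_eq hθ, sg_z]
  have h1 := z_lt hθ
  have h0 := Real.exp_pos (-(2 * θ))
  generalize Real.exp (-(2 * θ)) = z at *
  have h2 : 1 - z ≠ 0 := by linarith
  have h3 : 1 + z ≠ 0 := by linarith
  field_simp
  ring

theorem dz_pos {θ : ℝ} (hθ : 0 < θ) :
    0 < (1 - Real.exp (-(2 * θ))) ^ 2 - (2 * θ) ^ 2 * Real.exp (-(2 * θ)) :=
  (gb_eq (D := 2 * θ) (by linarith)).1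

theorem bidz_eq {θ : ℝ} (hθ : 0 < θ) : bidz θ⁻¹ (qT θ) =
    ((1 - Real.exp (-(2 * θ))) ^ 2 - (2 * θ) ^ 2 * Real.exp (-(2 * θ)))⁻¹ := by
  unfold bidz
  rw [bz_eq hθ]
  unfold qT
  congr 1
  ring

theorem bcn_eq {θ : ℝ} (hθ : 0 < θ) :
    0 - θ * bcn θ⁻¹ (qT θ) = -(2 * θ) - gT (2 * θ) - bT (2 * θ) := by
  obtain ⟨-, hg, hb⟩ := gb_eq (D := 2 * θ) (by linarith)
  rw [hg, hb]
  unfold bcn bnb gp bp
  rw [bidz_eq hθ, bz_eq hθ, tz_eq hθ]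
  unfold qT
  generalize Real.exp (-(2 * θ)) = z at *
  generalize ((1 - z) ^ 2 - (2 * θ) ^ 2 * z)⁻¹ = i
  field_simp
  ring

theorem bbb_neg {θ : ℝ} (hθ : 0 < θ) : bbb θ⁻¹ (qT θ) < 0 := by
  obtain ⟨-, -, hb⟩ := gb_eq (D := 2 * θ) (by linarith)
  have hn := two_bT_neg (Δ := 2 * θ) (by linarith)
  rw [hb] at hn
  have h0 := Real.exp_pos (-(2 * θ))
  have hn' : bp (2 * θ) (Real.exp (-(2 * θ))) < 0 := by
    by_contra hc
    have := mul_nonneg h0.le (not_lt.1 hc)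
    linarith
  have e : bbb θ⁻¹ (qT θ) = (1 + Real.exp (-(2 * θ))) / (2 * θ ^ 2)
      * bp (2 * θ) (Real.exp (-(2 * θ))) := by
    unfold bbb bnb bp
    rw [bidz_eq hθ, bz_eq hθ]
    generalize Real.exp (-(2 * θ)) = z at *
    generalize ((1 - z) ^ 2 - (2 * θ) ^ 2 * z)⁻¹ = i
    field_simp
  rw [e]
  exact mul_neg_of_pos_of_neg (by positivity) hn'

theorem bW0_nonneg {θ : ℝ} (hθ : 0 < θ) : 0 ≤ bW0 θ⁻¹ (qT θ) := by
  unfold bW0
  rw [bidz_eq hθ]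
  have := dz_pos hθ
  positivity

theorem bu3_eq {θ : ℝ} (hθ : 0 < θ) (u : ℝ) : bet θ * u ^ 3 = θ * sg θ - bhT θ u := by
  have h := bet_sg hθ
  unfold bhT
  linear_combination (sg θ) * h

theorem by0_eq {θ D : ℝ} (hθ : 0 < θ) (hD : 0 < D) :
    by0 θ⁻¹ (qT θ) D (Real.exp (-D)) = yT (-(2 * θ) - gT (2 * θ) - bT (2 * θ)) D := by
  obtain ⟨-, hg, hb⟩ := gb_eq hD
  unfold by0 yT
  rw [inv_inv, bcn_eq hθ, hg, hb]
  ring

/-- `bE` at a general `D`. -/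
theorem bE_eq {θ D : ℝ} (hθ : 0 < θ) (hD : 0 < D) (u K0 em l2 V e : ℝ) :
    (Pt θ u K0 em l2 V).bE D e = Real.exp (-by0 θ⁻¹ (qT θ) D (Real.exp (-D))) * Real.exp (-D)
      * bBj θ⁻¹ (qT θ) (bhT θ u) e D (Real.exp (-D)) := by
  obtain ⟨-, hg, hb⟩ := gb_eq hD
  have h1 : (Pt θ u K0 em l2 V).bE D e =
      aC (-(2 * θ) - gT (2 * θ) - bT (2 * θ)) D * (1 + e)
      + bC (-(2 * θ) - gT (2 * θ) - bT (2 * θ)) D * (bet θ * u ^ 3 + (bet θ + 2) * e) := rfl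
  rw [h1]
  unfold bBj aC bC
  rw [by0_eq hθ hD, inv_inv, bkap_eq hθ, bsg_eq hθ, bu3_eq hθ]
  generalize yT (-(2 * θ) - gT (2 * θ) - bT (2 * θ)) D = y
  rw [hg, hb]
  ring

/-- `TE` at `D = 2 θ - dj`. -/
theorem TE_eq {θ dj : ℝ} (hθ : 0 < θ) (hD : 0 < 2 * θ - dj) (u K0 em l2 V e : ℝ) :
    (Pt θ u K0 em l2 V).TE (2 * θ - dj) e =
      bTj θ⁻¹ (qT θ) (bhT θ u) e dj (2 * θ - dj) (Real.exp (-(2 * θ - dj))) := by
  obtain ⟨-, hg, hb⟩ := gb_eq hD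
  have h1 : (Pt θ u K0 em l2 V).TE (2 * θ - dj) e =
      Real.exp (-(2 / 3 * bhT θ u)) * Real.cosh θ * (Pt θ u K0 em l2 V).bE (2 * θ - dj) e
      - dC (-(2 * θ) - gT (2 * θ) - bT (2 * θ)) (2 * θ - dj) := rfl
  rw [h1, bE_eq hθ hD]
  unfold bTj dC
  rw [← by0_eq hθ hD, inv_inv, bcn_eq hθ, bz_eq hθ, zero_sub, cosh_z, ← hg]
  generalize by0 θ⁻¹ (qT θ) (2 * θ - dj) (Real.exp (-(2 * θ - dj))) = y
  have e1 : Real.exp (dj - θ - y) = Real.exp θ * Real.exp (-y) * Real.exp (-(2 * θ - dj)) := by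
    rw [← Real.exp_add, ← Real.exp_add]
    congr 1
    ring
  rw [e1]
  ring

theorem by0_two {θ : ℝ} (hθ : 0 < θ) :
    by0 θ⁻¹ (qT θ) (2 * θ) (Real.exp (-(2 * θ))) = -θ := by
  rw [by0_eq hθ (by linarith)]
  unfold yT
  ring

theorem bBj_two {θ : ℝ} (hθ : 0 < θ) (bh e : ℝ) :
    (1 + Real.exp (-(2 * θ))) * (1 / 2) * bBj θ⁻¹ (qT θ) bh e (2 * θ) (Real.exp (-(2 * θ)))
      = θ ^ 2 * bb0 θ⁻¹ (qT θ) bh e := by
  unfold bBj
  rw [by0_two hθ]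
  unfold bb0 bW0 bbb bw1 bnb bkap bsg gp bp
  rw [bidz_eq hθ, bz_eq hθ, tz_eq hθ, inv_inv]
  have h1 := z_lt hθ
  have h0 := Real.exp_pos (-(2 * θ))
  generalize Real.exp (-(2 * θ)) = z at *
  generalize ((1 - z) ^ 2 - (2 * θ) ^ 2 * z)⁻¹ = i
  generalize ((1 - z) ^ 2)⁻¹ = j
  have h3 : 1 + z ≠ 0 := by linarith
  field_simp
  ring

theorem dC_two {θ : ℝ} (hθ : 0 < θ) :
    Real.exp (-(2 * θ)) * gp (2 * θ) (Real.exp (-(2 * θ))) - (-θ) ^ 2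
      + (0 - θ * bcn θ⁻¹ (qT θ)) * (-θ) = θ ^ 2 * (bW0 θ⁻¹ (qT θ) - 1) := by
  unfold bcn bW0 bnb gp
  rw [bidz_eq hθ, bz_eq hθ, tz_eq hθ]
  unfold qT
  have hd := dz_pos hθ
  generalize Real.exp (-(2 * θ)) = z at *
  have hi : ((1 - z) ^ 2 - (2 * θ) ^ 2 * z)⁻¹ * ((1 - z) ^ 2 - (2 * θ) ^ 2 * z) = 1 :=
    inv_mul_cancel₀ hd.ne'
  generalize ((1 - z) ^ 2 - (2 * θ) ^ 2 * z)⁻¹ = i at *
  have ht : θ⁻¹ * θ = 1 := inv_mul_cancel₀ hθ.ne'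
  generalize θ⁻¹ = io at *
  linear_combination (-2 * θ ^ 2) * hi
    + (4 * θ ^ 2 * z * (1 - z) * i - 4 * θ ^ 3 * z * (1 - z) * i) * ht

/-- `TE` at `2 θ`. -/
theorem TE_two {θ : ℝ} (hθ : 0 < θ) (u K0 em l2 V e : ℝ) :
    (Pt θ u K0 em l2 V).TE (2 * θ) e = θ ^ 2 * (Real.exp (0 - 2 / 3 * bhT θ u)
      * bb0 θ⁻¹ (qT θ) (bhT θ u) e - bW0 θ⁻¹ (qT θ) + 1) := by
  have h := TE_eq (dj := 0) hθ (by linarith) u K0 em l2 V e
  rw [sub_zero] at h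
  rw [h]
  unfold bTj
  rw [by0_two hθ, inv_inv, dC_two hθ, bz_eq hθ]
  have e1 : Real.exp (0 - θ - -θ) = 1 := by
    rw [← Real.exp_zero]
    congr 1
    ring
  rw [e1]
  linear_combination (Real.exp (0 - 2 / 3 * bhT θ u)) * bBj_two hθ (bhT θ u) e

theorem a_nonneg {θ u : ℝ} (hθ : 0 < θ) (hu0 : 0 < u) (hu1 : u ≤ sg θ) (K0 em l2 V : ℝ) :
    0 ≤ (Pt θ u K0 em l2 V).a := by
  have h1 : (Pt θ u K0 em l2 V).a = bet θ * (1 - u ^ 3) / 2 := rfl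
  rw [h1]
  have h2 := sg_lt_one θ
  have h3 : u ^ 3 ≤ 1 := pow_le_one₀ hu0.le (by linarith)
  have h4 := bet_pos hθ
  have h5 : 0 ≤ 1 - u ^ 3 := by linarith
  positivity

/-- the row inequality from the reduced inequality. -/
theorem row_gen {θ u : ℝ} (hθ : 0 < θ) (hu0 : 0 < u) (hu1 : u ≤ sg θ) (K0 em l2 V e D : ℝ)
    (hb : bet θ ^ 2 * u ^ 4 ≤ (Pt θ u K0 em l2 V).TE (2 * θ) 0)
    (h : e ^ 2 * bc2 θ⁻¹ (qT θ) (bhT θ u) K0 l2 e - ((Pt θ u K0 em l2 V).a - e) *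
      ((Pt θ u K0 em l2 V).TE D e * ((bet θ)⁻¹) ^ 2
        - (sg θ ^ 2) ^ 2 * (Real.exp (0 - 2 / 3 * bhT θ u) * bb0 θ⁻¹ (qT θ) (bhT θ u) e
          - bW0 θ⁻¹ (qT θ) + 1)) ≤ 0) :
    (Pt θ u K0 em l2 V).K0 * (Pt θ u K0 em l2 V).s ^ 2 * e ^ 2 / (1 + e)
      - ((Pt θ u K0 em l2 V).a - e) * (Pt θ u K0 em l2 V).TE D e / (Pt θ u K0 em l2 V).β ^ 2 ≤
      -((Pt θ u K0 em l2 V).a * (Pt θ u K0 em l2 V).u ^ 4) - (Pt θ u K0 em l2 V).m0
        + (Pt θ u K0 em l2 V).l1 * e + (Pt θ u K0 em l2 V).l2 * e ^ 2 := by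
  have ha := a_nonneg hθ hu0 hu1 K0 em l2 V
  have e1 : (Pt θ u K0 em l2 V).l1 = ((Pt θ u K0 em l2 V).TE (2 * θ) 0 - (Pt θ u K0 em l2 V).a *
      ((Pt θ u K0 em l2 V).TE (2 * θ) 1 - (Pt θ u K0 em l2 V).TE (2 * θ) 0)) / bet θ ^ 2 := rfl
  have e2 : (Pt θ u K0 em l2 V).K0 = K0 := rfl
  have e3 : (Pt θ u K0 em l2 V).s = 1 := rfl
  have e4 : (Pt θ u K0 em l2 V).β = bet θ := rfl
  have e5 : (Pt θ u K0 em l2 V).u = u := rfl
  have e6 : (Pt θ u K0 em l2 V).m0 = 0 := rfl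
  have e7 : (Pt θ u K0 em l2 V).l2 = l2 := rfl
  rw [e1, e2, e3, e4, e5, e6, e7]
  rw [TE_two hθ] at hb
  rw [TE_two hθ u K0 em l2 V 0, TE_two hθ u K0 em l2 V 1]
  unfold bc2 at h
  rw [bsg_eq hθ] at h
  unfold bb0 at h hb ⊢
  have hβ := bet_pos hθ
  have hs : (sg θ ^ 2) ^ 2 = θ ^ 2 * ((bet θ)⁻¹) ^ 2 := by
    rw [← eps_eq hθ]
    field_simp
  rw [hs] at h
  simp only [div_eq_mul_inv, ← inv_pow] at h ⊢
  have hi : (bet θ)⁻¹ ^ 2 * bet θ ^ 2 = 1 := by field_simp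
  have hi0 : 0 ≤ (bet θ)⁻¹ ^ 2 := by positivity
  generalize (Pt θ u K0 em l2 V).a = a at *
  generalize (Pt θ u K0 em l2 V).TE D e = T at *
  have hb' := mul_le_mul_of_nonneg_left hb (mul_nonneg ha hi0)
  simp only [div_eq_mul_inv] at hb'
  generalize Real.exp (0 - 2 * 3⁻¹ * bhT θ u) = E at *
  generalize (bet θ)⁻¹ ^ 2 = j at *
  have hb2 : a * j * (bet θ ^ 2 * u ^ 4) = a * u ^ 4 := by linear_combination (a * u ^ 4) * hi
  rw [hb2] at hb'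
  linarith

end LinkTightAux

open LinkTightAux

theorem tight_par {θ : ℝ} (hθ : 0 < θ) (u K0 em l2 V : ℝ) :
    cvQR θ⁻¹ = qT θ ∧ cvUR θ⁻¹ (qT θ) = sg θ ∧ cvEpsR θ⁻¹ (qT θ) = (bet θ)⁻¹ ∧
    cvAR θ⁻¹ (qT θ) = (Pt θ (sg θ) K0 em l2 V).a ∧ cvLR θ⁻¹ (qT θ) = (Pt θ u K0 em l2 V).L ∧
    smAR θ⁻¹ (qT θ) u = (Pt θ u K0 em l2 V).a ∧ smHR θ⁻¹ (qT θ) u = bhT θ u := by
  have hβ := bet_pos hθ
  refine ⟨?_, ?_, ?_, ?_, ?_, ?_, ?_⟩
  · simp only [cvQR, qT, inv_inv, Nat.cast_ofNat, Nat.cast_zero, zero_sub]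
  · rw [cvU_eq, bsg_eq hθ]
  · rw [cvEps_eq, bsg_eq hθ, eps_eq hθ]
  · have h1 : (Pt θ (sg θ) K0 em l2 V).a = bet θ * (1 - sg θ ^ 3) / 2 := rfl
    rw [h1, cvA_eq, bsg_eq hθ, bz_eq hθ, tz_eq hθ]
    unfold bet
    rw [sg_z]
    have h1 := z_lt hθ
    have h0 := Real.exp_pos (-(2 * θ))
    generalize Real.exp (-(2 * θ)) = z at *
    have h2 : 1 - z ≠ 0 := by linarith
    have h3 : 1 + z ≠ 0 := by linarith
    field_simp
    ring
  · have h1 : (Pt θ u K0 em l2 V).L = 2 - (-(2 * θ) - gT (2 * θ) - bT (2 * θ)) / bet θ := rfl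
    rw [h1, cvL_eq, bsg_eq hθ, ← bcn_eq hθ, div_eq_mul_inv, ← eps_eq hθ]
    field_simp
    ring
  · have h1 : (Pt θ u K0 em l2 V).a = bet θ * (1 - u ^ 3) / 2 := rfl
    rw [h1, smA_eq, bsg_eq hθ, eps_eq hθ]
    field_simp
  · rw [smH_eq, bsg_eq hθ, eps_eq hθ, inv_inv]
    unfold bhT
    ring

theorem tight_base_curved {θ : ℝ} (hθ : 0 < θ) (K0 em l2 V : ℝ) :
    bet θ ^ 2 * sg θ ^ 4 ≤ (Pt θ (sg θ) K0 em l2 V).TE (2 * θ) 0 := by
  rw [TE_two hθ]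
  have h0 : bhT θ (sg θ) = 0 := by
    unfold bhT
    ring
  rw [h0]
  unfold bb0
  have h1 := bet_sg hθ
  simp only [mul_zero, sub_zero, add_zero, Real.exp_zero, one_mul, sub_self, zero_add, mul_one]
  apply le_of_eq
  linear_combination (bet θ * sg θ ^ 2 + θ) * h1

theorem tight_base_semi {θ u : ℝ} (hθ : 0 < θ) (hu0 : 0 < u) (hu1 : u ≤ sg θ) (K0 em l2 V : ℝ)
    (h : cs0R θ⁻¹ (qT θ) u (bhT θ u)) : bet θ ^ 2 * u ^ 4 ≤ (Pt θ u K0 em l2 V).TE (2 * θ) 0 := by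
  rw [TE_two hθ]
  rw [cs0_iff, bsg_eq hθ, eps_eq hθ, inv_inv] at h
  unfold bb0
  have hβ := bet_pos hθ
  have h1 := bet_sg hθ
  have hbb := bbb_neg hθ
  have hW := bW0_nonneg hθ
  have hh : 0 ≤ bhT θ u := by
    unfold bhT
    have : u ^ 3 ≤ sg θ ^ 3 := pow_le_pow_left₀ hu0.le hu1 3
    exact mul_nonneg hβ.le (by linarith)
  have hE := Real.add_one_le_exp (0 - 2 / 3 * bhT θ u)
  have hpoly : bet θ ^ 2 * u ^ 4 ≤ θ ^ 2 - 4 / 3 * u * bet θ * bhT θ u := by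
    have h2 : 0 ≤ (sg θ - u) ^ 2 * (3 * sg θ ^ 2 + 2 * sg θ * u + u ^ 2) := by
      have := sg_pos hθ
      positivity
    have h3 := mul_nonneg (sq_nonneg (bet θ)) h2
    have h4 : θ ^ 2 = bet θ ^ 2 * sg θ ^ 4 := by
      linear_combination (-(bet θ * sg θ ^ 2 + θ)) * h1
    rw [h4]
    unfold bhT
    linarith
  generalize bhT θ u = bh at *
  generalize Real.exp (0 - 2 / 3 * bh) = E at *
  generalize bbb θ⁻¹ (qT θ) = bb at *
  generalize bW0 θ⁻¹ (qT θ) = W at *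
  have h5 : 0 ≤ W - bb * bh := by nlinarith
  have h6 := mul_le_mul_of_nonneg_right hE h5
  have h7 := mul_le_mul_of_nonneg_left h6 (sq_nonneg θ)
  have h8 := mul_nonneg (mul_nonneg (sq_nonneg θ) hh) h.le
  have h9 : θ ^ 2 * bh * (4 / 3 * u * θ⁻¹ ^ 2 * bet θ) = 4 / 3 * u * bet θ * bh := by
    field_simp
  nlinarith

theorem tight_row0 {θ u : ℝ} (hθ : 0 < θ) (hu0 : 0 < u) (hu1 : u ≤ sg θ) (K0 em l2 V e dj : ℝ)
    (hb : bet θ ^ 2 * u ^ 4 ≤ (Pt θ u K0 em l2 V).TE (2 * θ) 0)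
    (h : rt0R θ⁻¹ (qT θ) (Pt θ u K0 em l2 V).a (bhT θ u) K0 l2 e dj) :
    RowAt (Pt θ u K0 em l2 V) (2 * θ) e := by
  rw [rt0_iff] at h
  obtain ⟨h1, h2⟩ := h
  refine ⟨by linarith, ?_, ?_⟩
  · rw [bE_eq hθ (by linarith)]
    have h3 := bBj_two hθ (bhT θ u) e
    have h0 := Real.exp_pos (-(2 * θ))
    have h4 : 0 < bBj θ⁻¹ (qT θ) (bhT θ u) e (2 * θ) (Real.exp (-(2 * θ))) := by
      have h5 : 0 < θ ^ 2 * bb0 θ⁻¹ (qT θ) (bhT θ u) e := by positivity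
      rw [← h3] at h5
      exact (mul_pos_iff_of_pos_left (by positivity)).1 h5
    positivity
  · apply row_gen hθ hu0 hu1 K0 em l2 V e (2 * θ) hb
    rw [TE_two hθ]
    have hs : (sg θ ^ 2) ^ 2 = θ ^ 2 * ((bet θ)⁻¹) ^ 2 := by
      rw [← eps_eq hθ]
      field_simp
    rw [hs]
    have := mul_nonneg (sq_nonneg e) (neg_nonneg.2 h1.le)
    linarith

theorem tight_rowj {θ u : ℝ} (hθ : 0 < θ) (hu0 : 0 < u) (hu1 : u ≤ sg θ) (K0 em l2 V e dj : ℝ)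
    (hb : bet θ ^ 2 * u ^ 4 ≤ (Pt θ u K0 em l2 V).TE (2 * θ) 0)
    (h : rtjR θ⁻¹ (qT θ) (Pt θ u K0 em l2 V).a (bhT θ u) K0 l2 e dj) :
    RowAt (Pt θ u K0 em l2 V) (2 * θ - dj) e := by
  rw [rtj_iff, inv_inv, bz_eq hθ, bsg_eq hθ, eps_eq hθ] at h
  have e1 : Real.exp (-(2 * θ)) * Real.exp dj = Real.exp (-(2 * θ - dj)) := by
    rw [← Real.exp_add]
    congr 1
    ring
  rw [e1] at h
  obtain ⟨h1, h2, h3⟩ := h
  refine ⟨h1, ?_, ?_⟩
  · rw [bE_eq hθ h1]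
    positivity
  · apply row_gen hθ hu0 hu1 K0 em l2 V e (2 * θ - dj) hb
    rw [TE_eq hθ h1]
    exact h3.le

theorem tight_cell {θ u : ℝ} (hθ : 0 < θ) (hu0 : 0 < u) (hu1 : u ≤ sg θ) (K0 em l2 V r : ℝ)
    (h : ct0R θ⁻¹ (qT θ) u (bhT θ u) K0 em V r) :
    (Pt θ u K0 em l2 V).OK ∧ (Pt θ u K0 em l2 V).EmOK ∧
      103 / 100 * (Real.exp (bet θ) / (Pt θ u K0 em l2 V).ch0) ≤ V := by
  rw [ct0_iff, ← cvL_eq, (tight_par hθ u K0 em l2 V).2.2.2.2.1, bkap_eq hθ, bz_eq hθ,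
    tz_eq hθ] at h
  obtain ⟨h1, h2, h3, h4, h5, h6, h7⟩ := h
  have hc : (Pt θ u K0 em l2 V).ch0 = Real.exp (-(2 / 3 * bhT θ u)) * Real.cosh θ := rfl
  have h0 := Real.exp_pos (-(2 * θ))
  have hq : ∀ x : ℝ, Real.exp x / (Pt θ u K0 em l2 V).ch0
      = 2 * Real.exp (x - θ + 2 / 3 * bhT θ u) * (1 + Real.exp (-(2 * θ)))⁻¹ := by
    intro x
    rw [hc, cosh_z, Real.exp_add, Real.exp_sub, Real.exp_neg (2 / 3 * bhT θ u)]
    have := Real.exp_pos θ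
    have := Real.exp_pos (2 / 3 * bhT θ u)
    field_simp
  refine ⟨⟨bet_pos hθ, hu0, lt_of_le_of_lt hu1 (sg_lt_one θ), ?_, h4.le, ?_, h6.le, ?_, le_rfl⟩,
    ⟨θ - r, ?_, ?_⟩, ?_⟩
  · rw [hc]
    exact mul_pos (Real.exp_pos _) (Real.cosh_pos θ)
  · show K0 ≤ 1 + u
    linarith
  · show em < 1
    linarith
  · show 0 < bet θ + 1 - (θ - r)
    linarith
  · rw [hq]
    show -(em * (bet θ + 1 - (θ - r))) < θ - r + 1 - bet θ * u ^ 3
      - 2 * Real.exp (θ - r - θ + 2 / 3 * bhT θ u) * (1 + Real.exp (-(2 * θ)))⁻¹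
    have e1 : θ - r - θ + 2 / 3 * bhT θ u = 2 / 3 * bhT θ u - r := by ring
    have e2 : θ - θ * sg θ = 2 * (θ * Real.exp (-(2 * θ))) * (1 + Real.exp (-(2 * θ)))⁻¹ := by
      rw [sg_z]
      field_simp
      ring
    rw [e1, bu3_eq hθ]
    linarith
  · rw [hq]
    linarith

theorem tight_ch {θ : ℝ} (h : IsStar θ) (u K0 em l2 V : ℝ) :
    (Pt θ u K0 em l2 V).ch0 = Real.exp (2 * bet θ * u ^ 3 / 3) := by
  obtain ⟨h1, -, h3⟩ := h
  have hθ : 0 < θ := by linarith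
  have hc : (Pt θ u K0 em l2 V).ch0 = Real.exp (-(2 / 3 * bhT θ u)) * Real.cosh θ := rfl
  unfold fv at h3
  rw [hc, ← Real.exp_log (Real.cosh_pos θ), ← Real.exp_add]
  congr 1
  have := bu3_eq hθ u
  linarith

theorem qT_le {θ : ℝ} (hθ : 4 ≤ θ) : 0 ≤ qT θ ∧ qT θ ≤ 54 / 10000 := by
  have h0 := Real.exp_pos (-(2 * θ))
  refine ⟨by unfold qT; positivity, ?_⟩
  have h1 := Real.add_one_le_exp (θ - 4)
  have h2 : θ / 4 ≤ Real.exp (θ - 4) := by linarith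
  have h3 : (θ / 4) ^ 2 ≤ Real.exp (θ - 4) ^ 2 := pow_le_pow_left₀ (by linarith) h2 2
  have he := Real.exp_one_gt_d9
  have h4 : (2.7182818283 : ℝ) ^ 8 ≤ Real.exp 1 ^ 8 := pow_le_pow_left₀ (by norm_num) he.le 8
  have h5 : (2970 : ℝ) ≤ Real.exp 1 ^ 8 := le_trans (by norm_num) h4
  have h6 : Real.exp (-(2 * θ)) * (Real.exp (θ - 4) ^ 2 * Real.exp 1 ^ 8) = 1 := by
    rw [← Real.exp_nat_mul, ← Real.exp_nat_mul, ← Real.exp_add, ← Real.exp_add,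
      Real.exp_eq_one_iff]
    push_cast
    ring
  have h7 : (θ / 4) ^ 2 * 2970 ≤ Real.exp (θ - 4) ^ 2 * Real.exp 1 ^ 8 :=
    mul_le_mul h3 h5 (by norm_num) (by positivity)
  have h8 := mul_le_mul_of_nonneg_left h7 h0.le
  unfold qT
  rw [h6] at h8
  linarith

theorem star_bounds {θ : ℝ} (h : IsStar θ) :
    2016 / 1000 ≤ bet θ ∧ bet θ ≤ 20165 / 10000 ∧ sg θ ≤ 9481 / 10000 ∧
    (Real.exp (bet θ) - 1) + 2017 / 10000 * (Real.exp (bet θ) - 1) ^ 2 ≤ Real.exp (bet θ) * bet θ := by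
  obtain ⟨h1, h2, -⟩ := h
  have hm := th_bet_mono.monotoneOn
  have he := Real.exp_one_lt_d9
  have he' := Real.exp_one_gt_d9
  have hp := Real.exp_pos 1
  have b1 : 2016 / 1000 ≤ bet θ := by
    refine le_trans ?_ (hm (show (3 / 2 : ℝ) ≤ 1812 / 1000 by norm_num)
      (show (3 / 2 : ℝ) ≤ θ by linarith) h1)
    have hz : (26666 / 1000000 : ℝ) ≤ Real.exp (-2 * (1812 / 1000 : ℝ)) := by
      have h := Real.exp_bound' (x := (624 / 1000 : ℝ)) (by norm_num) (by norm_num) (n := 7)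
        (by norm_num)
      have h1 : Real.exp (624 / 1000) ≤ 18665 / 10000 := by
        refine le_trans h ?_
        simp only [Finset.sum_range_succ, Finset.sum_range_zero, Nat.factorial]
        norm_num
      have h2 : Real.exp (3624 / 1000) = Real.exp 1 ^ 3 * Real.exp (624 / 1000) := by
        rw [← Real.exp_nat_mul, ← Real.exp_add]; norm_num
      have h3 : Real.exp 1 ^ 3 ≤ (2.7182818286 : ℝ) ^ 3 := pow_le_pow_left₀ hp.le he.le 3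
      have h4 : Real.exp (3624 / 1000) ≤ 1000000 / 26666 := by
        rw [h2]
        refine le_trans (mul_le_mul h3 h1 (Real.exp_pos _).le (by positivity)) ?_
        norm_num
      have h5 : Real.exp (-2 * (1812 / 1000 : ℝ)) = (Real.exp (3624 / 1000))⁻¹ := by
        rw [← Real.exp_neg]; norm_num
      rw [h5]
      have := inv_anti₀ (Real.exp_pos _) h4
      refine le_trans ?_ this
      norm_num
    have hs0 := sg_pos (θ := 1812 / 1000) (by norm_num)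
    have hs : sg (1812 / 1000) ≤ 948054 / 1000000 := by
      rw [th_sg_z, div_le_iff₀ (by linarith)]
      linarith
    unfold bet
    rw [le_div_iff₀ (by positivity)]
    have := pow_le_pow_left₀ hs0.le hs 2
    nlinarith
  have b2 : bet θ ≤ 20165 / 10000 := by
    refine le_trans (hm (show (3 / 2 : ℝ) ≤ θ by linarith)
      (show (3 / 2 : ℝ) ≤ 18125 / 10000 by norm_num) h2) ?_
    have hz : Real.exp (-2 * (18125 / 10000 : ℝ)) ≤ 26655 / 1000000 := by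
      have h := Real.sum_le_exp_of_nonneg (x := (3625 / 1000 : ℝ)) (by norm_num) 17
      have h2 : (1000000 / 26655 : ℝ) ≤ Real.exp (3625 / 1000) := by
        refine le_trans ?_ h
        simp only [Finset.sum_range_succ, Finset.sum_range_zero, Nat.factorial]
        norm_num
      have h3 : Real.exp (-2 * (18125 / 10000 : ℝ)) = (Real.exp (3625 / 1000))⁻¹ := by
        rw [← Real.exp_neg]; norm_num
      rw [h3]
      have := inv_anti₀ (by norm_num : (0 : ℝ) < 1000000 / 26655) h2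
      refine le_trans this ?_
      norm_num
    have hz0 := Real.exp_pos (-2 * (18125 / 10000 : ℝ))
    have hs : 948072 / 1000000 ≤ sg (18125 / 10000) := by
      rw [th_sg_z, le_div_iff₀ (by linarith)]
      linarith
    unfold bet
    have hs0 : 0 < sg (18125 / 10000) := by linarith
    rw [div_le_iff₀ (by positivity)]
    have := pow_le_pow_left₀ (by norm_num) hs 2
    nlinarith
  refine ⟨b1, b2, ?_, ?_⟩
  · have hz : (26645 / 1000000 : ℝ) ≤ Real.exp (-2 * θ) :=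
      le_trans th_z2 (Real.exp_le_exp.2 (by linarith))
    rw [th_sg_z, div_le_iff₀ (by linarith)]
    linarith
  · have e1 : Real.exp (bet θ) = Real.exp 1 ^ 2 * Real.exp (bet θ - 2) := by
      rw [← Real.exp_nat_mul, ← Real.exp_add]
      congr 1
      push_cast
      ring
    have l1 : (75 / 10 : ℝ) ≤ Real.exp (bet θ) := by
      rw [e1]
      have h3 : (2.7182818283 : ℝ) ^ 2 ≤ Real.exp 1 ^ 2 := pow_le_pow_left₀ (by norm_num) he'.le 2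
      have h4 := Real.add_one_le_exp (bet θ - 2)
      have h5 : (1016 / 1000 : ℝ) ≤ Real.exp (bet θ - 2) := by linarith
      refine le_trans ?_ (mul_le_mul h3 h5 (by norm_num) (by positivity))
      norm_num
    have l2 : Real.exp (bet θ) ≤ 752 / 100 := by
      rw [e1]
      have h3 : Real.exp 1 ^ 2 ≤ (2.7182818286 : ℝ) ^ 2 := pow_le_pow_left₀ hp.le he.le 2
      have h4 := Real.exp_bound' (x := (165 / 10000 : ℝ)) (by norm_num) (by norm_num) (n := 2)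
        (by norm_num)
      have h5 : Real.exp (bet θ - 2) ≤ 1017 / 1000 := by
        refine le_trans (Real.exp_le_exp.2 (show bet θ - 2 ≤ 165 / 10000 by linarith))
          (le_trans h4 ?_)
        simp only [Finset.sum_range_succ, Finset.sum_range_zero, Nat.factorial]
        norm_num
      refine le_trans (mul_le_mul h3 h5 (Real.exp_pos _).le (by positivity)) ?_
      norm_num
    generalize Real.exp (bet θ) = M at *
    have h6 : (M - 1) ^ 2 ≤ (652 / 100) ^ 2 := pow_le_pow_left₀ (by linarith) (by linarith) 2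
    have h7 : (75 / 10 : ℝ) * (2016 / 1000) ≤ M * bet θ :=
      mul_le_mul l1 b1 (by norm_num) (by linarith)
    linarith

end
end Pool.Agent.MP_b5eafd_co

end

-- part MP_b5eafd_co.Sound
section

/-! Soundness of the cell checks. -/

set_option autoImplicit false
open Finset

namespace Pool.Agent.MP_b5eafd_co
noncomputable section
open Classical

theorem vl_c0 : vl c0 = 0 := by norm_num [vl, c0]
theorem vl_c1 : vl c1 = 1 := by norm_num [vl, c1]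

theorem mem_zero (ε : Noise) : Mem ε 0 (AF.nat 0) := by simpa using mem_nat ε 0
theorem mem_one (ε : Noise) : Mem ε 1 (AF.nat 1) := by simpa using mem_nat ε 1

theorem blt_true {a b : Nat} (h : Nat.blt a b = true) : a < b := by simpa using h

theorem mdChk_sound (d : MD) (ts tr tc : Tr) (h : mdChk d ts tr tc = true) {β u : ℝ}
    (hb0 : vl blo ≤ β) (hb1 : β ≤ vl bhi) (hu0 : vl d.lo ≤ u) (hu1 : u ≤ vl d.hi)
    (hβ : 0 < β) (hu : 0 < u) (hu' : u < 1) :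
    ∃ (P : Par) (D : Finset ℝ), P.β = β ∧ P.u = u ∧ P.ch0 = Real.exp (2 * P.β * P.u ^ 3 / 3) ∧
      P.OK ∧ P.RowOK D 0 ∧ P.ScalOK ∧ P.EmOK ∧ P.VOK := by
  obtain ⟨hs, h⟩ := and_imp' id id h
  obtain ⟨hr, hc⟩ := and_imp' id id h
  set P := Pmid β u (vl d.C) (vl d.s) (vl d.K0) (vl d.em) (vl d.m0) (vl d.l1) (vl d.l2) (vl d.V)
    with hP
  have z0 : vl c0 ≤ (0 : ℝ) := vl_c0.le
  have z1 : (0 : ℝ) ≤ vl c0 := vl_c0.ge
  obtain ⟨ha, hL⟩ := mid_par β u (vl d.C) (vl d.s) (vl d.K0) (vl d.em) (vl d.m0) (vl d.l1)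
    (vl d.l2) (vl d.V)
  obtain ⟨m, l0, h0, l1, h1, l2, h2, l3, h3, ε, hf, -, m1, -, m3⟩ :=
    Tr.chk_sound _ 0 β 0 u tc _ _ _ _ _ _ _ _ hc z0 z1 hb0 hb1 z0 z1 hu0 hu1
  obtain ⟨hf1, hf2⟩ := and_imp' id id hf
  have k1 := cm0_mem m1 m3 (mem_cst ε _) (mem_cst ε _) (mem_cst ε _) (mem_cst ε _) (mem_cst ε _)
    (mem_cst ε _) (mem_cst ε _) (mem_cst ε _) hf1
  have k2 := bx0_mem (mdA_mem m1 m3) (mem_cst ε _) (mem_cst ε _) (mem_cst ε _) (mem_cst ε _)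
    (mem_cst ε _) (mem_cst ε _) hf2
  rw [ha] at k2
  obtain ⟨hOK, hEm, hV⟩ := mid_cell β u (vl d.C) (vl d.s) (vl d.K0) (vl d.em) (vl d.m0) (vl d.l1)
    (vl d.l2) (vl d.V) _ _ _ hβ hu hu' k1
  obtain ⟨hbx, hbe⟩ := box_link P _ _ _ _ k2
  refine ⟨P, (range 200).image (fun m : ℕ => (m : ℝ) / ((20 : ℕ) : ℝ)), rfl, rfl, rfl, hOK, ?_, ?_,
    hEm, hV⟩
  · intro e he0 he1
    obtain ⟨e0, e1⟩ := hbe e he0 (by linarith)
    obtain ⟨m, l0, h0, l1, h1, l2, h2, l3, h3, ε, hf, m0, m1, -, m3⟩ :=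
      Tr.chk_sound _ e β 0 u tr _ _ _ _ _ _ _ _ hr e0 e1 hb0 hb1 z0 z1 hu0 hu1
    rcases cond_imp id id hf with hf | hf
    · have := mid_row0 β u (vl d.C) (vl d.s) (vl d.K0) (vl d.em) (vl d.m0) (vl d.l1)
        (vl d.l2) (vl d.V) e (rm0_mem m1 m3 m0 hf)
      linarith
    · obtain ⟨p1, hf⟩ := and_imp' id id hf
      obtain ⟨p2, hf⟩ := and_imp' id id hf
      have q1 := blt_true p1
      have q2 := blt_true p2
      have k := mid_row1 β u (vl d.C) (vl d.s) (vl d.K0) (vl d.em) (vl d.m0) (vl d.l1)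
        (vl d.l2) (vl d.V) e _ (rm1_mem m1 m3 (mem_cst ε _) (mem_cst ε _) (mem_cst ε _)
          (mem_cst ε _) (mem_cst ε _) (mem_cst ε _) m0 (mem_rat ε m 20) hf)
      refine ⟨(m : ℝ) / ((20 : ℕ) : ℝ), mem_image.2 ⟨m, mem_range.2 q2, rfl⟩, ?_, k.1, k.2⟩
      have : (0 : ℝ) < m := by exact_mod_cast q1
      positivity
  · intro c x l lam hcons hv
    obtain ⟨x0, x1, x2⟩ := hbx c x l lam hcons
    obtain ⟨m, l0, h0, l1, h1, l2, h2, l3, h3, ε, hf, m0, m1, m2, m3⟩ :=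
      Tr.chk_sound _ c x l u ts _ _ _ _ _ _ _ _ hs (vl_c0 ▸ hcons.c0) (vl_c1 ▸ hcons.c1) x0 x1
        (vl_c0 ▸ hcons.l0) x2 hu0 hu1
    have mb := mem_itv ε hb0 hb1
    have k := scalF_mem m3 (mdA_mem mb m3) (mem_inv mb) (mdL_mem mb (mem_cst ε _)) (mem_cst ε _)
      (mem_cst ε _) (mem_cst ε _) (mem_cst ε _) (mem_cst ε _) (mem_cst ε _) m0 m1 m2 hf
    rw [ha, hL] at k
    exact scal_link P hOK c x l lam hcons hv k

theorem rowF_sound {θ u : ℝ} (hθ : 0 < θ) (hu0 : 0 < u) (hu1 : u ≤ sg θ) (K0 em l2 V e : ℝ)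
    (hb : bet θ ^ 2 * u ^ 4 ≤ (Pt θ u K0 em l2 V).TE (2 * θ) 0) {ε : Noise} {m : Nat}
    {io q a bh K0' l2' e' : AF} (h1 : Mem ε θ⁻¹ io) (h2 : Mem ε (qT θ) q)
    (h3 : Mem ε (Pt θ u K0 em l2 V).a a) (h4 : Mem ε (bhT θ u) bh) (h5 : Mem ε K0 K0')
    (h6 : Mem ε l2 l2') (h7 : Mem ε e e') (h : rowF m io q a bh K0' l2' e' = true) :
    ∃ Δ ∈ (range 200).image (fun m : ℕ => 2 * θ - (m : ℝ) / ((20 : ℕ) : ℝ)),
      RowAt (Pt θ u K0 em l2 V) Δ e := by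
  rcases cond_imp id id h with hf | hf
  · refine ⟨2 * θ, mem_image.2 ⟨0, mem_range.2 (by norm_num), by simp⟩, ?_⟩
    exact tight_row0 hθ hu0 hu1 K0 em l2 V e 0 hb (rt0_mem h1 h2 h3 h4 h5 h6 h7 (mem_zero ε) hf)
  · obtain ⟨p, hf⟩ := and_imp' id id hf
    refine ⟨_, mem_image.2 ⟨m, mem_range.2 (blt_true p), rfl⟩, ?_⟩
    exact tight_rowj hθ hu0 hu1 K0 em l2 V e _ hb
      (rtj_mem h1 h2 h3 h4 h5 h6 h7 (mem_rat ε m 20) hf)

theorem cvChk_sound (d : TD) (ts tr tc : Tr) (h : cvChk d ts tr tc = true) {θ : ℝ} (hθ : 0 < θ)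
    (hi0 : vl d.lo ≤ θ⁻¹) (hi1 : θ⁻¹ ≤ vl d.hi) (hlast : d.last = true → 4 ≤ θ) :
    ∃ (P : Par) (D : Finset ℝ),
    P.β = bet θ ∧ P.u = sg θ ∧ P.ch0 = Real.cosh θ ∧ P.C = -(2 * θ) - gT (2 * θ) - bT (2 * θ) ∧
    P.OK ∧ P.RowOK D (1 / 1000) ∧ P.ScalOK ∧ P.EmOK ∧
    103 / 100 * (Real.exp P.β / P.ch0) ≤ P.V := by
  obtain ⟨hs, h⟩ := and_imp' id id h
  obtain ⟨hr, hc⟩ := and_imp' id id h
  set l2 := af1R (vl d.l20) (vl d.l21) θ⁻¹ with hl2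
  set P := Pt θ (sg θ) (vl d.K0) (vl d.em) l2 (vl d.V) with hP
  have z0 : vl c0 ≤ (0 : ℝ) := vl_c0.le
  have z1 : (0 : ℝ) ≤ vl c0 := vl_c0.ge
  have hs0 := sg_pos hθ
  obtain ⟨hQ, hU, hE, ha, hL, -, -⟩ := tight_par hθ (sg θ) (vl d.K0) (vl d.em) l2 (vl d.V)
  have hbh : bhT θ (sg θ) = 0 := by simp [bhT]
  have hq : ∀ {ε : Noise} {io : AF}, Mem ε θ⁻¹ io → Mem ε (qT θ) (cvq d io) := by
    intro ε io hio
    unfold cvq
    cases hl : d.last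
    · exact hQ ▸ cvQ_mem hio
    · obtain ⟨q0, q1⟩ := qT_le (hlast hl)
      exact mem_itv ε (vl_c0 ▸ q0) (q1.trans (by norm_num [vl, qhi]))
  have hb := tight_base_curved hθ (vl d.K0) (vl d.em) l2 (vl d.V)
  obtain ⟨m, l0, h0, l1, h1, l2', h2, l3, h3, ε, hf, -, -, -, m3⟩ :=
    Tr.chk_sound _ 0 0 0 θ⁻¹ tc _ _ _ _ _ _ _ _ hc z0 z1 z0 z1 z0 z1 hi0 hi1
  obtain ⟨hf1, hf2⟩ := and_imp' id id hf
  have k1 := ct0_mem m3 (hq m3) (hU ▸ cvU_mem m3 (hq m3)) (hbh ▸ mem_zero ε) (mem_cst ε _)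
    (mem_cst ε _) (mem_cst ε _) (mem_cst ε _) hf1
  have k2 := bx0_mem (ha ▸ cvA_mem m3 (hq m3)) (mem_cst ε _) (mem_cst ε _) (mem_cst ε _)
    (mem_cst ε _) (mem_cst ε _) (mem_cst ε _) hf2
  obtain ⟨hOK, hEm, hV⟩ := tight_cell hθ hs0 le_rfl (vl d.K0) (vl d.em) l2 (vl d.V) _ k1
  obtain ⟨hbx, hbe⟩ := box_link P _ _ _ _ k2
  refine ⟨P, (range 200).image (fun m : ℕ => 2 * θ - (m : ℝ) / ((20 : ℕ) : ℝ)), rfl, rfl, ?_, rfl,
    hOK, ?_, ?_, hEm, hV⟩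
  · show Real.exp (-(2 / 3 * bhT θ (sg θ))) * Real.cosh θ = _
    rw [hbh]; simp
  · intro e he0 he1
    obtain ⟨e0, e1⟩ := hbe e he0 he1
    obtain ⟨m, l0, h0, l1, h1, l2', h2, l3, h3, ε, hf, m0, -, -, m3⟩ :=
      Tr.chk_sound _ e 0 0 θ⁻¹ tr _ _ _ _ _ _ _ _ hr e0 e1 z0 z1 z0 z1 hi0 hi1
    exact rowF_sound hθ hs0 le_rfl _ _ _ _ e hb m3 (hq m3) (ha ▸ cvA_mem m3 (hq m3))
      (hbh ▸ mem_zero ε) (mem_cst ε _) (af1_mem (mem_cst ε _) (mem_cst ε _) m3) m0 hf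
  · intro c x l lam hcons hv
    obtain ⟨x0, x1, x2⟩ := hbx c x l lam hcons
    obtain ⟨m, l0, h0, l1, h1, l2', h2, l3, h3, ε, hf, m0, m1, m2, m3⟩ :=
      Tr.chk_sound _ c x l θ⁻¹ ts _ _ _ _ _ _ _ _ hs (vl_c0 ▸ hcons.c0) (vl_c1 ▸ hcons.c1) x0 x1
        (vl_c0 ▸ hcons.l0) x2 hi0 hi1
    have k := scalF_mem (hU ▸ cvU_mem m3 (hq m3)) (ha ▸ cvA_mem m3 (hq m3))
      (hE ▸ cvEps_mem m3 (hq m3)) (hL ▸ cvL_mem m3 (hq m3))
      (af1_mem (mem_cst ε _) (mem_cst ε _) m3) (mem_cst ε _) (mem_one ε) (mem_cst ε _)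
      (mem_cst ε _) (mem_zero ε) m0 m1 m2 hf
    exact scal_link P hOK c x l lam hcons hv k

theorem smChk_sound (d : TD) (ts tr tc : Tr) (h : smChk d ts tr tc = true) {θ u : ℝ}
    (hst : IsStar θ) (hu0 : vl d.lo ≤ u) (hu1 : u ≤ vl d.hi) (hu : 0 < u) (hu' : u ≤ sg θ) :
    ∃ (P : Par) (D : Finset ℝ), P.β = bet θ ∧ P.u = u ∧ P.ch0 = Real.exp (2 * P.β * P.u ^ 3 / 3) ∧
      P.OK ∧ P.RowOK D 0 ∧ P.ScalOK ∧ P.EmOK ∧ P.VOK := by
  obtain ⟨hs, h⟩ := and_imp' id id h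
  obtain ⟨hr, hc⟩ := and_imp' id id h
  have hθ : 0 < θ := by linarith [hst.1]
  have hi0 : vl ilo ≤ θ⁻¹ := by
    have : (18125 / 10000 : ℝ)⁻¹ ≤ θ⁻¹ := inv_anti₀ hθ hst.2.1
    refine le_trans ?_ this
    norm_num [vl, ilo]
  have hi1 : θ⁻¹ ≤ vl ihi := by
    have : θ⁻¹ ≤ (1812 / 1000 : ℝ)⁻¹ := inv_anti₀ (by norm_num) hst.1
    refine this.trans ?_
    norm_num [vl, ihi]
  set P := Pt θ u (vl d.K0) (vl d.em) (vl d.l20) (vl d.V) with hP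
  have z0 : vl c0 ≤ (0 : ℝ) := vl_c0.le
  have z1 : (0 : ℝ) ≤ vl c0 := vl_c0.ge
  obtain ⟨hQ, -, hE, -, hL, ha, hH⟩ := tight_par hθ u (vl d.K0) (vl d.em) (vl d.l20) (vl d.V)
  have hq : ∀ {ε : Noise} {io : AF}, Mem ε θ⁻¹ io → Mem ε (qT θ) (cvQ io) := fun hio =>
    hQ ▸ cvQ_mem hio
  obtain ⟨m, l0, h0, l1, h1, l2', h2, l3, h3, ε, hf, -, m1, -, m3⟩ :=
    Tr.chk_sound _ 0 θ⁻¹ 0 u tc _ _ _ _ _ _ _ _ hc z0 z1 hi0 hi1 z0 z1 hu0 hu1
  obtain ⟨hf1, hf⟩ := and_imp' id id hf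
  obtain ⟨hf3, hf2⟩ := and_imp' id id hf
  have k1 := ct0_mem m1 (hq m1) m3 (hH ▸ smH_mem m1 (hq m1) m3) (mem_cst ε _)
    (mem_cst ε _) (mem_cst ε _) (mem_cst ε _) hf1
  have k3 := cs0_mem m1 (hq m1) m3 (hH ▸ smH_mem m1 (hq m1) m3) hf3
  have k2 := bx0_mem (ha ▸ smA_mem m1 (hq m1) m3) (mem_cst ε _) (mem_cst ε _) (mem_cst ε _)
    (mem_cst ε _) (mem_cst ε _) (mem_cst ε _) hf2
  have hb := tight_base_semi hθ hu hu' (vl d.K0) (vl d.em) (vl d.l20) (vl d.V) k3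
  obtain ⟨hOK, hEm, hV⟩ := tight_cell hθ hu hu' (vl d.K0) (vl d.em) (vl d.l20) (vl d.V) _ k1
  obtain ⟨hbx, hbe⟩ := box_link P _ _ _ _ k2
  refine ⟨P, (range 200).image (fun m : ℕ => 2 * θ - (m : ℝ) / ((20 : ℕ) : ℝ)), rfl, rfl,
    tight_ch hst _ _ _ _ _, hOK, ?_, ?_, hEm, Or.inl ?_⟩
  · intro e he0 he1
    obtain ⟨e0, e1⟩ := hbe e he0 (by linarith)
    obtain ⟨m, l0, h0, l1, h1, l2', h2, l3, h3, ε, hf, m0, m1, -, m3⟩ :=
      Tr.chk_sound _ e θ⁻¹ 0 u tr _ _ _ _ _ _ _ _ hr e0 e1 hi0 hi1 z0 z1 hu0 hu1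
    exact rowF_sound hθ hu hu' _ _ _ _ e hb m1 (hq m1) (ha ▸ smA_mem m1 (hq m1) m3)
      (hH ▸ smH_mem m1 (hq m1) m3) (mem_cst ε _) (mem_cst ε _) m0 hf
  · intro c x l lam hcons hv
    obtain ⟨x0, x1, x2⟩ := hbx c x l lam hcons
    obtain ⟨m, l0, h0, l1, h1, l2', h2, l3, h3, ε, hf, m0, m1, m2, m3⟩ :=
      Tr.chk_sound _ c x l u ts _ _ _ _ _ _ _ _ hs (vl_c0 ▸ hcons.c0) (vl_c1 ▸ hcons.c1) x0 x1
        (vl_c0 ▸ hcons.l0) x2 hu0 hu1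
    have m4 := mem_itv ε hi0 hi1
    have k := scalF_mem m3 (ha ▸ smA_mem m4 (hq m4) m3)
      (hE ▸ cvEps_mem m4 (hq m4)) (hL ▸ cvL_mem m4 (hq m4))
      (mem_cst ε _) (mem_cst ε _) (mem_one ε) (mem_cst ε _)
      (mem_cst ε _) (mem_zero ε) m0 m1 m2 hf
    exact scal_link P hOK c x l lam hcons hv k
  · have h0 : 0 ≤ Real.exp (bet θ) / P.ch0 := div_nonneg (Real.exp_pos _).le hOK.ch_pos.le
    show Real.exp (bet θ) / P.ch0 ≤ vl d.V
    linarith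

end
end Pool.Agent.MP_b5eafd_co

end

-- part MP_b5eafd_co.Data0
section

/-! Certificate data, checked by the kernel. -/

set_option autoImplicit false
set_option maxRecDepth 100000

namespace Pool.Agent.MP_b5eafd_co
open Tr

-- u[0.8380,0.8520] C -6.8 s 1.6 K0 1.837 em 0.184 m0 0.01392 l1 1.4943 l2 1.00 V 2.169 y0 0.628 r 0.65 ka 0.4210 | leaves 522 29 2
def md7 : MD := ⟨79228162514262423563702317875, 79228162514264787953506687386, 79228162514264854663076167811, 79228162514264389384939665097,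
  79228162514264341511675626148, 79228162514264758201601649069, 79228162514264619068520660992, 79228162514264948112768435749,
  79228162514264514359829324628, 79228162514264520552278812263, 79228162514264456094509145522, 79228162514264642149468751266,
  79228162514264033037337674429, 79228162514264285801866760599, 79228162514264454968609238680,
  79228162514264573469574433866, 79228162514264577410224107815⟩
def md7s : Tr := (s0 (s1 (l 9) (s0 (s2 (s1 (l 1) (s0 (s2 (l 0) (s1 (l 9) (l 0))) (s2 (l 0) (s1 (l 9) (l 0)))))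
    (s1 (l 1) (s0 (s2 (s1 (l 9) (s0 (s2 (l 0) (s1 (l 9) (l 0))) (s2 (l 0) (s1 (l 9) (l 0))))) (l 6)) (s2 (s1 (l
    9) (s1 (l 9) (l 0))) (l 6))))) (s2 (s1 (l 9) (s0 (s1 (l 9) (l 0)) (s1 (s1 (l 9) (l 0)) (l 0)))) (s1 (l 9)
    (s0 (s1 (l 9) (s2 (s1 (s1 (l 9) (l 0)) (l 0)) (l 6))) (s1 (l 9) (s2 (s1 (s1 (s1 (l 9) (l 0)) (l 0)) (l 0))
    (l 6)))))))) (s0 (s0 (s1 (l 1) (s1 (s1 (l 1) (l 1)) (s1 (s1 (s0 (l 3) (s1 (l 1) (s2 (l 0) (l 9)))) (s2 (l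
    0) (s2 (s0 (s1 (l 9) (s0 (l 9) (l 3))) (s1 (s0 (l 9) (l 3)) (l 4))) (l 6)))) (s2 (l 0) (s2 (s1 (s1 (s2 (l
    0) (s2 (l 0) (l 6))) (l 0)) (l 0)) (l 6)))))) (s1 (s0 (l 1) (l 1)) (s1 (s1 (l 1) (s1 (l 1) (l 1))) (s1 (s0
    (s1 (s1 (l 1) (s2 (l 0) (s0 (l 3) (l 4)))) (s2 (l 0) (s2 (s0 (l 4) (l 4)) (l 6)))) (s1 (s2 (s0 (l 4) (l 4))
    (s2 (l 4) (l 6))) (s2 (l 0) (s2 (s0 (l 4) (l 4)) (l 6))))) (s2 (l 0) (s2 (s1 (s1 (s0 (l 4) (l 4)) (l 0)) (l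
    0)) (l 6))))))) (s0 (s1 (s1 (l 1) (s0 (l 1) (l 1))) (s1 (s0 (s1 (l 1) (s1 (l 1) (s0 (l 1) (s1 (l 1) (s2 (l
    4) (l 4)))))) (s1 (l 1) (s2 (s0 (s0 (l 4) (l 4)) (s1 (l 1) (s2 (l 0) (l 4)))) (s2 (s0 (l 4) (l 4)) (l
    6))))) (s1 (s0 (s2 (s1 (s0 (l 4) (l 4)) (l 0)) (s2 (s1 (l 4) (s0 (l 4) (l 4))) (l 6))) (s2 (s1 (s2 (l 0)
    (s0 (l 4) (s1 (l 4) (l 0)))) (l 0)) (s2 (s1 (l 4) (s0 (l 4) (l 2))) (l 6)))) (s2 (l 0) (s2 (s2 (l 0) (l 2))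
    (l 6)))))) (s0 (s1 (s1 (l 1) (s1 (l 1) (l 1))) (s1 (s2 (s1 (s0 (l 1) (s1 (l 1) (s2 (s0 (l 4) (s0 (l 4) (s2
    (l 8) (s1 (l 4) (l 8))))) (s0 (l 4) (s0 (l 4) (l 4)))))) (s0 (s1 (s2 (l 4) (l 4)) (s2 (l 0) (s2 (s0 (l 4)
    (l 4)) (l 4)))) (s1 (s2 (s1 (s0 (l 4) (s2 (l 0) (s0 (l 4) (s0 (l 8) (l 8))))) (l 0)) (s2 (s0 (l 4) (s2 (s1
    (l 4) (s2 (l 0) (l 4))) (l 4))) (l 4))) (s2 (l 0) (s2 (s1 (s0 (l 4) (s1 (s2 (l 0) (l 4)) (l 0))) (l 0)) (s0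
    (l 4) (s0 (l 4) (l 4)))))))) (s2 (s2 (s0 (s0 (l 4) (l 4)) (l 2)) (l 2)) (l 6))) (s2 (s1 (s1 (s2 (l 0) (s1
    (s2 (l 0) (s0 (l 4) (s2 (l 0) (l 2)))) (l 0))) (l 0)) (l 0)) (l 2)))) (s2 (s1 (s0 (s1 (l 1) (s0 (s1 (l 1)
    (l 1)) (s1 (l 1) (s2 (s1 (l 8) (s0 (l 8) (l 8))) (s2 (s1 (s0 (l 1) (l 1)) (s0 (s0 (l 1) (l 8)) (s0 (l 8) (l
    8)))) (l 2)))))) (s0 (s1 (s1 (l 1) (s0 (l 1) (s2 (l 8) (l 2)))) (s1 (s2 (s0 (l 8) (l 8)) (s2 (s0 (s0 (l 1)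
    (l 8)) (l 2)) (l 2))) (s2 (s1 (s0 (l 8) (l 8)) (s0 (l 8) (l 8))) (s2 (s0 (s1 (l 8) (s2 (l 8) (l 2))) (l 2))
    (l 2))))) (s2 (s1 (s0 (s1 (l 8) (l 8)) (s2 (s1 (s1 (l 5) (s0 (l 8) (s0 (l 8) (l 8)))) (s0 (l 8) (s1 (s0 (l
    8) (l 8)) (s0 (l 8) (l 8))))) (l 2))) (s0 (s1 (s0 (l 8) (l 8)) (s1 (l 8) (l 8))) (s2 (s1 (s0 (l 8) (s1 (l
    8) (l 8))) (s0 (l 8) (l 8))) (l 2)))) (l 2)))) (s1 (s0 (s1 (s1 (s2 (s0 (s0 (l 1) (l 8)) (s0 (l 8) (l 8)))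
    (s0 (s2 (s0 (l 1) (s2 (l 4) (l 4))) (l 4)) (s2 (s0 (s1 (s0 (l 8) (l 8)) (s1 (s0 (l 8) (l 8)) (s0 (l 8) (s0
    (l 8) (l 8))))) (s2 (s0 (l 8) (l 8)) (l 2))) (l 2)))) (s2 (s0 (s1 (l 8) (s2 (l 0) (s0 (s0 (l 8) (l 8)) (l
    8)))) (s0 (s0 (l 8) (l 8)) (s0 (l 8) (l 8)))) (s0 (s2 (s1 (s2 (s0 (l 4) (l 8)) (l 4)) (s2 (s0 (l 4) (l 8))
    (s0 (l 4) (s2 (s0 (l 4) (l 4)) (l 4))))) (l 4)) (s2 (s1 (s0 (s2 (l 8) (s2 (s0 (l 4) (l 2)) (l 2))) (s2 (l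
    8) (l 2))) (s0 (s2 (s0 (l 8) (l 8)) (s2 (s0 (s2 (l 8) (l 2)) (l 2)) (l 2))) (s2 (s0 (l 8) (s0 (l 8) (l 8)))
    (l 2)))) (l 2))))) (s1 (s2 (s2 (l 0) (s1 (s0 (s1 (s0 (l 8) (l 8)) (l 0)) (s0 (l 8) (l 8))) (l 0))) (s2 (s0
    (s1 (s2 (s0 (s1 (l 8) (s0 (l 8) (l 8))) (s1 (l 8) (s0 (l 8) (s0 (l 8) (l 8))))) (s0 (l 4) (s2 (s1 (s2 (s0
    (l 4) (l 8)) (l 4)) (s1 (s0 (l 4) (s3 (s2 (l 8) (s0 (l 4) (l 2))) (l 8))) (s2 (s0 (l 4) (s0 (s0 (l 8) (l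
    8)) (s3 (s1 (l 8) (s0 (l 8) (l 8))) (l 8)))) (s0 (l 4) (s0 (l 4) (l 2)))))) (l 4)))) (s2 (s1 (s1 (s0 (s0 (l
    8) (l 8)) (s0 (l 8) (s1 (l 8) (l 0)))) (l 0)) (l 0)) (s0 (s2 (s1 (l 4) (s2 (l 0) (l 4))) (l 4)) (s2 (s1 (s0
    (s2 (s3 (s1 (s2 (l 8) (l 4)) (s1 (s1 (s0 (l 4) (s1 (s0 (l 8) (s1 (s2 (l 0) (l 4)) (l 0))) (l 0))) (l 0)) (l
    0))) (s0 (l 4) (l 8))) (s2 (s1 (l 4) (s2 (s1 (l 4) (l 0)) (l 4))) (l 4))) (s2 (s3 (s1 (s3 (s2 (s0 (l 8) (s0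
    (l 8) (l 8))) (s1 (s0 (s0 (l 8) (l 8)) (s2 (l 8) (l 2))) (s0 (s3 (s2 (l 8) (s1 (s0 (l 4) (s2 (l 8) (l 2)))
    (s0 (s2 (l 8) (l 4)) (s2 (s0 (l 8) (l 2)) (l 2))))) (l 8)) (s2 (s0 (s0 (l 8) (l 2)) (l 2)) (l 2))))) (s0 (l
    8) (s1 (l 8) (s0 (l 8) (l 8))))) (s1 (s1 (s1 (s1 (s2 (l 0) (s3 (s1 (s2 (l 0) (s0 (s3 (s1 (s2 (l 0) (s0 (l
    4) (l 2))) (l 0)) (l 8)) (l 2))) (l 0)) (s0 (l 8) (l 8)))) (l 0)) (l 0)) (l 0)) (l 0))) (s1 (l 8) (s1 (l 8)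
    (l 0)))) (s2 (s0 (s2 (s0 (s1 (l 4) (s1 (s0 (l 4) (l 2)) (l 0))) (l 2)) (l 2)) (l 2)) (l 2)))) (s1 (s1 (s1
    (s2 (l 0) (s0 (s2 (l 0) (l 4)) (l 2))) (l 0)) (l 0)) (l 0))) (l 2))))) (s1 (s2 (s0 (s1 (s0 (l 8) (l 8)) (s0
    (s3 (l 8) (l 8)) (s1 (l 8) (s0 (l 8) (s0 (l 8) (l 8)))))) (s1 (s0 (l 8) (s2 (l 8) (l 2))) (s2 (l 8) (s2 (s0
    (l 8) (l 2)) (l 2))))) (s2 (s0 (s2 (s0 (s1 (s0 (l 8) (l 2)) (s2 (s0 (s1 (l 8) (l 8)) (l 2)) (l 2))) (l 2))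
    (l 2)) (l 2)) (l 2))) (s2 (s1 (s1 (s1 (s0 (s0 (s2 (l 0) (s0 (l 8) (l 8))) (s1 (s0 (l 8) (s0 (l 8) (l 8)))
    (l 0))) (s1 (s2 (l 0) (s2 (l 0) (l 2))) (l 0))) (l 0)) (l 0)) (l 0)) (s2 (s0 (s2 (s1 (s0 (s2 (s1 (s0 (s2
    (s0 (l 8) (l 2)) (l 2)) (l 2)) (l 0)) (l 2)) (l 2)) (l 0)) (l 2)) (l 2)) (l 2))))) (l 2))) (s2 (l 0) (s2
    (s1 (s1 (s2 (l 0) (s1 (s2 (l 0) (s0 (s0 (l 4) (l 2)) (l 2))) (l 0))) (l 0)) (l 0)) (l 2))))) (s1 (s0 (s2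
    (s1 (s0 (l 8) (l 8)) (s0 (s0 (l 8) (l 8)) (s0 (l 8) (l 8)))) (s2 (s0 (s2 (s1 (s0 (l 8) (l 2)) (s2 (s0 (l 8)
    (l 2)) (l 2))) (l 2)) (l 2)) (l 2))) (s2 (s0 (s1 (s0 (l 8) (l 8)) (s0 (l 8) (s1 (l 8) (l 8)))) (s2 (s0 (l
    8) (l 8)) (l 2))) (l 2))) (s2 (s1 (s1 (s0 (s0 (l 8) (s0 (l 8) (l 8))) (s1 (s0 (s0 (l 8) (l 8)) (s2 (l 0) (l
    2))) (l 0))) (l 0)) (l 0)) (s2 (s0 (s2 (s1 (s0 (s2 (s1 (s0 (s0 (l 8) (l 2)) (l 2)) (l 0)) (l 2)) (l 2)) (l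
    0)) (l 2)) (l 2)) (l 2))))) (s1 (s1 (s2 (l 0) (s2 (l 0) (l 2))) (l 0)) (l 0)))) (l 2))))))
def md7r : Tr := (s0 (s0 (s0 (s0 (s0 (l 68) (s3 (l 70) (l 70))) (s0 (s3 (l 72) (l 72)) (s3 (l 74) (s0 (l 74) (l
    74))))) (s0 (s3 (l 76) (s0 (s0 (l 74) (l 76)) (s0 (l 76) (l 78)))) (s0 (s0 (l 78) (l 78)) (l 80)))) (s0 (s0
    (s0 (l 82) (l 82)) (l 84)) (s0 (l 86) (l 90)))) (s0 (s0 (l 92) (l 98)) (s0 (s0 (l 98) (l 100)) (s0 (l 102)
    (s0 (l 106) (s0 (l 98) (l 94)))))))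
def md7c : Tr := (s3 (l 0) (l 0))
theorem md7_ok : mdChk md7 md7s md7r md7c = true := by decide +kernel

-- u[0.9300,0.9400] C -5.0 s 1.1 K0 1.929 em 0.274 m0 0.00129 l1 0.8920 l2 1.50 V 2.184 y0 0.796 r 1.45 ka 0.7030 | leaves 314 35 2
def md0 : MD := ⟨79228162514262930218660397056, 79228162514264647216018332058, 79228162514264880558774025191, 79228162514264414717687569056,
  79228162514264337956646670293, 79228162514264588669223176241, 79228162514264759806009016320, 79228162514264952334893086409,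
  79228162514264561647625412018, 79228162514264745732260180788, 79228162514264535470452577927, 79228162514264644119793588240,
  79228162514264031067012837455, 79228162514264260469118856640, 79228162514264393607064315757,
  79228162514264599365272291246, 79228162514264602180022058353⟩
def md0s : Tr := (s0 (s1 (l 9) (s0 (s2 (s1 (l 1) (s0 (s2 (l 0) (s1 (l 9) (l 0))) (s2 (l 0) (s1 (l 9) (l 0)))))
    (l 6)) (s2 (s1 (l 9) (s0 (s1 (l 9) (l 0)) (s1 (s1 (l 1) (l 0)) (l 0)))) (l 6)))) (s0 (s0 (s1 (l 1) (s2 (s1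
    (s0 (l 1) (l 9)) (s1 (s1 (s0 (l 1) (l 1)) (l 0)) (l 0))) (l 6))) (s2 (s1 (s0 (l 1) (l 1)) (s1 (s1 (l 1) (s0
    (l 1) (l 1))) (s1 (s1 (s1 (l 1) (l 0)) (l 0)) (l 0)))) (l 6))) (s2 (s0 (s1 (s1 (l 1) (l 1)) (s1 (s1 (l 1)
    (s1 (l 1) (s0 (l 1) (s0 (l 1) (l 4))))) (s1 (s1 (s2 (l 0) (s0 (l 4) (s0 (l 4) (l 4)))) (l 0)) (l 0)))) (s0
    (s1 (s1 (l 1) (s0 (l 1) (l 1))) (s1 (s1 (s0 (l 1) (s0 (l 1) (l 1))) (s0 (s2 (s0 (l 4) (l 4)) (l 4)) (s2 (s1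
    (s1 (l 4) (l 0)) (l 0)) (s1 (l 4) (s2 (s0 (l 4) (l 4)) (l 4)))))) (s1 (s1 (s2 (l 0) (s1 (s2 (l 0) (l 4)) (l
    0))) (l 0)) (l 0)))) (s1 (s0 (s1 (l 1) (s0 (l 1) (s1 (l 1) (s0 (l 1) (l 1))))) (s1 (s0 (s0 (l 1) (l 1)) (s2
    (s0 (s1 (l 8) (s0 (l 8) (l 8))) (s2 (s1 (s0 (l 8) (s2 (s1 (s0 (l 8) (l 5)) (s0 (l 8) (s1 (s0 (l 8) (s1 (l
    8) (l 8))) (s0 (l 8) (s1 (l 8) (l 8)))))) (l 2))) (s0 (l 8) (s2 (s1 (s0 (l 8) (s1 (s0 (l 8) (s1 (l 8) (l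
    8))) (s0 (l 8) (s1 (l 8) (l 8))))) (s0 (l 8) (s1 (s0 (l 8) (l 8)) (s0 (l 8) (l 8))))) (l 2)))) (l 2))) (l
    2))) (s2 (s0 (s1 (s0 (l 1) (s0 (l 1) (l 8))) (s1 (s0 (l 1) (l 8)) (s0 (s0 (l 8) (l 8)) (s0 (l 8) (s1 (l 8)
    (l 8)))))) (s1 (s0 (s1 (l 8) (s0 (l 8) (l 8))) (s2 (s0 (s1 (l 8) (l 8)) (s2 (s1 (s0 (l 8) (s1 (s0 (l 8) (l
    8)) (s0 (l 8) (l 8)))) (s0 (l 8) (s1 (s0 (l 8) (l 8)) (s0 (l 8) (l 8))))) (l 2))) (l 2))) (s0 (s1 (s0 (l 8)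
    (s1 (l 8) (l 8))) (s0 (s1 (l 8) (s1 (l 8) (s1 (l 8) (l 8)))) (s2 (l 8) (l 2)))) (s2 (s0 (s1 (l 8) (s0 (l 8)
    (l 8))) (s2 (s1 (s0 (l 8) (s1 (l 8) (l 8))) (s0 (l 8) (s1 (l 8) (l 8)))) (l 2))) (l 2))))) (l 2)))) (s1 (s0
    (s1 (s1 (s0 (l 1) (s0 (l 1) (s2 (s0 (l 8) (l 8)) (s2 (s0 (l 4) (l 2)) (l 2))))) (s2 (s0 (s1 (l 1) (s2 (l 0)
    (s0 (l 1) (l 4)))) (s1 (s0 (l 8) (s0 (l 8) (l 8))) (s2 (l 0) (s0 (s0 (s0 (l 8) (l 8)) (l 8)) (s0 (s0 (l 8)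
    (l 8)) (s1 (l 8) (s0 (l 8) (s1 (l 8) (l 8))))))))) (s2 (s0 (l 4) (s2 (s0 (l 4) (s2 (s0 (s0 (l 4) (l 2)) (l
    2)) (l 2))) (l 2))) (l 2)))) (s2 (s1 (s2 (l 0) (s1 (s1 (s0 (s0 (l 4) (l 8)) (s1 (s0 (s0 (l 8) (l 8)) (s0 (l
    8) (s1 (s0 (l 8) (s2 (l 0) (s0 (l 8) (l 8)))) (l 0)))) (l 0))) (l 0)) (l 0))) (l 0)) (s2 (s1 (s0 (s0 (l 4)
    (l 4)) (s2 (s2 (s1 (s0 (s1 (l 4) (s1 (l 4) (l 0))) (s1 (s0 (s1 (s0 (l 4) (l 2)) (l 2)) (l 2)) (l 2))) (l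
    0)) (l 2)) (l 2))) (s1 (s1 (s2 (l 0) (s0 (l 4) (l 2))) (l 0)) (l 0))) (l 2)))) (s2 (s1 (s0 (s1 (s0 (s1 (l
    8) (s0 (l 8) (l 8))) (s1 (s0 (l 8) (s1 (l 8) (s1 (l 8) (l 8)))) (s0 (s1 (l 8) (s2 (l 8) (s0 (l 8) (l 8))))
    (s2 (l 8) (s2 (l 8) (l 2)))))) (s0 (s1 (s0 (s1 (l 8) (l 8)) (s1 (s1 (l 8) (l 8)) (s2 (l 0) (s0 (l 8) (s1 (l
    8) (s3 (s2 (l 8) (l 8)) (l 8))))))) (s2 (l 0) (s0 (s2 (l 8) (s1 (s0 (l 8) (s0 (l 8) (l 8))) (s3 (s2 (l 8)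
    (s2 (s0 (l 8) (l 2)) (l 2))) (s0 (l 8) (l 8))))) (s2 (s0 (l 8) (l 8)) (s2 (s2 (s1 (l 8) (l 0)) (l 2)) (l
    2)))))) (s2 (s1 (l 8) (l 0)) (s2 (s1 (s0 (l 8) (s0 (l 8) (l 8))) (s1 (s0 (l 8) (s1 (l 8) (l 0))) (l 0))) (l
    2))))) (s0 (s1 (s2 (s0 (l 8) (s0 (l 8) (l 8))) (s2 (s0 (s0 (l 8) (l 2)) (l 2)) (l 2))) (s2 (s1 (s0 (l 8) (l
    8)) (l 0)) (s2 (s0 (s2 (s1 (s0 (l 8) (l 2)) (l 0)) (l 2)) (l 2)) (l 2)))) (s2 (s0 (s1 (s1 (l 8) (s0 (l 8)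
    (l 8))) (s1 (s1 (l 8) (l 0)) (l 0))) (s2 (s1 (s0 (l 8) (l 8)) (l 0)) (l 2))) (l 2)))) (s1 (s2 (l 0) (s1 (s1
    (s1 (s1 (s2 (l 0) (s2 (l 0) (l 2))) (l 0)) (l 0)) (l 0)) (l 0))) (l 0))) (l 2))) (s1 (s1 (s2 (l 0) (s2 (l
    0) (l 2))) (l 0)) (l 0)))))) (l 6))))
def md0r : Tr := (s0 (s0 (s0 (s0 (s3 (l 46) (s0 (s0 (l 44) (l 46)) (l 48))) (s0 (l 50) (l 52))) (s0 (s0 (l 54)
    (l 56)) (s0 (l 58) (l 60)))) (s0 (s0 (l 62) (s0 (l 64) (l 66))) (s0 (s0 (l 66) (l 68)) (s0 (l 68) (l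
    70))))) (s0 (s0 (s0 (s3 (l 72) (l 72)) (s3 (l 72) (s0 (l 72) (l 74)))) (s3 (s0 (l 74) (l 76)) (s0 (s0 (l
    74) (l 76)) (s0 (l 76) (l 76))))) (s0 (s0 (s3 (l 76) (s0 (l 78) (l 78))) (s0 (l 78) (l 80))) (s0 (l 80) (l
    84)))))
def md0c : Tr := (s3 (l 0) (l 0))
theorem md0_ok : mdChk md0 md0s md0r md0c = true := by decide +kernel

-- kind 0 [0.3500,0.4200] K0 1.982 em 0.350 l2 1.83+0.00 io V 2.500 r 1.121 l2min 1.324 | leaves 104 45 3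
def cv2 : TD := ⟨false, 79228162514264895476947790856, 79228162514264436109785799066, 79228162514264852692751330837,
  79228162514264337593543950336, 79228162514265041280985726976, 79228162514264653126992842981, 79228162514264683807765304443,
  79228162514263991379041121252, 79228162514264239077020626630, 79228162514264355607942459818,
  79228162514264436109785799066, 79228162514264455813034168812⟩
def cv2s : Tr := (s0 (s0 (s1 (l 1) (s0 (s2 (s1 (l 1) (s0 (s2 (l 0) (l 6)) (s2 (l 0) (l 6)))) (l 6)) (s2 (s1 (l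
    9) (s0 (s2 (l 0) (l 6)) (s1 (l 9) (l 0)))) (l 6)))) (s1 (l 9) (s0 (s2 (s1 (l 9) (s2 (l 0) (l 6))) (l 6))
    (s1 (l 9) (s2 (s2 (l 0) (l 6)) (l 6)))))) (s0 (s0 (s1 (l 1) (s2 (s2 (s1 (s1 (l 1) (l 1)) (l 0)) (l 6)) (l
    6))) (s2 (s2 (s1 (s0 (l 1) (l 1)) (s1 (s1 (l 1) (s0 (l 1) (l 1))) (l 0))) (l 6)) (l 6))) (s2 (s2 (s0 (s1
    (s1 (l 1) (l 1)) (s1 (s1 (l 1) (s1 (l 1) (l 0))) (l 0))) (s0 (s1 (s1 (l 1) (s0 (l 1) (l 1))) (s1 (s1 (s0 (l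
    1) (l 1)) (s1 (s0 (l 1) (l 1)) (l 0))) (l 0))) (s1 (s1 (s0 (l 1) (s1 (s0 (l 1) (l 7)) (s0 (l 1) (s0 (l 1)
    (l 7))))) (s0 (s0 (l 1) (l 1)) (s1 (s0 (l 1) (s1 (l 7) (s0 (l 7) (l 7)))) (s1 (s0 (l 1) (s3 (l 7) (s0 (l 7)
    (l 7)))) (s0 (s0 (l 1) (l 1)) (s3 (s0 (l 7) (l 7)) (s2 (s0 (l 7) (l 7)) (l 6)))))))) (s1 (s1 (s0 (s1 (l 1)
    (s1 (l 1) (s0 (l 1) (l 1)))) (s1 (s3 (s0 (l 1) (s2 (s0 (l 7) (l 7)) (l 6))) (s2 (s0 (s0 (l 1) (l 7)) (s1 (l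
    7) (s0 (l 7) (l 7)))) (l 6))) (s2 (s1 (s1 (s3 (s0 (l 1) (l 7)) (s0 (l 7) (l 7))) (l 0)) (l 0)) (s3 (l 6) (l
    6))))) (s1 (s1 (s2 (l 0) (s2 (l 0) (l 6))) (l 0)) (l 0))) (l 0))))) (l 6)) (l 6))))
def cv2r : Tr := (s3 (s3 (s0 (s3 (s0 (s0 (l 16) (l 12)) (s3 (l 5) (l 5))) (s0 (s3 (l 13) (l 13)) (s3 (l 5) (l
    5)))) (l 0)) (s0 (s3 (s0 (s3 (l 13) (l 13)) (s3 (l 5) (l 5))) (s0 (s3 (l 13) (l 14)) (s3 (l 5) (s0 (l 11)
    (l 0))))) (l 0))) (s3 (s0 (s3 (s0 (s3 (l 14) (l 14)) (s3 (s0 (l 11) (l 0)) (s0 (l 11) (l 0)))) (s0 (s3 (l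
    14) (l 14)) (s3 (s0 (l 11) (l 0)) (s0 (l 11) (l 0))))) (l 0)) (s0 (s3 (s0 (s3 (l 14) (l 14)) (s3 (s0 (l 11)
    (l 0)) (s0 (l 11) (l 0)))) (s0 (s3 (l 14) (l 14)) (s3 (s0 (l 11) (l 0)) (s0 (l 11) (l 0))))) (l 0))))
def cv2c : Tr := (s3 (l 0) (s3 (l 0) (l 0)))
theorem cv2_ok : cvChk cv2 cv2s cv2r cv2c = true := by decide +kernel

-- u[0.3560,0.4680] C -6.8 s 1.7 K0 1.355 em 0.025 m0 0.02702 l1 2.8967 l2 -0.90 V 1.325 y0 0.112 r 0.06 ka 0.2160 | leaves 137 15 4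
def md18 : MD := ⟨79228162514262423563702317875, 79228162514264816101004358451, 79228162514264718992137393275, 79228162514264344630418368102,
  79228162514264345198997821058, 79228162514265152942108988093, 79228162514264084266064910746, 79228162514264710547888091955,
  79228162514264369118741341929, 79228162514264354482042552975, 79228162514264398392138919838, 79228162514264498315755652121,
  79228162514264176871050773575, 79228162514264330556388057593, 79228162514264608935421499408,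
  79228162514264437798635659330, 79228162514264469323833050923⟩
def md18s : Tr := (s0 (l 9) (s0 (s0 (l 9) (s0 (l 9) (l 9))) (s0 (s1 (l 1) (s1 (l 1) (s1 (l 1) (l 1)))) (s0 (s1
    (s0 (l 1) (l 1)) (s1 (l 1) (s1 (l 1) (s0 (l 1) (s2 (l 0) (s2 (l 4) (l 6))))))) (s0 (s1 (s0 (l 1) (l 1)) (s1
    (s1 (l 1) (l 1)) (s2 (s1 (s0 (l 1) (s0 (l 4) (s1 (l 1) (l 0)))) (l 0)) (s2 (s2 (s0 (l 4) (s0 (l 4) (l 4)))
    (l 6)) (l 6))))) (s0 (s1 (s1 (l 1) (s0 (l 1) (l 1))) (s2 (s1 (s1 (s0 (l 1) (s0 (l 1) (s1 (l 1) (s3 (s2 (l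
    8) (s0 (l 1) (l 8))) (s1 (l 1) (l 8)))))) (s0 (s0 (l 1) (s2 (s1 (l 1) (l 0)) (l 4))) (s2 (s1 (s1 (l 8) (l
    0)) (l 0)) (s3 (s1 (s2 (s0 (l 4) (l 8)) (l 4)) (s2 (s0 (l 4) (s0 (l 8) (l 8))) (s0 (l 4) (l 4)))) (s2 (s0
    (l 4) (s0 (l 4) (l 4))) (l 4)))))) (s1 (s1 (s1 (s2 (l 0) (s1 (s0 (l 4) (s2 (l 0) (s2 (l 0) (l 4)))) (l 0)))
    (l 0)) (l 0)) (l 0))) (s2 (s2 (s1 (s0 (l 4) (s0 (l 4) (l 2))) (s1 (s0 (l 4) (s0 (l 4) (l 2))) (l 0))) (l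
    6)) (l 6)))) (s2 (s1 (s0 (s1 (s0 (l 1) (s1 (l 1) (l 8))) (s1 (s0 (l 1) (l 8)) (s0 (s3 (l 8) (l 8)) (s3 (l
    8) (l 8))))) (s1 (s0 (s1 (l 8) (l 8)) (s2 (s1 (l 8) (l 8)) (l 2))) (s0 (s1 (s1 (l 8) (l 8)) (s3 (s1 (l 8)
    (l 8)) (l 8))) (s2 (l 8) (l 2))))) (s1 (s0 (s1 (s2 (s0 (l 8) (l 8)) (s0 (s3 (s1 (l 8) (l 8)) (s0 (l 8) (l
    8))) (s2 (l 8) (l 2)))) (s2 (s1 (l 8) (l 0)) (s3 (s2 (s1 (l 8) (l 8)) (s2 (s1 (l 8) (s0 (s0 (l 8) (l 8)) (l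
    2))) (l 2))) (s2 (s0 (l 8) (l 8)) (s2 (s1 (l 8) (s0 (l 4) (l 2))) (l 2)))))) (s0 (s2 (l 8) (s2 (s1 (l 8) (l
    8)) (l 2))) (s2 (l 8) (l 2)))) (s1 (s1 (s1 (s2 (l 0) (s1 (s2 (l 0) (s2 (l 0) (l 2))) (l 0))) (l 0)) (l 0))
    (l 0)))) (l 2))))))))
def md18r : Tr := (s0 (s0 (s0 (s3 (s0 (s3 (s0 (l 52) (l 54)) (l 52)) (s0 (l 56) (l 60))) (s0 (l 54) (l 58)))
    (s3 (s0 (l 64) (l 68)) (l 66))) (s0 (l 74) (l 82))) (s0 (l 92) (s0 (l 102) (l 114))))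
def md18c : Tr := (s3 (s3 (s3 (l 0) (l 0)) (l 0)) (l 0))
theorem md18_ok : mdChk md18 md18s md18r md18c = true := by decide +kernel

end Pool.Agent.MP_b5eafd_co

end
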