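import Pool.Agent.MP_b5eafd_co.Tree

-- part MP_b5eafd_co.Data1
section

/-! Certificate data, checked by the kernel. -/

set_option autoImplicit false
set_option maxRecDepth 100000

namespace Pool.Agent.MP_b5eafd_co
open Tr

-- u[0.8520,0.8660] C -6.4 s 1.5 K0 1.851 em 0.196 m0 0.01527 l1 1.3079 l2 1.10 V 2.186 y0 0.655 r 0.74 ka 0.4484 | leaves 509 31 2
def md6 : MD := ⟨79228162514262536153693002137, 79228162514264759806009016320, 79228162514264858603725841760, 79228162514264392762639385625,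
  79228162514264341891666844708, 79228162514264705734665990203, 79228162514264647216018332058, 79228162514264952897843039830,
  79228162514264521959653695816, 79228162514264545885026716222, 79228162514264463806923507394, 79228162514264644401268564951,
  79228162514264030785537860744, 79228162514264282424167040071, 79228162514264446242884960649,
  79228162514264577410224107815, 79228162514264581350873781764⟩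
def md6s : Tr := (s0 (s1 (l 9) (s0 (s2 (s1 (l 1) (s0 (s2 (l 0) (s1 (l 9) (l 0))) (s2 (l 0) (s1 (l 9) (l 0)))))
    (s1 (l 1) (s0 (s2 (s1 (l 9) (s0 (s2 (l 0) (s1 (l 9) (l 0))) (s2 (l 0) (s1 (l 9) (l 0))))) (l 6)) (s2 (s1 (l
    9) (s1 (l 9) (l 0))) (l 6))))) (s2 (s1 (l 9) (s0 (s1 (l 9) (l 0)) (s1 (s1 (l 9) (l 0)) (l 0)))) (s1 (l 9)
    (s0 (s1 (l 9) (s2 (s1 (s1 (l 9) (l 0)) (l 0)) (l 6))) (s1 (l 9) (s2 (s1 (s1 (s0 (l 9) (s1 (l 3) (l 0))) (l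
    0)) (l 0)) (l 6)))))))) (s0 (s0 (s1 (l 1) (s1 (s1 (l 1) (l 1)) (s1 (s1 (s1 (l 1) (s2 (l 0) (l 9))) (s2 (l
    0) (s2 (s0 (s1 (l 9) (s0 (l 9) (l 4))) (s1 (l 4) (l 4))) (l 6)))) (s2 (l 0) (s2 (s1 (s1 (s2 (l 0) (s0 (l 4)
    (l 2))) (l 0)) (l 0)) (l 6)))))) (s1 (s0 (l 1) (l 1)) (s1 (s1 (l 1) (s1 (l 1) (l 1))) (s1 (s0 (s1 (s1 (l 1)
    (s2 (l 0) (s0 (l 3) (l 4)))) (s2 (l 0) (s2 (s0 (l 4) (l 4)) (l 6)))) (s1 (s2 (s0 (l 4) (l 4)) (s2 (l 4) (l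
    6))) (s2 (l 0) (s2 (s0 (l 4) (l 4)) (l 6))))) (s2 (l 0) (s2 (s1 (s2 (l 0) (l 2)) (l 0)) (l 6))))))) (s0 (s1
    (s1 (l 1) (s0 (l 1) (l 1))) (s1 (s0 (s1 (l 1) (s1 (l 1) (s1 (l 1) (s0 (l 1) (s2 (l 4) (l 4)))))) (s1 (l 1)
    (s2 (s0 (s0 (l 4) (l 4)) (s1 (l 1) (s2 (l 0) (l 4)))) (s2 (s0 (l 4) (l 4)) (l 6))))) (s1 (s0 (s2 (s1 (s0 (l
    4) (l 4)) (l 0)) (s2 (s1 (l 4) (s0 (l 4) (l 4))) (l 6))) (s2 (s1 (s2 (l 0) (s0 (l 4) (s1 (l 4) (l 0)))) (l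
    0)) (s2 (s1 (l 4) (s0 (l 4) (l 2))) (l 6)))) (s2 (l 0) (s2 (s2 (l 0) (l 2)) (l 6)))))) (s0 (s1 (s1 (l 1)
    (s1 (l 1) (l 1))) (s1 (s2 (s1 (s0 (l 1) (s1 (l 1) (s0 (l 1) (s2 (s0 (l 4) (s2 (l 8) (s1 (l 1) (l 8)))) (s0
    (l 4) (l 4)))))) (s0 (s1 (s2 (l 4) (l 4)) (s2 (l 0) (s2 (s0 (l 4) (l 4)) (l 4)))) (s1 (s2 (s1 (s0 (l 4) (s2
    (l 0) (s0 (l 4) (s0 (l 8) (l 8))))) (l 0)) (s2 (s0 (l 4) (s2 (s1 (l 4) (s1 (l 4) (l 0))) (l 4))) (l 4)))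
    (s2 (l 0) (s2 (s1 (s0 (l 4) (s1 (s2 (l 0) (l 4)) (l 0))) (l 0)) (s2 (s0 (l 4) (l 4)) (l 2))))))) (s2 (s2
    (s0 (s0 (l 4) (l 4)) (l 2)) (l 2)) (l 6))) (s2 (s1 (s1 (s2 (l 0) (s1 (s2 (l 0) (s0 (l 4) (s2 (l 0) (l 2))))
    (l 0))) (l 0)) (l 0)) (l 2)))) (s2 (s1 (s0 (s1 (l 1) (s1 (s0 (l 1) (l 1)) (s0 (l 1) (s2 (s1 (l 8) (s0 (l 8)
    (l 8))) (s2 (s1 (s0 (l 1) (l 1)) (s0 (s0 (l 1) (l 8)) (s2 (l 8) (l 2)))) (l 2)))))) (s1 (s0 (s1 (l 1) (s0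
    (l 1) (s2 (l 8) (l 2)))) (s2 (s0 (s1 (l 8) (l 8)) (s2 (s1 (s1 (l 5) (s0 (l 8) (s0 (l 8) (l 8)))) (s0 (l 8)
    (s1 (s0 (l 8) (l 8)) (l 8)))) (l 2))) (l 2))) (s0 (s1 (s2 (s0 (l 8) (l 8)) (s2 (s0 (s0 (l 1) (l 2)) (l 2))
    (l 2))) (s2 (s1 (s0 (l 8) (l 8)) (s0 (l 8) (l 8))) (s2 (s0 (s1 (s0 (l 8) (l 2)) (s2 (l 8) (l 2))) (l 2)) (l
    2)))) (s2 (s0 (s1 (s0 (l 8) (l 8)) (s1 (l 8) (l 8))) (s2 (s1 (s0 (l 8) (s1 (l 8) (l 8))) (s0 (l 8) (l 8)))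
    (l 2))) (l 2))))) (s1 (s0 (s1 (s1 (s2 (s0 (s0 (l 1) (l 8)) (s0 (l 8) (l 8))) (s0 (s2 (s0 (l 1) (s0 (l 4) (l
    4))) (l 4)) (s2 (s0 (s1 (s0 (l 8) (l 8)) (s1 (s0 (l 8) (l 8)) (s0 (s0 (l 8) (l 8)) (s2 (l 8) (l 2))))) (s2
    (s0 (l 8) (l 8)) (l 2))) (l 2)))) (s2 (s0 (s2 (s0 (l 8) (l 8)) (s1 (l 8) (s0 (s0 (l 8) (l 8)) (l 8)))) (s1
    (s0 (l 8) (l 8)) (s0 (l 8) (l 8)))) (s2 (s0 (s1 (s2 (s0 (l 4) (l 8)) (l 4)) (s0 (s0 (l 4) (l 4)) (s2 (s0 (l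
    8) (l 8)) (l 4)))) (s1 (s0 (s2 (l 8) (s0 (l 4) (l 2))) (s2 (s0 (l 8) (l 8)) (l 2))) (s2 (s0 (s0 (l 8) (s0
    (l 8) (l 8))) (s1 (s0 (l 8) (l 8)) (s0 (l 8) (s2 (l 8) (l 2))))) (s2 (s0 (s0 (s2 (s0 (l 8) (l 2)) (l 2)) (l
    2)) (l 2)) (l 2))))) (l 2)))) (s2 (s1 (s2 (l 0) (s1 (s0 (s1 (s0 (l 8) (l 8)) (l 0)) (s0 (l 8) (l 8))) (l
    0))) (l 0)) (s2 (s1 (s0 (s1 (s2 (s0 (s1 (s0 (l 4) (l 8)) (s2 (l 8) (l 4))) (s1 (s0 (l 8) (l 8)) (s2 (l 8)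
    (s0 (s0 (l 8) (l 8)) (s1 (l 8) (s0 (l 8) (s0 (l 8) (l 8)))))))) (s0 (l 4) (s2 (s0 (l 4) (s2 (s1 (s2 (l 8)
    (l 4)) (s3 (s1 (s0 (l 4) (s2 (l 8) (l 2))) (s3 (s2 (s1 (s0 (l 8) (l 8)) (s0 (s0 (l 8) (l 8)) (s2 (l 8) (l
    2)))) (s0 (l 4) (l 2))) (s2 (l 8) (s0 (l 4) (l 2))))) (s1 (l 8) (l 8)))) (l 2))) (l 2)))) (s2 (s1 (s1 (s0
    (s0 (l 8) (s0 (l 8) (l 8))) (s1 (s0 (s0 (l 8) (l 8)) (s2 (l 0) (s1 (s0 (l 8) (s0 (l 8) (l 8))) (l 0)))) (l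
    0))) (l 0)) (l 0)) (s0 (s2 (s2 (s1 (l 4) (l 0)) (l 4)) (l 4)) (s2 (s1 (s0 (s2 (s0 (l 4) (s3 (s1 (s2 (s2 (s1
    (l 4) (l 0)) (l 4)) (l 4)) (s1 (s2 (l 0) (l 4)) (l 0))) (s2 (l 8) (l 4)))) (l 4)) (s2 (s3 (s1 (s3 (s2 (s0
    (s1 (s3 (s2 (l 8) (s1 (s0 (l 4) (s2 (l 8) (l 2))) (s0 (s2 (l 8) (l 4)) (s2 (s0 (l 8) (s1 (l 8) (l 2))) (l
    2))))) (l 8)) (s1 (s1 (s1 (s1 (s3 (s2 (l 0) (s1 (s2 (l 0) (s0 (l 4) (l 2))) (l 0))) (l 8)) (l 0)) (l 0)) (l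
    0)) (l 0))) (s2 (s1 (s0 (s1 (l 8) (s1 (l 8) (l 0))) (l 2)) (l 0)) (l 2))) (s0 (s2 (s0 (s0 (l 4) (l 2)) (l
    2)) (l 2)) (l 2))) (s2 (s0 (s0 (l 8) (l 8)) (s2 (l 8) (l 2))) (l 2))) (s1 (s1 (s1 (s1 (s2 (l 0) (s2 (l 0)
    (l 2))) (l 0)) (l 0)) (l 0)) (l 0))) (s2 (s1 (l 8) (l 0)) (l 2))) (l 2))) (s1 (s1 (s1 (s2 (l 0) (s0 (l 4)
    (l 2))) (l 0)) (l 0)) (l 0))) (l 2))))) (s2 (s1 (s0 (s1 (s0 (l 8) (s0 (l 8) (s0 (l 8) (l 8)))) (s2 (s0 (l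
    8) (l 8)) (s0 (s1 (s0 (l 8) (l 8)) (s3 (s2 (l 8) (s3 (s0 (s0 (l 8) (l 8)) (s2 (l 8) (l 2))) (l 8))) (l 8)))
    (s2 (s0 (l 8) (l 8)) (l 2))))) (s1 (s2 (l 8) (s2 (s0 (l 8) (l 2)) (l 2))) (s2 (s0 (l 8) (l 8)) (l 2)))) (s1
    (s1 (s1 (s2 (l 0) (s0 (s1 (s2 (l 0) (s0 (s3 (s1 (s3 (s0 (s0 (l 8) (l 8)) (s2 (l 0) (l 2))) (l 8)) (l 0)) (l
    8)) (l 2))) (l 0)) (l 2))) (l 0)) (l 0)) (l 0))) (l 2))) (s1 (s1 (s2 (l 0) (s0 (s1 (s2 (l 0) (s0 (l 4) (l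
    2))) (l 0)) (l 2))) (l 0)) (l 0))) (l 2)))) (s1 (s2 (s0 (s1 (s0 (l 8) (l 8)) (s0 (s0 (l 8) (l 8)) (s0 (l 8)
    (l 8)))) (s0 (s1 (s0 (l 8) (l 8)) (s1 (s0 (l 8) (l 8)) (s0 (l 8) (l 8)))) (s2 (l 8) (l 2)))) (s2 (s0 (s2
    (s0 (s1 (s0 (l 8) (l 2)) (s1 (s0 (l 8) (l 2)) (l 2))) (l 2)) (l 2)) (l 2)) (l 2))) (s2 (s1 (s1 (s0 (s1 (s0
    (l 8) (l 8)) (l 0)) (s1 (s0 (s0 (l 8) (l 8)) (s2 (l 0) (l 2))) (l 0))) (l 0)) (l 0)) (l 2)))) (s1 (s1 (s2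
    (l 0) (s2 (l 0) (l 2))) (l 0)) (l 0)))) (l 2))))))
def md6r : Tr := (s0 (s0 (s0 (s0 (s3 (l 64) (s0 (s0 (l 62) (l 64)) (s0 (l 64) (l 66)))) (s3 (l 68) (s0 (s0 (l
    66) (l 68)) (s0 (l 68) (l 70))))) (s0 (s0 (s3 (l 70) (l 70)) (s3 (l 72) (l 72))) (s3 (l 74) (s0 (l 74) (l
    76))))) (s0 (s0 (s0 (l 76) (l 78)) (l 80)) (s0 (l 82) (l 84)))) (s0 (s0 (l 88) (l 94)) (s0 (s0 (l 96) (l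
    98)) (s0 (s0 (l 98) (l 102)) (s0 (s0 (l 106) (l 88)) (l 88))))))
def md6c : Tr := (s3 (l 0) (l 0))
theorem md6_ok : mdChk md6 md6s md6r md6c = true := by decide +kernel

-- u[0.6600,0.7060] C -8.0 s 2.0 K0 1.659 em 0.093 m0 0.03136 l1 3.4424 l2 -0.60 V 1.895 y0 0.375 r 0.25 ka 0.2814 | leaves 341 23 3
def md15 : MD := ⟨79228162514262085793730265088, 79228162514264900543497371648, 79228162514264804560530313314, 79228162514264363770716784427,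
  79228162514264346420599219982, 79228162514265306543003779098, 79228162514264168708557923942, 79228162514264870988624817029,
  79228162514264443146660216832, 79228162514264407962288128000, 79228162514264416800602396715, 79228162514264604150346895327,
  79228162514264071036459530368, 79228162514264311416089641268, 79228162514264540255527182008,
  79228162514264523367028579369, 79228162514264536314877508059⟩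
def md15s : Tr := (s0 (s0 (s1 (l 1) (s2 (s0 (l 9) (s1 (l 1) (l 9))) (s0 (l 9) (l 9)))) (s1 (l 1) (s2 (s0 (s1 (l
    1) (s1 (l 9) (l 0))) (s1 (l 1) (s1 (l 9) (l 0)))) (s0 (s1 (l 1) (s1 (l 9) (s1 (l 9) (s2 (l 0) (l 9))))) (s1
    (l 1) (s1 (l 9) (s1 (l 9) (s2 (l 0) (s1 (l 9) (s0 (l 9) (l 2))))))))))) (s0 (s0 (s1 (l 1) (s1 (l 1) (s1 (s0
    (l 9) (s1 (l 1) (s2 (l 0) (l 9)))) (s2 (l 0) (s1 (s2 (s1 (l 9) (l 0)) (l 9)) (s2 (l 0) (s2 (s1 (s0 (l 9) (l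
    4)) (l 0)) (l 6)))))))) (s1 (l 1) (s1 (s1 (l 1) (l 1)) (s1 (s0 (s1 (l 1) (s2 (l 0) (s2 (s0 (l 9) (l 3)) (l
    9)))) (s1 (s0 (l 1) (l 1)) (s2 (l 0) (s2 (s0 (l 4) (l 4)) (l 9))))) (s2 (l 0) (s1 (s0 (s2 (s1 (l 4) (l 0))
    (s0 (l 9) (l 4))) (s2 (s0 (l 4) (l 4)) (s0 (l 4) (l 2)))) (s2 (l 0) (s0 (l 2) (l 2))))))))) (s0 (s1 (s1 (l
    1) (l 1)) (s1 (s1 (l 1) (s0 (l 1) (s0 (l 1) (s1 (l 1) (s0 (l 1) (s1 (l 1) (s2 (l 4) (l 4)))))))) (s1 (s0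
    (s2 (s1 (s0 (l 4) (l 4)) (l 0)) (s1 (s1 (l 1) (s0 (l 4) (l 4))) (s2 (l 4) (l 4)))) (s2 (s1 (s0 (l 4) (s1 (l
    4) (l 0))) (l 0)) (s2 (s1 (l 4) (s0 (l 4) (l 4))) (l 2)))) (s2 (l 0) (s2 (s1 (s2 (l 0) (s0 (l 4) (l 4))) (l
    0)) (l 2)))))) (s0 (s1 (s1 (l 1) (s0 (l 1) (l 1))) (s1 (s2 (s0 (s1 (l 1) (s1 (l 1) (s2 (l 0) (l 4)))) (s1
    (s0 (l 1) (s1 (l 1) (l 1))) (s1 (s0 (s2 (l 4) (l 4)) (s2 (s1 (s0 (l 4) (l 8)) (l 0)) (s2 (l 4) (l 4)))) (s2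
    (l 0) (s0 (s0 (l 4) (l 4)) (s2 (s1 (s1 (l 4) (l 0)) (l 0)) (l 4))))))) (s2 (s0 (s0 (l 4) (l 4)) (s1 (l 4)
    (s0 (l 4) (l 4)))) (l 2))) (s2 (s1 (s1 (s2 (l 0) (s1 (s0 (l 4) (s2 (l 0) (s2 (l 0) (l 4)))) (l 0))) (l 0))
    (l 0)) (s2 (s2 (s1 (s1 (s0 (l 4) (l 4)) (s2 (l 0) (l 4))) (l 0)) (l 2)) (l 2))))) (s1 (s0 (s1 (l 1) (s0 (l
    1) (s2 (s1 (l 1) (s0 (l 1) (s1 (l 1) (s2 (l 8) (s2 (l 8) (l 4)))))) (l 2)))) (s2 (s0 (s1 (s1 (l 1) (s0 (l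
    1) (s1 (l 1) (l 8)))) (s1 (s0 (s1 (l 1) (l 1)) (s1 (l 8) (s2 (l 8) (l 8)))) (s2 (s0 (l 8) (l 8)) (s2 (s0 (l
    8) (l 8)) (l 2))))) (s2 (s1 (s0 (s0 (l 8) (l 8)) (s0 (s1 (l 8) (l 8)) (s1 (s1 (l 5) (s1 (l 5) (l 8))) (s1
    (s1 (l 8) (l 8)) (l 8))))) (s0 (s1 (l 8) (l 8)) (s0 (s1 (l 8) (l 8)) (s1 (s1 (l 8) (l 8)) (l 8))))) (l 2)))
    (l 2))) (s1 (s2 (s0 (s1 (s0 (s1 (l 1) (s2 (s0 (l 8) (l 8)) (s2 (s0 (l 4) (s0 (l 4) (l 8))) (l 4)))) (s2 (s1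
    (l 8) (l 8)) (s1 (s2 (s0 (l 8) (l 8)) (s2 (s0 (l 4) (l 8)) (l 2))) (s2 (s0 (l 8) (l 8)) (s2 (s0 (l 4) (s2
    (s0 (l 8) (l 2)) (l 2))) (l 2)))))) (s2 (s1 (s0 (s0 (l 8) (l 8)) (s0 (l 8) (l 8))) (l 0)) (s0 (s1 (s2 (s1
    (s0 (l 4) (l 8)) (s0 (s0 (l 4) (l 8)) (s0 (l 8) (l 8)))) (s0 (l 4) (l 4))) (s2 (s1 (s1 (s0 (s1 (l 8) (l 0))
    (s0 (l 8) (l 8))) (l 0)) (l 0)) (s2 (s1 (s2 (s0 (l 4) (s2 (s1 (l 4) (l 0)) (l 4))) (l 4)) (s0 (l 4) (s1 (s2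
    (l 0) (l 4)) (l 0)))) (l 4)))) (s1 (s2 (s1 (s0 (l 8) (l 8)) (s0 (s0 (l 8) (l 8)) (s0 (l 8) (l 8)))) (s2 (s1
    (s0 (s2 (s0 (l 4) (l 8)) (l 4)) (s2 (s0 (l 8) (l 2)) (l 2))) (s0 (s2 (s1 (s0 (l 4) (l 8)) (s3 (s0 (l 8) (s0
    (l 8) (l 8))) (l 8))) (s0 (l 4) (l 2))) (s2 (s1 (s0 (l 8) (l 2)) (l 2)) (l 2)))) (l 2))) (s2 (s1 (s1 (s0
    (s0 (l 8) (l 8)) (s0 (l 8) (l 8))) (l 0)) (l 0)) (s2 (s0 (s1 (s2 (s1 (s3 (s2 (s0 (l 8) (l 8)) (s0 (l 4) (s2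
    (s2 (s0 (l 8) (l 2)) (l 2)) (l 2)))) (s0 (l 4) (s0 (l 8) (l 8)))) (s1 (s1 (s3 (s1 (s2 (l 0) (s0 (s2 (l 0)
    (l 4)) (l 2))) (l 0)) (s0 (l 4) (s0 (l 8) (l 8)))) (l 0)) (l 0))) (s2 (s0 (s0 (l 4) (l 2)) (l 2)) (l 2)))
    (s2 (l 0) (l 2))) (l 2)) (l 2))))))) (s0 (s1 (s2 (s0 (l 8) (l 8)) (s2 (s1 (s0 (l 8) (l 8)) (s0 (l 8) (s0 (l
    8) (l 8)))) (l 2))) (s2 (s1 (s0 (l 8) (l 8)) (l 0)) (s2 (s1 (s0 (s1 (l 8) (s0 (l 8) (l 8))) (s2 (l 8) (l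
    2))) (s1 (s1 (s1 (s0 (s0 (l 8) (l 8)) (s2 (l 0) (l 2))) (l 0)) (l 0)) (l 0))) (l 2)))) (s2 (s1 (s0 (l 8)
    (s0 (l 8) (l 8))) (s0 (s0 (l 8) (l 8)) (l 8))) (l 2)))) (s2 (s0 (s1 (s0 (l 2) (l 2)) (l 2)) (l 2)) (l 2)))
    (s2 (s1 (s2 (l 0) (s1 (s1 (s2 (l 0) (s0 (s1 (s2 (l 0) (s0 (l 4) (l 2))) (l 0)) (l 2))) (l 0)) (l 0))) (l
    0)) (l 2))))))))
def md15r : Tr := (s0 (s0 (s0 (s0 (s3 (l 78) (s3 (l 78) (s0 (s0 (l 76) (l 78)) (s0 (l 78) (l 80))))) (s3 (l 80)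
    (s0 (s3 (l 80) (l 80)) (l 84)))) (s0 (s0 (l 86) (l 86)) (l 88))) (s0 (l 92) (l 98))) (s0 (s0 (l 104) (l
    110)) (s0 (l 114) (s0 (l 116) (s3 (s0 (l 116) (s0 (l 116) (l 148))) (l 150))))))
def md15c : Tr := (s3 (s3 (l 0) (l 0)) (l 0))
theorem md15_ok : mdChk md15 md15s md15r md15c = true := by decide +kernel

-- kind 0 [0.4200,0.4800] K0 1.969 em 0.331 l2 1.68+0.00 io V 2.500 r 1.087 l2min 1.372 | leaves 141 52 4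
def cv3 : TD := ⟨false, 79228162514264891817773093618, 79228162514264430761761241563, 79228162514264810471504824238,
  79228162514264337593543950336, 79228162514265041280985726976, 79228162514264643556843634819, 79228162514264683807765304443,
  79228162514263991379041121252, 79228162514264244425045184132, 79228162514264365741041621402,
  79228162514264455813034168812, 79228162514264472701532771451⟩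
def cv3s : Tr := (s0 (s0 (s1 (l 1) (s0 (s2 (s1 (l 1) (s0 (s2 (l 0) (l 6)) (s2 (l 0) (l 6)))) (l 6)) (s2 (s1 (l
    9) (s0 (s2 (l 0) (l 6)) (s1 (l 9) (l 0)))) (l 6)))) (s1 (l 9) (s0 (s2 (s1 (l 9) (s2 (l 0) (l 6))) (l 6))
    (s1 (l 9) (s2 (s2 (l 0) (l 6)) (l 6)))))) (s0 (s0 (s1 (l 1) (s2 (s2 (s1 (s1 (l 1) (l 1)) (l 0)) (l 6)) (l
    6))) (s2 (s2 (s1 (s0 (l 1) (l 1)) (s1 (s1 (l 1) (s0 (l 1) (l 1))) (l 0))) (l 6)) (l 6))) (s2 (s2 (s0 (s1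
    (s1 (l 1) (s0 (l 1) (l 1))) (s1 (s1 (l 1) (s1 (l 1) (l 0))) (l 0))) (s0 (s1 (s1 (l 1) (s0 (l 1) (l 1))) (s1
    (s1 (s0 (l 1) (l 1)) (s1 (s1 (l 1) (l 0)) (l 0))) (l 0))) (s1 (s1 (s0 (l 1) (s1 (s0 (l 1) (l 7)) (s0 (l 1)
    (l 7)))) (s0 (s1 (l 1) (l 1)) (s1 (s0 (l 1) (s1 (l 7) (l 7))) (s1 (s0 (s0 (l 1) (l 1)) (s3 (l 7) (l 7)))
    (s0 (s3 (s0 (l 1) (l 1)) (s1 (l 7) (s0 (l 1) (l 7)))) (s2 (s3 (l 7) (s0 (l 7) (l 7))) (l 2))))))) (s1 (s1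
    (s0 (s1 (s0 (l 1) (l 1)) (s0 (l 1) (s2 (s1 (s1 (l 1) (l 0)) (l 0)) (s1 (s3 (l 1) (l 1)) (s3 (l 1) (s2 (s1
    (l 7) (l 0)) (l 6))))))) (s1 (s0 (s3 (s1 (l 7) (s0 (l 1) (l 7))) (s1 (s2 (l 7) (l 7)) (s2 (l 7) (s0 (l 7)
    (l 7))))) (s2 (s3 (s1 (l 7) (l 7)) (s1 (s0 (l 7) (l 7)) (s0 (l 7) (s0 (l 7) (l 7))))) (l 2))) (s3 (s2 (s1
    (s0 (l 7) (s0 (l 7) (l 7))) (l 0)) (s0 (s1 (s1 (l 7) (s0 (l 7) (l 7))) (s2 (s2 (l 0) (l 6)) (l 6))) (l 2)))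
    (s1 (s0 (s2 (s0 (l 7) (l 7)) (s2 (s0 (l 7) (l 7)) (l 6))) (s2 (s1 (s0 (l 7) (s0 (l 7) (l 7))) (l 0)) (l
    2))) (s2 (l 0) (s0 (s2 (s1 (s1 (s0 (l 7) (l 7)) (l 0)) (l 0)) (l 6)) (l 2))))))) (s1 (s1 (s2 (l 0) (s1 (s2
    (l 0) (s2 (l 0) (l 6))) (l 0))) (l 0)) (l 0))) (l 0))))) (l 6)) (l 6))))
def cv3r : Tr := (s3 (s3 (s0 (s3 (s0 (s3 (l 14) (l 14)) (s3 (s0 (l 10) (l 6)) (s0 (l 10) (l 6)))) (s0 (s3 (l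
    14) (l 14)) (s3 (s0 (l 10) (l 6)) (s0 (l 10) (l 6))))) (l 0)) (s0 (s3 (s0 (s3 (l 14) (l 14)) (s3 (s0 (l 10)
    (l 6)) (s0 (l 10) (l 6)))) (s0 (s3 (l 15) (l 15)) (s3 (s0 (l 10) (l 6)) (s0 (l 10) (l 6))))) (l 0))) (s3
    (s0 (s3 (s0 (s3 (l 15) (l 15)) (s3 (s0 (l 10) (l 6)) (s0 (l 10) (l 6)))) (s0 (s3 (l 15) (l 15)) (s3 (s0 (l
    10) (l 6)) (s0 (l 10) (l 6))))) (l 0)) (s0 (s3 (s0 (s3 (l 16) (l 16)) (s3 (s0 (l 10) (l 6)) (s0 (l 10) (l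
    6)))) (s0 (s3 (l 16) (l 16)) (s3 (s0 (l 10) (l 6)) (s0 (l 10) (l 6))))) (l 0))))
def cv3c : Tr := (s3 (l 0) (s3 (l 0) (s3 (l 0) (l 0))))
theorem cv3_ok : cvChk cv3 cv3s cv3r cv3c = true := by decide +kernel

-- kind 0 [0.2500,0.3500] K0 1.993 em 0.364 l2 2.35+0.00 io V 2.500 r 1.145 l2min 1.226 | leaves 136 5 4
def cv1 : TD := ⟨false, 79228162514264898573172534673, 79228162514264440050435473015, 79228162514264999059739220378,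
  79228162514264337593543950336, 79228162514265041280985726976, 79228162514264659882392284037, 79228162514264683807765304443,
  79228162514263991379041121252, 79228162514264235136370952681, 79228162514264346037793251656,
  79228162514264407962288128000, 79228162514264436109785799066⟩
def cv1s : Tr := (s0 (s0 (s1 (l 1) (s0 (s2 (s1 (l 1) (s0 (s2 (l 0) (l 6)) (s2 (l 0) (l 6)))) (l 6)) (s2 (s1 (l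
    1) (s0 (s2 (l 0) (l 6)) (s1 (l 9) (l 0)))) (l 6)))) (s1 (l 1) (s0 (s2 (s1 (l 9) (s2 (l 0) (l 6))) (l 6))
    (s1 (l 9) (s2 (s2 (l 0) (l 6)) (l 6)))))) (s0 (s0 (s1 (l 1) (s2 (s2 (s1 (s1 (l 1) (l 1)) (l 0)) (l 6)) (l
    6))) (s2 (s2 (s2 (s1 (s0 (l 1) (l 1)) (s1 (s1 (l 1) (l 0)) (l 0))) (l 6)) (l 6)) (l 6))) (s2 (s2 (s0 (s2
    (s1 (s1 (l 1) (l 1)) (s1 (s1 (l 1) (l 0)) (l 0))) (l 6)) (s2 (s0 (s1 (s1 (l 1) (s0 (l 1) (l 1))) (s1 (s1 (l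
    1) (l 0)) (l 0))) (s1 (s1 (s0 (l 1) (s0 (l 1) (s1 (s1 (l 7) (l 7)) (s3 (s0 (l 1) (l 7)) (s0 (l 1) (l
    7)))))) (s0 (s0 (l 1) (l 1)) (s1 (s0 (l 1) (s3 (s1 (l 7) (s1 (l 7) (s0 (l 1) (l 7)))) (s1 (l 7) (s1 (l 7)
    (s0 (l 1) (l 7)))))) (s3 (s0 (l 1) (s0 (l 1) (s1 (s1 (l 7) (s3 (l 7) (l 7))) (s0 (l 1) (s2 (s3 (s1 (l 7) (l
    7)) (s1 (l 7) (l 7))) (l 6)))))) (s0 (l 1) (s1 (s0 (l 1) (s1 (s0 (l 7) (l 7)) (s3 (l 7) (l 7)))) (s0 (l 1)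
    (s2 (s3 (s1 (l 7) (s0 (l 7) (l 7))) (s1 (s0 (l 7) (l 7)) (s1 (s0 (l 7) (l 7)) (s0 (l 7) (l 7))))) (l
    6))))))))) (s1 (s1 (s3 (s0 (l 1) (s2 (s1 (s0 (l 1) (s0 (l 1) (s2 (s1 (s3 (s0 (l 1) (l 7)) (s0 (l 1) (l 7)))
    (l 0)) (l 6)))) (l 0)) (l 6))) (s2 (s1 (s0 (l 1) (s0 (l 1) (s0 (s3 (l 1) (s1 (l 1) (s0 (l 1) (l 7)))) (s3
    (s1 (s1 (l 7) (s0 (l 7) (l 7))) (s1 (s0 (l 7) (l 7)) (l 0))) (s1 (s0 (s0 (l 7) (l 7)) (s3 (s0 (l 7) (l 7))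
    (s1 (l 7) (l 7)))) (s1 (s3 (l 7) (s0 (l 7) (s0 (l 7) (l 7)))) (l 0))))))) (l 0)) (l 6))) (l 0)) (l 0)))) (l
    6))) (l 6)) (l 6))))
def cv1r : Tr := (s3 (l 0) (s3 (l 0) (s3 (l 0) (s3 (l 0) (l 0)))))
def cv1c : Tr := (s3 (l 0) (s3 (l 0) (s3 (l 0) (l 0))))
theorem cv1_ok : cvChk cv1 cv1s cv1r cv1c = true := by decide +kernel

end Pool.Agent.MP_b5eafd_co

end

-- part MP_b5eafd_co.Data2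
section

/-! Certificate data, checked by the kernel. -/

set_option autoImplicit false
set_option maxRecDepth 100000

namespace Pool.Agent.MP_b5eafd_co
open Tr

-- u[0.8660,0.8800] C -6.2 s 1.4 K0 1.865 em 0.209 m0 0.01167 l1 1.2066 l2 1.00 V 2.199 y0 0.682 r 0.82 ka 0.4757 | leaves 483 32 2
def md5 : MD := ⟨79228162514262592448688344269, 79228162514264731658511345254, 79228162514264862544375515709, 79228162514264396421814082863,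
  79228162514264340878356928549, 79228162514264677221250849414, 79228162514264619068520660992, 79228162514264956557017737069,
  79228162514264529559478067003, 79228162514264568403024853074, 79228162514264471491190371595, 79228162514264646090118425215,
  79228162514264029096688000480, 79228162514264278764992342832, 79228162514264437517160682619,
  79228162514264581350873781764, 79228162514264585291523455713⟩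
def md5s : Tr := (s0 (s1 (l 9) (s0 (s2 (s1 (l 1) (s0 (s2 (l 0) (s1 (l 9) (l 0))) (s2 (l 0) (s1 (l 9) (l 0)))))
    (s1 (l 1) (s0 (s2 (s1 (l 9) (s0 (s2 (l 0) (l 6)) (s2 (l 0) (l 6)))) (l 6)) (s2 (s1 (l 9) (s1 (l 9) (l 0)))
    (l 6))))) (s2 (s1 (l 9) (s0 (s1 (l 9) (l 0)) (s1 (s1 (l 9) (l 0)) (l 0)))) (s1 (l 9) (s0 (s1 (l 9) (s2 (s2
    (l 0) (l 6)) (l 6))) (s2 (s1 (l 9) (s2 (l 0) (l 6))) (l 6))))))) (s0 (s0 (s1 (l 1) (s1 (s1 (l 1) (l 1)) (s1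
    (s1 (s1 (l 1) (s0 (l 3) (s2 (l 0) (l 3)))) (s2 (l 0) (s2 (s2 (s1 (s0 (l 9) (l 4)) (l 0)) (l 6)) (l 6))))
    (s2 (l 0) (s2 (s2 (l 0) (l 6)) (l 6)))))) (s1 (s0 (l 1) (l 1)) (s1 (s1 (l 1) (s1 (l 1) (l 1))) (s1 (s0 (s1
    (s1 (l 1) (s2 (l 0) (s0 (l 4) (l 4)))) (s2 (l 0) (s2 (s0 (l 4) (l 4)) (l 6)))) (s1 (s2 (s0 (l 4) (l 4)) (s2
    (l 4) (l 6))) (s2 (l 0) (s2 (s0 (l 4) (l 4)) (l 6))))) (s2 (l 0) (s2 (s2 (l 0) (l 6)) (l 6))))))) (s0 (s1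
    (s1 (l 1) (s0 (l 1) (l 1))) (s1 (s0 (s1 (l 1) (s1 (l 1) (s0 (l 1) (s1 (l 1) (s2 (l 4) (l 4)))))) (s1 (l 1)
    (s2 (s0 (s0 (l 4) (l 4)) (s1 (l 1) (s2 (l 0) (l 4)))) (s2 (s0 (l 4) (l 4)) (l 6))))) (s1 (s2 (s1 (s2 (l 0)
    (s1 (s0 (l 4) (s0 (l 4) (l 4))) (l 0))) (l 0)) (s2 (s2 (s1 (s0 (l 4) (l 4)) (s0 (l 4) (l 4))) (l 6)) (l
    6))) (s2 (l 0) (s2 (s2 (l 0) (l 6)) (l 6)))))) (s0 (s1 (s1 (l 1) (s1 (l 1) (l 1))) (s1 (s2 (s1 (s0 (l 1)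
    (s1 (l 1) (s0 (l 1) (s2 (s1 (l 1) (s2 (l 0) (s0 (l 4) (l 4)))) (l 4))))) (s0 (s1 (s2 (l 4) (l 4)) (s2 (l 0)
    (s2 (l 4) (l 4)))) (s1 (s2 (s1 (s0 (l 4) (s2 (l 0) (s0 (l 4) (s1 (l 8) (l 0))))) (l 0)) (s2 (s0 (l 4) (s1
    (l 4) (s2 (s1 (l 4) (l 0)) (l 4)))) (l 4))) (s2 (l 0) (s2 (s1 (s0 (l 4) (s1 (s2 (l 0) (l 4)) (l 0))) (l 0))
    (s0 (l 4) (l 4))))))) (s2 (s2 (s0 (s0 (l 4) (l 4)) (l 2)) (l 6)) (l 6))) (s2 (s1 (s1 (s2 (l 0) (s1 (s2 (l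
    0) (s2 (l 0) (l 4))) (l 0))) (l 0)) (l 0)) (l 2)))) (s2 (s1 (s0 (s1 (l 1) (s1 (l 1) (s0 (l 1) (s1 (l 1) (s0
    (l 1) (s2 (l 8) (s2 (s2 (l 8) (l 2)) (l 2)))))))) (s1 (s0 (s1 (l 1) (s0 (l 1) (s2 (l 8) (l 2)))) (s2 (s0
    (s1 (l 8) (l 8)) (s2 (s1 (s1 (l 5) (s0 (l 8) (s0 (l 8) (l 8)))) (s0 (l 8) (s1 (s0 (l 8) (l 8)) (s0 (l 8) (l
    8))))) (l 2))) (l 2))) (s0 (s1 (s2 (s0 (l 8) (l 8)) (s2 (s0 (s0 (l 1) (l 2)) (l 2)) (l 2))) (s2 (s1 (s0 (l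
    8) (l 8)) (s0 (l 8) (l 8))) (s2 (s0 (s1 (s0 (l 8) (l 2)) (s2 (l 8) (l 2))) (l 2)) (l 2)))) (s2 (s1 (s0 (s0
    (l 8) (l 8)) (s0 (s1 (l 8) (l 8)) (s2 (s1 (l 8) (l 8)) (l 2)))) (s0 (s1 (l 8) (s0 (l 8) (l 8))) (s2 (s0 (l
    8) (s1 (l 8) (l 8))) (l 2)))) (l 2))))) (s1 (s0 (s1 (s2 (s0 (s1 (s0 (l 1) (l 8)) (s1 (s0 (l 8) (l 8)) (s0
    (l 8) (l 8)))) (s1 (s0 (l 8) (l 8)) (s1 (s0 (l 8) (l 8)) (s0 (l 8) (l 8))))) (s1 (s2 (s0 (s0 (l 1) (l 4))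
    (s0 (s1 (s0 (l 4) (l 8)) (s2 (l 8) (l 4))) (s2 (s0 (l 8) (l 8)) (l 2)))) (l 2)) (s2 (s0 (s0 (l 4) (s2 (s1
    (l 8) (s0 (l 8) (l 8))) (l 4))) (s2 (s1 (s0 (l 8) (s2 (l 8) (l 2))) (s0 (s1 (l 8) (s0 (l 8) (s0 (l 8) (l
    8)))) (s2 (s0 (l 8) (l 8)) (l 2)))) (l 2))) (l 2)))) (s1 (s2 (s2 (l 0) (s1 (s0 (s1 (s1 (l 8) (l 0)) (l 0))
    (s1 (s0 (l 8) (l 8)) (l 0))) (l 0))) (s2 (s0 (s1 (s2 (s0 (s2 (s1 (l 4) (l 8)) (l 4)) (s1 (s0 (l 8) (s0 (l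
    8) (l 8))) (s2 (s1 (l 8) (l 0)) (s0 (s1 (l 8) (s3 (s0 (l 8) (s1 (l 8) (s0 (l 8) (s2 (l 0) (s2 (l 8) (l
    4)))))) (l 8))) (s3 (s1 (s0 (l 8) (s1 (l 8) (s0 (l 8) (l 8)))) (s2 (s0 (l 8) (l 8)) (s3 (s1 (s0 (l 8) (s3
    (s2 (l 8) (s2 (l 8) (s0 (s0 (l 8) (l 2)) (l 2)))) (l 8))) (s2 (s1 (s0 (l 8) (l 8)) (l 0)) (s0 (s0 (l 4) (s3
    (s2 (s0 (l 8) (l 8)) (s2 (s0 (l 4) (s1 (l 4) (s3 (s1 (s2 (l 8) (l 4)) (s1 (s1 (s1 (s1 (s2 (l 0) (l 4)) (l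
    0)) (l 0)) (l 0)) (l 0))) (l 8)))) (l 4))) (l 8))) (s2 (s3 (s1 (s0 (l 8) (s2 (l 8) (l 2))) (s1 (s1 (s1 (s0
    (l 8) (s2 (l 0) (l 2))) (l 0)) (l 0)) (l 0))) (s0 (l 8) (l 2))) (l 2))))) (s0 (l 8) (s1 (l 8) (l 8))))))
    (s0 (l 8) (l 8))))))) (s2 (s0 (l 4) (s1 (l 4) (s2 (s0 (l 4) (s0 (l 4) (l 2))) (l 4)))) (l 4))) (s2 (s1 (s1
    (s1 (s2 (l 0) (s0 (l 4) (s1 (s3 (s1 (s2 (l 0) (s1 (s0 (s2 (l 0) (l 4)) (s2 (l 0) (s3 (s1 (s2 (l 0) (s0 (s0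
    (l 4) (s0 (l 4) (s2 (l 0) (l 2)))) (l 2))) (l 0)) (s0 (l 8) (l 8))))) (l 0))) (l 0)) (s0 (l 8) (l 8))) (l
    0)))) (l 0)) (l 0)) (l 0)) (s0 (s0 (l 4) (l 4)) (s2 (s2 (s1 (s3 (s0 (s2 (s1 (l 4) (l 0)) (l 4)) (s2 (s1 (s0
    (s0 (l 4) (l 2)) (l 2)) (l 0)) (l 2))) (s0 (l 4) (l 2))) (l 0)) (l 2)) (l 2))))) (s2 (s1 (s0 (s1 (s2 (l 8)
    (s0 (s1 (l 8) (s0 (l 8) (s2 (l 8) (l 2)))) (s2 (s0 (l 8) (l 8)) (l 2)))) (s2 (s1 (s0 (l 8) (l 8)) (l 0))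
    (s0 (s3 (s1 (s2 (l 8) (s2 (s0 (l 8) (l 2)) (l 2))) (s2 (s1 (s0 (l 8) (l 8)) (l 0)) (s2 (s0 (s3 (s1 (s0 (l
    8) (s2 (l 8) (l 2))) (s1 (s1 (s1 (s1 (s0 (l 8) (s0 (l 8) (l 2))) (l 0)) (l 0)) (l 0)) (l 0))) (l 8)) (l 2))
    (l 2)))) (s1 (l 8) (s0 (l 8) (s0 (l 8) (l 8))))) (s2 (s2 (s1 (s0 (l 8) (l 8)) (l 0)) (l 2)) (l 2))))) (s2
    (s1 (s0 (l 8) (s2 (l 8) (l 2))) (s1 (s1 (s0 (l 8) (s0 (l 8) (l 2))) (l 0)) (l 0))) (l 2))) (s1 (s1 (s1 (s2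
    (l 0) (s0 (s1 (s2 (l 0) (s2 (l 0) (l 2))) (l 0)) (l 2))) (l 0)) (l 0)) (l 0))) (l 2))) (l 2))) (s2 (l 0)
    (s2 (s1 (s1 (s2 (l 0) (s0 (s1 (s2 (l 0) (s0 (l 4) (l 2))) (l 0)) (l 2))) (l 0)) (l 0)) (l 2))))) (s2 (s1
    (s0 (s1 (s0 (l 8) (s0 (l 8) (l 8))) (s0 (s1 (l 8) (s0 (l 8) (l 8))) (s1 (s0 (l 8) (l 8)) (s0 (l 8) (s1 (l
    8) (l 8)))))) (s0 (s1 (s0 (l 8) (s1 (l 8) (l 8))) (s2 (l 8) (s2 (l 8) (l 2)))) (s2 (s0 (l 8) (l 8)) (l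
    2)))) (s1 (s1 (s1 (s0 (s0 (s0 (l 8) (l 8)) (s1 (s0 (l 8) (s2 (l 0) (l 8))) (l 0))) (s1 (s2 (l 0) (s2 (l 0)
    (l 2))) (l 0))) (l 0)) (l 0)) (l 0))) (l 2))) (s1 (s1 (s2 (l 0) (s2 (l 0) (l 2))) (l 0)) (l 0)))) (l
    2))))))
def md5r : Tr := (s0 (s0 (s0 (s0 (s3 (l 62) (s0 (s0 (l 60) (l 62)) (s0 (l 62) (l 64)))) (s3 (l 66) (s0 (s0 (l
    64) (l 66)) (s0 (l 66) (l 68))))) (s0 (s3 (l 68) (s0 (s0 (l 68) (l 68)) (l 70))) (s3 (l 72) (s0 (l 72) (l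
    74))))) (s0 (s0 (s0 (l 74) (l 76)) (l 78)) (s0 (l 80) (l 82)))) (s0 (s0 (l 86) (l 90)) (s0 (s0 (l 94) (l
    96)) (s0 (s0 (l 96) (s0 (l 96) (l 100))) (s0 (s3 (l 102) (l 106)) (l 82))))))
def md5c : Tr := (s3 (l 0) (l 0))
theorem md5_ok : mdChk md5 md5s md5r md5c = true := by decide +kernel

-- u[0.7850,0.8000] C -7.0 s 1.7 K0 1.784 em 0.145 m0 0.03482 l1 1.9037 l2 0.60 V 2.084 y0 0.532 r 0.46 ka 0.3574 | leaves 370 21 2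
def md11 : MD := ⟨79228162514262367268706975744, 79228162514264816101004358451, 79228162514264839744902402146, 79228162514264378407415573381,
  79228162514264347394502639401, 79228162514264873437457114412, 79228162514264506478529976730, 79228162514264924187395415343,
  79228162514264487338231560405, 79228162514264467072033237238, 79228162514264438192700626724, 79228162514264630890469682840,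
  79228162514264044296336742856, 79228162514264296779390852314, 79228162514264484523481793298,
  79228162514264558551400668201, 79228162514264562773525318861⟩
def md11s : Tr := (s0 (s1 (l 9) (s0 (s2 (s1 (l 1) (s0 (s2 (l 0) (s1 (l 9) (l 0))) (s2 (l 0) (s1 (l 9) (l 0)))))
    (s1 (l 1) (s0 (s2 (s1 (l 9) (s0 (s2 (l 0) (s1 (l 9) (l 0))) (s2 (l 0) (s1 (l 9) (l 0))))) (l 6)) (s2 (s1 (l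
    9) (s0 (s2 (l 0) (s1 (l 9) (l 0))) (s1 (l 9) (l 0)))) (l 6))))) (s2 (s1 (l 9) (s0 (s1 (l 9) (l 0)) (s1 (l
    9) (l 0)))) (s1 (l 9) (s1 (l 9) (s0 (s1 (l 9) (s2 (l 0) (l 6))) (s2 (s1 (s1 (l 9) (l 0)) (l 0)) (l
    6)))))))) (s0 (s0 (s1 (l 1) (s1 (s0 (l 1) (l 9)) (s1 (s0 (s1 (l 1) (s2 (l 0) (l 9))) (s1 (s0 (l 3) (s2 (l
    3) (l 9))) (s2 (l 0) (s1 (l 3) (s2 (l 4) (l 6)))))) (s2 (l 0) (s2 (s1 (s2 (l 0) (s1 (s0 (s0 (l 9) (l 3)) (l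
    4)) (l 0))) (l 0)) (l 6)))))) (s1 (s0 (l 1) (l 1)) (s1 (s1 (l 1) (s0 (l 1) (l 1))) (s1 (s0 (s1 (s1 (l 1)
    (s2 (l 0) (s0 (l 9) (l 3)))) (s2 (l 0) (s2 (s0 (l 4) (l 4)) (l 6)))) (s1 (s2 (s0 (l 4) (l 4)) (s2 (s0 (l 4)
    (l 4)) (l 6))) (s2 (l 0) (s2 (s0 (l 4) (l 4)) (l 6))))) (s2 (l 0) (s2 (s1 (s1 (s0 (l 4) (l 4)) (l 0)) (l
    0)) (l 6))))))) (s0 (s1 (s0 (l 1) (s0 (l 1) (l 1))) (s1 (s1 (l 1) (s0 (s1 (l 1) (s0 (l 1) (s1 (l 1) (l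
    1)))) (s1 (l 1) (s2 (s0 (l 4) (s0 (l 4) (l 4))) (s2 (l 4) (l 6)))))) (s1 (s0 (s2 (s1 (s0 (l 4) (l 4)) (l
    0)) (s2 (s1 (l 4) (s0 (l 4) (l 4))) (l 6))) (s2 (s1 (s2 (l 0) (s1 (l 4) (l 0))) (l 0)) (s2 (s1 (l 4) (s0 (l
    4) (l 4))) (l 6)))) (s2 (l 0) (s2 (s2 (l 0) (l 2)) (l 6)))))) (s0 (s1 (s1 (l 1) (s1 (l 1) (l 1))) (s1 (s2
    (s1 (s0 (l 1) (s1 (l 1) (s0 (l 1) (s2 (s0 (l 4) (l 8)) (l 4))))) (s0 (s1 (s2 (l 4) (l 4)) (s2 (l 0) (s0 (l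
    4) (l 4)))) (s1 (s2 (s1 (s0 (l 4) (s2 (l 0) (s0 (l 4) (s0 (l 4) (l 8))))) (l 0)) (s2 (s0 (l 4) (s1 (l 4)
    (s2 (s1 (l 4) (l 0)) (l 4)))) (l 4))) (s2 (l 0) (s2 (s1 (s0 (l 4) (s1 (s2 (l 0) (l 4)) (l 0))) (l 0)) (s0
    (l 4) (s0 (l 4) (l 4)))))))) (s2 (s0 (s0 (l 4) (l 4)) (s0 (l 4) (l 2))) (l 6))) (s2 (s1 (s1 (s2 (l 0) (s1
    (s2 (l 0) (s0 (l 4) (s2 (l 0) (l 4)))) (l 0))) (l 0)) (l 0)) (s2 (s1 (s2 (s1 (s0 (l 4) (l 2)) (l 2)) (l 2))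
    (l 2)) (l 6))))) (s1 (s0 (s1 (l 1) (s2 (s0 (s1 (l 1) (l 1)) (s1 (l 1) (s2 (s0 (l 8) (l 8)) (s1 (s0 (l 1) (l
    1)) (s2 (s0 (l 8) (l 8)) (l 2)))))) (l 2))) (s2 (s0 (s1 (s1 (l 1) (s0 (l 1) (s1 (l 1) (s1 (l 1) (l 8)))))
    (s1 (s2 (s0 (l 8) (l 8)) (s2 (s0 (l 8) (l 2)) (l 2))) (s2 (s0 (l 8) (l 8)) (s2 (s0 (s0 (l 8) (l 8)) (l 2))
    (l 2))))) (s2 (s1 (s0 (s1 (l 8) (l 8)) (s1 (s0 (l 8) (s1 (l 5) (s1 (l 5) (l 8)))) (s0 (l 8) (s1 (l 8) (l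
    8))))) (s0 (s1 (l 8) (l 8)) (s1 (s0 (l 8) (s1 (l 8) (l 8))) (s0 (l 8) (l 8))))) (l 2))) (l 2))) (s2 (s1 (s0
    (s1 (s0 (s2 (s1 (s0 (l 1) (l 8)) (s0 (l 8) (l 8))) (s2 (s1 (s0 (l 1) (s0 (l 4) (l 4))) (s1 (s0 (l 4) (l 8))
    (s0 (l 4) (s0 (l 8) (l 8))))) (l 4))) (s2 (s1 (l 8) (s0 (l 8) (l 8))) (s2 (s1 (s0 (s0 (l 8) (l 8)) (s0 (l
    8) (l 8))) (s1 (s0 (l 8) (l 8)) (s0 (s0 (l 8) (s0 (l 8) (l 8))) (s1 (l 8) (s0 (l 8) (s0 (l 8) (l 8)))))))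
    (l 2)))) (s1 (s2 (s1 (s0 (l 8) (l 8)) (l 0)) (s2 (s0 (s1 (s2 (s0 (l 8) (l 8)) (s0 (l 4) (s2 (l 8) (l 4))))
    (s2 (s1 (s0 (l 8) (l 8)) (l 0)) (s1 (s0 (l 4) (s2 (l 8) (s2 (s0 (l 4) (s2 (l 8) (l 4))) (l 4)))) (s0 (s2
    (s1 (l 4) (l 0)) (l 4)) (s2 (s1 (s0 (l 8) (l 8)) (l 0)) (s0 (l 4) (s2 (s3 (s1 (s3 (s2 (l 8) (s0 (l 4) (l
    2))) (s0 (l 4) (l 8))) (s1 (s1 (s1 (s1 (s3 (s2 (l 0) (s0 (l 4) (l 2))) (l 8)) (l 0)) (l 0)) (l 0)) (l 0)))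
    (s0 (l 4) (s2 (l 8) (l 2)))) (l 2)))))))) (s1 (s2 (s0 (l 8) (l 8)) (s0 (s2 (l 8) (s2 (s0 (s0 (l 8) (l 2))
    (l 2)) (l 2))) (s2 (s0 (l 8) (l 2)) (l 2)))) (s2 (s0 (l 8) (l 8)) (s0 (s2 (s1 (s0 (l 8) (l 8)) (s1 (s0 (l
    8) (l 8)) (l 0))) (s1 (s2 (s0 (s2 (l 8) (l 2)) (l 2)) (l 2)) (l 2))) (s2 (s1 (s0 (l 8) (l 2)) (l 2)) (l
    2)))))) (s2 (s0 (s1 (l 4) (s0 (l 4) (l 2))) (l 2)) (l 2)))) (s2 (l 0) (s2 (s1 (s1 (s2 (l 0) (s1 (s2 (l 0)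
    (s0 (s0 (l 4) (s1 (s1 (s0 (l 4) (s2 (l 0) (l 2))) (l 0)) (l 0))) (l 2))) (l 0))) (l 0)) (l 0)) (s2 (s0 (s2
    (s1 (s0 (l 4) (l 2)) (l 0)) (l 2)) (l 2)) (l 2)))))) (s1 (s2 (s0 (s1 (l 8) (l 8)) (s0 (l 8) (l 8))) (s2 (s0
    (s0 (s2 (s1 (l 8) (l 8)) (l 2)) (l 2)) (l 2)) (l 2))) (s2 (s1 (s0 (s0 (l 8) (l 8)) (l 8)) (l 0)) (s2 (s0
    (s2 (s1 (s0 (s1 (l 8) (l 8)) (l 2)) (l 0)) (l 2)) (l 2)) (l 2))))) (s1 (s1 (s2 (l 0) (s1 (s2 (l 0) (s2 (l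
    0) (l 2))) (l 0))) (l 0)) (l 0))) (l 2)))))))
def md11r : Tr := (s0 (s0 (s0 (s0 (s0 (l 68) (s0 (l 70) (l 70))) (s0 (s3 (l 72) (l 72)) (s3 (l 74) (l 74))))
    (s0 (s0 (s0 (l 76) (l 76)) (l 78)) (s0 (l 80) (l 80)))) (s0 (s0 (l 82) (l 86)) (l 88))) (s0 (s0 (l 94) (l
    100)) (s0 (l 104) (s0 (l 104) (s0 (l 104) (l 92))))))
def md11c : Tr := (s3 (l 0) (l 0))
theorem md11_ok : mdChk md11 md11s md11r md11c = true := by decide +kernel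

-- kind 2 [0.9440,0.9481] K0 1.943 em 0.284 l2 1.43+0.00 io V 2.560 r 1.001 l2min 1.394 | leaves 240 10 1
def sm0 : TD := ⟨false, 79228162514264884499423699141, 79228162514264417532437336162, 79228162514264740102760646574,
  79228162514264337593543950336, 79228162514265058169484329615, 79228162514264619349995637703, 79228162514264689437264838656,
  79228162514263985749541587039, 79228162514264257654369089533, 79228162514264383192490177462,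
  79228162514264603305921965195, 79228162514264604459969369709⟩
def sm0s : Tr := (s0 (s0 (s1 (l 1) (s0 (s2 (s1 (l 9) (s0 (s2 (l 0) (s1 (l 9) (l 0))) (s2 (l 0) (s1 (l 9) (l
    0))))) (l 6)) (s2 (s1 (l 9) (s0 (s2 (l 0) (s1 (l 9) (l 0))) (s1 (l 9) (l 0)))) (l 6)))) (s1 (l 9) (s0 (s2
    (s1 (l 9) (s1 (s1 (l 9) (l 0)) (l 0))) (l 6)) (s1 (l 9) (s2 (s1 (s1 (s1 (l 1) (l 0)) (l 0)) (l 0)) (l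
    6)))))) (s0 (s0 (s1 (l 1) (s2 (s1 (s1 (l 1) (s0 (l 1) (l 1))) (s1 (s1 (s1 (l 1) (l 0)) (l 0)) (l 0))) (l
    6))) (s2 (s1 (s0 (l 1) (l 1)) (s1 (s1 (l 1) (s1 (l 1) (l 1))) (s1 (s1 (s1 (s1 (l 1) (l 0)) (l 0)) (l 0)) (l
    0)))) (l 6))) (s2 (s0 (s1 (s1 (l 1) (s0 (l 1) (l 1))) (s1 (s1 (l 1) (s0 (s1 (l 1) (s0 (l 1) (s1 (l 1) (l
    1)))) (s1 (l 1) (s2 (l 0) (s2 (s2 (l 0) (l 6)) (l 6)))))) (s1 (s1 (s2 (l 0) (s2 (l 0) (l 6))) (l 0)) (l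
    0)))) (s0 (s1 (s1 (l 1) (s0 (l 1) (l 1))) (s1 (s1 (s0 (l 1) (s0 (l 1) (l 1))) (s2 (s1 (s1 (s1 (l 1) (l 0))
    (l 0)) (l 0)) (s2 (s2 (s1 (s2 (s1 (s0 (l 1) (s0 (l 1) (s1 (l 1) (s1 (l 1) (l 0))))) (l 0)) (l 6)) (l 0)) (l
    6)) (l 6)))) (s1 (s2 (l 0) (s2 (l 0) (l 6))) (l 0)))) (s1 (s1 (s0 (l 1) (s1 (s2 (l 7) (l 2)) (s2 (l 7) (l
    2)))) (s0 (s1 (l 1) (s0 (l 1) (l 1))) (s2 (s1 (s0 (l 7) (l 7)) (s1 (s0 (l 7) (l 7)) (s0 (s0 (l 7) (s0 (l 7)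
    (l 7))) (s2 (s0 (l 7) (l 7)) (l 2))))) (l 2)))) (s1 (s2 (s1 (s0 (s1 (s0 (l 1) (s1 (l 1) (s2 (l 7) (s0 (l 1)
    (l 7))))) (s0 (s0 (l 1) (s1 (l 1) (s2 (l 0) (s1 (l 1) (s2 (l 0) (s1 (l 1) (s0 (l 1) (l 7)))))))) (s1 (s2
    (s0 (l 7) (l 7)) (s0 (s0 (l 1) (l 7)) (s2 (l 7) (s0 (l 7) (l 7))))) (s2 (l 0) (s1 (s2 (s1 (l 7) (l 0)) (s0
    (s0 (l 7) (l 7)) (s2 (s0 (l 7) (l 7)) (l 2)))) (s2 (l 0) (s0 (s1 (s2 (l 7) (s0 (l 7) (l 7))) (s2 (l 0) (s0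
    (l 7) (s0 (s1 (l 7) (l 7)) (l 2))))) (s2 (s1 (s1 (s0 (l 7) (l 7)) (l 0)) (l 0)) (l 2))))))))) (s1 (s0 (s1
    (s2 (l 7) (s0 (l 7) (l 7))) (s2 (s0 (l 7) (l 7)) (s0 (s0 (l 7) (l 7)) (s2 (l 7) (l 2))))) (s2 (s1 (s0 (l 7)
    (l 7)) (s0 (s0 (l 7) (l 7)) (s1 (l 7) (s0 (l 7) (s2 (l 0) (l 2)))))) (l 2))) (s0 (s2 (s1 (s1 (s0 (l 7) (l
    7)) (l 0)) (l 0)) (s2 (s1 (s0 (s1 (l 7) (l 7)) (s2 (s1 (l 7) (s1 (l 7) (l 0))) (l 2))) (s1 (s1 (s1 (s0 (l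
    7) (s2 (l 0) (l 2))) (l 0)) (l 0)) (l 0))) (l 2))) (s2 (s1 (s1 (s1 (s0 (l 7) (s1 (s2 (l 0) (s0 (l 7) (l
    2))) (l 0))) (l 0)) (l 0)) (l 0)) (l 2))))) (s1 (s1 (s1 (s1 (s2 (l 0) (s2 (l 0) (s0 (s0 (s0 (l 1) (s1 (s0
    (l 7) (l 7)) (l 0))) (s1 (s2 (l 0) (s0 (s1 (s0 (l 7) (s2 (l 0) (l 2))) (l 0)) (l 2))) (l 0))) (l 2)))) (l
    0)) (l 0)) (l 0)) (l 0))) (s2 (s0 (s2 (s0 (s1 (s1 (l 1) (s1 (l 1) (s1 (l 1) (s2 (s0 (l 1) (s0 (l 1) (l 2)))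
    (l 6))))) (s1 (s2 (s1 (s2 (s1 (s0 (s0 (l 1) (l 7)) (s0 (s1 (l 7) (s0 (l 7) (l 7))) (l 2))) (l 0)) (l 6)) (l
    0)) (l 6)) (l 0))) (l 2)) (l 6)) (l 2)) (l 6))) (s1 (s2 (l 0) (s2 (l 0) (l 6))) (l 0)))))) (l 6))))
def sm0r : Tr := (s0 (s0 (s0 (l 20) (l 13)) (s0 (l 8) (l 4))) (s0 (s0 (s0 (l 2) (s0 (s3 (l 1) (l 1)) (l 0))) (l
    0)) (l 0)))
def sm0c : Tr := (l 0)
theorem sm0_ok : smChk sm0 sm0s sm0r sm0c = true := by decide +kernel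

-- kind 1 [0.0000,0.2500] K0 1.999 em 0.366 l2 1.20+4.00 io V 2.500 r 1.150 l2min 0.984 | leaves 89 1 1
def cv0 : TD := ⟨true, 79228162514264900262022394937, 79228162514264440613385426436, 79228162514264675363516003123,
  79228162514265463493450792960, 79228162514265041280985726976, 79228162514264661289767167590, 79228162514264683807765304443,
  79228162514263991379041121252, 79228162514264234573420999259, 79228162514264339282393810600,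
  79228162514264337593543950336, 79228162514264407962288128000⟩
def cv0s : Tr := (s0 (s0 (s1 (l 1) (s0 (s2 (s3 (s1 (l 1) (s0 (s2 (l 0) (l 6)) (s2 (l 0) (l 6)))) (s1 (l 1) (s0
    (s2 (l 0) (l 6)) (s2 (l 0) (l 6))))) (l 6)) (s2 (s3 (s1 (l 1) (s0 (s2 (l 0) (l 6)) (s1 (l 9) (l 0)))) (s1
    (l 1) (s0 (s2 (l 0) (l 6)) (s1 (l 9) (l 0))))) (l 6)))) (s1 (l 1) (s0 (s2 (s3 (s1 (l 1) (s2 (l 0) (l 6)))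
    (s1 (l 1) (s2 (l 0) (l 6)))) (l 6)) (s1 (l 9) (s2 (s2 (l 0) (l 6)) (l 6)))))) (s0 (s0 (s1 (l 1) (s2 (s2 (s1
    (s1 (l 1) (l 1)) (l 0)) (l 6)) (l 6))) (s2 (s2 (s2 (s2 (s1 (s0 (l 1) (l 1)) (s1 (s1 (l 1) (l 0)) (l 0))) (l
    6)) (l 6)) (l 6)) (l 6))) (s2 (s2 (s0 (s2 (s2 (s1 (s1 (l 1) (l 1)) (s1 (s1 (l 1) (l 0)) (l 0))) (l 6)) (l
    6)) (s2 (s2 (s0 (s1 (s1 (l 1) (l 1)) (s1 (s1 (l 1) (l 0)) (l 0))) (s1 (s2 (s1 (s0 (l 1) (s0 (l 1) (s1 (l 7)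
    (l 7)))) (s0 (l 1) (s0 (l 1) (s1 (s1 (l 7) (l 7)) (s1 (s0 (l 1) (l 7)) (s1 (l 7) (s0 (l 1) (l 7)))))))) (l
    6)) (s1 (s1 (s0 (l 1) (s1 (s0 (l 1) (s1 (s0 (l 1) (l 7)) (s0 (l 1) (l 7)))) (l 0))) (l 0)) (l 0)))) (l 6))
    (l 6))) (l 6)) (l 6))))
def cv0r : Tr := (l 0)
def cv0c : Tr := (l 0)
theorem cv0_ok : cvChk cv0 cv0s cv0r cv0c = true := by decide +kernel

end Pool.Agent.MP_b5eafd_co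

end

-- part MP_b5eafd_co.Data3
section

/-! Certificate data, checked by the kernel. -/

set_option autoImplicit false
set_option maxRecDepth 100000

namespace Pool.Agent.MP_b5eafd_co
open Tr

-- u[0.7350,0.7640] C -7.2 s 1.8 K0 1.734 em 0.122 m0 0.04739 l1 2.2516 l2 0.40 V 2.025 y0 0.469 r 0.36 ka 0.3205 | leaves 454 39 3
def md13 : MD := ⟨79228162514262310973711633613, 79228162514264844248502029517, 79228162514264825671153566614, 79228162514264371933491109036,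
  79228162514264350932643096654, 79228162514264971362601512049, 79228162514264450183534634598, 79228162514264907580371789414,
  79228162514264469605308027634, 79228162514264438924535566172, 79228162514264427806273986101, 79228162514264622727695358231,
  79228162514264052459111067465, 79228162514264303253315316659, 79228162514264509293279743836,
  79228162514264544477651832668, 79228162514264552640426157277⟩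
def md13s : Tr := (s0 (s1 (l 9) (s0 (s2 (s1 (l 1) (s0 (s2 (l 0) (s1 (l 9) (l 0))) (s2 (l 0) (s1 (l 9) (l 0)))))
    (s1 (l 1) (s0 (s2 (s1 (l 9) (s0 (s2 (l 0) (s1 (l 9) (l 0))) (s2 (l 0) (s1 (l 9) (l 0))))) (s1 (l 9) (s0 (s2
    (s1 (l 9) (s0 (s2 (l 0) (l 6)) (s2 (l 0) (l 6)))) (l 6)) (s2 (s1 (l 9) (s0 (s2 (l 0) (l 6)) (s2 (l 0) (l
    6)))) (l 6))))) (s2 (s1 (l 9) (s0 (s2 (l 0) (s1 (l 9) (l 0))) (s1 (l 9) (l 0)))) (s1 (l 9) (s0 (s2 (s1 (l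
    9) (s1 (l 9) (l 0))) (l 6)) (s1 (l 9) (s1 (l 9) (s2 (l 0) (l 6)))))))))) (s2 (s1 (l 9) (s1 (l 9) (l 0)))
    (s1 (l 9) (s1 (l 9) (s0 (s1 (l 9) (s2 (l 0) (s1 (l 9) (s2 (l 0) (l 6))))) (s1 (s0 (l 9) (s1 (l 9) (s2 (l 0)
    (l 9)))) (s2 (l 0) (s2 (s2 (l 0) (l 6)) (l 6)))))))))) (s0 (s0 (s1 (l 1) (s1 (l 9) (s1 (s0 (s1 (l 1) (s2 (l
    0) (l 9))) (s1 (l 1) (s2 (l 0) (s1 (l 9) (s0 (l 9) (l 3)))))) (s2 (l 0) (s1 (s0 (s2 (s1 (s0 (l 9) (l 3)) (l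
    0)) (l 9)) (s1 (s2 (l 4) (l 9)) (s2 (l 0) (l 2)))) (s2 (l 0) (s0 (l 2) (l 2)))))))) (s1 (s0 (l 1) (l 1))
    (s1 (s1 (l 1) (s0 (l 1) (l 1))) (s1 (s0 (s1 (s1 (l 1) (s2 (l 0) (l 3))) (s2 (l 0) (s2 (s0 (l 4) (l 4)) (l
    9)))) (s1 (s1 (l 1) (s2 (l 0) (s0 (l 4) (l 4)))) (s2 (l 0) (s2 (s0 (l 4) (l 4)) (s0 (l 4) (l 2)))))) (s2 (l
    0) (s1 (s0 (s2 (s1 (l 4) (l 0)) (l 2)) (s2 (s1 (l 4) (l 0)) (l 2))) (s2 (l 0) (l 2)))))))) (s0 (s1 (s1 (l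
    1) (l 1)) (s1 (s1 (l 1) (s0 (s0 (l 1) (s1 (l 1) (l 1))) (s1 (l 1) (s2 (s0 (l 4) (s0 (l 4) (l 4))) (s2 (l 4)
    (l 2)))))) (s1 (s0 (s2 (s1 (s0 (l 4) (l 4)) (l 0)) (s1 (s2 (l 4) (l 4)) (s2 (s0 (l 4) (l 4)) (l 2)))) (s2
    (s1 (s2 (l 0) (s1 (l 4) (l 0))) (l 0)) (s2 (s1 (l 4) (s0 (l 4) (l 4))) (l 2)))) (s2 (l 0) (s2 (s1 (s2 (l 0)
    (l 2)) (l 0)) (l 2)))))) (s0 (s1 (s1 (l 1) (s0 (l 1) (l 1))) (s1 (s2 (s0 (s1 (l 1) (s1 (s2 (l 4) (l 4)) (s2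
    (l 0) (s0 (l 4) (l 4))))) (s1 (s0 (l 1) (s1 (l 1) (s2 (s0 (l 4) (s0 (l 4) (l 8))) (l 4)))) (s1 (s0 (s2 (s0
    (l 4) (l 4)) (l 4)) (s2 (s2 (l 0) (s1 (s0 (l 4) (l 8)) (l 0))) (s2 (s1 (l 4) (s2 (s1 (l 4) (l 0)) (l 4)))
    (l 4)))) (s2 (l 0) (s0 (s2 (s1 (l 4) (l 0)) (l 4)) (s2 (s1 (s1 (s2 (l 0) (l 4)) (l 0)) (l 0)) (s2 (s0 (l 4)
    (l 4)) (l 4)))))))) (s2 (s0 (s0 (l 4) (l 4)) (s1 (l 4) (s0 (l 4) (l 2)))) (l 2))) (s2 (s1 (s1 (s2 (l 0) (s1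
    (s2 (l 0) (s0 (l 4) (s2 (l 0) (l 4)))) (l 0))) (l 0)) (l 0)) (s2 (s1 (s2 (s0 (s0 (l 4) (l 4)) (l 2)) (l 2))
    (l 2)) (l 2))))) (s1 (s0 (s1 (l 1) (s2 (s1 (l 1) (s0 (l 1) (s2 (s0 (l 8) (l 8)) (s1 (s0 (l 1) (l 1)) (s2
    (s0 (l 8) (l 8)) (s0 (l 4) (l 2))))))) (l 2))) (s2 (s0 (s1 (s1 (l 1) (s0 (l 1) (s1 (l 1) (l 8)))) (s1 (s2
    (s0 (l 8) (l 8)) (s2 (s0 (l 8) (l 8)) (l 2))) (s2 (s0 (l 8) (l 8)) (s2 (s1 (s0 (l 8) (l 8)) (s0 (l 8) (l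
    8))) (l 2))))) (s2 (s1 (s0 (s1 (l 8) (l 8)) (s1 (s0 (l 8) (s1 (l 5) (l 8))) (s0 (l 8) (l 8)))) (s0 (s1 (l
    8) (l 8)) (s1 (s0 (l 8) (l 8)) (l 8)))) (l 2))) (l 2))) (s2 (s1 (s0 (s1 (s0 (s2 (s1 (s0 (l 1) (l 8)) (s0 (l
    8) (l 8))) (s1 (s2 (s0 (l 1) (s0 (l 4) (l 8))) (l 4)) (s2 (s1 (s0 (l 4) (l 8)) (s0 (s0 (l 4) (l 4)) (s0 (l
    8) (l 8)))) (l 4)))) (s2 (s1 (l 8) (s0 (l 8) (l 8))) (s1 (s2 (s0 (l 8) (l 8)) (s0 (l 4) (l 2))) (s2 (s1 (s0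
    (l 8) (l 8)) (s0 (l 8) (l 8))) (s2 (s0 (s0 (l 4) (l 2)) (l 2)) (l 2)))))) (s1 (s2 (s1 (s0 (l 8) (l 8)) (l
    0)) (s0 (s2 (s1 (s0 (s2 (l 8) (l 4)) (s1 (l 8) (s0 (l 8) (l 8)))) (s0 (s2 (l 8) (s2 (s0 (l 4) (s0 (l 4) (l
    8))) (l 4))) (s2 (l 8) (s1 (s3 (s1 (l 8) (s0 (l 8) (l 8))) (l 8)) (s2 (l 8) (s3 (s2 (s0 (l 8) (l 8)) (s0 (l
    4) (s1 (s0 (l 4) (s3 (s1 (l 8) (s1 (l 8) (s0 (s0 (l 4) (l 8)) (l 8)))) (l 8))) (s3 (s2 (s0 (l 8) (l 8)) (s0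
    (l 4) (s3 (s1 (s0 (l 4) (s2 (l 8) (l 2))) (s2 (s3 (s1 (s1 (l 8) (s3 (s2 (l 8) (s0 (l 4) (s2 (l 8) (l 2))))
    (l 8))) (s1 (s1 (s1 (s1 (s3 (s2 (l 0) (s0 (l 4) (s2 (l 0) (l 2)))) (l 8)) (l 0)) (l 0)) (l 0)) (l 0))) (s1
    (l 8) (s1 (l 8) (l 0)))) (s0 (l 4) (l 2)))) (s1 (l 8) (s0 (l 4) (s2 (l 8) (l 2))))))) (s0 (l 4) (l 8))))))
    (s0 (l 4) (l 8)))))))) (s2 (s1 (l 4) (s2 (s0 (l 4) (s2 (s0 (l 4) (s2 (s1 (l 4) (s0 (l 4) (l 2))) (l 4))) (l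
    4))) (l 4))) (l 2))) (s2 (s1 (s0 (s1 (l 8) (s0 (l 8) (l 8))) (s1 (l 8) (s0 (l 8) (l 8)))) (s2 (s0 (l 8) (l
    8)) (s0 (s2 (s0 (l 8) (l 8)) (s1 (s3 (s0 (s0 (l 8) (l 8)) (s0 (l 8) (l 8))) (l 8)) (s3 (s2 (s0 (l 8) (l 8))
    (s2 (s0 (s1 (l 8) (s0 (s0 (l 8) (l 8)) (l 2))) (l 2)) (l 2))) (s0 (l 8) (l 8))))) (s2 (l 8) (l 2))))) (l
    2)))) (s2 (l 0) (s2 (s1 (s1 (s2 (l 0) (s1 (s0 (s1 (s2 (l 0) (s0 (l 4) (s3 (s1 (s1 (s2 (l 0) (s0 (l 4) (s3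
    (s1 (s2 (l 0) (s0 (l 4) (s2 (l 0) (s0 (l 4) (l 2))))) (l 0)) (l 8)))) (l 0)) (l 0)) (l 8)))) (l 0)) (s1 (s1
    (s2 (l 0) (s0 (s3 (s1 (s2 (l 0) (s2 (l 0) (l 2))) (l 0)) (l 8)) (l 2))) (l 0)) (l 0))) (l 0))) (l 0)) (l
    0)) (s2 (s0 (s1 (s0 (l 4) (s2 (s1 (s0 (l 4) (s2 (s2 (s1 (s0 (l 4) (l 2)) (l 0)) (l 2)) (l 2))) (s1 (s1 (s0
    (l 4) (s2 (l 0) (l 2))) (l 0)) (l 0))) (l 2))) (s1 (s1 (s0 (l 4) (s2 (l 0) (l 2))) (l 0)) (l 0))) (l 2)) (l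
    2)))))) (s1 (s0 (s2 (s0 (l 8) (l 8)) (s2 (s2 (s1 (l 8) (s0 (l 8) (l 8))) (l 2)) (l 2))) (s2 (s0 (l 8) (l
    8)) (l 2))) (s2 (s1 (s0 (l 8) (l 8)) (l 0)) (s2 (s2 (s1 (s0 (s0 (l 8) (l 8)) (l 2)) (l 0)) (l 2)) (l 2)))))
    (s1 (s1 (s2 (l 0) (s1 (s2 (l 0) (s2 (l 0) (l 2))) (l 0))) (l 0)) (l 0))) (l 2)))))))
def md13r : Tr := (s0 (s0 (s0 (s0 (s3 (l 70) (s0 (s3 (l 70) (l 70)) (s3 (l 72) (s0 (s0 (l 70) (l 72)) (s0 (l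
    72) (l 72)))))) (s3 (l 74) (s0 (s3 (l 74) (s0 (s3 (l 72) (s0 (s0 (l 72) (l 72)) (l 74))) (s3 (l 74) (l
    74)))) (s3 (l 76) (s0 (s0 (s0 (l 74) (l 76)) (l 76)) (l 76)))))) (s0 (s3 (l 78) (s0 (s3 (l 76) (l 78)) (l
    78))) (s3 (l 80) (l 82)))) (s0 (s0 (l 84) (l 86)) (l 90))) (s0 (s0 (l 96) (l 102)) (s0 (l 106) (s0 (l 106)
    (s0 (l 106) (s3 (s0 (l 106) (s3 (l 92) (l 0))) (l 0)))))))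
def md13c : Tr := (s3 (s3 (l 0) (l 0)) (l 0))
theorem md13_ok : mdChk md13 md13s md13r md13c = true := by decide +kernel

-- u[0.8920,0.9020] C -5.8 s 1.3 K0 1.891 em 0.230 m0 0.00929 l1 1.0386 l2 1.30 V 2.199 y0 0.725 r 0.98 ka 0.5345 | leaves 376 18 2
def md3 : MD := ⟨79228162514262705038679028531, 79228162514264703511013674189, 79228162514264869862724910187, 79228162514264402332788593787,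
  79228162514264340208446483978, 79228162514264629933454762023, 79228162514264703511013674189, 79228162514264956557017737069,
  79228162514264541662902065562, 79228162514264613439021126779, 79228162514264488041919002182, 79228162514264646090118425215,
  79228162514264029096688000480, 79228162514264272854017831908, 79228162514264420347187103269,
  79228162514264588669223176241, 79228162514264591483972943348⟩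
def md3s : Tr := (s0 (s1 (l 9) (s0 (s2 (s1 (l 1) (s0 (s2 (l 0) (s1 (l 9) (l 0))) (s2 (l 0) (s1 (l 9) (l 0)))))
    (s1 (l 1) (s0 (s2 (s1 (l 9) (s0 (s2 (l 0) (l 6)) (s2 (l 0) (l 6)))) (l 6)) (s2 (s1 (l 9) (s1 (l 9) (l 0)))
    (l 6))))) (s2 (s1 (l 9) (s0 (s1 (l 9) (l 0)) (s1 (s1 (l 9) (l 0)) (l 0)))) (s1 (l 9) (s0 (s1 (l 9) (s2 (s2
    (l 0) (l 6)) (l 6))) (s2 (s1 (l 9) (s2 (l 0) (l 6))) (l 6))))))) (s0 (s0 (s1 (l 1) (s1 (s1 (l 1) (l 1)) (s1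
    (s1 (s1 (l 1) (s0 (l 3) (s2 (l 0) (l 3)))) (s2 (l 0) (s2 (s2 (s2 (l 0) (l 6)) (l 6)) (l 6)))) (s2 (l 0) (s2
    (s2 (l 0) (l 6)) (l 6)))))) (s1 (s0 (l 1) (l 1)) (s1 (s1 (l 1) (s1 (l 1) (l 1))) (s1 (s0 (s1 (s1 (l 1) (s2
    (l 0) (s0 (l 4) (l 4)))) (s2 (l 0) (s2 (s0 (l 4) (l 4)) (l 6)))) (s1 (s2 (s0 (l 4) (l 4)) (s2 (l 4) (l 6)))
    (s2 (l 0) (s2 (l 4) (l 6))))) (s2 (l 0) (s2 (s2 (l 0) (l 6)) (l 6))))))) (s0 (s1 (s1 (l 1) (s0 (l 1) (l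
    1))) (s1 (s1 (l 1) (s0 (s1 (l 1) (s0 (l 1) (s1 (l 1) (s0 (l 1) (l 1))))) (s1 (l 1) (s2 (s2 (l 0) (l 4)) (s2
    (l 4) (l 6)))))) (s1 (s2 (s1 (s2 (l 0) (s0 (l 4) (s1 (l 4) (l 0)))) (l 0)) (s2 (s2 (s2 (s1 (s0 (l 4) (l 4))
    (l 0)) (l 6)) (l 6)) (l 6))) (s2 (l 0) (s2 (s2 (l 0) (l 6)) (l 6)))))) (s0 (s1 (s1 (l 1) (s0 (l 1) (l 1)))
    (s1 (s2 (s1 (s0 (l 1) (s0 (l 1) (s2 (s1 (l 1) (s2 (l 4) (l 4))) (l 4)))) (s0 (s1 (s2 (l 4) (l 4)) (s2 (l 0)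
    (l 4))) (s1 (s2 (s0 (l 4) (s2 (l 0) (s1 (s0 (l 4) (l 4)) (l 0)))) (s2 (s0 (l 4) (l 4)) (l 4))) (s2 (l 0)
    (s2 (s0 (l 4) (s1 (s1 (l 4) (l 0)) (l 0))) (l 4)))))) (s2 (s1 (s0 (l 1) (l 2)) (l 2)) (l 6))) (s2 (s1 (s1
    (s2 (l 0) (s1 (s2 (l 0) (s0 (l 4) (l 4))) (l 0))) (l 0)) (l 0)) (l 2)))) (s2 (s1 (s0 (s1 (l 1) (s1 (l 1)
    (s0 (l 1) (s1 (l 1) (s0 (l 1) (s2 (l 8) (s2 (s2 (l 8) (l 2)) (l 2)))))))) (s1 (s0 (s1 (l 1) (s0 (l 1) (s1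
    (l 1) (l 1)))) (s2 (s0 (s1 (l 8) (l 8)) (s2 (s1 (s1 (l 5) (s0 (l 8) (s0 (l 8) (l 8)))) (s0 (l 8) (s1 (s0 (l
    8) (l 8)) (s0 (l 8) (l 8))))) (l 2))) (l 2))) (s0 (s1 (s0 (l 1) (s2 (l 8) (l 2))) (s2 (s1 (s0 (l 8) (l 8))
    (s0 (l 8) (l 8))) (l 2))) (s2 (s1 (s0 (s0 (l 8) (l 8)) (s2 (s0 (l 8) (s1 (s0 (l 8) (l 8)) (l 8))) (l 2)))
    (s0 (s1 (s0 (l 8) (l 8)) (s0 (l 8) (s1 (l 8) (l 8)))) (s2 (s0 (l 8) (s1 (l 8) (l 8))) (l 2)))) (l 2)))))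
    (s1 (s0 (s1 (s1 (s2 (s0 (s0 (l 1) (l 8)) (s0 (l 8) (s0 (l 8) (l 8)))) (s2 (s0 (l 4) (s2 (s0 (s0 (l 4) (l
    8)) (s1 (l 8) (s0 (l 8) (l 8)))) (l 2))) (l 2))) (s2 (s0 (s1 (s0 (l 8) (l 8)) (s2 (l 0) (s0 (s0 (l 4) (l
    8)) (l 8)))) (s0 (s1 (l 8) (l 8)) (s1 (l 8) (s0 (l 8) (l 8))))) (s2 (s0 (s1 (l 4) (s2 (s0 (l 4) (s0 (l 4)
    (l 4))) (l 4))) (s2 (s0 (s1 (s0 (l 8) (l 8)) (s1 (s0 (l 8) (l 8)) (s0 (s0 (l 8) (l 8)) (s3 (s1 (s0 (l 8) (l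
    8)) (s2 (l 8) (l 2))) (l 8))))) (s2 (s1 (s0 (l 8) (l 8)) (s1 (s0 (l 8) (l 8)) (s0 (l 8) (s0 (l 8) (l 2)))))
    (l 2))) (l 2))) (l 2)))) (s2 (s1 (s2 (l 0) (s1 (s1 (s0 (s0 (l 8) (s0 (l 8) (l 8))) (s0 (l 8) (s0 (l 8) (l
    8)))) (l 0)) (l 0))) (l 0)) (s2 (s1 (s0 (s1 (s2 (s0 (l 4) (s1 (s2 (l 8) (l 4)) (s2 (s1 (l 8) (l 0)) (s2 (s0
    (l 4) (s2 (s1 (l 4) (l 0)) (l 4))) (l 4))))) (l 4)) (s2 (s1 (s0 (l 4) (s1 (s1 (s2 (l 0) (s2 (l 0) (l 4)))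
    (l 0)) (l 0))) (l 0)) (s2 (s0 (l 4) (s0 (l 4) (l 2))) (l 2)))) (s2 (s1 (s0 (s1 (s2 (s0 (l 8) (s0 (l 8) (l
    8))) (s0 (s2 (s1 (l 8) (s0 (l 4) (l 8))) (l 2)) (l 2))) (s2 (s1 (s0 (l 8) (s1 (l 8) (l 0))) (l 0)) (s2 (s0
    (s3 (s1 (s0 (s1 (l 8) (l 8)) (s2 (l 8) (l 2))) (s1 (s1 (s1 (s0 (s0 (l 8) (l 8)) (s2 (l 0) (l 2))) (l 0)) (l
    0)) (l 0))) (s1 (l 8) (s0 (l 8) (l 8)))) (l 2)) (l 2)))) (s2 (s2 (s1 (s0 (l 8) (l 2)) (l 0)) (l 2)) (l 2)))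
    (s1 (s1 (s1 (s2 (l 0) (s2 (l 0) (l 2))) (l 0)) (l 0)) (l 0))) (l 2))) (s1 (s1 (s2 (l 0) (s2 (l 0) (l 2)))
    (l 0)) (l 0))) (l 2)))) (s2 (s1 (s0 (s1 (s0 (s0 (l 8) (l 8)) (s1 (l 8) (s0 (l 8) (l 8)))) (s0 (s1 (s0 (l 8)
    (l 8)) (s0 (s1 (l 8) (l 8)) (s1 (l 8) (s1 (l 8) (l 8))))) (s1 (s0 (l 8) (s1 (l 8) (l 8))) (s2 (l 0) (s2 (l
    8) (s2 (s0 (l 8) (l 2)) (l 2))))))) (s0 (s1 (s0 (s1 (l 8) (l 8)) (s2 (l 8) (l 2))) (s2 (l 8) (s2 (s0 (l 8)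
    (l 2)) (l 2)))) (s2 (s0 (l 8) (l 8)) (l 2)))) (s1 (s1 (s1 (s0 (s1 (s0 (s0 (l 8) (s2 (l 0) (s0 (l 8) (l
    8)))) (s2 (l 0) (s1 (s2 (l 0) (s2 (l 0) (l 2))) (l 0)))) (l 0)) (s1 (s2 (l 0) (s2 (l 0) (l 2))) (l 0))) (l
    0)) (l 0)) (l 0))) (l 2))) (s1 (s1 (s2 (l 0) (s2 (l 0) (l 2))) (l 0)) (l 0)))) (l 2))))))
def md3r : Tr := (s0 (s0 (s0 (s0 (l 58) (l 62)) (s0 (s0 (l 64) (l 66)) (l 68))) (s0 (s0 (s0 (l 70) (l 72)) (l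
    74)) (s0 (l 76) (l 78)))) (s0 (s0 (s0 (l 80) (l 82)) (s0 (l 84) (l 86))) (s0 (s0 (l 86) (l 88)) (s0 (l 90)
    (l 92)))))
def md3c : Tr := (s3 (l 0) (l 0))
theorem md3_ok : mdChk md3 md3s md3r md3c = true := by decide +kernel

-- kind 2 [0.9400,0.9440] K0 1.939 em 0.279 l2 1.42+0.00 io V 2.560 r 1.009 l2min 1.381 | leaves 340 9 1
def sm1 : TD := ⟨false, 79228162514264883373523792298, 79228162514264416125062452609, 79228162514264737288010879468,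
  79228162514264337593543950336, 79228162514265058169484329615, 79228162514264621601795451388, 79228162514264689437264838656,
  79228162514263985749541587039, 79228162514264259061743973086, 79228162514264386288714921279,
  79228162514264602180022058353, 79228162514264603305921965195⟩
def sm1s : Tr := (s0 (s0 (s1 (l 1) (s0 (s2 (s1 (l 9) (s0 (s2 (l 0) (s1 (l 9) (l 0))) (s2 (l 0) (s1 (l 9) (l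
    0))))) (l 6)) (s2 (s1 (l 9) (s0 (s2 (l 0) (s1 (l 9) (l 0))) (s1 (l 9) (l 0)))) (l 6)))) (s1 (l 9) (s0 (s2
    (s1 (l 9) (s1 (s1 (l 9) (l 0)) (l 0))) (l 6)) (s1 (l 9) (s2 (s1 (s1 (s1 (l 1) (l 0)) (l 0)) (l 0)) (l
    6)))))) (s0 (s0 (s1 (l 1) (s2 (s1 (s1 (l 1) (s0 (l 1) (l 1))) (s1 (s1 (s1 (l 1) (l 0)) (l 0)) (l 0))) (l
    6))) (s2 (s1 (s0 (l 1) (l 1)) (s1 (s1 (l 1) (s1 (l 1) (s0 (l 1) (l 1)))) (s1 (s1 (s1 (s0 (l 4) (s0 (l 4) (l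
    4))) (l 0)) (l 0)) (l 0)))) (l 6))) (s2 (s0 (s1 (s1 (l 1) (s0 (l 1) (l 1))) (s1 (s1 (l 1) (s0 (s1 (l 1) (s0
    (l 1) (s2 (l 0) (l 4)))) (s1 (l 1) (s2 (l 0) (s2 (s2 (l 0) (l 6)) (l 6)))))) (s1 (s1 (s2 (l 0) (s2 (l 0) (l
    6))) (l 0)) (l 0)))) (s0 (s1 (s1 (l 1) (s0 (l 1) (l 1))) (s1 (s1 (s0 (l 1) (s1 (l 1) (l 1))) (s2 (s1 (s1
    (s1 (l 1) (l 0)) (l 0)) (l 0)) (s2 (s2 (s1 (s2 (s1 (s0 (l 1) (s0 (l 1) (s1 (l 1) (s0 (l 1) (s1 (l 1) (l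
    0)))))) (l 0)) (l 6)) (l 0)) (l 6)) (l 6)))) (s1 (s2 (l 0) (s2 (l 0) (l 6))) (l 0)))) (s1 (s1 (s0 (l 1) (s1
    (s2 (l 7) (l 2)) (s2 (l 7) (l 2)))) (s0 (s1 (l 1) (s0 (l 1) (l 1))) (s2 (s1 (s0 (s0 (l 1) (l 7)) (l 7)) (s1
    (s0 (l 7) (l 7)) (s0 (s1 (l 7) (s0 (l 7) (l 7))) (s2 (s0 (l 7) (l 7)) (l 2))))) (l 2)))) (s1 (s2 (s1 (s0
    (s1 (s0 (l 1) (s1 (l 1) (s2 (l 7) (s0 (l 1) (l 7))))) (s0 (s0 (l 1) (s1 (l 1) (s2 (l 0) (s1 (l 1) (s2 (l 0)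
    (s1 (s0 (l 1) (l 7)) (s2 (l 0) (s0 (l 7) (s1 (l 7) (s2 (l 0) (s0 (l 7) (l 7)))))))))))) (s1 (s2 (s0 (l 7)
    (l 7)) (s0 (s2 (l 7) (s0 (l 1) (l 7))) (s1 (s0 (l 7) (l 7)) (s2 (l 7) (s2 (l 7) (l 2)))))) (s2 (l 0) (s1
    (s0 (s2 (l 7) (s0 (s0 (l 7) (l 7)) (s2 (l 7) (s0 (l 7) (l 7))))) (s2 (s1 (l 7) (l 0)) (s2 (s0 (s1 (l 7) (s0
    (l 7) (s0 (l 7) (l 7)))) (s2 (s1 (l 7) (s1 (l 7) (l 0))) (l 2))) (l 2)))) (s2 (l 0) (s0 (s1 (s2 (s1 (l 7)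
    (l 0)) (s0 (s1 (l 7) (s0 (l 7) (l 7))) (s2 (s2 (s0 (l 7) (s0 (l 7) (l 2))) (l 2)) (l 2)))) (s2 (l 0) (s0
    (s3 (s1 (s0 (l 7) (s2 (l 7) (l 2))) (s2 (l 0) (s0 (s0 (s2 (l 7) (l 2)) (l 2)) (l 2)))) (s1 (l 7) (s2 (l 0)
    (s0 (l 7) (l 2))))) (s2 (s2 (l 0) (l 2)) (l 2))))) (s2 (s1 (s1 (s1 (s1 (s0 (s0 (l 7) (l 7)) (s2 (l 0) (l
    2))) (l 0)) (l 0)) (l 0)) (l 0)) (l 2))))))))) (s1 (s0 (s1 (s2 (l 7) (s0 (l 7) (l 7))) (s2 (s0 (l 7) (l 7))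
    (s0 (s2 (l 7) (s0 (l 7) (l 2))) (s2 (s0 (l 7) (l 7)) (l 2))))) (s2 (s1 (s0 (l 7) (l 7)) (s0 (s1 (l 7) (s0
    (l 7) (l 7))) (s1 (s0 (l 7) (s0 (l 7) (l 7))) (s2 (l 0) (s0 (s0 (l 7) (l 2)) (l 2)))))) (l 2))) (s0 (s2 (s1
    (s1 (s1 (s0 (l 7) (l 7)) (l 0)) (l 0)) (l 0)) (s1 (s0 (s1 (s2 (l 7) (s0 (l 7) (l 2))) (s2 (s0 (l 7) (s1 (l
    7) (s2 (l 0) (s2 (l 7) (l 2))))) (s0 (s1 (l 7) (l 2)) (l 2)))) (s2 (s2 (s1 (s0 (l 7) (l 7)) (s1 (s1 (s0 (l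
    7) (l 7)) (l 0)) (l 0))) (l 2)) (l 2))) (s2 (s1 (s1 (s1 (s1 (s2 (l 0) (s0 (s0 (l 7) (s2 (l 0) (l 2))) (l
    2))) (l 0)) (l 0)) (l 0)) (l 0)) (l 2)))) (s2 (s1 (s1 (s1 (s1 (s0 (s2 (l 0) (l 7)) (s2 (l 0) (s2 (l 0) (l
    2)))) (l 0)) (l 0)) (l 0)) (l 0)) (l 2))))) (s1 (s1 (s1 (s1 (s2 (l 0) (s2 (l 0) (s0 (s1 (s2 (l 0) (s0 (s0
    (l 1) (s1 (s0 (l 7) (s2 (l 0) (s1 (s1 (s0 (l 7) (l 7)) (l 0)) (l 0)))) (l 0))) (s0 (s1 (s2 (l 0) (s2 (l 0)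
    (l 2))) (l 0)) (l 2)))) (l 0)) (l 2)))) (l 0)) (l 0)) (l 0)) (l 0))) (s2 (s0 (s2 (s0 (s1 (s1 (l 1) (s1 (l
    1) (s0 (l 1) (s1 (l 1) (s2 (s0 (s2 (s1 (l 1) (l 7)) (l 2)) (l 2)) (l 6)))))) (s1 (s2 (s1 (s1 (s0 (s1 (s0 (l
    1) (s1 (l 1) (s2 (l 7) (s0 (l 1) (l 2))))) (s0 (l 1) (s2 (s1 (s1 (l 7) (l 0)) (l 0)) (s0 (s2 (s0 (s2 (l 7)
    (l 2)) (l 2)) (l 2)) (l 2))))) (s0 (s2 (s1 (s3 (s1 (s0 (l 7) (s2 (l 7) (l 2))) (s2 (s1 (l 7) (l 0)) (l 2)))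
    (l 7)) (s2 (l 0) (l 2))) (l 2)) (l 2))) (s1 (s1 (s1 (s2 (l 0) (s0 (s1 (s2 (l 0) (s2 (l 0) (l 2))) (l 0)) (l
    2))) (l 0)) (l 0)) (l 0))) (l 0)) (l 6)) (l 0))) (l 2)) (l 6)) (l 2)) (l 6))) (s1 (s2 (l 0) (s2 (l 0) (l
    6))) (l 0)))))) (l 6))))
def sm1r : Tr := (s0 (s0 (l 15) (s0 (l 8) (l 3))) (s0 (s0 (s0 (l 2) (s0 (s3 (l 1) (l 1)) (l 0))) (l 0)) (l 0)))
def sm1c : Tr := (l 0)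
theorem sm1_ok : smChk sm1 sm1s sm1r sm1c = true := by decide +kernel

end Pool.Agent.MP_b5eafd_co

end

-- part MP_b5eafd_co.Data4
section

/-! Certificate data, checked by the kernel. -/

set_option autoImplicit false
set_option maxRecDepth 100000

namespace Pool.Agent.MP_b5eafd_co
open Tr

-- u[0.7640,0.7850] C -7.4 s 1.8 K0 1.763 em 0.135 m0 0.02525 l1 2.2695 l2 0.30 V 2.062 y0 0.505 r 0.42 ka 0.3414 | leaves 452 23 2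
def md12 : MD := ⟨79228162514262254678716291481, 79228162514264844248502029517, 79228162514264833833927891223, 79228162514264375592665806275,
  79228162514264344700787112280, 79228162514264976401003595170, 79228162514264422036036963532, 79228162514264917994945927709,
  79228162514264479738407189217, 79228162514264455813034168812, 79228162514264433689100999354, 79228162514264627794244939022,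
  79228162514264047392561486673, 79228162514264299594140619421, 79228162514264495219530908303,
  79228162514264552640426157277, 79228162514264558551400668201⟩
def md12s : Tr := (s0 (s1 (l 9) (s0 (s2 (s1 (l 1) (s0 (s2 (l 0) (s1 (l 9) (l 0))) (s2 (l 0) (s1 (l 9) (l 0)))))
    (s1 (l 1) (s0 (s2 (s1 (l 9) (s0 (s2 (l 0) (s1 (l 9) (l 0))) (s2 (l 0) (s1 (l 9) (l 0))))) (s1 (l 9) (s0 (s2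
    (s1 (l 9) (s0 (s2 (l 0) (l 6)) (s2 (l 0) (l 6)))) (l 6)) (s2 (s1 (l 9) (s0 (s2 (l 0) (l 6)) (s1 (l 9) (l
    0)))) (l 6))))) (s2 (s1 (l 9) (s0 (s2 (l 0) (s1 (l 9) (l 0))) (s1 (l 9) (l 0)))) (s1 (l 9) (s0 (s2 (s1 (l
    9) (s1 (l 9) (l 0))) (l 6)) (s1 (l 9) (s1 (l 9) (s2 (l 0) (l 6)))))))))) (s2 (s1 (l 9) (s1 (l 9) (l 0)))
    (s1 (l 9) (s1 (l 9) (s0 (s1 (l 9) (s2 (l 0) (s2 (s2 (l 0) (l 6)) (l 6)))) (s1 (s1 (l 9) (s2 (l 0) (l 9)))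
    (s2 (l 0) (s0 (l 2) (l 2)))))))))) (s0 (s0 (s1 (l 1) (s1 (s0 (l 1) (l 9)) (s1 (s0 (s1 (l 1) (s2 (l 0) (l
    9))) (s1 (s2 (l 3) (l 9)) (s2 (l 0) (s1 (l 9) (s2 (s0 (l 9) (l 4)) (l 9)))))) (s2 (l 0) (s1 (s0 (s1 (s2 (s0
    (l 9) (l 4)) (l 9)) (s2 (l 0) (l 2))) (s1 (s2 (l 4) (l 9)) (s2 (l 0) (l 2)))) (s2 (l 0) (l 2))))))) (s1 (s0
    (l 1) (l 1)) (s1 (s1 (l 1) (s0 (l 1) (l 1))) (s1 (s0 (s1 (s1 (l 1) (s2 (l 0) (s0 (l 9) (l 3)))) (s2 (l 0)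
    (s2 (s0 (l 4) (l 4)) (l 9)))) (s1 (s2 (s0 (l 4) (l 4)) (s2 (s0 (l 4) (l 4)) (l 9))) (s2 (l 0) (s2 (s0 (l 4)
    (l 4)) (l 2))))) (s2 (l 0) (s1 (s2 (s2 (l 0) (s1 (s0 (l 4) (l 4)) (l 0))) (s0 (l 2) (l 2))) (s2 (l 0) (l
    2)))))))) (s0 (s1 (s1 (l 1) (l 1)) (s1 (s1 (l 1) (s0 (s0 (l 1) (s1 (l 1) (s0 (l 1) (l 1)))) (s1 (l 1) (s2
    (s0 (l 4) (s0 (l 4) (l 4))) (s2 (l 4) (l 2)))))) (s1 (s0 (s2 (s1 (s0 (l 4) (l 4)) (l 0)) (s2 (s1 (l 4) (s0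
    (l 4) (l 4))) (l 2))) (s2 (s1 (s2 (l 0) (s1 (l 4) (l 0))) (l 0)) (s2 (s1 (l 4) (s0 (l 4) (l 4))) (l 2))))
    (s2 (l 0) (s2 (s2 (l 0) (l 2)) (l 2)))))) (s0 (s1 (s1 (l 1) (s1 (l 1) (l 1))) (s1 (s2 (s1 (s0 (l 1) (s1 (l
    1) (s0 (l 1) (s2 (s0 (l 4) (l 8)) (l 4))))) (s0 (s1 (s2 (l 4) (l 4)) (s2 (l 0) (s0 (l 4) (l 4)))) (s1 (s0
    (s2 (s1 (l 4) (l 0)) (l 4)) (s2 (s2 (l 0) (s1 (s0 (l 4) (l 8)) (l 0))) (s2 (s1 (l 4) (s2 (s1 (l 4) (l 0))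
    (l 4))) (l 4)))) (s2 (l 0) (s2 (s1 (s0 (l 4) (s1 (s2 (l 0) (l 4)) (l 0))) (l 0)) (s0 (l 4) (s0 (l 4) (l
    4)))))))) (s2 (s0 (s0 (l 4) (l 4)) (s1 (l 4) (s0 (l 4) (l 2)))) (l 2))) (s2 (s1 (s1 (s2 (l 0) (s1 (s2 (l 0)
    (s0 (l 4) (s2 (l 0) (l 4)))) (l 0))) (l 0)) (l 0)) (s2 (s1 (s2 (s0 (s0 (l 4) (l 4)) (l 2)) (l 2)) (l 2)) (l
    2))))) (s1 (s0 (s1 (l 1) (s2 (s0 (s1 (l 1) (l 1)) (s1 (l 1) (s2 (s0 (l 8) (l 8)) (s1 (s0 (l 1) (l 1)) (s2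
    (s0 (l 8) (l 8)) (s0 (l 4) (l 2))))))) (l 2))) (s2 (s0 (s1 (s1 (l 1) (s0 (l 1) (s1 (l 1) (l 8)))) (s1 (s2
    (s0 (l 8) (l 8)) (s2 (s0 (l 8) (l 8)) (l 2))) (s2 (s0 (l 8) (l 8)) (s2 (s1 (s0 (l 8) (l 8)) (s0 (l 8) (l
    2))) (l 2))))) (s2 (s1 (s0 (s1 (l 8) (l 8)) (s2 (s1 (s0 (l 8) (s1 (l 5) (l 8))) (s0 (l 8) (s1 (l 8) (l
    8)))) (l 2))) (s0 (s1 (l 8) (s0 (l 8) (l 8))) (s1 (s0 (l 8) (s2 (l 8) (l 2))) (s0 (l 8) (s1 (l 8) (l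
    8)))))) (l 2))) (l 2))) (s2 (s1 (s0 (s1 (s0 (s1 (s0 (l 1) (s2 (l 8) (s2 (s0 (l 4) (l 8)) (l 4)))) (s2 (s0
    (l 8) (l 8)) (s2 (s1 (s0 (l 4) (l 8)) (s0 (s0 (l 4) (l 4)) (s0 (l 8) (l 8)))) (l 4)))) (s2 (s1 (l 8) (s0 (l
    8) (l 8))) (s2 (s1 (s0 (s0 (l 8) (l 8)) (s0 (l 8) (l 8))) (s1 (s0 (l 8) (l 8)) (s0 (s0 (l 8) (l 8)) (s1 (l
    8) (s0 (l 8) (s0 (l 8) (l 8))))))) (l 2)))) (s1 (s2 (s1 (s0 (l 8) (l 8)) (l 0)) (s0 (s2 (s1 (s0 (s2 (l 8)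
    (l 4)) (s1 (s0 (l 8) (l 8)) (s3 (s0 (s0 (l 8) (l 8)) (s1 (l 8) (s0 (l 8) (l 8)))) (l 8)))) (s0 (s2 (s1 (l
    8) (l 0)) (s2 (s1 (l 4) (s1 (l 8) (l 0))) (l 4))) (s2 (l 8) (s1 (s2 (l 8) (s0 (l 4) (s3 (s2 (l 8) (l 4))
    (s0 (l 4) (l 8))))) (s2 (s1 (l 8) (l 0)) (s3 (s2 (s1 (s0 (l 4) (s0 (l 8) (s0 (l 8) (l 8)))) (s1 (s1 (s0 (l
    4) (s1 (s0 (l 8) (s0 (l 8) (l 8))) (l 0))) (l 0)) (l 0))) (s0 (l 4) (s1 (s2 (s0 (l 4) (s0 (l 4) (l 2))) (l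
    4)) (s2 (s3 (s1 (s0 (l 4) (s2 (s1 (s2 (s0 (s0 (l 4) (l 2)) (l 2)) (l 2)) (l 2)) (l 2))) (s1 (s0 (l 4) (l
    2)) (l 0))) (s0 (l 4) (l 2))) (l 2))))) (s0 (l 4) (s2 (l 8) (s0 (l 4) (l 2)))))))))) (s2 (s1 (l 4) (s2 (s0
    (l 4) (s0 (l 4) (l 2))) (l 4))) (l 2))) (s2 (s1 (s2 (s0 (l 8) (l 8)) (s0 (s1 (s0 (l 8) (l 8)) (s2 (l 8) (s2
    (s0 (l 8) (l 2)) (l 2)))) (s2 (s0 (l 8) (l 2)) (l 2)))) (s2 (s1 (l 8) (l 0)) (s0 (s1 (s2 (l 8) (s2 (s0 (s1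
    (l 8) (s0 (l 8) (l 8))) (l 2)) (l 2))) (s2 (s1 (s0 (l 8) (l 8)) (l 0)) (s2 (s0 (s3 (s1 (s3 (s1 (s0 (l 8) (l
    8)) (s2 (l 8) (s2 (l 8) (l 2)))) (l 8)) (s1 (s1 (s1 (s3 (s1 (s3 (s2 (l 0) (s2 (l 0) (l 2))) (l 8)) (l 0))
    (l 8)) (l 0)) (l 0)) (l 0))) (s0 (l 8) (l 2))) (l 2)) (l 2)))) (s2 (s2 (s1 (l 8) (l 0)) (l 2)) (l 2))))) (l
    2)))) (s2 (l 0) (s2 (s1 (s1 (s2 (l 0) (s1 (s2 (l 0) (s1 (s1 (s2 (l 0) (s0 (s0 (l 4) (s0 (l 4) (s2 (l 0) (l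
    2)))) (l 2))) (l 0)) (l 0))) (l 0))) (l 0)) (l 0)) (s2 (s0 (s2 (s1 (s0 (l 4) (s2 (s1 (s0 (l 4) (l 2)) (l
    0)) (l 2))) (l 0)) (l 2)) (l 2)) (l 2)))))) (s1 (s0 (s2 (s1 (l 8) (s0 (l 8) (l 8))) (s2 (s0 (s2 (s1 (l 8)
    (l 8)) (l 2)) (l 2)) (l 2))) (s2 (s0 (s0 (l 8) (l 8)) (s0 (l 8) (l 8))) (l 2))) (s2 (s1 (s0 (s0 (l 8) (l
    8)) (s0 (l 8) (l 8))) (l 0)) (s2 (s2 (s1 (s0 (s0 (s1 (l 8) (s0 (l 8) (l 8))) (l 2)) (l 2)) (l 0)) (l 2)) (l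
    2))))) (s1 (s1 (s2 (l 0) (s1 (s2 (l 0) (s2 (l 0) (l 2))) (l 0))) (l 0)) (l 0))) (l 2)))))))
def md12r : Tr := (s0 (s0 (s0 (s0 (s3 (l 74) (s0 (s0 (l 72) (l 74)) (s0 (l 74) (l 76)))) (s3 (l 78) (s0 (s0 (l
    76) (l 78)) (l 78)))) (s0 (s0 (s0 (l 80) (l 80)) (l 82)) (l 84))) (s0 (s0 (l 88) (l 90)) (l 92))) (s0 (s0
    (l 98) (l 104)) (s0 (l 108) (s0 (l 108) (s0 (l 108) (s0 (l 108) (l 94)))))))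
def md12c : Tr := (s3 (l 0) (l 0))
theorem md12_ok : mdChk md12 md12s md12r md12c = true := by decide +kernel

-- u[0.5800,0.6600] C -8.2 s 2.0 K0 1.579 em 0.074 m0 0.04136 l1 3.9722 l2 -1.20 V 1.793 y0 0.310 r 0.17 ka 0.2536 | leaves 345 32 4
def md16 : MD := ⟨79228162514262029498734922956, 79228162514264900543497371648, 79228162514264782042532176462, 79228162514264358422692226925,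
  79228162514264349235348987089, 79228162514265455668446440404, 79228162514263999823571897549, 79228162514264842278177192542,
  79228162514264424850786730639, 79228162514264385444289991148, 79228162514264408975598044158, 79228162514264588387748199531,
  79228162514264086799058226165, 79228162514264316764114198771, 79228162514264566432700016099,
  79228162514264500849030442516, 79228162514264523367028579369⟩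
def md16s : Tr := (s0 (s0 (l 9) (s1 (l 1) (s2 (s0 (s1 (l 1) (l 9)) (s1 (l 1) (s1 (l 1) (l 0)))) (s0 (l 9) (s1
    (l 1) (s1 (l 1) (s1 (l 9) (s2 (l 0) (l 9))))))))) (s0 (s1 (l 9) (s0 (s1 (l 1) (s1 (s0 (l 9) (l 9)) (s2 (l
    0) (s1 (l 9) (s2 (l 0) (s0 (l 9) (s1 (l 9) (s0 (l 9) (l 4))))))))) (s1 (s0 (l 1) (l 1)) (s1 (s1 (l 1) (s1
    (l 1) (s2 (l 0) (s0 (l 9) (s0 (l 3) (l 4)))))) (s2 (l 0) (s1 (s0 (s2 (s0 (l 3) (l 4)) (l 9)) (s2 (s0 (l 4)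
    (l 4)) (s0 (l 9) (l 4)))) (s2 (l 0) (s2 (s1 (s0 (l 9) (l 4)) (l 0)) (l 6))))))))) (s0 (s1 (s1 (l 1) (l 1))
    (s1 (s1 (l 1) (s0 (l 1) (s0 (l 1) (l 1)))) (s0 (s1 (s2 (s2 (l 0) (s1 (l 4) (l 0))) (s1 (s0 (l 1) (l 1)) (s2
    (s0 (l 4) (l 4)) (s0 (l 9) (l 4))))) (s2 (l 0) (s1 (s2 (s0 (l 4) (l 4)) (s0 (l 4) (l 4))) (s2 (l 0) (l
    2))))) (s1 (s2 (s1 (s0 (l 4) (l 4)) (l 0)) (s2 (s0 (l 4) (s0 (l 4) (l 4))) (s2 (s0 (l 4) (l 2)) (l 6))))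
    (s2 (l 0) (s2 (s1 (s2 (l 0) (l 4)) (l 0)) (l 2))))))) (s0 (s1 (s0 (l 1) (s1 (l 1) (l 1))) (s1 (s0 (s1 (l 1)
    (s1 (l 1) (s0 (l 1) (s1 (l 1) (s2 (l 4) (s2 (l 4) (l 2))))))) (s2 (s1 (s0 (l 1) (l 1)) (s0 (s1 (l 1) (s2 (l
    0) (l 4))) (s2 (s1 (s1 (l 1) (l 0)) (l 0)) (s2 (s1 (l 4) (s1 (l 4) (l 0))) (l 4))))) (s2 (s1 (l 4) (s0 (l
    4) (l 4))) (l 2)))) (s2 (s1 (s2 (l 0) (s1 (s1 (s0 (l 4) (s2 (l 0) (s0 (l 4) (l 4)))) (l 0)) (l 0))) (l 0))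
    (s2 (s1 (s0 (s1 (l 4) (l 4)) (s2 (s1 (l 4) (s0 (l 4) (l 4))) (l 2))) (s2 (l 0) (l 2))) (l 2))))) (s1 (s0
    (s1 (l 1) (s0 (l 1) (s1 (l 1) (s2 (s0 (l 1) (s1 (l 1) (s1 (l 1) (l 1)))) (l 2))))) (s2 (s0 (s1 (s0 (l 1)
    (s1 (l 1) (l 8))) (s1 (s0 (l 1) (s1 (l 8) (s1 (l 8) (l 8)))) (s0 (s1 (s1 (l 1) (l 8)) (s2 (l 8) (s0 (l 8)
    (l 8)))) (s2 (l 8) (s2 (l 8) (l 2)))))) (s1 (s0 (s1 (s1 (l 8) (l 8)) (s1 (l 8) (s1 (l 8) (l 8)))) (s2 (s0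
    (s1 (l 8) (l 8)) (s1 (s1 (l 5) (l 8)) (s1 (l 8) (l 8)))) (l 2))) (s0 (s1 (s2 (l 8) (s2 (l 8) (l 2))) (s2 (l
    8) (s2 (s0 (l 8) (l 2)) (l 2)))) (s2 (s0 (s1 (l 8) (l 8)) (s1 (l 8) (l 8))) (l 2))))) (l 2))) (s1 (s2 (s0
    (s1 (s0 (s1 (l 1) (s0 (l 1) (s1 (l 1) (s2 (l 8) (s2 (l 8) (l 4)))))) (s2 (s1 (l 8) (l 8)) (s1 (s2 (s0 (l 8)
    (l 8)) (s0 (l 4) (s2 (l 8) (l 2)))) (s2 (s0 (l 8) (l 8)) (s0 (s0 (l 4) (l 4)) (s2 (s0 (l 8) (l 8)) (l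
    2))))))) (s0 (s1 (s2 (s1 (l 8) (l 0)) (s2 (s1 (s0 (l 4) (l 8)) (s0 (s0 (l 4) (l 8)) (s0 (l 8) (l 8)))) (s0
    (l 4) (l 4)))) (s2 (l 0) (s2 (s1 (s1 (s3 (s0 (l 8) (l 8)) (l 8)) (l 0)) (l 0)) (s2 (s0 (l 4) (s3 (s1 (l 4)
    (s2 (l 0) (l 4))) (l 4))) (l 4))))) (s2 (s1 (s0 (l 8) (l 8)) (l 0)) (s1 (s2 (s1 (s0 (l 8) (l 8)) (s0 (l 8)
    (l 8))) (s1 (s2 (s0 (s2 (l 8) (l 4)) (s3 (l 8) (l 8))) (s0 (l 4) (l 2))) (s2 (s0 (s3 (s2 (l 8) (l 4)) (l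
    4)) (s3 (s1 (s0 (l 8) (l 8)) (s3 (s0 (l 8) (s0 (l 8) (l 8))) (s0 (l 8) (l 8)))) (s0 (l 8) (l 8)))) (s0 (l
    4) (l 2))))) (s2 (s1 (s1 (s0 (l 8) (l 8)) (l 0)) (l 0)) (s1 (s2 (s3 (s0 (s2 (s1 (l 8) (s1 (l 8) (l 0))) (s0
    (l 4) (s3 (s1 (s2 (l 8) (l 4)) (s2 (s1 (l 8) (s1 (s1 (l 8) (l 0)) (l 0))) (l 4))) (l 4)))) (s2 (s1 (l 8)
    (s0 (l 8) (l 8))) (s2 (s0 (s2 (s1 (l 8) (s1 (l 8) (l 0))) (l 2)) (l 2)) (l 2)))) (s0 (s2 (s0 (l 4) (l 8))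
    (l 4)) (s2 (s0 (l 8) (l 8)) (l 2)))) (s2 (s0 (l 4) (l 2)) (l 2))) (s2 (s1 (s1 (s2 (l 0) (s2 (l 0) (s0 (s3
    (s0 (l 4) (s0 (l 4) (l 2))) (l 4)) (l 2)))) (l 0)) (l 0)) (s2 (s2 (s1 (s0 (s0 (l 4) (l 2)) (l 2)) (l 0)) (l
    2)) (l 2))))))))) (s0 (s1 (s2 (s0 (l 8) (l 8)) (s1 (s2 (s0 (l 8) (l 8)) (s2 (s0 (l 8) (l 2)) (l 2))) (s2
    (s0 (l 8) (l 8)) (s2 (s0 (s0 (l 8) (l 2)) (l 2)) (l 2))))) (s2 (s1 (l 8) (l 0)) (s2 (s1 (s0 (s0 (l 8) (l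
    8)) (s0 (l 8) (l 8))) (s1 (s0 (s0 (l 8) (l 8)) (s0 (l 8) (l 8))) (l 0))) (l 2)))) (s2 (s1 (s0 (l 8) (l 8))
    (s0 (l 8) (l 8))) (l 2)))) (s2 (s0 (s2 (s0 (s0 (l 4) (l 4)) (l 2)) (l 2)) (l 2)) (l 2))) (s2 (s1 (s2 (l 0)
    (s1 (s1 (s1 (s1 (s2 (l 0) (s0 (s2 (l 0) (s0 (l 4) (s2 (l 0) (l 2)))) (l 2))) (l 0)) (l 0)) (l 0)) (l 0)))
    (l 0)) (s2 (s1 (s2 (s1 (s0 (s0 (l 4) (l 2)) (l 2)) (l 2)) (l 2)) (l 2)) (l 2)))))))))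
def md16r : Tr := (s0 (s0 (s0 (s3 (s0 (s0 (l 76) (l 78)) (s0 (l 80) (l 82))) (s0 (s3 (s0 (l 78) (l 80)) (s0 (s3
    (l 78) (s0 (l 78) (l 78))) (s3 (l 80) (s0 (l 80) (l 80))))) (s3 (s0 (l 82) (l 84)) (s0 (l 82) (l 84)))))
    (s0 (s3 (s0 (l 84) (l 86)) (l 86)) (s3 (l 88) (l 90)))) (s0 (s0 (l 92) (l 96)) (l 100))) (s0 (s0 (l 106) (l
    114)) (s0 (l 116) (s0 (l 118) (s3 (s0 (l 118) (s3 (l 156) (l 158))) (l 158))))))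
def md16c : Tr := (s3 (s3 (s3 (l 0) (l 0)) (l 0)) (l 0))
theorem md16_ok : mdChk md16 md16s md16r md16c = true := by decide +kernel

-- u[0.7060,0.7350] C -7.4 s 1.9 K0 1.705 em 0.107 m0 0.05118 l1 2.5674 l2 0.30 V 1.954 y0 0.421 r 0.30 ka 0.3017 | leaves 310 24 3
def md14 : MD := ⟨79228162514262254678716291481, 79228162514264872395999700582, 79228162514264817508379242005, 79228162514264367711366458376,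
  79228162514264351999433258387, 79228162514265060252399157274, 79228162514264422036036963532, 79228162514264887595648442958,
  79228162514264456094509145522, 79228162514264422036036963532, 79228162514264422514544423941, 79228162514264612594596196647,
  79228162514264062592210229048, 79228162514264307475439967319, 79228162514264521959653695816,
  79228162514264536314877508059, 79228162514264544477651832668⟩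
def md14s : Tr := (s0 (s0 (s1 (l 1) (s2 (s0 (l 9) (s1 (l 1) (s2 (l 0) (s0 (l 9) (s1 (l 9) (l 0)))))) (s0 (l 9)
    (s1 (l 1) (s2 (s0 (l 9) (s1 (l 9) (s1 (l 9) (l 0)))) (s0 (l 9) (l 9))))))) (s1 (l 1) (s2 (s0 (s1 (l 1) (s1
    (l 9) (l 0))) (s1 (l 1) (s1 (l 9) (l 0)))) (s0 (s1 (l 1) (s1 (l 9) (s1 (l 9) (s1 (l 9) (s2 (l 0) (s2 (l 0)
    (l 6))))))) (s1 (l 1) (s1 (l 9) (s1 (l 9) (s2 (l 0) (s1 (l 9) (s0 (l 2) (l 2))))))))))) (s0 (s0 (s1 (l 1)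
    (s1 (l 9) (s1 (s1 (l 1) (s2 (l 0) (l 9))) (s2 (l 0) (s1 (s0 (s1 (l 9) (s2 (l 0) (l 9))) (s1 (s2 (s0 (l 9)
    (l 4)) (l 9)) (s2 (l 0) (l 9)))) (s2 (l 0) (s2 (s2 (l 0) (l 6)) (l 6)))))))) (s1 (l 9) (s1 (s1 (l 1) (l 1))
    (s1 (s0 (s1 (l 1) (s2 (l 0) (s2 (s0 (l 3) (l 4)) (l 9)))) (s1 (s1 (l 1) (s0 (l 1) (s2 (l 0) (l 4)))) (s2 (l
    0) (s2 (s0 (l 4) (l 4)) (s0 (l 9) (l 4)))))) (s2 (l 0) (s1 (s0 (s2 (s1 (l 4) (l 0)) (s1 (l 9) (l 2))) (s2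
    (s0 (l 4) (l 4)) (l 2))) (s2 (l 0) (l 2)))))))) (s0 (s1 (s1 (l 1) (l 1)) (s1 (s1 (l 1) (s1 (l 1) (s0 (l 1)
    (s0 (l 1) (s1 (l 1) (s2 (l 4) (s0 (l 4) (l 4)))))))) (s1 (s0 (s2 (s1 (s0 (l 4) (l 4)) (l 0)) (s1 (s2 (l 4)
    (l 4)) (s2 (l 4) (l 2)))) (s2 (s1 (s0 (l 4) (s1 (l 4) (l 0))) (l 0)) (s2 (s1 (l 4) (s0 (l 4) (l 4))) (l
    2)))) (s2 (l 0) (s2 (s1 (s2 (l 0) (s0 (l 4) (l 2))) (l 0)) (l 2)))))) (s0 (s1 (s1 (l 1) (s0 (l 1) (l 1)))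
    (s1 (s2 (s0 (s1 (l 1) (s1 (s0 (l 1) (l 4)) (s2 (l 0) (l 4)))) (s1 (s0 (l 1) (s2 (s0 (l 1) (l 4)) (l 4)))
    (s1 (s0 (s2 (l 4) (l 4)) (s2 (s2 (l 0) (s1 (l 4) (l 0))) (s2 (l 4) (l 4)))) (s2 (l 0) (s0 (s2 (l 4) (l 4))
    (s2 (s1 (s2 (l 0) (l 4)) (l 0)) (l 4))))))) (s2 (s0 (s0 (l 4) (l 4)) (s1 (l 4) (s0 (l 4) (l 4)))) (l 2)))
    (s2 (s1 (s1 (s2 (l 0) (s1 (s0 (l 4) (s2 (l 0) (s2 (l 0) (l 4)))) (l 0))) (l 0)) (l 0)) (s2 (s2 (s1 (s0 (l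
    4) (s0 (l 4) (l 2))) (l 0)) (l 2)) (l 2))))) (s1 (s0 (s1 (l 1) (s1 (l 1) (s2 (s0 (l 1) (s0 (l 1) (s1 (l 1)
    (s2 (l 8) (s2 (l 8) (l 2)))))) (l 2)))) (s2 (s0 (s1 (s1 (l 1) (s0 (l 1) (s1 (l 1) (l 8)))) (s1 (s0 (s1 (l
    1) (s1 (l 1) (l 1))) (s1 (s1 (l 8) (l 8)) (s2 (l 8) (s0 (l 8) (l 2))))) (s2 (s0 (l 8) (l 8)) (s2 (s0 (l 8)
    (l 8)) (l 2))))) (s2 (s1 (s0 (s0 (l 8) (l 8)) (s0 (l 8) (s1 (s1 (l 5) (l 8)) (l 8)))) (s0 (s1 (l 8) (l 8))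
    (s0 (l 8) (l 8)))) (l 2))) (l 2))) (s2 (s1 (s0 (s1 (s0 (s2 (s1 (s0 (l 1) (l 8)) (s0 (l 8) (l 8))) (s2 (s1
    (l 4) (s0 (l 4) (s0 (l 4) (l 8)))) (l 4))) (s2 (s1 (l 8) (l 8)) (s1 (s2 (s0 (l 8) (l 8)) (s0 (l 4) (l 2)))
    (s2 (s0 (s0 (l 8) (l 8)) (l 8)) (s2 (s0 (l 4) (l 2)) (l 2)))))) (s1 (s2 (s0 (s0 (l 8) (l 8)) (l 8)) (s0 (s2
    (s1 (s0 (l 4) (l 8)) (s0 (s2 (l 8) (l 4)) (s1 (l 8) (s0 (l 8) (l 8))))) (s0 (l 4) (l 4))) (s2 (s1 (s0 (l 8)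
    (l 8)) (s0 (s0 (l 8) (l 8)) (s0 (l 8) (l 8)))) (s2 (s2 (s0 (s1 (s2 (l 8) (l 4)) (s2 (s1 (l 8) (s0 (s0 (l 4)
    (l 8)) (l 2))) (l 2))) (l 2)) (l 2)) (l 2))))) (s2 (l 0) (s2 (s1 (s1 (s0 (s1 (s0 (s2 (l 0) (l 4)) (l 8)) (l
    0)) (s0 (s1 (l 8) (l 0)) (s0 (l 8) (l 8)))) (l 0)) (l 0)) (s0 (s2 (s1 (s2 (s0 (l 4) (s2 (s1 (l 4) (l 0)) (l
    4))) (l 4)) (s0 (l 4) (s1 (s2 (l 0) (l 4)) (l 0)))) (l 4)) (s2 (s2 (s1 (s2 (s1 (s0 (s0 (s3 (s1 (l 8) (s1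
    (s1 (l 8) (l 0)) (l 0))) (l 4)) (l 2)) (l 2)) (l 0)) (l 2)) (l 0)) (l 2)) (l 2))))))) (s1 (s0 (s2 (s0 (l 8)
    (l 8)) (s2 (s1 (s0 (l 8) (l 8)) (s0 (l 8) (l 8))) (l 2))) (s2 (s0 (l 8) (l 8)) (l 2))) (s2 (s1 (s0 (l 8) (l
    8)) (l 0)) (s2 (s0 (s1 (s0 (s1 (l 8) (s0 (l 8) (l 8))) (s2 (l 8) (l 2))) (s1 (s1 (s0 (l 8) (l 8)) (l 0)) (l
    0))) (l 2)) (l 2))))) (s1 (s2 (l 0) (s1 (s1 (s2 (l 0) (s2 (l 0) (l 2))) (l 0)) (l 0))) (l 0))) (l 2)))))))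
def md14r : Tr := (s0 (s0 (s0 (s0 (s3 (l 72) (s0 (s0 (l 70) (l 72)) (s0 (l 72) (l 74)))) (s3 (l 76) (s0 (s0 (l
    74) (l 76)) (s0 (l 76) (l 78))))) (s0 (s3 (l 78) (s0 (l 78) (l 80))) (l 82))) (s0 (s0 (l 84) (l 88)) (l
    92))) (s0 (s0 (l 98) (l 104)) (s0 (l 108) (s0 (l 108) (s0 (l 108) (s0 (l 108) (l 94)))))))
def md14c : Tr := (s3 (s3 (l 0) (l 0)) (l 0))
theorem md14_ok : mdChk md14 md14s md14r md14c = true := by decide +kernel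

end Pool.Agent.MP_b5eafd_co

end

-- part MP_b5eafd_co.Data5
section

/-! Certificate data, checked by the kernel. -/

set_option autoImplicit false
set_option maxRecDepth 100000

namespace Pool.Agent.MP_b5eafd_co
open Tr

-- u[0.8240,0.8380] C -6.6 s 1.6 K0 1.823 em 0.172 m0 0.02453 l1 1.5120 l2 1.00 V 2.149 y0 0.602 r 0.61 ka 0.4047 | leaves 446 23 2
def md8 : MD := ⟨79228162514262479858697660006, 79228162514264787953506687386, 79228162514264850722426493862, 79228162514264386007239944569,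
  79228162514264344498125129048, 79228162514264763183708736848, 79228162514264619068520660992, 79228162514264942483268901536,
  79228162514264507041479930151, 79228162514264509293279743836, 79228162514264451506467025138, 79228162514264639616193960870,
  79228162514264035570612464825, 79228162514264289179566481126, 79228162514264463131383563289,
  79228162514264569528924759917, 79228162514264573469574433866⟩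
def md8s : Tr := (s0 (s1 (l 9) (s0 (s2 (s1 (l 1) (s0 (s2 (l 0) (s1 (l 9) (l 0))) (s2 (l 0) (s1 (l 9) (l 0)))))
    (s1 (l 1) (s0 (s2 (s1 (l 9) (s0 (s2 (l 0) (s1 (l 9) (l 0))) (s2 (l 0) (s1 (l 9) (l 0))))) (l 6)) (s2 (s1 (l
    9) (s0 (s2 (l 0) (s1 (l 9) (l 0))) (s1 (l 9) (l 0)))) (l 6))))) (s2 (s1 (l 9) (s0 (s1 (l 9) (l 0)) (s1 (s1
    (l 9) (l 0)) (l 0)))) (s1 (l 9) (s1 (l 9) (s0 (s2 (s1 (s1 (l 9) (l 0)) (l 0)) (l 6)) (s2 (s1 (s1 (s1 (l 9)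
    (l 0)) (l 0)) (l 0)) (l 6)))))))) (s0 (s0 (s1 (l 1) (s1 (s1 (l 1) (l 1)) (s1 (s0 (s1 (l 3) (s2 (l 0) (s1 (l
    9) (s0 (l 9) (l 3))))) (s1 (s0 (l 3) (s2 (l 4) (l 9))) (s2 (l 0) (s2 (s1 (s0 (l 9) (l 3)) (l 4)) (l 6)))))
    (s2 (l 0) (s2 (s1 (s2 (l 0) (s2 (l 0) (l 6))) (l 0)) (l 6)))))) (s1 (s0 (l 1) (l 1)) (s1 (s1 (l 1) (s1 (l
    1) (l 1))) (s1 (s0 (s1 (s1 (l 1) (s2 (l 0) (s0 (l 3) (l 4)))) (s2 (l 0) (s2 (s0 (l 4) (l 4)) (l 6)))) (s1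
    (s2 (s0 (l 4) (l 4)) (s2 (s0 (l 4) (l 4)) (l 6))) (s2 (l 0) (s2 (s0 (l 4) (l 4)) (l 6))))) (s2 (l 0) (s2
    (s1 (s1 (s0 (l 4) (l 4)) (l 0)) (l 0)) (l 6))))))) (s0 (s1 (s1 (l 1) (s0 (l 1) (l 1))) (s1 (s0 (s1 (l 1)
    (s1 (l 1) (s0 (l 1) (s1 (l 1) (s2 (l 4) (l 4)))))) (s1 (l 1) (s2 (s0 (s0 (l 4) (l 4)) (s1 (l 1) (s2 (l 0)
    (l 4)))) (s2 (s0 (l 4) (l 4)) (l 6))))) (s1 (s0 (s2 (s1 (s0 (l 4) (l 4)) (l 0)) (s2 (s1 (l 4) (s0 (l 4) (l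
    4))) (l 6))) (s2 (s1 (s2 (l 0) (s0 (l 4) (s1 (l 4) (l 0)))) (l 0)) (s2 (s1 (l 4) (s0 (l 4) (l 2))) (l 6))))
    (s2 (l 0) (s2 (s2 (l 0) (l 2)) (l 6)))))) (s0 (s1 (s1 (l 1) (s1 (l 1) (l 1))) (s1 (s2 (s1 (s0 (l 1) (s1 (l
    1) (s0 (l 1) (s2 (s0 (l 4) (s2 (l 8) (s1 (l 4) (l 8)))) (s0 (l 4) (l 4)))))) (s0 (s1 (s2 (l 4) (l 4)) (s2
    (l 0) (s2 (s0 (l 4) (l 4)) (l 4)))) (s1 (s2 (s1 (s0 (l 4) (s2 (l 0) (s0 (l 4) (s0 (l 8) (l 8))))) (l 0))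
    (s2 (s0 (l 4) (s1 (l 4) (s2 (s2 (l 0) (l 4)) (l 4)))) (l 4))) (s2 (l 0) (s2 (s1 (s0 (l 4) (s1 (s2 (l 0) (l
    4)) (l 0))) (l 0)) (s0 (l 4) (s0 (l 4) (l 4)))))))) (s2 (s2 (s0 (s0 (l 4) (l 4)) (l 2)) (l 2)) (l 6))) (s2
    (s1 (s1 (s2 (l 0) (s1 (s2 (l 0) (s0 (l 4) (s2 (l 0) (l 2)))) (l 0))) (l 0)) (l 0)) (l 2)))) (s2 (s1 (s0 (s1
    (l 1) (s0 (s1 (l 1) (l 1)) (s1 (l 1) (s2 (s1 (l 8) (s0 (l 8) (l 8))) (s2 (s1 (s0 (l 1) (l 8)) (s0 (s0 (l 1)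
    (l 8)) (s0 (l 8) (l 8)))) (l 2)))))) (s0 (s1 (s1 (l 1) (s0 (l 1) (s2 (l 8) (l 2)))) (s1 (s2 (s0 (l 8) (l
    8)) (s2 (s0 (s0 (l 1) (l 8)) (l 2)) (l 2))) (s2 (s0 (s0 (l 8) (l 8)) (s0 (l 8) (l 8))) (s2 (s0 (s1 (l 8)
    (s0 (l 8) (l 2))) (l 2)) (l 2))))) (s2 (s1 (s0 (s1 (l 8) (l 8)) (s2 (s1 (s1 (l 5) (s0 (l 8) (l 8))) (s0 (l
    8) (s1 (l 8) (l 8)))) (l 2))) (s0 (s1 (l 8) (s0 (l 8) (l 8))) (s2 (s1 (s0 (l 8) (l 8)) (s0 (l 8) (l 8))) (l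
    2)))) (l 2)))) (s1 (s0 (s1 (s2 (s0 (s1 (s0 (l 1) (l 8)) (s1 (l 8) (l 8))) (s1 (s0 (l 8) (l 8)) (s0 (l 8) (l
    8)))) (s1 (s0 (s2 (s0 (l 1) (s2 (l 8) (l 4))) (l 4)) (s2 (s0 (s1 (l 8) (s0 (l 8) (l 8))) (s2 (l 8) (l 2)))
    (l 2))) (s0 (s2 (s1 (s2 (s0 (l 4) (l 8)) (l 4)) (s0 (s2 (l 4) (l 4)) (s2 (l 8) (s2 (s0 (l 4) (l 8)) (l
    4))))) (l 4)) (s2 (s1 (s0 (s2 (l 8) (s2 (l 8) (l 2))) (s2 (l 8) (l 2))) (s2 (s0 (l 8) (l 8)) (s0 (s2 (s0 (l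
    8) (s0 (l 8) (l 2))) (l 2)) (l 2)))) (l 2))))) (s1 (s2 (s2 (l 0) (s1 (s0 (s0 (s1 (l 8) (l 0)) (l 8)) (s0 (l
    8) (l 8))) (l 0))) (s2 (s0 (s1 (s2 (s0 (s1 (l 8) (l 8)) (s1 (l 8) (s0 (l 8) (l 8)))) (s0 (l 4) (s1 (s2 (s0
    (l 4) (l 8)) (l 4)) (s2 (s1 (s0 (l 4) (s0 (l 8) (l 8))) (s2 (l 8) (s0 (l 4) (s0 (l 4) (s2 (l 8) (l 2))))))
    (l 4))))) (s2 (s1 (s0 (s0 (l 8) (l 8)) (s1 (s0 (l 8) (l 8)) (l 0))) (l 0)) (s0 (s2 (s1 (l 4) (s2 (l 0) (l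
    4))) (l 4)) (s2 (s1 (s0 (s2 (s1 (l 8) (s1 (l 8) (l 0))) (s2 (s1 (l 4) (s2 (s1 (l 4) (l 0)) (l 4))) (l 4)))
    (s2 (s1 (s0 (l 8) (l 8)) (s1 (s1 (l 8) (l 0)) (l 0))) (s3 (s1 (s2 (s1 (l 8) (s0 (s0 (l 4) (l 8)) (s2 (l 8)
    (l 2)))) (s0 (l 4) (l 2))) (s2 (s3 (s1 (s0 (s3 (s2 (l 8) (s0 (l 4) (s2 (s2 (l 8) (l 2)) (l 2)))) (l 8)) (s2
    (s2 (l 8) (l 2)) (l 2))) (s1 (s1 (s1 (s1 (s2 (l 0) (s0 (s0 (l 4) (l 2)) (l 2))) (l 0)) (l 0)) (l 0)) (l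
    0))) (s0 (s1 (l 8) (l 8)) (l 2))) (l 2))) (s2 (s0 (l 8) (l 2)) (l 2))))) (s1 (s1 (s1 (s2 (l 0) (s1 (s2 (l
    0) (s0 (l 4) (l 2))) (l 0))) (l 0)) (l 0)) (l 0))) (s2 (s0 (s0 (l 4) (l 2)) (l 2)) (l 2)))))) (s1 (s2 (s0
    (s0 (l 8) (l 8)) (s1 (l 8) (s0 (l 8) (l 8)))) (s2 (s0 (s2 (s0 (s1 (l 8) (l 8)) (l 2)) (l 2)) (l 2)) (l 2)))
    (s2 (s1 (s1 (s0 (l 8) (s0 (l 8) (s0 (l 8) (l 8)))) (l 0)) (l 0)) (s2 (s0 (s2 (s1 (s0 (s3 (s1 (s0 (l 8) (l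
    8)) (s1 (s1 (s0 (l 8) (s0 (l 8) (l 2))) (l 0)) (l 0))) (s0 (l 8) (l 8))) (l 2)) (l 0)) (l 2)) (l 2)) (l
    2))))) (s2 (s1 (s0 (l 4) (l 2)) (l 2)) (l 2)))) (s2 (l 0) (s2 (s1 (s1 (s2 (l 0) (s1 (s2 (l 0) (s0 (s0 (l 4)
    (s2 (l 0) (l 2))) (l 2))) (l 0))) (l 0)) (l 0)) (l 2))))) (s1 (s2 (s0 (s1 (s0 (l 8) (l 8)) (s0 (l 8) (l
    8))) (s0 (s0 (l 8) (l 8)) (s0 (l 8) (l 8)))) (s2 (s0 (s2 (s0 (s1 (l 8) (s2 (l 8) (l 2))) (l 2)) (l 2)) (l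
    2)) (l 2))) (s2 (s1 (s0 (s1 (s0 (l 8) (l 8)) (l 0)) (s0 (l 8) (l 8))) (l 0)) (s2 (s2 (s1 (s0 (s0 (s2 (s1 (l
    8) (l 0)) (l 2)) (l 2)) (l 2)) (l 0)) (l 2)) (l 2))))) (s1 (s1 (s2 (l 0) (s2 (l 0) (l 2))) (l 0)) (l 0))))
    (l 2))))))
def md8r : Tr := (s0 (s0 (s0 (s0 (s0 (s0 (l 64) (l 64)) (s3 (l 66) (l 66))) (s0 (s3 (l 68) (l 68)) (s3 (l 70)
    (l 70)))) (s0 (s0 (s0 (l 72) (l 72)) (l 74)) (s0 (l 76) (l 76)))) (s0 (s0 (l 78) (l 82)) (l 86))) (s0 (s0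
    (l 90) (l 96)) (s0 (s0 (l 96) (l 100)) (s0 (l 104) (s0 (l 108) (l 112))))))
def md8c : Tr := (s3 (l 0) (l 0))
theorem md8_ok : mdChk md8 md8s md8r md8c = true := by decide +kernel

-- kind 0 [0.5200,0.5519] K0 1.947 em 0.296 l2 1.55+0.00 io V 2.500 r 1.023 l2min 1.398 | leaves 318 50 2
def cv5 : TD := ⟨false, 79228162514264885625323605983, 79228162514264420910137056690, 79228162514264773879757851853,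
  79228162514264337593543950336, 79228162514265041280985726976, 79228162514264625542445125337, 79228162514264683807765304443,
  79228162514263991379041121252, 79228162514264254276669369005, 79228162514264380096265433645,
  79228162514264483960531839877, 79228162514264492939583596947⟩
def cv5s : Tr := (s0 (s0 (s1 (l 1) (s0 (s2 (s1 (l 9) (s0 (s2 (l 0) (s1 (l 9) (l 0))) (s2 (l 0) (s1 (l 9) (l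
    0))))) (l 6)) (s2 (s1 (l 9) (s0 (s2 (l 0) (s1 (l 9) (l 0))) (s1 (l 9) (l 0)))) (l 6)))) (s1 (l 9) (s0 (s2
    (s1 (l 9) (s1 (s1 (l 9) (l 0)) (l 0))) (l 6)) (s1 (l 9) (s2 (s1 (s1 (s1 (l 1) (l 0)) (l 0)) (l 0)) (l
    6)))))) (s0 (s0 (s1 (l 1) (s2 (s1 (s1 (l 1) (l 1)) (s1 (s1 (s1 (l 1) (l 0)) (l 0)) (l 0))) (l 6))) (s2 (s1
    (s0 (l 1) (l 1)) (s1 (s1 (l 1) (s1 (l 1) (l 1))) (s1 (s1 (s1 (s1 (l 1) (l 0)) (l 0)) (l 0)) (l 0)))) (l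
    6))) (s2 (s0 (s1 (s1 (l 1) (s0 (l 1) (l 1))) (s1 (s1 (l 1) (s1 (l 1) (s2 (l 0) (s2 (s2 (l 0) (l 6)) (l
    6))))) (s1 (s1 (s2 (l 0) (s2 (l 0) (l 6))) (l 0)) (l 0)))) (s0 (s1 (s1 (l 1) (s0 (l 1) (l 1))) (s1 (s1 (s0
    (l 1) (s0 (l 1) (l 1))) (s2 (s1 (s0 (l 1) (s1 (s1 (l 1) (l 0)) (l 0))) (l 0)) (s2 (s2 (s1 (s0 (l 1) (s2 (s1
    (s0 (l 1) (s1 (l 1) (l 1))) (l 0)) (l 6))) (l 0)) (l 6)) (l 6)))) (s1 (s2 (l 0) (s2 (l 0) (l 6))) (l 0))))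
    (s1 (s1 (s0 (l 1) (s1 (s2 (l 7) (l 2)) (s2 (s0 (l 1) (l 7)) (l 2)))) (s0 (s1 (l 1) (s0 (l 1) (l 1))) (s2
    (s1 (s1 (l 7) (s0 (l 1) (l 7))) (s1 (s0 (s0 (l 1) (l 7)) (s0 (l 7) (l 7))) (s0 (s1 (s0 (l 1) (l 7)) (s2 (l
    7) (s0 (l 1) (l 7)))) (s2 (s1 (l 7) (s0 (l 7) (l 7))) (l 2))))) (l 2)))) (s1 (s2 (s0 (s1 (s1 (s0 (l 1) (s1
    (l 1) (s2 (s0 (l 1) (l 7)) (s0 (l 1) (s1 (l 1) (l 7)))))) (s1 (s0 (l 1) (s2 (s1 (l 7) (l 0)) (s0 (s3 (l 1)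
    (s0 (l 1) (l 1))) (s3 (s0 (l 7) (l 7)) (s1 (l 7) (s2 (l 7) (s0 (l 7) (l 7)))))))) (s2 (l 0) (s0 (s1 (l 1)
    (s2 (l 0) (s0 (l 1) (s3 (l 1) (s1 (l 1) (s0 (l 1) (l 7))))))) (s1 (s2 (s1 (s3 (l 7) (s0 (l 7) (l 7))) (l
    0)) (s3 (s0 (l 7) (s2 (l 7) (l 2))) (s0 (s1 (l 7) (s0 (l 1) (l 7))) (s2 (s0 (l 7) (s2 (s0 (l 7) (l 7)) (l
    2))) (l 2))))) (s2 (l 0) (s3 (s0 (s1 (l 7) (s0 (l 7) (l 7))) (s2 (s1 (s0 (l 7) (l 7)) (l 0)) (l 2))) (s0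
    (s1 (s2 (s0 (l 7) (l 7)) (s0 (l 7) (s2 (l 7) (l 2)))) (s2 (l 0) (s3 (s0 (l 7) (l 7)) (s0 (l 7) (s2 (s1 (l
    7) (l 0)) (l 2)))))) (s2 (s1 (s1 (s3 (l 7) (s1 (s0 (l 7) (l 7)) (l 0))) (l 0)) (l 0)) (l 2)))))))))) (s1
    (s2 (l 0) (s1 (s1 (s2 (l 0) (s1 (s2 (l 0) (s1 (s0 (s3 (l 1) (s0 (l 1) (l 7))) (s0 (s3 (l 7) (s1 (s3 (l 7)
    (s0 (l 7) (s2 (l 0) (l 2)))) (l 0))) (l 2))) (l 0))) (l 0))) (l 0)) (l 0))) (l 0))) (s1 (s1 (s0 (s1 (s2 (s0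
    (l 7) (l 7)) (s0 (l 7) (s2 (l 7) (l 2)))) (s2 (s0 (l 7) (s3 (l 7) (l 7))) (s0 (s3 (l 7) (s2 (l 7) (s0 (l 7)
    (l 2)))) (s2 (s3 (l 7) (s0 (l 7) (l 7))) (l 2))))) (s2 (s1 (s0 (s0 (l 7) (l 7)) (s3 (l 7) (s0 (l 7) (l
    7)))) (s0 (s3 (l 7) (s1 (l 7) (s0 (l 7) (s0 (l 7) (l 7))))) (s3 (s1 (l 7) (s0 (l 7) (s2 (l 0) (l 2)))) (s1
    (s0 (l 7) (s2 (l 7) (l 2))) (s2 (l 0) (s0 (s0 (l 7) (l 2)) (l 2))))))) (l 2))) (s0 (s2 (s1 (s1 (s3 (s0 (l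
    7) (l 7)) (s0 (l 7) (s0 (l 7) (l 7)))) (l 0)) (l 0)) (s1 (s0 (s3 (s2 (s0 (l 7) (l 7)) (l 2)) (s1 (s2 (l 7)
    (s0 (l 7) (l 2))) (s2 (s0 (l 7) (s3 (l 7) (l 7))) (l 2)))) (s2 (s2 (s3 (s1 (l 7) (l 7)) (s1 (s0 (l 7) (l
    7)) (s1 (s1 (l 7) (l 0)) (l 0)))) (l 2)) (l 2))) (s2 (s1 (s1 (s1 (s2 (l 0) (s0 (s3 (l 7) (s3 (l 7) (l 7)))
    (l 2))) (l 0)) (l 0)) (l 0)) (l 2)))) (s2 (s1 (s1 (s1 (s1 (s2 (l 0) (s3 (s0 (l 7) (s0 (l 7) (l 2))) (s0 (l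
    7) (s2 (l 0) (l 2))))) (l 0)) (l 0)) (l 0)) (l 0)) (l 2)))) (s1 (s1 (s1 (s1 (s2 (l 0) (s2 (l 0) (l 2))) (l
    0)) (l 0)) (l 0)) (l 0)))) (s2 (s0 (s2 (s0 (s1 (s1 (l 1) (s1 (l 1) (s1 (l 1) (s2 (s3 (l 6) (s0 (l 1) (s0 (l
    1) (l 2)))) (l 6))))) (s1 (s2 (s1 (s3 (l 6) (s2 (s1 (s0 (l 1) (s0 (s1 (l 1) (s0 (l 7) (l 7))) (l 2))) (l
    0)) (l 6))) (l 0)) (l 6)) (l 0))) (l 2)) (l 6)) (l 2)) (l 6))) (s1 (s2 (l 0) (s2 (l 0) (l 6))) (l 0))))))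
    (l 6))))
def cv5r : Tr := (s3 (s0 (s3 (s0 (s3 (s0 (l 18) (l 12)) (s0 (l 18) (l 12))) (s3 (s0 (s0 (l 10) (l 8)) (s3 (l 4)
    (l 4))) (s0 (s0 (l 10) (l 8)) (s3 (l 4) (l 4))))) (s0 (s3 (s0 (l 18) (l 12)) (s0 (l 19) (l 12))) (s3 (s0
    (s0 (l 10) (l 8)) (s3 (l 4) (l 4))) (s0 (s0 (l 10) (l 8)) (s3 (l 4) (l 4)))))) (l 0)) (s0 (s3 (s0 (s3 (s0
    (l 19) (l 12)) (s0 (l 19) (l 12))) (s3 (s0 (s0 (l 10) (l 8)) (s3 (l 4) (l 4))) (s0 (s0 (l 10) (l 8)) (s3 (l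
    4) (l 4))))) (s0 (s3 (s0 (l 19) (l 13)) (s0 (l 19) (l 13))) (s3 (s0 (s0 (l 10) (l 8)) (s3 (l 4) (l 4))) (s0
    (s0 (l 11) (l 8)) (s3 (l 4) (l 4)))))) (l 0)))
def cv5c : Tr := (s3 (l 0) (l 0))
theorem cv5_ok : cvChk cv5 cv5s cv5r cv5c = true := by decide +kernel

-- u[0.8000,0.8100] C -6.8 s 1.7 K0 1.799 em 0.152 m0 0.03265 l1 1.7531 l2 0.90 V 2.095 y0 0.549 r 0.50 ka 0.3716 | leaves 336 16 1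
def md10 : MD := ⟨79228162514262423563702317875, 79228162514264816101004358451, 79228162514264843967027052806, 79228162514264380377740410356,
  79228162514264346783701939939, 79228162514264831047325621787, 79228162514264590921022989926, 79228162514264927283620159160,
  79228162514264492123306164486, 79228162514264478331032305664, 79228162514264442189645296016, 79228162514264632297844566393,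
  79228162514264042888961859302, 79228162514264294809066015340, 79228162514264476642182445400,
  79228162514264562773525318861, 79228162514264565588275085967⟩
def md10s : Tr := (s0 (s1 (l 9) (s0 (s2 (s1 (l 1) (s0 (s2 (l 0) (s1 (l 9) (l 0))) (s2 (l 0) (s1 (l 9) (l 0)))))
    (s1 (l 1) (s0 (s2 (s1 (l 9) (s0 (s2 (l 0) (s1 (l 9) (l 0))) (s2 (l 0) (s1 (l 9) (l 0))))) (l 6)) (s2 (s1 (l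
    9) (s0 (s2 (l 0) (s1 (l 9) (l 0))) (s1 (l 9) (l 0)))) (l 6))))) (s2 (s1 (l 9) (s0 (s1 (l 9) (l 0)) (s1 (l
    9) (l 0)))) (s1 (l 9) (s1 (l 9) (s0 (s1 (l 9) (s2 (l 0) (l 6))) (s2 (s1 (s1 (l 9) (l 0)) (l 0)) (l
    6)))))))) (s0 (s0 (s1 (l 1) (s1 (s0 (l 1) (l 9)) (s1 (s0 (s1 (l 1) (s2 (l 0) (l 9))) (s1 (s0 (l 3) (s2 (l
    3) (l 9))) (s2 (l 0) (s1 (l 3) (s2 (l 4) (l 6)))))) (s2 (l 0) (s2 (s1 (s2 (l 0) (s1 (s0 (s0 (l 9) (l 3)) (l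
    4)) (l 0))) (l 0)) (l 6)))))) (s1 (s0 (l 1) (l 1)) (s1 (s1 (l 1) (s0 (l 1) (l 1))) (s1 (s0 (s1 (s1 (l 1)
    (s2 (l 0) (s0 (l 9) (l 4)))) (s2 (l 0) (s2 (s0 (l 4) (l 4)) (l 6)))) (s1 (s2 (s0 (l 4) (l 4)) (s2 (s0 (l 4)
    (l 4)) (l 6))) (s2 (l 0) (s2 (l 4) (l 6))))) (s2 (l 0) (s2 (s1 (s1 (s0 (l 4) (l 4)) (l 0)) (l 0)) (l
    6))))))) (s0 (s1 (s0 (l 1) (s0 (l 1) (l 1))) (s1 (s1 (l 1) (s0 (s1 (l 1) (s0 (l 1) (s1 (l 1) (l 1)))) (s1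
    (l 1) (s2 (s0 (l 4) (s0 (l 4) (l 4))) (s2 (l 4) (l 6)))))) (s1 (s0 (s2 (s1 (s0 (l 4) (l 4)) (l 0)) (s2 (s1
    (l 4) (l 4)) (l 6))) (s2 (s1 (s2 (l 0) (s1 (l 4) (l 0))) (l 0)) (s2 (s1 (l 4) (s0 (l 4) (l 4))) (l 6))))
    (s2 (l 0) (s2 (s2 (l 0) (l 2)) (l 6)))))) (s0 (s1 (s1 (l 1) (s1 (l 1) (l 1))) (s1 (s2 (s1 (s0 (l 1) (s1 (l
    1) (s0 (l 1) (s2 (s1 (l 1) (s2 (l 0) (l 4))) (l 4))))) (s0 (s1 (s2 (l 4) (l 4)) (s2 (l 0) (s0 (l 4) (l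
    4)))) (s1 (s2 (s1 (s0 (l 4) (s2 (l 0) (s0 (l 4) (l 8)))) (l 0)) (s2 (s0 (l 4) (s1 (l 4) (s2 (s0 (l 4) (l
    4)) (l 4)))) (l 4))) (s2 (l 0) (s2 (s1 (s0 (l 4) (s2 (l 0) (l 4))) (l 0)) (s0 (l 4) (l 4))))))) (s2 (s2 (s1
    (s0 (l 1) (l 4)) (s0 (l 4) (l 2))) (l 2)) (l 6))) (s2 (s1 (s1 (s2 (l 0) (s1 (s2 (l 0) (s0 (l 4) (s2 (l 0)
    (l 4)))) (l 0))) (l 0)) (l 0)) (s2 (s1 (s2 (s0 (l 4) (l 2)) (l 2)) (l 2)) (l 6))))) (s1 (s0 (s1 (l 1) (s2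
    (s0 (s0 (l 1) (l 1)) (s1 (l 1) (s2 (s1 (l 8) (l 8)) (s2 (s1 (s0 (l 1) (l 1)) (s0 (l 8) (l 8))) (l 2))))) (l
    2))) (s2 (s0 (s1 (s1 (l 1) (s0 (l 1) (s2 (l 8) (l 2)))) (s1 (s2 (s0 (l 8) (l 8)) (s2 (s0 (l 8) (l 2)) (l
    2))) (s2 (s0 (l 8) (l 8)) (s2 (s0 (s1 (l 8) (l 8)) (l 2)) (l 2))))) (s2 (s1 (s0 (s1 (l 8) (l 8)) (s1 (s0 (l
    8) (s1 (l 5) (s1 (l 5) (l 8)))) (s0 (l 8) (s1 (l 8) (l 8))))) (s0 (s1 (l 8) (l 8)) (s1 (s0 (l 8) (s1 (l 8)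
    (l 8))) (s0 (l 8) (l 8))))) (l 2))) (l 2))) (s2 (s1 (s0 (s1 (s2 (s0 (s1 (s0 (l 1) (l 8)) (s0 (l 8) (l 8)))
    (s1 (l 8) (s0 (l 8) (l 8)))) (s1 (s0 (s2 (s0 (l 1) (l 4)) (l 4)) (s2 (s0 (s0 (l 8) (l 8)) (s0 (l 8) (l 8)))
    (l 2))) (s0 (s2 (s0 (l 4) (s2 (l 8) (l 4))) (l 4)) (s2 (s1 (s0 (l 8) (s0 (l 8) (l 8))) (s0 (s1 (l 8) (s0 (l
    8) (l 8))) (s1 (s0 (l 8) (l 8)) (s2 (l 8) (l 2))))) (l 2))))) (s1 (s2 (s1 (s1 (s0 (l 8) (l 8)) (l 0)) (l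
    0)) (s2 (s0 (s1 (s2 (s0 (l 8) (l 8)) (s0 (l 4) (s2 (s0 (l 4) (l 8)) (l 4)))) (s2 (s1 (s0 (l 8) (l 8)) (l
    0)) (s0 (l 4) (s1 (s2 (s0 (l 8) (l 8)) (l 4)) (s2 (s1 (s0 (l 8) (l 8)) (l 0)) (s2 (s0 (l 4) (s2 (s1 (s0 (l
    4) (l 8)) (l 0)) (l 2))) (l 4))))))) (s1 (s2 (s0 (l 8) (l 8)) (s2 (s0 (s0 (l 8) (l 8)) (l 2)) (l 2))) (s2
    (s1 (l 8) (l 0)) (s2 (s0 (s1 (s0 (l 8) (l 8)) (s1 (s0 (l 8) (l 8)) (l 0))) (l 2)) (l 2))))) (s2 (s0 (s0 (l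
    4) (l 2)) (l 2)) (l 2)))) (s2 (l 0) (s2 (s1 (s1 (s2 (l 0) (s1 (s2 (l 0) (s0 (s0 (l 4) (s0 (l 4) (s2 (l 0)
    (l 2)))) (l 2))) (l 0))) (l 0)) (l 0)) (s2 (s0 (s2 (s1 (s0 (l 4) (l 2)) (l 0)) (l 2)) (l 2)) (l 2)))))) (s1
    (s2 (s0 (s1 (l 8) (l 8)) (s0 (l 8) (l 8))) (s2 (s0 (s0 (s2 (s1 (l 8) (l 8)) (l 2)) (l 2)) (l 2)) (l 2)))
    (s2 (s1 (s0 (s0 (l 8) (l 8)) (l 8)) (l 0)) (s2 (s0 (s2 (s1 (s0 (s1 (l 8) (l 8)) (l 2)) (l 0)) (l 2)) (l 2))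
    (l 2))))) (s1 (s1 (s2 (l 0) (s1 (s2 (l 0) (s2 (l 0) (l 2))) (l 0))) (l 0)) (l 0))) (l 2)))))))
def md10r : Tr := (s0 (s0 (s0 (s0 (s0 (l 66) (l 68)) (s0 (l 70) (l 72))) (s0 (s0 (l 74) (l 76)) (l 78))) (s0
    (s0 (l 80) (l 82)) (l 86))) (s0 (s0 (l 92) (l 98)) (s0 (l 102) (s0 (l 102) (s0 (l 104) (l 116))))))
def md10c : Tr := (l 0)
theorem md10_ok : mdChk md10 md10s md10r md10c = true := by decide +kernel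

end Pool.Agent.MP_b5eafd_co

end
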