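import Pool.Agent.MP_b5eafd_co.Tree
import Pool.Agent.MP_b5eafd_co.Mg.Data0
import Pool.Agent.MP_b5eafd_co.Mg.Data5
import Pool.Agent.MP_b5eafd_co.VDefs

-- part MP_b5eafd_co.Data6
section

/-! Certificate data, checked by the kernel. -/

set_option autoImplicit false
set_option maxRecDepth 100000

namespace Pool.Agent.MP_b5eafd_co
open Tr

-- u[0.9160,0.9300] C -5.2 s 1.1 K0 1.915 em 0.262 m0 0.00357 l1 0.9250 l2 1.20 V 2.206 y0 0.777 r 1.28 ka 0.6367 | leaves 414 33 2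
def md1 : MD := ⟨79228162514262873923665054925, 79228162514264647216018332058, 79228162514264876618124351242, 79228162514264411339987848528,
  79228162514264338598409617193, 79228162514264597957897407693, 79228162514264675363516003123, 79228162514264958527342574043,
  79228162514264556299600854516, 79228162514264697881514139976, 79228162514264516808661622011, 79228162514264646934543355347,
  79228162514264028252263070348, 79228162514264263846818577167, 79228162514264403740163477340,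
  79228162514264595424622617297, 79228162514264599365272291246⟩
def md1s : Tr := (s0 (s1 (l 9) (s0 (s2 (s1 (l 1) (s0 (s2 (l 0) (s1 (l 9) (l 0))) (s2 (l 0) (s1 (l 9) (l 0)))))
    (l 6)) (s2 (s1 (l 9) (s0 (s1 (l 9) (l 0)) (s1 (s1 (l 1) (l 0)) (l 0)))) (l 6)))) (s0 (s0 (s1 (l 1) (s2 (s1
    (s0 (l 9) (l 9)) (s1 (s1 (s1 (l 1) (l 0)) (l 0)) (l 0))) (l 6))) (s2 (s1 (s0 (l 1) (l 1)) (s1 (s1 (l 1) (s0
    (l 1) (l 1))) (s1 (s1 (s2 (l 0) (s0 (s0 (l 4) (l 4)) (l 4))) (l 0)) (l 0)))) (l 6))) (s2 (s0 (s1 (s1 (l 1)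
    (l 1)) (s1 (s1 (l 1) (s0 (s0 (l 1) (l 4)) (s0 (l 4) (s2 (l 4) (l 4))))) (s1 (s1 (s2 (l 0) (s0 (l 4) (s0 (l
    4) (l 4)))) (l 0)) (l 0)))) (s0 (s1 (s1 (l 1) (s0 (l 1) (l 1))) (s1 (s1 (s0 (l 1) (s0 (l 1) (s2 (s0 (l 1)
    (l 4)) (l 4)))) (s0 (s1 (s0 (l 1) (l 4)) (s2 (l 0) (l 4))) (s1 (s2 (s0 (l 4) (s2 (l 0) (s1 (l 4) (l 0))))
    (s2 (l 4) (l 4))) (s2 (l 0) (s2 (s0 (l 4) (s1 (l 4) (l 0))) (l 4)))))) (s1 (s1 (s2 (l 0) (s1 (s2 (l 0) (s0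
    (l 4) (l 4))) (l 0))) (l 0)) (l 0)))) (s1 (s0 (s1 (l 1) (s0 (l 1) (s1 (l 1) (s1 (l 1) (s0 (l 1) (s1 (l 1)
    (s2 (l 8) (s0 (l 1) (l 2))))))))) (s1 (s0 (s1 (l 1) (s0 (l 1) (l 1))) (s2 (s0 (s1 (l 8) (s0 (l 8) (l 8)))
    (s2 (s1 (s0 (l 8) (s1 (l 5) (s0 (l 8) (s1 (s1 (l 8) (l 8)) (s1 (l 8) (l 8)))))) (s0 (l 8) (s1 (s0 (l 8) (s1
    (s1 (l 8) (l 8)) (s1 (l 8) (l 8)))) (s0 (l 8) (s1 (s1 (l 8) (l 8)) (s1 (l 8) (l 8))))))) (l 2))) (l 2)))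
    (s2 (s0 (s1 (s0 (l 1) (s0 (l 8) (l 8))) (s1 (s0 (l 8) (l 8)) (s0 (l 8) (s0 (l 8) (l 8))))) (s1 (s0 (s1 (l
    8) (l 8)) (s2 (s0 (s1 (l 8) (l 8)) (s1 (s0 (l 8) (s1 (s1 (l 8) (l 8)) (l 8))) (s0 (l 8) (s1 (l 8) (l 8)))))
    (l 2))) (s0 (s1 (s0 (l 8) (s1 (l 8) (l 8))) (s0 (s1 (l 8) (l 8)) (s2 (l 8) (l 2)))) (s2 (s0 (s1 (l 8) (l
    8)) (s1 (s0 (l 8) (s1 (l 8) (l 8))) (s0 (l 8) (l 8)))) (l 2))))) (l 2)))) (s1 (s0 (s1 (s2 (s0 (s1 (l 1) (s1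
    (s0 (l 1) (l 8)) (s2 (l 0) (s0 (l 4) (s0 (l 8) (l 8)))))) (s1 (s0 (s0 (l 1) (l 8)) (s0 (l 8) (l 8))) (s0
    (s1 (l 8) (s0 (l 8) (s1 (l 8) (l 8)))) (s1 (s0 (l 8) (l 8)) (s2 (l 0) (s1 (s0 (l 8) (s0 (l 8) (l 8))) (s0
    (s0 (l 8) (s1 (l 8) (l 8))) (s3 (s2 (l 0) (s1 (s0 (l 8) (l 8)) (s3 (s0 (s0 (l 8) (s1 (l 8) (l 8))) (s2 (l
    0) (s2 (l 8) (l 2)))) (l 8)))) (l 8))))))))) (s2 (s1 (s0 (l 1) (s0 (l 4) (s2 (s0 (s1 (l 4) (l 8)) (l 2)) (l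
    2)))) (s0 (l 4) (s2 (s0 (s0 (l 4) (s2 (s1 (l 4) (s1 (l 8) (s3 (s1 (l 8) (s0 (l 8) (s2 (l 8) (l 2)))) (l
    8)))) (l 2))) (s0 (s2 (s1 (s0 (l 8) (l 8)) (s2 (s0 (s1 (l 8) (s2 (l 8) (l 2))) (l 2)) (l 2))) (l 2)) (l
    2))) (l 2)))) (l 2))) (s2 (s1 (s2 (l 0) (s1 (s1 (s0 (s2 (l 0) (s0 (l 4) (s0 (l 4) (l 8)))) (s1 (s0 (s0 (l
    8) (s0 (l 8) (l 8))) (s1 (s3 (s0 (s0 (l 8) (s2 (l 0) (l 8))) (s2 (l 0) (s1 (s3 (s2 (l 0) (s1 (s0 (s0 (l 8)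
    (s0 (l 8) (l 8))) (s2 (l 0) (l 2))) (l 0))) (l 8)) (l 0)))) (l 8)) (l 0))) (l 0))) (l 0)) (l 0))) (l 0))
    (s2 (s1 (s0 (s2 (s0 (l 4) (s1 (s0 (l 4) (l 4)) (s1 (s2 (l 0) (l 4)) (l 0)))) (l 4)) (s2 (s1 (s0 (s1 (s0 (s2
    (s2 (s0 (l 4) (s2 (s0 (l 4) (l 8)) (l 4))) (l 4)) (l 4)) (s2 (s3 (s1 (s3 (s2 (s0 (l 8) (s0 (l 8) (s1 (l 8)
    (s2 (l 8) (l 2))))) (s0 (l 4) (l 2))) (s0 (l 8) (s2 (l 8) (l 2)))) (s3 (s2 (s1 (s1 (s1 (s0 (l 8) (s1 (s0 (l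
    8) (s2 (l 0) (l 2))) (l 0))) (l 0)) (l 0)) (l 0)) (s0 (s0 (l 4) (l 2)) (l 2))) (s2 (s1 (l 8) (l 0)) (s0 (s0
    (l 4) (l 2)) (l 2))))) (s2 (l 8) (l 2))) (l 2))) (s2 (s1 (s1 (s1 (s1 (s2 (l 0) (s0 (l 4) (s2 (l 0) (l 2))))
    (l 0)) (l 0)) (l 0)) (l 0)) (l 2))) (s2 (s0 (s2 (s1 (s0 (s2 (s1 (s3 (s0 (l 8) (s2 (l 8) (l 2))) (l 8)) (l
    0)) (l 2)) (l 2)) (l 0)) (l 2)) (l 2)) (l 2))) (s2 (l 0) (l 2))) (l 2))) (s1 (s1 (s2 (l 0) (s0 (l 4) (l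
    2))) (l 0)) (l 0))) (l 2)))) (s2 (s1 (s0 (s1 (s0 (s1 (l 8) (s0 (l 8) (l 8))) (s1 (s0 (l 8) (s1 (l 8) (l
    8))) (s0 (s1 (l 8) (s2 (l 8) (s0 (l 8) (l 8)))) (s2 (l 8) (s2 (l 8) (l 2)))))) (s0 (s1 (s0 (s1 (l 8) (s1 (l
    8) (l 8))) (s1 (s1 (l 8) (l 8)) (s2 (l 0) (s0 (s1 (l 8) (l 8)) (s1 (l 8) (s3 (s2 (l 8) (s2 (l 8) (l 2))) (l
    8))))))) (s2 (l 0) (s2 (s1 (l 8) (l 0)) (s0 (s1 (s3 (s0 (s0 (l 8) (l 8)) (s2 (l 8) (l 2))) (l 8)) (s3 (s2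
    (s1 (l 8) (l 0)) (s2 (s0 (s2 (l 8) (l 2)) (l 2)) (l 2))) (s0 (l 8) (s1 (l 8) (l 8))))) (s2 (s1 (s0 (l 8) (l
    8)) (s1 (s1 (s0 (l 8) (l 8)) (l 0)) (l 0))) (l 2)))))) (s2 (s1 (l 8) (l 0)) (s2 (s1 (s0 (l 8) (s0 (l 8) (l
    8))) (s1 (s0 (l 8) (s0 (l 8) (l 8))) (l 0))) (l 2))))) (s0 (s1 (s2 (s0 (l 8) (l 8)) (s2 (s0 (s0 (l 8) (l
    8)) (l 2)) (l 2))) (s2 (s1 (s0 (l 8) (l 8)) (l 0)) (s2 (s0 (s2 (s1 (l 8) (l 0)) (l 2)) (l 2)) (l 2)))) (s2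
    (s1 (s0 (s0 (l 8) (l 8)) (s0 (l 8) (l 8))) (s0 (s1 (l 8) (l 0)) (s0 (l 8) (l 8)))) (l 2)))) (s1 (s1 (s1 (s1
    (s2 (l 0) (s1 (s2 (l 0) (s0 (s0 (s1 (s2 (l 0) (s2 (l 0) (l 2))) (l 0)) (l 2)) (l 2))) (l 0))) (l 0)) (l 0))
    (l 0)) (l 0))) (l 2))) (s1 (s1 (s2 (l 0) (s2 (l 0) (l 2))) (l 0)) (l 0)))))) (l 6))))
def md1r : Tr := (s0 (s0 (s0 (s0 (s3 (l 50) (s0 (l 50) (l 52))) (s3 (l 54) (s0 (l 54) (l 56)))) (s3 (l 60) (s0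
    (s0 (l 58) (l 58)) (s0 (l 60) (l 62))))) (s0 (s3 (l 66) (s0 (s0 (l 64) (l 66)) (s0 (l 66) (l 68)))) (s3 (l
    70) (s0 (s0 (l 68) (l 70)) (s0 (l 72) (l 72)))))) (s0 (s0 (s3 (l 74) (s0 (l 74) (l 76))) (s3 (l 76) (s0 (l
    78) (l 78)))) (s0 (s0 (s3 (l 80) (l 80)) (s0 (l 82) (l 82))) (s0 (l 82) (l 66)))))
def md1c : Tr := (s3 (l 0) (l 0))
theorem md1_ok : mdChk md1 md1s md1r md1c = true := by decide +kernel

-- u[0.8100,0.8240] C -6.6 s 1.6 K0 1.809 em 0.162 m0 0.03419 l1 1.5691 l2 0.90 V 2.127 y0 0.575 r 0.55 ka 0.3857 | leaves 421 23 2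
def md9 : MD := ⟨79228162514262479858697660006, 79228162514264787953506687386, 79228162514264846781776819913, 79228162514264383192490177462,
  79228162514264347217173404073, 79228162514264779255929907026, 79228162514264590921022989926, 79228162514264936290819413901,
  79228162514264499441655558963, 79228162514264492404781141197, 79228162514264446158442467636, 79228162514264636519969217053,
  79228162514264038666837208643, 79228162514264291994316248233, 79228162514264471012682911187,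
  79228162514264565588275085967, 79228162514264569528924759917⟩
def md9s : Tr := (s0 (s1 (l 9) (s0 (s2 (s1 (l 1) (s0 (s2 (l 0) (s1 (l 9) (l 0))) (s2 (l 0) (s1 (l 9) (l 0)))))
    (s1 (l 1) (s0 (s2 (s1 (l 9) (s0 (s2 (l 0) (s1 (l 9) (l 0))) (s2 (l 0) (s1 (l 9) (l 0))))) (l 6)) (s2 (s1 (l
    9) (s0 (s2 (l 0) (s1 (l 9) (l 0))) (s1 (l 9) (l 0)))) (l 6))))) (s2 (s1 (l 9) (s0 (s1 (l 9) (l 0)) (s1 (s1
    (l 9) (l 0)) (l 0)))) (s1 (l 9) (s1 (l 9) (s0 (s2 (s1 (s1 (l 9) (l 0)) (l 0)) (l 6)) (s2 (s1 (s1 (s1 (l 9)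
    (l 0)) (l 0)) (l 0)) (l 6)))))))) (s0 (s0 (s1 (l 1) (s1 (s1 (l 1) (l 1)) (s1 (s0 (s1 (l 9) (s2 (l 0) (s0 (l
    9) (l 3)))) (s1 (s0 (l 3) (s2 (l 3) (l 9))) (s2 (l 0) (s2 (s1 (l 3) (l 4)) (l 6))))) (s2 (l 0) (s2 (s1 (s2
    (l 0) (s1 (s0 (s0 (l 3) (l 4)) (l 4)) (l 0))) (l 0)) (l 6)))))) (s1 (s0 (l 1) (l 1)) (s1 (s1 (l 1) (s1 (l
    1) (l 1))) (s1 (s0 (s1 (s1 (l 1) (s2 (l 0) (s0 (l 3) (l 4)))) (s2 (l 0) (s2 (s0 (l 4) (l 4)) (l 6)))) (s1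
    (s2 (s0 (l 4) (l 4)) (s2 (s0 (l 4) (l 4)) (l 6))) (s2 (l 0) (s2 (s0 (l 4) (l 4)) (l 6))))) (s2 (l 0) (s2
    (s1 (s1 (s0 (l 4) (l 4)) (l 0)) (l 0)) (l 6))))))) (s0 (s1 (s1 (l 1) (s0 (l 1) (l 1))) (s1 (s0 (s1 (l 1)
    (s1 (l 1) (s0 (l 1) (s1 (l 1) (s2 (l 4) (l 4)))))) (s1 (l 1) (s2 (s0 (s0 (l 4) (l 4)) (s1 (l 1) (s0 (l 4)
    (l 4)))) (s2 (s0 (l 4) (l 4)) (l 6))))) (s1 (s0 (s2 (s1 (s0 (l 4) (l 4)) (l 0)) (s2 (s1 (l 4) (s0 (l 4) (l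
    4))) (l 6))) (s2 (s1 (s2 (l 0) (s0 (l 4) (s1 (l 4) (l 0)))) (l 0)) (s2 (s1 (l 4) (s0 (l 4) (l 4))) (l 6))))
    (s2 (l 0) (s2 (s2 (l 0) (l 2)) (l 6)))))) (s0 (s1 (s1 (l 1) (s1 (l 1) (l 1))) (s1 (s2 (s1 (s0 (l 1) (s1 (l
    1) (s0 (l 1) (s2 (s0 (l 4) (s2 (l 8) (s0 (l 4) (l 8)))) (s0 (l 4) (l 4)))))) (s0 (s1 (s2 (l 4) (l 4)) (s2
    (l 0) (s0 (l 4) (l 4)))) (s1 (s2 (s1 (s0 (l 4) (s2 (l 0) (s0 (l 4) (s0 (l 8) (l 8))))) (l 0)) (s2 (s0 (l 4)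
    (s1 (l 4) (s2 (s1 (l 4) (l 0)) (l 4)))) (l 4))) (s2 (l 0) (s2 (s1 (s0 (l 4) (s1 (s2 (l 0) (l 4)) (l 0))) (l
    0)) (s0 (l 4) (s0 (l 4) (l 4)))))))) (s2 (s2 (s1 (s0 (l 1) (l 4)) (s0 (l 4) (l 2))) (l 2)) (l 6))) (s2 (s1
    (s1 (s2 (l 0) (s1 (s2 (l 0) (s0 (l 4) (s2 (l 0) (l 4)))) (l 0))) (l 0)) (l 0)) (s1 (l 2) (l 2))))) (s2 (s1
    (s0 (s1 (l 1) (s0 (s1 (l 1) (l 1)) (s1 (l 1) (s2 (s1 (l 8) (l 8)) (s2 (s1 (s0 (l 1) (l 8)) (s0 (l 8) (l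
    8))) (l 2)))))) (s0 (s1 (s1 (l 1) (s0 (l 1) (s2 (l 8) (l 2)))) (s1 (s2 (s0 (l 8) (l 8)) (s2 (s0 (l 8) (l
    2)) (l 2))) (s2 (s0 (l 8) (l 8)) (s2 (s0 (s1 (l 8) (s0 (l 8) (l 8))) (l 2)) (l 2))))) (s2 (s1 (s0 (s1 (l 8)
    (l 8)) (s1 (s0 (l 8) (s1 (l 5) (s1 (l 5) (l 8)))) (s0 (l 8) (s1 (l 8) (l 8))))) (s0 (s1 (l 8) (l 8)) (s1
    (s0 (l 8) (s1 (l 8) (l 8))) (s0 (l 8) (l 8))))) (l 2)))) (s1 (s0 (s1 (s2 (s0 (s1 (s0 (l 1) (l 8)) (s0 (l 8)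
    (l 8))) (s1 (s0 (l 8) (l 8)) (s0 (l 8) (l 8)))) (s1 (s0 (s2 (s0 (l 1) (s1 (l 1) (l 8))) (l 4)) (s2 (s0 (s1
    (l 8) (l 8)) (s1 (l 8) (s0 (l 8) (l 8)))) (l 2))) (s0 (s2 (s1 (s2 (l 8) (l 4)) (s0 (s2 (l 4) (l 4)) (s2 (l
    8) (s2 (l 8) (l 4))))) (l 4)) (s2 (s1 (s0 (s1 (l 8) (s0 (l 8) (l 8))) (s2 (l 8) (l 2))) (s2 (s0 (l 8) (l
    8)) (s2 (s0 (s0 (l 8) (l 8)) (l 2)) (l 2)))) (l 2))))) (s1 (s2 (s1 (s0 (s0 (l 8) (l 8)) (l 8)) (l 0)) (s2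
    (s0 (s1 (s2 (s0 (s0 (l 4) (l 8)) (l 8)) (s0 (l 4) (s1 (s2 (l 8) (l 4)) (s2 (s0 (l 8) (l 8)) (l 4))))) (s2
    (s1 (s0 (s0 (l 8) (l 8)) (s0 (l 8) (l 8))) (l 0)) (s0 (s2 (s1 (l 4) (s2 (l 0) (l 4))) (l 4)) (s1 (s2 (s1
    (s0 (s0 (l 4) (l 8)) (s3 (s0 (l 8) (l 8)) (l 8))) (s3 (s2 (s0 (l 8) (l 8)) (s0 (s2 (l 8) (l 4)) (s2 (s0 (l
    8) (l 8)) (s3 (s1 (s0 (s0 (l 4) (l 8)) (s2 (l 8) (l 2))) (s2 (s0 (s0 (l 4) (l 8)) (s2 (l 8) (l 2))) (s0 (s0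
    (l 4) (s0 (l 4) (l 2))) (l 2)))) (s0 (l 8) (l 8)))))) (s0 (l 8) (l 8)))) (s2 (s0 (l 4) (s0 (l 4) (l 2))) (l
    2))) (s2 (s1 (s1 (s1 (s2 (l 0) (s3 (s1 (s2 (l 0) (s0 (l 4) (s1 (s3 (s1 (s2 (l 0) (s0 (s0 (l 4) (l 2)) (l
    2))) (l 0)) (l 8)) (l 0)))) (l 0)) (l 8))) (l 0)) (l 0)) (l 0)) (s2 (s0 (s2 (s1 (l 4) (l 0)) (l 4)) (l 2))
    (l 2))))))) (s1 (s2 (s0 (l 8) (l 8)) (s2 (s0 (s1 (s0 (l 8) (l 8)) (s0 (s0 (l 8) (l 8)) (s2 (l 8) (l 2))))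
    (l 2)) (l 2))) (s2 (s1 (s0 (l 8) (l 8)) (l 0)) (s2 (s0 (s1 (s1 (s3 (s2 (l 8) (s2 (s0 (l 8) (l 2)) (l 2)))
    (s0 (l 8) (l 8))) (s2 (s0 (l 8) (l 8)) (s2 (s0 (s2 (s0 (l 8) (l 2)) (l 2)) (l 2)) (l 2)))) (s1 (s1 (s1 (s2
    (l 0) (s2 (l 0) (l 2))) (l 0)) (l 0)) (l 0))) (l 2)) (l 2))))) (s2 (s0 (s0 (l 4) (l 2)) (l 2)) (l 2)))) (s2
    (l 0) (s2 (s1 (s1 (s2 (l 0) (s1 (s2 (l 0) (s0 (s0 (l 4) (s2 (l 0) (l 2))) (l 2))) (l 0))) (l 0)) (l 0)) (s2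
    (s1 (s2 (s0 (s0 (l 4) (l 2)) (l 2)) (l 2)) (l 2)) (l 2)))))) (s1 (s2 (s0 (s1 (l 8) (s0 (l 8) (l 8))) (s0 (l
    8) (l 8))) (s2 (s0 (s2 (s0 (s1 (l 8) (s0 (l 8) (l 2))) (l 2)) (l 2)) (l 2)) (l 2))) (s2 (s1 (s0 (s0 (l 8)
    (l 8)) (l 8)) (l 0)) (s2 (s0 (s2 (s1 (s2 (s1 (l 8) (l 0)) (l 2)) (l 0)) (l 2)) (l 2)) (l 2))))) (s1 (s1 (s2
    (l 0) (s2 (l 0) (l 2))) (l 0)) (l 0)))) (l 2))))))
def md9r : Tr := (s0 (s0 (s0 (s0 (s0 (l 64) (l 66)) (s0 (s0 (l 68) (l 68)) (s0 (l 70) (l 70)))) (s0 (s0 (s0 (l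
    72) (l 72)) (s0 (l 74) (l 74))) (s0 (l 76) (l 76)))) (s0 (s0 (l 78) (l 82)) (s0 (l 84) (l 86)))) (s0 (s0 (l
    90) (l 94)) (s0 (s0 (l 96) (l 100)) (s0 (l 104) (s0 (l 108) (l 112))))))
def md9c : Tr := (s3 (l 0) (l 0))
theorem md9_ok : mdChk md9 md9s md9r md9c = true := by decide +kernel

-- kind 0 [0.4800,0.5200] K0 1.958 em 0.311 l2 1.60+0.00 io V 2.500 r 1.050 l2min 1.392 | leaves 173 50 3
def cv4 : TD := ⟨false, 79228162514264888721548349800, 79228162514264425132261707350, 79228162514264787953506687386,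
  79228162514264337593543950336, 79228162514265041280985726976, 79228162514264633142269496525, 79228162514264683807765304443,
  79228162514263991379041121252, 79228162514264250054544718345, 79228162514264373622340969300,
  79228162514264472701532771451, 79228162514264483960531839877⟩
def cv4s : Tr := (s0 (s0 (s1 (l 1) (s0 (s2 (s1 (l 1) (s0 (s2 (l 0) (l 6)) (s2 (l 0) (l 6)))) (l 6)) (s2 (s1 (l
    9) (s0 (s2 (l 0) (l 6)) (s1 (l 9) (l 0)))) (l 6)))) (s1 (l 9) (s0 (s2 (s1 (l 9) (s2 (l 0) (l 6))) (l 6))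
    (s1 (l 9) (s2 (s2 (l 0) (l 6)) (l 6)))))) (s0 (s0 (s1 (l 1) (s2 (s2 (s1 (s1 (l 1) (l 1)) (l 0)) (l 6)) (l
    6))) (s2 (s2 (s1 (s0 (l 1) (l 1)) (s1 (s1 (l 1) (s1 (l 1) (l 0))) (l 0))) (l 6)) (l 6))) (s2 (s2 (s0 (s1
    (s1 (l 1) (s0 (l 1) (l 1))) (s1 (s1 (l 1) (s1 (l 1) (l 0))) (l 0))) (s0 (s1 (s1 (l 1) (s0 (l 1) (l 1))) (s1
    (s1 (s1 (l 1) (l 1)) (s1 (s0 (l 1) (s1 (l 1) (l 0))) (l 0))) (l 0))) (s1 (s1 (s0 (l 1) (s1 (l 7) (s0 (l 1)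
    (l 7)))) (s0 (s1 (l 1) (s0 (l 1) (l 1))) (s1 (s1 (l 7) (s0 (l 1) (l 7))) (s1 (s0 (s0 (l 1) (l 7)) (s0 (l 7)
    (l 7))) (s0 (s1 (s0 (l 1) (l 7)) (s0 (l 1) (s0 (l 7) (l 7)))) (s2 (s1 (l 7) (s0 (l 7) (l 7))) (l 2)))))))
    (s1 (s0 (s1 (s1 (s0 (l 1) (s0 (l 1) (l 1))) (s2 (s1 (s0 (l 1) (s0 (l 1) (l 7))) (l 0)) (s1 (s0 (l 1) (s0 (l
    1) (s3 (l 1) (s0 (l 1) (l 7))))) (s0 (l 1) (s3 (s0 (l 1) (s1 (s0 (l 1) (l 7)) (s2 (l 0) (l 7)))) (s1 (s0 (l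
    1) (s2 (l 7) (s0 (l 7) (l 7)))) (s2 (l 0) (s0 (s0 (l 1) (l 7)) (s2 (s1 (l 7) (l 0)) (l 2)))))))))) (s1 (s1
    (s2 (l 0) (s1 (s2 (l 0) (s1 (s0 (l 1) (s3 (s0 (l 7) (l 7)) (s0 (s0 (l 7) (l 7)) (s2 (l 0) (l 2))))) (l 0)))
    (l 0))) (l 0)) (l 0))) (s1 (s1 (s0 (s1 (s2 (s0 (l 7) (l 7)) (s3 (l 7) (s0 (l 7) (l 7)))) (s2 (s3 (l 7) (s0
    (l 7) (l 7))) (s2 (s3 (l 7) (s0 (l 7) (l 7))) (l 2)))) (s2 (s1 (s3 (l 7) (s0 (l 7) (l 7))) (s3 (s0 (l 7) (l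
    7)) (s0 (l 7) (s1 (l 7) (s0 (l 7) (l 7)))))) (l 2))) (s0 (s2 (s1 (s1 (s3 (l 7) (l 7)) (l 0)) (l 0)) (s2 (s1
    (s3 (s0 (l 7) (l 7)) (s0 (l 7) (s1 (l 7) (s0 (l 7) (l 7))))) (s1 (s3 (s0 (l 7) (l 7)) (s1 (s0 (l 7) (s2 (l
    0) (l 2))) (l 0))) (l 0))) (l 2))) (s2 (s1 (s1 (s3 (s0 (l 7) (l 7)) (s0 (l 7) (s1 (s3 (l 7) (l 7)) (l 0))))
    (l 0)) (l 0)) (l 2)))) (s1 (s2 (l 0) (s2 (l 0) (l 2))) (l 0)))) (l 0))))) (l 6)) (l 6))))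
def cv4r : Tr := (s3 (s0 (s3 (s3 (s0 (s0 (l 18) (l 12)) (s3 (s0 (l 9) (l 5)) (s0 (l 9) (l 5)))) (s0 (s0 (l 18)
    (l 12)) (s3 (s0 (l 9) (l 5)) (s0 (l 9) (l 5))))) (s3 (s0 (s0 (l 18) (l 13)) (s3 (s0 (l 9) (l 5)) (s0 (l 9)
    (l 5)))) (s0 (s0 (l 18) (l 13)) (s3 (s0 (l 9) (l 5)) (s0 (l 9) (l 5)))))) (l 0)) (s0 (s3 (s3 (s0 (s0 (l 19)
    (l 13)) (s3 (s0 (l 9) (l 5)) (s0 (l 9) (l 5)))) (s0 (s0 (l 19) (l 13)) (s3 (s0 (l 9) (l 5)) (s0 (l 10) (l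
    5))))) (s3 (s0 (s0 (l 19) (l 13)) (s3 (s0 (l 10) (l 5)) (s0 (l 10) (l 5)))) (s0 (s0 (l 19) (l 13)) (s3 (s0
    (l 10) (l 5)) (s0 (l 10) (l 5)))))) (l 0)))
def cv4c : Tr := (s3 (l 0) (s3 (l 0) (l 0)))
theorem cv4_ok : cvChk cv4 cv4s cv4r cv4c = true := by decide +kernel

-- u[0.3000,0.3560] C -6.6 s 1.3 K0 1.299 em 0.012 m0 0.01820 l1 2.7354 l2 -1.20 V 1.147 y0 0.049 r 0.02 ka 0.2093 | leaves 38 7 2
def md19 : MD := ⟨79228162514262479858697660006, 79228162514264703511013674189, 79228162514264703229538697478, 79228162514264340971243670864,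
  79228162514264342716388526470, 79228162514265107540195244665, 79228162514263999823571897549, 79228162514264660445342237458,
  79228162514264351385817809158, 79228162514264343223043484549, 79228162514264396506256575876, 79228162514264445679935007228,
  79228162514264229506871418467, 79228162514264334215562754831, 79228162514264614283446056911,
  79228162514264422036036963532, 79228162514264437798635659330⟩
def md19s : Tr := (s0 (l 9) (s0 (l 9) (s0 (s0 (l 9) (l 9)) (s0 (s1 (l 1) (s0 (l 1) (l 1))) (s2 (s0 (s1 (l 1)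
    (s1 (l 1) (l 1))) (s0 (s1 (l 1) (s0 (l 4) (s0 (l 4) (l 4)))) (s1 (s0 (s1 (l 1) (l 1)) (s0 (s1 (l 8) (s1 (l
    8) (l 8))) (s1 (s1 (l 8) (l 8)) (s1 (l 8) (l 8))))) (s1 (s0 (s0 (l 1) (s1 (l 1) (l 4))) (s1 (s0 (l 8) (l
    8)) (s0 (l 8) (l 8)))) (s1 (s1 (s1 (s0 (s0 (l 1) (l 4)) (s0 (l 8) (l 8))) (l 0)) (l 0)) (l 0)))))) (l
    6))))))
def md19r : Tr := (s0 (s0 (s0 (s0 (s3 (s0 (l 48) (l 50)) (l 48)) (l 54)) (l 62)) (l 74)) (l 96))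
def md19c : Tr := (s3 (l 0) (l 0))
theorem md19_ok : mdChk md19 md19s md19r md19c = true := by decide +kernel

end Pool.Agent.MP_b5eafd_co

end

-- part MP_b5eafd_co.Data7
section

/-! Certificate data, checked by the kernel. -/

set_option autoImplicit false
set_option maxRecDepth 100000

namespace Pool.Agent.MP_b5eafd_co
open Tr

-- u[0.9020,0.9160] C -5.8 s 1.2 K0 1.901 em 0.246 m0 0.00154 l1 1.0207 l2 0.90 V 2.211 y0 0.751 r 1.14 ka 0.5839 | leaves 395 39 2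
def md2 : MD := ⟨79228162514262705038679028531, 79228162514264675363516003123, 79228162514264872677474677293, 79228162514264406836388221157,
  79228162514264338027015414470, 79228162514264624895052678903, 79228162514264590921022989926, 79228162514264959934717457596,
  79228162514264548981251460039, 79228162514264658475017400484, 79228162514264501946782851688, 79228162514264647497493308768,
  79228162514264027689313116927, 79228162514264268350418204538, 79228162514264413591787662213,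
  79228162514264591483972943348, 79228162514264595424622617297⟩
def md2s : Tr := (s0 (s1 (l 9) (s0 (s2 (s1 (l 1) (s0 (s2 (l 0) (s1 (l 9) (l 0))) (s2 (l 0) (s1 (l 9) (l 0)))))
    (l 6)) (s2 (s1 (l 9) (s0 (s1 (l 9) (l 0)) (s1 (s1 (l 9) (l 0)) (l 0)))) (l 6)))) (s0 (s0 (s1 (l 1) (s2 (s1
    (s0 (l 9) (l 9)) (s1 (s1 (s1 (l 1) (l 0)) (l 0)) (l 0))) (l 6))) (s2 (s1 (s0 (l 1) (l 1)) (s1 (s1 (l 1) (s1
    (l 1) (l 1))) (s1 (s1 (s2 (l 0) (s0 (s0 (l 4) (l 4)) (l 4))) (l 0)) (l 0)))) (l 6))) (s2 (s0 (s1 (s1 (l 1)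
    (s0 (l 1) (l 1))) (s1 (s1 (l 1) (s0 (s0 (l 4) (l 4)) (s1 (l 1) (s2 (l 0) (l 4))))) (s1 (s1 (s2 (l 0) (s0 (l
    4) (s1 (l 4) (l 0)))) (l 0)) (l 0)))) (s0 (s1 (s1 (l 1) (s0 (l 1) (l 1))) (s1 (s1 (s0 (l 1) (s0 (l 1) (s2
    (s0 (l 4) (s1 (l 1) (l 4))) (l 4)))) (s0 (s1 (s2 (l 4) (l 4)) (s2 (l 0) (l 4))) (s1 (s2 (s0 (l 4) (s2 (l 0)
    (s1 (s0 (l 4) (l 4)) (l 0)))) (s2 (s0 (l 4) (l 4)) (l 4))) (s2 (l 0) (s2 (s0 (l 4) (s1 (s1 (l 4) (l 0)) (l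
    0))) (l 4)))))) (s1 (s1 (s2 (l 0) (s1 (s2 (l 0) (s0 (l 4) (l 4))) (l 0))) (l 0)) (l 0)))) (s1 (s0 (s1 (l 1)
    (s1 (l 1) (s0 (l 1) (s1 (l 1) (s0 (l 1) (s1 (l 1) (s2 (l 8) (s2 (s0 (l 1) (l 8)) (l 2))))))))) (s1 (s0 (s1
    (l 1) (s0 (l 1) (l 1))) (s2 (s0 (s1 (l 8) (l 8)) (s2 (s1 (s1 (l 5) (s0 (l 8) (s0 (l 8) (s2 (s1 (s0 (l 8)
    (s1 (l 5) (l 8))) (s0 (l 8) (s1 (l 8) (l 8)))) (l 2))))) (s0 (l 8) (s2 (s1 (s0 (l 8) (s1 (s0 (l 8) (s1 (l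
    8) (l 8))) (s0 (l 8) (s1 (l 8) (l 8))))) (s0 (l 8) (s1 (s0 (l 8) (l 8)) (s0 (l 8) (l 8))))) (l 2)))) (l
    2))) (l 2))) (s2 (s0 (s1 (s0 (l 1) (l 8)) (s1 (s0 (l 8) (l 8)) (s0 (l 8) (s0 (l 8) (l 8))))) (s1 (s0 (s1 (l
    8) (l 8)) (s2 (s0 (s1 (l 8) (l 8)) (s2 (s1 (s0 (l 8) (s1 (s0 (l 8) (l 8)) (s0 (l 8) (l 8)))) (s0 (l 8) (s1
    (s0 (l 8) (l 8)) (s0 (l 8) (l 8))))) (l 2))) (l 2))) (s0 (s1 (s0 (l 8) (l 8)) (s0 (s1 (l 8) (l 8)) (s2 (l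
    8) (l 2)))) (s2 (s0 (s1 (l 8) (l 8)) (s2 (s1 (s0 (l 8) (s1 (s0 (l 8) (l 8)) (l 8))) (s0 (l 8) (s1 (l 8) (l
    8)))) (l 2))) (l 2))))) (l 2)))) (s1 (s0 (s1 (s2 (s0 (s1 (s0 (l 1) (l 8)) (s1 (s0 (l 8) (l 8)) (s0 (l 8) (l
    8)))) (s1 (s0 (l 8) (s0 (l 8) (l 8))) (s0 (s1 (l 8) (s0 (l 8) (l 8))) (s1 (s0 (l 8) (l 8)) (s1 (s0 (l 8) (l
    8)) (s0 (l 8) (s1 (l 8) (s2 (l 0) (l 8))))))))) (s2 (s1 (s0 (l 4) (s2 (s0 (s0 (l 4) (l 8)) (s1 (l 8) (s0 (l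
    8) (l 8)))) (l 2))) (s0 (s1 (l 4) (s2 (s0 (l 4) (l 4)) (l 4))) (s2 (s0 (s1 (s0 (l 4) (l 8)) (s1 (s0 (l 8)
    (s2 (l 8) (l 2))) (s0 (s2 (l 8) (l 4)) (s2 (l 8) (l 2))))) (s0 (s2 (s1 (l 8) (s2 (s1 (l 8) (l 8)) (l 2)))
    (l 2)) (l 2))) (l 2)))) (l 2))) (s1 (s2 (s2 (l 0) (s1 (s1 (s0 (s0 (l 8) (l 8)) (s0 (s0 (l 8) (l 8)) (s1 (s0
    (l 8) (s1 (s0 (l 8) (l 8)) (l 0))) (l 0)))) (l 0)) (l 0))) (s2 (s0 (s1 (s2 (s0 (l 4) (s1 (s2 (s0 (l 4) (l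
    8)) (l 4)) (s2 (s1 (s0 (l 4) (l 8)) (l 0)) (l 4)))) (l 4)) (s2 (s1 (s0 (l 4) (s1 (s1 (s1 (s2 (l 0) (l 4))
    (l 0)) (l 0)) (l 0))) (l 0)) (s0 (l 4) (l 2)))) (s2 (s1 (s0 (s1 (s0 (s2 (s0 (l 8) (s0 (l 8) (l 8))) (s2 (s2
    (s0 (l 4) (s1 (l 8) (l 2))) (l 2)) (l 2))) (s2 (s3 (s1 (s0 (l 8) (l 8)) (s3 (s0 (s1 (l 8) (s0 (l 8) (s0 (l
    8) (l 8)))) (s2 (l 8) (s2 (s0 (l 8) (l 2)) (l 2)))) (l 8))) (l 8)) (l 2))) (s2 (s1 (s1 (s1 (s0 (s0 (l 8) (l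
    8)) (s3 (s1 (s3 (s2 (l 0) (s2 (l 0) (l 2))) (l 8)) (l 0)) (l 8))) (l 0)) (l 0)) (l 0)) (s0 (s2 (s2 (s1 (s0
    (s2 (s1 (l 4) (l 0)) (l 4)) (l 2)) (l 0)) (l 2)) (l 2)) (l 2)))) (s2 (s0 (s2 (s1 (s3 (s1 (s0 (l 8) (l 8))
    (s1 (s1 (s0 (l 8) (l 8)) (l 0)) (l 0))) (l 8)) (l 0)) (l 2)) (l 2)) (l 2))) (s1 (s1 (s1 (s2 (l 0) (s2 (l 0)
    (l 2))) (l 0)) (l 0)) (l 0))) (l 2))) (l 2))) (s2 (l 0) (s2 (s1 (s1 (s2 (l 0) (s2 (l 0) (l 2))) (l 0)) (l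
    0)) (l 2))))) (s2 (s1 (s0 (s1 (s0 (s1 (l 8) (l 8)) (s1 (s0 (l 8) (l 8)) (s0 (l 8) (s1 (l 8) (s2 (l 8) (s0
    (l 8) (l 8))))))) (s0 (s1 (s0 (l 8) (s1 (l 8) (l 8))) (s2 (l 0) (s0 (s1 (l 8) (s3 (s1 (l 8) (s0 (l 8) (s2
    (l 0) (s2 (l 0) (l 2))))) (l 8))) (s2 (l 8) (s2 (s1 (l 8) (s0 (l 8) (l 8))) (l 2)))))) (s1 (s2 (l 8) (s0
    (s1 (l 8) (s0 (l 8) (s2 (l 8) (l 2)))) (s2 (l 8) (l 2)))) (s2 (l 0) (s2 (s1 (s0 (l 8) (l 8)) (l 0)) (s2 (s0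
    (s0 (s2 (l 8) (l 2)) (l 2)) (l 2)) (l 2))))))) (s0 (s1 (s2 (s0 (l 8) (l 8)) (s2 (s0 (l 8) (l 2)) (l 2)))
    (s2 (s1 (s0 (l 8) (l 8)) (l 0)) (s2 (s0 (s2 (s1 (l 8) (l 0)) (l 2)) (l 2)) (l 2)))) (s2 (s0 (s1 (s0 (l 8)
    (l 8)) (s1 (s0 (l 8) (l 8)) (l 0))) (s2 (s1 (s0 (l 8) (s1 (l 8) (l 8))) (l 0)) (l 2))) (l 2)))) (s1 (s1 (s1
    (s1 (s2 (l 0) (s1 (s2 (l 0) (s0 (s1 (s2 (l 0) (s2 (l 0) (l 2))) (l 0)) (l 2))) (l 0))) (l 0)) (l 0)) (l 0))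
    (l 0))) (l 2))) (s1 (s1 (s2 (l 0) (s2 (l 0) (l 2))) (l 0)) (l 0)))))) (l 6))))
def md2r : Tr := (s0 (s0 (s0 (s0 (s3 (l 58) (s0 (l 58) (s0 (l 58) (l 60)))) (s3 (l 62) (s3 (l 62) (s0 (s0 (l
    60) (l 62)) (s0 (l 62) (l 64)))))) (s0 (s3 (l 66) (s0 (s3 (l 64) (s0 (l 64) (l 64))) (s3 (l 66) (l 66))))
    (s3 (l 68) (s0 (s0 (l 68) (l 68)) (l 70))))) (s0 (s0 (s3 (l 70) (s0 (l 70) (l 72))) (s0 (l 74) (l 74))) (s0
    (l 76) (l 78)))) (s0 (s0 (s0 (l 80) (l 82)) (s0 (l 84) (l 88))) (s0 (s0 (l 90) (l 92)) (s0 (s3 (l 92) (s0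
    (l 92) (l 98))) (s3 (l 100) (s0 (l 78) (l 0)))))))
def md2c : Tr := (s3 (l 0) (l 0))
theorem md2_ok : mdChk md2 md2s md2r md2c = true := by decide +kernel

-- u[0.8800,0.8920] C -6.0 s 1.4 K0 1.879 em 0.220 m0 0.01070 l1 1.0987 l2 1.40 V 2.201 y0 0.706 r 0.90 ka 0.5050 | leaves 413 30 2
def md4 : MD := ⟨79228162514262648743683686400, 79228162514264731658511345254, 79228162514264866485025189659, 79228162514264399518038826680,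
  79228162514264340605326201140, 79228162514264646850100862334, 79228162514264731658511345254, 79228162514264957119967690490,
  79228162514264536314877508059, 79228162514264590921022989927, 79228162514264479738407189217, 79228162514264646371593401926,
  79228162514264028815213023770, 79228162514264275668767599015, 79228162514264428509961427878,
  79228162514264585291523455713, 79228162514264588669223176241⟩
def md4s : Tr := (s0 (s1 (l 9) (s0 (s2 (s1 (l 1) (s0 (s2 (l 0) (s1 (l 9) (l 0))) (s2 (l 0) (s1 (l 9) (l 0)))))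
    (s1 (l 1) (s0 (s2 (s1 (l 9) (s0 (s2 (l 0) (l 6)) (s2 (l 0) (l 6)))) (l 6)) (s2 (s1 (l 9) (s1 (l 9) (l 0)))
    (l 6))))) (s2 (s1 (l 9) (s0 (s1 (l 9) (l 0)) (s1 (s1 (l 9) (l 0)) (l 0)))) (s1 (l 9) (s0 (s1 (l 9) (s2 (s2
    (l 0) (l 6)) (l 6))) (s2 (s1 (l 9) (s2 (l 0) (l 6))) (l 6))))))) (s0 (s0 (s1 (l 1) (s1 (s1 (l 1) (l 1)) (s1
    (s1 (s1 (l 1) (s0 (l 3) (s2 (l 0) (l 3)))) (s2 (l 0) (s2 (s2 (s2 (l 0) (l 6)) (l 6)) (l 6)))) (s2 (l 0) (s2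
    (s2 (l 0) (l 6)) (l 6)))))) (s1 (s0 (l 1) (l 1)) (s1 (s1 (l 1) (s1 (l 1) (l 1))) (s1 (s0 (s1 (s1 (l 1) (s2
    (l 0) (s0 (l 4) (l 4)))) (s2 (l 0) (s2 (s0 (l 4) (l 4)) (l 6)))) (s1 (s2 (s0 (l 4) (l 4)) (s2 (l 4) (l 6)))
    (s2 (l 0) (s2 (l 4) (l 6))))) (s2 (l 0) (s2 (s2 (l 0) (l 6)) (l 6))))))) (s0 (s1 (s1 (l 1) (s0 (l 1) (l
    1))) (s1 (s0 (s1 (l 1) (s1 (l 1) (s0 (l 1) (s1 (l 1) (s2 (l 4) (l 4)))))) (s1 (l 1) (s2 (s0 (s0 (l 4) (l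
    4)) (s1 (l 1) (s2 (l 0) (l 4)))) (s2 (s0 (l 4) (l 4)) (l 6))))) (s1 (s2 (s1 (s2 (l 0) (s0 (l 4) (s1 (l 4)
    (l 0)))) (l 0)) (s2 (s2 (s2 (s1 (s0 (l 4) (l 4)) (l 0)) (l 6)) (l 6)) (l 6))) (s2 (l 0) (s2 (s2 (l 0) (l
    6)) (l 6)))))) (s0 (s1 (s1 (l 1) (s1 (l 1) (l 1))) (s1 (s2 (s1 (s0 (l 1) (s1 (l 1) (s0 (l 1) (s2 (s1 (l 1)
    (s2 (l 0) (l 4))) (l 4))))) (s0 (s1 (s2 (l 4) (l 4)) (s2 (l 0) (s0 (l 4) (l 4)))) (s1 (s2 (s1 (s0 (l 4) (s2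
    (l 0) (s2 (l 0) (l 4)))) (l 0)) (s2 (s0 (l 4) (s2 (s0 (l 4) (l 4)) (l 4))) (l 4))) (s2 (l 0) (s2 (s1 (s0 (l
    4) (s2 (l 0) (l 4))) (l 0)) (s0 (l 4) (l 4))))))) (s2 (s2 (s0 (l 4) (l 2)) (l 6)) (l 6))) (s2 (s1 (s1 (s2
    (l 0) (s1 (s2 (l 0) (s2 (l 0) (l 4))) (l 0))) (l 0)) (l 0)) (l 2)))) (s2 (s1 (s0 (s1 (l 1) (s1 (l 1) (s0 (l
    1) (s1 (l 1) (s0 (l 1) (s2 (l 8) (s2 (s2 (l 8) (l 2)) (l 2)))))))) (s1 (s0 (s1 (l 1) (s0 (l 1) (s1 (l 1) (l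
    1)))) (s2 (s0 (s1 (l 8) (l 8)) (s2 (s1 (s1 (l 5) (s0 (l 8) (s0 (l 8) (l 8)))) (s0 (l 8) (s1 (s0 (l 8) (l
    8)) (s0 (l 8) (l 8))))) (l 2))) (l 2))) (s0 (s1 (s2 (s0 (l 8) (l 8)) (s2 (s0 (s0 (l 1) (l 1)) (l 2)) (l
    2))) (s2 (s1 (s0 (l 8) (l 8)) (s0 (l 8) (l 8))) (s2 (s1 (s0 (s0 (l 8) (l 2)) (l 2)) (l 2)) (l 2)))) (s2 (s1
    (s0 (s0 (l 8) (l 8)) (s2 (s0 (l 8) (s1 (l 8) (l 8))) (l 2))) (s0 (s1 (l 8) (s0 (l 8) (l 8))) (s2 (s0 (l 8)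
    (l 8)) (l 2)))) (l 2))))) (s1 (s0 (s1 (s1 (s2 (s0 (s0 (l 1) (l 8)) (s0 (l 8) (s0 (l 8) (l 8)))) (s2 (s0 (l
    4) (s2 (s0 (s0 (l 4) (l 8)) (s1 (l 8) (s0 (l 8) (l 8)))) (l 2))) (l 2))) (s2 (s0 (s2 (s0 (l 8) (l 8)) (s1
    (s0 (l 8) (l 8)) (s0 (l 8) (s0 (l 8) (l 8))))) (s0 (s1 (l 8) (l 8)) (s1 (l 8) (s0 (l 8) (l 8))))) (s2 (s0
    (s2 (s0 (l 4) (s1 (l 4) (s2 (s0 (l 4) (l 8)) (l 4)))) (l 4)) (s2 (s1 (s0 (s0 (l 8) (l 8)) (s2 (l 8) (l 2)))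
    (s0 (s1 (s0 (l 8) (l 8)) (s0 (s0 (l 8) (l 8)) (s1 (l 8) (s0 (l 8) (s2 (l 8) (l 2)))))) (s2 (s0 (l 8) (s0 (l
    8) (l 2))) (l 2)))) (l 2))) (l 2)))) (s2 (s1 (s2 (l 0) (s1 (s1 (s0 (s0 (l 8) (s0 (l 8) (l 8))) (s1 (s0 (l
    8) (l 8)) (l 0))) (l 0)) (l 0))) (l 0)) (s2 (s1 (s0 (s1 (s2 (s0 (s0 (l 4) (l 4)) (s1 (s2 (l 8) (s2 (s0 (l
    4) (l 8)) (l 4))) (s2 (s0 (l 8) (l 8)) (s0 (l 4) (s3 (s2 (s1 (l 8) (l 8)) (s1 (l 4) (s2 (s0 (l 4) (s1 (l 8)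
    (s1 (s0 (l 4) (l 8)) (l 0)))) (l 4)))) (s1 (l 8) (l 8))))))) (s0 (l 4) (l 4))) (s2 (s1 (s1 (s2 (l 0) (s0 (l
    4) (s1 (s0 (l 4) (s3 (s1 (s2 (l 0) (s0 (l 4) (s2 (l 0) (l 2)))) (l 0)) (l 8))) (l 0)))) (l 0)) (l 0)) (s2
    (s0 (l 4) (s2 (s0 (s0 (l 4) (l 4)) (l 2)) (l 2))) (l 4)))) (s2 (s1 (s0 (s1 (s2 (s0 (l 8) (l 8)) (s0 (s3 (s1
    (s0 (l 8) (l 8)) (s2 (l 8) (s2 (s0 (l 8) (l 2)) (l 2)))) (s0 (l 8) (l 8))) (s2 (s0 (s0 (l 8) (l 2)) (l 2))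
    (l 2)))) (s2 (s1 (s0 (l 8) (s0 (l 8) (l 8))) (l 0)) (s0 (s3 (s2 (s1 (s0 (l 8) (l 8)) (s1 (s1 (s0 (l 8) (l
    8)) (l 0)) (l 0))) (s1 (s2 (s0 (s0 (l 8) (l 2)) (l 2)) (l 2)) (l 2))) (s2 (l 8) (l 2))) (s2 (s2 (s1 (s0 (l
    8) (l 2)) (l 0)) (l 2)) (l 2))))) (s2 (s1 (s0 (s0 (l 8) (l 8)) (s2 (l 8) (l 2))) (s1 (s1 (s1 (s0 (l 8) (s0
    (l 8) (l 2))) (l 0)) (l 0)) (l 0))) (l 2))) (s1 (s1 (s1 (s2 (l 0) (s2 (l 0) (l 2))) (l 0)) (l 0)) (l 0)))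
    (l 2))) (s1 (s1 (s2 (l 0) (s2 (l 0) (l 2))) (l 0)) (l 0))) (l 2)))) (s2 (s1 (s0 (s1 (s0 (s0 (l 8) (l 8))
    (s0 (l 8) (l 8))) (s0 (s1 (l 8) (s0 (l 8) (l 8))) (s1 (s0 (l 8) (l 8)) (s0 (s1 (l 8) (l 8)) (s1 (l 8) (s2
    (l 0) (s0 (l 8) (l 8)))))))) (s0 (s1 (s0 (s1 (l 8) (l 8)) (s2 (l 8) (l 2))) (s2 (l 8) (s2 (s0 (l 8) (l 2))
    (l 2)))) (s2 (s0 (l 8) (l 8)) (l 2)))) (s1 (s1 (s1 (s0 (s0 (s1 (s0 (l 8) (l 8)) (l 0)) (s1 (s0 (s2 (l 0) (l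
    8)) (s2 (l 0) (s2 (l 0) (l 2)))) (l 0))) (s1 (s2 (l 0) (s2 (l 0) (l 2))) (l 0))) (l 0)) (l 0)) (l 0))) (l
    2))) (s1 (s1 (s2 (l 0) (s2 (l 0) (l 2))) (l 0)) (l 0)))) (l 2))))))
def md4r : Tr := (s0 (s0 (s0 (s0 (s3 (l 60) (s0 (s0 (l 58) (l 58)) (s0 (l 60) (l 60)))) (s0 (s3 (l 62) (l 62))
    (s3 (l 64) (l 64)))) (s0 (s0 (s0 (l 66) (l 66)) (l 68)) (s0 (l 70) (l 72)))) (s0 (s0 (s0 (l 72) (l 74)) (l
    76)) (s0 (l 78) (l 80)))) (s0 (s0 (s0 (l 84) (l 86)) (s0 (l 88) (l 88))) (s0 (s0 (l 90) (s0 (l 92) (l 92)))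
    (s0 (s0 (l 92) (l 92)) (s0 (l 92) (l 110))))))
def md4c : Tr := (s3 (l 0) (l 0))
theorem md4_ok : mdChk md4 md4s md4r md4c = true := by decide +kernel

-- u[0.4680,0.5800] C -8.0 s 2.1 K0 1.467 em 0.049 m0 0.04786 l1 4.3573 l2 -1.30 V 1.585 y0 0.212 r 0.11 ka 0.2305 | leaves 217 32 4
def md17 : MD := ⟨79228162514262085793730265088, 79228162514264928690995042714, 79228162514264750517334784868, 79228162514264351385817809158,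
  79228162514264351064936335708, 79228162514265564064459971678, 79228162514263971676074226483, 79228162514264783731382036726,
  79228162514264397266239012995, 79228162514264368555791388508, 79228162514264402473526082142, 79228162514264552921901133988,
  79228162514264122264905291707, 79228162514264323800988616537, 79228162514264592891347826901,
  79228162514264469323833050923, 79228162514264500849030442516⟩
def md17s : Tr := (s0 (s0 (l 9) (s1 (l 1) (l 9))) (s0 (s1 (l 9) (s1 (l 9) (s0 (s1 (l 1) (s2 (l 0) (l 9))) (s1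
    (l 1) (s2 (l 0) (s0 (l 9) (s1 (l 9) (s2 (l 0) (l 9))))))))) (s0 (s1 (s0 (l 1) (l 1)) (s1 (s0 (l 1) (l 1))
    (s0 (s1 (l 1) (s2 (l 0) (s1 (s2 (s0 (l 4) (l 4)) (l 9)) (s2 (l 0) (s0 (l 9) (l 4)))))) (s1 (s1 (l 1) (s0 (l
    1) (s0 (l 1) (s2 (l 0) (s0 (l 4) (l 4)))))) (s2 (l 0) (s2 (s1 (s0 (l 4) (l 4)) (l 0)) (s2 (s0 (l 4) (l 4))
    (l 6)))))))) (s0 (s1 (s1 (l 1) (l 1)) (s1 (s1 (l 1) (s0 (l 1) (s0 (l 1) (s1 (l 1) (s1 (l 1) (l 1)))))) (s2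
    (s1 (s1 (s0 (l 1) (s2 (l 0) (s0 (l 4) (l 4)))) (l 0)) (l 0)) (s1 (s0 (s2 (l 4) (l 4)) (s2 (s0 (l 4) (s0 (l
    4) (l 4))) (l 2))) (s2 (s1 (s0 (l 4) (s2 (l 0) (l 4))) (l 0)) (s2 (s0 (l 4) (l 2)) (l 6))))))) (s1 (s0 (s1
    (l 1) (s0 (l 1) (l 1))) (s2 (s0 (s1 (s0 (l 1) (l 1)) (s1 (s0 (l 1) (s1 (l 1) (l 8))) (s0 (s1 (l 1) (s1 (l
    1) (l 1))) (s1 (s1 (l 8) (l 8)) (s3 (l 8) (l 8)))))) (s0 (s1 (s1 (s1 (l 8) (l 8)) (s1 (l 8) (l 8))) (s1 (s1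
    (s1 (l 8) (l 8)) (s1 (l 8) (l 8))) (s2 (l 8) (s2 (l 8) (l 2))))) (s2 (s1 (s0 (l 8) (s1 (s1 (l 5) (l 8)) (l
    8))) (s0 (l 8) (l 8))) (l 2)))) (l 2))) (s0 (s1 (s2 (s1 (s0 (l 1) (s0 (l 1) (s1 (l 1) (s2 (l 8) (s2 (l 8)
    (l 4)))))) (s0 (s1 (s0 (l 1) (l 1)) (s2 (l 0) (s2 (s1 (l 4) (l 0)) (l 4)))) (s1 (s2 (s0 (l 8) (l 8)) (s3
    (s2 (s0 (l 8) (l 8)) (s0 (l 4) (s2 (l 8) (l 4)))) (s2 (s0 (l 4) (l 8)) (l 4)))) (s2 (l 0) (s2 (s1 (s3 (l 8)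
    (l 8)) (l 0)) (s3 (s0 (l 4) (s2 (s1 (l 8) (l 8)) (l 4))) (s2 (s0 (l 4) (l 4)) (l 4)))))))) (s2 (s0 (s0 (l
    4) (l 4)) (s2 (s1 (l 4) (s0 (l 4) (l 4))) (l 2))) (l 2))) (s2 (s1 (s1 (s1 (s1 (s2 (l 0) (s2 (l 0) (s0 (l 4)
    (s2 (l 0) (s2 (l 0) (l 4)))))) (l 0)) (l 0)) (l 0)) (l 0)) (s2 (s2 (s1 (s0 (s0 (l 4) (l 4)) (s2 (s0 (l 4)
    (l 2)) (l 2))) (l 0)) (l 2)) (l 2)))) (s2 (s1 (s0 (s1 (s0 (s2 (l 8) (s1 (s0 (l 8) (l 8)) (s3 (s0 (l 8) (l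
    8)) (s0 (l 8) (l 8))))) (s2 (l 8) (s1 (s0 (l 8) (l 8)) (s3 (s0 (l 8) (l 8)) (s0 (l 8) (l 8)))))) (s2 (s1 (l
    8) (l 0)) (s1 (s2 (s0 (l 8) (l 8)) (s0 (s3 (s1 (l 8) (s0 (l 8) (l 8))) (s0 (l 4) (l 8))) (s2 (l 8) (l 2))))
    (s2 (s0 (l 8) (l 8)) (s0 (s3 (s2 (s0 (l 8) (l 8)) (s2 (s1 (l 8) (s0 (l 8) (l 2))) (l 2))) (s2 (l 8) (l 2)))
    (s2 (s2 (l 8) (l 2)) (l 2))))))) (s0 (s1 (s2 (l 8) (s2 (l 8) (l 2))) (s2 (l 8) (s2 (s0 (l 8) (l 2)) (l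
    2)))) (s2 (s0 (l 8) (l 8)) (l 2)))) (s1 (s1 (s1 (s2 (l 0) (s1 (s2 (l 0) (s0 (s2 (l 0) (s2 (l 0) (l 2))) (l
    2))) (l 0))) (l 0)) (l 0)) (l 0))) (l 2))))))))
def md17r : Tr := (s0 (s0 (s0 (s3 (s0 (s3 (s0 (l 70) (s0 (l 70) (l 72))) (s0 (l 70) (l 72))) (s3 (s0 (s0 (l 74)
    (l 74)) (l 76)) (s0 (l 74) (l 76)))) (s0 (s3 (s0 (l 72) (l 72)) (s0 (s0 (l 72) (l 72)) (l 74))) (s3 (l 76)
    (l 76)))) (s3 (s0 (s0 (l 78) (l 82)) (l 84)) (s0 (l 80) (l 86)))) (s0 (s0 (l 88) (l 92)) (l 96))) (s0 (l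
    108) (s0 (l 114) (s0 (l 116) (s3 (s0 (l 116) (s3 (l 158) (l 86))) (l 88))))))
def md17c : Tr := (s3 (s3 (s3 (l 0) (l 0)) (l 0)) (l 0))
theorem md17_ok : mdChk md17 md17s md17r md17c = true := by decide +kernel

end Pool.Agent.MP_b5eafd_co

end

-- part MP_b5eafd_co.Cert
section

set_option autoImplicit false
open Finset Filter Topology

namespace Pool.Agent.MP_b5eafd_co
noncomputable section
open Classical

theorem cert_curved {θ : ℝ} (hθ : 1812 / 1000 ≤ θ) : ∃ (P : Par) (D : Finset ℝ),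
    P.β = bet θ ∧ P.u = sg θ ∧ P.ch0 = Real.cosh θ ∧ P.C = -(2 * θ) - gT (2 * θ) - bT (2 * θ) ∧
    P.OK ∧ P.RowOK D (1 / 1000) ∧ P.ScalOK ∧ P.EmOK ∧
    103 / 100 * (Real.exp P.β / P.ch0) ≤ P.V := by
  have h0 : 0 < θ := by linarith
  have hlo : vl cv0.lo ≤ θ⁻¹ := by
    have : vl cv0.lo = 0 := by norm_num [vl, cv0]
    rw [this]; positivity
  have hhi : θ⁻¹ ≤ vl cv5.hi := by
    have : θ⁻¹ ≤ (1812 / 1000 : ℝ)⁻¹ := inv_anti₀ (by norm_num) hθ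
    refine this.trans ?_
    norm_num [vl, cv5]
  rcases le_total θ⁻¹ (vl cv0.hi) with k0 | k0
  · refine cvChk_sound cv0 _ _ _ cv0_ok h0 hlo k0 (fun _ => ?_)
    have e : vl cv0.hi = 4⁻¹ := by norm_num [vl, cv0]
    rw [e] at k0
    exact (inv_le_inv₀ h0 (by norm_num)).1 k0
  rcases le_total θ⁻¹ (vl cv1.hi) with k1 | k1
  · exact cvChk_sound cv1 _ _ _ cv1_ok h0 k0 k1 (fun h => absurd h (by decide))
  rcases le_total θ⁻¹ (vl cv2.hi) with k2 | k2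
  · exact cvChk_sound cv2 _ _ _ cv2_ok h0 k1 k2 (fun h => absurd h (by decide))
  rcases le_total θ⁻¹ (vl cv3.hi) with k3 | k3
  · exact cvChk_sound cv3 _ _ _ cv3_ok h0 k2 k3 (fun h => absurd h (by decide))
  rcases le_total θ⁻¹ (vl cv4.hi) with k4 | k4
  · exact cvChk_sound cv4 _ _ _ cv4_ok h0 k3 k4 (fun h => absurd h (by decide))
  exact cvChk_sound cv5 _ _ _ cv5_ok h0 k4 hhi (fun h => absurd h (by decide))

theorem cert_lin {θ u : ℝ} (hθ : IsStar θ) (hu0 : 3 / 10 ≤ u) (hu1 : u ≤ sg θ) :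
    ∃ (P : Par) (D : Finset ℝ),
    P.β = bet θ ∧ P.u = u ∧ P.ch0 = Real.exp (2 * P.β * P.u ^ 3 / 3) ∧
    P.OK ∧ P.RowOK D 0 ∧ P.ScalOK ∧ P.EmOK ∧ P.VOK := by
  obtain ⟨b0, b1, s1, -⟩ := star_bounds hθ
  have hu : 0 < u := by linarith
  have hu' : u < 1 := by linarith
  have hβ : 0 < bet θ := by linarith
  have hb0 : vl blo ≤ bet θ := le_trans (by norm_num [vl, blo]) b0
  have hb1 : bet θ ≤ vl bhi := b1.trans (by norm_num [vl, bhi])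
  have hhi : u ≤ vl sm0.hi := (hu1.trans s1).trans (by norm_num [vl, sm0])
  have hlo : vl md19.lo ≤ u := le_trans (by norm_num [vl, md19]) hu0
  rcases le_total (vl sm0.lo) u with j0 | j0
  · exact smChk_sound sm0 _ _ _ sm0_ok hθ j0 hhi hu hu1
  rcases le_total (vl sm1.lo) u with j1 | j1
  · exact smChk_sound sm1 _ _ _ sm1_ok hθ j1 j0 hu hu1
  rcases le_total (vl md0.lo) u with k0 | k0
  · exact mdChk_sound md0 _ _ _ md0_ok hb0 hb1 k0 j1 hβ hu hu'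
  rcases le_total (vl md1.lo) u with k1 | k1
  · exact mdChk_sound md1 _ _ _ md1_ok hb0 hb1 k1 k0 hβ hu hu'
  rcases le_total (vl md2.lo) u with k2 | k2
  · exact mdChk_sound md2 _ _ _ md2_ok hb0 hb1 k2 k1 hβ hu hu'
  rcases le_total (vl md3.lo) u with k3 | k3
  · exact mdChk_sound md3 _ _ _ md3_ok hb0 hb1 k3 k2 hβ hu hu'
  rcases le_total (vl md4.lo) u with k4 | k4
  · exact mdChk_sound md4 _ _ _ md4_ok hb0 hb1 k4 k3 hβ hu hu'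
  rcases le_total (vl md5.lo) u with k5 | k5
  · exact mdChk_sound md5 _ _ _ md5_ok hb0 hb1 k5 k4 hβ hu hu'
  rcases le_total (vl md6.lo) u with k6 | k6
  · exact mdChk_sound md6 _ _ _ md6_ok hb0 hb1 k6 k5 hβ hu hu'
  rcases le_total (vl md7.lo) u with k7 | k7
  · exact mdChk_sound md7 _ _ _ md7_ok hb0 hb1 k7 k6 hβ hu hu'
  rcases le_total (vl md8.lo) u with k8 | k8
  · exact mdChk_sound md8 _ _ _ md8_ok hb0 hb1 k8 k7 hβ hu hu'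
  rcases le_total (vl md9.lo) u with k9 | k9
  · exact mdChk_sound md9 _ _ _ md9_ok hb0 hb1 k9 k8 hβ hu hu'
  rcases le_total (vl md10.lo) u with k10 | k10
  · exact mdChk_sound md10 _ _ _ md10_ok hb0 hb1 k10 k9 hβ hu hu'
  rcases le_total (vl md11.lo) u with k11 | k11
  · exact mdChk_sound md11 _ _ _ md11_ok hb0 hb1 k11 k10 hβ hu hu'
  rcases le_total (vl md12.lo) u with k12 | k12
  · exact mdChk_sound md12 _ _ _ md12_ok hb0 hb1 k12 k11 hβ hu hu'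
  rcases le_total (vl md13.lo) u with k13 | k13
  · exact mdChk_sound md13 _ _ _ md13_ok hb0 hb1 k13 k12 hβ hu hu'
  rcases le_total (vl md14.lo) u with k14 | k14
  · exact mdChk_sound md14 _ _ _ md14_ok hb0 hb1 k14 k13 hβ hu hu'
  rcases le_total (vl md15.lo) u with k15 | k15
  · exact mdChk_sound md15 _ _ _ md15_ok hb0 hb1 k15 k14 hβ hu hu'
  rcases le_total (vl md16.lo) u with k16 | k16
  · exact mdChk_sound md16 _ _ _ md16_ok hb0 hb1 k16 k15 hβ hu hu'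
  rcases le_total (vl md17.lo) u with k17 | k17
  · exact mdChk_sound md17 _ _ _ md17_ok hb0 hb1 k17 k16 hβ hu hu'
  rcases le_total (vl md18.lo) u with k18 | k18
  · exact mdChk_sound md18 _ _ _ md18_ok hb0 hb1 k18 k17 hβ hu hu'
  exact mdChk_sound md19 _ _ _ md19_ok hb0 hb1 hlo k18 hβ hu hu'

/-- numerical input for the range `u ≤ 3/10`. -/
theorem cert_small {θ : ℝ} (hθ : IsStar θ) : 2016 / 1000 ≤ bet θ ∧ bet θ ≤ 20165 / 10000 ∧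
    (Real.exp (bet θ) - 1) + 2017 / 10000 * (Real.exp (bet θ) - 1) ^ 2 ≤ Real.exp (bet θ) * bet θ := by
  obtain ⟨b0, b1, -, h⟩ := star_bounds hθ
  exact ⟨b0, b1, h⟩

end
end Pool.Agent.MP_b5eafd_co

end

-- part MP_b5eafd_co.Spec1
section

/-! Spectral package for a weighted symmetric kernel: existence and the basic identities. -/

set_option autoImplicit false
open Finset

namespace Pool.Agent.MP_b5eafd_co.SpecAux
noncomputable section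
open Classical

variable {ι : Type} [Fintype ι]

theorem mat_spec (S : ι → ι → ℝ) (hS : ∀ x y, S x y = S y x) :
    ∃ (lam : ι → ℝ) (v : ι → ι → ℝ),
      (∀ i j, ∑ y, v i y * v j y = if i = j then 1 else 0) ∧
      (∀ x y, ∑ i, v i x * v i y = if x = y then 1 else 0) ∧
      (∀ x y, S x y = ∑ i, lam i * (v i x * v i y)) := by
  have hA : (Matrix.of S).IsHermitian := by
    ext x y
    simp [Matrix.conjTranspose_apply, hS x y]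
  set V : Matrix ι ι ℝ := (hA.eigenvectorUnitary : Matrix ι ι ℝ) with hV
  have h1 : star V * V = 1 := Unitary.coe_star_mul_self hA.eigenvectorUnitary
  have h2 : V * star V = 1 := Unitary.coe_mul_star_self hA.eigenvectorUnitary
  have h3 := hA.spectral_theorem
  rw [Unitary.conjStarAlgAut_apply] at h3
  refine ⟨hA.eigenvalues, fun i y => V y i, ?_, ?_, ?_⟩
  · intro i j
    have := congrFun (congrFun h1 i) j
    simpa [Matrix.mul_apply, Matrix.one_apply, Matrix.star_apply] using this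
  · intro x y
    have := congrFun (congrFun h2 x) y
    simpa [Matrix.mul_apply, Matrix.one_apply, Matrix.star_apply] using this
  · intro x y
    have := congrFun (congrFun h3 x) y
    rw [← hV, Matrix.mul_apply] at this
    simp only [Matrix.mul_diagonal, Matrix.of_apply, Matrix.star_apply, star_trivial,
      Function.comp_apply, RCLike.ofReal_real_eq_id, id] at this
    rw [this]
    exact Finset.sum_congr rfl fun i _ => by ring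

/-- the abstract spectral package. -/
structure Pk (w : ι → ℝ) (U : ι → ι → ℝ) (lam : ι → ℝ) (psi : ι → ι → ℝ) (c : ι → ℝ) : Prop where
  orth : ∀ i j, ∑ y, w y * (psi i y * psi j y) = if i = j then 1 else 0
  dec : ∀ x y, U x y = ∑ i, (lam i * psi i x) * psi i y
  one : ∀ x, ∑ i, c i * psi i x = 1

theorem exists_pk (w : ι → ℝ) (U : ι → ι → ℝ) (hU : ∀ x y, U x y = U y x) (hw : ∀ x, 0 < w x) :
    ∃ lam psi c, Pk w U lam psi c := by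
  obtain ⟨lam, v, h1, h2, h3⟩ := mat_spec (fun x y => Real.sqrt (w x) * U x y * Real.sqrt (w y))
    (fun x y => by rw [hU x y]; ring)
  have hs : ∀ x, 0 < Real.sqrt (w x) := fun x => Real.sqrt_pos.mpr (hw x)
  have hss : ∀ x, Real.sqrt (w x) * Real.sqrt (w x) = w x := fun x => Real.mul_self_sqrt (hw x).le
  refine ⟨lam, fun i y => v i y / Real.sqrt (w y), fun i => ∑ y, Real.sqrt (w y) * v i y, ?_, ?_, ?_⟩
  · intro i j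
    rw [← h1 i j]
    refine Finset.sum_congr rfl fun y _ => ?_
    have := (hs y).ne'
    rw [← hss y, Real.sqrt_mul_self (hs y).le]
    field_simp
  · intro x y
    have hx := (hs x).ne'
    have hy := (hs y).ne'
    have : U x y = (Real.sqrt (w x) * U x y * Real.sqrt (w y)) / (Real.sqrt (w x) * Real.sqrt (w y)) := by
      field_simp
    rw [this, h3 x y, Finset.sum_div]
    refine Finset.sum_congr rfl fun i _ => ?_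
    field_simp
  · intro x
    have hx := (hs x).ne'
    have : ∀ i, (∑ y, Real.sqrt (w y) * v i y) * (v i x / Real.sqrt (w x)) =
        ∑ y, Real.sqrt (w y) / Real.sqrt (w x) * (v i y * v i x) := by
      intro i
      rw [Finset.sum_mul]
      refine Finset.sum_congr rfl fun y _ => ?_
      field_simp
    simp only [this]
    rw [Finset.sum_comm]
    simp only [← Finset.mul_sum, h2]
    simp [div_self hx]

namespace Pk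
variable {w : ι → ℝ} {U : ι → ι → ℝ} {lam : ι → ℝ} {psi : ι → ι → ℝ} {c : ι → ℝ}

theorem inner (h : Pk w U lam psi c) (t s : ι → ℝ) :
    ∑ y, w y * ((∑ i, t i * psi i y) * (∑ j, s j * psi j y)) = ∑ i, t i * s i := by
  have : ∀ y, w y * ((∑ i, t i * psi i y) * (∑ j, s j * psi j y)) =
      ∑ i, ∑ j, t i * s j * (w y * (psi i y * psi j y)) := by
    intro y
    rw [Finset.sum_mul_sum, Finset.mul_sum]
    refine Finset.sum_congr rfl fun i _ => ?_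
    rw [Finset.mul_sum]
    exact Finset.sum_congr rfl fun j _ => by ring
  simp only [this]
  rw [Finset.sum_comm]
  refine Finset.sum_congr rfl fun i _ => ?_
  rw [Finset.sum_comm]
  simp only [← Finset.mul_sum, h.orth]
  simp

theorem mean (h : Pk w U lam psi c) (t : ι → ℝ) :
    ∑ y, w y * (∑ i, t i * psi i y) = ∑ i, t i * c i := by
  rw [← h.inner t c]
  simp only [h.one, mul_one]

theorem csq (h : Pk w U lam psi c) (hw : ∑ x, w x = 1) : ∑ i, c i ^ 2 = 1 := by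
  have := h.mean c
  simp only [h.one, mul_one, hw] at this
  rw [this]
  exact Finset.sum_congr rfl fun i _ => by ring

theorem app (h : Pk w U lam psi c) (t : ι → ℝ) (x : ι) :
    ∑ y, w y * (U x y * ∑ i, t i * psi i y) = ∑ i, (lam i * t i) * psi i x := by
  simp only [h.dec x]
  rw [h.inner]
  exact Finset.sum_congr rfl fun i _ => by ring

theorem deg_eq (h : Pk w U lam psi c) (x : ι) : deg w U x = ∑ i, (lam i * c i) * psi i x := by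
  rw [← h.app c x]
  simp only [h.one, mul_one, deg]

theorem degm_eq (h : Pk w U lam psi c) (x : ι) :
    deg w U x - 1 = ∑ i, ((lam i - 1) * c i) * psi i x := by
  have : ∑ i, ((lam i - 1) * c i) * psi i x =
      ∑ i, (lam i * c i) * psi i x - ∑ i, c i * psi i x := by
    rw [← Finset.sum_sub_distrib]
    exact Finset.sum_congr rfl fun i _ => by ring
  rw [this, h.one, h.deg_eq]

theorem qf_eq (h : Pk w U lam psi c) (t s : ι → ℝ) :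
    qf w U (fun x => ∑ i, t i * psi i x) (fun x => ∑ i, s i * psi i x) = ∑ i, lam i * (t i * s i) := by
  unfold qf
  have : ∀ x, ∑ y, w x * w y * ((∑ i, t i * psi i x) * (∑ i, s i * psi i y) * U x y) =
      w x * ((∑ i, t i * psi i x) * ∑ i, (lam i * s i) * psi i x) := by
    intro x
    rw [← h.app s x, Finset.mul_sum, Finset.mul_sum]
    exact Finset.sum_congr rfl fun y _ => by ring
  simp only [this]
  rw [h.inner]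
  exact Finset.sum_congr rfl fun i _ => by ring

theorem mass_eq (h : Pk w U lam psi c) : mass w U = ∑ i, lam i * c i ^ 2 := by
  have := h.qf_eq c c
  simp only [h.one, qf, one_mul] at this
  unfold mass
  rw [this]
  exact Finset.sum_congr rfl fun i _ => by ring

theorem eta_eq (h : Pk w U lam psi c) : eta w U = ∑ i, (lam i - 1) ^ 2 * c i ^ 2 := by
  unfold eta
  simp only [h.degm_eq, sq]
  rw [h.inner]
  exact Finset.sum_congr rfl fun i _ => by ring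

theorem eUe_eq (h : Pk w U lam psi c) : eUe w U = ∑ i, lam i * ((lam i - 1) ^ 2 * c i ^ 2) := by
  unfold eUe
  simp only [h.degm_eq]
  rw [h.qf_eq]
  exact Finset.sum_congr rfl fun i _ => by ring

theorem sqK_eq (h : Pk w U lam psi c) (hU : ∀ x y, U x y = U y x) (x y : ι) :
    sqK w U x y = ∑ i, (lam i ^ 2 * psi i x) * psi i y := by
  unfold sqK
  have : ∀ z, U z y = ∑ i, (lam i * psi i y) * psi i z := fun z => by rw [hU z y, h.dec]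
  simp only [this, h.dec x]
  rw [h.inner]
  exact Finset.sum_congr rfl fun i _ => by ring

theorem tau_eq (h : Pk w U lam psi c) (hU : ∀ x y, U x y = U y x) (x : ι) :
    tau w U x = ∑ i, lam i ^ 3 * psi i x ^ 2 := by
  unfold tau
  simp only [h.sqK_eq hU x]
  rw [h.app]
  exact Finset.sum_congr rfl fun i _ => by ring

theorem sq2_eq (h : Pk w U lam psi c) (hU : ∀ x y, U x y = U y x) (x : ι) :
    sq2 w U x = ∑ i, lam i ^ 4 * psi i x ^ 2 := by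
  unfold sq2
  simp only [h.sqK_eq hU x, sq]
  rw [h.inner]
  exact Finset.sum_congr rfl fun i _ => by ring

theorem norm_one (h : Pk w U lam psi c) (i : ι) : ∑ y, w y * psi i y ^ 2 = 1 := by
  have := h.orth i i
  simp only [if_true] at this
  rw [← this]
  exact Finset.sum_congr rfl fun y _ => by ring

theorem wsum (h : Pk w U lam psi c) (f : ι → ℝ) :
    ∑ x, w x * ∑ i, f i * psi i x ^ 2 = ∑ i, f i := by
  simp only [Finset.mul_sum]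
  rw [Finset.sum_comm]
  refine Finset.sum_congr rfl fun i _ => ?_
  have : ∀ x, w x * (f i * psi i x ^ 2) = f i * (w x * psi i x ^ 2) := fun x => by ring
  simp only [this, ← Finset.mul_sum, h.norm_one, mul_one]

theorem tr2_eq (h : Pk w U lam psi c) (hU : ∀ x y, U x y = U y x) :
    tr2 w U = ∑ i, lam i ^ 2 := by
  rw [← h.wsum]
  unfold tr2
  refine Finset.sum_congr rfl fun x _ => ?_
  have h1 := h.sqK_eq hU x x
  have h2 : ∑ i, lam i ^ 2 * psi i x ^ 2 = sqK w U x x := by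
    rw [h1]; exact Finset.sum_congr rfl fun i _ => by ring
  rw [h2, sqK, Finset.mul_sum]
  exact Finset.sum_congr rfl fun y _ => by rw [hU y x]; ring

theorem tri_eq (h : Pk w U lam psi c) (hU : ∀ x y, U x y = U y x) :
    tri w U = ∑ i, lam i ^ 3 := by
  rw [← h.wsum]
  unfold tri
  refine Finset.sum_congr rfl fun x _ => ?_
  rw [← h.tau_eq hU x, tau, Finset.mul_sum]
  refine Finset.sum_congr rfl fun y _ => ?_
  rw [sqK]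
  simp only [Finset.mul_sum]
  exact Finset.sum_congr rfl fun z _ => by rw [hU y z, hU z x]; ring

theorem diag_le (h : Pk w U lam psi c) (hk : IsKer w U) (M : ℝ) (hM : ∀ x y, U x y ≤ M) (y : ι) :
    ∑ i, lam i ^ 2 * psi i y ^ 2 ≤ M ^ 2 := by
  have h1 := h.sqK_eq hk.symm y y
  have h2 : ∑ i, lam i ^ 2 * psi i y ^ 2 = sqK w U y y := by
    rw [h1]; exact Finset.sum_congr rfl fun i _ => by ring
  rw [h2, sqK]
  calc ∑ z, w z * (U y z * U z y) ≤ ∑ z, w z * M ^ 2 := by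
        refine Finset.sum_le_sum fun z _ => mul_le_mul_of_nonneg_left ?_ (hk.w_nonneg z)
        rw [sq]
        exact mul_le_mul (hM _ _) (hM _ _) (hk.nonneg _ _) ((hk.nonneg y z).trans (hM _ _))
    _ = M ^ 2 := by rw [← Finset.sum_mul, hk.w_sum, one_mul]

theorem second (h : Pk w U lam psi c) (Cc δ : ℝ)
    (h2 : ∀ a : ι → ℝ, ∑ x, w x * a x = 0 →
      qf w U a a ≤ Cc * (∑ x, w x * a x * deg w U x) ^ 2 + δ * ∑ x, w x * a x ^ 2)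
    (t : ι → ℝ) (ht : ∑ i, t i * c i = 0) :
    ∑ i, lam i * t i ^ 2 ≤ Cc * (∑ i, t i * (lam i * c i)) ^ 2 + δ * ∑ i, t i ^ 2 := by
  have := h2 (fun x => ∑ i, t i * psi i x) (by rw [h.mean, ht])
  rw [h.qf_eq] at this
  simp only [h.deg_eq, mul_assoc (w _), sq] at this
  rw [h.inner, h.inner] at this
  simpa only [sq] using this

end Pk

theorem tr2_le (w : ι → ℝ) (U : ι → ι → ℝ) (hk : IsKer w U) (M : ℝ) (hM : ∀ x y, U x y ≤ M) :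
    tr2 w U ≤ M := by
  have := hk.mass_one
  unfold mass at this
  unfold tr2
  calc ∑ x, ∑ y, w x * w y * U x y ^ 2 ≤ ∑ x, ∑ y, M * (w x * w y * U x y) := by
        refine Finset.sum_le_sum fun x _ => Finset.sum_le_sum fun y _ => ?_
        have h1 := mul_nonneg (mul_nonneg (hk.w_nonneg x) (hk.w_nonneg y)) (hk.nonneg x y)
        have h2 := mul_le_mul_of_nonneg_left (hM x y) h1
        nlinarith
    _ = M := by simp only [← Finset.mul_sum, this, mul_one]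

end
end Pool.Agent.MP_b5eafd_co.SpecAux

end

-- part MP_b5eafd_co.Spec2
section

/-! Spectral package: the second eigenpair and elementary inequalities for weighted averages. -/

set_option autoImplicit false
open Finset

namespace Pool.Agent.MP_b5eafd_co.SpecAux
noncomputable section
open Classical

variable {ι : Type} [Fintype ι]

theorem sum2 (i0 i1 : ι) (h01 : i0 ≠ i1) (f : ι → ℝ) (hf : ∀ i, i ≠ i0 → i ≠ i1 → f i = 0) :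
    ∑ i, f i = f i0 + f i1 := by
  rw [← Finset.sum_subset (Finset.subset_univ {i0, i1})]
  · rw [Finset.sum_pair h01]
  · intro i _ hi
    simp only [Finset.mem_insert, Finset.mem_singleton, not_or] at hi
    exact hf i hi.1 hi.2

theorem sum3 (i0 i1 i2 : ι) (h01 : i0 ≠ i1) (h02 : i0 ≠ i2) (h12 : i1 ≠ i2) (f : ι → ℝ)
    (hf : ∀ i, i ≠ i0 → i ≠ i1 → i ≠ i2 → f i = 0) : ∑ i, f i = f i0 + f i1 + f i2 := by
  rw [← Finset.sum_subset (Finset.subset_univ {i0, i1, i2})]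
  · rw [Finset.sum_insert (by simp [h01, h02]), Finset.sum_pair h12, add_assoc]
  · intro i _ hi
    simp only [Finset.mem_insert, Finset.mem_singleton, not_or] at hi
    exact hf i hi.1 hi.2.1 hi.2.2

theorem two_le_sum (i0 i1 : ι) (h01 : i0 ≠ i1) (f : ι → ℝ) (hf : ∀ i, 0 ≤ f i) :
    f i0 + f i1 ≤ ∑ i, f i := by
  rw [← Finset.sum_pair h01]
  exact Finset.sum_le_sum_of_subset_of_nonneg (Finset.subset_univ _) fun i _ _ => hf i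

theorem exists_ker (a0 a1 a2 b0 b1 b2 : ℝ) :
    ∃ t0 t1 t2 : ℝ, 0 < t0 ^ 2 + t1 ^ 2 + t2 ^ 2 ∧ t0 * a0 + t1 * a1 + t2 * a2 = 0 ∧
      t0 * b0 + t1 * b1 + t2 * b2 = 0 := by
  have h := LinearMap.ker_ne_bot_of_finrank_lt
    (f := Matrix.toLin' (!![a0, a1, a2; b0, b1, b2] : Matrix (Fin 2) (Fin 3) ℝ)) (by simp)
  obtain ⟨t, ht, hne⟩ := Submodule.exists_mem_ne_zero_of_ne_bot h
  rw [LinearMap.mem_ker, Matrix.toLin'_apply] at ht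
  have e0 := congrFun ht 0
  have e1 := congrFun ht 1
  simp [Matrix.mulVec, dotProduct, Fin.sum_univ_three] at e0 e1
  refine ⟨t 0, t 1, t 2, ?_, by linarith, by linarith⟩
  by_contra hc
  apply hne
  have z0 : t 0 = 0 := by nlinarith [sq_nonneg (t 0), sq_nonneg (t 1), sq_nonneg (t 2)]
  have z1 : t 1 = 0 := by nlinarith [sq_nonneg (t 0), sq_nonneg (t 1), sq_nonneg (t 2)]
  have z2 : t 2 = 0 := by nlinarith [sq_nonneg (t 0), sq_nonneg (t 1), sq_nonneg (t 2)]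
  funext i
  fin_cases i
  · exact z0
  · exact z1
  · exact z2

/-- the second order condition in spectral coordinates. -/
def Sec (lam c : ι → ℝ) (Cc δ : ℝ) : Prop :=
  ∀ t : ι → ℝ, ∑ i, t i * c i = 0 →
    ∑ i, lam i * t i ^ 2 ≤ Cc * (∑ i, t i * (lam i * c i)) ^ 2 + δ * ∑ i, t i ^ 2

theorem sec2 {lam c : ι → ℝ} {Cc δ : ℝ} (h : Sec lam c Cc δ) (i0 i1 : ι) (h01 : i0 ≠ i1)
    (t0 t1 : ℝ) (ht : t0 * c i0 + t1 * c i1 = 0) :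
    lam i0 * t0 ^ 2 + lam i1 * t1 ^ 2 ≤
      Cc * (t0 * (lam i0 * c i0) + t1 * (lam i1 * c i1)) ^ 2 + δ * (t0 ^ 2 + t1 ^ 2) := by
  have := h (fun i => if i = i0 then t0 else if i = i1 then t1 else 0) (by
    rw [sum2 i0 i1 h01 _ (fun i a b => by simp [a, b])]
    simpa [h01.symm] using ht)
  rw [sum2 i0 i1 h01 _ (fun i a b => by simp [a, b]), sum2 i0 i1 h01 _ (fun i a b => by simp [a, b]),
    sum2 i0 i1 h01 _ (fun i a b => by simp [a, b])] at this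
  simpa [h01.symm] using this

theorem sec3 {lam c : ι → ℝ} {Cc δ : ℝ} (h : Sec lam c Cc δ) (i0 i1 i2 : ι) (h01 : i0 ≠ i1)
    (h02 : i0 ≠ i2) (h12 : i1 ≠ i2) (t0 t1 t2 : ℝ) (ht : t0 * c i0 + t1 * c i1 + t2 * c i2 = 0) :
    lam i0 * t0 ^ 2 + lam i1 * t1 ^ 2 + lam i2 * t2 ^ 2 ≤
      Cc * (t0 * (lam i0 * c i0) + t1 * (lam i1 * c i1) + t2 * (lam i2 * c i2)) ^ 2
        + δ * (t0 ^ 2 + t1 ^ 2 + t2 ^ 2) := by
  have := h (fun i => if i = i0 then t0 else if i = i1 then t1 else if i = i2 then t2 else 0) (by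
    rw [sum3 i0 i1 i2 h01 h02 h12 _ (fun i a b d => by simp [a, b, d])]
    simpa [h01.symm, h02.symm, h12.symm] using ht)
  rw [sum3 i0 i1 i2 h01 h02 h12 _ (fun i a b d => by simp [a, b, d]),
    sum3 i0 i1 i2 h01 h02 h12 _ (fun i a b d => by simp [a, b, d]),
    sum3 i0 i1 i2 h01 h02 h12 _ (fun i a b d => by simp [a, b, d])] at this
  simpa [h01.symm, h02.symm, h12.symm] using this

theorem uniq {lam c : ι → ℝ} {Cc δ : ℝ} (h : Sec lam c Cc δ) (i0 i1 i2 : ι) (h01 : i0 ≠ i1)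
    (h02 : i0 ≠ i2) (h12 : i1 ≠ i2) (a0 : δ < lam i0) (a1 : δ < lam i1) : lam i2 ≤ δ := by
  by_contra a2
  push Not at a2
  obtain ⟨t0, t1, t2, hp, e1, e2⟩ :=
    exists_ker (c i0) (c i1) (c i2) (lam i0 * c i0) (lam i1 * c i1) (lam i2 * c i2)
  have := sec3 h i0 i1 i2 h01 h02 h12 t0 t1 t2 e1
  rw [e2] at this
  set m := min (lam i0) (min (lam i1) (lam i2)) with hm
  have m0 : m ≤ lam i0 := min_le_left _ _
  have m1 : m ≤ lam i1 := (min_le_right _ _).trans (min_le_left _ _)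
  have m2 : m ≤ lam i2 := (min_le_right _ _).trans (min_le_right _ _)
  have md : δ < m := lt_min a0 (lt_min a1 a2)
  have b0 := mul_le_mul_of_nonneg_right m0 (sq_nonneg t0)
  have b1 := mul_le_mul_of_nonneg_right m1 (sq_nonneg t1)
  have b2 := mul_le_mul_of_nonneg_right m2 (sq_nonneg t2)
  have b3 := mul_lt_mul_of_pos_right md hp
  nlinarith

theorem l_le {lam c : ι → ℝ} {Cc δ : ℝ} (h : Sec lam c Cc δ) (hC : 0 ≤ Cc) (i0 i1 : ι)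
    (h01 : i0 ≠ i1) (hmax : lam i1 ≤ lam i0) :
    lam i1 ≤ Cc * (∑ i, (lam i - 1) ^ 2 * c i ^ 2) + δ := by
  have he := two_le_sum i0 i1 h01 (fun i => (lam i - 1) ^ 2 * c i ^ 2) (fun i => by positivity)
  set η := ∑ i, (lam i - 1) ^ 2 * c i ^ 2 with hη
  have hη0 : 0 ≤ η := Finset.sum_nonneg fun i _ => by positivity
  by_cases hz : c i0 ^ 2 + c i1 ^ 2 = 0
  · have z1 : c i1 = 0 := by nlinarith [sq_nonneg (c i0), sq_nonneg (c i1)]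
    have := sec2 h i0 i1 h01 0 1 (by simp [z1])
    simp [z1] at this
    nlinarith [mul_nonneg hC hη0]
  · have hp : 0 < c i0 ^ 2 + c i1 ^ 2 := lt_of_le_of_ne (by positivity) (Ne.symm hz)
    have h1 := sec2 h i0 i1 h01 (c i1) (-c i0) (by ring)
    have cs : (c i1 * (lam i0 * c i0) + -c i0 * (lam i1 * c i1)) ^ 2 ≤ (c i0 ^ 2 + c i1 ^ 2) * η := by
      have e : (c i1 * (lam i0 * c i0) + -c i0 * (lam i1 * c i1)) ^ 2 =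
          (c i0 ^ 2 + c i1 ^ 2) * ((lam i0 - 1) ^ 2 * c i0 ^ 2 + (lam i1 - 1) ^ 2 * c i1 ^ 2)
            - ((lam i0 - 1) * c i0 ^ 2 + (lam i1 - 1) * c i1 ^ 2) ^ 2 := by ring
      have := mul_le_mul_of_nonneg_left he hp.le
      nlinarith [sq_nonneg ((lam i0 - 1) * c i0 ^ 2 + (lam i1 - 1) * c i1 ^ 2)]
    have h3 := mul_le_mul_of_nonneg_left cs hC
    have h4 := mul_le_mul_of_nonneg_right hmax (sq_nonneg (c i1))
    have h5 : (c i0 ^ 2 + c i1 ^ 2) * lam i1 ≤ (c i0 ^ 2 + c i1 ^ 2) * (Cc * η + δ) := by nlinarith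
    exact le_of_mul_le_mul_left h5 hp

theorem l_le2 {lam c : ι → ℝ} {Cc δ : ℝ} (h : Sec lam c Cc δ) (hδ : 0 ≤ δ) (i0 i1 : ι)
    (h01 : i0 ≠ i1) (hc : ∑ i, c i ^ 2 = 1) :
    lam i1 * c i0 ^ 2 ≤
      (1 - c i0 ^ 2) * max 0 (Cc * c i0 ^ 2 * (lam i0 - lam i1) ^ 2 - lam i0) + δ := by
  have he := two_le_sum i0 i1 h01 (fun i => c i ^ 2) (fun i => by positivity)
  rw [hc] at he
  have h1 := sec2 h i0 i1 h01 (c i1) (-c i0) (by ring)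
  set K := max 0 (Cc * c i0 ^ 2 * (lam i0 - lam i1) ^ 2 - lam i0) with hK
  have k0 : 0 ≤ K := le_max_left _ _
  have k1 : Cc * c i0 ^ 2 * (lam i0 - lam i1) ^ 2 - lam i0 ≤ K := le_max_right _ _
  have h3 := mul_le_mul_of_nonneg_left k1 (sq_nonneg (c i1))
  have h4 : c i1 ^ 2 * K ≤ (1 - c i0 ^ 2) * K := mul_le_mul_of_nonneg_right (by linarith) k0
  have h5 := mul_le_mul_of_nonneg_left he hδ
  nlinarith

/-- the split of the spectrum into the top eigenvalue, the second one and the rest. -/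
structure Split (w lam : ι → ℝ) (psi : ι → ι → ℝ) (c : ι → ℝ) (Cc δ : ℝ) (i0 : ι) (l : ℝ)
    (φ : ι → ℝ) (R : Finset ι) : Prop where
  l0 : 0 ≤ l
  small : ∀ i ∈ R, lam i ≤ δ
  s3 : ∀ g : ℝ → ℝ, g 0 = 0 → ∑ i, g (lam i) = g (lam i0) + g l + ∑ i ∈ R, g (lam i)
  s4 : ∀ (g : ℝ → ℝ) (y : ι), ∑ i, g (lam i) * psi i y ^ 2 =
    g (lam i0) * psi i0 y ^ 2 + g l * φ y ^ 2 + ∑ i ∈ R, g (lam i) * psi i y ^ 2
  s5 : ∀ i, i ≠ i0 → i ∈ R ∨ lam i = l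
  s6 : ∑ y, w y * φ y ^ 2 ≤ 1
  s7 : l ≤ Cc * (∑ i, (lam i - 1) ^ 2 * c i ^ 2) + δ
  s8 : l * c i0 ^ 2 ≤ (1 - c i0 ^ 2) * max 0 (Cc * c i0 ^ 2 * (lam i0 - l) ^ 2 - lam i0) + δ

theorem exists_split (w lam : ι → ℝ) (psi : ι → ι → ℝ) (c : ι → ℝ) (Cc δ : ℝ) (i0 : ι)
    (h : Sec lam c Cc δ) (hC : 0 ≤ Cc) (hδ : 0 ≤ δ) (hc : ∑ i, c i ^ 2 = 1)
    (hmax : ∀ i, lam i ≤ lam i0) (h0 : δ < lam i0) (hn : ∀ i, ∑ y, w y * psi i y ^ 2 = 1) :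
    ∃ l φ R, Split w lam psi c Cc δ i0 l φ R := by
  have hc0 : c i0 ^ 2 ≤ 1 := by
    rw [← hc]
    exact Finset.single_le_sum (f := fun i => c i ^ 2) (fun i _ => sq_nonneg _) (Finset.mem_univ i0)
  by_cases hex : ∃ i1, i1 ≠ i0 ∧ δ < lam i1
  · obtain ⟨i1, h10, h1⟩ := hex
    have key : ∀ f : ι → ℝ, ∑ i, f i = f i0 + f i1 + ∑ i ∈ (univ.erase i0).erase i1, f i := by
      intro f
      rw [add_assoc, Finset.add_sum_erase _ _ (by simp [h10]), Finset.add_sum_erase _ _ (by simp)]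
    refine ⟨lam i1, psi i1, (univ.erase i0).erase i1, hδ.trans h1.le, ?_, fun g _ => key _,
      fun g y => key _, ?_, (hn i1).le, l_le h hC i0 i1 h10.symm (hmax i1),
      l_le2 h hδ i0 i1 h10.symm hc⟩
    · intro i hi
      simp only [Finset.mem_erase, Finset.mem_univ, and_true] at hi
      exact uniq h i0 i1 i h10.symm (Ne.symm hi.2) (Ne.symm hi.1) h0 h1
    · intro i hi
      by_cases e : i = i1
      · right; rw [e]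
      · left; simp [hi, e]
  · push Not at hex
    have key : ∀ f : ι → ℝ, ∑ i, f i = f i0 + ∑ i ∈ univ.erase i0, f i := by
      intro f
      rw [Finset.add_sum_erase _ _ (by simp)]
    refine ⟨0, fun _ => 0, univ.erase i0, le_rfl, ?_, ?_, ?_, ?_, by simp, ?_, ?_⟩
    · intro i hi
      exact hex i (Finset.ne_of_mem_erase hi)
    · intro g hg
      rw [hg, add_zero]
      exact key _
    · intro g y
      rw [key]
      simp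
    · intro i hi
      left; simp [hi]
    · have : 0 ≤ ∑ i, (lam i - 1) ^ 2 * c i ^ 2 := Finset.sum_nonneg fun i _ => by positivity
      positivity
    · have : 0 ≤ (1 - c i0 ^ 2) * max 0 (Cc * c i0 ^ 2 * (lam i0 - 0) ^ 2 - lam i0) :=
        mul_nonneg (by linarith) (le_max_left _ _)
      linarith

/-! ### weighted averages -/

theorem avg_mul (E : Finset ι) (lam c : ι → ℝ) :
    ∑ i ∈ E, lam i * c i ^ 2 =
      (∑ i ∈ E, c i ^ 2) * ((∑ i ∈ E, lam i * c i ^ 2) / ∑ i ∈ E, c i ^ 2) := by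
  by_cases hz : ∑ i ∈ E, c i ^ 2 = 0
  · rw [hz, zero_mul]
    rw [Finset.sum_eq_zero_iff_of_nonneg (fun i _ => sq_nonneg _)] at hz
    exact Finset.sum_eq_zero fun i hi => by rw [hz i hi, mul_zero]
  · field_simp

theorem avg_le (E : Finset ι) (lam c g : ι → ℝ) (x α β : ℝ)
    (hx : ∑ i ∈ E, lam i * c i ^ 2 = (∑ i ∈ E, c i ^ 2) * x)
    (hg : ∀ i ∈ E, g i ≤ α + β * (lam i - x)) :
    ∑ i ∈ E, g i * c i ^ 2 ≤ (∑ i ∈ E, c i ^ 2) * α := by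
  calc ∑ i ∈ E, g i * c i ^ 2 ≤ ∑ i ∈ E, ((α - β * x) * c i ^ 2 + β * (lam i * c i ^ 2)) := by
        refine Finset.sum_le_sum fun i hi => ?_
        have := mul_le_mul_of_nonneg_right (hg i hi) (sq_nonneg (c i))
        linarith
    _ = (∑ i ∈ E, c i ^ 2) * α := by
        rw [Finset.sum_add_distrib, ← Finset.mul_sum, ← Finset.mul_sum, hx]
        ring

theorem avg_hi (E : Finset ι) (lam c : ι → ℝ) (hi : ℝ) (h0 : 0 ≤ hi) (h : ∀ i ∈ E, lam i ≤ hi) :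
    (∑ i ∈ E, lam i * c i ^ 2) / (∑ i ∈ E, c i ^ 2) ≤ hi := by
  apply div_le_of_le_mul₀ (Finset.sum_nonneg fun i _ => sq_nonneg _) h0
  rw [Finset.mul_sum]
  exact Finset.sum_le_sum fun i hi' => mul_le_mul_of_nonneg_right (h i hi') (sq_nonneg _)

theorem avg_lo (E : Finset ι) (lam c : ι → ℝ) (μ : ℝ) (h0 : 0 ≤ μ) (h : ∀ i ∈ E, -μ ≤ lam i) :
    -μ ≤ (∑ i ∈ E, lam i * c i ^ 2) / (∑ i ∈ E, c i ^ 2) := by
  have := avg_hi E (fun i => -lam i) c μ h0 (fun i hi => by linarith [h i hi])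
  simp only [neg_mul, Finset.sum_neg_distrib, neg_div] at this
  linarith

theorem cube_le (R : Finset ι) (lam : ι → ℝ) :
    (∑ i ∈ R, lam i ^ 3) ^ 2 ≤ (∑ i ∈ R, lam i ^ 2) ^ 3 := by
  have h1 := Finset.sum_mul_sq_le_sq_mul_sq R (fun i => lam i) (fun i => lam i ^ 2)
  have e : ∑ i ∈ R, lam i ^ 3 = ∑ i ∈ R, lam i * lam i ^ 2 :=
    Finset.sum_congr rfl fun i _ => by ring
  set T := ∑ i ∈ R, lam i ^ 2 with hT
  have T0 : 0 ≤ T := Finset.sum_nonneg fun i _ => sq_nonneg _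
  have h2 : ∑ i ∈ R, (lam i ^ 2) ^ 2 ≤ T * T := by
    rw [hT, Finset.sum_mul]
    refine Finset.sum_le_sum fun i hi => ?_
    rw [sq (lam i ^ 2)]
    exact mul_le_mul_of_nonneg_left
      (Finset.single_le_sum (f := fun i => lam i ^ 2) (fun i _ => sq_nonneg _) hi) (sq_nonneg _)
  have h3 := mul_le_mul_of_nonneg_left h2 T0
  rw [e]
  calc _ ≤ _ := h1
    _ ≤ T * (T * T) := h3
    _ = T ^ 3 := by ring

theorem neg_bound (R : Finset ι) (lam : ι → ℝ) (δ μ : ℝ) (hδ : 0 ≤ δ) (hμ : 0 ≤ μ)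
    (hs : ∀ i ∈ R, lam i ≤ δ)
    (h : δ * ∑ i ∈ R, lam i ^ 2 - ∑ i ∈ R, lam i ^ 3 ≤ μ ^ 3) : ∀ i ∈ R, -μ ≤ lam i := by
  intro i hi
  have h1 := Finset.single_le_sum (f := fun i => δ * lam i ^ 2 - lam i ^ 3)
    (fun j hj => by nlinarith [mul_le_mul_of_nonneg_right (hs j hj) (sq_nonneg (lam j))]) hi
  rw [Finset.sum_sub_distrib, ← Finset.mul_sum] at h1
  by_contra hc
  push Not at hc
  have h2 : μ ^ 3 < (-lam i) ^ 3 := pow_lt_pow_left₀ (by linarith) hμ (by norm_num)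
  nlinarith [mul_nonneg hδ (sq_nonneg (lam i))]

theorem pt_le (s δ μ : ℝ) (hδ : 0 ≤ δ) (hμ : 0 ≤ μ) (h1 : s ≤ δ) (h2 : -μ ≤ s) :
    s ^ 3 * (s + μ) ≤ δ * (δ + μ) * s ^ 2 := by
  have : s * (s + μ) ≤ δ * (δ + μ) := by
    rcases le_total s 0 with h | h
    · have : s * (s + μ) ≤ 0 := mul_nonpos_of_nonpos_of_nonneg h (by linarith)
      have : 0 ≤ δ * (δ + μ) := by positivity
      linarith
    · exact mul_le_mul h1 (by linarith) (by linarith) hδ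
  nlinarith [mul_le_mul_of_nonneg_right this (sq_nonneg s)]

theorem cubic_le (A L x s hi μ : ℝ) (hL : 0 ≤ L) (h1 : s ≤ hi) (h2 : -μ ≤ s) :
    (A + L * s) * (s - 1) ^ 2 ≤
      ((A + L * x) * (1 - x) ^ 2 + max 0 (A + L * (hi - 2 * (1 - x))) * ((hi - x) * (x + μ)))
        + ((L * (1 - x) ^ 2 - 2 * (A + L * x) * (1 - x))
          + max 0 (A + L * (hi - 2 * (1 - x))) * ((hi - x) - (x + μ))) * (s - x) := by
  set K := max 0 (A + L * (hi - 2 * (1 - x))) with hK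
  have k0 : 0 ≤ K := le_max_left _ _
  have k1 : A + L * (hi - 2 * (1 - x)) ≤ K := le_max_right _ _
  have k2 : A + L * (s - 2 * (1 - x)) ≤ K := by nlinarith [mul_le_mul_of_nonneg_left h1 hL]
  have e : (A + L * s) * (s - 1) ^ 2 = (A + L * x) * (1 - x) ^ 2
      + (L * (1 - x) ^ 2 - 2 * (A + L * x) * (1 - x)) * (s - x)
      + (A + L * (s - 2 * (1 - x))) * (s - x) ^ 2 := by ring
  have h3 := mul_le_mul_of_nonneg_right k2 (sq_nonneg (s - x))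
  have h4 : (s - x) ^ 2 ≤ (hi - x) * (x + μ) + ((hi - x) - (x + μ)) * (s - x) := by
    nlinarith [mul_nonneg (sub_nonneg.mpr h1) (show 0 ≤ s + μ by linarith)]
  have h5 := mul_le_mul_of_nonneg_left h4 k0
  rw [e]
  nlinarith

end
end Pool.Agent.MP_b5eafd_co.SpecAux

end

-- part MP_b5eafd_co.Spec
section

/-
HINTS. S x y = sqrt(w x) U x y sqrt(w y) is a real symmetric matrix (Matrix.IsHermitian; eigenvalues lam_i, eigenvectorBasis v_i); psi_i y = v_i y / sqrt(w y).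
First prove an abstract package: lam : iota -> Real, psi : iota -> iota -> Real with sum_y w psi_i psi_j = delta_ij, U x y = sum_i lam_i psi_i x psi_i y,
completeness sum_i psi_i x psi_i y = delta_xy / w x.  c_i = sum w psi_i; sum c_i^2 = 1; sum lam_i c_i^2 = 1; d = sum lam_i c_i psi_i; sqK = sum lam^2 psi psi;
tau y = sum lam^3 psi_i y^2; sq2 y = sum lam^4 psi_i y^2; tr2 = sum lam^2; tri = sum lam^3; eta = sum (lam-1)^2 c^2; eUe = sum lam (lam-1)^2 c^2;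
for a = sum_i t_i psi_i: E a = sum t c, E[a d] = sum t lam c, qf a a = sum lam t^2, E a^2 = sum t^2.
i0 = argmax lam (lam_i0 >= 1); psi = +- psi_i0 with c >= 0; om = 1 - c^2; x = (sum_{i<>i0} lam_i c_i^2)/om (= 0 if om = 0, Lean division does it; then lam = 1).
At most one i <> i0 has lam_i > delta: else 3 orthonormal vectors, a nonzero combination t (cross product of the two constraint vectors, or rank argument)
has E a = 0 = E[a d], and qf a a > delta E a^2.  l, phi = that eigenpair, or (0, 0).  All other eigenvalues are <= delta.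
l <= Cc eta + delta and the next bound: a = c1 psi0 - c0 psi1 (if it is 0 then c0 = c1 = 0: use a = psi0 or psi1); E[a d] = E[a (d-1)], Cauchy-Schwarz.
 qf = lam c1^2 + l c0^2, E[a d] = c0 c1 (lam - l), c1^2 <= om.
(sum_rest |lam|^3)^2 <= (sum_rest lam^2)^3.  Every lam_i >= -mu: |lam_i|^3 <= S + sum_{rest, pos} lam^3 <= S + delta tr2, tr2 <= M.
Pointwise: lam^3 (lam+mu) <= 0 on [-mu,0], <= delta (delta+mu) lam^2 on [0,delta], sum lam^2 psi_i y^2 = sum_z w U y z^2 <= M^2.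
Last: h(s) = (A + L s)(1-s)^2, h(s) - h(x) - h'(x)(s-x) = (s-x)^2 (A + L - 3L(1-x) + L(s-x)) <= (s-x)^2 max 0 (A + L(l+delta-2(1-x))) for s <= l + delta,
and sum_{i<>i0} c_i^2 (lam_i - x)^2 <= om (l+delta-x)(x+mu) because (l+delta-lam_i)(lam_i+mu) >= 0.
-/

set_option autoImplicit false
open Finset Filter Topology

namespace Pool.Agent.MP_b5eafd_co
noncomputable section
open Classical

variable {ι : Type} [Fintype ι]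

theorem spec (w : ι → ℝ) (U : ι → ι → ℝ) (hk : IsKer w U) (hw : ∀ x, 0 < w x) (Cc δ M : ℝ)
    (hC : 0 ≤ Cc) (hδ0 : 0 ≤ δ) (hδ1 : δ < 1) (hM : ∀ x y, U x y ≤ M)
    (h2 : ∀ a : ι → ℝ, ∑ x, w x * a x = 0 →
      qf w U a a ≤ Cc * (∑ x, w x * a x * deg w U x) ^ 2 + δ * ∑ x, w x * a x ^ 2) :
    ∃ (c x l lam : ℝ) (ψ φ : ι → ℝ), 0 ≤ c ∧ c ≤ 1 ∧ 0 ≤ l ∧ 1 ≤ lam ∧
      (lam - 1) * c ^ 2 = (1 - c ^ 2) * (1 - x) ∧ x ≤ l + δ ∧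
      (1 - c ^ 2) * (1 - x) ^ 2 ≤ eta w U ∧ l ≤ Cc * eta w U + δ ∧
      l * c ^ 2 ≤ (1 - c ^ 2) * max 0 (Cc * c ^ 2 * (lam - l) ^ 2 - lam) + δ ∧
      x ^ 2 ≤ tr2 w U - 1 ∧ lam ^ 2 + l ^ 2 ≤ tr2 w U ∧
      (0 ≤ lam ^ 3 + l ^ 3 - tri w U →
        (lam ^ 3 + l ^ 3 - tri w U) ^ 2 ≤ (tr2 w U - lam ^ 2 - l ^ 2) ^ 3) ∧
      ∑ y, w y * ψ y ^ 2 = 1 ∧ ∑ y, w y * φ y ^ 2 ≤ 1 ∧ ∑ y, w y * ψ y = c ∧
      ∑ y, w y * (deg w U y * ψ y) = lam * c ∧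
      ∀ μ : ℝ, 0 ≤ μ → lam ^ 3 + l ^ 3 - tri w U + δ * M ≤ μ ^ 3 →
        -μ ≤ x ∧
        (∀ y, sq2 w U y + μ * tau w U y ≤
          lam ^ 3 * (lam + μ) * ψ y ^ 2 + l ^ 3 * (l + μ) * φ y ^ 2 + δ * (δ + μ) * M ^ 2) ∧
        ∀ A L : ℝ, 0 ≤ L → A * eta w U + L * eUe w U ≤
          (A + L * lam) * (lam - 1) ^ 2 * c ^ 2 + (1 - c ^ 2) * ((A + L * x) * (1 - x) ^ 2
            + max 0 (A + L * (l + δ - 2 * (1 - x))) * ((l + δ - x) * (x + μ))) := by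
  obtain ⟨lam, psi, c, h⟩ := SpecAux.exists_pk w U hk.symm hw
  have hc : ∑ i, c i ^ 2 = 1 := h.csq hk.w_sum
  have hm : ∑ i, lam i * c i ^ 2 = 1 := by rw [← h.mass_eq, hk.mass_one]
  have hne : (univ : Finset ι).Nonempty := by
    by_contra hn
    rw [Finset.not_nonempty_iff_eq_empty] at hn
    rw [hn] at hc
    simp at hc
  obtain ⟨i0, -, hmax⟩ := Finset.exists_max_image univ lam hne
  replace hmax : ∀ i, lam i ≤ lam i0 := fun i => hmax i (Finset.mem_univ i)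
  have h1 : 1 ≤ lam i0 := by
    calc (1 : ℝ) = ∑ i, lam i * c i ^ 2 := hm.symm
      _ ≤ ∑ i, lam i0 * c i ^ 2 :=
        Finset.sum_le_sum fun i _ => mul_le_mul_of_nonneg_right (hmax i) (sq_nonneg _)
      _ = lam i0 := by rw [← Finset.mul_sum, hc, mul_one]
  obtain ⟨l, φ, R, hS⟩ := SpecAux.exists_split w lam psi c Cc δ i0 (h.second Cc δ h2) hC hδ0 hc hmax
    (lt_of_lt_of_le hδ1 h1) h.norm_one
  have key : ∀ f : ι → ℝ, ∑ i, f i = f i0 + ∑ i ∈ univ.erase i0, f i := by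
    intro f
    rw [Finset.add_sum_erase _ _ (by simp)]
  set E := univ.erase i0 with hE
  have hom : ∑ i ∈ E, c i ^ 2 = 1 - c i0 ^ 2 := by
    have := key (fun i => c i ^ 2)
    linarith
  have hom0 : 0 ≤ 1 - c i0 ^ 2 := hom ▸ Finset.sum_nonneg fun i _ => sq_nonneg _
  set x := (∑ i ∈ E, lam i * c i ^ 2) / (∑ i ∈ E, c i ^ 2) with hxdef
  have hx : ∑ i ∈ E, lam i * c i ^ 2 = (∑ i ∈ E, c i ^ 2) * x := SpecAux.avg_mul E lam c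
  have hhi : ∀ i ∈ E, lam i ≤ l + δ := by
    intro i hi
    rcases hS.s5 i (Finset.ne_of_mem_erase hi) with hr | hr
    · linarith [hS.small i hr, hS.l0]
    · linarith
  have htr := h.tr2_eq hk.symm
  have hti := h.tri_eq hk.symm
  have hs2 := hS.s3 (fun s => s ^ 2) (by simp)
  have hs3 := hS.s3 (fun s => s ^ 3) (by simp)
  have hR2 : 0 ≤ ∑ i ∈ R, lam i ^ 2 := Finset.sum_nonneg fun i _ => sq_nonneg _
  obtain ⟨s, hs, hsc⟩ : ∃ s : ℝ, s ^ 2 = 1 ∧ 0 ≤ s * c i0 := by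
    rcases le_total 0 (c i0) with hh | hh
    · exact ⟨1, by ring, by linarith⟩
    · exact ⟨-1, by ring, by linarith⟩
  have hcs : (s * c i0) ^ 2 = c i0 ^ 2 := by rw [mul_pow, hs, one_mul]
  have hps : ∀ y, (s * psi i0 y) ^ 2 = psi i0 y ^ 2 := fun y => by rw [mul_pow, hs, one_mul]
  have hsingle : ∀ y, s * psi i0 y = ∑ i, (if i = i0 then s else 0) * psi i y := fun y => by simp
  refine ⟨s * c i0, x, l, lam i0, fun y => s * psi i0 y, φ, hsc, ?_, hS.l0, h1, ?_,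
    SpecAux.avg_hi E lam c (l + δ) (add_nonneg hS.l0 hδ0) hhi, ?_, ?_, ?_, ?_, ?_, ?_, ?_, hS.s6,
    ?_, ?_, ?_⟩
  · nlinarith
  · rw [hcs]
    have := key (fun i => lam i * c i ^ 2)
    rw [hm, hx, hom] at this
    linarith
  · rw [hcs, h.eta_eq, key, ← hom]
    have := SpecAux.avg_le E lam c (fun i => -(lam i - 1) ^ 2) x (-(1 - x) ^ 2) (2 * (1 - x)) hx
      (fun i _ => by nlinarith [sq_nonneg (lam i - x)])
    simp only [neg_mul, Finset.sum_neg_distrib, mul_neg] at this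
    have h0 : 0 ≤ (lam i0 - 1) ^ 2 * c i0 ^ 2 := by positivity
    linarith
  · rw [h.eta_eq]
    exact hS.s7
  · rw [hcs]
    exact hS.s8
  · have hB : 0 ≤ ∑ i ∈ E, lam i ^ 2 := Finset.sum_nonneg fun i _ => sq_nonneg _
    have hb : ∀ i ∈ E, |lam i| ≤ Real.sqrt (∑ i ∈ E, lam i ^ 2) := fun i hi =>
      Real.abs_le_sqrt (Finset.single_le_sum (f := fun i => lam i ^ 2) (fun i _ => sq_nonneg _) hi)
    have u1 := SpecAux.avg_hi E lam c _ (Real.sqrt_nonneg _) (fun i hi => (abs_le.mp (hb i hi)).2)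
    have u2 := SpecAux.avg_lo E lam c _ (Real.sqrt_nonneg _) (fun i hi => (abs_le.mp (hb i hi)).1)
    have u3 : x ^ 2 ≤ Real.sqrt (∑ i ∈ E, lam i ^ 2) ^ 2 := sq_le_sq' u2 u1
    rw [Real.sq_sqrt hB] at u3
    have u4 := key (fun i => lam i ^ 2)
    rw [htr, u4]
    nlinarith
  · rw [htr, hs2]
    linarith
  · intro _
    have := SpecAux.cube_le R lam
    have e1 : lam i0 ^ 3 + l ^ 3 - tri w U = -∑ i ∈ R, lam i ^ 3 := by rw [hti, hs3]; ring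
    have e2 : tr2 w U - lam i0 ^ 2 - l ^ 2 = ∑ i ∈ R, lam i ^ 2 := by rw [htr, hs2]; ring
    rw [e1, e2, neg_sq]
    exact this
  · simp only [hps]
    exact h.norm_one i0
  · simp only [hsingle]
    rw [h.mean]
    simp
  · simp only [hsingle, h.deg_eq]
    rw [h.inner]
    simp
    ring
  · intro μ hμ hcube
    have hT := SpecAux.tr2_le w U hk M hM
    have hlo0 : ∀ i ∈ R, -μ ≤ lam i := by
      refine SpecAux.neg_bound R lam δ μ hδ0 hμ hS.small ?_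
      have e1 : lam i0 ^ 3 + l ^ 3 - tri w U = -∑ i ∈ R, lam i ^ 3 := by rw [hti, hs3]; ring
      have e2 : ∑ i ∈ R, lam i ^ 2 ≤ M := by
        rw [htr, hs2] at hT
        nlinarith [sq_nonneg (lam i0), sq_nonneg l]
      have := mul_le_mul_of_nonneg_left e2 hδ0
      linarith
    have hlo : ∀ i ∈ E, -μ ≤ lam i := by
      intro i hi
      rcases hS.s5 i (Finset.ne_of_mem_erase hi) with hr | hr
      · exact hlo0 i hr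
      · linarith [hS.l0]
    refine ⟨SpecAux.avg_lo E lam c μ hμ hlo, ?_, ?_⟩
    · intro y
      have e1 : sq2 w U y + μ * tau w U y = ∑ i, lam i ^ 3 * (lam i + μ) * psi i y ^ 2 := by
        rw [h.sq2_eq hk.symm, h.tau_eq hk.symm, Finset.mul_sum, ← Finset.sum_add_distrib]
        exact Finset.sum_congr rfl fun i _ => by ring
      have e2 := hS.s4 (fun s => s ^ 3 * (s + μ)) y
      have e3 := hS.s4 (fun s => s ^ 2) y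
      have e4 := h.diag_le hk M hM y
      have e5 : ∑ i ∈ R, lam i ^ 3 * (lam i + μ) * psi i y ^ 2 ≤
          δ * (δ + μ) * ∑ i ∈ R, lam i ^ 2 * psi i y ^ 2 := by
        rw [Finset.mul_sum]
        refine Finset.sum_le_sum fun i hi => ?_
        have := mul_le_mul_of_nonneg_right
          (SpecAux.pt_le (lam i) δ μ hδ0 hμ (hS.small i hi) (hlo0 i hi)) (sq_nonneg (psi i y))
        linarith
      have e6 : ∑ i ∈ R, lam i ^ 2 * psi i y ^ 2 ≤ M ^ 2 := by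
        have a1 : 0 ≤ lam i0 ^ 2 * psi i0 y ^ 2 := by positivity
        have a2 : 0 ≤ l ^ 2 * φ y ^ 2 := by positivity
        linarith
      have e7 := mul_le_mul_of_nonneg_left e6 (show 0 ≤ δ * (δ + μ) by positivity)
      simp only [hps]
      rw [e1, e2]
      linarith
    · intro A L hL
      have e1 : A * eta w U + L * eUe w U = ∑ i, (A + L * lam i) * (lam i - 1) ^ 2 * c i ^ 2 := by
        rw [h.eta_eq, h.eUe_eq, Finset.mul_sum, Finset.mul_sum, ← Finset.sum_add_distrib]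
        exact Finset.sum_congr rfl fun i _ => by ring
      have e2 := SpecAux.avg_le E lam c (fun i => (A + L * lam i) * (lam i - 1) ^ 2) x _ _ hx
        (fun i hi => SpecAux.cubic_le A L x (lam i) (l + δ) μ hL (hhi i hi) (hlo i hi))
      rw [e1, key, hcs, ← hom]
      linarith

end
end Pool.Agent.MP_b5eafd_co

end
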