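import Pool.Agent.MP_b5eafd_co.CDefs
import Pool.Agent.MP_b5eafd_co.Mg.Data0
import Pool.Agent.MP_b5eafd_co.Mg.Spec
import Pool.Agent.MP_b5eafd_co.Kern
import Pool.Agent.MP_b5eafd_co.CoreB
import Pool.Agent.MP_b5eafd_co.VDefs

-- part MP_b5eafd_co.Core
section

/-
HINTS (uses only the STATEMENTS of Two, Spec, Kern).  beta = P.beta, a = P.a, t0 = 1 - u^3, d = deg, e = d - 1, Pk = sqK, ch = exp(beta - nu),
Y x y = log U + beta - nu, exp Y = ch U, Y = beta (1 - Pk) + r, |r| <= delta (el).  0 <= Pk <= L1^2, d <= L1, E = weighted sums, Ud x = sum_y w y Pk x y = sum_z w U x z d z.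
E e = 0, E_x[Ud - 1] = eta, E_x[e (Ud - 1)] = eta + eUe.  nu >= -1 (nu field, ent_nonneg, tri_nonneg) so ch <= exp(beta+1).
row: beta tau = beta t0 - 2 e + r2, |r2| <= (beta+1) delta;  tau >= 0 gives e <= a + dl, dl = (beta+1) delta.  E[(a + dl - e)(e + em)] >= 0 gives eta <= (a+dl) em.
E_y[U Y] = beta (d - tau) + E[U r] = beta u^3 + (beta+2) e + r3, |r3| <= delta (L1 + beta + 1).
deg_lower: average (y - y0 - 1) exp y >= - exp y0 over the row; divide by ch; 1/ch <= (1+2 delta)/ch0.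
core: apply spec with Cc = 6 + 4 beta tri (<= 6 + 8a + 4 beta delta), M = L1, mu = P.mu delta l lam (mu >= u, mu^3 >= u^3 + 3u^2 (mu - u)).
 Row inequality: for x pick Delta in D from RowOK at e x; average two_point over y:
   0 <= E Y^2 - C E Y + dC - ch (aC d + bC E[UY]),  E Y^2 <= beta^2 (1 - 2 Ud + sq2) + delta (2 beta (1 + L1^2) + 1),  ch bE >= ch0 (1-delta) bE,
   aC, bC, bE, TE are bounded uniformly over Delta in the finite set D and e in [-1, a + beta + 1]  (K may be any existential bound).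
   Result: TE/beta^2 + 1 + L (Ud - 1) <= sq2 + K1 delta.  With the pointwise bound of spec:
   R0 x := Kt psi^2 + l^3 (l+mu) phi^2 - mu (t0 - 2e/beta) - 1 - L (Ud - 1) - TE/beta^2 >= - K2 delta (1 + mu).
 Multiply by rho = a + dl - e >= 0 and average: 0 <= E[(a-e) R0] + dl E[R0] + K2 delta (1+mu)(a+dl),  E[R0] <= Kt + l^3(l+mu) + sup|TE|/beta^2.
 E[(a-e) psi^2] = a + 1 - E[d psi^2];  d psi^2 >= 2 (d + s e) psi - (d + 2 s e + s^2 e^2/d)  (it is d (psi - g)^2 >= 0, g = 1 + s e/d, d >= 1 - em > 0),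
   so E[d psi^2] >= 2 lam c + 2 s (lam-1) c - 1 - s^2 E[e^2/d];  Kt >= 1 + u >= K0, (Kt - K0) e^2/d <= (Kt-K0) e^2/(1-em);  E[(a-e) phi^2] <= a + em.
 RowOK averaged: K0 s^2 E[e^2/d] - E[(a-e) TE]/beta^2 <= -a u^4 - m0 + l2 eta.  Collect: E[(a-e) R0] <= a(Kt - 1 - mu t0 - u^4) + l^3(l+mu)(a+em)
   + At eta + L eUe - Kt (2(1+s)(lam-1)c - 2(1-c)) - m0, and the last clause of spec with A = At, L = L.
 Second conclusion (unweighted double average, Delta0): E Y^2 <= beta^2 (-1 - 2 eta + E sq2) + .., E Y = -beta eta +- delta, E[UY] = beta u^3 +- (beta+1) delta,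
   E sq2 <= Kt + l^3(l+mu) - mu tri + delta(delta+mu) L1^2, and -2 beta^2 eta + C beta eta = - beta^2 L eta <= 0.
tr2_le_of_pt: value_pt with u0 = exp(-r), M = exp(beta - 2 beta u^3/3), averaged.
-/

set_option autoImplicit false
open Finset Filter Topology

namespace Pool.Agent.MP_b5eafd_co
noncomputable section
open Classical

theorem fT_zero (C : ℝ) {Δ : ℝ} (h : 0 < Δ) : fT C Δ (yT C Δ) = 0 ∧ fT C Δ (yT C Δ + Δ) = 0 := by
  have hd := (detT_pos h).ne'
  have e1 : (aC C Δ + bC C Δ * yT C Δ) * Real.exp (yT C Δ) = gT Δ := by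
    unfold aC bC
    rw [Real.exp_neg]
    have := (Real.exp_pos (yT C Δ)).ne'
    field_simp
    ring
  have e2 : (aC C Δ + bC C Δ * (yT C Δ + Δ)) * Real.exp (yT C Δ + Δ)
      = (gT Δ + bT Δ * Δ) * Real.exp Δ := by
    unfold aC bC
    rw [Real.exp_neg, Real.exp_add]
    have := (Real.exp_pos (yT C Δ)).ne'
    field_simp
    ring
  have e3 : (gT Δ + bT Δ) * Δ + Δ ^ 2 + gT Δ - (gT Δ + bT Δ * Δ) * Real.exp Δ = 0 := by
    unfold gT bT
    field_simp
    unfold detT
    ring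
  constructor
  · unfold fT
    rw [e1]
    unfold dC
    ring
  · unfold fT
    rw [e2]
    unfold dC
    have e4 : 2 * yT C Δ = C + gT Δ + bT Δ := by unfold yT; ring
    linear_combination e3 + Δ * e4

theorem U_le_exp {ι : Type} [Fintype ι] {w : ι → ℝ} {U : ι → ι → ℝ} {β ν δ : ℝ} (hβ : 0 ≤ β)
    (h : Crit w U β ν δ) (x y : ι) : U x y ≤ Real.exp (ν + δ) := by
  have h1 := (abs_le.1 (h.el x y)).2
  have h2 := mul_nonneg hβ (CoreAux.sqK_nonneg h.adm.1 x y)
  rw [← Real.exp_log (h.upos x y)]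
  exact Real.exp_le_exp.2 (by linarith)

theorem tr2_le_of_le {ι : Type} [Fintype ι] {w : ι → ℝ} {U : ι → ι → ℝ} (h : IsKer w U) {M : ℝ}
    (hM : ∀ x y, U x y ≤ M) : tr2 w U ≤ M := by
  have h1 : tr2 w U ≤ ∑ x, ∑ y, M * (w x * w y * U x y) := by
    refine sum_le_sum fun x _ => sum_le_sum fun y _ => ?_
    have h2 := mul_nonneg (mul_nonneg (h.w_nonneg x) (h.w_nonneg y)) (h.nonneg x y)
    have h3 := mul_le_mul_of_nonneg_left (hM x y) h2
    nlinarith
  have h4 := h.mass_one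
  simp only [mass] at h4
  simp only [← mul_sum] at h1
  rw [h4, mul_one] at h1
  exact h1

theorem tr2_le_of_VOK (P : Par) (hP : P.OK) (hch : P.ch0 = Real.exp (2 * P.β * P.u ^ 3 / 3))
    (hV : P.VOK) {ι : Type} [Fintype ι] {w : ι → ℝ} {U : ι → ι → ℝ} (h : IsKer w U)
    (hM : ∀ x y, U x y ≤ Real.exp (P.β - 2 * P.β * P.u ^ 3 / 3))
    (he : ent w U ≤ P.β * P.u ^ 3 / 3) : tr2 w U ≤ P.V := by
  rcases hV with hV | ⟨r, κ, hr, hκ, hκ1, hv1, hv2⟩
  · refine le_trans (tr2_le_of_le h hM) ?_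
    rw [hch, ← Real.exp_sub] at hV
    exact hV
  · have hβ := hP.β_pos
    have hu3 : P.u ^ 3 ≤ 1 := pow_le_one₀ hP.u_pos.le hP.u_lt.le
    have hu0M : Real.exp (-r) ≤ Real.exp (P.β - 2 * P.β * P.u ^ 3 / 3) :=
      Real.exp_le_exp.2 (by nlinarith)
    have hpt : ∀ x y, (-(r * Real.exp (-r)) - (1 - r) * Real.exp (-r) + κ * Real.exp (-r) ^ 2)
        + ((1 - r) - 2 * κ * Real.exp (-r)) * U x y + κ * U x y ^ 2 + 0 * U x y
          ≤ U x y * Real.log (U x y) := by
      intro x y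
      have h1 := value_pt (Real.exp (-r)) κ (Real.exp (P.β - 2 * P.β * P.u ^ 3 / 3)) (U x y)
        (Real.exp_pos _) hκ.le hκ1 (h.nonneg x y) (hM x y) hu0M
        (by rw [Real.log_exp, Real.log_exp]; linarith)
      rw [Real.log_exp] at h1
      nlinarith
    have hrow : ∀ x, (-(r * Real.exp (-r)) - (1 - r) * Real.exp (-r) + κ * Real.exp (-r) ^ 2)
        + ((1 - r) - 2 * κ * Real.exp (-r)) * deg w U x
        + κ * CoreAux.E w (fun y => U x y ^ 2) + 0 * deg w U x
          ≤ CoreAux.E w (fun y => U x y * Real.log (U x y)) := by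
      intro x
      have h1 := CoreAux.E_mono h.w_nonneg (hpt x)
      rw [CoreAux.E_lin3 h.w_sum] at h1
      exact h1
    have h2 := CoreAux.E_mono h.w_nonneg hrow
    rw [CoreAux.E_lin3 h.w_sum, CoreAux.sum_deg h] at h2
    have e1 : CoreAux.E w (fun x => CoreAux.E w (fun y => U x y ^ 2)) = tr2 w U := by
      simp only [CoreAux.E, tr2, mul_sum]
      exact sum_congr rfl fun x _ => sum_congr rfl fun y _ => by ring
    have e2 : CoreAux.E w (fun x => CoreAux.E w (fun y => U x y * Real.log (U x y))) = ent w U := by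
      simp only [CoreAux.E, ent, mul_sum]
      exact sum_congr rfl fun x _ => sum_congr rfl fun y _ => by ring
    rw [e1, e2] at h2
    have h3 : κ * tr2 w U ≤ κ * P.V := by nlinarith
    exact le_of_mul_le_mul_left h3 hκ

theorem deg_lower (P : Par) (hP : P.OK) (hem : P.EmOK) : ∃ δ0 : ℝ, 0 < δ0 ∧
    ∀ δ : ℝ, 0 ≤ δ → δ ≤ δ0 → ∀ (ι : Type) [Fintype ι] (w : ι → ℝ) (U : ι → ι → ℝ) (ν : ℝ),
      Crit w U P.β ν δ → |tri w U - (1 - P.u ^ 3)| ≤ δ → P.ch0 * (1 - δ) ≤ Real.exp (P.β - ν) →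
      ∀ x, -P.em ≤ deg w U x - 1 := by
  obtain ⟨y0, hy1, hy2⟩ := hem
  have hβ := hP.β_pos
  have hc0 := hP.ch_pos
  have hL := CoreAux.L1_pos
  set g := y0 + 1 - P.β * P.u ^ 3 - Real.exp y0 / P.ch0 + P.em * (P.β + 1 - y0) with hg
  have hg0 : 0 < g := by linarith
  set A := 2 * (Real.exp y0 / P.ch0) + (L1 + P.β + 1) with hA
  have hA0 : 0 < A := by positivity
  refine ⟨min (1 / 2) (g / A), lt_min (by norm_num) (div_pos hg0 hA0), ?_⟩
  intro δ hδ0 hδ ι _ w U ν h ht hch x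
  have hδ1 : δ ≤ 1 / 2 := le_trans hδ (min_le_left _ _)
  have hδ2 : δ * A ≤ g := (le_div_iff₀ hA0).1 (le_trans hδ (min_le_right _ _))
  have hk := h.adm.1
  set ch := Real.exp (P.β - ν) with hchdef
  have hch0 : 0 < ch := Real.exp_pos _
  have hpt : ∀ y, -(Real.exp y0 / ch) ≤ 0 + 1 * (U x y * (Real.log (U x y) + P.β - ν))
      + (-(y0 + 1)) * U x y + 0 * U x y := by
    intro y
    have h1 := Real.add_one_le_exp (y0 - (Real.log (U x y) + P.β - ν))
    have h2 := CoreAux.exp_Y h x y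
    rw [← hchdef] at h2
    have h3 : Real.exp y0 = Real.exp (y0 - (Real.log (U x y) + P.β - ν)) * (ch * U x y) := by
      rw [← h2, ← Real.exp_add]; congr 1; ring
    have h4 : Real.exp y0 / ch = Real.exp (y0 - (Real.log (U x y) + P.β - ν)) * U x y := by
      rw [h3]; field_simp
    have h5 := mul_le_mul_of_nonneg_right h1 (hk.nonneg x y)
    rw [h4]
    nlinarith
  have h1 := CoreAux.E_mono hk.w_nonneg hpt
  rw [CoreAux.E_const hk.w_sum, CoreAux.E_lin3 hk.w_sum, ← CoreAux.deg_eq] at h1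
  have h2 := (abs_le.1 (CoreAux.UY_bound h hβ.le hδ0 ht x)).2
  have h3 : Real.exp y0 / ch ≤ (1 + 2 * δ) * (Real.exp y0 / P.ch0) := by
    have h4 : P.ch0 ≤ (1 + 2 * δ) * ch := by
      have h5 := mul_le_mul_of_nonneg_left hch (show 0 ≤ 1 + 2 * δ by linarith)
      have h6 : 0 ≤ P.ch0 * (δ * (1 - 2 * δ)) := by
        have : 0 ≤ 1 - 2 * δ := by linarith
        positivity
      nlinarith
    rw [div_le_iff₀ hch0]
    have h7 : Real.exp y0 = Real.exp y0 / P.ch0 * P.ch0 := by field_simp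
    have h8 : 0 ≤ Real.exp y0 / P.ch0 := by positivity
    have h9 := mul_le_mul_of_nonneg_left h4 h8
    nlinarith
  have h4 : (P.β + 1 - y0) * (-P.em) ≤ (P.β + 1 - y0) * (deg w U x - 1) := by
    rw [hA, hg] at hδ2
    nlinarith
  exact le_of_mul_le_mul_left h4 hy1

theorem core (P : Par) (hP : P.OK) (D : Finset ℝ) (δ1 : ℝ) (hrow : P.RowOK D δ1)
    (Δ0 : ℝ) (hΔ0 : 0 < Δ0) :
    ∃ K : ℝ, 0 ≤ K ∧ ∀ δ : ℝ, 0 ≤ δ → δ ≤ 1 / 2 → (P.β + 1) * δ ≤ δ1 →
      ∀ (ι : Type) [Fintype ι] (w : ι → ℝ) (U : ι → ι → ℝ) (ν : ℝ),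
      Crit w U P.β ν δ → |tri w U - (1 - P.u ^ 3)| ≤ δ → P.ch0 * (1 - δ) ≤ Real.exp (P.β - ν) →
      (∀ x, -P.em ≤ deg w U x - 1) → tr2 w U ≤ P.V →
      ∃ c x l lam : ℝ, P.Cons δ c x l lam ∧
        0 ≤ P.v δ c x l lam
          + δ * K * (1 + P.mu δ l lam + P.Kt δ l lam + l ^ 3 * (l + P.mu δ l lam)) ∧
        ∑ x', ∑ y', w x' * w y' * fT P.C Δ0 (Real.log (U x' y') + P.β - ν) ≤
          P.β ^ 2 * (P.Kt δ l lam - 1 - P.mu δ l lam * (1 - P.u ^ 3) + l ^ 3 * (l + P.mu δ l lam))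
            + δ * K * (1 + P.mu δ l lam) + dC P.C Δ0 - Real.exp (P.β - ν) * P.bE Δ0 0 := by
  have hβ := hP.β_pos
  have ha := CoreAux.a_pos P hP
  have hL := CoreAux.L1_pos
  have hc0 := hP.ch_pos
  have hem0 := hP.em_nonneg
  have hu3 : P.u ^ 3 ≤ 1 := pow_le_one₀ hP.u_pos.le hP.u_lt.le
  set SG := ∑ Δ ∈ D, CoreAux.G P Δ with hSG
  have hSG0 : 0 ≤ SG := sum_nonneg fun Δ _ => CoreAux.G_nonneg P hP Δ
  set B := SG / P.β ^ 2 with hB
  have hB0 : 0 ≤ B := by positivity
  set K2 := B + (P.β + 1) / P.β + L1 ^ 2 with hK2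
  have hK20 : 0 ≤ K2 := by positivity
  have hKr0 := CoreAux.Kr_nonneg hβ.le P.C Δ0
  set Ka := (P.β + 1) * (1 + B) + K2 * (P.a + P.β + 1) with hKa
  have hKa0 : 0 ≤ Ka := by positivity
  set Kb := CoreAux.Kr P.β P.C Δ0 + P.β ^ 2 * ((P.β + 1) / P.β + L1 ^ 2) with hKb
  have hKb0 : 0 ≤ Kb := by positivity
  refine ⟨Ka + Kb, by positivity, ?_⟩
  intro δ hδ0 hδ1 hδ2 ι _ w U ν h ht hch hem hV
  have hk := h.adm.1
  have htri := tri_nonneg hk
  obtain ⟨c, x, l, lam, ψ, φ, c0, c1, l0, lam1, rel, xl, heta, hlup, hlc, hxV, hlamV, hSV, hψ, hφ,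
    hc, hlam, hμ⟩ := spec w U hk h.wpos (6 + 4 * P.β * tri w U) δ L1 (by positivity) hδ0
      (by linarith) h.adm.2 h.second
  obtain ⟨hmu1, hmu2⟩ := CoreAux.mu_facts P hP hδ0 l0 lam1
  have ht' := abs_le.1 ht
  set μ := P.mu δ l lam with hμdef
  have hμ0 : 0 ≤ μ := le_trans hP.u_pos.le hmu1
  obtain ⟨hxmu, hpt, hlast⟩ := hμ μ hμ0 (by linarith only [hmu2, ht'.1])
  set dl := (P.β + 1) * δ with hdl
  have hdl0 : 0 ≤ dl := by positivity
  have hdl1 : dl ≤ P.β + 1 := by rw [hdl]; nlinarith only [hβ, hδ1, hδ0]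
  have htau : ∀ y, |P.β * tau w U y - (P.β * (1 - P.u ^ 3) - 2 * (deg w U y - 1))| ≤ dl :=
    fun y => CoreAux.tau_bound h hβ.le ht y
  have ha2 : P.β * (1 - P.u ^ 3) = 2 * P.a := by unfold Par.a; ring
  have hup : ∀ y, deg w U y - 1 ≤ P.a + dl := by
    intro y
    have h1 := (abs_le.1 (htau y)).2
    have h2 := mul_nonneg hβ.le (CoreAux.tau_nonneg hk y)
    linarith only [h1, h2, ha2, hdl0]
  have heta0 := CoreAux.eta_nonneg hk
  have hetaup : eta w U ≤ (P.a + dl) * P.em := by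
    have h1 : ∀ y, (deg w U y - 1) ^ 2 ≤ (P.a + dl) * P.em + (P.a + dl - P.em) * (deg w U y - 1) := by
      intro y
      have h2 := mul_nonneg (sub_nonneg.2 (hup y)) (show 0 ≤ deg w U y - 1 + P.em by linarith only [hem y])
      linarith only [h2]
    have h3 := CoreAux.E_mono hk.w_nonneg h1
    rw [CoreAux.E_add, CoreAux.E_const hk.w_sum, CoreAux.E_cmul, CoreAux.sum_e hk,
      ← CoreAux.eta_eq] at h3
    linarith only [h3]
  have hCc : 6 + 4 * P.β * tri w U ≤ 6 + 8 * P.a + 4 * P.β * δ := by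
    have h1 := mul_le_mul_of_nonneg_left ht'.2 hβ.le
    linarith only [h1, ha2]
  have hCc0 : 0 ≤ 6 + 4 * P.β * tri w U := by positivity
  have hc2 : 0 ≤ 1 - c ^ 2 := by nlinarith only [c0, c1]
  have hKt : 1 + P.u ≤ P.Kt δ l lam := by
    have h1 : 1 ≤ lam ^ 3 := one_le_pow₀ lam1
    have h2 : 1 + P.u ≤ lam + μ := by linarith only [lam1, hmu1]
    have h3 := hP.u_pos
    have h4 := mul_le_mul h1 h2 (by linarith only [h3]) (by linarith only [h1])
    rw [one_mul] at h4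
    exact h4
  have hKtdef : P.Kt δ l lam = lam ^ 3 * (lam + μ) := rfl
  set Kt := P.Kt δ l lam with hKtd
  have hKt0 : 0 ≤ Kt := by linarith only [hP.u_pos, hKt]
  set Lq := l ^ 3 * (l + μ) with hLq
  have hLq0 : 0 ≤ Lq := by positivity
  -- the pointwise bound on `sq2`
  have hsq : ∀ y, sq2 w U y ≤ Kt * ψ y ^ 2 + Lq * φ y ^ 2
      - μ * ((1 - P.u ^ 3) - 2 * P.β⁻¹ * (deg w U y - 1))
      + δ * (1 + μ) * ((P.β + 1) / P.β + L1 ^ 2) := by
    intro y
    have h1 := hpt y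
    rw [← hKtdef] at h1
    have h2 := (abs_le.1 (htau y)).1
    have h3 : (1 - P.u ^ 3) - 2 * P.β⁻¹ * (deg w U y - 1) - δ * ((P.β + 1) / P.β) ≤ tau w U y := by
      have h4 : (1 - P.u ^ 3) - 2 * P.β⁻¹ * (deg w U y - 1) - δ * ((P.β + 1) / P.β)
          = (P.β * (1 - P.u ^ 3) - 2 * (deg w U y - 1) - dl) / P.β := by
        rw [hdl]; field_simp
      rw [h4, div_le_iff₀ hβ]
      linarith only [h2]
    have h5 := mul_le_mul_of_nonneg_left h3 hμ0
    have h6 : δ * (δ + μ) * L1 ^ 2 ≤ δ * (1 + μ) * L1 ^ 2 := by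
      have : δ + μ ≤ 1 + μ := by linarith only [hδ1]
      gcongr
    have h7 : 0 ≤ δ * ((P.β + 1) / P.β) := by positivity
    linarith only [h1, h5, h6, h7]
  refine ⟨c, x, l, lam, ⟨c0, c1, l0, lam1, rel, xl, hxmu, le_trans heta hetaup, ?_, ?_, ?_, ?_, ?_⟩,
    ?_, ?_⟩
  · have h1 := mul_le_mul hCc hetaup heta0 (le_trans hCc0 hCc)
    linarith only [h1, hlup]
  · have h1 : (6 + 4 * P.β * tri w U) * c ^ 2 * (lam - l) ^ 2 - lam
        ≤ (6 + 8 * P.a + 4 * P.β * δ) * c ^ 2 * (lam - l) ^ 2 - lam := by gcongr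
    have h2 := mul_le_mul_of_nonneg_left (max_le_max_left 0 h1) hc2
    linarith only [h2, hlc]
  · linarith only [hxV, hV]
  · linarith only [hlamV, hV]
  · have hV0 : 0 ≤ P.V - lam ^ 2 - l ^ 2 := by linarith only [hlamV, hV]
    rcases le_total (lam ^ 3 + l ^ 3 - (1 - P.u ^ 3) - δ) 0 with h1 | h1
    · rw [max_eq_left h1]
      have := pow_nonneg hV0 3
      simpa using this
    · rw [max_eq_right h1]
      have h2 : lam ^ 3 + l ^ 3 - (1 - P.u ^ 3) - δ ≤ lam ^ 3 + l ^ 3 - tri w U := by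
        linarith only [ht'.2]
      have h3 := hSV (le_trans h1 h2)
      have h4 := pow_le_pow_left₀ h1 h2 2
      have h5 : (tr2 w U - lam ^ 2 - l ^ 2) ^ 3 ≤ (P.V - lam ^ 2 - l ^ 2) ^ 3 :=
        pow_le_pow_left₀ (by linarith only [hlamV]) (by linarith only [hV]) 3
      linarith only [h3, h4, h5]
  · choose Δ hΔD hΔpos hbE hcert using fun y : ι => hrow (deg w U y - 1) (hem y)
      (le_trans (hup y) (by linarith only [hδ2]))
    have hG : ∀ y, CoreAux.G P (Δ y) ≤ SG := fun y =>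
      single_le_sum (f := CoreAux.G P) (fun Δ _ => CoreAux.G_nonneg P hP Δ) (hΔD y)
    have hbb : ∀ y, P.bE (Δ y) (deg w U y - 1) ≤ CoreAux.Bb P (Δ y) := fun y =>
      le_trans (le_abs_self _) (CoreAux.bE_abs_le P hP (Δ y)
        (by linarith only [CoreAux.deg_nonneg hk y]) (by linarith only [hup y, hdl1]))
    have hβ2 : 0 < P.β ^ 2 := by positivity
    have hTB : ∀ y, -(P.TE (Δ y) (deg w U y - 1) / P.β ^ 2) ≤ B := by
      intro y
      rw [hB, ← neg_div]
      refine div_le_div_of_nonneg_right ?_ hβ2.le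
      have h1 := hG y
      have h2 := CoreAux.Kr_nonneg hβ.le P.C (Δ y)
      have h3 := mul_nonneg hc0.le (CoreAux.Bb_nonneg P hP (Δ y))
      have h4 := mul_pos hc0 (hbE y)
      have h5 := le_abs_self (dC P.C (Δ y))
      unfold CoreAux.G at h1
      unfold Par.TE
      linarith only [h1, h2, h3, h4, h5]
    have hR : ∀ y, 0 ≤ Kt * ψ y ^ 2 + Lq * φ y ^ 2
        - μ * ((1 - P.u ^ 3) - 2 * P.β⁻¹ * (deg w U y - 1)) - 1
        - P.L * (CoreAux.Ud w U y - 1) - P.TE (Δ y) (deg w U y - 1) / P.β ^ 2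
        + δ * (1 + μ) * K2 := by
      intro y
      have h1 := CoreAux.row_fT P hP h hδ0 (by linarith only [hδ1]) ht (Δ y) y
      have h2 : 0 ≤ CoreAux.E w (fun z => fT P.C (Δ y) (Real.log (U y z) + P.β - ν)) :=
        CoreAux.E_nonneg hk.w_nonneg fun z => (two_point P.C (hΔpos y) _).1
      have h3 := mul_le_mul_of_nonneg_right hch (hbE y).le
      have h4 := mul_le_mul_of_nonneg_left (hbb y) (mul_nonneg hδ0 hc0.le)
      have h5 := mul_le_mul_of_nonneg_left (hG y) hδ0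
      have h6 : 0 ≤ δ * |dC P.C (Δ y)| := by positivity
      have h7 : P.TE (Δ y) (deg w U y - 1)
          ≤ P.β ^ 2 * (sq2 w U y - 1 - P.L * (CoreAux.Ud w U y - 1)) + δ * SG := by
        unfold CoreAux.G at h5
        unfold Par.TE
        linarith only [h1, h2, h3, h4, h5, h6]
      have h8 : P.TE (Δ y) (deg w U y - 1) / P.β ^ 2
          ≤ sq2 w U y - 1 - P.L * (CoreAux.Ud w U y - 1) + δ * B := by
        rw [div_le_iff₀ hβ2, hB]
        have : (sq2 w U y - 1 - P.L * (CoreAux.Ud w U y - 1) + δ * (SG / P.β ^ 2)) * P.β ^ 2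
            = P.β ^ 2 * (sq2 w U y - 1 - P.L * (CoreAux.Ud w U y - 1)) + δ * SG := by
          field_simp
        rw [this]
        exact h7
      have h9 := hsq y
      have h10 : 0 ≤ δ * μ * B := by positivity
      rw [hK2]
      linarith only [h8, h9, h10]
    have hmain := CoreAux.scalar_avg hk.w_nonneg hk.w_sum (deg w U) ψ φ (CoreAux.Ud w U)
      (fun y => P.TE (Δ y) (deg w U y - 1) / P.β ^ 2) P.a P.em dl (δ * (1 + μ) * K2) Kt P.K0 Lq μ
      (1 - P.u ^ 3) P.β⁻¹ P.L P.s c lam (eta w U) (eUe w U) B (-(P.a * P.u ^ 4) - P.m0) P.l1 P.l2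
      (CoreAux.sum_deg hk) rfl (CoreAux.sum_Ud hk) (CoreAux.sum_e_Ud hk) hψ hφ hc hlam hem hP.em_lt
      hup (by positivity) hdl0 hKt0 (le_trans hP.K0_le hKt) hLq0 hμ0 (by linarith only [hu3]) hP.L_nonneg hTB
      (fun y => by have := hcert y; rw [mul_div_assoc (P.a - (deg w U y - 1))] at this; exact this)
      hR
    have hAt : P.At δ l lam = P.L * (1 - P.a) - 2 * μ * P.β⁻¹ + P.l2
        + (Kt - P.K0) * P.s ^ 2 / (1 - P.em) := by
      unfold Par.At
      rw [← hμdef, ← hKtd, div_eq_mul_inv (2 * μ)]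
    rw [← hAt] at hmain
    have h1 := hlast (P.At δ l lam) P.L hP.L_nonneg
    have h2 : dl * (Kt + Lq + B) + δ * (1 + μ) * K2 * (P.a + dl)
        ≤ δ * (Ka + Kb) * (1 + μ + Kt + Lq) := by
      have h3 : Kt + Lq + B ≤ (1 + B) * (1 + μ + Kt + Lq) := by
        have : 0 ≤ B * (μ + Kt + Lq) := by positivity
        linarith only [this, hμ0]
      have h4 := mul_le_mul_of_nonneg_left h3 hdl0
      have h5 : (1 + μ) * (P.a + dl) ≤ (1 + μ + Kt + Lq) * (P.a + P.β + 1) :=
        mul_le_mul (by linarith only [hKt0, hLq0]) (by linarith only [hdl1]) (by positivity)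
          (by positivity)
      have h6 := mul_le_mul_of_nonneg_left h5 (mul_nonneg hδ0 hK20)
      have h7 : 0 ≤ δ * Kb * (1 + μ + Kt + Lq) := by positivity
      rw [hKa]
      rw [hdl] at h4 h6 ⊢
      linarith only [h4, h6, h7]
    unfold Par.v
    rw [← hμdef, ← hKtd, ← hLq]
    linarith only [hmain, h1, h2]
  · have e1 : ∑ x', ∑ y', w x' * w y' * fT P.C Δ0 (Real.log (U x' y') + P.β - ν)
        = CoreAux.E w (fun x' => CoreAux.E w (fun y' => fT P.C Δ0 (Real.log (U x' y') + P.β - ν))) := by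
      simp only [CoreAux.E, mul_sum]
      exact sum_congr rfl fun x _ => sum_congr rfl fun y _ => by ring
    set ch := Real.exp (P.β - ν) with hchdef
    have h1 : ∀ y, CoreAux.E w (fun y' => fT P.C Δ0 (Real.log (U y y') + P.β - ν)) ≤
        (P.β ^ 2 * (-(μ * (1 - P.u ^ 3)) + δ * (1 + μ) * ((P.β + 1) / P.β + L1 ^ 2) - 1 + P.L)
          + dC P.C Δ0 - ch * P.bE Δ0 0 + δ * CoreAux.Kr P.β P.C Δ0)
        + (P.β ^ 2 * Kt) * ψ y ^ 2 + (P.β ^ 2 * Lq) * φ y ^ 2
        + (P.β ^ 2 * (2 * μ * P.β⁻¹) - ch * (aC P.C Δ0 + bC P.C Δ0 * (P.β + 2))) * (deg w U y - 1)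
        + (-(P.β ^ 2 * P.L)) * CoreAux.Ud w U y := by
      intro y
      have h2 := CoreAux.row_fT P hP h hδ0 (by linarith only [hδ1]) ht Δ0 y
      rw [← hchdef] at h2
      have h3 := mul_le_mul_of_nonneg_left (hsq y) (sq_nonneg P.β)
      have e2 : P.bE Δ0 (deg w U y - 1)
          = P.bE Δ0 0 + (aC P.C Δ0 + bC P.C Δ0 * (P.β + 2)) * (deg w U y - 1) := by
        unfold Par.bE; ring
      rw [e2] at h2
      linarith only [h2, h3]
    have h2 := CoreAux.E_mono hk.w_nonneg h1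
    have hψ' : CoreAux.E w (fun y => ψ y ^ 2) = 1 := hψ
    have hφ' : CoreAux.E w (fun y => φ y ^ 2) ≤ 1 := hφ
    rw [CoreAux.E_lin4 hk.w_sum, CoreAux.sum_e hk, CoreAux.sum_Ud hk, hψ', ← e1] at h2
    have h3 := mul_le_mul_of_nonneg_left hφ' (mul_nonneg (sq_nonneg P.β) hLq0)
    have h4 := mul_nonneg (mul_nonneg (sq_nonneg P.β) hP.L_nonneg) heta0
    have h5 : 0 ≤ δ * Ka * (1 + μ) := by positivity
    have h6 : 0 ≤ δ * CoreAux.Kr P.β P.C Δ0 * μ := by positivity
    rw [hKb]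
    linarith only [h2, h3, h4, h5, h6]

end
end Pool.Agent.MP_b5eafd_co

end

-- part MP_b5eafd_co.Crit1
section

/-! Second order jets at zero and elementary sums for the variational problem. -/

set_option autoImplicit false
open Finset Filter Topology

namespace Pool.Agent.MP_b5eafd_co.CritAux
noncomputable section
open Classical

/-- value, first and second derivative at zero. -/
def J (f : ℝ → ℝ) (a b c : ℝ) : Prop :=
  ∃ f' : ℝ → ℝ, f 0 = a ∧ (∀ᶠ e in 𝓝 (0 : ℝ), HasDerivAt f (f' e) e) ∧ f' 0 = b ∧ HasDerivAt f' c 0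

variable {f g : ℝ → ℝ} {a b c a' b' c' : ℝ}

theorem J.affine (a b : ℝ) : J (fun e => a + e * b) a b 0 :=
  ⟨fun _ => b, by simp, Eventually.of_forall fun e => by
    simpa using ((hasDerivAt_id e).mul_const b).const_add a, rfl, hasDerivAt_const _ _⟩

theorem J.const (a : ℝ) : J (fun _ => a) a 0 0 := by simpa using J.affine a 0

theorem J.cast (h : J f a b c) (h1 : a = a') (h2 : b = b') (h3 : c = c') : J f a' b' c' :=
  h1 ▸ h2 ▸ h3 ▸ h

theorem J.add (h : J f a b c) (h' : J g a' b' c') :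
    J (fun e => f e + g e) (a + a') (b + b') (c + c') := by
  obtain ⟨f', rfl, f1, rfl, f2⟩ := h
  obtain ⟨g', rfl, g1, rfl, g2⟩ := h'
  exact ⟨fun e => f' e + g' e, rfl, (f1.and g1).mono fun e h => h.1.add h.2, rfl, f2.add g2⟩

theorem J.mul (h : J f a b c) (h' : J g a' b' c') :
    J (fun e => f e * g e) (a * a') (b * a' + a * b') (c * a' + 2 * b * b' + a * c') := by
  obtain ⟨f', rfl, f1, rfl, f2⟩ := h
  obtain ⟨g', rfl, g1, rfl, g2⟩ := h'
  refine ⟨fun e => f' e * g e + f e * g' e, rfl, (f1.and g1).mono fun e h => h.1.mul h.2, rfl, ?_⟩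
  exact ((f2.fun_mul g1.self_of_nhds).fun_add (f1.self_of_nhds.fun_mul g2)).congr_deriv (by ring)

theorem J.sum {ι : Type} (s : Finset ι) {f : ι → ℝ → ℝ} {a b c : ι → ℝ}
    (h : ∀ i, J (f i) (a i) (b i) (c i)) :
    J (fun e => ∑ i ∈ s, f i e) (∑ i ∈ s, a i) (∑ i ∈ s, b i) (∑ i ∈ s, c i) := by
  induction s using Finset.induction_on with
  | empty => simpa using J.const 0
  | insert i s hi ih => simpa only [sum_insert hi] using (h i).add ih

theorem J.tendsto (h : J f a b c) : Tendsto f (𝓝 0) (𝓝 a) := by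
  obtain ⟨f', rfl, f1, -⟩ := h
  exact f1.self_of_nhds.continuousAt

theorem J.inv (h : J f 1 b c) : J (fun e => (f e)⁻¹) 1 (-b) (2 * b ^ 2 - c) := by
  have h0 := h.tendsto.eventually_ne one_ne_zero
  obtain ⟨f', e0, f1, rfl, f2⟩ := h
  refine ⟨fun e => -f' e / f e ^ 2, by simp [e0], (f1.and h0).mono fun e h => h.1.inv h.2,
    by simp [e0], ?_⟩
  refine (f2.fun_neg.fun_div (f1.self_of_nhds.fun_pow 2) (by simp [e0])).congr_deriv ?_
  simp [e0]
  ring

theorem J.log (h : J f 1 b c) : J (fun e => Real.log (f e)) 0 b (c - b ^ 2) := by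
  have h0 := h.tendsto.eventually_ne one_ne_zero
  obtain ⟨f', e0, f1, rfl, f2⟩ := h
  refine ⟨fun e => f' e / f e, by simp [e0], (f1.and h0).mono fun e h => h.1.log h.2,
    by simp [e0], ?_⟩
  refine (f2.fun_div f1.self_of_nhds (by simp [e0])).congr_deriv ?_
  simp [e0]
  ring

theorem J.min (h : J f a b c) (hm : ∀ᶠ e in 𝓝 (0 : ℝ), a ≤ f e) : b = 0 ∧ 0 ≤ c := by
  obtain ⟨f', rfl, f1, rfl, f2⟩ := h
  have h1 : f' 0 = 0 := IsLocalMin.hasDerivAt_eq_zero hm f1.self_of_nhds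
  refine ⟨h1, not_lt.1 fun hc => ?_⟩
  have e1 : deriv f =ᶠ[𝓝 0] f' := f1.mono fun e h => h.deriv
  have h2 := isLocalMax_of_deriv_deriv_neg (f := f) (x₀ := 0) (by rwa [e1.deriv_eq, f2.deriv])
    (e1.self_of_nhds.trans h1) f1.self_of_nhds.continuousAt
  have e2 : f =ᶠ[𝓝 0] fun _ => f 0 := (hm.and h2).mono fun e h => le_antisymm h.2 h.1
  have e3 : f' =ᶠ[𝓝 0] fun _ => 0 := e1.symm.trans (e2.deriv.trans (by simp))
  rw [← f2.deriv, e3.deriv_eq] at hc
  simp at hc

theorem nonneg_of_right {D : ℝ} (h : HasDerivAt f D 0) (hm : ∀ᶠ e in 𝓝[>] (0 : ℝ), f 0 ≤ f e) :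
    0 ≤ D :=
  ge_of_tendsto h.tendsto_slope_zero_right ((hm.and self_mem_nhdsWithin).mono fun e he => by
    simpa using mul_nonneg (inv_nonneg.2 (le_of_lt he.2)) (sub_nonneg.2 he.1))

variable {ι : Type} [Fintype ι]

/-- mean of a kernel. -/
def E2 (w : ι → ℝ) (G : ι → ι → ℝ) : ℝ := ∑ x, ∑ y, w x * w y * G x y
/-- row mean. -/
def row (w : ι → ℝ) (G : ι → ι → ℝ) (x : ι) : ℝ := ∑ y, w y * G x y
/-- weighted pairing. -/
def Ea (w a F : ι → ℝ) : ℝ := ∑ x, w x * a x * F x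
/-- perturbed weights. -/
def we (w a : ι → ℝ) (e : ℝ) (x : ι) : ℝ := w x + e * (w x * a x)

theorem cyc (F : ι → ι → ι → ℝ) : ∑ a, ∑ b, ∑ c, F b c a = ∑ a, ∑ b, ∑ c, F a b c := by
  rw [sum_comm]
  exact sum_congr rfl fun b _ => sum_comm

theorem tri_lin (w : ι → ℝ) {U : ι → ι → ℝ} (hs : ∀ a b, U a b = U b a) (G : ι → ι → ℝ) :
    ∑ a, ∑ b, ∑ c, w a * w b * w c * (G a b * U b c * U c a) =
      E2 w fun a b => G a b * sqK w U a b := by
  simp only [E2, sqK, mul_sum]
  refine sum_congr rfl fun a _ => sum_congr rfl fun b _ => sum_congr rfl fun c _ => ?_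
  rw [hs b c, hs c a]
  ring

theorem J_E2 (w a : ι → ℝ) {G : ι → ι → ℝ} (hs : ∀ x y, G x y = G y x) :
    J (fun e => E2 (we w a e) G) (E2 w G) (2 * Ea w a (row w G)) (2 * qf w G a a) := by
  refine (J.sum univ fun x => J.sum univ fun y => ((J.affine (w x) (w x * a x)).mul
    (J.affine (w y) (w y * a y))).mul (J.const (G x y))).cast rfl ?_ ?_
  · simp only [mul_zero, add_zero, add_mul, sum_add_distrib, two_mul, Ea, row, mul_sum]
    congr 1
    · exact sum_congr rfl fun x _ => sum_congr rfl fun y _ => by ring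
    · rw [sum_comm]
      exact sum_congr rfl fun x _ => sum_congr rfl fun y _ => by rw [hs]; ring
  · simp only [qf, mul_sum]
    exact sum_congr rfl fun x _ => sum_congr rfl fun y _ => by ring

theorem J_tri (w a : ι → ℝ) {U : ι → ι → ℝ} (hs : ∀ x y, U x y = U y x) :
    J (fun e => tri (we w a e) U) (tri w U) (3 * Ea w a (tau w U))
      (6 * qf w (fun x y => U x y * sqK w U x y) a a) := by
  refine (J.sum univ fun x => J.sum univ fun y => J.sum univ fun z =>
    (((J.affine (w x) (w x * a x)).mul (J.affine (w y) (w y * a y))).mul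
      (J.affine (w z) (w z * a z))).mul (J.const (U x y * U y z * U z x))).cast rfl ?_ ?_
  · have h1 := tri_lin w hs fun x y => a x * U x y
    have h2 := (cyc _).trans h1
    have h3 := (cyc _).trans h2
    have h4 : E2 w (fun x y => a x * U x y * sqK w U x y) = Ea w a (tau w U) := by
      simp only [E2, Ea, tau, mul_sum]
      exact sum_congr rfl fun x _ => sum_congr rfl fun y _ => by ring
    rw [← h4, show ∀ t : ℝ, 3 * t = t + t + t by intro; ring]
    nth_rewrite 3 [← h3]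
    nth_rewrite 2 [← h2]
    rw [← h1]
    simp only [← sum_add_distrib]
    exact sum_congr rfl fun x _ => sum_congr rfl fun y _ => sum_congr rfl fun z _ => by ring
  · have h1 := tri_lin w hs fun x y => 2 * a x * a y * U x y
    have h2 := (cyc _).trans h1
    have h3 := (cyc _).trans h2
    have h4 : 6 * qf w (fun x y => U x y * sqK w U x y) a a =
        3 * E2 w (fun x y => 2 * a x * a y * U x y * sqK w U x y) := by
      simp only [E2, qf, mul_sum]
      exact sum_congr rfl fun x _ => sum_congr rfl fun y _ => by ring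
    rw [h4, show ∀ t : ℝ, 3 * t = t + t + t by intro; ring]
    nth_rewrite 3 [← h3]
    nth_rewrite 2 [← h2]
    rw [← h1]
    simp only [← sum_add_distrib]
    exact sum_congr rfl fun x _ => sum_congr rfl fun y _ => sum_congr rfl fun z _ => by ring

/-- first derivative of the penalty. -/
def xi1 (p q u : ℝ) : ℝ := 2 * (u - p) * (u - q) * (2 * u - p - q)
/-- half of its second derivative. -/
def xi2 (p q u : ℝ) : ℝ := (u - q) ^ 2 + 4 * (u - p) * (u - q) + (u - p) ^ 2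

theorem exists_bound : ∃ C : ℝ, 1 ≤ C ∧ ∀ u p q : ℝ, 0 ≤ u → u ≤ L1 → 0 ≤ p → p ≤ 2 → 0 ≤ q → q ≤ 2 →
    |xi p q u| ≤ C ∧ |xi1 p q u| ≤ C ∧ |u * xi1 p q u| ≤ C ∧ |u ^ 2 * xi2 p q u| ≤ C ∧ |u| ≤ C := by
  have hF : Continuous fun v : ℝ × ℝ × ℝ => |xi v.2.1 v.2.2 v.1| + |xi1 v.2.1 v.2.2 v.1| +
      |v.1 * xi1 v.2.1 v.2.2 v.1| + |v.1 ^ 2 * xi2 v.2.1 v.2.2 v.1| + |v.1| := by
    unfold xi xi1 xi2
    fun_prop
  obtain ⟨C, hC⟩ := (isCompact_Icc (a := (0, 0, 0)) (b := (L1, 2, 2))).bddAbove_image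
    hF.continuousOn
  refine ⟨max C 1, le_max_right _ _, fun u p q a1 a2 a3 a4 a5 a6 => ?_⟩
  have := (hC ⟨(u, p, q), ⟨⟨a1, a3, a5⟩, a2, a4, a6⟩, rfl⟩).trans (le_max_left C 1)
  have := abs_nonneg (xi p q u)
  have := abs_nonneg (xi1 p q u)
  have := abs_nonneg (u * xi1 p q u)
  have := abs_nonneg (u ^ 2 * xi2 p q u)
  have := abs_nonneg u
  refine ⟨?_, ?_, ?_, ?_, ?_⟩ <;> linarith

section Bounds
variable {w : ι → ℝ} (hw : ∀ x, 0 ≤ w x) (h1 : ∑ x, w x = 1) {C : ℝ}
include hw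

theorem abs_Ea_le (a : ι → ℝ) {F : ι → ℝ} (hF : ∀ x, |F x| ≤ C) :
    |Ea w a F| ≤ C * ∑ x, w x * |a x| := by
  rw [mul_sum]
  refine (abs_sum_le_sum_abs _ _).trans (sum_le_sum fun x _ => ?_)
  rw [abs_mul, abs_mul, abs_of_nonneg (hw x), mul_comm C]
  exact mul_le_mul_of_nonneg_left (hF x) (mul_nonneg (hw x) (abs_nonneg _))

theorem abs_qf_le (a : ι → ℝ) {G : ι → ι → ℝ} (hG : ∀ x y, |G x y| ≤ C) :
    |qf w G a a| ≤ C * (∑ x, w x * |a x|) ^ 2 := by
  rw [sq, sum_mul_sum, mul_sum]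
  refine (abs_sum_le_sum_abs _ _).trans (sum_le_sum fun x _ => ?_)
  rw [mul_sum]
  refine (abs_sum_le_sum_abs _ _).trans (sum_le_sum fun y _ => ?_)
  simp only [abs_mul, abs_of_nonneg (hw _)]
  have := mul_le_mul_of_nonneg_left (hG x y) (mul_nonneg (mul_nonneg (hw x) (abs_nonneg (a x)))
    (mul_nonneg (hw y) (abs_nonneg (a y))))
  linarith

include h1

theorem abs_avg_le {F : ι → ℝ} (hF : ∀ x, |F x| ≤ C) : |∑ x, w x * F x| ≤ C := by
  simpa [Ea, h1] using abs_Ea_le hw (fun _ => 1) hF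

theorem abs_row_le {G : ι → ι → ℝ} (hG : ∀ x y, |G x y| ≤ C) (x : ι) : |row w G x| ≤ C :=
  abs_avg_le hw h1 (hG x)

theorem abs_E2_le {G : ι → ι → ℝ} (hG : ∀ x y, |G x y| ≤ C) : |E2 w G| ≤ C := by
  simpa [qf, E2, h1] using abs_qf_le hw (fun _ => 1) hG

theorem sq_avg_le (a : ι → ℝ) : (∑ x, w x * |a x|) ^ 2 ≤ ∑ x, w x * a x ^ 2 := by
  have : 0 ≤ ∑ x, w x * (|a x| - ∑ y, w y * |a y|) ^ 2 :=
    sum_nonneg fun x _ => mul_nonneg (hw x) (sq_nonneg _)
  generalize hm : ∑ y, w y * |a y| = m at this ⊢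
  have e : ∑ x, w x * (|a x| - m) ^ 2 =
      ∑ x, w x * a x ^ 2 - 2 * m * ∑ y, w y * |a y| + m ^ 2 * ∑ x, w x := by
    simp only [mul_sum, ← sum_sub_distrib, ← sum_add_distrib]
    exact sum_congr rfl fun x _ => by rw [← sq_abs (a x)]; ring
  rw [e, hm, h1] at this
  linarith

end Bounds

theorem ent_nonneg' {w : ι → ℝ} {U : ι → ι → ℝ} (h : IsKer w U) : 0 ≤ ent w U := by
  have : ∑ a, ∑ b, w a * w b * (U a b - 1) ≤ ent w U := sum_le_sum fun a _ => sum_le_sum fun b _ =>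
    mul_le_mul_of_nonneg_left (Real.self_sub_one_le_mul_log (h.nonneg a b))
      (mul_nonneg (h.w_nonneg a) (h.w_nonneg b))
  have e := h.mass_one
  simp only [mul_sub, sum_sub_distrib, mul_one, ← mul_sum, h.w_sum] at this
  simp only [mass] at e
  linarith

theorem sqK_nonneg {w : ι → ℝ} {U : ι → ι → ℝ} (h : IsKer w U) (x y : ι) : 0 ≤ sqK w U x y :=
  sum_nonneg fun z _ => mul_nonneg (h.w_nonneg z) (mul_nonneg (h.nonneg _ _) (h.nonneg _ _))

theorem sqK_symm (w : ι → ℝ) {U : ι → ι → ℝ} (hs : ∀ a b, U a b = U b a) (x y : ι) :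
    sqK w U x y = sqK w U y x :=
  sum_congr rfl fun z _ => by rw [hs x z, hs z y, mul_comm (U z x)]

end
end Pool.Agent.MP_b5eafd_co.CritAux

end

-- part MP_b5eafd_co.Crit2
section

/-! First order conditions in the kernel. -/

set_option autoImplicit false
open Finset Filter Topology

namespace Pool.Agent.MP_b5eafd_co.CritAux
noncomputable section
open Classical

variable {ι : Type} [Fintype ι] {w : ι → ℝ} {U : ι → ι → ℝ} {β γ p q C : ℝ}

/-- perturbed kernel. -/
def pert (U V : ι → ι → ℝ) (e : ℝ) (x y : ι) : ℝ := U x y + e * V x y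

/-- the gradient. -/
def grad (β γ p q : ℝ) (w : ι → ℝ) (U : ι → ι → ℝ) (x y : ι) : ℝ :=
  Real.log (U x y) + 1 + β * sqK w U x y - γ * xi1 p q (U x y)

theorem J.hasDerivAt {f : ℝ → ℝ} {a b c : ℝ} (h : J f a b c) : HasDerivAt f b 0 := by
  obtain ⟨f', -, f1, rfl, -⟩ := h
  exact f1.self_of_nhds

omit [Fintype ι] in
theorem pert_zero (U V : ι → ι → ℝ) : pert U V 0 = U := by
  funext x y
  simp [pert]

theorem deriv_poly (hs : ∀ a b, U a b = U b a) (V : ι → ι → ℝ) :
    HasDerivAt (fun e => β / 3 * tri w (pert U V e) - γ * exi p q w (pert U V e))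
      (E2 w fun x y => V x y * (β * sqK w U x y - γ * xi1 p q (U x y))) 0 := by
  have h1 : HasDerivAt (fun e => tri w (pert U V e)) (3 * E2 w fun x y => V x y * sqK w U x y) 0 := by
    refine (J.sum univ fun x => J.sum univ fun y => J.sum univ fun z =>
      (J.const (w x * w y * w z)).mul (((J.affine (U x y) (V x y)).mul
        (J.affine (U y z) (V y z))).mul (J.affine (U z x) (V z x)))).hasDerivAt.congr_deriv ?_
    have h1 := tri_lin w hs V
    have h2 := (cyc _).trans h1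
    have h3 := (cyc _).trans h2
    rw [show ∀ t : ℝ, 3 * t = t + t + t by intro; ring]
    nth_rewrite 3 [← h3]
    nth_rewrite 2 [← h2]
    rw [← h1]
    simp only [← sum_add_distrib]
    exact sum_congr rfl fun x _ => sum_congr rfl fun y _ => sum_congr rfl fun z _ => by ring
  have h2 : HasDerivAt (fun e => exi p q w (pert U V e))
      (E2 w fun x y => V x y * xi1 p q (U x y)) 0 := by
    refine HasDerivAt.fun_sum fun x _ => HasDerivAt.fun_sum fun y _ => HasDerivAt.const_mul _ ?_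
    have := (J.affine (U x y) (V x y)).hasDerivAt
    refine (((this.sub_const p).fun_pow 2).fun_mul ((this.sub_const q).fun_pow 2)).congr_deriv ?_
    simp [xi1]
    ring
  refine ((h1.const_mul _).fun_sub (h2.const_mul _)).congr_deriv ?_
  simp only [E2, mul_sum, ← sum_sub_distrib]
  exact sum_congr rfl fun x _ => sum_congr rfl fun y _ => by ring

theorem adm_pert (hA : Adm w U) {V : ι → ι → ℝ} (hs : ∀ a b, V a b = V b a) (h0 : E2 w V = 0)
    {e : ℝ} (h : ∀ x y, 0 ≤ pert U V e x y ∧ pert U V e x y ≤ L1) : Adm w (pert U V e) := by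
  refine ⟨⟨hA.1.w_nonneg, hA.1.w_sum, fun a b => by rw [pert, pert, hs, hA.1.symm],
    fun a b => (h a b).1, ?_⟩, fun a b => (h a b).2⟩
  have : mass w (pert U V e) = mass w U + e * E2 w V := by
    simp only [mass, E2, pert, mul_sum, ← sum_add_distrib]
    exact sum_congr rfl fun x _ => sum_congr rfl fun y _ => by ring
  rw [this, h0, hA.1.mass_one, mul_zero, add_zero]

theorem upos (hA : Adm w U) (hw : ∀ x, 0 < w x)
    (hmin : ∀ (w' : ι → ℝ) U', Adm w' U' → phi β γ p q w U ≤ phi β γ p q w' U') (x y : ι) : 0 < U x y := by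
  refine (hA.1.nonneg x y).lt_of_ne fun h0 => ?_
  let V : ι → ι → ℝ := fun a b => 1 - U a b
  have hV : E2 w V = 0 := by
    have := hA.1.mass_one
    simp only [E2, V, mul_sub, sum_sub_distrib, mul_one, ← mul_sum, hA.1.w_sum]
    exact sub_eq_zero.2 this.symm
  have h1 := ((deriv_poly (w := w) (β := β) (γ := γ) (p := p) (q := q) hA.1.symm
    V).tendsto_slope_zero_right.add_atBot
      (Real.tendsto_log_nhdsGT_zero.const_mul_atBot (mul_pos (hw x) (hw y)))).eventually_lt_atBot 0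
  obtain ⟨e, e1, e2, e3⟩ := (h1.and (Ioo_mem_nhdsGT one_pos)).exists
  have h2 := hmin w _ (adm_pert hA (fun a b => by simp only [V, hA.1.symm a b]) hV (e := e)
    fun a b => by
      have := hA.1.nonneg a b
      have := hA.2 a b
      simp only [pert, V, L1] at *
      constructor <;> nlinarith)
  have h3 : ent w (pert U V e) ≤ (1 - e) * ent w U + e * (w x * w y * Real.log e) := by
    have : e * (w x * w y * Real.log e) =
        ∑ a, ∑ b, if b = y then if a = x then e * (w x * w y * Real.log e) else 0 else 0 := by simp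
    rw [this, ent, ent]
    simp only [mul_sum, ← sum_add_distrib]
    refine sum_le_sum fun a _ => sum_le_sum fun b _ => ?_
    have := mul_le_mul_of_nonneg_left (Real.convexOn_mul_log.2 (hA.1.nonneg a b)
      (Set.mem_Ici.2 zero_le_one) (sub_nonneg.2 e3.le) e2.le (sub_add_cancel 1 e))
      (mul_pos (hw a) (hw b)).le
    simp only [smul_eq_mul, Real.log_one, mul_zero, add_zero] at this
    rw [show pert U V e a b = (1 - e) * U a b + e * 1 by simp only [pert, V]; ring]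
    split_ifs with hb ha
    · subst ha hb
      rw [← h0]
      simp only [mul_zero, zero_mul, zero_add, mul_one]
      linarith
    · linarith
    · linarith
  have h4 := mul_nonneg e2.le (ent_nonneg' hA.1)
  simp only [zero_add, pert_zero, smul_eq_mul] at e1
  have h5 := mul_neg_of_pos_of_neg e2 e1
  rw [mul_add, mul_inv_cancel_left₀ e2.ne'] at h5
  simp only [phi] at h2
  linarith

theorem first_order (hA : Adm w U) (hU : ∀ x y, 0 < U x y)
    (hmin : ∀ (w' : ι → ℝ) U', Adm w' U' → phi β γ p q w U ≤ phi β γ p q w' U') {V : ι → ι → ℝ}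
    (hs : ∀ a b, V a b = V b a) (h0 : E2 w V = 0) (hL : ∀ x y, U x y = L1 → V x y ≤ 0) :
    0 ≤ E2 w fun x y => V x y * grad β γ p q w U x y := by
  have h1 : HasDerivAt (fun e => ent w (pert U V e))
      (E2 w fun x y => V x y * (Real.log (U x y) + 1)) 0 := by
    refine HasDerivAt.fun_sum fun x _ => HasDerivAt.fun_sum fun y _ => HasDerivAt.const_mul _ ?_
    have := (J.affine (U x y) (V x y)).hasDerivAt
    refine (this.fun_mul (this.log (by simpa using (hU x y).ne'))).congr_deriv ?_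
    have := (hU x y).ne'
    simp only [zero_mul, add_zero]
    field_simp
  have h2 := nonneg_of_right (h1.fun_add (deriv_poly (w := w) (β := β) (γ := γ) (p := p) (q := q)
    hA.1.symm V)) (by
      have : ∀ᶠ e in 𝓝[>] (0 : ℝ), ∀ x y, 0 ≤ pert U V e x y ∧ pert U V e x y ≤ L1 := by
        refine eventually_all.2 fun x => eventually_all.2 fun y => ?_
        have ht := (J.affine (U x y) (V x y)).tendsto.mono_left (nhdsWithin_le_nhds (s := Set.Ioi 0))
        refine (ht.eventually_const_le (hU x y)).and ?_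
        rcases (hA.2 x y).eq_or_lt with h | h
        · exact eventually_mem_nhdsWithin.mono fun e he =>
            add_le_of_le_of_nonpos h.le (mul_nonpos_of_nonneg_of_nonpos (le_of_lt he) (hL x y h))
        · exact ht.eventually_le_const h
      refine this.mono fun e he => ?_
      have := hmin w _ (adm_pert hA hs h0 he)
      simp only [phi, pert_zero] at this ⊢
      linarith)
  refine h2.trans_eq ?_
  simp only [E2, grad, ← sum_add_distrib]
  exact sum_congr rfl fun x _ => sum_congr rfl fun y _ => by ring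

theorem E2_grad (hA : IsKer w U) : (E2 w fun x y => U x y * grad β γ p q w U x y) =
    ent w U + 1 + β * tri w U - γ * E2 w fun x y => U x y * xi1 p q (U x y) := by
  rw [tri, tri_lin w hA.symm, ← hA.mass_one]
  simp only [E2, grad, ent, mass, mul_sum, ← sum_add_distrib, ← sum_sub_distrib]
  exact sum_congr rfl fun x _ => sum_congr rfl fun y _ => by ring

theorem lt_L1 (hA : Adm w U) (hw : ∀ x, 0 < w x) (hβ : 0 ≤ β) (hγ : 0 ≤ γ) (hγC : γ * C ≤ 1)
    (h1 : ∀ x y, |xi p q (U x y)| ≤ C) (h2 : ∀ x y, |xi1 p q (U x y)| ≤ C)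
    (h3 : ∀ x y, |U x y * xi1 p q (U x y)| ≤ C) (hφ : phi β γ p q w U ≤ 1)
    (hmin : ∀ (w' : ι → ℝ) U', Adm w' U' → phi β γ p q w U ≤ phi β γ p q w' U') (x y : ι) : U x y < L1 := by
  refine (hA.2 x y).lt_of_ne fun h0 => ?_
  have hU := upos hA hw hmin
  let I : ι → ι → ℝ := fun a b => if U a b = L1 then U a b else 0
  have hI : ∀ a b, 0 ≤ w a * w b * I a b := fun a b => mul_nonneg (mul_pos (hw a) (hw b)).le (by
    simp only [I]
    split_ifs
    exacts [(hU a b).le, le_rfl])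
  have p1 : 0 < E2 w I := sum_pos' (fun a _ => sum_nonneg fun b _ => hI a b) ⟨x, mem_univ _,
    sum_pos' (fun b _ => hI x b) ⟨y, mem_univ _, mul_pos (mul_pos (hw x) (hw y)) (by
      simpa only [I, if_pos h0] using hU x y)⟩⟩
  have p2 : E2 w I ≤ 1 := hA.1.mass_one ▸ sum_le_sum fun a _ => sum_le_sum fun b _ =>
    mul_le_mul_of_nonneg_left (by
      simp only [I]
      split_ifs
      exacts [le_rfl, (hU a b).le]) (mul_pos (hw a) (hw b)).le
  have p3 := first_order hA hU hmin (V := fun a b => E2 w I * U a b - I a b)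
    (fun a b => by simp only [I, hA.1.symm a b]) (by
      have := hA.1.mass_one
      generalize hπ : E2 w I = π
      simp only [E2, mul_sub, sum_sub_distrib, mul_left_comm _ π, ← mul_sum] at hπ ⊢
      rw [hπ, show ∑ a, ∑ b, w a * w b * U a b = 1 from this, mul_one, sub_self])
    fun a b h => by
      have := hU a b
      simp only [I, if_pos h]
      nlinarith
  have p4 : (E2 w fun a b => (E2 w I * U a b - I a b) * grad β γ p q w U a b) ≤
      E2 w I * ((E2 w fun a b => U a b * grad β γ p q w U a b) - (Real.log L1 + 1 - γ * C)) := by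
    generalize hπ : E2 w I = π
    rw [mul_sub]
    nth_rewrite 3 [← hπ]
    generalize hK : Real.log L1 + 1 - γ * C = K
    simp only [E2, mul_sum, sum_mul, ← sum_sub_distrib]
    refine sum_le_sum fun a _ => sum_le_sum fun b _ => ?_
    rw [← hK]
    have : w a * w b * I a b * (Real.log L1 + 1 - γ * C) ≤
        w a * w b * I a b * grad β γ p q w U a b := by
      by_cases h : U a b = L1
      · refine mul_le_mul_of_nonneg_left ?_ (hI a b)
        have := mul_nonneg hβ (sqK_nonneg hA.1 a b)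
        have := mul_le_mul_of_nonneg_left (le_of_abs_le (h2 a b)) hγ
        rw [grad, ← h]
        linarith
      · simp [I, h]
    linarith
  have p5 := (mul_nonneg_iff_of_pos_left p1).1 (p3.trans p4)
  rw [E2_grad hA.1] at p5
  have p6 := mul_le_mul_of_nonneg_left (le_of_abs_le (abs_E2_le hA.1.w_nonneg hA.1.w_sum h1)) hγ
  have p7 := mul_le_mul_of_nonneg_left (neg_le_of_abs_le (abs_E2_le hA.1.w_nonneg hA.1.w_sum h3)) hγ
  have p8 := ent_nonneg' hA.1
  have p9 : Real.log (2 ^ 17) ≤ Real.log L1 := Real.log_le_log (by norm_num) (by norm_num [L1])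
  rw [Real.log_pow] at p9
  have := Real.log_two_gt_d9
  change ent w U + β / 3 * tri w U - γ * E2 w _ ≤ 1 at hφ
  push_cast at p9
  linarith

theorem grad_const (hA : Adm w U) (hw : ∀ x, 0 < w x) (hL : ∀ x y, U x y < L1)
    (hmin : ∀ (w' : ι → ℝ) U', Adm w' U' → phi β γ p q w U ≤ phi β γ p q w' U') (x y : ι) :
    grad β γ p q w U x y = E2 w fun x y => U x y * grad β γ p q w U x y := by
  have hU := upos hA hw hmin
  let D : ι → ι → ℝ := fun a b => if b = y then if a = x then (w x * w y)⁻¹ else 0 else 0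
  have h1 : ∀ (s : ℝ) (G : ι → ι → ℝ), (∀ a b, G a b = G b a) →
      (E2 w fun a b => s * (D a b + D b a - 2 * U a b) * G a b) =
        2 * s * (G x y - E2 w fun a b => U a b * G a b) := fun s G hG => by
    have e1 : ∑ a, ∑ b, w a * w b * (D a b * G a b) = G x y := by
      have := (hw x).ne'
      have := (hw y).ne'
      simp only [D, ite_mul, zero_mul, mul_ite, mul_zero, sum_ite_eq', mem_univ, if_true]
      field_simp
    have e2 : ∑ a, ∑ b, w a * w b * (D b a * G a b) = G x y := by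
      rw [← e1, sum_comm]
      exact sum_congr rfl fun a _ => sum_congr rfl fun b _ => by rw [hG, mul_comm (w b)]
    rw [show 2 * s * (G x y - E2 w fun a b => U a b * G a b) =
      s * (G x y + G x y - 2 * E2 w fun a b => U a b * G a b) by ring]
    nth_rewrite 2 [← e2]
    rw [← e1]
    simp only [E2, mul_sum, ← sum_add_distrib, ← sum_sub_distrib]
    exact sum_congr rfl fun a _ => sum_congr rfl fun b _ => by ring
  have h2 : ∀ s : ℝ, 0 ≤ 2 * s * (grad β γ p q w U x y -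
      E2 w fun a b => U a b * grad β γ p q w U a b) := fun s => by
    rw [← h1 s _ fun a b => by rw [grad, grad, hA.1.symm, sqK_symm w hA.1.symm]]
    refine first_order hA hU hmin (fun a b => by rw [hA.1.symm, add_comm]) ?_
      fun a b h => absurd h (hL a b).ne
    have := h1 s (fun _ _ => 1) fun _ _ => rfl
    simp only [mul_one] at this
    rw [this, show E2 w U = 1 from hA.1.mass_one, sub_self, mul_zero]
  linarith [h2 1, h2 (-1)]

end
end Pool.Agent.MP_b5eafd_co.CritAux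

end

-- part MP_b5eafd_co.Crit3
section

/-! Variation of the weights. -/

set_option autoImplicit false
open Finset Filter Topology

namespace Pool.Agent.MP_b5eafd_co.CritAux
noncomputable section
open Classical

variable {ι : Type} [Fintype ι] {w : ι → ℝ} {U : ι → ι → ℝ} {β γ p q C : ℝ}

theorem phi_scale (hU : ∀ x y, 0 < U x y) (hZ : E2 w U ≠ 0) :
    phi β γ p q w (fun x y => U x y * (E2 w U)⁻¹) =
      E2 w (fun x y => U x y * Real.log (U x y)) * (E2 w U)⁻¹ + -1 * Real.log (E2 w U) +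
      β / 3 * (tri w U * ((E2 w U)⁻¹ * ((E2 w U)⁻¹ * (E2 w U)⁻¹))) +
      -γ * (E2 w (fun x y => xi p q (U x y)) + ((E2 w U)⁻¹ + -1) *
        (E2 w (fun x y => U x y * xi1 p q (U x y)) + ((E2 w U)⁻¹ + -1) *
        (E2 w (fun x y => U x y ^ 2 * xi2 p q (U x y)) + ((E2 w U)⁻¹ + -1) *
        (E2 w (fun x y => U x y ^ 3 * (2 * (2 * U x y - p - q))) + ((E2 w U)⁻¹ + -1) *
        E2 w (fun x y => U x y ^ 4))))) := by
  have h1 : ent w (fun x y => U x y * (E2 w U)⁻¹) =
      E2 w (fun x y => U x y * Real.log (U x y)) * (E2 w U)⁻¹ +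
        -(E2 w U * (E2 w U)⁻¹) * Real.log (E2 w U) := by
    simp only [ent, Real.log_mul (hU _ _).ne' (inv_ne_zero hZ), Real.log_inv]
    generalize (E2 w U)⁻¹ = y
    generalize Real.log (E2 w U) = l
    simp only [E2, sum_mul, neg_mul, ← sum_neg_distrib, ← sum_add_distrib]
    exact sum_congr rfl fun a _ => sum_congr rfl fun b _ => by ring
  rw [phi, h1, mul_inv_cancel₀ hZ, sub_eq_add_neg, ← neg_mul]
  generalize (E2 w U)⁻¹ = y
  congr 3
  · simp only [tri, sum_mul]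
    exact sum_congr rfl fun a _ => sum_congr rfl fun b _ => sum_congr rfl fun c _ => by ring
  · simp only [exi, E2, mul_sum, ← sum_add_distrib, xi, xi1, xi2]
    exact sum_congr rfl fun a _ => sum_congr rfl fun b _ => by ring

theorem weight_var (hA : Adm w U) (hw : ∀ x, 0 < w x) (hL : ∀ x y, U x y < L1)
    (hmin : ∀ (w' : ι → ℝ) U', Adm w' U' → phi β γ p q w U ≤ phi β γ p q w' U') (a : ι → ℝ)
    (ha : ∑ x, w x * a x = 0) :
    β * Ea w a (tau w U) + 2 * Ea w a (deg w U) = 2 * γ *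
      (Ea w a (row w fun x y => U x y * xi1 p q (U x y)) - Ea w a (row w fun x y => xi p q (U x y))) ∧
    qf w U a a ≤ (6 + 4 * β * tri w U) * Ea w a (deg w U) ^ 2 + γ * (-4 * Ea w a (deg w U) *
      (Ea w a (row w fun x y => U x y * xi1 p q (U x y)) - Ea w a (row w fun x y => xi p q (U x y)))
      + qf w (fun x y => U x y * xi1 p q (U x y)) a a - qf w (fun x y => xi p q (U x y)) a a -
      4 * Ea w a (deg w U) ^ 2 * E2 w fun x y => U x y ^ 2 * xi2 p q (U x y)) := by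
  have hU := upos hA hw hmin
  have hs := hA.1.symm
  have hm : E2 w U = 1 := hA.1.mass_one
  have jZ := (J_E2 w a hs).cast hm rfl rfl
  have jy := jZ.inv
  have jh := jy.add (J.const (-1))
  have j : ∀ f : ℝ → ℝ, _ := fun f => J_E2 w a (G := fun x y => f (U x y)) fun x y => by rw [hs]
  have key := (((((j fun u => u * Real.log u).mul jy).add ((J.const (-1)).mul jZ.log)).add
    ((J.const (β / 3)).mul ((J_tri w a hs).mul (jy.mul (jy.mul jy))))).add ((J.const (-γ)).mul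
      ((j (xi p q)).add (jh.mul ((j fun u => u * xi1 p q u).add (jh.mul
        ((j fun u => u ^ 2 * xi2 p q u).add (jh.mul ((j fun u => u ^ 3 * (2 * (2 * u - p - q))).add
          (jh.mul (j fun u => u ^ 4))))))))))).min (by
      have e1 : ∀ᶠ e in 𝓝 (0 : ℝ), ∀ x, 0 ≤ we w a e x := eventually_all.2 fun x =>
        (J.affine (w x) (w x * a x)).tendsto.eventually_const_le (hw x)
      have e2 : ∀ᶠ e in 𝓝 (0 : ℝ), ∀ x y, U x y * (E2 (we w a e) U)⁻¹ ≤ L1 :=
        eventually_all.2 fun x => eventually_all.2 fun y =>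
          (jy.tendsto.const_mul (U x y)).eventually_le_const (by simpa using hL x y)
      filter_upwards [e1, e2, jZ.tendsto.eventually_const_lt one_pos] with e e1 e2 e3
      have := hmin (we w a e) (fun x y => U x y * (E2 (we w a e) U)⁻¹) ⟨⟨e1, by
        simp only [we, sum_add_distrib, ← mul_sum, ha, hA.1.w_sum, mul_zero, add_zero],
        fun x y => by rw [hs], fun x y => mul_nonneg (hU x y).le (inv_nonneg.2 e3.le), by
        rw [← mul_inv_cancel₀ e3.ne']
        generalize (E2 (we w a e) U)⁻¹ = y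
        simp only [mass, E2, sum_mul, mul_assoc]⟩, e2⟩
      rw [phi_scale hU e3.ne'] at this
      refine le_trans (le_of_eq ?_) this
      change _ = E2 w _ + β / 3 * tri w U - γ * E2 w _
      ring)
  have hg := grad_const hA hw hL hmin
  rw [E2_grad hA.1] at hg
  have hl : ∀ x y, Real.log (U x y) = ent w U + β * tri w U - γ * E2 w (fun x y =>
      U x y * xi1 p q (U x y)) - β * sqK w U x y + γ * xi1 p q (U x y) := fun x y => by
    have := hg x y
    rw [grad] at this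
    linarith
  have n0 : E2 w (fun x y => U x y * Real.log (U x y)) = ent w U := rfl
  rw [n0, show row w U = deg w U from rfl] at key
  generalize hm1 : E2 w (fun x y => U x y * xi1 p q (U x y)) = m at key hl
  generalize ent w U = H at key hl
  generalize tri w U = t at key hl
  have n1 : Ea w a (row w fun x y => U x y * Real.log (U x y)) =
      (H + β * t - γ * m) * Ea w a (deg w U) - β * Ea w a (tau w U) +
        γ * Ea w a (row w fun x y => U x y * xi1 p q (U x y)) := by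
    simp only [Ea, row, deg, tau, hl, mul_sum, ← sum_add_distrib, ← sum_sub_distrib]
    exact sum_congr rfl fun x _ => sum_congr rfl fun y _ => by ring
  have n2 : qf w (fun x y => U x y * Real.log (U x y)) a a =
      (H + β * t - γ * m) * qf w U a a - β * qf w (fun x y => U x y * sqK w U x y) a a +
        γ * qf w (fun x y => U x y * xi1 p q (U x y)) a a := by
    simp only [qf, hl, mul_sum, ← sum_add_distrib, ← sum_sub_distrib]
    exact sum_congr rfl fun x _ => sum_congr rfl fun y _ => by ring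
  rw [n1, n2] at key
  obtain ⟨k1, k2⟩ := key
  refine ⟨by linear_combination -k1, ?_⟩
  linear_combination k2 / 2 + 2 * Ea w a (deg w U) * k1

theorem crit_pos (hA : Adm w U) (hw : ∀ x, 0 < w x) (hβ : 0 ≤ β) (hγ : 0 ≤ γ) (hC : 1 ≤ C)
    (hγC : γ * (20 * C ^ 3) ≤ 1)
    (hb : ∀ x y, |xi p q (U x y)| ≤ C ∧ |xi1 p q (U x y)| ≤ C ∧ |U x y * xi1 p q (U x y)| ≤ C ∧
      |U x y ^ 2 * xi2 p q (U x y)| ≤ C ∧ |U x y| ≤ C) (hφ : phi β γ p q w U ≤ 1)
    (hmin : ∀ (w' : ι → ℝ) U', Adm w' U' → phi β γ p q w U ≤ phi β γ p q w' U') :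
    ∃ ν, Crit w U β ν (γ * (20 * C ^ 3)) := by
  have c1 : C ≤ C ^ 2 := by nlinarith
  have c2 : C ^ 2 ≤ C ^ 3 := by nlinarith
  have c3 : γ * (8 * C) ≤ γ * (20 * C ^ 3) := mul_le_mul_of_nonneg_left (by linarith) hγ
  have c4 : 0 ≤ γ * C := by positivity
  have w0 := hA.1.w_nonneg
  have w1 := hA.1.w_sum
  have b1 := fun x y => (hb x y).1
  have b2 := fun x y => (hb x y).2.1
  have b3 := fun x y => (hb x y).2.2.1
  have b4 := fun x y => (hb x y).2.2.2.1
  have b5 := fun x y => (hb x y).2.2.2.2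
  have hL := lt_L1 hA hw hβ hγ (by linarith) b1 b2 b3 hφ hmin
  have hg := grad_const hA hw hL hmin
  have ha : ∀ s : ℝ, |s| ≤ C → |γ * s| ≤ γ * C := fun s h => by
    rw [abs_mul, abs_of_nonneg hγ]
    exact mul_le_mul_of_nonneg_left h hγ
  refine ⟨(E2 w fun x y => U x y * grad β γ p q w U x y) - 1, hA, hw, upos hA hw hmin,
    fun x y => ?_, ?_, fun x => ?_, fun a h0 => ?_⟩
  · rw [← hg x y, grad, show ∀ l s t : ℝ, l - (l + 1 + s - t - 1) + s = t by intros; ring]
    linarith [ha _ (b2 x y)]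
  · rw [E2_grad hA.1, show ∀ l s t : ℝ, l + 1 + s - t - 1 - l - s = -t by intros; ring, abs_neg]
    linarith [ha _ (abs_E2_le w0 w1 b3)]
  · have h1 : ∀ F : ι → ℝ, Ea w (fun y => (if y = x then (w x)⁻¹ else 0) - 1) F =
        F x - ∑ y, w y * F y := fun F => by
      have := (hw x).ne'
      simp only [Ea, mul_sub, sub_mul, sum_sub_distrib, mul_ite, ite_mul, mul_zero, zero_mul,
        sum_ite_eq', mem_univ, if_true, mul_one]
      field_simp
    have h2 := (weight_var hA hw hL hmin (fun y => (if y = x then (w x)⁻¹ else 0) - 1) (by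
      simpa [Ea, w1] using h1 fun _ => 1)).1
    have h3 : ∑ y, w y * tau w U y = tri w U := by
      rw [tri, tri_lin w hA.1.symm]
      simp only [E2, tau, mul_sum, mul_assoc]
    have h4 : ∑ y, w y * deg w U y = 1 := by
      rw [← hA.1.mass_one]
      simp only [mass, deg, mul_sum, mul_assoc]
    rw [h1, h1, h1, h1, h3, h4] at h2
    have h5 := abs_le.1 (ha _ (abs_row_le w0 w1 b3 x))
    have h6 := abs_le.1 (ha _ (abs_row_le w0 w1 b1 x))
    have h7 := abs_le.1 (ha _ (abs_avg_le w0 w1 (abs_row_le w0 w1 b3)))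
    have h8 := abs_le.1 (ha _ (abs_avg_le w0 w1 (abs_row_le w0 w1 b1)))
    rw [abs_le]
    constructor <;> linarith
  · refine (weight_var hA hw hL hmin a h0).2.trans (add_le_add le_rfl ?_)
    rw [mul_assoc γ]
    refine mul_le_mul_of_nonneg_left ?_ hγ
    have h1 := abs_Ea_le w0 a (F := deg w U) (abs_row_le w0 w1 b5)
    have h2 := abs_Ea_le w0 a (abs_row_le w0 w1 b3)
    have h3 := abs_Ea_le w0 a (abs_row_le w0 w1 b1)
    have h4 := le_of_abs_le (abs_qf_le w0 a b3)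
    have h5 := neg_le_of_abs_le (abs_qf_le w0 a b1)
    have h6 := neg_le_of_abs_le (abs_E2_le w0 w1 b4)
    have h7 := sq_avg_le w0 w1 a
    have h8 : 0 ≤ ∑ x, w x * |a x| := sum_nonneg fun x _ => mul_nonneg (w0 x) (abs_nonneg _)
    generalize ∑ x, w x * |a x| = l at *
    generalize Ea w a (deg w U) = α at *
    have h9 : ∀ s, |s| ≤ C * l → |α * s| ≤ C ^ 2 * l ^ 2 := fun s h => by
      rw [abs_mul]
      exact (mul_le_mul h1 h (abs_nonneg _) (by positivity)).trans_eq (by ring)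
    have i1 := abs_le.1 (h9 _ h1)
    have i2 := abs_le.1 (h9 _ h2)
    have i3 := abs_le.1 (h9 _ h3)
    have i4 := mul_le_mul_of_nonneg_left h6 (mul_self_nonneg α)
    have i5 := mul_le_mul_of_nonneg_left i1.2 (zero_le_one.trans hC)
    have i6 := mul_le_mul_of_nonneg_left h7 (show 0 ≤ 20 * C ^ 3 by positivity)
    have i7 := mul_le_mul_of_nonneg_right c1 (sq_nonneg l)
    have i8 := mul_le_mul_of_nonneg_right c2 (sq_nonneg l)
    have i9 : 0 ≤ C ^ 3 * l ^ 2 := by positivity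
    linarith

end
end Pool.Agent.MP_b5eafd_co.CritAux

end

-- part MP_b5eafd_co.Crit
section

/-
HINTS. u log u is continuous (Real.continuous_mul_log).  B is a huge constant depending on L1 only (any polynomial in L1, e.g. L1^6 * 1000).
Step 0: restrict to the support {x | 0 < w x} ~ Fin k; sums are unchanged; minimality transfers (extend w' and U' by 0).
Step 1 (one sided lemma): if V symmetric, E V = 0 (E = sum w w), U + eV admissible for small e >= 0 then minimality holds along e.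
 Positivity: V = 1 - U; a zero entry contributes w w e log e (derivative -infinity) while all else is O(e) (use convexity: ((1-e)u + e) log(..) <= (1-e) u log u for the others).
 With U > 0: d/de phi at 0 = E[V g], g = 1 + log U + beta P - gamma xi'(U), P = sqK (tri(U+eV) is a cubic with linear term 3 E[V P]); so E[V g] >= 0.
Step 2: no entry equals L1: V = piL U 1_{U<L1} - pi< U 1_{U=L1}, piL = E[U 1_{=}], pi< = E[U 1_{<}], piL + pi< = 1.  If piL > 0 then E[U (g-1)] >= log L1 - gamma B'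
 (if pi< = 0 directly), but E[U (g-1)] = ent + beta tri - gamma E[U xi'] <= 3(1 + gamma B') + gamma B' since ent >= 0, tri >= 0; log L1 > 12; gamma B' <= 1.
Step 3: two sided variations V = (delta_{xy}+delta_{yx})/(w_x w_y) - 2U (or - 2) give g = const =: nu + 1: el; integrate against U: nu.
Step 4: weight variation w_e = w(1 + e a), E a = 0, U_e = U/Z_e, Z = 1 + 2 e alpha + e^2 A, alpha = E[a d], A = qf a a; admissible for small |e| as U < L1.
 phi(e) = N/Z - log Z + beta/3 T/Z^3 - gamma X(e), N = sum w_e w_e U log U (quadratic in e), T = tri w_e U (cubic), X = sum w_e w_e xi(U/Z)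
 (xi(u) is a quartic polynomial, so X = sum_{i<=4} c_i M_i(e)/Z^i, M_i quadratic in e).  phi is smooth near 0 with a local min at 0: phi'(0) = 0, phi''(0) >= 0.
 To avoid second derivatives: replace -log Z by the upper bound (y-1) - (y-1)^2/2 + (y-1)^3/3, y = 1/Z (log y <= that), multiply by Z^4 > 0:
 a POLYNOMIAL p(e) >= 0 near 0 with p(0) = 0, so coeff 1 = 0 and coeff 2 >= 0; or work with jets (c0,c1,c2) and a lemma f = c0 + c1 e + c2 e^2 + O(e^3) closed under + * inv.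
 With h(x) = sum_y w U log U = nu d - beta tau + gamma r(x):  e^1 coefficient: 2E[a h] - 2 alpha ent - 2 alpha + beta E[a tau] - 2 alpha beta t - gamma X1
   = -E[a (beta tau + 2 d)] + gamma E[a r1], |r1| <= B'; test with a = delta_x/w_x - 1: row.
 e^2 coefficient: a(U log U)a - 4 alpha E[a h] + ent (4 alpha^2 - A) - A + 2 alpha^2 + (beta/3)(3 Bq - 18 alpha E[a tau] + t (24 alpha^2 - 3A)) - gamma X2,
   Bq = sum w w a a U P; insert U log U = nu U - beta U P + gamma U xi'(U), beta E[a tau] = -2 alpha + gamma E[a r1]: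
   = -A + (6 + 4 beta t) alpha^2 + gamma O(B') E[a^2]   (no beta, nu in the error; |A| <= L1 E a^2, |alpha| <= L1 sqrt(E a^2)).
-/

set_option autoImplicit false
open Finset Filter Topology

namespace Pool.Agent.MP_b5eafd_co
noncomputable section
open Classical

theorem isCompact_adm (ι : Type) [Fintype ι] :
    IsCompact {x : (ι → ℝ) × (ι → ι → ℝ) | Adm x.1 x.2} := by
  refine (isCompact_Icc (a := ((0, 0) : (ι → ℝ) × (ι → ι → ℝ)))
    (b := (fun _ => 1, fun _ _ => L1))).of_isClosed_subset ?_ fun x hx => ⟨⟨hx.1.w_nonneg,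
      hx.1.nonneg⟩, fun a => hx.1.w_sum ▸ single_le_sum (fun b _ => hx.1.w_nonneg b) (mem_univ a),
      hx.2⟩
  have : {x : (ι → ℝ) × (ι → ι → ℝ) | Adm x.1 x.2} = {x | 0 ≤ x.1} ∩ ({x | ∑ a, x.1 a = 1} ∩
      ({x | x.2 = fun a b => x.2 b a} ∩ ({x | 0 ≤ x.2} ∩ ({x | mass x.1 x.2 = 1} ∩
        {x | x.2 ≤ fun _ _ => L1})))) := by
    ext x
    exact ⟨fun h => ⟨h.1.1, h.1.2, funext₂ h.1.3, h.1.4, h.1.5, h.2⟩, fun h =>
      ⟨⟨h.1, h.2.1, congrFun₂ h.2.2.1, h.2.2.2.1, h.2.2.2.2.1⟩, h.2.2.2.2.2⟩⟩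
  rw [this]
  unfold mass
  exact (isClosed_le (by fun_prop) (by fun_prop)).inter ((isClosed_eq (by fun_prop)
    (by fun_prop)).inter ((isClosed_eq (by fun_prop) (by fun_prop)).inter ((isClosed_le
    (by fun_prop) (by fun_prop)).inter ((isClosed_eq (by fun_prop) (by fun_prop)).inter
    (isClosed_le (by fun_prop) (by fun_prop))))))

theorem continuous_ent (ι : Type) [Fintype ι] :
    Continuous (fun x : (ι → ℝ) × (ι → ι → ℝ) => ent x.1 x.2) := by
  refine continuous_finsetSum _ fun a _ => continuous_finsetSum _ fun b _ => Continuous.mul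
    (by fun_prop) (Real.continuous_mul_log.comp (f := fun x : (ι → ℝ) × (ι → ι → ℝ) => x.2 a b) ?_)
  fun_prop

theorem continuous_tri (ι : Type) [Fintype ι] :
    Continuous (fun x : (ι → ℝ) × (ι → ι → ℝ) => tri x.1 x.2) := by
  unfold tri
  fun_prop

theorem continuous_exi (ι : Type) [Fintype ι] (p q : ℝ) :
    Continuous (fun x : (ι → ℝ) × (ι → ι → ℝ) => exi p q x.1 x.2) := by
  unfold exi xi
  fun_prop

theorem crit_restrict {ι κ : Type} [Fintype ι] [Fintype κ] {f : κ → ι} (hf : Function.Injective f)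
    {w : ι → ℝ} (hw : ∀ x ∉ Set.range f, w x = 0) (U : ι → ι → ℝ) :
    ∑ i, w (f i) = ∑ x, w x ∧
    (∀ g : ℝ → ℝ, ∑ i, ∑ j, w (f i) * w (f j) * g (U (f i) (f j)) = ∑ x, ∑ y, w x * w y * g (U x y)) ∧
    tri (fun i => w (f i)) (fun i j => U (f i) (f j)) = tri w U := by
  refine ⟨Fintype.sum_of_injective f hf _ _ hw fun _ => rfl, fun g => ?_, ?_⟩
  · exact Fintype.sum_of_injective f hf _ _ (fun x hx => by simp [hw x hx]) fun i =>
      Fintype.sum_of_injective f hf _ _ (fun x hx => by simp [hw x hx]) fun _ => rfl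
  · exact Fintype.sum_of_injective f hf _ _ (fun x hx => by simp [hw x hx]) fun i =>
      Fintype.sum_of_injective f hf _ _ (fun x hx => by simp [hw x hx]) fun _ =>
        Fintype.sum_of_injective f hf _ _ (fun x hx => by simp [hw x hx]) fun _ => rfl

theorem crit_of_min : ∃ B : ℝ, 0 < B ∧
    ∀ (β γ p q : ℝ), 0 < β → 0 ≤ γ → γ * B ≤ 1 → 0 ≤ p → p ≤ 2 → 0 ≤ q → q ≤ 2 →
    ∀ (ι : Type) [Fintype ι] (w : ι → ℝ) (U : ι → ι → ℝ), Adm w U → phi β γ p q w U ≤ 1 →
      (∀ (w' : ι → ℝ) (U' : ι → ι → ℝ), Adm w' U' → phi β γ p q w U ≤ phi β γ p q w' U') →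
      ∃ (k : ℕ) (w1 : Fin k → ℝ) (U1 : Fin k → Fin k → ℝ) (ν : ℝ),
        ent w1 U1 = ent w U ∧ tri w1 U1 = tri w U ∧ exi p q w1 U1 = exi p q w U ∧
        exi p q w U ≤ B ∧ Crit w1 U1 β ν (γ * B) := by
  obtain ⟨C, hC, hb⟩ := CritAux.exists_bound
  refine ⟨20 * C ^ 3, by positivity, fun β γ p q hβ hγ hγB p0 p2 q0 q2 ι _ w U hA hφ hmin => ?_⟩
  let e := Fintype.equivFin {x // 0 < w x}
  let f : Fin (Fintype.card {x // 0 < w x}) → ι := fun i => (e.symm i).1
  have hf : Function.Injective f := Subtype.val_injective.comp e.symm.injective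
  obtain ⟨r1, r2, r3⟩ := crit_restrict hf (w := w) (fun x hx => le_antisymm
    (not_lt.1 fun h => hx ⟨e ⟨x, h⟩, by simp [f]⟩) (hA.1.w_nonneg x)) U
  have s1 : ent (fun i => w (f i)) (fun i j => U (f i) (f j)) = ent w U :=
    r2 fun u => u * Real.log u
  have s2 : exi p q (fun i => w (f i)) (fun i j => U (f i) (f j)) = exi p q w U := r2 (xi p q)
  have s3 : phi β γ p q (fun i => w (f i)) (fun i j => U (f i) (f j)) = phi β γ p q w U := by
    rw [phi, phi, s1, s2, r3]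
  have hb' := fun x y => hb (U x y) p q (hA.1.nonneg x y) (hA.2 x y) p0 p2 q0 q2
  obtain ⟨ν, hν⟩ := CritAux.crit_pos (w := fun i => w (f i)) (U := fun i j => U (f i) (f j))
    ⟨⟨fun i => hA.1.w_nonneg _, r1.trans hA.1.w_sum, fun _ _ => hA.1.symm _ _,
      fun _ _ => hA.1.nonneg _ _, (r2 fun u => u).trans hA.1.mass_one⟩, fun _ _ => hA.2 _ _⟩
    (fun i => (e.symm i).2) hβ.le hγ hC hγB (fun _ _ => hb' _ _) (s3 ▸ hφ) fun w' U' h' => by
      let g : ι → Option (Fin (Fintype.card {x // 0 < w x})) := Function.extend f some fun _ => none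
      have hg : ∀ i, g (f i) = some i := fun i => hf.extend_apply _ _ i
      let w2 : ι → ℝ := fun x => (g x).elim 0 w'
      let U2 : ι → ι → ℝ := fun x y => (g x).elim 0 fun i => (g y).elim 0 (U' i)
      obtain ⟨t1, t2, t3⟩ := crit_restrict hf (w := w2) (fun x hx => by
        simp only [w2, g, Function.extend_apply' _ _ _ hx, Option.elim_none]) U2
      simp only [w2, U2, hg, Option.elim_some] at t1 t2 t3
      have := hmin w2 U2 ⟨⟨fun x => by
          simp only [w2]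
          cases g x
          exacts [le_rfl, h'.1.w_nonneg _], t1.symm.trans h'.1.w_sum, fun x y => by
          simp only [U2]
          cases g x <;> cases g y
          exacts [rfl, rfl, rfl, h'.1.symm _ _], fun x y => by
          simp only [U2]
          cases g x <;> cases g y
          exacts [le_rfl, le_rfl, le_rfl, h'.1.nonneg _ _],
        (t2 fun u => u).symm.trans h'.1.mass_one⟩, fun x y => by
          have : (0 : ℝ) ≤ L1 := by norm_num [L1]
          simp only [U2]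
          cases g x <;> cases g y
          exacts [this, this, this, h'.2 _ _]⟩
      rw [s3]
      refine this.trans_eq ?_
      rw [phi, phi, show ent w' U' = ent w2 U2 from t2 fun u => u * Real.log u,
        show exi p q w' U' = exi p q w2 U2 from t2 (xi p q), show tri w' U' = tri w2 U2 from t3]
  refine ⟨_, _, _, ν, s1, r3, s2, ?_, hν⟩
  have := le_of_abs_le (CritAux.abs_E2_le hA.1.w_nonneg hA.1.w_sum fun x y => (hb' x y).1)
  have c1 : C ≤ C ^ 3 := le_self_pow₀ hC (by norm_num)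
  exact this.trans (by linarith)

end
end Pool.Agent.MP_b5eafd_co

end

-- part MP_b5eafd_co.Step1
section

/-! The value of the variational problem from the certificates. -/

set_option autoImplicit false
open Finset Filter Topology

namespace Pool.Agent.MP_b5eafd_co
noncomputable section
open Classical

theorem no_crit (P : Par) (hP : P.OK) (D : Finset ℝ) (δ1 : ℝ) (hδ1 : 0 ≤ δ1) (hrow : P.RowOK D δ1)
    (hs : P.ScalOK) (hem : P.EmOK) {ι : Type} [Fintype ι] {w : ι → ℝ} {U : ι → ι → ℝ} {ν : ℝ}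
    (h : Crit w U P.β ν 0) (ht : tri w U = 1 - P.u ^ 3) (hch : P.ch0 < Real.exp (P.β - ν))
    (hV : tr2 w U ≤ P.V) : False := by
  have hβ := hP.β_pos
  have hu := hP.u_pos
  have hu3 : P.u ^ 3 < 1 := pow_lt_one₀ hu.le hP.u_lt (by norm_num)
  have ha : 0 < P.a := by
    unfold Par.a
    exact div_pos (mul_pos hβ (by linarith)) (by norm_num)
  obtain ⟨Δ, -, hΔ, hb, hr⟩ := hrow 0 (by linarith [hP.em_nonneg]) (by linarith)
  have hTE : P.β ^ 2 * P.u ^ 4 ≤ P.TE Δ 0 := by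
    have h1 : P.a * P.u ^ 4 ≤ P.a * (P.TE Δ 0 / P.β ^ 2) := by
      have h2 : (P.a - 0) * P.TE Δ 0 / P.β ^ 2 = P.a * (P.TE Δ 0 / P.β ^ 2) := by ring
      have h3 : P.K0 * P.s ^ 2 * 0 ^ 2 / (1 + 0) = 0 := by ring
      rw [h2, h3] at hr
      linarith [hP.m0_nonneg]
    have h4 := le_of_mul_le_mul_left h1 ha
    rw [le_div_iff₀ (by positivity)] at h4
    linarith
  have ht0 : |tri w U - (1 - P.u ^ 3)| ≤ 0 := by rw [ht]; simp
  have hc0 : P.ch0 * (1 - 0) ≤ Real.exp (P.β - ν) := by linarith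
  obtain ⟨δ0, hδ0, hdeg⟩ := deg_lower P hP hem
  obtain ⟨K, -, hK⟩ := core P hP D δ1 hrow Δ hΔ
  obtain ⟨c, x, l, lam, hC, hv, hf⟩ := hK 0 le_rfl (by norm_num) (by linarith) ι w U ν h ht0 hc0
    (hdeg 0 le_rfl hδ0.le ι w U ν h ht0 hc0) hV
  have hc : c = 1 := hs c x l lam hC (by linarith)
  subst hc
  have hlam : lam = 1 := by linarith [hC.rel]
  subst hlam
  have hl : l = 0 := by
    have h1 := hC.lc
    have h2 := hC.l0
    simp only [one_pow, sub_self, zero_mul, mul_one, add_zero] at h1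
    linarith
  subst hl
  have hmu : P.mu 0 0 1 = P.u := by simp [Par.mu]
  have hKt : P.Kt 0 0 1 = 1 + P.u := by simp [Par.Kt, hmu]
  rw [hKt, hmu] at hf
  have hw := h.adm.1.w_nonneg
  have h0 : 0 ≤ ∑ x', ∑ y', w x' * w y' * fT P.C Δ (Real.log (U x' y') + P.β - ν) :=
    sum_nonneg fun a _ => sum_nonneg fun b _ =>
      mul_nonneg (mul_nonneg (hw a) (hw b)) (two_point P.C hΔ _).1
  have h1 := mul_lt_mul_of_pos_right hch hb
  unfold Par.TE at hTE
  nlinarith

theorem step1_right {g : ℝ → ℝ} {c x b : ℝ} (h : HasDerivAt g c x) (hb : x < b)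
    (hmin : ∀ y, x < y → y < b → g x ≤ g y) : 0 ≤ c := by
  have h1 := (hasDerivAt_iff_tendsto_slope.1 h).mono_left (nhdsGT_le_nhdsNE x)
  refine ge_of_tendsto h1 ?_
  filter_upwards [Ioo_mem_nhdsGT hb] with y hy
  rw [slope_def_field]
  exact div_nonneg (sub_nonneg.2 (hmin y hy.1 hy.2)) (sub_nonneg.2 hy.1.le)

theorem step1_left {g : ℝ → ℝ} {c x a : ℝ} (h : HasDerivAt g c x) (ha : a < x)
    (hmin : ∀ y, a < y → y < x → g x ≤ g y) : c ≤ 0 := by
  have h1 := (hasDerivAt_iff_tendsto_slope.1 h).mono_left (nhdsLT_le_nhdsNE x)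
  refine le_of_tendsto h1 ?_
  filter_upwards [Ioo_mem_nhdsLT ha] with y hy
  rw [slope_def_field]
  exact div_nonpos_of_nonneg_of_nonpos (sub_nonneg.2 (hmin y hy.1 hy.2)) (sub_nonpos.2 hy.2.le)

/-- the curved regime. -/
theorem step1_curved {θ : ℝ} (hθ : 1812 / 1000 ≤ θ) {ι : Type} [Fintype ι] {w : ι → ℝ}
    {U : ι → ι → ℝ} {ν : ℝ} (h : Crit w U (bet θ) ν 0) (ht : tri w U = 1 - sg θ ^ 3)
    (hlt : ent w U + bet θ / 3 * tri w U < fv θ) : False := by
  have hθ0 : 0 < θ := by linarith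
  have hσ := sg_pos hθ0
  have hβ : 0 < bet θ := lt_of_lt_of_le hθ0 (le_bet hθ0)
  have hν : ν = ent w U + bet θ * tri w U := by
    have := abs_nonpos_iff.1 h.nu
    linarith
  have hbs : bet θ * sg θ ^ 3 = θ * sg θ := by
    unfold bet
    field_simp
  have hlog : Real.log (Real.cosh θ) < bet θ - ν := by
    rw [hν, ht]
    rw [ht] at hlt
    unfold fv at hlt
    nlinarith
  have hc := Real.cosh_pos θ
  have hch : Real.cosh θ < Real.exp (bet θ - ν) := (Real.log_lt_iff_lt_exp hc).1 hlog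
  obtain ⟨P, D, e1, e2, e3, -, hP, hrow, hs, hem, hV⟩ := cert_curved hθ
  have h2 : tr2 w U ≤ Real.exp (ν + 0) := tr2_le_of_le h.adm.1 (U_le_exp hβ.le h)
  have h3 : Real.exp (ν + 0) ≤ Real.exp (bet θ) / Real.cosh θ := by
    rw [le_div_iff₀ hc, add_zero]
    calc Real.exp ν * Real.cosh θ ≤ Real.exp ν * Real.exp (bet θ - ν) :=
          mul_le_mul_of_nonneg_left hch.le (Real.exp_pos ν).le
      _ = Real.exp (bet θ) := by rw [← Real.exp_add]; ring_nf
  rw [e1, e3] at hV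
  have h4 : 0 ≤ Real.exp (bet θ) / Real.cosh θ := by positivity
  refine no_crit P hP D (1 / 1000) (by norm_num) hrow hs hem (w := w) (U := U) (ν := ν)
    (by rw [e1]; exact h) (by rw [e2]; exact ht) (by rw [e1, e3]; exact hch) (by linarith)

theorem step1_avg {ι : Type} [Fintype ι] {w : ι → ℝ} {U : ι → ι → ℝ} (h : IsKer w U) {κ : ℝ}
    (hpt : ∀ a b, (U a b - 1) + κ * (U a b - 1) ^ 2 ≤ U a b * Real.log (U a b)) :
    κ * (tr2 w U - 1) ≤ ent w U := by
  have h1 : ∑ a, ∑ b, w a * w b * ((U a b - 1) + κ * (U a b - 1) ^ 2) ≤ ent w U :=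
    sum_le_sum fun a _ => sum_le_sum fun b _ =>
      mul_le_mul_of_nonneg_left (hpt a b) (mul_nonneg (h.w_nonneg a) (h.w_nonneg b))
  have h2 : ∀ a b, w a * w b * ((U a b - 1) + κ * (U a b - 1) ^ 2)
      = κ * (w a * w b * U a b ^ 2) + (1 - 2 * κ) * (w a * w b * U a b)
        + (κ - 1) * (w a * w b) := fun a b => by ring
  have h3 : ∑ a, ∑ b, w a * w b = 1 := by rw [← sum_mul_sum, h.w_sum, one_mul]
  have h4 := h.mass_one
  unfold mass at h4
  have h5 : ∑ a, ∑ b, w a * w b * ((U a b - 1) + κ * (U a b - 1) ^ 2)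
      = κ * (∑ a, ∑ b, w a * w b * U a b ^ 2) + (1 - 2 * κ) * (∑ a, ∑ b, w a * w b * U a b)
        + (κ - 1) * ∑ a, ∑ b, w a * w b := by
    simp only [h2, sum_add_distrib, mul_sum]
  rw [h5, h3, h4] at h1
  unfold tr2
  linarith

/-- the linear regime. -/
theorem step1_lin {θ : ℝ} (hs : IsStar θ) {ι : Type} [Fintype ι] {w : ι → ℝ}
    {U : ι → ι → ℝ} {ν : ℝ} (h : Crit w U (bet θ) ν 0) (ht : 1 - sg θ ^ 3 ≤ tri w U)
    (hlt : ent w U + bet θ / 3 * tri w U < fv θ) : False := by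
  have hθ0 : 0 < θ := by linarith [hs.1]
  have hσ := sg_pos hθ0
  have hβ : 0 < bet θ := lt_of_lt_of_le hθ0 (le_bet hθ0)
  have hk := h.adm.1
  have hE := ent_nonneg hk
  have hν : ν = ent w U + bet θ * tri w U := by
    have := abs_nonpos_iff.1 h.nu
    linarith
  rw [hs.2.2] at hlt
  have ht1 : 0 < 1 - tri w U := by nlinarith
  obtain ⟨u, hu0, hu3⟩ : ∃ u : ℝ, 0 < u ∧ u ^ 3 = 1 - tri w U :=
    ⟨(1 - tri w U) ^ ((3 : ℕ) : ℝ)⁻¹, Real.rpow_pos_of_pos ht1 _,
      Real.rpow_inv_natCast_pow ht1.le (by norm_num)⟩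
  have ht' : tri w U = 1 - u ^ 3 := by linarith
  have huσ : u ≤ sg θ := le_of_pow_le_pow_left₀ (n := 3) (by norm_num) hσ.le (by linarith)
  rw [ht'] at hlt hν
  have hE2 : ent w U < bet θ * u ^ 3 / 3 := by linarith
  have hν2 : ν < bet θ - 2 * bet θ * u ^ 3 / 3 := by linarith
  have hU : ∀ x y, U x y ≤ Real.exp (bet θ - 2 * bet θ * u ^ 3 / 3) := fun x y =>
    (U_le_exp hβ.le h x y).trans (Real.exp_le_exp.2 (by linarith))
  rcases le_total (3 / 10) u with hu | hu
  · obtain ⟨P, D, e1, e2, e3, hP, hrow, hsc, hem, hV⟩ := cert_lin hs hu huσ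
    have h2 : tr2 w U ≤ P.V := tr2_le_of_VOK P hP e3 hV hk (by rw [e1, e2]; exact hU)
      (by rw [e1, e2]; exact hE2.le)
    refine no_crit P hP D 0 le_rfl hrow hsc hem (w := w) (U := U) (ν := ν)
      (by rw [e1]; exact h) (by rw [e2]; exact ht') ?_ h2
    rw [e3, e1, e2]
    exact Real.exp_lt_exp.2 (by linarith)
  · obtain ⟨-, hb2, hb3⟩ := cert_small hs
    have hbu : 0 < bet θ * u ^ 3 := by positivity
    have h1 : 2017 / 10000 * (tr2 w U - 1) ≤ ent w U := by
      refine step1_avg hk fun a b => ?_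
      have := value_pt 1 (2017 / 10000) (Real.exp (bet θ)) (U a b) one_pos (by norm_num)
        (by norm_num) (hk.nonneg a b) ((hU a b).trans (Real.exp_le_exp.2 (by linarith)))
        (Real.one_le_exp hβ.le) (by simpa [Real.log_exp] using hb3)
      simpa using this
    have h2 := tri_ge hk (Real.sqrt (tr2 w U - 1)) (Real.sqrt_nonneg _)
      (by rw [Real.sq_sqrt']; exact le_max_left _ _)
    have h3 : u ≤ Real.sqrt (tr2 w U - 1) :=
      le_of_pow_le_pow_left₀ (n := 3) (by norm_num) (Real.sqrt_nonneg _) (by linarith)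
    have h4 : u ^ 2 ≤ tr2 w U - 1 := (Real.le_sqrt' hu0).1 h3
    have h5 : bet θ * u ≤ 20165 / 10000 * (3 / 10) := mul_le_mul hb2 hu hu0.le (by norm_num)
    have h6 : 0 < u ^ 2 := by positivity
    nlinarith

/-- the value of the variational problem. -/
theorem step1 {θs θ : ℝ} (hs : IsStar θs) (hθ : θs ≤ θ) {ι : Type} [Fintype ι] {w : ι → ℝ}
    {U : ι → ι → ℝ} (h : Adm w U) : fv θ ≤ ent w U + bet θ / 3 * tri w U := by
  by_contra hneg
  rw [not_le] at hneg
  have hs0 : 3 / 2 ≤ θs := by linarith [hs.1]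
  set η : ℝ := fv θ - (ent w U + bet θ / 3 * tri w U) with hη
  have hη0 : 0 < η := by linarith
  have hA := isCompact_adm ι
  obtain ⟨τ, hτ, hτK⟩ : ∃ τ : ℝ, 0 < τ ∧ ∀ x ∈ {x : (ι → ℝ) × (ι → ι → ℝ) | Adm x.1 x.2} ∩
      {x | ent x.1 x.2 ≤ Real.log 2 - η}, τ ≤ tri x.1 x.2 := by
    refine (hA.inter_right (isClosed_le (continuous_ent ι) continuous_const)).exists_forall_le'
      (continuous_tri ι).continuousOn fun x hx => ?_
    refine lt_of_le_of_ne (tri_nonneg hx.1.1) fun h0 => ?_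
    have h1 := mantel hx.1.1 h0.symm
    have h2 : ent x.1 x.2 ≤ Real.log 2 - η := hx.2
    linarith
  set θ1 : ℝ := max θ (3 * Real.log 2 / τ) + 1 with hθ1
  have hθθ1 : θ < θ1 := by linarith [le_max_left θ (3 * Real.log 2 / τ)]
  have hτθ1 : 3 * Real.log 2 / τ < θ1 := by linarith [le_max_right θ (3 * Real.log 2 / τ)]
  have hend : ∀ (w' : ι → ℝ) (U' : ι → ι → ℝ), Adm w' U' →
      -η < ent w' U' + bet θ1 / 3 * tri w' U' - fv θ1 := by
    intro w' U' h'
    have h1 : fv θ1 ≤ Real.log 2 := fv_le_log_two (by linarith)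
    have h2 : θ1 ≤ bet θ1 := le_bet (by linarith)
    have h3 := ent_nonneg h'.1
    have h4 := tri_nonneg h'.1
    have h5 : 0 ≤ bet θ1 := by linarith
    by_cases hc : ent w' U' ≤ Real.log 2 - η
    · have h6 : τ ≤ tri w' U' := hτK (w', U') ⟨h', hc⟩
      have h7 : 3 * Real.log 2 < bet θ1 * τ := by
        rw [div_lt_iff₀ hτ] at hτθ1
        nlinarith
      have h8 := mul_le_mul_of_nonneg_left h6 h5
      linarith
    · have h8 := mul_nonneg h5 h4
      linarith
  have hcb : ContinuousOn bet (Set.Icc θs θ1) := fun t ht => by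
    obtain ⟨D, -, hD, -⟩ := hasDerivAt_bet_fv (θ := t) (hs0.trans ht.1)
    exact hD.continuousAt.continuousWithinAt
  have hcf : ContinuousOn fv (Set.Icc θs θ1) := fun t ht => by
    obtain ⟨D, -, -, hD⟩ := hasDerivAt_bet_fv (θ := t) (hs0.trans ht.1)
    exact hD.continuousAt.continuousWithinAt
  have hH : ContinuousOn (fun z : ((ι → ℝ) × (ι → ι → ℝ)) × ℝ =>
      ent z.1.1 z.1.2 + bet z.2 / 3 * tri z.1.1 z.1.2 - fv z.2)
      ({x : (ι → ℝ) × (ι → ι → ℝ) | Adm x.1 x.2} ×ˢ Set.Icc θs θ1) :=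
    (((continuous_ent ι).comp continuous_fst).continuousOn.add
      (((hcb.comp continuousOn_snd fun z hz => hz.2).div_const 3).mul
        ((continuous_tri ι).comp continuous_fst).continuousOn)).sub
      (hcf.comp continuousOn_snd fun z hz => hz.2)
  obtain ⟨⟨⟨w0, U0⟩, θ0⟩, ⟨hA0, hθ0⟩, hmin⟩ := (hA.prod isCompact_Icc).exists_isMinOn
    ⟨((w, U), θ), h, hθ, hθθ1.le⟩ hH
  have hA0' : Adm w0 U0 := hA0
  have hθ0' : θs ≤ θ0 ∧ θ0 ≤ θ1 := hθ0
  have hm : ∀ (w' : ι → ℝ) (U' : ι → ι → ℝ) (t : ℝ), Adm w' U' → θs ≤ t → t ≤ θ1 →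
      ent w0 U0 + bet θ0 / 3 * tri w0 U0 - fv θ0 ≤ ent w' U' + bet t / 3 * tri w' U' - fv t :=
    fun w' U' t h1 h2 h3 => hmin (a := ((w', U'), t)) ⟨h1, h2, h3⟩
  have hval : ent w0 U0 + bet θ0 / 3 * tri w0 U0 - fv θ0 ≤ -η := by
    have := hm w U θ h hθ hθθ1.le
    linarith
  have hlt1 : θ0 < θ1 := by
    refine lt_of_le_of_ne hθ0'.2 fun he => ?_
    have := hend w0 U0 hA0'
    rw [he] at hval
    linarith
  have h32 : 3 / 2 ≤ θ0 := hs0.trans hθ0'.1
  obtain ⟨D, hD, hb, hf⟩ := hasDerivAt_bet_fv h32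
  have hg : HasDerivAt (fun t => ent w0 U0 + bet t / 3 * tri w0 U0 - fv t)
      (D / 3 * tri w0 U0 - D * (1 - sg θ0 ^ 3) / 3) θ0 :=
    (((hb.div_const 3).mul_const (tri w0 U0)).const_add (ent w0 U0)).sub hf
  have hge : 1 - sg θ0 ^ 3 ≤ tri w0 U0 := by
    have := step1_right hg hlt1 fun y h1 h2 => hm w0 U0 y hA0' (by linarith [hθ0'.1]) h2.le
    nlinarith
  have hβ : 0 < bet θ0 := lt_of_lt_of_le (by linarith) (le_bet (by linarith))
  obtain ⟨B, -, hB⟩ := crit_of_min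
  have hphi : ∀ (w' : ι → ℝ) (U' : ι → ι → ℝ),
      phi (bet θ0) 0 1 1 w' U' = ent w' U' + bet θ0 / 3 * tri w' U' := fun w' U' => by
    simp [phi]
  obtain ⟨k, w1, U1, ν, e1, e2, -, -, hC⟩ := hB (bet θ0) 0 1 1 hβ le_rfl (by simp) zero_le_one
    one_le_two zero_le_one one_le_two ι w0 U0 hA0'
    (by
      have h1 := fv_le_log_two h32
      have h2 := Real.log_two_lt_d9
      rw [hphi]
      linarith)
    (fun w' U' h' => by
      have := hm w' U' θ0 h' hθ0'.1 hθ0'.2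
      rw [hphi, hphi]
      linarith)
  rw [zero_mul] at hC
  have hlt : ent w1 U1 + bet θ0 / 3 * tri w1 U1 < fv θ0 := by
    rw [e1, e2]
    linarith
  rcases hθ0'.1.eq_or_lt with he | hlt0
  · subst he
    exact step1_lin hs hC (by rw [e2]; exact hge) hlt
  · have hle : tri w0 U0 ≤ 1 - sg θ0 ^ 3 := by
      have := step1_left hg hlt0 fun y h1 h2 => hm w0 U0 y hA0' h1.le (by linarith)
      nlinarith
    exact step1_curved (by linarith [hs.1]) hC (by rw [e2]; linarith) hlt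

end
end Pool.Agent.MP_b5eafd_co

end

-- part MP_b5eafd_co.Step2
section

/-
HINTS (uses only the STATEMENTS of Step1, Cert, Core, Crit, Th, Two).
scal_stable: by contradiction / compactness in (delta, c, x, l, lam) in [0,1] x [0,1] x R^3 (x^2 <= V - 1, lam^2 + l^2 <= V bound everything): the set where Cons holds,
 0 <= G and eps <= Hq is closed and bounded (all functions are continuous, max 0 included); minimise delta over it; if the minimum were 0, ScalOK gives c = 1, lam = 1, l = 0,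
 mu = u, Kt = 1 + u, Hq = 0 < eps.  So the minimum is positive (or the set is empty).
xi_le_fT: Z = {(y,k) in [-R,R] x [k0-1,k0+1] | eps <= xi p q (exp y * k)} is compact and fT y + |k - k0| > 0 on it (two_point: the zeros are -theta, theta since yT = -theta;
 exp(+-theta)/cosh theta = 1 +- sg theta).  With h0 = min, delta0 = min (h0/2) 1, Kx = 2 Gmax/h0.
step2: P, D from cert_curved, B from crit_of_min, beta = bet theta, sigma = sg theta, p = 1 - sigma, q = 1 + sigma.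
 KEY: for gamma' > 0 small, every minimiser (w1,U1) of phi beta gamma' p q over Adm (same iota) with ent + beta/3 tri <= fv + gamma'(B+1) has exi <= eps/2:
 crit_of_min gives Crit with gamma' B; tri_close (with step1) gives |tri - (1 - sigma^3)| <= delta; step1 gives fv <= ent + beta/3 tri, so
 |nu - nu0| <= small with nu0 = beta - log cosh theta = fv + 2 beta (1-sigma^3)/3; Crit is monotone in delta (prove it); exp(-s) >= 1 - s;
 tr2 <= exp(nu + delta) <= 1.03 exp beta/cosh <= V; deg_lower, core with Delta0 = 2 theta, scal_stable, and the identity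
 beta^2 sigma^4 + dC = cosh theta * bE (2 theta) 0 (average fT_zero at -theta and theta; beta sigma^2 = theta) give E fT(Y) <= small;
 Y = log U + beta - nu = beta(1 - sqK) +- delta lies in [-R,R], R = beta (1 + L1^2) + 1, and U = exp Y * exp(nu - beta); xi_le_fT.
 Then gamma = min(gamma' eps/4, gamma', 1/4): if exi w U > eps the minimiser (isCompact_adm, continuity) has phi <= fv + gamma - gamma' eps, while phi >= fv - gamma' eps/2.
-/

set_option autoImplicit false
open Finset Filter Topology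

namespace Pool.Agent.MP_b5eafd_co
noncomputable section
open Classical

theorem scal_stable (P : Par) (hP : P.OK) (hs : P.ScalOK) (K ε : ℝ) (hε : 0 < ε) :
    ∃ δ0 : ℝ, 0 < δ0 ∧ ∀ δ c x l lam : ℝ, 0 ≤ δ → δ ≤ δ0 → P.Cons δ c x l lam →
      0 ≤ P.v δ c x l lam
          + δ * K * (1 + P.mu δ l lam + P.Kt δ l lam + l ^ 3 * (l + P.mu δ l lam)) →
      P.β ^ 2 * (P.Kt δ l lam - 1 - P.mu δ l lam * (1 - P.u ^ 3) + l ^ 3 * (l + P.mu δ l lam))
            + δ * K * (1 + P.mu δ l lam) ≤ P.β ^ 2 * P.u ^ 4 + ε := by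
  let S : Set (ℝ × ℝ × ℝ × ℝ × ℝ) := {z | 0 ≤ z.1 ∧ z.1 ≤ 1 ∧
    P.Cons z.1 z.2.1 z.2.2.1 z.2.2.2.1 z.2.2.2.2 ∧
    0 ≤ P.v z.1 z.2.1 z.2.2.1 z.2.2.2.1 z.2.2.2.2 + z.1 * K * (1 + P.mu z.1 z.2.2.2.1 z.2.2.2.2 +
      P.Kt z.1 z.2.2.2.1 z.2.2.2.2 + z.2.2.2.1 ^ 3 * (z.2.2.2.1 + P.mu z.1 z.2.2.2.1 z.2.2.2.2)) ∧
    P.β ^ 2 * P.u ^ 4 + ε ≤ P.β ^ 2 * (P.Kt z.1 z.2.2.2.1 z.2.2.2.2 - 1 -
      P.mu z.1 z.2.2.2.1 z.2.2.2.2 * (1 - P.u ^ 3) +
      z.2.2.2.1 ^ 3 * (z.2.2.2.1 + P.mu z.1 z.2.2.2.1 z.2.2.2.2)) +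
      z.1 * K * (1 + P.mu z.1 z.2.2.2.1 z.2.2.2.2)}
  have hC : ∀ δ c x l lam, P.Cons δ c x l lam ↔ _ := fun δ c x l lam =>
    ⟨fun h => And.intro h.c0 (And.intro h.c1 (And.intro h.l0 (And.intro h.lam1 (And.intro h.rel
      (And.intro h.xl (And.intro h.xmu (And.intro h.eta (And.intro h.lup (And.intro h.lc
      (And.intro h.xV (And.intro h.lamV h.SV))))))))))),
      fun ⟨a, b, c, d, e, f, g, h, i, j, k, l, m⟩ => ⟨a, b, c, d, e, f, g, h, i, j, k, l, m⟩⟩
  have h1 : IsClosed S := by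
    simp only [S, hC, Set.ofPred_and, Par.v, Par.At, Par.Kt, Par.mu]
    repeat' apply IsClosed.inter
    all_goals first
      | exact isClosed_le (by fun_prop) (by fun_prop)
      | exact isClosed_eq (by fun_prop) (by fun_prop)
  have h2 : IsCompact S := (isCompact_Icc (a := (0, 0, -P.V, 0, 1))
    (b := (1, 1, P.V, P.V, P.V))).of_isClosed_subset h1 fun z ⟨a, b, c, _⟩ => by
      have := c.xV
      have := c.lamV
      have := c.lam1
      have := c.l0
      exact ⟨⟨a, c.c0, by nlinarith, c.l0, c.lam1⟩, b, c.c1, by nlinarith, by nlinarith,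
        by nlinarith⟩
  obtain ⟨δ0, h3, h4⟩ := h2.exists_forall_le' continuous_fst.continuousOn (a := 0) (by
    rintro ⟨δ, c, x, l, lam⟩ ⟨a, -, b, d, e⟩
    refine lt_of_le_of_ne a ?_
    rintro (rfl : 0 = δ)
    obtain rfl : c = 1 := hs c x l lam b (by simpa using d)
    obtain rfl : lam = 1 := by linarith [b.rel]
    obtain rfl : l = 0 := le_antisymm (by linarith [b.lc]) b.l0
    norm_num [Par.Kt, Par.mu] at e
    linarith)
  refine ⟨min (δ0 / 2) 1, by positivity, fun δ c x l lam a b d e => not_lt.1 fun h => ?_⟩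
  have := h4 (δ, c, x, l, lam) ⟨a, b.trans (min_le_right _ _), d, e, h.le⟩
  linarith [b.trans (min_le_left _ _)]

theorem step2_yT (θ : ℝ) : yT (-(2 * θ) - gT (2 * θ) - bT (2 * θ)) (2 * θ) = -θ := by
  unfold yT
  ring

theorem xi_le_fT {θ : ℝ} (hθ : 0 < θ) (R ε : ℝ) (hε : 0 < ε) :
    ∃ δ0 Kx : ℝ, 0 < δ0 ∧ 0 ≤ Kx ∧ ∀ y k : ℝ, |y| ≤ R → |k - (Real.cosh θ)⁻¹| ≤ δ0 →
      xi (1 - sg θ) (1 + sg θ) (Real.exp y * k) ≤
        ε + Kx * fT (-(2 * θ) - gT (2 * θ) - bT (2 * θ)) (2 * θ) y := by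
  have hG : Continuous fun z : ℝ × ℝ => xi (1 - sg θ) (1 + sg θ) (Real.exp z.1 * z.2) := by
    unfold xi
    fun_prop
  have hB := isCompact_Icc (a := (-R, (Real.cosh θ)⁻¹ - 1)) (b := (R, (Real.cosh θ)⁻¹ + 1))
  obtain ⟨G, hG2⟩ := hB.bddAbove_image hG.continuousOn
  have h2 := two_point (-(2 * θ) - gT (2 * θ) - bT (2 * θ)) (show 0 < 2 * θ by positivity)
  rw [step2_yT] at h2
  generalize hC : -(2 * θ) - gT (2 * θ) - bT (2 * θ) = C at h2
  obtain ⟨h, h3, h4⟩ := (hB.inter_right (isClosed_le continuous_const hG (f := fun _ => ε))).exists_forall_le'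
    (f := fun z => fT C (2 * θ) z.1 + |z.2 - (Real.cosh θ)⁻¹|) (a := 0) (by
      unfold fT
      fun_prop) (by
    rintro ⟨y, k⟩ ⟨-, a⟩
    have b := (h2 y).1
    have c := abs_nonneg (k - (Real.cosh θ)⁻¹)
    refine lt_of_le_of_ne (add_nonneg b c) fun d => ?_
    obtain rfl : k = (Real.cosh θ)⁻¹ := sub_eq_zero.1 (abs_eq_zero.1 (by linarith))
    have := (Real.cosh_pos θ).ne'
    refine not_lt.2 a (hε.trans_eq' ?_)
    rcases (h2 y).2 (by linarith) with e | e
    · have : Real.exp y * (Real.cosh θ)⁻¹ = 1 - sg θ := by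
        rw [e, sg, Real.tanh_eq_sinh_div_cosh, ← Real.cosh_sub_sinh]
        field_simp
      simp [xi, this]
    · have : Real.exp y * (Real.cosh θ)⁻¹ = 1 + sg θ := by
        rw [e, show -θ + 2 * θ = θ by ring, sg, Real.tanh_eq_sinh_div_cosh, ← Real.cosh_add_sinh]
        field_simp
      simp [xi, this])
  refine ⟨min (h / 2) 1, 2 * max G 0 / h, by positivity, by positivity, fun y k a b => ?_⟩
  have c := (h2 y).1
  by_cases d : xi (1 - sg θ) (1 + sg θ) (Real.exp y * k) ≤ ε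
  · exact d.trans (le_add_of_nonneg_right (by positivity))
  · have b1 := abs_le.1 (b.trans (min_le_right _ _))
    have e : (y, k) ∈ Set.Icc (-R, (Real.cosh θ)⁻¹ - 1) (R, (Real.cosh θ)⁻¹ + 1) :=
      ⟨⟨(abs_le.1 a).1, by linarith⟩, (abs_le.1 a).2, by linarith⟩
    have f := h4 (y, k) ⟨e, (not_le.1 d).le⟩
    have g := (hG2 ⟨_, e, rfl⟩).trans (le_max_left G 0)
    have i := mul_le_mul_of_nonneg_left (show h / 2 ≤ fT C (2 * θ) y by
      linarith [b.trans (min_le_left _ _)]) (show 0 ≤ 2 * max G 0 / h by positivity)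
    rw [show 2 * max G 0 / h * (h / 2) = max G 0 by field_simp] at i
    linarith

theorem step2_mono {ι : Type} [Fintype ι] {w : ι → ℝ} {U : ι → ι → ℝ} {β ν δ δ' : ℝ}
    (h : Crit w U β ν δ) (hδ : δ ≤ δ') : Crit w U β ν δ' :=
  ⟨h.adm, h.wpos, h.upos, fun x y => (h.el x y).trans hδ, h.nu.trans hδ,
    fun x => (h.row x).trans hδ, fun a ha => (h.second a ha).trans (add_le_add le_rfl
      (mul_le_mul_of_nonneg_right hδ (sum_nonneg fun x _ =>
        mul_nonneg (h.wpos x).le (sq_nonneg _))))⟩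

theorem step2_bet {θ : ℝ} (h : 0 < θ) : bet θ * sg θ ^ 2 = θ :=
  div_mul_cancel₀ _ (pow_pos (sg_pos h) 2).ne'

theorem step2_crit {θ : ℝ} (hθ : 1812 / 1000 ≤ θ) (ε : ℝ) (hε : 0 < ε) :
    ∃ δ : ℝ, 0 < δ ∧ ∀ (ι : Type) [Fintype ι] (w : ι → ℝ) (U : ι → ι → ℝ) (ν : ℝ),
      Crit w U (bet θ) ν δ → |tri w U - (1 - sg θ ^ 3)| ≤ δ →
      |ν - (bet θ - Real.log (Real.cosh θ))| ≤ δ → exi (1 - sg θ) (1 + sg θ) w U ≤ ε := by
  have h0 : 0 < θ := by linarith
  obtain ⟨P, D, p1, p2, p3, p4, p5, p6, p7, p8, p9⟩ := cert_curved hθ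
  have hβ := p5.β_pos
  have hc := Real.cosh_pos θ
  obtain ⟨K, -, hK⟩ := core P p5 D _ p6 (2 * θ) (by positivity)
  obtain ⟨δd, d0, hd⟩ := deg_lower P p5 p8
  obtain ⟨δx, Kx, x0, x1, hx⟩ := xi_le_fT h0 (P.β * (1 + L1 ^ 2) + 1) (ε / 2) (by positivity)
  have hη : 0 < ε / (4 * (Kx + 1)) := by positivity
  have hη2 : (Kx + 1) * (ε / (4 * (Kx + 1))) = ε / 4 := by field_simp
  generalize ε / (4 * (Kx + 1)) = η at hη hη2
  obtain ⟨δs, s0, hs⟩ := scal_stable P p5 p7 K η hη
  obtain ⟨ρ, r0, hr⟩ := Metric.eventually_nhds_iff.1 (show ∀ᶠ ν in 𝓝 (P.β - Real.log (Real.cosh θ)),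
      (Real.cosh θ - Real.exp (P.β - ν)) * P.bE (2 * θ) 0 < η ∧
      |(Real.exp (P.β - ν))⁻¹ - (Real.cosh θ)⁻¹| < δx ∧ Real.exp ν < P.V from
    (ContinuousAt.eventually_lt (by fun_prop) continuousAt_const (by simpa [Real.exp_log hc] using hη)).and
      ((ContinuousAt.eventually_lt (by fun_prop (disch := positivity)) continuousAt_const
        (by simpa [Real.exp_log hc] using x0)).and (ContinuousAt.eventually_lt (by fun_prop) continuousAt_const
        (by
          rw [Real.exp_sub, Real.exp_log hc, ← p3]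
          have : 0 < Real.exp P.β / P.ch0 := by rw [p3]; positivity
          linarith))))
  obtain ⟨δ, a0, a1, a2, a3, a4, a5⟩ : ∃ δ, 0 < δ ∧ δ ≤ δd ∧ δ ≤ δs ∧ δ ≤ ρ / 3 ∧ δ ≤ 1 / 2 ∧
      δ ≤ 1 / 1000 / (P.β + 1) := ⟨min δd (min δs (min (ρ / 3) (min (1 / 2) (1 / 1000 / (P.β + 1))))),
    by positivity, by simp, by simp, by simp, by simp, by simp⟩
  refine ⟨δ, a0, fun ι _ w U ν h ht hν => ?_⟩
  rw [← p1] at h hν
  rw [← p2] at ht
  obtain ⟨b1, b2, -⟩ := hr (y := ν) (by rw [Real.dist_eq]; linarith)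
  obtain ⟨-, -, b3⟩ := hr (y := ν + δ) (by
    rw [Real.dist_eq, abs_lt]
    constructor <;> linarith [abs_le.1 hν])
  have b4 : P.ch0 * (1 - δ) ≤ Real.exp (P.β - ν) := by
    rw [p3, show P.β - ν = Real.log (Real.cosh θ) + (P.β - Real.log (Real.cosh θ) - ν) by ring,
      Real.exp_add, Real.exp_log hc]
    exact mul_le_mul_of_nonneg_left (le_trans (by linarith [abs_le.1 hν]) (Real.add_one_le_exp _))
      hc.le
  obtain ⟨c, x, l, lam, c1, c2, c3⟩ := hK δ a0.le a4 (by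
      rwa [le_div_iff₀ (by positivity), mul_comm] at a5) ι w U ν h ht b4
    (hd δ a0.le a1 ι w U ν h ht b4)
    (tr2_le_of_le h.adm.1 fun x y => (U_le_exp hβ.le h x y).trans b3.le)
  have c4 := hs δ c x l lam a0.le a2 c1 c2
  have c5 : P.β ^ 2 * P.u ^ 4 + dC P.C (2 * θ) = Real.cosh θ * P.bE (2 * θ) 0 := by
    obtain ⟨z1, z2⟩ := fT_zero P.C (show 0 < 2 * θ by positivity)
    have z3 := step2_yT θ
    rw [← p4] at z3
    rw [z3] at z1 z2
    rw [show -θ + 2 * θ = θ by ring, fT, ← Real.cosh_add_sinh] at z2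
    rw [fT, ← Real.cosh_sub_sinh] at z1
    have z4 := step2_bet h0
    have z5 : sg θ * Real.cosh θ = Real.sinh θ := by
      rw [sg, Real.tanh_eq_sinh_div_cosh, div_mul_cancel₀ _ hc.ne']
    rw [Par.bE, p1, p2]
    linear_combination (z1 + z2) / 2 + (bet θ * sg θ ^ 2 + θ - bC P.C (2 * θ) * sg θ * Real.cosh θ) * z4 -
      bC P.C (2 * θ) * θ * z5
  have c6 : exi (1 - sg θ) (1 + sg θ) w U ≤
      ∑ x, ∑ y, w x * w y * (ε / 2 + Kx * fT P.C (2 * θ) (Real.log (U x y) + P.β - ν)) := by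
    refine sum_le_sum fun x _ => sum_le_sum fun y _ => mul_le_mul_of_nonneg_left ?_
      (mul_pos (h.wpos x) (h.wpos y)).le
    have i1 := CritAux.sqK_nonneg h.adm.1 x y
    have i2 : sqK w U x y ≤ L1 ^ 2 := by
      rw [← one_mul (L1 ^ 2), ← h.adm.1.w_sum, sum_mul]
      exact sum_le_sum fun z _ => mul_le_mul_of_nonneg_left (sq L1 ▸ mul_le_mul (h.adm.2 _ _)
        (h.adm.2 _ _) (h.upos _ _).le (by norm_num [L1])) (h.wpos z).le
    have i3 := abs_le.1 (h.el x y)
    have i4 := mul_le_mul_of_nonneg_left i2 hβ.le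
    have i5 := mul_nonneg hβ.le i1
    have := hx (Real.log (U x y) + P.β - ν) _ (by rw [abs_le]; constructor <;> linarith) b2.le
    rwa [add_sub_assoc, Real.exp_add, Real.exp_log (h.upos x y), mul_inv_cancel_right₀
      (Real.exp_pos _).ne', ← add_sub_assoc, ← p4] at this
  simp only [mul_add, sum_add_distrib, mul_left_comm _ Kx, ← mul_sum, ← sum_mul,
    h.adm.1.w_sum] at c6
  have c7 := mul_le_mul_of_nonneg_left (show ∑ x, ∑ y, w x * w y * fT P.C (2 * θ)
    (Real.log (U x y) + P.β - ν) ≤ 2 * η by linarith) x1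
  linarith

/-- near minimisers are nearly two valued. -/
theorem step2 {θs θ : ℝ} (hs : IsStar θs) (hθ : θs < θ) (ε : ℝ) (hε : 0 < ε) :
    ∃ γ : ℝ, 0 < γ ∧ ∀ (ι : Type) [Fintype ι] (w : ι → ℝ) (U : ι → ι → ℝ), Adm w U →
      ent w U + bet θ / 3 * tri w U ≤ fv θ + γ → exi (1 - sg θ) (1 + sg θ) w U ≤ ε := by
  have t0 := hs.1
  have h0 : 0 < θ := by linarith
  have hβ := h0.trans_le (le_bet h0)
  have s0 := sg_pos h0
  have s1 := sg_lt_one θ
  obtain ⟨B, hB, hcr⟩ := crit_of_min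
  obtain ⟨δ, d0, hd⟩ := step2_crit (show 1812 / 1000 ≤ θ by linarith) (ε / 2) (by positivity)
  have hη : 0 < δ / (bet θ + 1) := by positivity
  have hη2 : (bet θ + 1) * (δ / (bet θ + 1)) = δ := by field_simp
  generalize δ / (bet θ + 1) = η at hη hη2
  obtain ⟨γt, g0, hg⟩ := tri_close (show 3 / 2 ≤ θs by linarith) hθ η hη
  obtain ⟨g, a0, a1, a2, a3⟩ : ∃ g, 0 < g ∧ g ≤ 1 / B ∧ g ≤ γt / (B + 1) ∧ g ≤ δ / 3 / (2 * B + 1) :=
    ⟨min (1 / B) (min (γt / (B + 1)) (δ / 3 / (2 * B + 1))), by positivity, by simp, by simp,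
      by simp⟩
  rw [le_div_iff₀ (by positivity)] at a1 a2 a3
  obtain ⟨γ, b0, b1, b2, b3⟩ : ∃ γ, 0 < γ ∧ γ ≤ g * ε / 4 ∧ γ ≤ g ∧ γ ≤ 1 / 4 :=
    ⟨min (g * ε / 4) (min g (1 / 4)), by positivity, by simp, by simp, by simp⟩
  refine ⟨γ, b0, fun ι _ w U hA hF => not_lt.1 fun h => ?_⟩
  obtain ⟨⟨w0, U0⟩, m1, m2⟩ := (isCompact_adm ι).exists_isMinOn ⟨(w, U), hA⟩
    (f := fun x => phi (bet θ) g (1 - sg θ) (1 + sg θ) x.1 x.2)
    (((continuous_ent ι).add ((continuous_tri ι).const_mul _)).sub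
      ((continuous_exi ι _ _).const_mul _)).continuousOn
  have m3 : phi (bet θ) g (1 - sg θ) (1 + sg θ) w0 U0 ≤ _ := m2 (show (w, U) ∈ _ from hA)
  have m4 := mul_lt_mul_of_pos_left h a0
  have m5 := mul_pos a0 hε
  have m6 := fv_le_log_two (show 3 / 2 ≤ θ by linarith)
  have m7 := Real.log_two_lt_d9
  have m8 := step1 hs hθ.le m1
  obtain ⟨k, w1, U1, ν, e1, e2, e3, e4, hc⟩ := hcr (bet θ) g (1 - sg θ) (1 + sg θ) hβ a0.le a1
    (by linarith) (by linarith) (by linarith) (by linarith) ι w0 U0 m1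
    (by simp only [phi] at m3 ⊢; linarith) fun w' U' h' => m2 (show (w', U') ∈ _ from h')
  have m9 := mul_le_mul_of_nonneg_left e4 a0.le
  simp only [phi] at m3 m8
  have n1 := hg (ent w0 U0) (tri w0 U0) (fun θ' h' => step1 hs h' m1) (by linarith)
  have n2 := mul_pos hβ hη
  have n3 := mul_pos a0 hB
  have n4 := hd _ w1 U1 ν (step2_mono hc (by linarith)) (e2 ▸ n1.trans (by linarith)) (by
    have i1 := abs_le.1 hc.nu
    have i2 := mul_le_mul_of_nonneg_left (abs_le.1 n1).1 hβ.le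
    have i3 := mul_le_mul_of_nonneg_left (abs_le.1 n1).2 hβ.le
    have i4 : fv θ + 2 * bet θ * (1 - sg θ ^ 3) / 3 = bet θ - Real.log (Real.cosh θ) := by
      rw [fv]
      linear_combination -2 / 3 * sg θ * step2_bet h0
    rw [e1, e2] at i1
    rw [abs_le]
    constructor <;> linarith)
  have := mul_le_mul_of_nonneg_left (e3 ▸ n4) a0.le
  linarith

end
end Pool.Agent.MP_b5eafd_co

end

-- part MP_b5eafd_co.Step
section



end

-- part MP_b5eafd_co.Gap
section

/-
HINTS (uses only the STATEMENTS of Step, Th, Kern).  F = ent + beta/3 tri(trunc).  If F > 1 done since bet thetas/3 = fv thetas <= log 2, fv theta <= log 2 < 0.7.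
Otherwise take U', kappa from trunc_reduce.
gap_low: lam = beta/bet thetas < 1; step1 at thetas: ent' + beta/3 tri' = (1-lam) ent' + lam (ent' + bet thetas/3 tri') >= (1-lam) ent' + beta/3.
 Either kappa >= eps/4 or cutK U' S >= 1/2 + eps/2 and ent' >= eps^2/4 (ent_ge_of_cut).
gap_high: eps' from cut_of_xi (sg theta) (eps/4); gamma1 from step2 eps', gamma2 from tri_close eps' (with step1 for all theta' >= thetas); gamma = min(gamma1, gamma2, eps, 0.3).
 If F < fv + gamma then (step1) 6 kappa < gamma <= eps, and cut_of_xi for U' contradicts the hypothesis.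
-/

set_option autoImplicit false
open Finset Filter Topology

namespace Pool.Agent.MP_b5eafd_co
noncomputable section
open Classical

theorem gap_low {θs β : ℝ} (hs : IsStar θs) (hβ0 : 0 < β) (hβ : β < bet θs) (ε : ℝ) (hε : 0 < ε) :
    ∃ γ : ℝ, 0 < γ ∧ ∀ (ι : Type) [Fintype ι] (w : ι → ℝ) (U : ι → ι → ℝ), IsKer w U →
      (∃ S, 1 / 2 + ε ≤ cutK w U S) → β / 3 + γ ≤ ent w U + β / 3 * tri w (trunc L0 U) := by
  obtain ⟨h1, h2, h3⟩ := hs
  have hb : 0 < bet θs := hβ0.trans hβ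
  have hlog : fv θs ≤ Real.log 2 := fv_le_log_two (by linarith)
  have hl2 := Real.log_two_lt_d9
  set lam := β / bet θs with hlam
  have hl0 : 0 < lam := div_pos hβ0 hb
  have hl1 : lam < 1 := (div_lt_one hb).2 hβ
  have hβe : β = lam * bet θs := by rw [hlam]; field_simp
  refine ⟨min 0.3 (min ε ((1 - lam) * (ε / 2) ^ 2)),
    lt_min (by norm_num) (lt_min hε (mul_pos (by linarith) (by positivity))), ?_⟩
  rintro ι _ w U hU ⟨S, hS⟩
  have m1 : min 0.3 (min ε ((1 - lam) * (ε / 2) ^ 2)) ≤ (0.3 : ℝ) := min_le_left _ _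
  have m2 : min 0.3 (min ε ((1 - lam) * (ε / 2) ^ 2)) ≤ ε :=
    (min_le_right _ _).trans (min_le_left _ _)
  have m3 : min 0.3 (min ε ((1 - lam) * (ε / 2) ^ 2)) ≤ (1 - lam) * (ε / 2) ^ 2 :=
    (min_le_right _ _).trans (min_le_right _ _)
  by_cases hF : ent w U + β / 3 * tri w (trunc L0 U) ≤ 1
  · obtain ⟨U', κ, hA, hκ, hle, hcut⟩ := trunc_reduce hU β hβ0.le hF
    have e0 := ent_nonneg hA.1
    have s1 := step1 ⟨h1, h2, h3⟩ le_rfl hA
    have key : β / 3 + (1 - lam) * ent w U' ≤ ent w U' + β / 3 * tri w U' := by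
      have := mul_le_mul_of_nonneg_left s1 hl0.le
      rw [h3] at this
      rw [hβe]
      nlinarith
    by_cases hk : ε / 4 ≤ κ
    · have : 0 ≤ (1 - lam) * ent w U' := mul_nonneg (by linarith) e0
      linarith
    · have hc := (abs_le.1 (hcut S)).1
      have := ent_ge_of_cut hA.1 (ε / 2) (by positivity) S (by linarith)
      have : (1 - lam) * (ε / 2) ^ 2 ≤ (1 - lam) * ent w U' :=
        mul_le_mul_of_nonneg_left this (by linarith)
      linarith
  · linarith

theorem gap_high {θs θ : ℝ} (hs : IsStar θs) (hθ : θs < θ) (ε : ℝ) (hε : 0 < ε) :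
    ∃ γ : ℝ, 0 < γ ∧ ∀ (ι : Type) [Fintype ι] (w : ι → ℝ) (U : ι → ι → ℝ), IsKer w U →
      ((∃ S, (1 + sg θ) / 2 + ε ≤ cutK w U S) ∨ ∀ S, cutK w U S ≤ (1 + sg θ) / 2 - ε) →
      fv θ + γ ≤ ent w U + bet θ / 3 * tri w (trunc L0 U) := by
  have h1 := hs.1
  have hθ0 : 0 < θ := by linarith
  have hb : 0 ≤ bet θ := hθ0.le.trans (le_bet hθ0)
  have hlog : fv θ ≤ Real.log 2 := fv_le_log_two (by linarith)
  have hl2 := Real.log_two_lt_d9
  obtain ⟨ε', hε', hcx⟩ := cut_of_xi (sg θ) (ε / 4) (sg_pos hθ0) (sg_lt_one θ) (by positivity)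
  obtain ⟨γ1, hγ1, hs2⟩ := step2 hs hθ ε' hε'
  obtain ⟨γ2, hγ2, htc⟩ := tri_close (θs := θs) (by linarith) hθ ε' hε'
  refine ⟨min (min γ1 γ2) (min ε 0.3), lt_min (lt_min hγ1 hγ2) (lt_min hε (by norm_num)), ?_⟩
  intro ι _ w U hU hyp
  have m1 : min (min γ1 γ2) (min ε 0.3) ≤ γ1 := (min_le_left _ _).trans (min_le_left _ _)
  have m2 : min (min γ1 γ2) (min ε 0.3) ≤ γ2 := (min_le_left _ _).trans (min_le_right _ _)
  have m3 : min (min γ1 γ2) (min ε 0.3) ≤ ε := (min_le_right _ _).trans (min_le_left _ _)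
  have m4 : min (min γ1 γ2) (min ε 0.3) ≤ (0.3 : ℝ) := (min_le_right _ _).trans (min_le_right _ _)
  by_contra hcon
  rw [not_le] at hcon
  obtain ⟨U', κ, hA, hκ, hle, hcut⟩ := trunc_reduce hU (bet θ) hb (by linarith)
  have s1 := step1 hs hθ.le hA
  have hx := hs2 ι w U' hA (by linarith)
  have ht := htc (ent w U') (tri w U') (fun θ' h => step1 hs h hA) (by linarith)
  obtain ⟨c1, S1, c2⟩ := hcx ι w U' hA hx (by linarith [(abs_le.1 ht).2])
  rcases hyp with ⟨S, hS⟩ | hS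
  · linarith [c1 S, (abs_le.1 (hcut S)).1]
  · linarith [hS S1, (abs_le.1 (hcut S1)).2]

end
end Pool.Agent.MP_b5eafd_co

end
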