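import Pool.Agent.MP_b5eafd_co.Mg.Shearer3

/-
HINTS (Shearer / Cooper-Dutta-Mubayi type lower bound, typed, exact in the exponent).
W(L,k) = indCount * prod k_l!,  P(L,k) = prod n_l^k_l, n_l = |fib tau L l|, d_l(v) = number of nbrs of v in L_l, e_bc = eS (L_b) (L_c), r = card iota.
(0) W(L,k) >= sum_{v in L_a} W(L \ N[v], k - e_a) if k_a >= 1 (in fact =; N[v] closed nbhd), W monotone in L, W(L,0) = 1.
Parameters (reals): kap0 = e1 s, Mx = (K^3 + 2 eps) s, Ds = 2 + 8 Mx/kap0 (constant in s), rho = (Ds+1)/kap0, kap1 = kap0/(2(Ds+1)),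
pi0 = kap1/(kap1 + r kap0), lam = 2 rho/pi0 (<= 1/2), c0 = b s^3, N0 = c0/Mx (>= kap0, >= 10 ..), eta small constant.
j_l = k_l + kap0, x_l = j_l/n_l, D(v) = sum_l x_l d_l(v), Qf(L,k) = (1/2) sum_bc x_b x_c e_bc,
Pot(L,k) = Qf + c0 (1-lam)^{-|k|} sum_l 1/n_l + eta |k| + kap1.
CLAIM (strong induction on |L|, all k with |k| <= K s, all n_l >= 1):  W(L,k) >= P(L,k) (exp(-Pot) - exp(-Mx)).
It is best to state the claim as a finite lemma whose hypotheses are the numeric inequalities needed below, then choose parameters.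
(a) Pot >= Mx trivial.  Otherwise Qf < Mx, every n_l > N0, c0(1-lam)^{-|k|}/n_l < Mx.
(b) Trim: some v in L_a has D(v) >= Ds.  L' = L.erase v, W(L,k) >= W(L',k), P(L',k) = P (1-1/n_a)^{k_a} <= P.
    Qf' <= (1-1/n_a)^{-2} (Qf - x_a D(v)) <= Qf + (3 Mx - j_a Ds)/n_a; loss -k_a log(1-1/n_a) <= 2 k_a/n_a; c-term grows <= 2 Mx/n_a.
    Sum <= (5 Mx + 2 j_a - j_a Ds)/n_a <= 0 since j_a >= kap0.
(c) Now all D(v) < Ds, so (d_l(v) + 1)/n_l <= rho.  Endgame |k| <= kap1: greedy lemma (induct on |k|, for subsets L' of L with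
    |L'_l| >= n_l (1 - i rho)): W >= prod (n_l (1 - kap1 rho))^{k_l} >= P exp(-2 kap1 rho |k|) >= P exp(-kap1) as kap1 rho = 1/2.
(d) Main step |k| > kap1.  For v in L_a let L_v = L \ N[v], delta_l = (d_l(v) + [l=a])/n_l <= rho, n'_l = n_l (1 - delta_l).
    With weights (1/|j|)(k_a/n_a) for the real pick (v, k' = k - e_a) and (1/|j|)(kap0/n_a) for the virtual pick (v, k' = k), total weight 1,
    W/P >= E[ W(L_v,k')/P(L_v,k') * prod_l (1-delta_l)^{k'_l} ]  (real: (0); virtual: monotonicity), so by IH and Jensen (exp x >= exp(x0)(1 + x - x0))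
    it suffices that E[Pot(L_v,k') - sum_l k'_l log(1-delta_l)] <= Pot(L,k).
    Triangle-free gives EXACTLY e'_bc = e_bc - sum_{u in N_b(v)} d_c(u) - sum_{u in N_c(v)} d_b(u)  (only <= is needed).
    x'_b = x_b y_b, y_b = (1 - th_b)/(1 - delta_b), th_b = [real, b = a]/j_a <= rho;  1 - 2 rho <= y_b y_c <= 1 + delta_b + delta_c - th_b - th_c + 10 rho^2.
    Let Db_b = sum_c x_c e_bc / n_b (mean of D over L_b), Z(v) = sum_{u ~ v, u in L} x_{tau u} D(u) <= Ds^2.  Pointwise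
    Qf' <= Qf + sum_b j_b Db_b delta_b - [real] Db_a + 10 rho^2 Mx - Z(v) + 2 rho Ds^2.
    E over picks = (1/|j|) sum_v x_{tau v} (.) for functions of v only; sum_v x_{tau v} d_b(v) = n_b Db_b.
    E[sum_b x_b Db_b d_b(v)] = (1/|j|) sum_b j_b Db_b^2 <= (1/|j|) sum_u x_{tau u} D(u)^2 = E Z   (Cauchy-Schwarz on each L_b).
    E[[real] Db_a] = (1/|j|) sum_a k_a Db_a = E[sum_l k_l d_l(v)/n_l]  cancels the loss, -log(1-t) <= t + t^2 for t <= 1/2.
    Left over error err = 10 rho^2 Mx + 2 rho Ds^2 + Ds (K s + kap0)/N0 + K s rho^2 + K s/N0 = O(1/s) <= eta pi0 <= eta |k|/|j|.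
    c-term: 1/n'_l <= (1+2rho)/n_l and E (1-lam)^{[real]} = 1 - lam |k|/|j| <= 1 - 2 rho.
(e) Start: Qf <= energy + kap0 r K^2 + kap0^2 r^2 K/(2s) (x_b x_c e_bc = j_b j_c qL b c), energy <= K^3 s/2, (1-lam)^{-K s} <= exp(2 lam K s) = const,
    c-term <= b s exp(const) r/eps; choose e1, eta, b small so that Pot <= energy + eps s - 1 <= Mx - 1; exp(-Pot) - exp(-Mx) >= exp(-Pot-1).
-/

set_option autoImplicit false
open Finset Filter Topology

namespace Pool.Agent.MP_b5eafd_co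
noncomputable section
open Classical

namespace ShearerAux

lemma QQ_eq {V : Type} [Fintype V] {ι : Type} [Fintype ι] (G : SimpleGraph V) (τ : V → ι) (κ : ℝ)
    (L : Finset V) (k : ι → ℕ) :
    QQ G (xw τ κ L k) L = (∑ a, ∑ b, qL G τ L a b * (((k a : ℝ) + κ) * ((k b : ℝ) + κ))) / 2 := by
  unfold QQ
  congr 1
  have a1 := sum_fib_mul τ L (xl τ κ L k) (DD G (xw τ κ L k) L)
  have a2 : ∑ u ∈ L, xw τ κ L k u * DD G (xw τ κ L k) L u
      = ∑ u ∈ L, xl τ κ L k (τ u) * DD G (xw τ κ L k) L u := rfl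
  rw [a2, a1]
  refine sum_congr rfl fun a _ => ?_
  have a3 : ∀ u, DD G (xw τ κ L k) L u = ∑ b, xl τ κ L k b * ∑ w ∈ fib τ L b, adjR G u w :=
    fun u => sum_fib_mul τ L (xl τ κ L k) (adjR G u)
  simp only [a3]
  rw [sum_comm, mul_sum]
  refine sum_congr rfl fun b _ => ?_
  rw [← mul_sum]
  unfold qL xl eS nn
  ring

lemma start_Q {V : Type} [Fintype V] {ι : Type} [Fintype ι] (G : SimpleGraph V) (τ : V → ι)
    (κ q : ℝ) (hκ : 0 ≤ κ) (L : Finset V) (k : ι → ℕ) (hq : ∀ a b, qL G τ L a b ≤ q) :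
    QQ G (xw τ κ L k) L ≤ energy (qL G τ L) k
      + q * (κ * (Fintype.card ι : ℝ) * sz k + κ ^ 2 * (Fintype.card ι : ℝ) ^ 2 / 2) := by
  rw [QQ_eq]
  unfold energy
  have h1 : ∑ a, ∑ b, qL G τ L a b * (((k a : ℝ) + κ) * ((k b : ℝ) + κ))
      ≤ ∑ a, ∑ b, (qL G τ L a b * (k a : ℝ) * (k b : ℝ) + q * (κ * k a + κ * k b + κ ^ 2)) := by
    refine sum_le_sum fun a _ => sum_le_sum fun b _ => ?_
    have b1 : 0 ≤ κ * k a + κ * k b + κ ^ 2 := by positivity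
    have := mul_le_mul_of_nonneg_right (hq a b) b1
    linarith
  have h2 : ∑ a, ∑ b, (qL G τ L a b * (k a : ℝ) * (k b : ℝ) + q * (κ * k a + κ * k b + κ ^ 2))
      = ∑ a, ∑ b, qL G τ L a b * (k a : ℝ) * (k b : ℝ)
        + q * (2 * (κ * (Fintype.card ι : ℝ) * sz k) + κ ^ 2 * (Fintype.card ι : ℝ) ^ 2) := by
    unfold sz
    simp only [sum_add_distrib, ← mul_sum, sum_const, card_univ, nsmul_eq_mul]
    ring
  linarith

lemma energy_le {ι : Type} [Fintype ι] (Q : ι → ι → ℝ) (q : ℝ) (k : ι → ℕ)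
    (hq : ∀ a b, Q a b ≤ q) : energy Q k ≤ q * sz k ^ 2 / 2 := by
  unfold energy sz
  apply div_le_div_of_nonneg_right _ (by norm_num)
  rw [sq, sum_mul_sum, mul_sum]
  refine sum_le_sum fun a _ => ?_
  rw [mul_sum]
  refine sum_le_sum fun b _ => ?_
  rw [mul_assoc]
  exact mul_le_mul_of_nonneg_right (hq a b) (by positivity)

lemma half_le_one_sub_exp {t : ℝ} (h0 : 0 ≤ t) (h1 : t ≤ 1) : t / 2 ≤ 1 - Real.exp (-t) := by
  have h2 := Real.add_one_le_exp t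
  have h3 : Real.exp (-t) ≤ 1 - t / 2 := by
    rw [Real.exp_neg, inv_le_iff_one_le_mul₀ (Real.exp_pos _)]
    have h4 := mul_le_mul_of_nonneg_left h2 (by linarith : 0 ≤ 1 - t / 2)
    nlinarith
  linarith

/-- choice of the parameters. -/
lemma exists_par (r ε K : ℝ) (hr : 0 ≤ r) (hε : 0 < ε) (hK : 0 < K) :
    ∃ s0 : ℝ, ∀ s : ℝ, s0 ≤ s → 0 < s ∧ ∃ p : Par r, p.T = K * s ∧ p.Mx = (K ^ 3 / 2 + ε) * s ∧
      K / s * (p.κ * r * (K * s) + p.κ ^ 2 * r ^ 2 / 2)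
        + p.c0 * Real.exp (p.lam * (K * s)) * (r * (1 / (ε * s ^ 2))) + p.η * (K * s) + p.κ1
        ≤ ε * s - 1 := by
  obtain ⟨A, hA⟩ : ∃ A : ℝ, A = r * K ^ 2 + r ^ 2 * K / 2 + 1 / 2 := ⟨_, rfl⟩
  have hA0 : 0 < A := by rw [hA]; positivity
  obtain ⟨e1, he1⟩ : ∃ e1 : ℝ, e1 = ε / (4 * (A + ε)) := ⟨_, rfl⟩
  have he0 : 0 < e1 := by rw [he1]; positivity
  have he2 : e1 * (4 * (A + ε)) = ε := by rw [he1]; field_simp
  have he3 : e1 ≤ 1 := by nlinarith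
  have he4 : e1 * A ≤ ε / 4 := by nlinarith
  obtain ⟨M, hM⟩ : ∃ M : ℝ, M = K ^ 3 / 2 + ε := ⟨_, rfl⟩
  have hM0 : 0 < M := by rw [hM]; positivity
  obtain ⟨Ds, hDs⟩ : ∃ Ds : ℝ, Ds = 2 + 5 * M / e1 := ⟨_, rfl⟩
  have hDs0 : 0 < Ds := by rw [hDs]; positivity
  obtain ⟨ρ1, hρ1⟩ : ∃ ρ1 : ℝ, ρ1 = (Ds + 1) / e1 := ⟨_, rfl⟩
  have hρ0 : 0 < ρ1 := by rw [hρ1]; positivity
  obtain ⟨π0, hπ⟩ : ∃ π0 : ℝ, π0 = 1 / (1 + 2 * r * (Ds + 1)) := ⟨_, rfl⟩
  have hπ0 : 0 < π0 := by rw [hπ]; positivity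
  obtain ⟨l1, hl1⟩ : ∃ l1 : ℝ, l1 = 4 * ρ1 / π0 := ⟨_, rfl⟩
  have hl0 : 0 < l1 := by rw [hl1]; positivity
  obtain ⟨b, hb⟩ : ∃ b : ℝ, b = ε ^ 2 / (4 * (r + 1) * Real.exp (l1 * K)) := ⟨_, rfl⟩
  have hb0 : 0 < b := by rw [hb]; positivity
  obtain ⟨η, hη⟩ : ∃ η : ℝ, η = ε / (4 * K) := ⟨_, rfl⟩
  have hη0 : 0 < η := by rw [hη]; positivity
  obtain ⟨Cc, hCc⟩ : ∃ Cc : ℝ,
      Cc = 10 * ρ1 ^ 2 * M + 2 * ρ1 * Ds ^ 2 + (Ds + 1) * ((K + e1) * M / b) + K * ρ1 ^ 2 := ⟨_, rfl⟩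
  have hCc0 : 0 < Cc := by rw [hCc]; positivity
  refine ⟨1 + 10 * ρ1 + l1 + 10 * M / b + e1 * M / b + Cc / (η * π0) + 4 / ε, fun s hs => ?_⟩
  have p1 : 0 < 10 * M / b := by positivity
  have p2 : 0 < e1 * M / b := by positivity
  have p3 : 0 < Cc / (η * π0) := by positivity
  have p4 : 0 < 4 / ε := by positivity
  have hs1 : 1 ≤ s := by linarith
  have hs0 : 0 < s := by linarith
  have q1 : 10 * M ≤ s * b := by
    have : 10 * M / b ≤ s := by linarith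
    rwa [div_le_iff₀ hb0] at this
  have q2 : e1 * M ≤ s * b := by
    have : e1 * M / b ≤ s := by linarith
    rwa [div_le_iff₀ hb0] at this
  have q3 : Cc ≤ s * (η * π0) := by
    have : Cc / (η * π0) ≤ s := by linarith
    rwa [div_le_iff₀ (by positivity)] at this
  have q4 : 4 ≤ s * ε := by
    have : 4 / ε ≤ s := by linarith
    rwa [div_le_iff₀ hε] at this
  have q5 : l1 / s ≤ 1 := by rw [div_le_one hs0]; linarith
  refine ⟨hs0, ⟨e1 * s, M * s, Ds, ρ1 / s, e1 * s / (2 * (Ds + 1)), π0, l1 / s, b * s ^ 3, η,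
    b * s ^ 2 / M, K * s, by positivity, by positivity, ?_, ?_, ?_, by positivity, ?_, ?_, ?_,
    by positivity, ?_, ?_, ?_, ?_, hη0.le, ?_⟩, rfl, by rw [← hM], ?_⟩
  · apply le_of_eq
    rw [hDs]; field_simp; ring
  · apply le_of_eq
    rw [hρ1]; field_simp
  · rw [div_le_iff₀ hs0]; linarith
  · apply le_of_eq
    rw [hρ1]; field_simp
  · apply le_of_eq
    rw [hπ]; field_simp
  · rw [hπ, div_le_one (by positivity)]
    have : 0 ≤ 2 * r * (Ds + 1) := by positivity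
    linarith
  · have h1 := half_le_one_sub_exp (by positivity : 0 ≤ l1 / s) q5
    refine le_trans (le_of_eq ?_) (mul_le_mul_of_nonneg_left h1 hπ0.le)
    rw [hl1]; field_simp; ring
  · apply le_of_eq
    field_simp
  · rw [le_div_iff₀ hM0]
    have : s * b * 1 ≤ s * b * s := mul_le_mul_of_nonneg_left hs1 (by positivity)
    nlinarith
  · rw [le_div_iff₀ hM0]
    have := mul_le_mul_of_nonneg_right q2 hs0.le
    nlinarith
  · have h1 : 10 * (ρ1 / s) ^ 2 * (M * s) + 2 * (ρ1 / s) * Ds ^ 2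
        + (Ds + 1) * ((K * s + e1 * s) / (b * s ^ 2 / M)) + K * s * (ρ1 / s) ^ 2 = Cc / s := by
      rw [hCc]; field_simp
    rw [h1, div_le_iff₀ hs0]
    linarith
  · dsimp only
    have h1 : K / s * (e1 * s * r * (K * s) + (e1 * s) ^ 2 * r ^ 2 / 2)
        = s * (e1 * (r * K ^ 2) + e1 * e1 * (r ^ 2 * K / 2)) := by
      field_simp
    have h2 : b * s ^ 3 * Real.exp (l1 / s * (K * s)) * (r * (1 / (ε * s ^ 2)))
        = ε * s / 4 * (r / (r + 1)) := by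
      have : l1 / s * (K * s) = l1 * K := by field_simp
      rw [this, hb]
      field_simp
    have h3 : η * (K * s) = ε * s / 4 := by rw [hη]; field_simp
    have h4 : e1 * s / (2 * (Ds + 1)) ≤ e1 * s / 2 :=
      div_le_div_of_nonneg_left (by positivity) (by norm_num) (by linarith)
    have h5 : ε * s / 4 * (r / (r + 1)) ≤ ε * s / 4 :=
      mul_le_of_le_one_right (by positivity) (by rw [div_le_one (by positivity)]; linarith)
    have h6 : e1 * e1 * (r ^ 2 * K / 2) ≤ e1 * 1 * (r ^ 2 * K / 2) :=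
      mul_le_mul_of_nonneg_right (mul_le_mul_of_nonneg_left he3 he0.le) (by positivity)
    have h7 : e1 * (r * K ^ 2) + e1 * e1 * (r ^ 2 * K / 2) + e1 / 2 ≤ ε / 4 := by
      rw [hA] at he4
      linarith
    have h8 := mul_le_mul_of_nonneg_left h7 hs0.le
    rw [h1, h2, h3]
    linarith

end ShearerAux

open ShearerAux in
theorem shearer (ι : Type) [Fintype ι] (ε K : ℝ) (hε : 0 < ε) (hK : 0 < K) :
    ∃ s0 : ℝ, ∀ s : ℝ, s0 ≤ s → ∀ (V : Type) [Fintype V] (G : SimpleGraph V), G.CliqueFree 3 →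
      ∀ (τ : V → ι) (L : Finset V) (k : ι → ℕ), (∑ l, (k l : ℝ)) ≤ K * s →
        (∀ l, ε * s ^ 2 ≤ ((fib τ L l).card : ℝ)) → (∀ a b, qL G τ L a b ≤ K / s) →
        binProd τ L k * Real.exp (-(energy (qL G τ L) k) - ε * s) ≤ (indCount G τ L k : ℝ) := by
  obtain ⟨s0, hs0⟩ := exists_par (Fintype.card ι) ε K (Nat.cast_nonneg _) hε hK
  refine ⟨s0, fun s hs V _ G hG τ L k hk hn hq => ?_⟩
  obtain ⟨hs1, p, hT, hM, hp⟩ := hs0 s hs
  have hk' : sz k ≤ K * s := hk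
  have hes : 0 < ε * s ^ 2 := by positivity
  have hn' : ∀ l, ε * s ^ 2 ≤ nn τ L l := hn
  have h1 := claim p G hG τ L.card L rfl k (by rw [hT]; exact hk') (fun l => hes.trans_le (hn' l))
  have h2 := start_Q G τ p.κ (K / s) p.hκ.le L k hq
  have h3 := energy_le (qL G τ L) (K / s) k hq
  have hKs : 0 < K / s := div_pos hK hs1
  have h4 : K / s * sz k ^ 2 / 2 ≤ K ^ 3 / 2 * s := by
    have a1 : sz k ^ 2 ≤ (K * s) ^ 2 := pow_le_pow_left₀ (sz_nonneg k) hk' 2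
    have a2 := mul_le_mul_of_nonneg_left a1 hKs.le
    have a3 : K / s * (K * s) ^ 2 = K ^ 3 * s := by field_simp
    linarith
  have h5 : K / s * (p.κ * (Fintype.card ι : ℝ) * sz k + p.κ ^ 2 * (Fintype.card ι : ℝ) ^ 2 / 2)
      ≤ K / s * (p.κ * (Fintype.card ι : ℝ) * (K * s) + p.κ ^ 2 * (Fintype.card ι : ℝ) ^ 2 / 2) := by
    apply mul_le_mul_of_nonneg_left _ hKs.le
    have := mul_le_mul_of_nonneg_left hk' (mul_nonneg p.hκ.le (Nat.cast_nonneg (Fintype.card ι)))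
    linarith
  have h6 : CC τ p.c0 p.lam L k
      ≤ p.c0 * Real.exp (p.lam * (K * s)) * ((Fintype.card ι : ℝ) * (1 / (ε * s ^ 2))) := by
    unfold CC
    apply mul_le_mul
    · exact mul_le_mul_of_nonneg_left
        (Real.exp_le_exp.2 (mul_le_mul_of_nonneg_left hk' p.hlam0)) p.c0_nonneg
    · have := sum_le_card_nsmul univ (fun l => 1 / nn τ L l) (1 / (ε * s ^ 2))
        fun l _ => one_div_le_one_div_of_le hes (hn' l)
      rwa [nsmul_eq_mul, card_univ] at this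
    · exact sum_nonneg fun l _ => div_nonneg zero_le_one (nn_nonneg τ L l)
    · exact mul_nonneg p.c0_nonneg (Real.exp_pos _).le
  have h7 := mul_le_mul_of_nonneg_left hk' p.hη
  have h8 : Pot p G τ L k ≤ energy (qL G τ L) k + ε * s - 1 := by
    unfold Pot
    linarith
  have h9 : Real.exp (-(energy (qL G τ L) k) - ε * s)
      ≤ Real.exp (-Pot p G τ L k) - Real.exp (-p.Mx) := by
    have a1 : Real.exp (-p.Mx) ≤ Real.exp (-(energy (qL G τ L) k) - ε * s) := by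
      apply Real.exp_le_exp.2
      rw [hM]
      linarith
    have a2 : Real.exp (-(energy (qL G τ L) k) - ε * s) * Real.exp 1
        ≤ Real.exp (-Pot p G τ L k) := by
      rw [← Real.exp_add]
      apply Real.exp_le_exp.2
      linarith
    have a3 := Real.add_one_le_exp (1 : ℝ)
    have a4 := mul_le_mul_of_nonneg_left a3 (Real.exp_pos (-(energy (qL G τ L) k) - ε * s)).le
    linarith
  have h10 := (mul_le_mul_of_nonneg_left h9 (PP_nonneg τ L k)).trans h1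
  have h11 : binProd τ L k = PP τ L k / ∏ l, ((k l).factorial : ℝ) := by
    unfold binProd PP nn
    rw [prod_div_distrib]
  rw [h11, div_mul_eq_mul_div, div_le_iff₀ (fact_pos k)]
  exact h10

end
end Pool.Agent.MP_b5eafd_co
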