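import Pool.Agent.MP_b5eafd_co.Defs
import Pool.Agent.MP_b5eafd_co.Reg

-- part MP_b5eafd_co.KW
section

/-
HINTS (Kleitman-Winston type upper bound for typed independent sets).
Notation: I(L,k) = indCount, |k| = sum k, L_l = fib tau L l, A(v,u) = adjR, r = card iota.
(0) Recurrence: k_a * I(L,k) <= sum_{v in L_a} I(L \ N(v), k - e_a)   (map (S,v), v in S of type a, to (v, S.erase v);
    S.erase v is independent, lies in L.filter (not adj v) and has profile k - e_a = Function.update k a (k a - 1)).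
    With monotonicity I(L',k) <= I(L,k) for L' subset L:  k_a I(L,k) <= |L_a| I(L,k-e_a).  This gives indCount_le_binProd
    (induct on |k|; I(L,0) = 1 or <= 1) and the removal of the excess k - k0 (induct on |k| - |k0|):
    I(L,k) / binProd(L,k) <= I(L,k0) / binProd(L,k0) in multiplicative form.
(1) Main claim, by induction on N = |k| for ALL L and ALL virtual sizes g : iota -> Real: fix phi_l := eta |L0_l| exp(-2 Q K0).
    If k <= k0, and g_l (1-Q)^|k| >= phi_l for all l, put ell_l = |L_l| + g_l, En(k) = (sum_ab q a b k_a k_b - sum_l q l l k_l)/2. Then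
      I(L,k) <= prod_l ell_l^k_l / k_l! * exp(-En(k) + (2 eps + r Q)|k| + Q K1^2/2).
    Base |k| <= K1: I <= binProd <= prod ell^k/k!, En(k) <= Q |k|^2/2 <= Q K1^2/2.
    Step |k| > K1: sum (0) over a: |k| I(L,k) <= sum_a sum_{v in L_a} I(L\N(v), k-e_a) (only a with k_a >= 1). Use the IH with
    g'_l = g_l (1 - q a l); then ell'_l = ell_l (1 - q a l - dev_l(v)), dev_l(v) = sum_{u in L_l} (A(v,u) - q a l) / ell_l >= -Q,
    so (1+x <= exp x) prod ell'^{k'} <= prod ell^{k'} exp(-sum_l k'_l q a l - sum_l k'_l dev_l), k' = k - e_a.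
    En(k) - En(k') = sum_l q a l k'_l exactly (symmetry).  k'_l is (k_l - 1) (Nat subtraction) or that plus one, so
    sum_l k'_l dev_l >= Delta(v) - r Q with Delta(v) = sum_{u in L} f(u) (A(v,u) - q (tau v) (tau u)), f(u) = (k_{tau u} - 1)/ell_{tau u}.
    0 <= f <= D and k_a/ell_a <= D because k_l <= k0_l <= D phi_l <= D g_l <= D ell_l (if ell_l = 0 then k_l = 0).
    Delta(v) >= -Q |k| >= -Q K0.  Bad set B = {v in L : Delta(v) < -eps}; T = {u in L : sum_{v in B}(q - A) > 0};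
    eps |B| <= sum_{v in B} -Delta(v) <= D sum_{u in T} sum_{v in B} (q - A) <= D Gamma (CutReg B T).
    prod ell^{k-e_a}/(k-e_a)! = (prod ell^k/k!) * k_a/ell_a.  So the sum is at most (main factor) *
    sum_a (k_a/ell_a)(|L_a| e^eps + |B_a| e^{Q K0}) <= |k| e^eps + D (D Gamma/eps) e^{QK0} <= |k| e^eps + eps K1 <= |k| e^{2 eps}.
(2) Finish: g = eta |L_l|; (1-Q)^{|k0|} >= exp(-2 Q K0) since 1-Q >= exp(-2Q) for 0 <= Q <= 1/2; ell = (1+eta)|L_l|,
    (1+eta)^{|k0|} <= exp(eta K0); En(k0) >= energy q k0 - Q K0/2.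
-/

set_option autoImplicit false
open Finset Filter Topology

namespace Pool.Agent.MP_b5eafd_co
noncomputable section
open Classical

variable {V : Type} [Fintype V] {ι : Type} [Fintype ι]

namespace KWAux

/-- decrease one coordinate. -/
def dec (k : ι → ℕ) (a : ι) : ι → ℕ := Function.update k a (k a - 1)
/-- non-neighbours. -/
def nb (G : SimpleGraph V) (L : Finset V) (v : V) : Finset V := L.filter (fun u => ¬ G.Adj v u)
/-- product bound with virtual sizes. -/
def PP (x : ι → ℝ) (k : ι → ℕ) : ℝ := ∏ l, x l ^ k l / ((k l).factorial : ℝ)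
/-- corrected energy. -/
def En (q : ι → ι → ℝ) (k : ι → ℕ) : ℝ :=
  ((∑ a, ∑ b, q a b * (k a : ℝ) * (k b : ℝ)) - ∑ l, q l l * (k l : ℝ)) / 2

omit [Fintype ι] in
theorem dec_self (k : ι → ℕ) (a : ι) : dec k a a = k a - 1 := by simp [dec]

omit [Fintype ι] in
theorem dec_ne (k : ι → ℕ) {a l : ι} (h : l ≠ a) : dec k a l = k l := by simp [dec, h]

omit [Fintype ι] in
theorem dec_le (k : ι → ℕ) (a l : ι) : dec k a l ≤ k l := by
  by_cases h : l = a
  · subst h; rw [dec_self]; omega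
  · rw [dec_ne k h]

omit [Fintype ι] in
theorem dec_cast (k : ι → ℕ) (a : ι) (ha : 1 ≤ k a) (l : ι) :
    (k l : ℝ) = (dec k a l : ℝ) + if l = a then 1 else 0 := by
  by_cases h : l = a
  · subst h
    rw [dec_self, if_pos rfl, Nat.cast_sub ha]; simp
  · rw [dec_ne k h, if_neg h]; simp

theorem sum_dec (k : ι → ℕ) (a : ι) (ha : 1 ≤ k a) : ∑ l, k l = ∑ l, dec k a l + 1 := by
  have h : ((∑ l, k l : ℕ) : ℝ) = ((∑ l, dec k a l + 1 : ℕ) : ℝ) := by
    push_cast
    rw [Finset.sum_congr rfl (fun l _ => dec_cast k a ha l), Finset.sum_add_distrib]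
    simp
  exact_mod_cast h

theorem indCount_mono (G : SimpleGraph V) (τ : V → ι) {L L' : Finset V} (h : L' ⊆ L) (k : ι → ℕ) :
    indCount G τ L' k ≤ indCount G τ L k := by
  apply Finset.card_le_card
  intro S hS
  simp only [indSets, Finset.mem_filter, Finset.mem_powerset] at hS ⊢
  exact ⟨hS.1.trans h, hS.2⟩

theorem recur (G : SimpleGraph V) (τ : V → ι) (L : Finset V) (k : ι → ℕ) (a : ι) :
    k a * indCount G τ L k ≤ ∑ v ∈ fib τ L a, indCount G τ (nb G L v) (dec k a) := by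
  have h1 : k a * indCount G τ L k
      = ∑ S ∈ indSets G τ L k, ∑ v ∈ fib τ L a, if v ∈ S then 1 else 0 := by
    rw [indCount, mul_comm, ← smul_eq_mul, ← Finset.sum_const]
    refine Finset.sum_congr rfl (fun S hS => ?_)
    simp only [indSets, Finset.mem_filter, Finset.mem_powerset] at hS
    rw [← hS.2.2 a, ← Finset.card_filter]
    congr 1
    ext v
    simp only [fib, Finset.mem_filter]
    constructor
    · rintro ⟨h1, h2⟩; exact ⟨⟨hS.1 h1, h2⟩, h1⟩
    · rintro ⟨⟨_, h2⟩, h1⟩; exact ⟨h1, h2⟩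
  rw [h1, Finset.sum_comm]
  refine Finset.sum_le_sum (fun v hv => ?_)
  rw [← Finset.card_filter, indCount]
  have hva : τ v = a := (Finset.mem_filter.1 hv).2
  refine Finset.card_le_card_of_injOn (fun S => S.erase v) ?_ ?_
  · intro S hS
    simp only [Finset.coe_filter, Set.mem_ofPred_eq, indSets, Finset.mem_filter, Finset.mem_powerset] at hS
    obtain ⟨⟨hSL, hind, hprof⟩, hvS⟩ := hS
    simp only [Finset.coe_filter, Set.mem_ofPred_eq, indSets, Finset.mem_powerset]
    refine ⟨?_, ?_, ?_⟩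
    · intro u hu
      have hu' := Finset.mem_of_mem_erase hu
      exact Finset.mem_filter.2 ⟨hSL hu', hind v hvS u hu'⟩
    · intro u hu w hw
      exact hind u (Finset.mem_of_mem_erase hu) w (Finset.mem_of_mem_erase hw)
    · intro l
      have he : fib τ (S.erase v) l = (fib τ S l).erase v := by
        simp only [fib, Finset.filter_erase]
      rw [he]
      by_cases hl : l = a
      · subst hl
        have hmem : v ∈ fib τ S l := Finset.mem_filter.2 ⟨hvS, hva⟩
        rw [dec_self, Finset.card_erase_of_mem hmem, hprof]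
      · rw [dec_ne k hl, Finset.erase_eq_of_notMem, hprof]
        intro hm
        exact hl ((Finset.mem_filter.1 hm).2.symm.trans hva)
  · intro S hS T hT hST
    have hS' : v ∈ S := (Finset.mem_filter.1 (Finset.mem_coe.1 hS)).2
    have hT' : v ∈ T := (Finset.mem_filter.1 (Finset.mem_coe.1 hT)).2
    have : S.erase v = T.erase v := hST
    rw [← Finset.insert_erase hS', ← Finset.insert_erase hT', this]

theorem recur_simple (G : SimpleGraph V) (τ : V → ι) (L : Finset V) (k : ι → ℕ) (a : ι) :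
    k a * indCount G τ L k ≤ (fib τ L a).card * indCount G τ L (dec k a) := by
  refine (recur G τ L k a).trans ?_
  rw [← smul_eq_mul, ← Finset.sum_const]
  exact Finset.sum_le_sum (fun v _ => indCount_mono G τ (Finset.filter_subset _ _) _)

theorem PP_dec (x : ι → ℝ) (k : ι → ℕ) (a : ι) (ha : 1 ≤ k a) :
    (k a : ℝ) * PP x k = x a * PP x (dec k a) := by
  unfold PP
  rw [← Finset.mul_prod_erase univ _ (Finset.mem_univ a), ← Finset.mul_prod_erase univ _ (Finset.mem_univ a)]
  have h1 : ∏ l ∈ univ.erase a, x l ^ dec k a l / ((dec k a l).factorial : ℝ)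
      = ∏ l ∈ univ.erase a, x l ^ k l / ((k l).factorial : ℝ) :=
    Finset.prod_congr rfl (fun l hl => by rw [dec_ne k (Finset.ne_of_mem_erase hl)])
  rw [h1, dec_self]
  obtain ⟨m, hm⟩ : ∃ m, k a = m + 1 := ⟨k a - 1, by omega⟩
  rw [hm, Nat.add_sub_cancel, Nat.factorial_succ]
  have hf : ((m.factorial : ℕ) : ℝ) ≠ 0 := by positivity
  have hm1 : ((m : ℝ) + 1) ≠ 0 := by positivity
  push_cast
  field_simp
  ring

theorem PP_nonneg (x : ι → ℝ) (hx : ∀ l, 0 ≤ x l) (k : ι → ℕ) : 0 ≤ PP x k :=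
  Finset.prod_nonneg (fun l _ => by have := hx l; positivity)

theorem PP_le_exp (x y z : ι → ℝ) (hx : ∀ l, 0 ≤ x l) (h : ∀ l, x l ≤ y l * Real.exp (z l)) (k : ι → ℕ) :
    PP x k ≤ PP y k * Real.exp (∑ l, (k l : ℝ) * z l) := by
  unfold PP
  rw [Real.exp_sum, ← Finset.prod_mul_distrib]
  refine Finset.prod_le_prod (fun l _ => by have := hx l; positivity) (fun l _ => ?_)
  rw [div_mul_eq_mul_div, Real.exp_nat_mul, ← mul_pow]
  have := pow_le_pow_left₀ (hx l) (h l) (k l)
  gcongr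

theorem excess (G : SimpleGraph V) (τ : V → ι) (L : Finset V) (k0 : ι → ℕ) (C : ℝ)
    (h0 : (indCount G τ L k0 : ℝ) ≤ binProd τ L k0 * C) :
    ∀ (n : ℕ) (k : ι → ℕ), (∀ l, k0 l ≤ k l) → ∑ l, k l = ∑ l, k0 l + n →
      (indCount G τ L k : ℝ) ≤ binProd τ L k * C := by
  intro n
  induction n with
  | zero =>
    intro k hk hs
    have : k = k0 := by
      funext l
      have := (Finset.sum_eq_sum_iff_of_le (s := univ) (fun l _ => hk l)).1 (by omega) l (Finset.mem_univ l)
      exact this.symm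
    rw [this]; exact h0
  | succ n ih =>
    intro k hk hs
    obtain ⟨a, ha⟩ : ∃ a, k0 a < k a := by
      by_contra hcon
      have h1 : ∑ l, k l ≤ ∑ l, k0 l :=
        Finset.sum_le_sum (fun l _ => not_lt.1 (fun h => hcon ⟨l, h⟩))
      omega
    have ha1 : 1 ≤ k a := by omega
    have hk' : ∀ l, k0 l ≤ dec k a l := by
      intro l
      by_cases h : l = a
      · subst h; rw [dec_self]; omega
      · rw [dec_ne k h]; exact hk l
    have hs' := sum_dec k a ha1
    have h1 := ih (dec k a) hk' (by omega)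
    have h2 : (k a : ℝ) * indCount G τ L k ≤ (fib τ L a).card * indCount G τ L (dec k a) := by
      exact_mod_cast recur_simple G τ L k a
    have h3 := PP_dec (fun l => ((fib τ L l).card : ℝ)) k a ha1
    have hpos : (0 : ℝ) < k a := by exact_mod_cast ha1
    have h4 : (k a : ℝ) * indCount G τ L k ≤ (k a : ℝ) * (binProd τ L k * C) := by
      calc (k a : ℝ) * indCount G τ L k ≤ (fib τ L a).card * indCount G τ L (dec k a) := h2
        _ ≤ (fib τ L a).card * (binProd τ L (dec k a) * C) := by gcongr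
        _ = (k a : ℝ) * (binProd τ L k * C) := by
          rw [← mul_assoc, ← mul_assoc]
          congr 1
          exact h3.symm
    exact le_of_mul_le_mul_left h4 hpos

theorem ind_le_bin (G : SimpleGraph V) (τ : V → ι) (L : Finset V) (k : ι → ℕ) :
    (indCount G τ L k : ℝ) ≤ binProd τ L k := by
  have h0 : (indCount G τ L (fun _ => 0) : ℝ) ≤ binProd τ L (fun _ => 0) * 1 := by
    have h1 : indSets G τ L (fun _ => 0) ⊆ {∅} := by
      intro S hS
      simp only [indSets, Finset.mem_filter, Finset.mem_powerset] at hS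
      rw [Finset.mem_singleton, Finset.eq_empty_iff_forall_notMem]
      intro v hv
      have := Finset.card_eq_zero.1 (hS.2.2 (τ v))
      have h2 : v ∈ fib τ S (τ v) := Finset.mem_filter.2 ⟨hv, rfl⟩
      rw [this] at h2
      exact absurd h2 (Finset.notMem_empty v)
    have h2 := Finset.card_le_card h1
    simp only [Finset.card_singleton] at h2
    simp only [binProd, pow_zero, Nat.factorial_zero, Nat.cast_one, div_one, Finset.prod_const_one, mul_one]
    exact_mod_cast h2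
  have := excess G τ L (fun _ => 0) 1 h0 (∑ l, k l) k (fun l => Nat.zero_le _) (by simp)
  simpa using this

theorem En_dec (q : ι → ι → ℝ) (hsymm : ∀ a b, q a b = q b a) (k : ι → ℕ) (a : ι) (ha : 1 ≤ k a) :
    En q k = En q (dec k a) + ∑ l, (dec k a l : ℝ) * q a l := by
  unfold En
  simp only [dec_cast k a ha]
  set m : ι → ℝ := fun l => (dec k a l : ℝ) with hm
  have h1 : ∀ x y, q x y * (m x + if x = a then 1 else 0) * (m y + if y = a then 1 else 0)
      = q x y * m x * m y + (if y = a then q x y * m x else 0) + (if x = a then q x y * m y else 0)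
        + (if x = a then (if y = a then q x y else 0) else 0) := by
    intro x y
    split_ifs <;> ring
  have h2 : ∀ x, q x x * (m x + if x = a then 1 else 0) = q x x * m x + (if x = a then q x x else 0) := by
    intro x
    split_ifs <;> ring
  change ((∑ x, ∑ y, q x y * (m x + if x = a then 1 else 0) * (m y + if y = a then 1 else 0))
      - ∑ x, q x x * (m x + if x = a then 1 else 0)) / 2
    = ((∑ x, ∑ y, q x y * m x * m y) - ∑ x, q x x * m x) / 2 + ∑ l, m l * q a l
  simp only [h1, h2, Finset.sum_add_distrib, Finset.sum_ite_eq', Finset.mem_univ, if_true,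
    Finset.sum_ite_irrel, Finset.sum_const_zero]
  have h3 : ∑ x, q x a * m x = ∑ l, m l * q a l :=
    Finset.sum_congr rfl (fun x _ => by rw [hsymm x a]; ring)
  have h4 : ∑ x, q a x * m x = ∑ l, m l * q a l :=
    Finset.sum_congr rfl (fun x _ => by ring)
  rw [h3, h4]
  ring

theorem En_le (q : ι → ι → ℝ) (Q : ℝ) (hq0 : ∀ a b, 0 ≤ q a b) (hqQ : ∀ a b, q a b ≤ Q) (k : ι → ℕ) :
    En q k ≤ Q * (∑ l, (k l : ℝ)) ^ 2 / 2 := by
  unfold En
  have h1 : 0 ≤ ∑ l, q l l * (k l : ℝ) :=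
    Finset.sum_nonneg (fun l _ => mul_nonneg (hq0 l l) (Nat.cast_nonneg _))
  have h2 : (∑ a, ∑ b, q a b * (k a : ℝ) * (k b : ℝ)) ≤ Q * (∑ l, (k l : ℝ)) ^ 2 := by
    rw [sq, Finset.sum_mul_sum, Finset.mul_sum]
    refine Finset.sum_le_sum (fun a _ => ?_)
    rw [Finset.mul_sum]
    refine Finset.sum_le_sum (fun b _ => ?_)
    rw [mul_assoc]
    exact mul_le_mul_of_nonneg_right (hqQ a b) (by positivity)
  linarith

omit [Fintype V] in
theorem sum_fib (τ : V → ι) (L : Finset V) (F : V → ℝ) :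
    ∑ l, ∑ u ∈ fib τ L l, F u = ∑ u ∈ L, F u :=
  Finset.sum_fiberwise L τ F

omit [Fintype V] [Fintype ι] in
theorem card_nb (G : SimpleGraph V) (τ : V → ι) (L : Finset V) (v : V) (l : ι) :
    ((fib τ (nb G L v) l).card : ℝ) = (fib τ L l).card - ∑ u ∈ fib τ L l, adjR G v u := by
  have h1 : fib τ (nb G L v) l = (fib τ L l).filter (fun u => ¬ G.Adj v u) := by
    simp only [fib, nb, Finset.filter_filter, and_comm]
  rw [h1, Finset.card_filter, Finset.card_eq_sum_ones]
  push_cast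
  rw [← Finset.sum_sub_distrib]
  refine Finset.sum_congr rfl (fun u _ => ?_)
  unfold adjR
  split_ifs <;> simp

omit [Fintype V] in
theorem adjR_nonneg (G : SimpleGraph V) (u v : V) : 0 ≤ adjR G u v := by
  unfold adjR; split_ifs <;> norm_num

omit [Fintype V] [Fintype ι] in
/-- the weighted deviation sum is rarely very negative. -/
theorem bad_card (G : SimpleGraph V) (τ : V → ι) (q : ι → ι → ℝ) (Γ ε D : ℝ)
    (hreg : CutReg G τ q Γ) (hD : 0 ≤ D) (L : Finset V) (f : V → ℝ)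
    (hf0 : ∀ u, 0 ≤ f u) (hfD : ∀ u, f u ≤ D) (B : Finset V)
    (hB : ∀ v ∈ B, ∑ u ∈ L, f u * (adjR G v u - q (τ v) (τ u)) ≤ -ε) :
    ε * B.card ≤ D * Γ := by
  set s : V → ℝ := fun u => ∑ v ∈ B, (q (τ v) (τ u) - adjR G v u) with hs
  have h1 : ε * B.card ≤ ∑ v ∈ B, ∑ u ∈ L, f u * (q (τ v) (τ u) - adjR G v u) := by
    rw [mul_comm, ← nsmul_eq_mul, ← Finset.sum_const]
    refine Finset.sum_le_sum (fun v hv => ?_)
    have h2 : ∑ u ∈ L, f u * (q (τ v) (τ u) - adjR G v u)
        = -∑ u ∈ L, f u * (adjR G v u - q (τ v) (τ u)) := by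
      rw [← Finset.sum_neg_distrib]
      exact Finset.sum_congr rfl (fun u _ => by ring)
    rw [h2]; linarith [hB v hv]
  have h2 : ∑ v ∈ B, ∑ u ∈ L, f u * (q (τ v) (τ u) - adjR G v u) = ∑ u ∈ L, f u * s u := by
    rw [Finset.sum_comm]
    exact Finset.sum_congr rfl (fun u _ => by rw [hs, Finset.mul_sum])
  have h3 : ∑ u ∈ L, f u * s u ≤ ∑ u ∈ L, if 0 < s u then D * s u else 0 := by
    refine Finset.sum_le_sum (fun u _ => ?_)
    split_ifs with h
    · exact mul_le_mul_of_nonneg_right (hfD u) h.le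
    · exact mul_nonpos_of_nonneg_of_nonpos (hf0 u) (not_lt.1 h)
  have h4 : (∑ u ∈ L, if 0 < s u then D * s u else 0) = D * ∑ u ∈ L.filter (fun u => 0 < s u), s u := by
    rw [← Finset.sum_filter, Finset.mul_sum]
  have h5 : ∑ u ∈ L.filter (fun u => 0 < s u), s u ≤ Γ := by
    have := hreg B (L.filter (fun u => 0 < s u))
    rw [Finset.sum_comm] at this
    exact this
  have h6 := mul_le_mul_of_nonneg_left h5 hD
  linarith

theorem main (G : SimpleGraph V) (τ : V → ι) (q : ι → ι → ℝ) (Q Γ ε K0 K1 D : ℝ)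
    (hsymm : ∀ a b, q a b = q b a) (hq0 : ∀ a b, 0 ≤ q a b) (hqQ : ∀ a b, q a b ≤ Q)
    (hQ0 : 0 ≤ Q) (hQ : Q ≤ 1 / 2)
    (hreg : CutReg G τ q Γ) (hε : 0 < ε) (hK1 : 0 ≤ K1) (hD : 0 ≤ D)
    (φ : ι → ℝ) (hφ : ∀ l, 0 ≤ φ l) (k0 : ι → ℕ) (hK0 : (∑ l, (k0 l : ℝ)) ≤ K0)
    (hk0 : ∀ l, (k0 l : ℝ) ≤ D * φ l)
    (hΓ : D ^ 2 * Γ * Real.exp (Q * K0) ≤ ε ^ 2 * K1) :
    ∀ (N : ℕ) (k : ι → ℕ) (L : Finset V) (g : ι → ℝ), ∑ l, k l = N → (∀ l, k l ≤ k0 l) →
      (∀ l, φ l ≤ g l * (1 - Q) ^ N) →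
      (indCount G τ L k : ℝ) ≤ PP (fun l => ((fib τ L l).card : ℝ) + g l) k *
        Real.exp (-(En q k) + (2 * ε + (Fintype.card ι : ℝ) * Q) * N + Q * K1 ^ 2 / 2) := by
  have hQ1 : 0 < 1 - Q := by linarith
  have hg0 : ∀ (N : ℕ) (g : ι → ℝ), (∀ l, φ l ≤ g l * (1 - Q) ^ N) → ∀ l, 0 ≤ g l := by
    intro N g hg l
    have h1 : 0 < (1 - Q) ^ N := by positivity
    exact nonneg_of_mul_nonneg_left ((hφ l).trans (hg l)) h1 |> fun h => h
  have base : ∀ (N : ℕ) (k : ι → ℕ) (L : Finset V) (g : ι → ℝ), ∑ l, k l = N → (N : ℝ) ≤ K1 →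
      (∀ l, φ l ≤ g l * (1 - Q) ^ N) →
      (indCount G τ L k : ℝ) ≤ PP (fun l => ((fib τ L l).card : ℝ) + g l) k *
        Real.exp (-(En q k) + (2 * ε + (Fintype.card ι : ℝ) * Q) * N + Q * K1 ^ 2 / 2) := by
    intro N k L g hN hNK hg
    have h1 := ind_le_bin G τ L k
    have h2 := PP_le_exp (fun l => ((fib τ L l).card : ℝ)) (fun l => ((fib τ L l).card : ℝ) + g l)
      (fun _ => 0) (fun l => Nat.cast_nonneg _) (fun l => by simpa using hg0 N g hg l) k
    simp only [mul_zero, Finset.sum_const_zero, Real.exp_zero, mul_one] at h2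
    have h3 := En_le q Q hq0 hqQ k
    have h4 : (∑ l, (k l : ℝ)) = N := by exact_mod_cast hN
    rw [h4] at h3
    have h5 : (N : ℝ) ^ 2 ≤ K1 ^ 2 := pow_le_pow_left₀ (Nat.cast_nonneg _) hNK 2
    have h6 : Q * (N : ℝ) ^ 2 ≤ Q * K1 ^ 2 := mul_le_mul_of_nonneg_left h5 hQ0
    have h7 : 0 ≤ (2 * ε + (Fintype.card ι : ℝ) * Q) * N := by positivity
    have h8 : 1 ≤ Real.exp (-(En q k) + (2 * ε + (Fintype.card ι : ℝ) * Q) * N + Q * K1 ^ 2 / 2) :=
      Real.one_le_exp (by linarith)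
    have h9 := PP_nonneg (fun l => ((fib τ L l).card : ℝ) + g l)
      (fun l => add_nonneg (Nat.cast_nonneg _) (hg0 N g hg l)) k
    calc (indCount G τ L k : ℝ) ≤ PP (fun l => ((fib τ L l).card : ℝ) + g l) k := h1.trans h2
      _ ≤ _ := le_mul_of_one_le_right h9 h8
  intro N
  induction N with
  | zero => intro k L g hN _ hg; exact base 0 k L g hN (by simpa using hK1) hg
  | succ n ih =>
    intro k L g hN hk hg
    by_cases hNK : ((n + 1 : ℕ) : ℝ) ≤ K1
    · exact base (n + 1) k L g hN hNK hg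
    have hNK' : K1 < ((n + 1 : ℕ) : ℝ) := not_le.1 hNK
    have hgn := hg0 (n + 1) g hg
    set ell : ι → ℝ := fun l => ((fib τ L l).card : ℝ) + g l with hell
    have hell0 : ∀ l, 0 ≤ ell l := fun l => add_nonneg (Nat.cast_nonneg _) (hgn l)
    have hcell : ∀ l, ((fib τ L l).card : ℝ) ≤ ell l := fun l => le_add_of_nonneg_right (hgn l)
    have hkell : ∀ l, (k l : ℝ) ≤ D * ell l := by
      intro l
      have h1 : (1 - Q) ^ (n + 1) ≤ 1 := pow_le_one₀ hQ1.le (by linarith)
      have h2 : φ l ≤ g l := (hg l).trans (mul_le_of_le_one_right (hgn l) h1)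
      have h3 : g l ≤ ell l := le_add_of_nonneg_left (Nat.cast_nonneg _)
      have h4 : (k l : ℝ) ≤ k0 l := by exact_mod_cast hk l
      exact h4.trans ((hk0 l).trans (mul_le_mul_of_nonneg_left (h2.trans h3) hD))
    have hdivD : ∀ (l : ι) (x : ℝ), x ≤ k l → x / ell l ≤ D := by
      intro l x hx
      exact div_le_of_le_mul₀ (hell0 l) hD (hx.trans (hkell l))
    set m : ι → ℝ := fun l => ((k l - 1 : ℕ) : ℝ) with hm
    have hmk : ∀ l, m l ≤ k l := fun l => by
      simp only [hm]; exact_mod_cast Nat.sub_le _ _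
    have hm0 : ∀ l, 0 ≤ m l := fun l => Nat.cast_nonneg _
    set dev : V → ι → ℝ := fun v l => (∑ u ∈ fib τ L l, (adjR G v u - q (τ v) l)) / ell l with hdev
    have hdevQ : ∀ v l, -Q ≤ dev v l := by
      intro v l
      rcases (hell0 l).eq_or_lt with h | h
      · simp only [hdev, ← h, div_zero]; linarith
      · simp only [hdev]
        rw [le_div_iff₀ h]
        have h1 : ∑ u ∈ fib τ L l, (-Q) ≤ ∑ u ∈ fib τ L l, (adjR G v u - q (τ v) l) :=
          Finset.sum_le_sum (fun u _ => by linarith [adjR_nonneg G v u, hqQ (τ v) l])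
        rw [Finset.sum_const, nsmul_eq_mul] at h1
        nlinarith [hcell l]
    set Δ : V → ℝ := fun v => ∑ l, m l * dev v l with hΔ
    have hsumk : (∑ l, (k l : ℝ)) = ((n + 1 : ℕ) : ℝ) := by exact_mod_cast hN
    have hNK0 : ((n + 1 : ℕ) : ℝ) ≤ K0 := by
      rw [← hsumk]
      exact (Finset.sum_le_sum (fun l _ => by exact_mod_cast hk l)).trans hK0
    have hΔlow : ∀ v, -(Q * K0) ≤ Δ v := by
      intro v
      have h1 : ∑ l, (k l : ℝ) * (-Q) ≤ Δ v := by
        refine Finset.sum_le_sum (fun l _ => ?_)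
        nlinarith [hdevQ v l, hm0 l, hmk l]
      rw [← Finset.sum_mul, hsumk] at h1
      nlinarith
    have hΔf : ∀ v, Δ v = ∑ u ∈ L, (m (τ u) / ell (τ u)) * (adjR G v u - q (τ v) (τ u)) := by
      intro v
      rw [← sum_fib τ L]
      refine Finset.sum_congr rfl (fun l _ => ?_)
      simp only [hdev]
      rw [mul_div_assoc', mul_div_right_comm, Finset.mul_sum]
      refine Finset.sum_congr rfl (fun u hu => ?_)
      rw [(Finset.mem_filter.1 hu).2]
    set X : ℝ := Real.exp (-(En q k) + (2 * ε + (Fintype.card ι : ℝ) * Q) * ((n + 1 : ℕ) : ℝ)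
      + Q * K1 ^ 2 / 2) with hX
    have hXpos : 0 < X := Real.exp_pos _
    have hPP := PP_nonneg ell hell0 k
    -- one vertex
    have one : ∀ v, 1 ≤ k (τ v) → (indCount G τ (nb G L v) (dec k (τ v)) : ℝ)
        ≤ PP ell k * X * Real.exp (-(2 * ε)) * ((k (τ v) : ℝ) / ell (τ v) * Real.exp (-Δ v)) := by
      intro v ha
      have hs := sum_dec k (τ v) ha
      have hg' : ∀ l, φ l ≤ g l * (1 - q (τ v) l) * (1 - Q) ^ n := by
        intro l
        refine (hg l).trans ?_
        rw [pow_succ', ← mul_assoc]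
        have h1 : g l * (1 - Q) ≤ g l * (1 - q (τ v) l) :=
          mul_le_mul_of_nonneg_left (by linarith [hqQ (τ v) l]) (hgn l)
        exact mul_le_mul_of_nonneg_right h1 (by positivity)
      have h1 := ih (dec k (τ v)) (nb G L v) (fun l => g l * (1 - q (τ v) l)) (by omega)
        (fun l => (dec_le k (τ v) l).trans (hk l)) hg'
      have h2 := PP_le_exp (fun l => ((fib τ (nb G L v) l).card : ℝ) + g l * (1 - q (τ v) l)) ell
        (fun l => -q (τ v) l - dev v l)
        (fun l => add_nonneg (Nat.cast_nonneg _) (mul_nonneg (hgn l) (by linarith [hqQ (τ v) l])))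
        (fun l => by
          have e1 : ((fib τ (nb G L v) l).card : ℝ) + g l * (1 - q (τ v) l)
              = ell l * (1 - q (τ v) l) - ∑ u ∈ fib τ L l, (adjR G v u - q (τ v) l) := by
            rw [card_nb, Finset.sum_sub_distrib, Finset.sum_const, nsmul_eq_mul]
            simp only [hell]; ring
          rcases (hell0 l).eq_or_lt with h | h
          · have e2 : ((fib τ (nb G L v) l).card : ℝ) ≤ (fib τ L l).card := by
              rw [card_nb]
              linarith [Finset.sum_nonneg (fun u (_ : u ∈ fib τ L l) => adjR_nonneg G v u)]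
            have e3 : g l * (1 - q (τ v) l) ≤ g l := by nlinarith [hgn l, hq0 (τ v) l]
            have e4 : ((fib τ L l).card : ℝ) + g l = 0 := h.symm
            rw [← h, zero_mul]; linarith
          · rw [e1]
            have e2 : ell l * (1 - q (τ v) l) - ∑ u ∈ fib τ L l, (adjR G v u - q (τ v) l)
                = ell l * (-q (τ v) l - dev v l + 1) := by
              simp only [hdev]; field_simp; ring
            rw [e2]
            exact mul_le_mul_of_nonneg_left (Real.add_one_le_exp _) h.le)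
        (dec k (τ v))
      have hellpos : 0 < ell (τ v) := by
        rcases (hell0 (τ v)).eq_or_lt with h | h
        · have h3 := hkell (τ v)
          rw [← h, mul_zero] at h3
          have h4 : (1 : ℝ) ≤ k (τ v) := by exact_mod_cast ha
          linarith
        · exact h
      have h3 : PP ell (dec k (τ v)) = PP ell k * ((k (τ v) : ℝ) / ell (τ v)) := by
        have := PP_dec ell k (τ v) ha
        field_simp
        linarith
      have h4 := En_dec q hsymm k (τ v) ha
      have h5 : Δ v - (Fintype.card ι : ℝ) * Q ≤ ∑ l, (dec k (τ v) l : ℝ) * dev v l := by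
        have e1 : (Fintype.card ι : ℝ) * Q = ∑ _l : ι, Q := by
          rw [Finset.sum_const, nsmul_eq_mul, Finset.card_univ]
        rw [e1, hΔ, ← Finset.sum_sub_distrib]
        refine Finset.sum_le_sum (fun l _ => ?_)
        have e2 : m l ≤ (dec k (τ v) l : ℝ) ∧ (dec k (τ v) l : ℝ) ≤ m l + 1 := by
          simp only [hm]
          by_cases h : l = τ v
          · rw [h, dec_self]; constructor <;> linarith
          · rw [dec_ne k h]
            constructor
            · exact_mod_cast Nat.sub_le _ _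
            · have : k l ≤ k l - 1 + 1 := by omega
              exact_mod_cast this
        nlinarith [hdevQ v l, e2.1, e2.2]
      have h6 : ∑ l, (dec k (τ v) l : ℝ) * (-q (τ v) l - dev v l)
          = -(∑ l, (dec k (τ v) l : ℝ) * q (τ v) l) - ∑ l, (dec k (τ v) l : ℝ) * dev v l := by
        rw [← Finset.sum_neg_distrib, ← Finset.sum_sub_distrib]
        exact Finset.sum_congr rfl (fun l _ => by ring)
      have h7 : Real.exp (∑ l, (dec k (τ v) l : ℝ) * (-q (τ v) l - dev v l)) *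
          Real.exp (-(En q (dec k (τ v))) + (2 * ε + (Fintype.card ι : ℝ) * Q) * n + Q * K1 ^ 2 / 2)
          ≤ X * Real.exp (-(2 * ε)) * Real.exp (-Δ v) := by
        rw [hX, ← Real.exp_add, ← Real.exp_add, ← Real.exp_add]
        apply Real.exp_le_exp.2
        rw [h6]
        push_cast
        linarith
      have h8 : 0 ≤ PP ell (dec k (τ v)) := PP_nonneg ell hell0 _
      calc (indCount G τ (nb G L v) (dec k (τ v)) : ℝ) ≤ _ := h1
        _ ≤ PP ell (dec k (τ v)) * Real.exp (∑ l, (dec k (τ v) l : ℝ) * (-q (τ v) l - dev v l)) *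
          Real.exp (-(En q (dec k (τ v))) + (2 * ε + (Fintype.card ι : ℝ) * Q) * n + Q * K1 ^ 2 / 2) :=
            mul_le_mul_of_nonneg_right h2 (Real.exp_pos _).le
        _ ≤ PP ell (dec k (τ v)) * (X * Real.exp (-(2 * ε)) * Real.exp (-Δ v)) := by
            rw [mul_assoc]; exact mul_le_mul_of_nonneg_left h7 h8
        _ = _ := by rw [h3]; ring
    set C : ℝ := PP ell k * X * Real.exp (-(2 * ε)) with hC
    have hC0 : 0 ≤ C := by positivity
    set h : V → ℝ := fun v => (k (τ v) : ℝ) / ell (τ v) * Real.exp (-Δ v) with hh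
    have two : ∀ a, (k a : ℝ) * indCount G τ L k ≤ ∑ v ∈ fib τ L a, C * h v := by
      intro a
      by_cases ha : 1 ≤ k a
      · have h1 : (k a : ℝ) * indCount G τ L k
            ≤ ∑ v ∈ fib τ L a, (indCount G τ (nb G L v) (dec k a) : ℝ) := by
          exact_mod_cast recur G τ L k a
        refine h1.trans (Finset.sum_le_sum (fun v hv => ?_))
        have hva : τ v = a := (Finset.mem_filter.1 hv).2
        subst hva
        exact one v ha
      · have : k a = 0 := by omega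
        rw [this, Nat.cast_zero, zero_mul]
        refine Finset.sum_nonneg (fun v _ => mul_nonneg hC0 ?_)
        exact mul_nonneg (div_nonneg (Nat.cast_nonneg _) (hell0 _)) (Real.exp_pos _).le
    have three : ((n + 1 : ℕ) : ℝ) * indCount G τ L k ≤ C * ∑ v ∈ L, h v := by
      rw [← hsumk, Finset.sum_mul, Finset.mul_sum, ← sum_fib τ L]
      exact Finset.sum_le_sum (fun a _ => two a)
    set B : Finset V := L.filter (fun v => Δ v ≤ -ε) with hB
    have hBc : ε * B.card ≤ D * Γ :=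
      bad_card G τ q Γ ε D hreg hD L (fun u => m (τ u) / ell (τ u))
        (fun u => div_nonneg (hm0 _) (hell0 _)) (fun u => hdivD _ _ (hmk _)) B
        (fun v hv => by rw [← hΔf]; exact (Finset.mem_filter.1 hv).2)
    have hBc2 : (B.card : ℝ) * (D * Real.exp (Q * K0)) ≤ ε * K1 := by
      have e1 : ε * (B.card * (D * Real.exp (Q * K0))) ≤ ε * (ε * K1) := by
        have e2 := mul_le_mul_of_nonneg_right hBc
          (mul_nonneg hD (Real.exp_pos (Q * K0)).le)
        nlinarith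
      exact le_of_mul_le_mul_left e1 hε
    have four : ∑ v ∈ L, h v ≤ ((n + 1 : ℕ) : ℝ) * Real.exp (2 * ε) := by
      have e1 : ∑ v ∈ L, h v ≤ ∑ v ∈ L, ((k (τ v) : ℝ) / ell (τ v) * Real.exp ε
          + if Δ v ≤ -ε then D * Real.exp (Q * K0) else 0) := by
        refine Finset.sum_le_sum (fun v _ => ?_)
        have e0 : 0 ≤ (k (τ v) : ℝ) / ell (τ v) := div_nonneg (Nat.cast_nonneg _) (hell0 _)
        simp only [hh]
        split_ifs with hv
        · have e2 : Real.exp (-Δ v) ≤ Real.exp (Q * K0) := Real.exp_le_exp.2 (by linarith [hΔlow v])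
          have e3 := mul_le_mul (hdivD (τ v) _ le_rfl) e2 (Real.exp_pos _).le hD
          have e4 := mul_nonneg e0 (Real.exp_pos ε).le
          linarith
        · have e2 : Real.exp (-Δ v) ≤ Real.exp ε := Real.exp_le_exp.2 (by linarith [not_le.1 hv])
          have e3 := mul_le_mul_of_nonneg_left e2 e0
          linarith
      rw [Finset.sum_add_distrib, ← Finset.sum_filter, Finset.sum_const, nsmul_eq_mul,
        ← Finset.sum_mul] at e1
      have e2 : ∑ v ∈ L, (k (τ v) : ℝ) / ell (τ v) ≤ ((n + 1 : ℕ) : ℝ) := by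
        rw [← sum_fib τ L, ← hsumk]
        refine Finset.sum_le_sum (fun a _ => ?_)
        have e3 : ∑ v ∈ fib τ L a, (k (τ v) : ℝ) / ell (τ v) = (fib τ L a).card * ((k a : ℝ) / ell a) := by
          rw [← nsmul_eq_mul, ← Finset.sum_const]
          exact Finset.sum_congr rfl (fun v hv => by rw [(Finset.mem_filter.1 hv).2])
        rw [e3, mul_div_assoc', mul_comm, mul_div_assoc]
        exact mul_le_of_le_one_right (Nat.cast_nonneg _) (div_le_one_of_le₀ (hcell a) (hell0 a))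
      have e3 := mul_le_mul_of_nonneg_right e2 (Real.exp_pos ε).le
      have e4 : Real.exp ε + ε ≤ Real.exp (2 * ε) := by
        have e5 : Real.exp (2 * ε) = Real.exp ε * Real.exp ε := by rw [← Real.exp_add]; ring_nf
        have e6 := Real.add_one_le_exp ε
        rw [e5]; nlinarith
      have e7 : ε * K1 ≤ ε * ((n + 1 : ℕ) : ℝ) := mul_le_mul_of_nonneg_left hNK'.le hε.le
      have e8 := mul_le_mul_of_nonneg_left e4 (Nat.cast_nonneg (α := ℝ) (n + 1))
      linarith
    have hpos : (0 : ℝ) < ((n + 1 : ℕ) : ℝ) := by positivity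
    have five : ((n + 1 : ℕ) : ℝ) * indCount G τ L k ≤ ((n + 1 : ℕ) : ℝ) * (PP ell k * X) := by
      refine three.trans ((mul_le_mul_of_nonneg_left four hC0).trans (le_of_eq ?_))
      rw [hC, Real.exp_neg]
      have := (Real.exp_pos (2 * ε)).ne'
      field_simp
    exact le_of_mul_le_mul_left five hpos

end KWAux

theorem kw (G : SimpleGraph V) (τ : V → ι) (q : ι → ι → ℝ) (Q Γ η ε K0 K1 D : ℝ)
    (hsymm : ∀ a b, q a b = q b a) (hq0 : ∀ a b, 0 ≤ q a b) (hqQ : ∀ a b, q a b ≤ Q)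
    (hQ0 : 0 ≤ Q) (hQ : Q ≤ 1 / 2)
    (hreg : CutReg G τ q Γ) (hη : 0 < η) (hε : 0 < ε) (hK1 : 0 ≤ K1) (hD : 0 ≤ D)
    (L : Finset V) (k k0 : ι → ℕ) (hk : ∀ l, k0 l ≤ k l) (hK0 : (∑ l, (k0 l : ℝ)) ≤ K0)
    (hk0 : ∀ l, (k0 l : ℝ) ≤ D * (η * ((fib τ L l).card : ℝ) * Real.exp (-(2 * Q * K0))))
    (hΓ : D ^ 2 * Γ * Real.exp (Q * K0) ≤ ε ^ 2 * K1) :
    (indCount G τ L k : ℝ) ≤ binProd τ L k *
      Real.exp (-(energy q k0) + (η + 2 * ε + ((Fintype.card ι : ℝ) + 1) * Q) * K0 + Q * K1 ^ 2 / 2) := by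
  set N0 : ℕ := ∑ l, k0 l with hN0
  have hN0c : (∑ l, (k0 l : ℝ)) = N0 := by rw [hN0]; push_cast; rfl
  have hN0K : (N0 : ℝ) ≤ K0 := hN0c ▸ hK0
  have hN00 : (0 : ℝ) ≤ N0 := Nat.cast_nonneg _
  have hexp : Real.exp (-(2 * Q)) ≤ 1 - Q := by
    rw [Real.exp_neg, inv_le_iff_one_le_mul₀ (Real.exp_pos _)]
    have h1 := Real.add_one_le_exp (2 * Q)
    nlinarith
  have hpow : Real.exp (-(2 * Q * K0)) ≤ (1 - Q) ^ N0 := by
    calc Real.exp (-(2 * Q * K0)) ≤ Real.exp (N0 * (-(2 * Q))) :=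
          Real.exp_le_exp.2 (by nlinarith)
      _ = Real.exp (-(2 * Q)) ^ N0 := Real.exp_nat_mul _ _
      _ ≤ (1 - Q) ^ N0 := pow_le_pow_left₀ (Real.exp_pos _).le hexp N0
  have h1 := KWAux.main G τ q Q Γ ε K0 K1 D hsymm hq0 hqQ hQ0 hQ hreg hε hK1 hD
    (fun l => η * ((fib τ L l).card : ℝ) * Real.exp (-(2 * Q * K0))) (fun l => by positivity)
    k0 hK0 hk0 hΓ N0 k0 L (fun l => η * ((fib τ L l).card : ℝ)) rfl (fun l => le_rfl)
    (fun l => mul_le_mul_of_nonneg_left hpow (by positivity))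
  have h2 := KWAux.PP_le_exp (fun l => ((fib τ L l).card : ℝ) + η * ((fib τ L l).card : ℝ))
    (fun l => ((fib τ L l).card : ℝ)) (fun _ => η) (fun l => by positivity)
    (fun l => by
      have := mul_le_mul_of_nonneg_left (Real.add_one_le_exp η) (Nat.cast_nonneg (α := ℝ) (fib τ L l).card)
      linarith) k0
  rw [← Finset.sum_mul, hN0c] at h2
  have h3 : -(KWAux.En q k0) ≤ -(energy q k0) + Q * K0 := by
    unfold KWAux.En energy
    have e1 : ∑ l, q l l * (k0 l : ℝ) ≤ ∑ l, Q * (k0 l : ℝ) :=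
      Finset.sum_le_sum (fun l _ => mul_le_mul_of_nonneg_right (hqQ l l) (Nat.cast_nonneg _))
    rw [← Finset.mul_sum, hN0c] at e1
    have e2 : Q * N0 ≤ Q * K0 := mul_le_mul_of_nonneg_left hN0K hQ0
    have e3 : 0 ≤ Q * N0 := mul_nonneg hQ0 hN00
    linarith
  have h4 : (indCount G τ L k0 : ℝ) ≤ binProd τ L k0 *
      Real.exp (-(energy q k0) + (η + 2 * ε + ((Fintype.card ι : ℝ) + 1) * Q) * K0 + Q * K1 ^ 2 / 2) := by
    refine h1.trans ((mul_le_mul_of_nonneg_right h2 (Real.exp_pos _).le).trans ?_)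
    rw [mul_assoc, ← Real.exp_add]
    refine mul_le_mul_of_nonneg_left (Real.exp_le_exp.2 ?_)
      (KWAux.PP_nonneg _ (fun l => Nat.cast_nonneg _) _)
    have e1 : (N0 : ℝ) * η ≤ K0 * η := mul_le_mul_of_nonneg_right hN0K hη.le
    have e2 : (2 * ε + (Fintype.card ι : ℝ) * Q) * N0 ≤ (2 * ε + (Fintype.card ι : ℝ) * Q) * K0 :=
      mul_le_mul_of_nonneg_left hN0K (by positivity)
    nlinarith
  have h5 : ∑ l, k0 l ≤ ∑ l, k l := Finset.sum_le_sum (fun l _ => hk l)
  exact KWAux.excess G τ L k0 _ h4 (∑ l, k l - ∑ l, k0 l) k hk (by omega)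

theorem indCount_le_binProd (G : SimpleGraph V) (τ : V → ι) (L : Finset V) (k : ι → ℕ) :
    (indCount G τ L k : ℝ) ≤ binProd τ L k := by
  exact KWAux.ind_le_bin G τ L k

end
end Pool.Agent.MP_b5eafd_co

end

-- part MP_b5eafd_co.Seq
section

/-
HINTS. For j : Nat let res j G be G restricted to vertices < j (Adj u v and u < j and v < j).
back, prof at v < j and indSets .. (below v) for v <= j only depend on res j G.
class_count: induct on j <= n: |image (res j) C| <= prod_{v < j} b v.  res (j+1) G is determined by (res j G, back G j), and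
back G j is in indSets G tau (below j) (kappa j) (triangle-free => back nbhd independent).  Use Finset.card_le_mul_card_image style fibre counting
(for H in the image pick G0 in C with res j G0 = H).  res n G = G.
build_count: A_j = {G triangle-free, res j G = G, prof G tau u = kappa u for u < j}; prod_{v<j} b v <= |A_j|; the map (G,S) -> G + star(j,S),
S in indSets G tau (below j) (kappa j), is injective into A_{j+1}.
eS_fib_eq_prof: split ordered adjacent pairs (x,y) into y < x and x < y.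
prod_binProd_le: for s >= 0, kappa : Nat, q > 0: s^kappa/kappa! <= exp(s q - kappa log q) (Real.pow_div_factorial_le_exp).  Use q = qB (tau v) l,
s = |fib tau (below v) l|; if q = 0 then e_{tau v, l} = 0 hence prof v l = 0 and the factor is 1 (log 0 = 0 harmless).
sum_v sum_l s q = sum_{u<v} q(tau v)(tau u) <= (1/2) sum_{u,v} q = eS/2.   sum_v sum_l prof log q = (1/2) sum_{v,u} A(v,u) log q(tau v)(tau u)
= eS/2 log pD + eS/2 ent   (w_a w_b UB a b = e_ab/eS, and log q = log pD + log UB when e_ab > 0).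
-/

set_option autoImplicit false
set_option linter.unusedSectionVars false
open Finset Filter Topology

namespace Pool.Agent.MP_b5eafd_co
noncomputable section
open Classical

variable {n : ℕ} {ι : Type} [Fintype ι]

namespace SeqAux

/-- restriction of a graph to the vertices below `j` -/
def res (j : ℕ) (G : SimpleGraph (Fin n)) : SimpleGraph (Fin n) where
  Adj u v := G.Adj u v ∧ u.val < j ∧ v.val < j
  symm := ⟨fun _ _ h => ⟨h.1.symm, h.2.2, h.2.1⟩⟩
  loopless := ⟨fun _ h => G.irrefl h.1⟩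

lemma res_adj (j : ℕ) (G : SimpleGraph (Fin n)) (u v : Fin n) :
    (res j G).Adj u v ↔ G.Adj u v ∧ u.val < j ∧ v.val < j := Iff.rfl

lemma mem_below {u v : Fin n} : u ∈ below v ↔ u < v := by simp [below]

lemma mem_back {G : SimpleGraph (Fin n)} {u v : Fin n} : u ∈ back G v ↔ u < v ∧ G.Adj v u := by
  simp [back, below]

lemma mem_fib {V : Type} {τ : V → ι} {L : Finset V} {a : ι} {v : V} :
    v ∈ fib τ L a ↔ v ∈ L ∧ τ v = a := by simp [fib]

lemma mem_indSets {V : Type} [Fintype V] {G : SimpleGraph V} {τ : V → ι} {L S : Finset V} {k : ι → ℕ} :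
    S ∈ indSets G τ L k ↔
      S ⊆ L ∧ (∀ u ∈ S, ∀ v ∈ S, ¬ G.Adj u v) ∧ ∀ l, (fib τ S l).card = k l := by
  simp only [indSets, mem_filter, mem_powerset]

lemma res_back {j : ℕ} (G : SimpleGraph (Fin n)) {v : Fin n} (hv : v.val < j) :
    back (res j G) v = back G v := by
  ext u
  rw [mem_back, mem_back, res_adj]
  exact ⟨fun h => ⟨h.1, h.2.1⟩, fun h => ⟨h.1, h.2, hv, lt_trans h.1 hv⟩⟩

lemma res_prof {j : ℕ} (G : SimpleGraph (Fin n)) (τ : Fin n → ι) {v : Fin n} (hv : v.val < j)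
    (l : ι) : prof (res j G) τ v l = prof G τ v l := by
  rw [prof, prof, res_back G hv]

lemma res_indSets (G : SimpleGraph (Fin n)) (τ : Fin n → ι) (v : Fin n) (k : ι → ℕ) :
    indSets (res v.val G) τ (below v) k = indSets G τ (below v) k := by
  ext S
  rw [mem_indSets, mem_indSets]
  refine and_congr_right fun h => and_congr_left fun _ => ?_
  refine ⟨fun h2 u hu w hw h3 => h2 u hu w hw ⟨h3, ?_, ?_⟩, fun h2 u hu w hw h3 => h2 u hu w hw h3.1⟩
  · exact mem_below.1 (h hu)
  · exact mem_below.1 (h hw)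

lemma res_top (G : SimpleGraph (Fin n)) : res n G = G := by
  ext u v
  rw [res_adj]
  exact ⟨fun h => h.1, fun h => ⟨h, u.2, v.2⟩⟩

lemma res_zero (G : SimpleGraph (Fin n)) : res 0 G = ⊥ := by
  ext u v
  rw [res_adj]
  simp

lemma res_res (j : ℕ) (G : SimpleGraph (Fin n)) : res j (res (j + 1) G) = res j G := by
  ext u v
  simp only [res_adj]
  exact ⟨fun h => ⟨h.1.1, h.2⟩, fun h => ⟨⟨h.1, by omega, by omega⟩, h.2⟩⟩

lemma res_idem (j : ℕ) (G : SimpleGraph (Fin n)) : res j (res j G) = res j G := by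
  ext u v
  simp only [res_adj]
  exact ⟨fun h => ⟨h.1.1, h.2⟩, fun h => ⟨⟨h.1, h.2⟩, h.2⟩⟩

lemma res_le (j : ℕ) (G : SimpleGraph (Fin n)) : res j G ≤ G := fun _ _ h => h.1

lemma res_succ_le {G H : SimpleGraph (Fin n)} (v : Fin n) (h1 : res v.val G = res v.val H)
    (h2 : back G v = back H v) : res (v.val + 1) G ≤ res (v.val + 1) H := by
  intro x y hxy
  rw [res_adj] at hxy ⊢
  obtain ⟨a1, a2, a3⟩ := hxy
  refine ⟨?_, a2, a3⟩
  have hne : x.val ≠ y.val := fun h => a1.ne (Fin.ext h)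
  by_cases hx : x = v
  · subst hx
    have : y ∈ back G x := mem_back.2 ⟨by rw [Fin.lt_def]; omega, a1⟩
    rw [h2] at this
    exact (mem_back.1 this).2
  by_cases hy : y = v
  · subst hy
    have : x ∈ back G y := mem_back.2 ⟨by rw [Fin.lt_def]; omega, a1.symm⟩
    rw [h2] at this
    exact (mem_back.1 this).2.symm
  have hx' : x.val ≠ v.val := fun h => hx (Fin.ext h)
  have hy' : y.val ≠ v.val := fun h => hy (Fin.ext h)
  have : (res v.val G).Adj x y := ⟨a1, by omega, by omega⟩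
  rw [h1] at this
  exact this.1

lemma back_mem {G : SimpleGraph (Fin n)} (hG : G.CliqueFree 3) (τ : Fin n → ι) (v : Fin n) :
    back G v ∈ indSets G τ (below v) (prof G τ v) := by
  rw [mem_indSets]
  refine ⟨fun u hu => mem_below.2 (mem_back.1 hu).1, fun u hu w hw h => ?_, fun _ => rfl⟩
  exact hG {v, u, w} (SimpleGraph.is3Clique_triple_iff.2
    ⟨(mem_back.1 hu).2, (mem_back.1 hw).2, h⟩)

lemma prod_succ (b : Fin n → ℝ) (v : Fin n) :
    ∏ u ∈ univ.filter (fun u : Fin n => u.val < v.val + 1), b u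
      = (∏ u ∈ univ.filter (fun u : Fin n => u.val < v.val), b u) * b v := by
  have : univ.filter (fun u : Fin n => u.val < v.val + 1)
      = insert v (univ.filter (fun u : Fin n => u.val < v.val)) := by
    ext u
    simp only [mem_filter, mem_univ, true_and, mem_insert, Fin.ext_iff]
    omega
  rw [this, prod_insert (by simp), mul_comm]

lemma prod_full (b : Fin n → ℝ) :
    ∏ u ∈ univ.filter (fun u : Fin n => u.val < n), b u = ∏ u, b u := by
  rw [filter_true_of_mem fun u _ => u.2]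

/-- join a new vertex to a set of earlier vertices -/
def ext (H : SimpleGraph (Fin n)) (v : Fin n) (S : Finset (Fin n)) : SimpleGraph (Fin n) where
  Adj x y := H.Adj x y ∨ (x = v ∧ y ∈ S ∧ y < v) ∨ (y = v ∧ x ∈ S ∧ x < v)
  symm := ⟨fun _ _ h => by
    rcases h with h | h | h
    · exact Or.inl h.symm
    · exact Or.inr (Or.inr h)
    · exact Or.inr (Or.inl h)⟩
  loopless := ⟨fun x h => by
    rcases h with h | h | h
    · exact H.irrefl h
    · exact absurd h.2.2 (by rw [h.1]; exact lt_irrefl _)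
    · exact absurd h.2.2 (by rw [h.1]; exact lt_irrefl _)⟩

lemma ext_adj (H : SimpleGraph (Fin n)) (v : Fin n) (S : Finset (Fin n)) (x y : Fin n) :
    (ext H v S).Adj x y ↔ H.Adj x y ∨ (x = v ∧ y ∈ S ∧ y < v) ∨ (y = v ∧ x ∈ S ∧ x < v) := Iff.rfl

lemma lt_of_res {H : SimpleGraph (Fin n)} {j : ℕ} (h : res j H = H) {x y : Fin n}
    (hxy : H.Adj x y) : x.val < j ∧ y.val < j := by
  rw [← h] at hxy
  exact hxy.2

lemma res_ext {H : SimpleGraph (Fin n)} {v : Fin n} (h : res v.val H = H) (S : Finset (Fin n)) :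
    res v.val (ext H v S) = H := by
  ext x y
  rw [res_adj, ext_adj]
  refine ⟨fun h1 => ?_, fun h1 => ⟨Or.inl h1, lt_of_res h h1⟩⟩
  obtain ⟨h2 | h2 | h2, h3, h4⟩ := h1
  · exact h2
  · rw [h2.1] at h3; omega
  · rw [h2.1] at h4; omega

lemma res_succ_ext {H : SimpleGraph (Fin n)} {v : Fin n} (h : res v.val H = H)
    (S : Finset (Fin n)) : res (v.val + 1) (ext H v S) = ext H v S := by
  ext x y
  rw [res_adj]
  refine ⟨fun h1 => h1.1, fun h1 => ⟨h1, ?_⟩⟩
  rcases h1 with h2 | ⟨rfl, _, h2⟩ | ⟨rfl, _, h2⟩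
  · have := lt_of_res h h2
    omega
  · rw [Fin.lt_def] at h2; omega
  · rw [Fin.lt_def] at h2; omega

lemma back_ext {H : SimpleGraph (Fin n)} {v : Fin n} (h : res v.val H = H) {S : Finset (Fin n)}
    (hS : S ⊆ below v) : back (ext H v S) v = S := by
  ext x
  rw [mem_back, ext_adj]
  refine ⟨fun h1 => ?_, fun h1 => ⟨mem_below.1 (hS h1), Or.inr (Or.inl ⟨rfl, h1, mem_below.1 (hS h1)⟩)⟩⟩
  obtain ⟨h2, h3 | h3 | h3⟩ := h1
  · exact absurd (lt_of_res h h3).1 (lt_irrefl _)
  · exact h3.2.1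
  · exact absurd h3.2.2 (lt_irrefl _)

lemma free_ext {H : SimpleGraph (Fin n)} {v : Fin n} (h : res v.val H = H) (hH : H.CliqueFree 3)
    {S : Finset (Fin n)} (hS : ∀ u ∈ S, ∀ w ∈ S, ¬ H.Adj u w) : (ext H v S).CliqueFree 3 := by
  have A : ∀ x y, (ext H v S).Adj x y → x ≠ v → y ≠ v → H.Adj x y := fun x y hxy hx hy => by
    rcases hxy with h1 | h1 | h1
    · exact h1
    · exact (hx h1.1).elim
    · exact (hy h1.1).elim
  have B : ∀ y, (ext H v S).Adj v y → y ∈ S := fun y hy => by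
    rcases hy with h1 | h1 | h1
    · exact absurd (lt_of_res h h1).1 (lt_irrefl _)
    · exact h1.2.1
    · exact absurd h1.2.2 (lt_irrefl _)
  have C : ∀ x y, (ext H v S).Adj v x → (ext H v S).Adj v y → ¬ (ext H v S).Adj x y :=
    fun x y hx hy hxy => hS x (B x hx) y (B y hy) (A x y hxy hx.ne.symm hy.ne.symm)
  intro t ht
  obtain ⟨x, y, z, hxy, hxz, hyz, rfl⟩ := SimpleGraph.is3Clique_iff.1 ht
  by_cases hx : x = v
  · subst hx
    exact C y z hxy hxz hyz
  by_cases hy : y = v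
  · subst hy
    exact C x z hxy.symm hyz hxz
  by_cases hz : z = v
  · subst hz
    exact C x y hxz.symm hyz.symm hxy
  exact hH {x, y, z} (SimpleGraph.is3Clique_triple_iff.2
    ⟨A _ _ hxy hx hy, A _ _ hxz hx hz, A _ _ hyz hy hz⟩)

lemma adjR_split (G : SimpleGraph (Fin n)) (u w : Fin n) :
    adjR G u w = (if w ∈ back G u then 1 else 0) + (if u ∈ back G w then 1 else 0) := by
  simp only [adjR, mem_back]
  by_cases h : G.Adj u w
  · rcases lt_or_gt_of_ne h.ne with h1 | h1
    · simp [h, h.symm, h1, not_lt_of_gt h1]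
    · simp [h, h.symm, h1, not_lt_of_gt h1]
  · have h' : ¬ G.Adj w u := fun h' => h h'.symm
    simp [h, h']

lemma sum_adj (G : SimpleGraph (Fin n)) (g : Fin n → Fin n → ℝ) (hg : ∀ u w, g u w = g w u) :
    ∑ u, ∑ w, adjR G u w * g u w = 2 * ∑ u, ∑ w ∈ back G u, g u w := by
  have A : ∑ u, ∑ w, (if w ∈ back G u then (1 : ℝ) else 0) * g u w
      = ∑ u, ∑ w ∈ back G u, g u w := by
    refine sum_congr rfl fun u _ => ?_
    simp only [ite_mul, one_mul, zero_mul]
    rw [sum_ite_mem, univ_inter]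
  have B : ∑ u, ∑ w, (if u ∈ back G w then (1 : ℝ) else 0) * g u w
      = ∑ u, ∑ w ∈ back G u, g u w := by
    rw [sum_comm, ← A]
    exact sum_congr rfl fun u _ => sum_congr rfl fun w _ => by rw [hg]
  simp only [adjR_split G, add_mul, sum_add_distrib]
  rw [A, B, two_mul]

lemma sum_fib {V : Type} (τ : V → ι) (L : Finset V) (f : V → ℝ) :
    ∑ u ∈ L, f u = ∑ l, ∑ u ∈ fib τ L l, f u := (sum_fiberwise L τ f).symm

lemma sum_type {V : Type} (τ : V → ι) (L : Finset V) (φ : ι → ℝ) :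
    ∑ u ∈ L, φ (τ u) = ∑ l, ((fib τ L l).card : ℝ) * φ l := by
  rw [sum_fib τ L]
  refine sum_congr rfl fun l _ => ?_
  rw [sum_congr rfl fun u hu => by rw [(mem_fib.1 hu).2], sum_const, nsmul_eq_mul]

lemma adjR_nonneg {V : Type} (G : SimpleGraph V) (u w : V) : 0 ≤ adjR G u w := by
  unfold adjR
  split_ifs <;> norm_num

lemma adjR_symm {V : Type} (G : SimpleGraph V) (u w : V) : adjR G u w = adjR G w u := by
  unfold adjR
  exact if_congr (G.adj_comm u w) rfl rfl

lemma eS_nonneg {V : Type} (G : SimpleGraph V) (S T : Finset V) : 0 ≤ eS G S T :=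
  sum_nonneg fun _ _ => sum_nonneg fun _ _ => adjR_nonneg G _ _

lemma eS_symm {V : Type} (G : SimpleGraph V) (S T : Finset V) : eS G S T = eS G T S := by
  unfold eS
  rw [sum_comm]
  exact sum_congr rfl fun u _ => sum_congr rfl fun w _ => adjR_symm G _ _

lemma qB_nonneg (G : SimpleGraph (Fin n)) (τ : Fin n → ι) (a b : ι) : 0 ≤ qB G τ a b :=
  div_nonneg (eS_nonneg G _ _) (by positivity)

lemma qB_symm (G : SimpleGraph (Fin n)) (τ : Fin n → ι) (a b : ι) : qB G τ a b = qB G τ b a := by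
  unfold qB qL
  rw [eS_symm, mul_comm]

lemma card_mul_qB (G : SimpleGraph (Fin n)) (τ : Fin n → ι) (a b : ι) :
    ((fib τ univ a).card : ℝ) * ((fib τ univ b).card : ℝ) * qB G τ a b
      = eS G (fib τ univ a) (fib τ univ b) := by
  unfold qB qL
  by_cases h : ((fib τ univ a).card : ℝ) * ((fib τ univ b).card : ℝ) = 0
  · rw [h, zero_mul]
    rcases mul_eq_zero.1 h with h1 | h1
    · rw [Nat.cast_eq_zero, card_eq_zero] at h1
      simp [eS, h1]
    · rw [Nat.cast_eq_zero, card_eq_zero] at h1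
      simp [eS, h1]
  · rw [mul_div_cancel₀ _ h]

lemma qB_pos (G : SimpleGraph (Fin n)) (τ : Fin n → ι) (v : Fin n) (l : ι)
    (h : prof G τ v l ≠ 0) : 0 < qB G τ (τ v) l := by
  obtain ⟨u, hu⟩ := card_pos.1 (Nat.pos_of_ne_zero h)
  obtain ⟨h1, h2⟩ := mem_fib.1 hu
  have hv' : v ∈ fib τ univ (τ v) := mem_fib.2 ⟨mem_univ _, rfl⟩
  have hu' : u ∈ fib τ univ l := mem_fib.2 ⟨mem_univ _, h2⟩
  refine div_pos ?_ (mul_pos (Nat.cast_pos.2 (card_pos.2 ⟨v, hv'⟩)) (Nat.cast_pos.2 (card_pos.2 ⟨u, hu'⟩)))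
  refine sum_pos' (fun _ _ => sum_nonneg fun _ _ => adjR_nonneg G _ _) ⟨v, hv', ?_⟩
  refine sum_pos' (fun _ _ => adjR_nonneg G _ _) ⟨u, hu', ?_⟩
  simp [adjR, (mem_back.1 h1).2]

lemma factor_le (s q : ℝ) (k : ℕ) (hs : 0 ≤ s) (hq : 0 ≤ q) (h : k ≠ 0 → 0 < q) :
    s ^ k / (k.factorial : ℝ) ≤ Real.exp (s * q - k * Real.log q) := by
  by_cases hk : k = 0
  · subst hk
    simp only [pow_zero, Nat.factorial_zero, Nat.cast_one, div_one, Nat.cast_zero, zero_mul, sub_zero]
    exact Real.one_le_exp (mul_nonneg hs hq)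
  · have hq' := h hk
    have h1 := Real.pow_div_factorial_le_exp (s * q) (mul_nonneg hs hq) k
    rw [Real.exp_sub, Real.exp_nat_mul, Real.exp_log hq', le_div_iff₀ (pow_pos hq' k)]
    rw [mul_pow] at h1
    calc s ^ k / (k.factorial : ℝ) * q ^ k = s ^ k * q ^ k / (k.factorial : ℝ) := by ring
      _ ≤ _ := h1

lemma sum_blocks (G : SimpleGraph (Fin n)) (τ : Fin n → ι) (φ : ι → ι → ℝ) :
    ∑ u, ∑ w, adjR G u w * φ (τ u) (τ w)
      = ∑ a, ∑ b, eS G (fib τ univ a) (fib τ univ b) * φ a b := by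
  rw [sum_fib τ univ]
  refine sum_congr rfl fun a _ => ?_
  rw [sum_congr rfl fun u _ => sum_fib τ univ _, sum_comm]
  refine sum_congr rfl fun b _ => ?_
  rw [eS, sum_mul]
  refine sum_congr rfl fun u hu => ?_
  rw [sum_mul]
  refine sum_congr rfl fun w hw => ?_
  rw [(mem_fib.1 hu).2, (mem_fib.1 hw).2]

lemma sum_eS (G : SimpleGraph (Fin n)) (τ : Fin n → ι) :
    ∑ a, ∑ b, eS G (fib τ univ a) (fib τ univ b) = eS G univ univ := by
  have := sum_blocks G τ fun _ _ => 1
  simp only [mul_one] at this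
  rw [← this, eS]

lemma sum_below_le (g : Fin n → Fin n → ℝ) (hg : ∀ u w, g u w = g w u) (h0 : ∀ u w, 0 ≤ g u w) :
    2 * ∑ u, ∑ w ∈ below u, g u w ≤ ∑ u, ∑ w, g u w := by
  have h1 := sum_adj (⊤ : SimpleGraph (Fin n)) g hg
  have h2 : ∀ u : Fin n, back (⊤ : SimpleGraph (Fin n)) u = below u := fun u => by
    ext w
    rw [mem_back, mem_below]
    exact ⟨fun h => h.1, fun h => ⟨h, h.ne'⟩⟩
  simp only [h2] at h1
  rw [← h1]
  refine sum_le_sum fun u _ => sum_le_sum fun w _ => ?_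
  unfold adjR
  split_ifs
  · rw [one_mul]
  · rw [zero_mul]; exact h0 u w

end SeqAux

open SeqAux

theorem class_count (τ : Fin n → ι) (κ : Fin n → ι → ℕ) (C : Finset (SimpleGraph (Fin n)))
    (b : Fin n → ℝ) (hb : ∀ v, 0 ≤ b v)
    (h : ∀ G ∈ C, G.CliqueFree 3 ∧ (∀ v l, prof G τ v l = κ v l) ∧
      ∀ v, (indCount G τ (below v) (κ v) : ℝ) ≤ b v) :
    (C.card : ℝ) ≤ ∏ v, b v := by
  have key : ∀ j, j ≤ n → ((C.image (res j)).card : ℝ)
      ≤ ∏ u ∈ univ.filter (fun u : Fin n => u.val < j), b u := by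
    intro j
    induction j with
    | zero =>
      intro _
      have h1 : C.image (res 0) ⊆ {⊥} := fun H hH => by
        obtain ⟨G, _, rfl⟩ := mem_image.1 hH
        rw [res_zero, mem_singleton]
      have h2 := card_le_card h1
      rw [card_singleton] at h2
      simp only [Nat.not_lt_zero, filter_false, prod_empty]
      exact_mod_cast h2
    | succ j ih =>
      intro hj
      set v : Fin n := ⟨j, hj⟩ with hv
      have hjv : j = v.val := rfl
      rw [hjv] at ih ⊢
      rw [prod_succ]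
      have h1 : ∀ K ∈ C.image (res (v.val + 1)), res v.val K ∈ C.image (res v.val) := fun K hK => by
        obtain ⟨G, hG, rfl⟩ := mem_image.1 hK
        rw [res_res]
        exact mem_image_of_mem _ hG
      rw [card_eq_sum_card_fiberwise h1, Nat.cast_sum]
      refine le_trans (sum_le_card_nsmul _ _ (b v) fun H hH => ?_) ?_
      · obtain ⟨G0, hG0, rfl⟩ := mem_image.1 hH
        refine le_trans ?_ ((h G0 hG0).2.2 v)
        rw [Nat.cast_le, indCount]
        refine card_le_card_of_injOn (fun K => back K v) (fun K hK => ?_) fun K hK K' hK' hKK => ?_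
        · obtain ⟨h2, h3⟩ := mem_filter.1 (mem_coe.1 hK)
          obtain ⟨G, hG, rfl⟩ := mem_image.1 h2
          rw [res_res] at h3
          have h4 := back_mem (h G hG).1 τ v
          rw [funext ((h G hG).2.1 v), ← res_indSets, h3, res_indSets] at h4
          rw [mem_coe]
          show back (res (v.val + 1) G) v ∈ _
          rw [res_back G (Nat.lt_succ_self _)]
          exact h4
        · obtain ⟨h2, h3⟩ := mem_filter.1 (mem_coe.1 hK)
          obtain ⟨G, hG, rfl⟩ := mem_image.1 h2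
          obtain ⟨h2', h3'⟩ := mem_filter.1 (mem_coe.1 hK')
          obtain ⟨G', hG', rfl⟩ := mem_image.1 h2'
          rw [res_res] at h3 h3'
          have h4 : back (res (v.val + 1) G) v = back (res (v.val + 1) G') v := hKK
          rw [res_back G (Nat.lt_succ_self _), res_back G' (Nat.lt_succ_self _)] at h4
          exact le_antisymm (res_succ_le v (h3.trans h3'.symm) h4)
            (res_succ_le v (h3'.trans h3.symm) h4.symm)
      · rw [nsmul_eq_mul]
        exact mul_le_mul_of_nonneg_right (ih (le_of_lt v.2)) (hb v)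
  have h1 := key n le_rfl
  rw [prod_full, image_congr (g := id) fun G _ => res_top G, image_id] at h1
  exact h1

theorem build_count (τ : Fin n → ι) (κ : Fin n → ι → ℕ) (b : Fin n → ℝ) (hb : ∀ v, 0 ≤ b v)
    (h : ∀ v, ∀ G : SimpleGraph (Fin n), G.CliqueFree 3 →
      (∀ u, u < v → ∀ l, prof G τ u l = κ u l) → b v ≤ (indCount G τ (below v) (κ v) : ℝ)) :
    ∏ v, b v ≤ (((univ : Finset (SimpleGraph (Fin n))).filter
      (fun G => G.CliqueFree 3 ∧ ∀ v l, prof G τ v l = κ v l)).card : ℝ) := by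
  set A : ℕ → Finset (SimpleGraph (Fin n)) := fun j => univ.filter fun G =>
    G.CliqueFree 3 ∧ res j G = G ∧ ∀ u : Fin n, u.val < j → ∀ l, prof G τ u l = κ u l with hA
  have hmem : ∀ j G, G ∈ A j ↔
      G.CliqueFree 3 ∧ res j G = G ∧ ∀ u : Fin n, u.val < j → ∀ l, prof G τ u l = κ u l := by
    intro j G
    simp only [hA, mem_filter, mem_univ, true_and]
  have key : ∀ j, j ≤ n → ∏ u ∈ univ.filter (fun u : Fin n => u.val < j), b u
      ≤ ((A j).card : ℝ) := by
    intro j
    induction j with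
    | zero =>
      intro _
      have h1 : (⊥ : SimpleGraph (Fin n)) ∈ A 0 := (hmem _ _).2
        ⟨SimpleGraph.cliqueFree_bot (by norm_num), res_zero _, fun u hu => absurd hu (Nat.not_lt_zero _)⟩
      have h2 : 1 ≤ (A 0).card := card_pos.2 ⟨_, h1⟩
      simp only [Nat.not_lt_zero, filter_false, prod_empty]
      exact_mod_cast h2
    | succ j ih =>
      intro hj
      set v : Fin n := ⟨j, hj⟩ with hv
      have hjv : j = v.val := rfl
      rw [hjv] at ih ⊢
      rw [prod_succ]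
      have h1 : ∀ K ∈ A (v.val + 1), res v.val K ∈ A v.val := fun K hK => by
        obtain ⟨a1, _, a3⟩ := (hmem _ _).1 hK
        refine (hmem _ _).2 ⟨a1.anti (res_le _ _), res_idem _ _, fun u hu l => ?_⟩
        rw [res_prof K τ hu, a3 u (by omega)]
      rw [card_eq_sum_card_fiberwise h1, Nat.cast_sum]
      refine le_trans ?_ (card_nsmul_le_sum _ _ (b v) fun H hH => ?_)
      · rw [nsmul_eq_mul]
        exact mul_le_mul_of_nonneg_right (ih (le_of_lt v.2)) (hb v)
      · obtain ⟨a1, a2, a3⟩ := (hmem _ _).1 hH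
        refine le_trans (h v H a1 fun u hu => a3 u hu) ?_
        rw [Nat.cast_le, indCount]
        refine card_le_card_of_injOn (fun S => SeqAux.ext H v S) (fun S hS => ?_)
          fun S hS S' hS' hSS => ?_
        · obtain ⟨b1, b2, b3⟩ := mem_indSets.1 (mem_coe.1 hS)
          rw [mem_coe, mem_filter]
          refine ⟨(hmem _ _).2 ⟨free_ext a2 a1 b2, res_succ_ext a2 S, fun u hu l => ?_⟩, res_ext a2 S⟩
          by_cases huv : u = v
          · rw [huv, prof, back_ext a2 b1, b3]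
          · have hu' : u.val < v.val := by
              have : u.val ≠ v.val := fun h => huv (Fin.ext h)
              omega
            rw [← res_prof _ τ hu', res_ext a2, a3 u hu']
        · have h4 : SeqAux.ext H v S = SeqAux.ext H v S' := hSS
          rw [← back_ext a2 (mem_indSets.1 (mem_coe.1 hS)).1, h4,
            back_ext a2 (mem_indSets.1 (mem_coe.1 hS')).1]
  have h1 := key n le_rfl
  rw [prod_full] at h1
  refine h1.trans (Nat.cast_le.2 (card_le_card fun G hG => ?_))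
  obtain ⟨a1, _, a3⟩ := (hmem _ _).1 hG
  exact mem_filter.2 ⟨mem_univ _, a1, fun v => a3 v v.2⟩

/-- block counts inside a down-closed set are determined by the profile. -/
theorem eS_fib_eq_prof (G : SimpleGraph (Fin n)) (τ : Fin n → ι) (L : Finset (Fin n))
    (hL : ∀ u ∈ L, ∀ v, v < u → v ∈ L) (a b : ι) :
    eS G (fib τ L a) (fib τ L b) =
      ∑ u ∈ fib τ L a, (prof G τ u b : ℝ) + ∑ u ∈ fib τ L b, (prof G τ u a : ℝ) := by
  have A : ∀ u ∈ L, ∀ c, ∑ w ∈ fib τ L c, (if w ∈ back G u then (1 : ℝ) else 0)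
      = prof G τ u c := fun u hu c => by
    rw [sum_boole, prof]
    congr 2
    ext w
    rw [mem_filter, mem_fib, mem_fib]
    exact ⟨fun h => ⟨h.2, h.1.2⟩, fun h => ⟨⟨hL u hu w (mem_back.1 h.1).1, h.2⟩, h.1⟩⟩
  unfold eS
  simp only [adjR_split G, sum_add_distrib]
  rw [sum_congr rfl fun u hu => A u (mem_fib.1 hu).1 b, sum_comm,
    sum_congr rfl fun u hu => A u (mem_fib.1 hu).1 a]

theorem eS_univ_eq_prof (G : SimpleGraph (Fin n)) (τ : Fin n → ι) :
    eS G univ univ = 2 * ∑ v, ∑ l, (prof G τ v l : ℝ) := by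
  have h1 := sum_adj G (fun _ _ => 1) fun _ _ => rfl
  simp only [mul_one] at h1
  rw [eS, h1]
  congr 1
  refine sum_congr rfl fun v _ => ?_
  have h2 := sum_type τ (back G v) fun _ => 1
  simp only [mul_one] at h2
  exact h2

theorem prod_binProd_le (G : SimpleGraph (Fin n)) (τ : Fin n → ι) (hG : 0 < eS G univ univ) :
    ∏ v, binProd τ (below v) (prof G τ v) ≤
      Real.exp (eS G univ univ / 2 - eS G univ univ / 2 * Real.log (pD G)
        - eS G univ univ / 2 * ent (wB τ) (UB G τ)) := by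
  have hn : (0 : ℝ) < (Fintype.card (Fin n) : ℝ) := by
    rcases Nat.eq_zero_or_pos n with rfl | h
    · simp [eS] at hG
    · simpa using h
  have hp : 0 < pD G := div_pos hG (pow_pos hn 2)
  have h1 : ∏ v, binProd τ (below v) (prof G τ v) ≤
      Real.exp (∑ v, ∑ l, (((fib τ (below v) l).card : ℝ) * qB G τ (τ v) l
        - prof G τ v l * Real.log (qB G τ (τ v) l))) := by
    rw [Real.exp_sum]
    refine prod_le_prod (fun v _ => prod_nonneg fun l _ => by positivity) fun v _ => ?_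
    rw [Real.exp_sum]
    exact prod_le_prod (fun l _ => by positivity) fun l _ =>
      factor_le _ _ _ (Nat.cast_nonneg _) (qB_nonneg G τ _ _) (qB_pos G τ v l)
  refine h1.trans (Real.exp_le_exp.2 ?_)
  simp only [sum_sub_distrib]
  have h2 : 2 * ∑ v, ∑ l, ((fib τ (below v) l).card : ℝ) * qB G τ (τ v) l ≤ eS G univ univ := by
    have h3 := sum_below_le (fun u w => qB G τ (τ u) (τ w)) (fun u w => qB_symm G τ _ _)
      fun u w => qB_nonneg G τ _ _
    simp only [sum_type τ _ (qB G τ (τ _))] at h3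
    refine h3.trans (le_of_eq ?_)
    rw [sum_type τ univ fun a => ∑ l, ((fib τ univ l).card : ℝ) * qB G τ a l, ← sum_eS G τ]
    refine sum_congr rfl fun a _ => ?_
    rw [mul_sum]
    exact sum_congr rfl fun c _ => by rw [← mul_assoc, card_mul_qB]
  have h4 : 2 * ∑ v, ∑ l, (prof G τ v l : ℝ) * Real.log (qB G τ (τ v) l)
      = eS G univ univ * Real.log (pD G) + eS G univ univ * ent (wB τ) (UB G τ) := by
    have h5 := sum_adj G (fun u w => Real.log (qB G τ (τ u) (τ w))) fun u w => by rw [qB_symm]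
    rw [sum_blocks G τ fun a c => Real.log (qB G τ a c)] at h5
    have h6 : 2 * ∑ v, ∑ l, (prof G τ v l : ℝ) * Real.log (qB G τ (τ v) l)
        = ∑ a, ∑ c, eS G (fib τ univ a) (fib τ univ c) * Real.log (qB G τ a c) := by
      rw [h5]
      congr 1
      exact sum_congr rfl fun v _ =>
        (sum_type τ (back G v) fun l => Real.log (qB G τ (τ v) l)).symm
    rw [h6]
    conv_rhs => rw [ent, mul_sum, ← sum_eS G τ, sum_mul, sum_eS G τ, ← sum_add_distrib]
    refine sum_congr rfl fun a _ => ?_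
    rw [sum_mul, mul_sum, ← sum_add_distrib]
    refine sum_congr rfl fun c _ => ?_
    have h7 : eS G univ univ * (wB τ a * wB τ c * UB G τ a c) = eS G (fib τ univ a) (fib τ univ c) := by
      rw [← card_mul_qB, wB, wB, UB, pD]
      field_simp
    have h8 : eS G univ univ * (wB τ a * wB τ c * (UB G τ a c * Real.log (UB G τ a c)))
        = eS G (fib τ univ a) (fib τ univ c) * Real.log (UB G τ a c) := by
      rw [← h7]; ring
    rw [h8]
    by_cases hq : qB G τ a c = 0
    · rw [← card_mul_qB, hq]; simp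
    · rw [UB, Real.log_div hq hp.ne']; ring
  linarith

end
end Pool.Agent.MP_b5eafd_co

end

-- part MP_b5eafd_co.Energy
section

/-
HINTS. p = pD G > 0, qf a b = p * min (UB a b) L0 in [0, p L0], qf <= qB, symmetric; n_l = |fib tau univ l|; sum_l n_l = n.
cutReg_of_sumReg: S a b = B, T a b = T and qf <= qB.
energy_lower: ks v l = qf (tau v) l * n_l if win l < win (tau v), else 0 (real);  k0 v l = min (prof v l) (Nat.floor (ks v l)).
If win l < win (tau v) every vertex u of type l has u/M < v/M so u < v: fib (below v) l = fib univ l and prof v l = sum_{u of type l} A(v,u).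
x y - x0 y0 <= (x - x0) y + x (y - y0) for 0 <= x0 <= x, 0 <= y0 <= y, and sum_a qf a b ks v a <= (p L0)^2 n, so
energy qf (k0 v) >= (1/2) sum_ab qf ks ks - (p L0)^2 n sum_b (ks v b - k0 v b).
ks - k0 <= 1 + (if prof < ks then qB n_b - prof else 0); SumReg with S a b = {v | win b < win a and prof v b < ks v b}, T = univ bounds the sum by Gamma.
Main term at vertex level: sum_ab qf a b ks v a ks v b = sum_{x,y : x/M < v/M, y/M < v/M} F(v,x,y), F(v,x,y) = qf(v,x) qf(x,y) qf(y,v), symmetric in all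
arguments, 0 <= F <= (p L0)^3, sum_{v,x,y} F = p^3 n^3 tri.  1 <= [v top] + [x top] + [y top] + [v/M = x/M] + [x/M = y/M] + [y/M = v/M]
and #{x : x/M = v/M} <= M, so total <= 3 * (top sum) + 3 n^2 M (p L0)^3.
-/

set_option autoImplicit false
open Finset Filter Topology

namespace Pool.Agent.MP_b5eafd_co
noncomputable section
open Classical

namespace EnergyAux

lemma sum_fib {V ι : Type} [Fintype V] [Fintype ι] (τ : V → ι) (f : V → ι → ℝ) :
    ∑ u, f u (τ u) = ∑ a, ∑ u ∈ fib τ univ a, f u a := by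
  rw [← sum_fiberwise univ τ]
  refine sum_congr rfl fun a _ => sum_congr rfl fun u hu => ?_
  rw [(mem_filter.mp hu).2]

lemma sum_type {V ι : Type} [Fintype V] [Fintype ι] (τ : V → ι) (f : ι → ℝ) :
    ∑ u, f (τ u) = ∑ a, ((fib τ univ a).card : ℝ) * f a := by
  rw [sum_fib τ fun _ a => f a]
  simp only [sum_const, nsmul_eq_mul]

lemma adjR_nonneg {V : Type} [Fintype V] (G : SimpleGraph V) (u v : V) : 0 ≤ adjR G u v := by
  unfold adjR; split_ifs <;> norm_num

lemma adjR_comm {V : Type} [Fintype V] (G : SimpleGraph V) (u v : V) : adjR G u v = adjR G v u := by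
  unfold adjR; simp only [G.adj_comm]

lemma qB_nonneg {V ι : Type} [Fintype V] [Fintype ι] (G : SimpleGraph V) (τ : V → ι) (a b : ι) :
    0 ≤ qB G τ a b :=
  div_nonneg (sum_nonneg fun _ _ => sum_nonneg fun _ _ => adjR_nonneg G _ _) (by positivity)

lemma qB_comm {V ι : Type} [Fintype V] [Fintype ι] (G : SimpleGraph V) (τ : V → ι) (a b : ι) :
    qB G τ a b = qB G τ b a := by
  unfold qB qL eS
  rw [sum_comm, mul_comm]
  simp only [adjR_comm G]

lemma card_pos {V : Type} [Fintype V] {G : SimpleGraph V} (hG : 0 < eS G univ univ) :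
    0 < Fintype.card V := by
  by_contra h
  have : IsEmpty V := Fintype.card_eq_zero_iff.mp (by omega)
  simp [eS] at hG

lemma pD_pos {V : Type} [Fintype V] {G : SimpleGraph V} (hG : 0 < eS G univ univ) : 0 < pD G := by
  have : (0 : ℝ) < Fintype.card V := by exact_mod_cast card_pos hG
  unfold pD; positivity

lemma q_le_qB {V ι : Type} [Fintype V] [Fintype ι] {G : SimpleGraph V} (τ : V → ι)
    (hG : 0 < eS G univ univ) (a b : ι) : pD G * trunc L0 (UB G τ) a b ≤ qB G τ a b := by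
  have hp := pD_pos hG
  calc pD G * trunc L0 (UB G τ) a b ≤ pD G * UB G τ a b :=
        mul_le_mul_of_nonneg_left (min_le_left _ _) hp.le
    _ = _ := by unfold UB; field_simp

lemma quad_diff {ι : Type} [Fintype ι] (Q : ι → ι → ℝ) (P X : ℝ) (hP : 0 ≤ P)
    (h0 : ∀ a b, 0 ≤ Q a b) (h1 : ∀ a b, Q a b ≤ P) (x y : ι → ℝ) (hy : ∀ a, 0 ≤ y a)
    (hxy : ∀ a, y a ≤ x a) (hX : ∑ a, x a ≤ X) :
    ∑ a, ∑ b, Q a b * x a * x b - 2 * P * X * ∑ a, (x a - y a) ≤ ∑ a, ∑ b, Q a b * y a * y b := by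
  have hd : 0 ≤ ∑ a, (x a - y a) := sum_nonneg fun a _ => sub_nonneg.mpr (hxy a)
  have h2 : ∑ a, ∑ b, Q a b * x a * x b ≤ ∑ a, ∑ b, (Q a b * y a * y b +
      (P * ((x a - y a) * x b) + P * (x a * (x b - y b)))) := by
    refine sum_le_sum fun a _ => sum_le_sum fun b _ => ?_
    have a1 := sub_nonneg.mpr (hxy a)
    have b1 := sub_nonneg.mpr (hxy b)
    have a2 := (hy a).trans (hxy a)
    have b2 := (hy b).trans (hxy b)
    have e1 := mul_le_mul_of_nonneg_right (h1 a b) (mul_nonneg a1 b2)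
    have e2 := mul_le_mul_of_nonneg_right (h1 a b) (mul_nonneg a2 b1)
    have e3 := mul_nonneg (h0 a b) (mul_nonneg a1 b1)
    linarith
  simp only [sum_add_distrib, ← mul_sum, ← sum_mul] at h2
  have h3 := mul_le_mul_of_nonneg_left (mul_le_mul_of_nonneg_right hX hd) hP
  linarith

lemma card_win {n : ℕ} (M : ℕ) (hM : 0 < M) (v : Fin n) :
    ∑ x : Fin n, (if (v : ℕ) / M = (x : ℕ) / M then (1 : ℝ) else 0) ≤ M := by
  rw [sum_boole]
  have : (univ.filter fun x : Fin n => (v : ℕ) / M = (x : ℕ) / M).card ≤ (range M).card := by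
    refine card_le_card_of_injOn (fun x => (x : ℕ) % M) (fun x _ => ?_) fun x hx y hy h => ?_
    · simpa using Nat.mod_lt _ hM
    · have h1 := (mem_filter.mp (mem_coe.mp hx)).2
      have h2 := (mem_filter.mp (mem_coe.mp hy)).2
      apply Fin.ext
      rw [← Nat.div_add_mod (x : ℕ) M, ← Nat.div_add_mod (y : ℕ) M, ← h1, ← h2]
      simp only at h
      rw [h]
  rw [card_range] at this
  exact_mod_cast this

lemma top_sum {n : ℕ} (M : ℕ) (hM : 0 < M) (F : Fin n → Fin n → Fin n → ℝ) (C : ℝ) (hC : 0 ≤ C)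
    (h0 : ∀ v x y, 0 ≤ F v x y) (h1 : ∀ v x y, F v x y ≤ C) (hc : ∀ v x y, F v x y = F x y v) :
    ∑ v, ∑ x, ∑ y, F v x y ≤
      3 * ∑ v : Fin n, ∑ x : Fin n, ∑ y : Fin n, (if (x : ℕ) / M < (v : ℕ) / M ∧ (y : ℕ) / M < (v : ℕ) / M
        then F v x y else 0) + 3 * (C * (n : ℝ) ^ 2 * M) := by
  set T : Fin n → Fin n → Fin n → ℝ := fun v x y =>
    if (x : ℕ) / M < (v : ℕ) / M ∧ (y : ℕ) / M < (v : ℕ) / M then F v x y else 0 with hT
  set E : Fin n → Fin n → Fin n → ℝ := fun v x _ =>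
    C * if (v : ℕ) / M = (x : ℕ) / M then (1 : ℝ) else 0 with hE
  have rot : ∀ H : Fin n → Fin n → Fin n → ℝ,
      ∑ v, ∑ x, ∑ y, H x y v = ∑ v, ∑ x, ∑ y, H v x y := fun H => by
    rw [sum_comm]
    exact sum_congr rfl fun x _ => sum_comm
  have T0 : ∀ v x y, 0 ≤ T v x y := fun v x y => by
    simp only [hT]; split_ifs
    exacts [h0 _ _ _, le_rfl]
  have E0 : ∀ v x y, 0 ≤ E v x y := fun v x y => by
    simp only [hE]; split_ifs <;> positivity
  have key : ∀ v x y, F v x y ≤ (T v x y + E v x y) + (T x y v + E x y v) + (T y v x + E y v x) := by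
    intro v x y
    have t1 := T0 v x y
    have t2 := T0 x y v
    have t3 := T0 y v x
    have e1 := E0 v x y
    have e2 := E0 x y v
    have e3 := E0 y v x
    have f1 := h1 v x y
    by_cases c1 : (v : ℕ) / M = (x : ℕ) / M
    · have : E v x y = C := by simp only [hE]; rw [if_pos c1, mul_one]
      linarith
    by_cases c2 : (x : ℕ) / M = (y : ℕ) / M
    · have : E x y v = C := by simp only [hE]; rw [if_pos c2, mul_one]
      linarith
    by_cases c3 : (y : ℕ) / M = (v : ℕ) / M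
    · have : E y v x = C := by simp only [hE]; rw [if_pos c3, mul_one]
      linarith
    by_cases d1 : (x : ℕ) / M < (v : ℕ) / M ∧ (y : ℕ) / M < (v : ℕ) / M
    · have : T v x y = F v x y := by simp only [hT]; rw [if_pos d1]
      linarith
    by_cases d2 : (y : ℕ) / M < (x : ℕ) / M ∧ (v : ℕ) / M < (x : ℕ) / M
    · have : T x y v = F v x y := by simp only [hT]; rw [if_pos d2, hc v x y]
      linarith
    have d3 : (v : ℕ) / M < (y : ℕ) / M ∧ (x : ℕ) / M < (y : ℕ) / M := by omega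
    have : T y v x = F v x y := by simp only [hT]; rw [if_pos d3, hc y v x]
    linarith
  have h2 : ∑ v, ∑ x, ∑ y, F v x y ≤ ∑ v, ∑ x, ∑ y,
      ((T v x y + E v x y) + (T x y v + E x y v) + (T y v x + E y v x)) :=
    sum_le_sum fun v _ => sum_le_sum fun x _ => sum_le_sum fun y _ => key v x y
  simp only [sum_add_distrib] at h2
  have r1 := rot T
  have r2 := rot E
  have r3 := rot fun v x y => T x y v
  have r4 := rot fun v x y => E x y v
  have h3 : ∑ v, ∑ x, ∑ y, E v x y ≤ C * (n : ℝ) ^ 2 * M := by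
    have : ∀ v, ∑ x, ∑ y, E v x y ≤ C * n * M := fun v => by
      simp only [hE, sum_const, card_univ, Fintype.card_fin, nsmul_eq_mul, ← mul_sum]
      have := mul_le_mul_of_nonneg_left (card_win M hM v) (show 0 ≤ C * n by positivity)
      linarith
    refine (sum_le_sum fun v _ => this v).trans (le_of_eq ?_)
    simp only [sum_const, card_univ, Fintype.card_fin, nsmul_eq_mul]
    ring
  linarith

lemma fib_below {n : ℕ} {ι : Type} [Fintype ι] (τ : Fin n → ι) (M : ℕ) (win : ι → ℕ)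
    (hwin : ∀ v : Fin n, win (τ v) = (v : ℕ) / M) {v : Fin n} {l : ι} (h : win l < win (τ v))
    {u : Fin n} (hu : τ u = l) : u < v := by
  rw [← hu, hwin, hwin] at h
  exact Fin.lt_def.mpr (Nat.lt_of_div_lt_div h)

lemma prof_eq {n : ℕ} {ι : Type} [Fintype ι] (G : SimpleGraph (Fin n)) (τ : Fin n → ι) (M : ℕ)
    (win : ι → ℕ) (hwin : ∀ v : Fin n, win (τ v) = (v : ℕ) / M) {v : Fin n} {l : ι}
    (h : win l < win (τ v)) : (prof G τ v l : ℝ) = ∑ u ∈ fib τ univ l, adjR G v u := by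
  unfold adjR
  rw [sum_boole, prof]
  congr 2
  ext u
  simp only [fib, back, below, mem_filter, mem_univ, true_and]
  exact ⟨fun h1 => ⟨h1.2, h1.1.2⟩, fun h1 => ⟨⟨fib_below τ M win hwin h h1.1, h1.2⟩, h1.1⟩⟩

lemma tri_eq {n : ℕ} {ι : Type} [Fintype ι] (τ : Fin n → ι) (hn : 0 < n) (p : ℝ)
    (U : ι → ι → ℝ) :
    p ^ 3 * (n : ℝ) ^ 3 * tri (wB τ) U =
      ∑ v, ∑ x, ∑ y, p * U (τ v) (τ x) * (p * U (τ x) (τ y)) * (p * U (τ y) (τ v)) := by
  have hn' : (n : ℝ) ≠ 0 := by positivity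
  rw [sum_type τ fun a => ∑ x, ∑ y, p * U a (τ x) * (p * U (τ x) (τ y)) * (p * U (τ y) a), tri,
    mul_sum]
  refine sum_congr rfl fun a _ => ?_
  rw [sum_type τ fun b => ∑ y, p * U a b * (p * U b (τ y)) * (p * U (τ y) a), mul_sum, mul_sum]
  refine sum_congr rfl fun b _ => ?_
  rw [sum_type τ fun c => p * U a b * (p * U b c) * (p * U c a), mul_sum, mul_sum, mul_sum]
  refine sum_congr rfl fun c _ => ?_
  simp only [wB, Fintype.card_fin]
  field_simp

end EnergyAux

open EnergyAux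

variable {n : ℕ} {ι : Type} [Fintype ι]

theorem energy_lower (G : SimpleGraph (Fin n)) (τ : Fin n → ι) (M : ℕ) (hM : 0 < M)
    (win : ι → ℕ) (hwin : ∀ v : Fin n, win (τ v) = (v : ℕ) / M) (Γ : ℝ) (hreg : SumReg G τ Γ)
    (hG : 0 < eS G univ univ) :
    ∃ k0 : Fin n → ι → ℕ, (∀ v l, k0 v l ≤ prof G τ v l) ∧
      (∀ v l, (k0 v l : ℝ) ≤ pD G * L0 * ((fib τ (below v) l).card : ℝ)) ∧
      pD G ^ 3 * (n : ℝ) ^ 3 / 6 * tri (wB τ) (trunc L0 (UB G τ))
          - (pD G * L0) ^ 3 * (n : ℝ) ^ 2 * (M : ℝ) / 2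
          - (pD G * L0) ^ 2 * (n : ℝ) * (Γ + (n : ℝ) * (Fintype.card ι : ℝ))
        ≤ ∑ v, energy (fun a b => pD G * trunc L0 (UB G τ) a b) (k0 v) := by
  have hp := pD_pos hG
  have hn : 0 < n := by simpa using card_pos hG
  have hL : (0 : ℝ) ≤ L0 := by norm_num [L0]
  have htri := tri_eq τ hn (pD G) (trunc L0 (UB G τ))
  set Q : ι → ι → ℝ := fun a b => pD G * trunc L0 (UB G τ) a b with hQ
  set P := pD G * L0 with hP
  have hP0 : 0 ≤ P := by positivity
  have Q0 : ∀ a b, 0 ≤ Q a b := fun a b =>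
    mul_nonneg hp.le (le_min (div_nonneg (qB_nonneg G τ a b) hp.le) hL)
  have Q1 : ∀ a b, Q a b ≤ P := fun a b => mul_le_mul_of_nonneg_left (min_le_right _ _) hp.le
  have Qs : ∀ a b, Q a b = Q b a := fun a b => by simp only [hQ, trunc, UB, qB_comm G τ a b]
  have Qw : ∀ a b, Q a b ≤ qB G τ a b := q_le_qB τ hG
  set N : ι → ℝ := fun l => ((fib τ univ l).card : ℝ) with hN
  have N0 : ∀ l, 0 ≤ N l := fun l => by positivity
  have Ns : ∑ l, N l = n := by simpa using (sum_type τ fun _ => (1 : ℝ)).symm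
  set ks : Fin n → ι → ℝ := fun v l => if win l < win (τ v) then Q (τ v) l * N l else 0 with hks
  have ks0 : ∀ v l, 0 ≤ ks v l := fun v l => by
    simp only [hks]; split_ifs
    exacts [mul_nonneg (Q0 _ _) (N0 _), le_rfl]
  have ks1 : ∀ v l, ks v l ≤ P * N l := fun v l => by
    simp only [hks]; split_ifs
    exacts [mul_le_mul_of_nonneg_right (Q1 _ _) (N0 _), mul_nonneg hP0 (N0 _)]
  set k0 : Fin n → ι → ℕ := fun v l => min (prof G τ v l) ⌊ks v l⌋₊ with hk0
  have k1 : ∀ v l, (k0 v l : ℝ) ≤ ks v l := fun v l =>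
    (Nat.cast_le.mpr (min_le_right _ _)).trans (Nat.floor_le (ks0 v l))
  refine ⟨k0, fun v l => min_le_left _ _, fun v l => (k1 v l).trans ?_, ?_⟩
  · by_cases h : win l < win (τ v)
    · have : fib τ (below v) l = fib τ univ l := by
        ext u
        simp only [fib, below, mem_filter, mem_univ, true_and]
        exact ⟨fun h1 => h1.2, fun h1 => ⟨fib_below τ M win hwin h h1, h1⟩⟩
      rw [this]; exact ks1 v l
    · simp only [hks]; rw [if_neg h]; positivity
  have sA : ∀ v, (∑ a, ∑ b, Q a b * ks v a * ks v b) / 2 - P ^ 2 * n * ∑ a, (ks v a - k0 v a) ≤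
      energy Q (k0 v) := fun v => by
    have h1 : ∑ a, ks v a ≤ P * n := by
      rw [← Ns, mul_sum]; exact sum_le_sum fun a _ => ks1 v a
    have := quad_diff Q P (P * n) hP0 Q0 Q1 (ks v) (fun a => (k0 v a : ℝ)) (fun a => by positivity)
      (k1 v) h1
    unfold energy
    linarith
  have sB : ∑ v, ∑ a, (ks v a - k0 v a) ≤ Γ + n * Fintype.card ι := by
    have h1 := hreg (fun a b => univ.filter fun v => win b < win a ∧ (prof G τ v b : ℝ) < ks v b)
      (fun _ _ => univ)
    have h2 : ∀ v, ∑ a, (ks v a - k0 v a) ≤ ∑ u, (if v ∈ (univ.filter fun w =>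
        win (τ u) < win (τ v) ∧ (prof G τ w (τ u) : ℝ) < ks w (τ u)) ∧ u ∈ univ then
        qB G τ (τ v) (τ u) - adjR G v u else 0) + Fintype.card ι := fun v => by
      rw [sum_fib τ fun u b => if v ∈ (univ.filter fun w =>
        win b < win (τ v) ∧ (prof G τ w b : ℝ) < ks w b) ∧ u ∈ univ then
        qB G τ (τ v) b - adjR G v u else 0]
      have : (Fintype.card ι : ℝ) = ∑ _a : ι, (1 : ℝ) := by simp
      rw [this, ← sum_add_distrib]
      refine sum_le_sum fun b _ => ?_
      have f1 := Nat.lt_floor_add_one (ks v b)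
      simp only [mem_filter, mem_univ, true_and, and_true]
      by_cases h : win b < win (τ v) ∧ (prof G τ v b : ℝ) < ks v b
      · simp only [if_pos h, sum_sub_distrib, sum_const, nsmul_eq_mul]
        rw [← prof_eq G τ M win hwin h.1]
        have f2 : ks v b ≤ N b * qB G τ (τ v) b := by
          simp only [hks]; rw [if_pos h.1, mul_comm]
          exact mul_le_mul_of_nonneg_left (Qw _ _) (N0 b)
        have f3 := h.2
        simp only [hk0, hN] at f2 ⊢
        rcases min_choice (prof G τ v b) ⌊ks v b⌋₊ with e | e <;> rw [e] <;> linarith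
      · simp only [if_neg h, sum_const_zero]
        have f2 : ks v b ≤ prof G τ v b := by
          by_cases h' : win b < win (τ v)
          · exact not_lt.mp fun h2 => h ⟨h', h2⟩
          · simp only [hks]; rw [if_neg h']; positivity
        simp only [hk0]
        rcases min_choice (prof G τ v b) ⌊ks v b⌋₊ with e | e <;> rw [e] <;> linarith
    have h3 := sum_le_sum fun v (_ : v ∈ univ) => h2 v
    rw [sum_add_distrib, sum_const, card_univ, Fintype.card_fin, nsmul_eq_mul] at h3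
    refine h3.trans (add_le_add (le_trans (le_of_eq ?_) h1) le_rfl)
    refine sum_congr rfl fun v _ => sum_congr rfl fun u _ => ?_
    split_ifs <;> rfl
  have sC : ∀ v, ∑ a, ∑ b, Q a b * ks v a * ks v b =
      ∑ x : Fin n, ∑ y : Fin n, (if (x : ℕ) / M < (v : ℕ) / M ∧ (y : ℕ) / M < (v : ℕ) / M
        then Q (τ v) (τ x) * Q (τ x) (τ y) * Q (τ y) (τ v) else 0) := fun v => by
    simp only [← hwin]
    rw [sum_type τ fun a => ∑ y, if win a < win (τ v) ∧ win (τ y) < win (τ v)
      then Q (τ v) a * Q a (τ y) * Q (τ y) (τ v) else 0]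
    refine sum_congr rfl fun a _ => ?_
    rw [sum_type τ fun b => if win a < win (τ v) ∧ win b < win (τ v)
      then Q (τ v) a * Q a b * Q b (τ v) else 0, mul_sum]
    refine sum_congr rfl fun b _ => ?_
    simp only [hks]
    by_cases h1 : win a < win (τ v) <;> by_cases h2 : win b < win (τ v) <;>
      simp only [h1, h2, if_true, if_false, and_self, and_false, false_and, mul_zero, zero_mul]
    rw [Qs b (τ v)]; ring
  have sD := top_sum M hM (fun v x y => Q (τ v) (τ x) * Q (τ x) (τ y) * Q (τ y) (τ v)) (P ^ 3)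
    (by positivity) (fun v x y => mul_nonneg (mul_nonneg (Q0 _ _) (Q0 _ _)) (Q0 _ _))
    (fun v x y => by
      have := mul_le_mul (mul_le_mul (Q1 (τ v) (τ x)) (Q1 (τ x) (τ y)) (Q0 _ _) hP0)
        (Q1 (τ y) (τ v)) (Q0 _ _) (mul_nonneg hP0 hP0)
      linarith) (fun v x y => by ring)
  have sE := sum_le_sum fun v (_ : v ∈ univ) => sA v
  rw [sum_sub_distrib, ← sum_div, ← mul_sum] at sE
  simp only [sC] at sE
  have sF := mul_le_mul_of_nonneg_left sB (show 0 ≤ P ^ 2 * n by positivity)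
  simp only [hQ] at sD sE
  linarith

theorem cutReg_of_sumReg (G : SimpleGraph (Fin n)) (τ : Fin n → ι) (Γ : ℝ) (hreg : SumReg G τ Γ)
    (hG : 0 < eS G univ univ) : CutReg G τ (fun a b => pD G * trunc L0 (UB G τ) a b) Γ := by
  intro B T
  refine le_trans ?_ (hreg (fun _ _ => B) fun _ _ => T)
  simp only [ite_and, sum_ite_irrel, sum_const_zero, sum_ite_mem, univ_inter]
  exact sum_le_sum fun v _ => sum_le_sum fun u _ => sub_le_sub_right (q_le_qB τ hG _ _) _

end
end Pool.Agent.MP_b5eafd_co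

end

-- part MP_b5eafd_co.Upper
section

/-
HINTS (uses only the STATEMENTS of KW, Reg, Seq, Energy; work against the sorried versions).
p = 2 m/n^2 = pD G for G in TF (eS_univ_eq), beta_n = n p^2 = 4 (m/n^{3/2})^2 -> 4c^2, m/(n log n) -> infinity, p -> 0, p n -> infinity.
Constants (depend on c, zeta, f only): R with beta_n L0^2 <= R eventually; small eta, eps, eps3, J (number of windows) ; M = n/J + 1;
gamma with R exp(5R) gamma / eta^2 <= eps^2 eps3 and 2 R gamma small;  k1 = 2 (J+1) or so; k2 from exists_reg gamma f k1.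
For G in Bad: S0 from the hypothesis, tau1 v encodes (v/M, v in S0) in Fin k1 (finProdFinEquiv), tau from exists_reg, win = fst o decode o rho, Sg = {a | side (rho a)}.
Define for G the data (tau, kappa = prof G tau, k0) with values kappa, k0 <= n (k0 from energy_lower; in the high entropy case k0 = 0) and show:
for every fixed data the class C has |C| <= exp(refE - f m + zeta m / 2) (class_count), and the number of data is <= k2^n (n+1)^{2 n k2} <= exp(zeta m/2).
Inside a class qB, pD, UB are determined by (tau,kappa) (eS_fib_eq_prof with L = univ), so fix G0 in C, q = p trunc L0 (UB G0 tau) and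
b v = binProd tau (below v) (kappa v) * exp(-energy q (k0 v) + err).  A clean way: attach to every G the property
P(G,tau,k0): forall v, indCount G tau (below v) (prof G tau v) <= b(G,tau,k0) v  and  prod_v b(G,tau,k0) v <= target, where b only depends on (tau, prof, k0).
Regular case: kw with Q = p L0, K0 = Q n, D = Q exp(2 Q K0)/eta, K1 = eps3 p n, Gamma = gamma eS, L = below v, (cutReg_of_sumReg);
err = (eta + 2 eps + (k2+1) Q) K0 + Q K1^2/2; n err = (eta+2eps+o(1)) 2 L0 m + L0 eps3^2 beta_n m.  prod_binProd_le gives exp(refE - m ent);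
energy_lower gives sum energy >= m beta_n/3 tri - L0^3 beta_n (M/n) m - L0^2 beta_n (2 gamma m + n k2); 0 <= tri (trunc) <= L0^3.
High entropy case f <= ent: b v = binProd (k0 = 0, drop err >= 0 or keep it), indCount_le_binProd.
-/

set_option autoImplicit false
open Finset Filter Topology

namespace Pool.Agent.MP_b5eafd_co
noncomputable section
open Classical

namespace UpperAux

lemma L0_pos : (0 : ℝ) < L0 := by unfold L0; norm_num

lemma tri_bounds {ι : Type} [Fintype ι] (w : ι → ℝ) (U : ι → ι → ℝ) (h : IsKer w U) :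
    0 ≤ tri w (trunc L0 U) ∧ tri w (trunc L0 U) ≤ L0 ^ 3 := by
  have h0 : ∀ a b, 0 ≤ trunc L0 U a b := fun a b => le_min (h.nonneg a b) L0_pos.le
  have h1 : ∀ a b, trunc L0 U a b ≤ L0 := fun a b => min_le_right _ _
  constructor
  · unfold tri
    refine sum_nonneg fun a _ => sum_nonneg fun b _ => sum_nonneg fun c _ => ?_
    exact mul_nonneg (mul_nonneg (mul_nonneg (h.w_nonneg a) (h.w_nonneg b)) (h.w_nonneg c))
      (mul_nonneg (mul_nonneg (h0 a b) (h0 b c)) (h0 c a))
  · have e : L0 ^ 3 = ∑ a, ∑ b, ∑ c, w a * w b * w c * L0 ^ 3 := by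
      have e1 : ∀ a b, ∑ c, w a * w b * w c * L0 ^ 3 = w a * w b * L0 ^ 3 := by
        intro a b
        rw [← sum_mul, ← mul_sum, h.w_sum, mul_one]
      have e2 : ∀ a, ∑ b, w a * w b * L0 ^ 3 = w a * L0 ^ 3 := by
        intro a
        rw [← sum_mul, ← mul_sum, h.w_sum, mul_one]
      simp only [e1, e2]
      rw [← sum_mul, h.w_sum, one_mul]
    rw [e]
    unfold tri
    refine sum_le_sum fun a _ => sum_le_sum fun b _ => sum_le_sum fun c _ => ?_
    refine mul_le_mul_of_nonneg_left ?_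
      (mul_nonneg (mul_nonneg (h.w_nonneg a) (h.w_nonneg b)) (h.w_nonneg c))
    have hL := L0_pos
    calc trunc L0 U a b * trunc L0 U b c * trunc L0 U c a ≤ L0 * L0 * L0 := by
          refine mul_le_mul (mul_le_mul (h1 a b) (h1 b c) (h0 b c) hL.le) (h1 c a) (h0 c a) ?_
          positivity
      _ = L0 ^ 3 := by ring

lemma UB_eq {n : ℕ} {ι : Type} [Fintype ι] (G G' : SimpleGraph (Fin n)) (τ : Fin n → ι)
    (h : ∀ v l, prof G τ v l = prof G' τ v l) : pD G = pD G' ∧ UB G τ = UB G' τ := by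
  have h1 : pD G = pD G' := by
    unfold pD
    rw [eS_univ_eq_prof G τ, eS_univ_eq_prof G' τ]
    simp only [h]
  refine ⟨h1, ?_⟩
  funext a b
  unfold UB qB qL
  rw [h1, eS_fib_eq_prof G τ univ (fun _ _ v _ => mem_univ v),
    eS_fib_eq_prof G' τ univ (fun _ _ v _ => mem_univ v)]
  simp only [h]

lemma sum_fib_card {V : Type} [Fintype V] {ι : Type} [Fintype ι] (τ : V → ι) (L : Finset V) :
    ∑ l, ((fib τ L l).card : ℝ) = (L.card : ℝ) := by
  have := Finset.card_eq_sum_card_fiberwise (f := τ) (s := L) (t := univ)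
    (fun x _ => mem_univ (τ x))
  rw [this]
  push_cast
  refine sum_congr rfl fun l _ => ?_
  unfold fib
  congr

lemma binProd_nonneg {V : Type} [Fintype V] {ι : Type} [Fintype ι] (τ : V → ι) (L : Finset V)
    (k : ι → ℕ) : 0 ≤ binProd τ L k := by
  unfold binProd
  exact prod_nonneg fun l _ => by positivity

/-- the property of the chosen partition. -/
def Good (c f γ : ℝ) (M : ℕ) {n k : ℕ} (G : SimpleGraph (Fin n)) (τ : Fin n → Fin k) : Prop :=
  (∃ win : Fin k → ℕ, ∀ v : Fin n, win (τ v) = (v : ℕ) / M) ∧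
  f ≤ ent (wB τ) (UB G τ) + 4 * c ^ 2 / 3 * tri (wB τ) (trunc L0 (UB G τ)) ∧
  (SumReg G τ (γ * eS G univ univ) ∨ f ≤ ent (wB τ) (UB G τ))

/-- the total error constant. -/
def Cst (c : ℝ) : ℝ :=
  L0 ^ 3 + 2 * L0 ^ 3 * (4 * c ^ 2 + 1) + 3 * L0 ^ 2 * (4 * c ^ 2 + 1) + 8 * L0 + L0 * (4 * c ^ 2 + 1)

lemma Cst_pos (c : ℝ) : 0 < Cst c := by
  have := L0_pos
  unfold Cst
  positivity

lemma arith (c f t γ p N mm M k E T S : ℝ) (hN : 0 < N) (hp : 0 < p) (hmm : mm = p * N ^ 2 / 2)
    (ht : 0 < t) (ht1 : t ≤ 1) (hβ : |N * p ^ 2 - 4 * c ^ 2| ≤ t) (hM : M ≤ 2 * t * N)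
    (hγ0 : 0 ≤ γ) (hγ : γ ≤ t) (hk0 : 0 ≤ k) (hQ : (k + 1) * (p * L0) ≤ t) (hk : N * k ≤ t * mm)
    (hT0 : 0 ≤ T) (hT : T ≤ L0 ^ 3) (hf : f ≤ E + 4 * c ^ 2 / 3 * T)
    (hS : p ^ 3 * N ^ 3 / 6 * T - (p * L0) ^ 3 * N ^ 2 * M / 2
      - (p * L0) ^ 2 * N * (γ * (2 * mm) + N * k) ≤ S) :
    - mm * E + (- S + N * ((t + 2 * t + (k + 1) * (p * L0)) * (p * L0 * N)
      + p * L0 * (t * p * N) ^ 2 / 2)) ≤ - f * mm + t * Cst c * mm := by
  have hL := L0_pos
  obtain ⟨hβ1, hβ2⟩ := abs_le.mp hβ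
  set β := N * p ^ 2 with hβd
  set B := 4 * c ^ 2 + 1 with hB
  have hβB : β ≤ B := by linarith
  have hβ0 : 0 ≤ β := by positivity
  have hm0 : 0 < mm := by rw [hmm]; positivity
  have hB0 : 0 < B := by positivity
  have e1 : p ^ 3 * N ^ 3 / 6 * T = mm * (β / 3 * T) := by rw [hmm, hβd]; ring
  have e2 : (p * L0) ^ 3 * N ^ 2 * M / 2 = mm * (L0 ^ 3 * (p ^ 2 * M)) := by rw [hmm]; ring
  have e3 : (p * L0) ^ 2 * N * (γ * (2 * mm) + N * k) = L0 ^ 2 * β * (γ * (2 * mm) + N * k) := by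
    rw [hβd]; ring
  have e4 : N * ((t + 2 * t + (k + 1) * (p * L0)) * (p * L0 * N) + p * L0 * (t * p * N) ^ 2 / 2)
      = mm * ((t + 2 * t + (k + 1) * (p * L0)) * (2 * L0) + L0 * t ^ 2 * β) := by
    rw [hmm, hβd]; ring
  have b1 : (4 * c ^ 2 - β) / 3 * T ≤ t * L0 ^ 3 := by
    have : (4 * c ^ 2 - β) / 3 * T ≤ t * T := mul_le_mul_of_nonneg_right (by linarith) hT0
    have h2 : t * T ≤ t * L0 ^ 3 := mul_le_mul_of_nonneg_left hT ht.le
    linarith
  have b2 : L0 ^ 3 * (p ^ 2 * M) ≤ t * (2 * L0 ^ 3 * B) := by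
    have h1 : p ^ 2 * M ≤ p ^ 2 * (2 * t * N) := mul_le_mul_of_nonneg_left hM (by positivity)
    have h2 : p ^ 2 * (2 * t * N) = 2 * t * β := by rw [hβd]; ring
    have h3 : 2 * t * β ≤ 2 * t * B := mul_le_mul_of_nonneg_left hβB (by positivity)
    have h4 : L0 ^ 3 * (p ^ 2 * M) ≤ L0 ^ 3 * (2 * t * B) :=
      mul_le_mul_of_nonneg_left (by linarith) (by positivity)
    linarith
  have b3 : L0 ^ 2 * β * (γ * (2 * mm) + N * k) ≤ mm * (t * (3 * L0 ^ 2 * B)) := by
    have h1 : γ * (2 * mm) ≤ t * (2 * mm) := mul_le_mul_of_nonneg_right hγ (by positivity)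
    have h2 : γ * (2 * mm) + N * k ≤ 3 * t * mm := by linarith
    have h3 : L0 ^ 2 * β ≤ L0 ^ 2 * B := mul_le_mul_of_nonneg_left hβB (by positivity)
    have h4 : L0 ^ 2 * β * (γ * (2 * mm) + N * k) ≤ L0 ^ 2 * B * (3 * t * mm) :=
      mul_le_mul h3 h2 (by positivity) (by positivity)
    linarith
  have b4 : (t + 2 * t + (k + 1) * (p * L0)) * (2 * L0) + L0 * t ^ 2 * β ≤ t * (8 * L0 + L0 * B) := by
    have h1 : (t + 2 * t + (k + 1) * (p * L0)) * (2 * L0) ≤ (4 * t) * (2 * L0) :=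
      mul_le_mul_of_nonneg_right (by linarith) (by positivity)
    have h2 : t ^ 2 ≤ t := by nlinarith
    have h3 : t ^ 2 * β ≤ t * B := mul_le_mul h2 hβB hβ0 ht.le
    have h4 : L0 * (t ^ 2 * β) ≤ L0 * (t * B) := mul_le_mul_of_nonneg_left h3 hL.le
    linarith
  rw [e1, e2, e3] at hS
  rw [e4]
  have c1 : mm * f ≤ mm * (E + 4 * c ^ 2 / 3 * T) := mul_le_mul_of_nonneg_left hf hm0.le
  have c2 := mul_le_mul_of_nonneg_left b1 hm0.le
  have c3 := mul_le_mul_of_nonneg_left b2 hm0.le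
  have c4 := mul_le_mul_of_nonneg_left b4 hm0.le
  have e5 : t * Cst c * mm = mm * (t * L0 ^ 3) + mm * (t * (2 * L0 ^ 3 * B))
      + mm * (t * (3 * L0 ^ 2 * B)) + mm * (t * (8 * L0 + L0 * B)) := by
    unfold Cst; rw [← hB]; ring
  rw [e5]
  nlinarith

lemma class_bound {n k : ℕ} (c f t γ : ℝ) (mm M : ℕ) (hn : 0 < n) (hmm : 0 < mm)
    (ht : 0 < t) (ht1 : t ≤ 1)
    (hβ : |(n : ℝ) * (2 * (mm : ℝ) / (n : ℝ) ^ 2) ^ 2 - 4 * c ^ 2| ≤ t)
    (hM0 : 0 < M) (hM : (M : ℝ) ≤ 2 * t * n) (hγ0 : 0 ≤ γ) (hγ : γ ≤ t)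
    (hγ2 : L0 ^ 2 * (4 * c ^ 2 + 1) * Real.exp (5 * (L0 ^ 2 * (4 * c ^ 2 + 1))) * γ ≤ t ^ 5)
    (hQ : ((k : ℝ) + 1) * (2 * (mm : ℝ) / (n : ℝ) ^ 2 * L0) ≤ t)
    (hQ2 : 2 * (mm : ℝ) / (n : ℝ) ^ 2 * L0 ≤ 1 / 2)
    (hk : (n : ℝ) * k ≤ t * mm)
    (τ : Fin n → Fin k) (κ : Fin n → Fin k → ℕ) (C : Finset (SimpleGraph (Fin n)))
    (hC : ∀ G ∈ C, G ∈ TF n mm ∧ (∀ v l, prof G τ v l = κ v l) ∧ Good c f γ M G τ) :
    (C.card : ℝ) ≤ Real.exp (refE n mm - f * (mm : ℝ) + t * Cst c * (mm : ℝ)) := by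
  rcases C.eq_empty_or_nonempty with rfl | ⟨G0, hG0⟩
  · simp only [card_empty, Nat.cast_zero]
    exact (Real.exp_pos _).le
  have hL := L0_pos
  have hnR : (0 : ℝ) < n := by exact_mod_cast hn
  have hmR : (0 : ℝ) < mm := by exact_mod_cast hmm
  set p : ℝ := 2 * (mm : ℝ) / (n : ℝ) ^ 2 with hp
  have hp0 : 0 < p := by positivity
  have heS : ∀ G ∈ C, eS G univ univ = 2 * (mm : ℝ) := by
    intro G hG
    rw [eS_univ_eq, (hC G hG).1.2]
  have hpD : ∀ G ∈ C, pD G = p := by
    intro G hG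
    unfold pD
    rw [heS G hG, Fintype.card_fin]
  have hpos : ∀ G ∈ C, 0 < eS G univ univ := by
    intro G hG
    rw [heS G hG]; positivity
  have hUB : ∀ G ∈ C, UB G τ = UB G0 τ := by
    intro G hG
    refine (UB_eq G G0 τ fun v l => ?_).2
    rw [(hC G hG).2.1, (hC G0 hG0).2.1]
  have hκ : prof G0 τ = κ := by
    funext v l
    exact (hC G0 hG0).2.1 v l
  have hbin : ∏ v, binProd τ (below v) (κ v) ≤
      Real.exp (refE n mm - (mm : ℝ) * ent (wB τ) (UB G0 τ)) := by
    have := prod_binProd_le G0 τ (hpos G0 hG0)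
    rw [hκ, heS G0 hG0, hpD G0 hG0] at this
    refine this.trans (le_of_eq ?_)
    congr 1
    unfold refE
    rw [← hp]
    ring
  have hCst := Cst_pos c
  by_cases hent : f ≤ ent (wB τ) (UB G0 τ)
  · have h1 := class_count τ κ C (fun v => binProd τ (below v) (κ v))
      (fun v => binProd_nonneg _ _ _)
      (fun G hG => ⟨(hC G hG).1.1, (hC G hG).2.1, fun v => indCount_le_binProd G τ _ _⟩)
    refine h1.trans (hbin.trans (Real.exp_le_exp.mpr ?_))
    have h2 : (mm : ℝ) * f ≤ mm * ent (wB τ) (UB G0 τ) := mul_le_mul_of_nonneg_left hent hmR.le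
    have h3 : 0 ≤ t * Cst c * (mm : ℝ) := by positivity
    linarith
  have hreg : ∀ G ∈ C, SumReg G τ (γ * (2 * (mm : ℝ))) := by
    intro G hG
    rcases (hC G hG).2.2.2.2 with h | h
    · rwa [heS G hG] at h
    · rw [hUB G hG] at h
      exact absurd h hent
  obtain ⟨win, hwin⟩ := (hC G0 hG0).2.2.1
  obtain ⟨k0, hk0a, hk0b, hk0c⟩ :=
    energy_lower G0 τ M hM0 win hwin _ (hreg G0 hG0) (hpos G0 hG0)
  rw [hpD G0 hG0] at hk0b hk0c
  rw [Fintype.card_fin] at hk0c
  have hker := isKer_block G0 τ (hpos G0 hG0)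
  set q : Fin k → Fin k → ℝ := fun a b => p * trunc L0 (UB G0 τ) a b with hq
  set err : ℝ := (t + 2 * t + ((k : ℝ) + 1) * (p * L0)) * (p * L0 * n)
    + p * L0 * (t * p * n) ^ 2 / 2 with herr
  have hβB : (n : ℝ) * p ^ 2 ≤ 4 * c ^ 2 + 1 := by
    have := (abs_le.mp hβ).2
    linarith
  have h1 := class_count τ κ C
    (fun v => binProd τ (below v) (κ v) * Real.exp (-(energy q (k0 v)) + err))
    (fun v => mul_nonneg (binProd_nonneg _ _ _) (Real.exp_pos _).le)
    (fun G hG => ⟨(hC G hG).1.1, (hC G hG).2.1, fun v => by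
      have hcr := cutReg_of_sumReg G τ _ (hreg G hG) (hpos G hG)
      rw [hpD G hG, hUB G hG] at hcr
      have hkw := kw G τ q (p * L0) (γ * (2 * (mm : ℝ))) t t (p * L0 * n) (t * p * n)
        (p * L0 * Real.exp (2 * (p * L0) * (p * L0 * n)) / t)
        (fun a b => by simp only [hq, trunc, hker.symm a b])
        (fun a b => mul_nonneg hp0.le (le_min (hker.nonneg a b) hL.le))
        (fun a b => mul_le_mul_of_nonneg_left (min_le_right _ _) hp0.le)
        (by positivity) hQ2 hcr ht ht (by positivity) (by positivity)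
        (below v) (κ v) (k0 v) (fun l => by rw [← hκ]; exact hk0a v l)
        (by
          calc ∑ l, (k0 v l : ℝ) ≤ ∑ l, p * L0 * ((fib τ (below v) l).card : ℝ) :=
                sum_le_sum fun l _ => hk0b v l
            _ = p * L0 * ((below v).card : ℝ) := by rw [← mul_sum, sum_fib_card]
            _ ≤ p * L0 * n := by
                refine mul_le_mul_of_nonneg_left ?_ (by positivity)
                have := card_le_univ (below v)
                rw [Fintype.card_fin] at this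
                exact_mod_cast this)
        (fun l => by
          refine (hk0b v l).trans (le_of_eq ?_)
          rw [Real.exp_neg]
          have := Real.exp_pos (2 * (p * L0) * (p * L0 * n))
          field_simp)
        (by
          set R : ℝ := L0 ^ 2 * (4 * c ^ 2 + 1) with hR
          have hx : p * L0 * (p * L0 * n) ≤ R := by
            have : p * L0 * (p * L0 * n) = L0 ^ 2 * (n * p ^ 2) := by ring
            rw [this, hR]
            exact mul_le_mul_of_nonneg_left hβB (by positivity)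
          set x : ℝ := p * L0 * (p * L0 * n) with hxd
          have hx0 : 0 ≤ x := by positivity
          have e0 : 2 * (p * L0) * (p * L0 * n) = 2 * x := by rw [hxd]; ring
          rw [e0]
          have e1 : Real.exp (2 * x) ^ 2 * Real.exp x = Real.exp (5 * x) := by
            rw [sq, ← Real.exp_add, ← Real.exp_add]; congr 1; ring
          have e2 : (2 : ℝ) * mm = p * n ^ 2 := by rw [hp]; field_simp
          have e3 : (p * L0 * Real.exp (2 * x) / t) ^ 2 * (γ * (2 * (mm : ℝ))) * Real.exp x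
              = (x * Real.exp (5 * x) * γ) * (p * n) / t ^ 2 := by
            rw [← e1, e2, hxd]; field_simp
          rw [e3, div_le_iff₀ (by positivity)]
          have h5 : x * Real.exp (5 * x) * γ ≤ R * Real.exp (5 * R) * γ := by
            refine mul_le_mul_of_nonneg_right ?_ hγ0
            exact mul_le_mul hx (Real.exp_le_exp.mpr (by linarith)) (Real.exp_pos _).le
              (hx0.trans hx)
          have h6 : x * Real.exp (5 * x) * γ * (p * n) ≤ t ^ 5 * (p * n) :=
            mul_le_mul_of_nonneg_right (h5.trans hγ2) (by positivity)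
          calc _ ≤ t ^ 5 * (p * n) := h6
            _ = _ := by ring)
      rw [Fintype.card_fin] at hkw
      refine hkw.trans (le_of_eq ?_)
      rw [herr, add_assoc]⟩)
  refine h1.trans ?_
  rw [prod_mul_distrib, ← Real.exp_sum]
  refine (mul_le_mul_of_nonneg_right hbin (Real.exp_pos _).le).trans ?_
  rw [← Real.exp_add, Real.exp_le_exp, sum_add_distrib, sum_neg_distrib, sum_const, card_univ,
    Fintype.card_fin, nsmul_eq_mul]
  have htri := tri_bounds _ _ hker
  have := arith c f t γ p n mm M k (ent (wB τ) (UB G0 τ)) (tri (wB τ) (trunc L0 (UB G0 τ)))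
    (∑ v, energy q (k0 v)) hnR hp0 (by rw [hp]; field_simp) ht ht1 hβ hM hγ0 hγ
    (by positivity) hQ hk htri.1 htri.2 (hC G0 hG0).2.2.2.1 hk0c
  rw [herr]
  linarith

lemma exists_good (c f γ : ℝ) (hγ : 0 < γ) (J : ℕ) (hJ : 0 < J) :
    ∃ k : ℕ, ∀ (n : ℕ) (G : SimpleGraph (Fin n)), 0 < eS G univ univ →
      (∃ S0 : Finset (Fin n), ∀ (k : ℕ) (τ : Fin n → Fin k),
        (∃ Sg : Finset (Fin k), ∀ v, τ v ∈ Sg ↔ v ∈ S0) →
        f ≤ ent (wB τ) (UB G τ) + 4 * c ^ 2 / 3 * tri (wB τ) (trunc L0 (UB G τ))) →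
      ∃ τ : Fin n → Fin k, Good c f γ (n / J + 1) G τ := by
  obtain ⟨k, hk⟩ := exists_reg γ f hγ (J * 2)
  refine ⟨k, fun n G hG ⟨S0, hS0⟩ => ?_⟩
  have hlt : ∀ v : Fin n, (v : ℕ) / (n / J + 1) < J := by
    intro v
    rw [Nat.div_lt_iff_lt_mul (Nat.succ_pos _)]
    have h1 := v.2
    exact h1.trans (Nat.lt_mul_div_succ n hJ)
  obtain ⟨τ, ⟨ρ, hρ⟩, hτ⟩ := hk n G hG
    (fun v => finProdFinEquiv (⟨(v : ℕ) / (n / J + 1), hlt v⟩, if v ∈ S0 then 1 else 0))
  refine ⟨τ, ⟨fun a => ((finProdFinEquiv.symm (ρ a)).1 : ℕ), fun v => ?_⟩, ?_, hτ⟩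
  · simp only [hρ, Equiv.symm_apply_apply]
  · refine hS0 k τ ⟨univ.filter (fun a => (finProdFinEquiv.symm (ρ a)).2 = 1), fun v => ?_⟩
    simp only [mem_filter, mem_univ, true_and, hρ, Equiv.symm_apply_apply]
    by_cases h : v ∈ S0 <;> simp [h]

lemma union_bound {n k : ℕ} (Bad : Set (SimpleGraph (Fin n))) (P : SimpleGraph (Fin n) → (Fin n → Fin k) → Prop)
    (X : ℝ) (hX : 0 ≤ X) (hB : ∀ G ∈ Bad, ∃ τ, P G τ)
    (hC : ∀ (τ : Fin n → Fin k) (κ : Fin n → Fin k → ℕ) (C : Finset (SimpleGraph (Fin n))),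
      (∀ G ∈ C, G ∈ Bad ∧ (∀ v l, prof G τ v l = κ v l) ∧ P G τ) → (C.card : ℝ) ≤ X) :
    (Bad.ncard : ℝ) ≤ Real.exp ((k : ℝ) * n * (1 + Real.log ((n : ℝ) + 1))) * X := by
  have hprof : ∀ (G : SimpleGraph (Fin n)) (τ : Fin n → Fin k) v l, prof G τ v l < n + 1 := by
    intro G τ v l
    have := card_le_univ (fib τ (back G v) l)
    rw [Fintype.card_fin] at this
    unfold prof
    omega
  let cl : (Fin n → Fin k) × (Fin n → Fin k → Fin (n + 1)) → Finset (SimpleGraph (Fin n)) :=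
    fun d => univ.filter (fun G => G ∈ Bad ∧ (∀ v l, prof G d.1 v l = (d.2 v l : ℕ)) ∧ P G d.1)
  have hsub : Bad ⊆ ((univ.biUnion cl : Finset (SimpleGraph (Fin n))) : Set (SimpleGraph (Fin n))) := by
    intro G hG
    obtain ⟨τ, hτ⟩ := hB G hG
    simp only [coe_biUnion, coe_univ, Set.mem_univ, Set.iUnion_true, Set.mem_iUnion, mem_coe]
    refine ⟨(τ, fun v l => ⟨prof G τ v l, hprof G τ v l⟩), ?_⟩
    simp only [cl, mem_filter, mem_univ, true_and]
    exact ⟨hG, fun _ _ => trivial, hτ⟩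
  have h1 : Bad.ncard ≤ (univ.biUnion cl).card := by
    rw [← Set.ncard_coe_finset]
    exact Set.ncard_le_ncard hsub (Finset.finite_toSet _)
  have h2 : (univ.biUnion cl).card ≤ ∑ d, (cl d).card := card_biUnion_le
  have h3 : ∀ d, ((cl d).card : ℝ) ≤ X := by
    intro d
    refine hC d.1 (fun v l => (d.2 v l : ℕ)) (cl d) fun G hG => ?_
    simp only [cl, mem_filter, mem_univ, true_and] at hG
    exact hG
  have h4 : (Bad.ncard : ℝ) ≤ ∑ d, ((cl d).card : ℝ) := by
    exact_mod_cast h1.trans h2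
  refine h4.trans ((sum_le_sum fun d _ => h3 d).trans ?_)
  rw [sum_const, card_univ, nsmul_eq_mul]
  refine mul_le_mul_of_nonneg_right ?_ hX
  simp only [Fintype.card_prod, Fintype.card_fun, Fintype.card_fin]
  push_cast
  have e : Real.exp ((k : ℝ) * n * (1 + Real.log ((n : ℝ) + 1)))
      = Real.exp k ^ n * (((n : ℝ) + 1) ^ k) ^ n := by
    have hpos : (0 : ℝ) < (n : ℝ) + 1 := by positivity
    have e1 : (n : ℝ) + 1 = Real.exp (Real.log ((n : ℝ) + 1)) := (Real.exp_log hpos).symm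
    conv_rhs => rw [e1]
    rw [← Real.exp_nat_mul, ← Real.exp_nat_mul, ← Real.exp_nat_mul, ← Real.exp_add]
    congr 1
    ring
  rw [e]
  refine mul_le_mul_of_nonneg_right ?_ (by positivity)
  refine pow_le_pow_left₀ (by positivity) ?_ n
  have := Real.add_one_le_exp (k : ℝ)
  linarith

end UpperAux

open UpperAux in
theorem upper_count (c f ζ : ℝ) (hc : 0 < c) (hζ : 0 < ζ) (m : ℕ → ℕ)
    (hm : Tendsto (fun n : ℕ => (m n : ℝ) / (n : ℝ) ^ ((3 : ℝ) / 2)) atTop (𝓝 c)) :
    ∀ᶠ n : ℕ in atTop, ∀ Bad : Set (SimpleGraph (Fin n)),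
      (∀ G ∈ Bad, G ∈ TF n (m n) ∧ ∃ S0 : Finset (Fin n), ∀ (k : ℕ) (τ : Fin n → Fin k),
        (∃ Sg : Finset (Fin k), ∀ v, τ v ∈ Sg ↔ v ∈ S0) →
        f ≤ ent (wB τ) (UB G τ) + 4 * c ^ 2 / 3 * tri (wB τ) (trunc L0 (UB G τ))) →
      (Bad.ncard : ℝ) ≤ Real.exp (refE n (m n) - f * (m n : ℝ) + ζ * (m n : ℝ)) := by
  have hL := L0_pos
  have hCst := Cst_pos c
  obtain ⟨t, ht, ht1, htC⟩ : ∃ t : ℝ, 0 < t ∧ t ≤ 1 ∧ t * Cst c ≤ ζ / 2 := by
    refine ⟨min 1 (ζ / 2 / Cst c), lt_min one_pos (by positivity), min_le_left _ _, ?_⟩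
    rw [← le_div_iff₀ hCst]
    exact min_le_right _ _
  obtain ⟨γ, hγ0, hγ, hγ2⟩ : ∃ γ : ℝ, 0 < γ ∧ γ ≤ t ∧
      L0 ^ 2 * (4 * c ^ 2 + 1) * Real.exp (5 * (L0 ^ 2 * (4 * c ^ 2 + 1))) * γ ≤ t ^ 5 := by
    have hW : 0 < L0 ^ 2 * (4 * c ^ 2 + 1) * Real.exp (5 * (L0 ^ 2 * (4 * c ^ 2 + 1))) := by
      positivity
    refine ⟨min t (t ^ 5 / (L0 ^ 2 * (4 * c ^ 2 + 1) * Real.exp (5 * (L0 ^ 2 * (4 * c ^ 2 + 1))))),
      lt_min ht (by positivity), min_le_left _ _, ?_⟩
    rw [mul_comm, ← le_div_iff₀ hW]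
    exact min_le_right _ _
  obtain ⟨J, hJ⟩ := exists_nat_ge (1 / t)
  have hJR : (0 : ℝ) < J := lt_of_lt_of_le (by positivity) hJ
  have hJ0 : 0 < J := by exact_mod_cast hJR
  obtain ⟨k, hk⟩ := exists_good c f γ hγ0 J hJ0
  have hs : Tendsto (fun n : ℕ => Real.sqrt n) atTop atTop :=
    Real.tendsto_sqrt_atTop.comp tendsto_natCast_atTop_atTop
  have hA : Tendsto (fun n : ℕ => 4 * ((m n : ℝ) / (n : ℝ) ^ ((3 : ℝ) / 2)) ^ 2 - 4 * c ^ 2)
      atTop (𝓝 0) := by
    have := ((hm.pow 2).const_mul 4).sub_const (4 * c ^ 2)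
    simpa using this
  have E1 := (Metric.tendsto_nhds.mp hA) t ht
  have E2 := hm.eventually (lt_mem_nhds (show c / 2 < c by linarith))
  have E3 := hm.eventually (gt_mem_nhds (show c < 2 * c by linarith))
  have E4 := hs.eventually_ge_atTop (4 * c * ((k : ℝ) + 1) * L0 / t)
  have E5 := hs.eventually_ge_atTop (8 * c * L0)
  have E6 := hs.eventually_ge_atTop (2 * (k : ℝ) / (t * c))
  have E7 := hs.eventually_ge_atTop (16 * (k : ℝ) / (ζ * c))
  have E8 := hs.eventually
    (Real.isLittleO_log_id_atTop.bound (show 0 < ζ * c / (16 * ((k : ℝ) + 1)) by positivity))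
  have E9 := (tendsto_natCast_atTop_atTop (R := ℝ)).eventually_ge_atTop (1 / t)
  filter_upwards [E1, E2, E3, E4, E5, E6, E7, E8, E9, eventually_gt_atTop 0] with
    n e1 e2 e3 e4 e5 e6 e7 e8 e9 hn Bad hBad
  have hnR : (0 : ℝ) < n := by exact_mod_cast hn
  have hn1 : (1 : ℝ) ≤ n := by exact_mod_cast hn
  set s : ℝ := Real.sqrt n with hsd
  have hs0 : 0 < s := Real.sqrt_pos.mpr hnR
  have hss : s * s = n := Real.mul_self_sqrt hnR.le
  have hpow : (n : ℝ) ^ ((3 : ℝ) / 2) = n * s := by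
    rw [hsd, Real.sqrt_eq_rpow, show (3 : ℝ) / 2 = 1 + 1 / 2 by norm_num, Real.rpow_add hnR,
      Real.rpow_one]
  rw [hpow] at e1 e2 e3
  set a : ℝ := (m n : ℝ) / (n * s) with ha
  have hma : (m n : ℝ) = a * (n * s) := by rw [ha]; field_simp
  have ha0 : 0 < a := by linarith
  have hmR : (0 : ℝ) < m n := by rw [hma]; positivity
  have hm0 : 0 < m n := by exact_mod_cast hmR
  have hp : 2 * (m n : ℝ) / (n : ℝ) ^ 2 = 2 * a / s := by
    rw [hma, ← hss]; field_simp
  have hp4 : 2 * a / s ≤ 4 * c / s := div_le_div_of_nonneg_right (by linarith) hs0.le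
  have hmlow : c / 2 * (n * s) ≤ m n := by
    rw [hma]; exact mul_le_mul_of_nonneg_right e2.le (by positivity)
  have hb := union_bound Bad (fun G (τ : Fin n → Fin k) => Good c f γ (n / J + 1) G τ)
    (Real.exp (refE n (m n) - f * (m n : ℝ) + t * Cst c * (m n : ℝ))) (Real.exp_pos _).le
    (fun G hG => hk n G (by rw [eS_univ_eq, (hBad G hG).1.2]; positivity) (hBad G hG).2)
    (fun τ κ C hC => class_bound c f t γ (m n) (n / J + 1) hn hm0 ht ht1
      (by
        rw [hp]
        have : (n : ℝ) * (2 * a / s) ^ 2 = 4 * a ^ 2 := by rw [← hss]; field_simp; norm_num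
        rw [this]
        rw [Real.dist_eq, sub_zero] at e1
        exact e1.le)
      (Nat.succ_pos _)
      (by
        push_cast
        have h1 : ((n / J : ℕ) : ℝ) ≤ (n : ℝ) / J := Nat.cast_div_le
        have h2 : (n : ℝ) / J ≤ t * n := by
          rw [div_le_iff₀ hJR]
          rw [div_le_iff₀ ht] at hJ
          nlinarith
        rw [div_le_iff₀ ht] at e9
        linarith)
      hγ0.le hγ hγ2
      (by
        rw [hp]
        rw [div_le_iff₀ ht] at e4
        have h1 : ((k : ℝ) + 1) * (2 * a / s * L0) ≤ ((k : ℝ) + 1) * (4 * c / s * L0) :=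
          mul_le_mul_of_nonneg_left (mul_le_mul_of_nonneg_right hp4 hL.le) (by positivity)
        refine h1.trans ?_
        have : ((k : ℝ) + 1) * (4 * c / s * L0) = 4 * c * ((k : ℝ) + 1) * L0 / s := by ring
        rw [this, div_le_iff₀ hs0]
        linarith)
      (by
        rw [hp]
        refine (mul_le_mul_of_nonneg_right hp4 hL.le).trans ?_
        have : 4 * c / s * L0 = 4 * c * L0 / s := by ring
        rw [this, div_le_iff₀ hs0]
        linarith)
      (by
        rw [div_le_iff₀ (by positivity)] at e6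
        have h1 : t * (c / 2 * (n * s)) ≤ t * m n := mul_le_mul_of_nonneg_left hmlow ht.le
        have h2 : (n : ℝ) * (2 * k) ≤ n * (s * (t * c)) := mul_le_mul_of_nonneg_left e6 hnR.le
        linarith)
      τ κ C (fun G hG => ⟨(hBad G (hC G hG).1).1, (hC G hG).2⟩))
  refine hb.trans ?_
  rw [← Real.exp_add, Real.exp_le_exp]
  have h1 : t * Cst c * (m n : ℝ) ≤ ζ / 2 * m n := mul_le_mul_of_nonneg_right htC hmR.le
  have h2 : Real.log ((n : ℝ) + 1) ≤ 1 + 2 * Real.log s := by
    have g1 : Real.log ((n : ℝ) + 1) ≤ Real.log (2 * (s * s)) :=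
      Real.log_le_log (by positivity) (by rw [hss]; linarith)
    rw [Real.log_mul (by norm_num) (by positivity), Real.log_mul hs0.ne' hs0.ne'] at g1
    have g2 := Real.log_le_sub_one_of_pos (show (0 : ℝ) < 2 by norm_num)
    linarith
  have h3 : Real.log s ≤ ζ * c / (16 * ((k : ℝ) + 1)) * s := by
    simp only [id, Real.norm_eq_abs] at e8
    rw [abs_of_pos hs0] at e8
    exact (le_abs_self _).trans e8
  have hk0 : (0 : ℝ) ≤ k := by positivity
  have h4 : (k : ℝ) * Real.log s ≤ ζ * c / 16 * s := by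
    have g1 : (k : ℝ) * Real.log s ≤ k * (ζ * c / (16 * ((k : ℝ) + 1)) * s) :=
      mul_le_mul_of_nonneg_left h3 hk0
    have g2 : (k : ℝ) * (ζ * c / (16 * ((k : ℝ) + 1)) * s)
        ≤ ((k : ℝ) + 1) * (ζ * c / (16 * ((k : ℝ) + 1)) * s) :=
      mul_le_mul_of_nonneg_right (by linarith) (by positivity)
    have g3 : ((k : ℝ) + 1) * (ζ * c / (16 * ((k : ℝ) + 1)) * s) = ζ * c / 16 * s := by
      field_simp
    linarith
  rw [div_le_iff₀ (by positivity)] at e7
  have h5 : (k : ℝ) * (1 + Real.log ((n : ℝ) + 1)) ≤ ζ * c / 4 * s := by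
    have g1 : (k : ℝ) * (1 + Real.log ((n : ℝ) + 1)) ≤ k * (2 + 2 * Real.log s) :=
      mul_le_mul_of_nonneg_left (by linarith) hk0
    nlinarith
  have h6 : (n : ℝ) * ((k : ℝ) * (1 + Real.log ((n : ℝ) + 1))) ≤ n * (ζ * c / 4 * s) :=
    mul_le_mul_of_nonneg_left h5 hnR.le
  have h7 : ζ / 2 * (c / 2 * (n * s)) ≤ ζ / 2 * m n :=
    mul_le_mul_of_nonneg_left hmlow (by positivity)
  nlinarith

end
end Pool.Agent.MP_b5eafd_co

end
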