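import Pool.Agent.MP_b5eafd_co.Reg
import Pool.Agent.MP_b5eafd_co.Mg.Upper
import Pool.Agent.MP_b5eafd_co.Mg.Shearer

/-
HINTS (uses only the STATEMENTS of Reg (eS_univ_eq), Seq, Shearer).  Types iota = Fin 2 (or Bool), tau v = parity of v.
j0 = floor(e n) + 1 (e small), T j = max(j,j0)^2 - j0^2, Kc j = floor(m T(j)/T(n)) (Nat division), kt v = Kc(v+1) - Kc v, so sum_{u<j} kt u = Kc j, Kc n = m,
kt v = 0 for v < j0, kt v <= p' (v + 1/2) + 1 with p' = 2m/T(n) = p/(1 - (j0/n)^2), p = 2m/n^2.  x = (1-sigma)/2,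
kappa v (tau v) = ks = floor(x kt), kappa v (other) = kt - ks <= (1-x) kt + 1.
build_count with b v = 1 for v < j0 (empty set) and b v = explicit lower bound for v >= j0; its graphs lie in TF n m (eS_univ_eq_prof, eS_univ_eq).
For G with prof u = kappa u (u < v): eS_fib_eq_prof with L = below v gives e_aa = 2 sum_{u<v, type a} ks u <= 2x (p' v^2/4 + O(p' v + v)),
e_ab = sum_{u<v} (kt u - ks u) <= (1-x) p' v^2/2 + v;  n_a >= (v-1)/2.  Hence qL a a <= (1-sigma) p'', qL a b <= (1+sigma) p'' with p'' = p'(1+o(1))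
uniformly for v >= j0 (p' n -> infinity; if sigma is close to 1 just absorb the additive error as + o(1) p').  shearer with s = sqrt n.
energy <= (p''/2) kt^2 (1 - sigma^3) + small: (1-s)(1-s)^2/4 + 2(1+s)(1-s)(1+s)/4 + (1-s)(1+s)^2/4 = 1 - s^3; sum_v p'^3 v^2/2 <= p'^3 n^3/6 = m (n p^2)/3 (1+O(e^2)).
binProd: k! <= e (k+1) (k/e)^k (induction or Stirling.le / Nat.factorial_lt) so log(N^k/k!) >= k log N - k log y + k - 1 - log(k+1) for any y >= k, y > 0.
Use y = x p'' v for ks, y = (1-x) p'' v for the other, N >= v/2 (1-o(1)); ks = x kt - theta, 0 <= theta < 1;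
log 2 + x log x + (1-x) log(1-x) = hh sigma.  All per vertex O(log n) errors sum to O(n log n) = o(m).
-/

set_option autoImplicit false
open Finset Filter Topology

namespace Pool.Agent.MP_b5eafd_co
noncomputable section
open Classical

namespace LowerAux

def par (u : ℕ) : Bool := decide (u % 2 = 1)

def cnt (a : Bool) (v : ℕ) : ℝ := ∑ u ∈ range v, if par u = a then (1 : ℝ) else 0

def sm (a : Bool) (v : ℕ) : ℝ := ∑ u ∈ range v, if par u = a then (u : ℝ) else 0

theorem cnt_succ (a : Bool) (v : ℕ) :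
    cnt a (v + 1) = cnt a v + if par v = a then (1 : ℝ) else 0 := by
  simp only [cnt, sum_range_succ]

theorem sm_succ (a : Bool) (v : ℕ) :
    sm a (v + 1) = sm a v + if par v = a then (v : ℝ) else 0 := by
  simp only [sm, sum_range_succ]

theorem cnt_false (v : ℕ) : cnt false v = (((v + 1) / 2 : ℕ) : ℝ) := by
  induction v with
  | zero => simp [cnt]
  | succ v ih =>
    rw [cnt_succ, ih]
    by_cases h : v % 2 = 1
    · have h1 : (v + 1 + 1) / 2 = (v + 1) / 2 := by omega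
      simp [par, h, h1]
    · have h1 : (v + 1 + 1) / 2 = (v + 1) / 2 + 1 := by omega
      simp [par, h, h1]

theorem cnt_true (v : ℕ) : cnt true v = ((v / 2 : ℕ) : ℝ) := by
  induction v with
  | zero => simp [cnt]
  | succ v ih =>
    rw [cnt_succ, ih]
    by_cases h : v % 2 = 1
    · have h1 : (v + 1) / 2 = v / 2 + 1 := by omega
      simp [par, h, h1]
    · have h1 : (v + 1) / 2 = v / 2 := by omega
      simp [par, h, h1]

theorem cnt_nonneg (a : Bool) (v : ℕ) : 0 ≤ cnt a v := by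
  cases a
  · rw [cnt_false]; positivity
  · rw [cnt_true]; positivity

theorem cnt_ge (a : Bool) (v : ℕ) : (v : ℝ) ≤ 2 * cnt a v + 1 := by
  cases a
  · rw [cnt_false]
    have h : v ≤ 2 * ((v + 1) / 2) + 1 := by omega
    exact_mod_cast h
  · rw [cnt_true]
    have h : v ≤ 2 * (v / 2) + 1 := by omega
    exact_mod_cast h

theorem cnt_ge_not (v : ℕ) : (v : ℝ) ≤ 2 * cnt (!par v) v := by
  by_cases h : v % 2 = 1
  · have h1 : (!par v) = false := by simp [par, h]
    rw [h1, cnt_false]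
    have h : v ≤ 2 * ((v + 1) / 2) := by omega
    exact_mod_cast h
  · have h1 : (!par v) = true := by simp [par, h]
    rw [h1, cnt_true]
    have h : v ≤ 2 * (v / 2) := by omega
    exact_mod_cast h

theorem sm_le (a : Bool) (v : ℕ) : sm a v ≤ cnt a v * cnt a v := by
  induction v with
  | zero => simp [sm, cnt]
  | succ v ih =>
    rw [sm_succ, cnt_succ]
    have h1 := cnt_ge a v
    split_ifs with h
    · nlinarith
    · simpa using ih

theorem sm_add_le (a : Bool) (v : ℕ) : sm a v + sm (!a) v ≤ 2 * (cnt a v * cnt (!a) v) := by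
  induction v with
  | zero => simp [sm, cnt]
  | succ v ih =>
    rw [sm_succ, sm_succ, cnt_succ, cnt_succ]
    have h1 := cnt_ge_not v
    by_cases h : par v = a
    · have h2 : ¬ (par v = !a) := by rw [h]; cases a <;> simp
      rw [if_pos h, if_neg h2, if_pos h, if_neg h2]
      rw [h] at h1
      nlinarith
    · have h2 : par v = !a := by
        revert h; cases a <;> cases par v <;> simp
      rw [if_neg h, if_pos h2, if_neg h, if_pos h2]
      rw [h2, Bool.not_not] at h1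
      nlinarith

/-- the parity typing. -/
def ty (n : ℕ) : Fin n → Bool := fun u => par u

theorem sum_fib {n : ℕ} (v : Fin n) (a : Bool) (f : ℕ → ℝ) :
    ∑ u ∈ fib (ty n) (below v) a, f u = ∑ u ∈ range v, if par u = a then f u else 0 := by
  have h1 : ∑ u ∈ fib (ty n) (below v) a, f u =
      ∑ u : Fin n, (fun u : ℕ => if u < (v : ℕ) then (if par u = a then f u else 0) else 0) u := by
    unfold fib below
    rw [sum_filter, sum_filter]
    refine sum_congr rfl fun u _ => ?_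
    by_cases h : u < v
    · have h' : (u : ℕ) < (v : ℕ) := h
      by_cases h2 : par u = a
      · simp [h, h', h2, ty]
      · simp [h, h', h2, ty]
    · have h' : ¬ (u : ℕ) < (v : ℕ) := h
      simp [h, h']
  rw [h1, Fin.sum_univ_eq_sum_range
    (fun u : ℕ => if u < (v : ℕ) then (if par u = a then f u else 0) else 0) n, ← sum_filter]
  refine sum_congr ?_ fun _ _ => rfl
  ext u
  have := v.2
  simp only [mem_filter, mem_range]
  omega

theorem card_fib {n : ℕ} (v : Fin n) (a : Bool) :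
    ((fib (ty n) (below v) a).card : ℝ) = cnt a v := by
  have := sum_fib v a (fun _ => 1)
  simpa [cnt] using this

theorem sum_bool_at (b : Bool) (f : Bool → ℝ) : ∑ l, f l = f b + f (!b) := by
  cases b <;> simp [add_comm]

theorem prod_bool_at (b : Bool) (f : Bool → ℝ) : ∏ l, f l = f b * f (!b) := by
  cases b <;> simp [mul_comm]

theorem mem_fib_below {n : ℕ} {v u : Fin n} {a : Bool} (h : u ∈ fib (ty n) (below v) a) :
    u < v ∧ ty n u = a := by
  simpa [fib, below] using h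

theorem q_bound {n : ℕ} (G : SimpleGraph (Fin n)) (v : Fin n) (κ : Fin n → Bool → ℕ)
    (α β : ℝ) (hα : 0 ≤ α) (hβ : 0 ≤ β)
    (hp : ∀ u, u < v → ∀ l, prof G (ty n) u l = κ u l)
    (hs : ∀ u : Fin n, (κ u (ty n u) : ℝ) ≤ α * ((u : ℕ) : ℝ))
    (ho : ∀ u : Fin n, (κ u (!ty n u) : ℝ) ≤ β * ((u : ℕ) : ℝ)) (a : Bool) :
    qL G (ty n) (below v) a a ≤ 2 * α ∧ qL G (ty n) (below v) a (!a) ≤ 2 * β := by
  have hL : ∀ u ∈ below v, ∀ w, w < u → w ∈ below v := by
    intro u hu w hw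
    simp only [below, mem_filter, mem_univ, true_and] at hu ⊢
    exact hw.trans hu
  have h1 : ∀ b : Bool, ∑ u ∈ fib (ty n) (below v) b, (prof G (ty n) u b : ℝ) ≤ α * sm b v := by
    intro b
    have := sum_fib v b (fun u => (u : ℝ))
    rw [sm, ← this, mul_sum]
    refine sum_le_sum fun u hu => ?_
    obtain ⟨h2, h3⟩ := mem_fib_below hu
    rw [hp u h2, ← h3]
    exact hs u
  have h2 : ∀ b : Bool, ∑ u ∈ fib (ty n) (below v) b, (prof G (ty n) u (!b) : ℝ) ≤ β * sm b v := by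
    intro b
    have := sum_fib v b (fun u => (u : ℝ))
    rw [sm, ← this, mul_sum]
    refine sum_le_sum fun u hu => ?_
    obtain ⟨h2, h3⟩ := mem_fib_below hu
    rw [hp u h2, ← h3]
    exact ho u
  constructor
  · unfold qL
    rw [card_fib, eS_fib_eq_prof G (ty n) (below v) hL]
    have h3 := cnt_nonneg a v
    refine div_le_of_le_mul₀ (by positivity) (by positivity) ?_
    have h4 := h1 a
    have h5 := mul_le_mul_of_nonneg_left (sm_le a v) hα
    nlinarith
  · unfold qL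
    rw [card_fib, card_fib, eS_fib_eq_prof G (ty n) (below v) hL]
    have h3 := cnt_nonneg a v
    have h3' := cnt_nonneg (!a) v
    refine div_le_of_le_mul₀ (by positivity) (by positivity) ?_
    have h4 := h2 a
    have h4' := h2 (!a)
    rw [Bool.not_not] at h4'
    have h5 := mul_le_mul_of_nonneg_left (sm_add_le a v) hβ
    nlinarith

theorem log_fact_le (k : ℕ) :
    Real.log (k.factorial : ℝ) ≤ ((k : ℝ) + 1) * Real.log ((k : ℝ) + 1) - k := by
  induction k with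
  | zero => simp
  | succ k ih =>
    have hk : (0 : ℝ) < (k : ℝ) + 1 := by positivity
    have hf : (0 : ℝ) < (k.factorial : ℝ) := by exact_mod_cast k.factorial_pos
    rw [Nat.factorial_succ]
    push_cast
    rw [Real.log_mul hk.ne' hf.ne']
    have h1 := Real.one_sub_inv_le_log_of_pos (x := ((k : ℝ) + 1 + 1) / ((k : ℝ) + 1)) (by positivity)
    rw [Real.log_div (by positivity) hk.ne', inv_div] at h1
    have h2 : ((k : ℝ) + 1 + 1) * (1 - ((k : ℝ) + 1) / ((k : ℝ) + 1 + 1)) = 1 := by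
      field_simp; ring
    have h3 := mul_le_mul_of_nonneg_left h1 (show (0 : ℝ) ≤ (k : ℝ) + 1 + 1 by positivity)
    rw [h2] at h3
    nlinarith

theorem term_ge (k : ℕ) (N y η : ℝ) (hη : 0 < η) (hy : (k : ℝ) + 1 ≤ y) (hN : 0 < N) :
    Real.exp ((k : ℝ) * (Real.log N - Real.log y + 1 - η) - (η - 1 - Real.log η))
      ≤ N ^ k / (k.factorial : ℝ) := by
  have hf : (0 : ℝ) < (k.factorial : ℝ) := by exact_mod_cast k.factorial_pos
  have hk : (0 : ℝ) < (k : ℝ) + 1 := by positivity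
  rw [← Real.le_log_iff_exp_le (by positivity), Real.log_div (by positivity) hf.ne', Real.log_pow]
  have h1 := log_fact_le k
  have h2 : Real.log ((k : ℝ) + 1) ≤ Real.log y := Real.log_le_log hk hy
  have h3 := Real.log_le_sub_one_of_pos (x := η * ((k : ℝ) + 1)) (by positivity)
  rw [Real.log_mul hη.ne' hk.ne'] at h3
  have h4 := mul_le_mul_of_nonneg_left h2 (show (0 : ℝ) ≤ (k : ℝ) by positivity)
  nlinarith

theorem exists_le_sum {α : Type} [Fintype α] (cap : α → ℕ) (m : ℕ) (h : m ≤ ∑ u, cap u) :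
    ∃ k : α → ℕ, (∀ u, k u ≤ cap u) ∧ ∑ u, k u = m := by
  induction m with
  | zero => exact ⟨fun _ => 0, fun _ => Nat.zero_le _, by simp⟩
  | succ m ih =>
    obtain ⟨k, hk, hs⟩ := ih (by omega)
    have hlt : ∑ u, k u < ∑ u, cap u := by omega
    obtain ⟨u, -, hu⟩ := exists_lt_of_sum_lt hlt
    refine ⟨fun w => k w + if w = u then 1 else 0, fun w => ?_, ?_⟩
    · by_cases hw : w = u
      · subst hw; simp only [if_true]; omega
      · simp only [if_neg hw]; exact hk w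
    · rw [sum_add_distrib, hs]; simp

theorem one_le_indCount {V : Type} [Fintype V] {ι : Type} [Fintype ι] (G : SimpleGraph V)
    (τ : V → ι) (L : Finset V) (k : ι → ℕ) (hk : ∀ l, k l = 0) : 1 ≤ indCount G τ L k := by
  unfold indCount
  refine card_pos.mpr ⟨∅, ?_⟩
  simp [indSets, fib, hk]

/-- the entropy constant in terms of `x = (1 - σ) / 2`. -/
def Hx (x : ℝ) : ℝ := Real.log 2 + x * Real.log x + (1 - x) * Real.log (1 - x)

theorem energy_le (q : Bool → Bool → ℝ) (k : Bool → ℕ) (s : Bool) (x P v : ℝ)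
    (hx0 : 0 < x) (hx1 : x ≤ 1 / 2) (hP : 0 < P)
    (h1 : ∀ a, q a a ≤ 2 * (x * P)) (h2 : ∀ a, q a (!a) ≤ 2 * ((1 - x) * P))
    (hs : (k s : ℝ) ≤ x * P * v) (ho : (k (!s) : ℝ) ≤ (1 - x) * P * v) :
    energy q k ≤ P ^ 3 * v ^ 2 * (x ^ 3 + 3 * x * (1 - x) ^ 2) := by
  unfold energy
  rw [sum_bool_at s, sum_bool_at s, sum_bool_at s]
  have hx2 : 0 < 1 - x := by linarith
  have hA : (0 : ℝ) ≤ (k s : ℝ) := by positivity
  have hB : (0 : ℝ) ≤ (k (!s) : ℝ) := by positivity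
  have hAA : (k s : ℝ) * (k s : ℝ) ≤ (x * P * v) * (x * P * v) :=
    mul_le_mul hs hs hA (hA.trans hs)
  have hAB : (k s : ℝ) * (k (!s) : ℝ) ≤ (x * P * v) * ((1 - x) * P * v) :=
    mul_le_mul hs ho hB (hA.trans hs)
  have hBB : (k (!s) : ℝ) * (k (!s) : ℝ) ≤ ((1 - x) * P * v) * ((1 - x) * P * v) :=
    mul_le_mul ho ho hB (hB.trans ho)
  have e1 : q s s * ((k s : ℝ) * (k s : ℝ)) ≤ 2 * (x * P) * ((x * P * v) * (x * P * v)) :=
    mul_le_mul (h1 s) hAA (by positivity) (by positivity)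
  have e2 : q s (!s) * ((k s : ℝ) * (k (!s) : ℝ)) ≤
      2 * ((1 - x) * P) * ((x * P * v) * ((1 - x) * P * v)) :=
    mul_le_mul (h2 s) hAB (by positivity) (by positivity)
  have h2' := h2 (!s)
  rw [Bool.not_not] at h2'
  have e3 : q (!s) s * ((k s : ℝ) * (k (!s) : ℝ)) ≤
      2 * ((1 - x) * P) * ((x * P * v) * ((1 - x) * P * v)) :=
    mul_le_mul h2' hAB (by positivity) (by positivity)
  have e4 : q (!s) (!s) * ((k (!s) : ℝ) * (k (!s) : ℝ)) ≤
      2 * (x * P) * (((1 - x) * P * v) * ((1 - x) * P * v)) :=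
    mul_le_mul (h1 (!s)) hBB (by positivity) (by positivity)
  nlinarith

theorem vertex_bound {n : ℕ} (G : SimpleGraph (Fin n)) (v : Fin n) (κ : Fin n → Bool → ℕ)
    (x P η E : ℝ) (hx0 : 0 < x) (hx1 : x ≤ 1 / 2) (hP : 0 < P) (hη : 0 < η)
    (hp : ∀ u, u < v → ∀ l, prof G (ty n) u l = κ u l)
    (hs : ∀ u : Fin n, (κ u (ty n u) : ℝ) ≤ x * P * ((u : ℕ) : ℝ))
    (ho : ∀ u : Fin n, (κ u (!ty n u) : ℝ) ≤ (1 - x) * P * ((u : ℕ) : ℝ))
    (hs1 : (κ v (ty n v) : ℝ) + 1 ≤ x * P * ((v : ℕ) : ℝ))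
    (ho1 : (κ v (!ty n v) : ℝ) + 1 ≤ (1 - x) * P * ((v : ℕ) : ℝ))
    (kt : ℝ) (hkt : (κ v (ty n v) : ℝ) + (κ v (!ty n v) : ℝ) = kt)
    (hlo : x * kt - 1 ≤ (κ v (ty n v) : ℝ)) (hhi : (κ v (ty n v) : ℝ) ≤ x * kt)
    (hv : ((v : ℕ) : ℝ) ≤ (1 + η) * (((v : ℕ) : ℝ) - 1)) :
    Real.exp (kt * (1 - Real.log P - Hx x - 2 * η) - (2 * (η - 1 - Real.log η) - Real.log x)
        - P ^ 3 * ((v : ℕ) : ℝ) ^ 2 * (x ^ 3 + 3 * x * (1 - x) ^ 2) - E) ≤
      binProd (ty n) (below v) (κ v) * Real.exp (-(energy (qL G (ty n) (below v)) (κ v)) - E) := by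
  have hx2 : 0 < 1 - x := by linarith
  have hq := q_bound G v κ (x * P) ((1 - x) * P) (by positivity) (by positivity) hp hs ho
  have hen := energy_le (qL G (ty n) (below v)) (κ v) (ty n v) x P ((v : ℕ) : ℝ) hx0 hx1 hP
    (fun a => (hq a).1) (fun a => (hq a).2) (hs v) (ho v)
  have hA : (0 : ℝ) ≤ (κ v (ty n v) : ℝ) := by positivity
  have hB : (0 : ℝ) ≤ (κ v (!ty n v) : ℝ) := by positivity
  have hv0 : (0 : ℝ) < ((v : ℕ) : ℝ) := by
    by_contra h
    have h1 : ((v : ℕ) : ℝ) = 0 := le_antisymm (not_lt.mp h) (by positivity)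
    rw [h1] at hs1
    linarith
  have hN : ∀ a, ((v : ℕ) : ℝ) ≤ cnt a v * 2 * (1 + η) := by
    intro a
    have := cnt_ge a v
    nlinarith
  have hN0 : ∀ a, 0 < cnt a v := by
    intro a
    by_contra h
    have h1 : cnt a v = 0 := le_antisymm (not_lt.mp h) (cnt_nonneg a v)
    have h2 := hN a
    rw [h1] at h2
    linarith
  have hlog : ∀ a, Real.log ((v : ℕ) : ℝ) - Real.log 2 - η ≤ Real.log (cnt a v) := by
    intro a
    have h1 := Real.log_le_log hv0 (hN a)
    rw [Real.log_mul (by have := hN0 a; positivity) (by positivity),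
      Real.log_mul (hN0 a).ne' (by norm_num)] at h1
    have h2 := Real.log_le_sub_one_of_pos (x := 1 + η) (by positivity)
    linarith
  have t1 := term_ge (κ v (ty n v)) (cnt (ty n v) v) _ η hη hs1 (hN0 _)
  have t2 := term_ge (κ v (!ty n v)) (cnt (!ty n v) v) _ η hη ho1 (hN0 _)
  have hbin : binProd (ty n) (below v) (κ v) =
      cnt (ty n v) v ^ κ v (ty n v) / ((κ v (ty n v)).factorial : ℝ) *
      (cnt (!ty n v) v ^ κ v (!ty n v) / ((κ v (!ty n v)).factorial : ℝ)) := by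
    unfold binProd
    rw [prod_bool_at (ty n v), card_fib, card_fib]
  have t3 := mul_le_mul t1 t2 (Real.exp_pos _).le ((Real.exp_pos _).le.trans t1)
  rw [← hbin, ← Real.exp_add] at t3
  refine le_trans ?_ (mul_le_mul_of_nonneg_right t3 (Real.exp_pos _).le)
  rw [← Real.exp_add]
  refine Real.exp_le_exp.mpr ?_
  rw [Real.log_mul (by positivity) hv0.ne', Real.log_mul hx0.ne' hP.ne',
    Real.log_mul (by positivity) hv0.ne', Real.log_mul hx2.ne' hP.ne']
  have l1 := mul_le_mul_of_nonneg_left (hlog (ty n v)) hA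
  have l2 := mul_le_mul_of_nonneg_left (hlog (!ty n v)) hB
  have hlx : Real.log x ≤ 0 := Real.log_nonpos hx0.le (by linarith)
  have hlx' : Real.log (1 - x) ≤ 0 := Real.log_nonpos hx2.le (by linarith)
  have l3 : 0 ≤ ((κ v (ty n v) : ℝ) - (x * kt - 1)) * (-Real.log x) :=
    mul_nonneg (by linarith) (by linarith)
  have l4 : 0 ≤ (x * kt - (κ v (ty n v) : ℝ)) * (-Real.log (1 - x)) :=
    mul_nonneg (by linarith) (by linarith)
  unfold Hx
  have hB' : (κ v (!ty n v) : ℝ) = kt - (κ v (ty n v) : ℝ) := by linarith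
  rw [hB'] at l2 ⊢
  nlinarith

theorem sum_sq_le (n : ℕ) : ∑ v : Fin n, ((v : ℕ) : ℝ) ^ 2 ≤ (n : ℝ) ^ 3 / 3 := by
  rw [Fin.sum_univ_eq_sum_range (fun v : ℕ => (v : ℝ) ^ 2) n]
  induction n with
  | zero => simp
  | succ n ih =>
    rw [sum_range_succ]
    push_cast
    have : (0 : ℝ) ≤ n := by positivity
    nlinarith

theorem sum_id_eq (n : ℕ) : ∑ v : Fin n, ((v : ℕ) : ℝ) = (n : ℝ) * ((n : ℝ) - 1) / 2 := by
  rw [Fin.sum_univ_eq_sum_range (fun v : ℕ => (v : ℝ)) n]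
  induction n with
  | zero => simp
  | succ n ih =>
    rw [sum_range_succ, ih]
    push_cast
    ring

theorem lower_fin (n m : ℕ) (x P η e ε K s : ℝ) (hx0 : 0 < x) (hx1 : x ≤ 1 / 2) (hP : 0 < P)
    (hη : 0 < η) (he : 0 ≤ e) (hε : 0 ≤ ε * s)
    (hS : ∀ G : SimpleGraph (Fin n), G.CliqueFree 3 →
      ∀ (τ : Fin n → Bool) (L : Finset (Fin n)) (k : Bool → ℕ), (∑ l, (k l : ℝ)) ≤ K * s →
        (∀ l, ε * s ^ 2 ≤ ((fib τ L l).card : ℝ)) → (∀ a b, qL G τ L a b ≤ K / s) →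
        binProd τ L k * Real.exp (-(energy (qL G τ L) k) - ε * s) ≤ (indCount G τ L k : ℝ))
    (hK1 : P * n ≤ K * s) (hK2 : 2 * P ≤ K / s)
    (h1 : 2 * (ε * s ^ 2) + 1 ≤ e * n) (h2 : 1 + η ≤ η * (e * n)) (h3 : 2 / x ≤ P * (e * n))
    (hm : (m : ℝ) ≤ P * ((n : ℝ) * ((n : ℝ) - 1) / 2) - (2 / x + 1) * n - P * (e * n) * n) :
    Real.exp ((m : ℝ) * (1 - Real.log P - Hx x - 2 * η)
        - (n : ℝ) * ((2 * (η - 1 - Real.log η) - Real.log x) + ε * s)
        - P ^ 3 * ((n : ℝ) ^ 3 / 3) * (x ^ 3 + 3 * x * (1 - x) ^ 2)) ≤ ((TF n m).ncard : ℝ) := by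
  have hx2 : 0 < 1 - x := by linarith
  have hD : 0 < 2 / x := by positivity
  have hxD : x * (2 / x) = 2 := by field_simp
  have hD4 : 4 ≤ 2 / x := by
    rw [le_div_iff₀ hx0]; linarith
  set cap : Fin n → ℕ := fun u =>
    if e * n ≤ ((u : ℕ) : ℝ) then ⌊P * ((u : ℕ) : ℝ) - 2 / x⌋₊ else 0 with hcap
  have hcap1 : ∀ u : Fin n, P * ((u : ℕ) : ℝ) - (2 / x + 1) - P * (e * n) ≤ (cap u : ℝ) := by
    intro u
    have h0 : 0 ≤ P * (e * n) := by positivity
    by_cases h : e * n ≤ ((u : ℕ) : ℝ)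
    · have := Nat.lt_floor_add_one (P * ((u : ℕ) : ℝ) - 2 / x)
      simp only [hcap, if_pos h]
      linarith
    · have := mul_le_mul_of_nonneg_left (not_le.mp h).le hP.le
      simp only [hcap, if_neg h, Nat.cast_zero]
      linarith
  have hmcap : m ≤ ∑ u, cap u := by
    have h4 := sum_le_sum (s := (univ : Finset (Fin n))) fun u _ => hcap1 u
    rw [sum_sub_distrib, sum_sub_distrib, ← mul_sum, sum_id_eq] at h4
    simp only [sum_const, card_univ, Fintype.card_fin, nsmul_eq_mul] at h4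
    have h5 : (m : ℝ) ≤ ∑ u, (cap u : ℝ) := by linarith
    exact_mod_cast h5
  obtain ⟨kt, hkt, hsum⟩ := exists_le_sum cap m hmcap
  have hz : ∀ u : Fin n, ¬ (e * n ≤ ((u : ℕ) : ℝ)) → kt u = 0 := by
    intro u h
    have := hkt u
    simp only [hcap, if_neg h] at this
    omega
  have hb : ∀ u : Fin n, e * n ≤ ((u : ℕ) : ℝ) → (kt u : ℝ) ≤ P * ((u : ℕ) : ℝ) - 2 / x := by
    intro u h
    have h4 := hkt u
    simp only [hcap, if_pos h] at h4
    have h5 := mul_le_mul_of_nonneg_left h hP.le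
    have h6 : (kt u : ℝ) ≤ (⌊P * ((u : ℕ) : ℝ) - 2 / x⌋₊ : ℝ) := by exact_mod_cast h4
    exact h6.trans (Nat.floor_le (by linarith))
  set ks : Fin n → ℕ := fun u => ⌊x * (kt u : ℝ)⌋₊ with hks
  have hks1 : ∀ u, (ks u : ℝ) ≤ x * (kt u : ℝ) := fun u => Nat.floor_le (by positivity)
  have hks2 : ∀ u, x * (kt u : ℝ) - 1 ≤ (ks u : ℝ) := fun u => by
    have := Nat.lt_floor_add_one (x * (kt u : ℝ))
    simp only [hks]
    linarith
  have hks3 : ∀ u, ks u ≤ kt u := fun u => by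
    have h4 := hks1 u
    have h5 : (0 : ℝ) ≤ (kt u : ℝ) := by positivity
    have h6 : (ks u : ℝ) ≤ (kt u : ℝ) := by nlinarith
    exact_mod_cast h6
  set κ : Fin n → Bool → ℕ := fun u l => if l = ty n u then ks u else kt u - ks u with hκ
  have hκ1 : ∀ u, (κ u (ty n u) : ℝ) = (ks u : ℝ) := fun u => by simp [hκ]
  have hκ2 : ∀ u, (κ u (!ty n u) : ℝ) = (kt u : ℝ) - (ks u : ℝ) := fun u => by
    have h4 : ¬ ((!ty n u) = ty n u) := by cases ty n u <;> simp
    simp only [hκ, if_neg h4]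
    rw [Nat.cast_sub (hks3 u)]
  have hκ3 : ∀ u, ∑ l, (κ u l : ℝ) = (kt u : ℝ) := fun u => by
    rw [sum_bool_at (ty n u), hκ1, hκ2]; ring
  have hs1 : ∀ u : Fin n, e * n ≤ ((u : ℕ) : ℝ) →
      (κ u (ty n u) : ℝ) + 1 ≤ x * P * ((u : ℕ) : ℝ) := by
    intro u h
    rw [hκ1]
    have h4 := mul_le_mul_of_nonneg_left (hb u h) hx0.le
    have h5 := hks1 u
    nlinarith
  have ho1 : ∀ u : Fin n, e * n ≤ ((u : ℕ) : ℝ) →
      (κ u (!ty n u) : ℝ) + 1 ≤ (1 - x) * P * ((u : ℕ) : ℝ) := by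
    intro u h
    rw [hκ2]
    have h4 := mul_le_mul_of_nonneg_left (hb u h) hx2.le
    have h5 := hks2 u
    nlinarith
  have hκ0 : ∀ u : Fin n, ¬ (e * n ≤ ((u : ℕ) : ℝ)) → ∀ l, κ u l = 0 := by
    intro u h l
    have h4 := hz u h
    have h5 := hks3 u
    simp only [hκ]
    split_ifs <;> omega
  have hs : ∀ u : Fin n, (κ u (ty n u) : ℝ) ≤ x * P * ((u : ℕ) : ℝ) := by
    intro u
    by_cases h : e * n ≤ ((u : ℕ) : ℝ)
    · linarith [hs1 u h]
    · rw [hκ0 u h]; simp only [Nat.cast_zero]; positivity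
  have ho : ∀ u : Fin n, (κ u (!ty n u) : ℝ) ≤ (1 - x) * P * ((u : ℕ) : ℝ) := by
    intro u
    by_cases h : e * n ≤ ((u : ℕ) : ℝ)
    · linarith [ho1 u h]
    · rw [hκ0 u h]; simp only [Nat.cast_zero]; positivity
  have hC0 : 0 ≤ 2 * (η - 1 - Real.log η) - Real.log x := by
    have h4 := Real.log_le_sub_one_of_pos hη
    have h5 : Real.log x ≤ 0 := Real.log_nonpos hx0.le (by linarith)
    linarith
  have hQ : 0 ≤ x ^ 3 + 3 * x * (1 - x) ^ 2 := by positivity
  have hbc := build_count (ty n) κ (fun v => Real.exp ((kt v : ℝ) * (1 - Real.log P - Hx x - 2 * η)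
      - (2 * (η - 1 - Real.log η) - Real.log x)
      - P ^ 3 * ((v : ℕ) : ℝ) ^ 2 * (x ^ 3 + 3 * x * (1 - x) ^ 2) - ε * s))
    (fun v => (Real.exp_pos _).le) (by
      intro v G hG hp
      by_cases h : e * n ≤ ((v : ℕ) : ℝ)
      · have hvn : ((v : ℕ) : ℝ) ≤ n := by exact_mod_cast v.2.le
        have hq := q_bound G v κ (x * P) ((1 - x) * P) (by positivity) (by positivity) hp hs ho
        refine le_trans (vertex_bound G v κ x P η (ε * s) hx0 hx1 hP hη hp hs ho (hs1 v h) (ho1 v h)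
          (kt v) (by rw [hκ1, hκ2]; ring) (by rw [hκ1]; exact hks2 v) (by rw [hκ1]; exact hks1 v)
          ?_) (hS G hG (ty n) (below v) (κ v) ?_ ?_ ?_)
        · have := mul_le_mul_of_nonneg_left h hη.le
          nlinarith
        · rw [hκ3]
          have h4 := hb v h
          have h5 := mul_le_mul_of_nonneg_left hvn hP.le
          linarith
        · intro l
          rw [card_fib]
          have := cnt_ge l v
          linarith
        · intro a b
          by_cases hab : b = a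
          · rw [hab]
            have := (hq a).1
            nlinarith
          · have hab' : b = !a := by
              revert hab; cases a <;> cases b <;> simp
            rw [hab']
            have := (hq a).2
            nlinarith
      · have h4 : (1 : ℝ) ≤ (indCount G (ty n) (below v) (κ v) : ℝ) := by
          exact_mod_cast one_le_indCount G (ty n) (below v) (κ v) (hκ0 v h)
        refine le_trans ?_ h4
        rw [Real.exp_le_one_iff, hz v h]
        have h5 : 0 ≤ P ^ 3 * ((v : ℕ) : ℝ) ^ 2 * (x ^ 3 + 3 * x * (1 - x) ^ 2) := by positivity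
        simp only [Nat.cast_zero, zero_mul]
        linarith)
  have hsumR : ∑ v, (kt v : ℝ) = (m : ℝ) := by exact_mod_cast hsum
  have hcard : ∀ S : Finset (SimpleGraph (Fin n)),
      (∀ G ∈ S, G.CliqueFree 3 ∧ ∀ v l, prof G (ty n) v l = κ v l) →
      (S.card : ℝ) ≤ ((TF n m).ncard : ℝ) := by
    intro S hS
    have hsub : (S : Set (SimpleGraph (Fin n))) ⊆ TF n m := by
      intro G hG
      have hG' := hS G hG
      refine ⟨hG'.1, ?_⟩
      have h4 := eS_univ_eq G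
      rw [eS_univ_eq_prof G (ty n)] at h4
      simp only [hG'.2, hκ3] at h4
      rw [hsumR] at h4
      have h5 : (G.edgeSet.ncard : ℝ) = (m : ℝ) := by linarith
      exact_mod_cast h5
    have hcard := Set.ncard_le_ncard hsub (Set.toFinite _)
    rw [Set.ncard_coe_finset] at hcard
    exact_mod_cast hcard
  refine le_trans ?_ (hbc.trans (hcard _ fun G hG => by
    simp only [mem_filter] at hG
    exact hG.2))
  rw [← Real.exp_sum]
  refine Real.exp_le_exp.mpr ?_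
  rw [sum_sub_distrib, sum_sub_distrib, sum_sub_distrib, ← sum_mul, ← sum_mul, ← mul_sum, hsumR]
  simp only [sum_const, card_univ, Fintype.card_fin, nsmul_eq_mul]
  have h4 := mul_le_mul_of_nonneg_right
    (mul_le_mul_of_nonneg_left (sum_sq_le n) (show 0 ≤ P ^ 3 by positivity)) hQ
  linarith

theorem hx_eq (σ : ℝ) (hσ0 : 0 ≤ σ) (hσ1 : σ < 1) : Hx ((1 - σ) / 2) = hh σ := by
  unfold Hx hh
  have h1 : 1 - (1 - σ) / 2 = (1 + σ) / 2 := by ring
  rw [h1, Real.log_div (by linarith) (by norm_num), Real.log_div (by linarith) (by norm_num)]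
  ring

theorem pow5_le (η : ℝ) (h0 : 0 ≤ η) (h1 : η ≤ 1) : (1 + η) ^ 5 ≤ 1 + 31 * η := by
  have h2 : η ^ 2 ≤ η := pow_le_of_le_one h0 h1 (by norm_num)
  have h3 : η ^ 3 ≤ η := pow_le_of_le_one h0 h1 (by norm_num)
  have h4 : η ^ 4 ≤ η := pow_le_of_le_one h0 h1 (by norm_num)
  have h5 : η ^ 5 ≤ η := pow_le_of_le_one h0 h1 (by norm_num)
  nlinarith

end LowerAux

open LowerAux in
theorem lower_count (c σ ζ : ℝ) (hc : 0 < c) (hσ0 : 0 ≤ σ) (hσ1 : σ < 1) (hζ : 0 < ζ) (m : ℕ → ℕ)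
    (hm : Tendsto (fun n : ℕ => (m n : ℝ) / (n : ℝ) ^ ((3 : ℝ) / 2)) atTop (𝓝 c)) :
    ∀ᶠ n : ℕ in atTop,
      Real.exp (refE n (m n) - (hh σ + 4 * c ^ 2 / 3 * (1 - σ ^ 3)) * (m n : ℝ) - ζ * (m n : ℝ))
        ≤ ((TF n (m n)).ncard : ℝ) := by
  obtain ⟨x, hx⟩ : ∃ x : ℝ, x = (1 - σ) / 2 := ⟨_, rfl⟩
  have hx0 : 0 < x := by rw [hx]; linarith
  have hx1 : x ≤ 1 / 2 := by rw [hx]; linarith
  obtain ⟨η, hη, hη1, hη2, hη3⟩ : ∃ η : ℝ, 0 < η ∧ η ≤ 1 ∧ η ≤ ζ / 12 ∧ η * (200 * c ^ 2) ≤ ζ := by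
    refine ⟨min 1 (min (ζ / 12) (ζ / (200 * c ^ 2))), by positivity, min_le_left _ _,
      (min_le_right _ _).trans (min_le_left _ _), ?_⟩
    rw [← le_div_iff₀ (by positivity)]
    exact (min_le_right _ _).trans (min_le_right _ _)
  obtain ⟨ε, hε, hε1, hε2⟩ : ∃ ε : ℝ, 0 < ε ∧ ε ≤ η / 32 ∧ ε ≤ ζ * c / 16 :=
    ⟨min (η / 32) (ζ * c / 16), by positivity, min_le_left _ _, min_le_right _ _⟩
  obtain ⟨s0, hs0⟩ := shearer Bool ε (16 * c) hε (by positivity)
  obtain ⟨C, hC⟩ : ∃ C : ℝ, C = 2 * (η - 1 - Real.log η) - Real.log x := ⟨_, rfl⟩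
  have hsq : Tendsto (fun n : ℕ => Real.sqrt (n : ℝ)) atTop atTop :=
    Real.tendsto_sqrt_atTop.comp tendsto_natCast_atTop_atTop
  have hN : Tendsto (fun n : ℕ => (n : ℝ)) atTop atTop := tendsto_natCast_atTop_atTop
  filter_upwards [hsq.eventually_ge_atTop s0, hsq.eventually_ge_atTop 1,
    hsq.eventually_ge_atTop (16 * C / (ζ * c)), hsq.eventually_ge_atTop (16 / (x * η * c)),
    hsq.eventually_ge_atTop (8 * (2 / x + 1) / (η * c)),
    hN.eventually_ge_atTop (16 / η), hN.eventually_ge_atTop (16 / (η * η)),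
    hm.eventually (lt_mem_nhds (show c / 2 < c by linarith)),
    hm.eventually (gt_mem_nhds (show c < (1 + η) * c by nlinarith))]
    with n g0 g1 g2 g3 g4 g5 g6 r1 r2
  obtain ⟨s, hs⟩ : ∃ s : ℝ, s = Real.sqrt (n : ℝ) := ⟨_, rfl⟩
  rw [← hs] at g0 g1 g2 g3 g4
  have hsp : 0 < s := by linarith
  have hn : (n : ℝ) = s ^ 2 := by rw [hs, Real.sq_sqrt (by positivity)]
  have hn32 : (n : ℝ) ^ ((3 : ℝ) / 2) = s ^ 3 := by
    rw [hn, ← Real.rpow_natCast, ← Real.rpow_mul hsp.le, ← Real.rpow_natCast]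
    norm_num
  rw [hn32] at r1 r2
  obtain ⟨r, hr⟩ : ∃ r : ℝ, r = (m n : ℝ) / s ^ 3 := ⟨_, rfl⟩
  rw [← hr] at r1 r2
  have hr0 : 0 < r := by linarith
  have hmr : (m n : ℝ) = r * s ^ 3 := by rw [hr]; field_simp
  have hr2 : r ≤ 2 * c := by nlinarith
  have hr3 : (1 + η) * r ≤ 4 * c := by nlinarith
  rw [div_le_iff₀ (by positivity)] at g2 g3 g4 g5 g6
  have key := lower_fin n (m n) x (2 * (1 + η) * r / s) η (η / 8) ε (16 * c) s hx0 hx1
    (by positivity) hη (by positivity) (by positivity) (hs0 s g0 (Fin n))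
    (by
      rw [hn]
      have h1 : 2 * (1 + η) * r / s * s ^ 2 = 2 * ((1 + η) * r) * s := by field_simp
      rw [h1]
      nlinarith)
    (by
      rw [← mul_div_assoc]
      refine div_le_div_of_nonneg_right ?_ hsp.le
      nlinarith)
    (by
      rw [← hn]
      have h1 : (0 : ℝ) ≤ n := by positivity
      nlinarith)
    (by nlinarith)
    (by
      rw [hn]
      have h1 : 2 * (1 + η) * r / s * (η / 8 * s ^ 2) = (1 + η) * r * (η * s) / 4 := by
        field_simp; ring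
      rw [h1, div_le_iff₀ hx0]
      have h2 : c / 2 ≤ (1 + η) * r := by nlinarith
      have h3 := mul_le_mul_of_nonneg_right h2 (show 0 ≤ η * s * x by positivity)
      nlinarith)
    (by
      rw [hmr, hn]
      have h1 : 2 * (1 + η) * r / s * (s ^ 2 * (s ^ 2 - 1) / 2) = (1 + η) * r * s * (s ^ 2 - 1) := by
        field_simp
      have h2 : 2 * (1 + η) * r / s * (η / 8 * s ^ 2) * s ^ 2 = (1 + η) * r * η * s ^ 3 / 4 := by
        field_simp; ring
      rw [h1, h2]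
      rw [hn] at g5
      have h3 : (2 / x + 1) * s ^ 2 ≤ η * r * s ^ 3 / 4 := by
        have h4 := mul_le_mul_of_nonneg_right g4 (show 0 ≤ s ^ 2 by positivity)
        have h5 := mul_le_mul_of_nonneg_right r1.le (show 0 ≤ η * s ^ 3 by positivity)
        nlinarith
      have h6 : (1 + η) * r * s ≤ η * r * s ^ 3 / 4 := by
        have h4 := mul_le_mul_of_nonneg_right g5 (show 0 ≤ r * s by positivity)
        have h5 := mul_le_mul_of_nonneg_right hη1 (show 0 ≤ r * s by positivity)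
        have h7 : 0 ≤ r * s := by positivity
        nlinarith
      have h7 := mul_le_mul_of_nonneg_right hη1 (show 0 ≤ η * r * s ^ 3 by positivity)
      nlinarith)
  refine le_trans (Real.exp_le_exp.mpr ?_) key
  rw [← hC]
  have hH : Hx x = hh σ := by rw [hx]; exact hx_eq σ hσ0 hσ1
  have hQ : x ^ 3 + 3 * x * (1 - x) ^ 2 = (1 - σ ^ 3) / 2 := by rw [hx]; ring
  have hσ3 : σ ^ 3 ≤ 1 := pow_le_one₀ hσ0 hσ1.le
  have hσ4 : 0 ≤ σ ^ 3 := by positivity
  rw [hH, hQ]
  unfold refE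
  have hp : 2 * (m n : ℝ) / (n : ℝ) ^ 2 = 2 * r / s := by
    rw [hmr, hn]; field_simp
  have hlog : Real.log (2 * (1 + η) * r / s) ≤ Real.log (2 * r / s) + η := by
    have h1 : 2 * (1 + η) * r / s = (2 * r / s) * (1 + η) := by ring
    rw [h1, Real.log_mul (by positivity) (by positivity)]
    have h2 := Real.log_le_sub_one_of_pos (x := 1 + η) (by positivity)
    linarith
  have hm0 : (0 : ℝ) ≤ (m n : ℝ) := by positivity
  have e1 := mul_le_mul_of_nonneg_left hlog hm0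
  have e2 : (n : ℝ) * (C + ε * s) ≤ ζ / 4 * (m n : ℝ) := by
    rw [hmr, hn]
    have h4 := mul_le_mul_of_nonneg_right g2 (show 0 ≤ s ^ 2 by positivity)
    have h5 := mul_le_mul_of_nonneg_right r1.le (show 0 ≤ ζ * s ^ 3 by positivity)
    have h6 := mul_le_mul_of_nonneg_right hε2 (show 0 ≤ s ^ 3 by positivity)
    nlinarith
  have e3 : (2 * (1 + η) * r / s) ^ 3 * ((n : ℝ) ^ 3 / 3) * ((1 - σ ^ 3) / 2) ≤
      (4 * c ^ 2 / 3 * (1 - σ ^ 3) + ζ / 4) * (m n : ℝ) := by
    have h1 : (2 * (1 + η) * r / s) ^ 3 * ((n : ℝ) ^ 3 / 3) * ((1 - σ ^ 3) / 2) =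
        (4 / 3 * ((1 + η) ^ 3 * r ^ 2) * (1 - σ ^ 3)) * (m n : ℝ) := by
      rw [hmr, hn]; field_simp; ring
    rw [h1]
    refine mul_le_mul_of_nonneg_right ?_ hm0
    have h2 : r ^ 2 ≤ ((1 + η) * c) ^ 2 := pow_le_pow_left₀ hr0.le r2.le 2
    have h3 := mul_le_mul_of_nonneg_left h2 (show 0 ≤ (1 + η) ^ 3 by positivity)
    have h4 := mul_le_mul_of_nonneg_right (pow5_le η hη.le hη1) (show 0 ≤ c ^ 2 by positivity)
    have h5 : (1 + η) ^ 3 * r ^ 2 ≤ c ^ 2 + 31 / 200 * ζ := by nlinarith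
    have h6 := mul_le_mul_of_nonneg_right h5 (show 0 ≤ 1 - σ ^ 3 by linarith)
    have h7 := mul_le_mul_of_nonneg_left hσ4 hζ.le
    nlinarith
  have e4 := mul_le_mul_of_nonneg_right hη2 hm0
  have e5 := mul_le_mul_of_nonneg_right hζ.le hm0
  rw [hp]
  nlinarith

end
end Pool.Agent.MP_b5eafd_co
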