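import Pool.Agent.MP_b5eafd_co.Mg.Gap
import Pool.Agent.MP_b5eafd_co.Mg.Upper
import Pool.Agent.MP_b5eafd_co.Mg.Lower

/-! From the counting bounds to the limit of the ratio. -/

set_option autoImplicit false
open Finset Filter Topology

namespace Pool.Agent.MP_b5eafd_co
noncomputable section
open Classical

theorem gap_m_tendsto {c : ℝ} (hc : 0 < c) {m : ℕ → ℕ}
    (hm : Tendsto (fun n : ℕ => (m n : ℝ) / (n : ℝ) ^ ((3 : ℝ) / 2)) atTop (𝓝 c)) :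
    Tendsto (fun n : ℕ => (m n : ℝ)) atTop atTop := by
  have h1 : Tendsto (fun n : ℕ => (n : ℝ) ^ ((3 : ℝ) / 2)) atTop atTop :=
    (tendsto_rpow_atTop (by norm_num)).comp tendsto_natCast_atTop_atTop
  refine (hm.pos_mul_atTop hc h1).congr' ?_
  filter_upwards [eventually_gt_atTop 0] with n hn
  have : (0 : ℝ) < (n : ℝ) ^ ((3 : ℝ) / 2) := Real.rpow_pos_of_pos (by exact_mod_cast hn) _
  field_simp

theorem gap_ratio {c σ γ : ℝ} (hc : 0 < c) (hσ0 : 0 ≤ σ) (hσ1 : σ < 1) (hγ : 0 < γ) {m : ℕ → ℕ}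
    (hm : Tendsto (fun n : ℕ => (m n : ℝ) / (n : ℝ) ^ ((3 : ℝ) / 2)) atTop (𝓝 c))
    (Good : ∀ n : ℕ, Set (SimpleGraph (Fin n))) (hsub : ∀ n, Good n ⊆ TF n (m n))
    (hbad : ∀ n, 0 < m n → ∀ G ∈ TF n (m n), G ∉ Good n → ∃ S0 : Finset (Fin n),
      ∀ (k : ℕ) (τ : Fin n → Fin k), (∃ Sg : Finset (Fin k), ∀ v, τ v ∈ Sg ↔ v ∈ S0) →
        (hh σ + 4 * c ^ 2 / 3 * (1 - σ ^ 3)) + γ
          ≤ ent (wB τ) (UB G τ) + 4 * c ^ 2 / 3 * tri (wB τ) (trunc L0 (UB G τ))) :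
    Tendsto (fun n : ℕ => (((Good n).ncard : ℕ) : ℝ) / (((TF n (m n)).ncard : ℕ) : ℝ)) atTop
      (𝓝 1) := by
  have hmt := gap_m_tendsto hc hm
  have hz : Tendsto (fun n : ℕ => Real.exp (-(γ / 2 * (m n : ℝ)))) atTop (𝓝 0) :=
    Real.tendsto_exp_neg_atTop_nhds_zero.comp (hmt.const_mul_atTop (by positivity))
  have hlo : Tendsto (fun n : ℕ => 1 - Real.exp (-(γ / 2 * (m n : ℝ)))) atTop (𝓝 1) := by
    simpa using hz.const_sub 1
  have hev : ∀ᶠ n : ℕ in atTop,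
      1 - Real.exp (-(γ / 2 * (m n : ℝ))) ≤
        (((Good n).ncard : ℕ) : ℝ) / (((TF n (m n)).ncard : ℕ) : ℝ) ∧
      (((Good n).ncard : ℕ) : ℝ) / (((TF n (m n)).ncard : ℕ) : ℝ) ≤ 1 := by
    filter_upwards [upper_count c (hh σ + 4 * c ^ 2 / 3 * (1 - σ ^ 3) + γ) (γ / 4) hc
      (by positivity) m hm, lower_count c σ (γ / 4) hc hσ0 hσ1 (by positivity) m hm,
      hmt.eventually_gt_atTop 0] with n hu hl hpos
    have hpos' : 0 < m n := by exact_mod_cast hpos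
    have hu' := hu (TF n (m n) \ Good n) fun G hG => ⟨hG.1, hbad n hpos' G hG.1 hG.2⟩
    have hT : (0 : ℝ) < ((TF n (m n)).ncard : ℕ) := (Real.exp_pos _).trans_le hl
    have hadd : (((TF n (m n) \ Good n).ncard : ℕ) : ℝ) + ((Good n).ncard : ℕ)
        = ((TF n (m n)).ncard : ℕ) := by
      exact_mod_cast Set.ncard_sdiff_add_ncard_of_subset (hsub n) (Set.toFinite _)
    have hB : (((TF n (m n) \ Good n).ncard : ℕ) : ℝ)
        ≤ Real.exp (-(γ / 2 * (m n : ℝ))) * ((TF n (m n)).ncard : ℕ) := by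
      refine hu'.trans (le_trans (le_of_eq ?_) (mul_le_mul_of_nonneg_left hl (Real.exp_pos _).le))
      rw [← Real.exp_add]
      congr 1
      ring
    have hB0 : (0 : ℝ) ≤ ((TF n (m n) \ Good n).ncard : ℕ) := Nat.cast_nonneg _
    constructor
    · rw [le_div_iff₀ hT]
      linarith
    · rw [div_le_one hT]
      linarith
  exact tendsto_of_tendsto_of_tendsto_of_le_of_le' hlo tendsto_const_nhds
    (hev.mono fun _ h => h.1) (hev.mono fun _ h => h.2)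

theorem gap_eS {n m : ℕ} {G : SimpleGraph (Fin n)} (hG : G ∈ TF n m) :
    eS G univ univ = 2 * (m : ℝ) := by
  rw [eS_univ_eq, hG.2]

theorem gap_cut {n m : ℕ} (hm : 0 < m) {G : SimpleGraph (Fin n)} (hG : G ∈ TF n m) {k : ℕ}
    (τ : Fin n → Fin k) (Sg : Finset (Fin k)) (S : Finset (Fin n)) (hS : ∀ v, τ v ∈ Sg ↔ v ∈ S) :
    cutK (wB τ) (UB G τ) Sg * (m : ℝ) = cutG G S := by
  have hm' : (0 : ℝ) < m := by exact_mod_cast hm
  have := cutK_block G τ (by rw [gap_eS hG]; positivity) Sg S hS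
  rw [gap_eS hG] at this
  rw [← this]
  ring

theorem gap_final_low {θs c : ℝ} (hs : IsStar θs) (hc : 0 < c) (hβ : 4 * c ^ 2 < bet θs)
    {m : ℕ → ℕ} (hm : Tendsto (fun n : ℕ => (m n : ℝ) / (n : ℝ) ^ ((3 : ℝ) / 2)) atTop (𝓝 c))
    {ε : ℝ} (hε : 0 < ε) :
    Tendsto (fun n : ℕ => ((({G : SimpleGraph (Fin n) | G.CliqueFree 3 ∧ G.edgeSet.ncard = m n ∧
      (∀ S, cutG G S ≤ (1 / 2 + ε) * (m n : ℝ)) ∧
      (∃ S, (1 / 2 - ε) * (m n : ℝ) ≤ cutG G S)}).ncard : ℕ) : ℝ) /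
        (((TF n (m n)).ncard : ℕ) : ℝ)) atTop (𝓝 1) := by
  obtain ⟨γ, hγ, hg⟩ := gap_low hs (β := 4 * c ^ 2) (by positivity) hβ ε hε
  refine gap_ratio hc le_rfl one_pos hγ hm _ (fun n G hG => ⟨hG.1, hG.2.1⟩) ?_
  intro n hn G hG hbad
  have hn' : (0 : ℝ) < m n := by exact_mod_cast hn
  have h2 : ∃ S, (1 / 2 - ε) * (m n : ℝ) ≤ cutG G S := by
    obtain ⟨S, hS⟩ := exists_half_cut G
    rw [hG.2] at hS
    exact ⟨S, by nlinarith⟩
  have h1 : ∃ S, (1 / 2 + ε) * (m n : ℝ) < cutG G S := by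
    by_contra h
    push Not at h
    exact hbad ⟨hG.1, hG.2, h, h2⟩
  obtain ⟨S, hS⟩ := h1
  refine ⟨S, ?_⟩
  rintro k τ ⟨Sg, hSg⟩
  have hK := isKer_block G τ (by rw [gap_eS hG]; positivity)
  have hc' := gap_cut hn hG τ Sg S hSg
  have := hg (Fin k) _ _ hK ⟨Sg, le_of_mul_le_mul_right (by rw [hc']; exact hS.le) hn'⟩
  simpa [hh] using this

theorem gap_final_high {θs θ c : ℝ} (hs : IsStar θs) (hθ : θs < θ) (hc : 0 < c)
    (hβ : bet θ = 4 * c ^ 2)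
    {m : ℕ → ℕ} (hm : Tendsto (fun n : ℕ => (m n : ℝ) / (n : ℝ) ^ ((3 : ℝ) / 2)) atTop (𝓝 c))
    {ε : ℝ} (hε : 0 < ε) :
    Tendsto (fun n : ℕ => ((({G : SimpleGraph (Fin n) | G.CliqueFree 3 ∧ G.edgeSet.ncard = m n ∧
      (∀ S, cutG G S ≤ (1 / 2 + sg θ / 2 + ε) * (m n : ℝ)) ∧
      (∃ S, (1 / 2 + sg θ / 2 - ε) * (m n : ℝ) ≤ cutG G S)}).ncard : ℕ) : ℝ) /
        (((TF n (m n)).ncard : ℕ) : ℝ)) atTop (𝓝 1) := by
  have hθ0 : 0 < θ := by linarith [hs.1]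
  obtain ⟨γ, hγ, hg⟩ := gap_high hs hθ ε hε
  refine gap_ratio hc (sg_pos hθ0).le (sg_lt_one θ) hγ hm _ (fun n G hG => ⟨hG.1, hG.2.1⟩) ?_
  intro n hn G hG hbad
  have hn' : (0 : ℝ) < m n := by exact_mod_cast hn
  rw [fv_eq hθ0, hβ] at hg
  by_cases h1 : ∃ S, (1 / 2 + sg θ / 2 + ε) * (m n : ℝ) < cutG G S
  · obtain ⟨S, hS⟩ := h1
    refine ⟨S, ?_⟩
    rintro k τ ⟨Sg, hSg⟩
    have hK := isKer_block G τ (by rw [gap_eS hG]; positivity)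
    have hc' := gap_cut hn hG τ Sg S hSg
    refine hg (Fin k) _ _ hK (Or.inl ⟨Sg, le_of_mul_le_mul_right ?_ hn'⟩)
    rw [hc']
    linarith
  · push Not at h1
    have h2 : ∀ S, cutG G S < (1 / 2 + sg θ / 2 - ε) * (m n : ℝ) := by
      by_contra h
      push Not at h
      exact hbad ⟨hG.1, hG.2, h1, h⟩
    refine ⟨∅, ?_⟩
    rintro k τ -
    have hK := isKer_block G τ (by rw [gap_eS hG]; positivity)
    refine hg (Fin k) _ _ hK (Or.inr fun Sg => le_of_mul_le_mul_right ?_ hn')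
    rw [gap_cut hn hG τ Sg (univ.filter fun v => τ v ∈ Sg) (by simp)]
    linarith [h2 (univ.filter fun v => τ v ∈ Sg)]

end
end Pool.Agent.MP_b5eafd_co
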