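import Pool.Agent.MP_b5eafd_co.Defs

-- part MP_b5eafd_co.Shearer1
section

/-! Counting recursion, greedy bound and elementary inequalities for the Shearer type bound. -/

set_option autoImplicit false
set_option linter.unusedSectionVars false
open Finset

namespace Pool.Agent.MP_b5eafd_co.ShearerAux
noncomputable section
open Classical

variable {V : Type} [Fintype V] {ι : Type} [Fintype ι]

def nn (τ : V → ι) (L : Finset V) (l : ι) : ℝ := ((fib τ L l).card : ℝ)
def WW (G : SimpleGraph V) (τ : V → ι) (L : Finset V) (k : ι → ℕ) : ℝ :=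
  (indCount G τ L k : ℝ) * ∏ l, ((k l).factorial : ℝ)
def PP (τ : V → ι) (L : Finset V) (k : ι → ℕ) : ℝ := ∏ l, nn τ L l ^ k l
def Lv (G : SimpleGraph V) (L : Finset V) (v : V) : Finset V :=
  L.filter (fun u => u ≠ v ∧ ¬ G.Adj v u)
def dec (k : ι → ℕ) (a : ι) : ι → ℕ := Function.update k a (k a - 1)
def sz (k : ι → ℕ) : ℝ := ∑ l, (k l : ℝ)
def rem (G : SimpleGraph V) (v u : V) : ℝ := adjR G v u + (if u = v then 1 else 0)

lemma mem_fib (τ : V → ι) (L : Finset V) (a : ι) (v : V) : v ∈ fib τ L a ↔ v ∈ L ∧ τ v = a := by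
  unfold fib; rw [mem_filter]

lemma sum_fib (τ : V → ι) (L : Finset V) (g : V → ℝ) :
    ∑ u ∈ L, g u = ∑ l, ∑ u ∈ fib τ L l, g u := by
  unfold fib
  exact (Finset.sum_fiberwise L τ g).symm

lemma sum_fib_mul (τ : V → ι) (L : Finset V) (h : ι → ℝ) (g : V → ℝ) :
    ∑ u ∈ L, h (τ u) * g u = ∑ l, h l * ∑ u ∈ fib τ L l, g u := by
  rw [sum_fib τ L]
  refine sum_congr rfl fun l _ => ?_
  rw [mul_sum]
  refine sum_congr rfl fun u hu => ?_
  rw [((mem_fib τ L l u).1 hu).2]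

lemma sum_fib_const (τ : V → ι) (L : Finset V) (h : ι → ℝ) :
    ∑ u ∈ L, h (τ u) = ∑ l, h l * nn τ L l := by
  have := sum_fib_mul τ L h (fun _ => 1)
  simp only [mul_one, sum_const, nsmul_eq_mul] at this
  exact this

lemma nn_nonneg (τ : V → ι) (L : Finset V) (l : ι) : 0 ≤ nn τ L l := Nat.cast_nonneg _

lemma adjR_nonneg (G : SimpleGraph V) (u v : V) : 0 ≤ adjR G u v := by
  unfold adjR; split_ifs <;> norm_num

lemma adjR_symm (G : SimpleGraph V) (u v : V) : adjR G u v = adjR G v u := by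
  unfold adjR
  by_cases h : G.Adj u v
  · rw [if_pos h, if_pos h.symm]
  · rw [if_neg h, if_neg (fun h' => h h'.symm)]

lemma rem_nonneg (G : SimpleGraph V) (u v : V) : 0 ≤ rem G u v := by
  unfold rem
  have := adjR_nonneg G u v
  split_ifs <;> linarith

lemma Lv_subset (G : SimpleGraph V) (L : Finset V) (v : V) : Lv G L v ⊆ L := filter_subset _ _

lemma Lv_card_lt (G : SimpleGraph V) (L : Finset V) (v : V) (hv : v ∈ L) :
    (Lv G L v).card < L.card := by
  apply card_lt_card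
  refine ⟨Lv_subset G L v, fun h => ?_⟩
  have := h hv
  unfold Lv at this
  rw [mem_filter] at this
  exact this.2.1 rfl

lemma nn_Lv (G : SimpleGraph V) (τ : V → ι) (L : Finset V) (v : V) (l : ι) :
    nn τ (Lv G L v) l = nn τ L l - ∑ u ∈ fib τ L l, rem G v u := by
  have h1 : fib τ (Lv G L v) l = (fib τ L l).filter (fun u => u ≠ v ∧ ¬ G.Adj v u) := by
    ext u
    rw [mem_fib, mem_filter, mem_fib]
    unfold Lv
    rw [mem_filter]
    tauto
  unfold nn
  rw [h1, card_filter, card_eq_sum_ones (fib τ L l)]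
  push_cast
  rw [← sum_sub_distrib]
  refine sum_congr rfl fun u _ => ?_
  unfold rem adjR
  by_cases h : u = v
  · subst h
    simp
  · by_cases h' : G.Adj v u
    · simp [h, h']
    · simp [h, h']

lemma indCount_mono (G : SimpleGraph V) (τ : V → ι) {L L' : Finset V} (h : L' ⊆ L) (k : ι → ℕ) :
    indCount G τ L' k ≤ indCount G τ L k := by
  unfold indCount indSets
  apply card_le_card
  intro S hS
  rw [mem_filter, mem_powerset] at hS ⊢
  exact ⟨hS.1.trans h, hS.2⟩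

lemma fact_pos (k : ι → ℕ) : (0 : ℝ) < ∏ l, ((k l).factorial : ℝ) :=
  prod_pos fun l _ => by exact_mod_cast Nat.factorial_pos _

lemma WW_nonneg (G : SimpleGraph V) (τ : V → ι) (L : Finset V) (k : ι → ℕ) : 0 ≤ WW G τ L k :=
  mul_nonneg (Nat.cast_nonneg _) (fact_pos k).le

lemma WW_mono (G : SimpleGraph V) (τ : V → ι) {L L' : Finset V} (h : L' ⊆ L) (k : ι → ℕ) :
    WW G τ L' k ≤ WW G τ L k := by
  unfold WW
  apply mul_le_mul_of_nonneg_right _ (fact_pos k).le
  exact_mod_cast indCount_mono G τ h k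

lemma WW_zero (G : SimpleGraph V) (τ : V → ι) (L : Finset V) (k : ι → ℕ) (hk : ∀ l, k l = 0) :
    1 ≤ WW G τ L k := by
  unfold WW
  have h1 : ∏ l, ((k l).factorial : ℝ) = 1 := by
    apply prod_eq_one
    intro l _
    rw [hk l]; simp
  have h2 : 1 ≤ indCount G τ L k := by
    unfold indCount
    apply card_pos.2
    refine ⟨∅, ?_⟩
    unfold indSets
    rw [mem_filter, mem_powerset]
    refine ⟨empty_subset _, fun u hu => absurd hu (notMem_empty u), fun l => ?_⟩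
    rw [hk l]
    unfold fib
    simp
  rw [h1, mul_one]
  exact_mod_cast h2

lemma insert_le (G : SimpleGraph V) (τ : V → ι) (L : Finset V) (k : ι → ℕ) (v : V) (hv : v ∈ L)
    (hk : 1 ≤ k (τ v)) :
    indCount G τ (Lv G L v) (dec k (τ v)) ≤ ((indSets G τ L k).filter (fun S => v ∈ S)).card := by
  unfold indCount
  have hnot : ∀ T ∈ indSets G τ (Lv G L v) (dec k (τ v)), v ∉ T := by
    intro T hT hvT
    unfold indSets at hT
    rw [mem_filter, mem_powerset] at hT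
    have := hT.1 hvT
    unfold Lv at this
    rw [mem_filter] at this
    exact this.2.1 rfl
  apply card_le_card_of_injOn (fun T => insert v T)
  · intro T hT
    have hT0 : T ∈ indSets G τ (Lv G L v) (dec k (τ v)) := hT
    have hvT := hnot T hT0
    unfold indSets at hT0
    rw [mem_filter, mem_powerset] at hT0
    obtain ⟨hsub, hind, hprof⟩ := hT0
    have hna : ∀ u ∈ T, ¬ G.Adj v u := by
      intro u hu
      have := hsub hu
      unfold Lv at this
      rw [mem_filter] at this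
      exact this.2.2
    have hmem : insert v T ∈ (indSets G τ L k).filter (fun S => v ∈ S) := by
      rw [mem_filter]
      refine ⟨?_, mem_insert_self _ _⟩
      unfold indSets
      rw [mem_filter, mem_powerset]
      refine ⟨?_, ?_, ?_⟩
      · intro u hu
        rcases mem_insert.1 hu with rfl | hu
        · exact hv
        · exact Lv_subset G L v (hsub hu)
      · intro u hu w hw
        rcases mem_insert.1 hu with hu' | hu'
        · rcases mem_insert.1 hw with hw' | hw'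
          · rw [hu', hw']; exact G.irrefl
          · rw [hu']; exact hna w hw'
        · rcases mem_insert.1 hw with hw' | hw'
          · rw [hw']; exact fun h => hna u hu' h.symm
          · exact hind u hu' w hw'
      · intro l
        have hl := hprof l
        by_cases hla : l = τ v
        · subst hla
          have e : fib τ (insert v T) (τ v) = insert v (fib τ T (τ v)) := by
            ext u
            rw [mem_fib, mem_insert, mem_insert, mem_fib]
            constructor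
            · rintro ⟨h | h, h2⟩
              · exact Or.inl h
              · exact Or.inr ⟨h, h2⟩
            · rintro (h | h)
              · exact ⟨Or.inl h, by rw [h]⟩
              · exact ⟨Or.inr h.1, h.2⟩
          rw [e, card_insert_of_notMem (fun h => hvT ((mem_fib _ _ _ _).1 h).1), hl]
          unfold dec
          rw [Function.update_self]
          omega
        · have e : fib τ (insert v T) l = fib τ T l := by
            ext u
            rw [mem_fib, mem_insert, mem_fib]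
            constructor
            · rintro ⟨h | h, h2⟩
              · exact absurd (by rw [← h2, h]) hla
              · exact ⟨h, h2⟩
            · rintro ⟨h, h2⟩
              exact ⟨Or.inr h, h2⟩
          rw [e, hl]
          unfold dec
          rw [Function.update_of_ne hla]
    exact hmem
  · intro T hT T' hT' h
    have h1 := hnot T hT
    have h2 := hnot T' hT'
    have h3 : (insert v T).erase v = (insert v T').erase v := by
      have h' : insert v T = insert v T' := h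
      rw [h']
    rwa [erase_insert h1, erase_insert h2] at h3

lemma rec_count (G : SimpleGraph V) (τ : V → ι) (L : Finset V) (k : ι → ℕ) (a : ι)
    (hk : 1 ≤ k a) :
    ∑ v ∈ fib τ L a, indCount G τ (Lv G L v) (dec k a) ≤ k a * indCount G τ L k := by
  calc ∑ v ∈ fib τ L a, indCount G τ (Lv G L v) (dec k a)
      ≤ ∑ v ∈ fib τ L a, ((indSets G τ L k).filter (fun S => v ∈ S)).card := by
        refine sum_le_sum fun v hv => ?_
        obtain ⟨hvL, hva⟩ := (mem_fib τ L a v).1 hv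
        subst hva
        exact insert_le G τ L k v hvL hk
    _ = ∑ S ∈ indSets G τ L k, ((fib τ L a).filter (fun v => v ∈ S)).card := by
        simp only [card_filter]
        exact sum_comm
    _ = ∑ S ∈ indSets G τ L k, k a := by
        refine sum_congr rfl fun S hS => ?_
        unfold indSets at hS
        rw [mem_filter, mem_powerset] at hS
        rw [← hS.2.2 a]
        congr 1
        ext u
        rw [mem_filter, mem_fib, mem_fib]
        constructor
        · rintro ⟨⟨_, h2⟩, h3⟩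
          exact ⟨h3, h2⟩
        · rintro ⟨h1, h2⟩
          exact ⟨⟨hS.1 h1, h2⟩, h1⟩
    _ = k a * indCount G τ L k := by
        rw [sum_const, smul_eq_mul, mul_comm]
        rfl

lemma prod_dec (f : ι → ℕ → ℝ) (k : ι → ℕ) (a : ι) (c : ℝ)
    (h : f a (k a) = c * f a (k a - 1)) :
    ∏ l, f l (k l) = c * ∏ l, f l (dec k a l) := by
  rw [← mul_prod_erase univ (fun l => f l (k l)) (mem_univ a),
    ← mul_prod_erase univ (fun l => f l (dec k a l)) (mem_univ a)]
  have e1 : ∏ l ∈ univ.erase a, f l (dec k a l) = ∏ l ∈ univ.erase a, f l (k l) := by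
    refine prod_congr rfl fun l hl => ?_
    unfold dec
    rw [Function.update_of_ne (ne_of_mem_erase hl)]
  have e2 : dec k a a = k a - 1 := by unfold dec; rw [Function.update_self]
  rw [e1, e2, h, mul_assoc]

lemma WW_rec (G : SimpleGraph V) (τ : V → ι) (L : Finset V) (k : ι → ℕ) (a : ι)
    (hk : 1 ≤ k a) :
    ∑ v ∈ fib τ L a, WW G τ (Lv G L v) (dec k a) ≤ WW G τ L k := by
  unfold WW
  rw [← sum_mul, prod_dec (fun _ m => (m.factorial : ℝ)) k a (k a)
    (by exact_mod_cast (Nat.mul_factorial_pred (by omega)).symm), ← mul_assoc]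
  apply mul_le_mul_of_nonneg_right _ (fact_pos _).le
  have := rec_count G τ L k a hk
  rw [mul_comm]
  exact_mod_cast this

lemma pow_dec (b : ι → ℝ) (k : ι → ℕ) (a : ι) (hk : 1 ≤ k a) :
    ∏ l, b l ^ k l = b a * ∏ l, b l ^ dec k a l := by
  apply prod_dec (fun l m => b l ^ m) k a (b a)
  obtain ⟨m, hm⟩ : ∃ m, k a = m + 1 := ⟨k a - 1, by omega⟩
  rw [hm, pow_succ']
  simp

lemma dec_cast (k : ι → ℕ) (a : ι) (hk : 1 ≤ k a) (l : ι) :
    (dec k a l : ℝ) = k l - (if l = a then 1 else 0) := by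
  unfold dec
  by_cases h : l = a
  · subst h
    rw [Function.update_self, if_pos rfl, Nat.cast_sub hk]
    simp
  · rw [Function.update_of_ne h, if_neg h, sub_zero]

lemma sz_dec (k : ι → ℕ) (a : ι) (hk : 1 ≤ k a) : sz (dec k a) = sz k - 1 := by
  unfold sz
  simp only [dec_cast k a hk, sum_sub_distrib, sum_ite_eq', mem_univ, if_true]

lemma sz_nonneg (k : ι → ℕ) : 0 ≤ sz k := sum_nonneg fun _ _ => Nat.cast_nonneg _

lemma le_sz (k : ι → ℕ) (a : ι) : (k a : ℝ) ≤ sz k :=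
  single_le_sum (f := fun l => (k l : ℝ)) (fun _ _ => Nat.cast_nonneg _) (mem_univ a)

lemma fib_mono (τ : V → ι) {L L' : Finset V} (h : L' ⊆ L) (l : ι) : fib τ L' l ⊆ fib τ L l := by
  intro u hu
  rw [mem_fib] at hu ⊢
  exact ⟨h hu.1, hu.2⟩

/-- greedy choice of an independent set of a given profile under a degree bound. -/
lemma greedy (G : SimpleGraph V) (τ : V → ι) (L0 : Finset V) (Δ b : ι → ℝ)
    (hb : ∀ l, 0 ≤ b l) (hΔ0 : ∀ l, 0 ≤ Δ l)
    (hΔ : ∀ v ∈ L0, ∀ l, ∑ u ∈ fib τ L0 l, rem G v u ≤ Δ l) (m : ℕ) :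
    ∀ (k : ι → ℕ) (L : Finset V), L ⊆ L0 → sz k = m → (∀ l, b l + m * Δ l ≤ nn τ L l) →
      ∏ l, b l ^ k l ≤ WW G τ L k := by
  induction m with
  | zero =>
    intro k L _ hk _
    have hk0 : ∀ l, k l = 0 := by
      intro l
      have h1 := le_sz k l
      rw [hk] at h1
      have h2 : (k l : ℝ) ≤ 0 := by simpa using h1
      have h3 : k l ≤ 0 := by exact_mod_cast h2
      omega
    have : ∏ l, b l ^ k l = 1 := prod_eq_one fun l _ => by rw [hk0 l, pow_zero]
    rw [this]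
    exact WW_zero G τ L k hk0
  | succ m ih =>
    intro k L hL hk hn
    have hex : ∃ a, 1 ≤ k a := by
      by_contra hcon
      push Not at hcon
      have : sz k = 0 := by
        unfold sz
        refine sum_eq_zero fun l _ => ?_
        have := hcon l
        have h0 : k l = 0 := by omega
        rw [h0]; simp
      rw [this] at hk
      have h5 : (0 : ℝ) < ((m + 1 : ℕ) : ℝ) := by positivity
      linarith
    obtain ⟨a, ha⟩ := hex
    refine le_trans ?_ (WW_rec G τ L k a ha)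
    have hstep : ∀ v ∈ fib τ L a, ∏ l, b l ^ dec k a l ≤ WW G τ (Lv G L v) (dec k a) := by
      intro v hv
      have hvL := ((mem_fib τ L a v).1 hv).1
      apply ih (dec k a) (Lv G L v) ((Lv_subset G L v).trans hL)
      · rw [sz_dec k a ha, hk]; push_cast; ring
      · intro l
        rw [nn_Lv]
        have h1 : ∑ u ∈ fib τ L l, rem G v u ≤ ∑ u ∈ fib τ L0 l, rem G v u :=
          sum_le_sum_of_subset_of_nonneg (fib_mono τ hL l) fun u _ _ => rem_nonneg G v u
        have h2 := hΔ v (hL hvL) l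
        have h3 := hn l
        push_cast at h3
        linarith
    have h4 : (0 : ℝ) ≤ ∏ l, b l ^ dec k a l := prod_nonneg fun l _ => pow_nonneg (hb l) _
    calc ∏ l, b l ^ k l = b a * ∏ l, b l ^ dec k a l := pow_dec b k a ha
      _ ≤ nn τ L a * ∏ l, b l ^ dec k a l := by
          apply mul_le_mul_of_nonneg_right _ h4
          have h3 := hn a
          have h5 : 0 ≤ ((m + 1 : ℕ) : ℝ) * Δ a := mul_nonneg (Nat.cast_nonneg _) (hΔ0 a)
          linarith
      _ = ∑ v ∈ fib τ L a, ∏ l, b l ^ dec k a l := by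
          rw [sum_const, nsmul_eq_mul]; rfl
      _ ≤ _ := sum_le_sum hstep

lemma exp_le_one_sub {t : ℝ} (h0 : 0 ≤ t) (h1 : t ≤ 1 / 2) : Real.exp (-(t + t ^ 2)) ≤ 1 - t := by
  have h2 : 0 ≤ t + t ^ 2 := by positivity
  have h3 := Real.quadratic_le_exp_of_nonneg h2
  have h4 : 1 ≤ (1 - t) * (1 + (t + t ^ 2) + (t + t ^ 2) ^ 2 / 2) := by
    have h5 : 0 ≤ 1 - t - t ^ 2 - t ^ 3 := by nlinarith [mul_nonneg h0 h0, mul_nonneg h0 (mul_nonneg h0 h0)]
    have h6 : (1 - t) * (1 + (t + t ^ 2) + (t + t ^ 2) ^ 2 / 2)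
        = 1 + t ^ 2 * (1 - t - t ^ 2 - t ^ 3) / 2 := by ring
    have h7 : 0 ≤ t ^ 2 * (1 - t - t ^ 2 - t ^ 3) := mul_nonneg (sq_nonneg t) h5
    linarith
  have h8 : 1 ≤ (1 - t) * Real.exp (t + t ^ 2) :=
    h4.trans (mul_le_mul_of_nonneg_left h3 (by linarith))
  rw [Real.exp_neg, inv_le_iff_one_le_mul₀ (Real.exp_pos _)]
  exact h8

lemma PP_nonneg (τ : V → ι) (L : Finset V) (k : ι → ℕ) : 0 ≤ PP τ L k :=
  prod_nonneg fun l _ => pow_nonneg (nn_nonneg τ L l) _

/-- transfer of the lower bound from a sub-configuration. -/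
lemma transfer (τ : V → ι) (L L' : Finset V) (k : ι → ℕ) (δ : ι → ℝ) (W Pot F Mx : ℝ)
    (hδ0 : ∀ l, 0 ≤ δ l) (hδ1 : ∀ l, δ l ≤ 1 / 2) (hn : ∀ l, nn τ L' l = nn τ L l * (1 - δ l))
    (hW : PP τ L' k * (Real.exp (-Pot) - Real.exp (-Mx)) ≤ W)
    (hF : Pot + ∑ l, (k l : ℝ) * (δ l + δ l ^ 2) ≤ F) :
    PP τ L k * (Real.exp (-F) - Real.exp (-Mx)) ≤ W := by
  have e : PP τ L' k = PP τ L k * ∏ l, (1 - δ l) ^ k l := by
    unfold PP
    rw [← prod_mul_distrib]
    refine prod_congr rfl fun l _ => ?_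
    rw [hn l, mul_pow]
  have h1 : ∏ l, (1 - δ l) ^ k l ≤ 1 :=
    prod_le_one (fun l _ => pow_nonneg (by linarith [hδ1 l]) _)
      (fun l _ => pow_le_one₀ (by linarith [hδ1 l]) (by linarith [hδ0 l]))
  have h2 : Real.exp (-∑ l, (k l : ℝ) * (δ l + δ l ^ 2)) ≤ ∏ l, (1 - δ l) ^ k l := by
    rw [← sum_neg_distrib, Real.exp_sum]
    refine prod_le_prod (fun l _ => (Real.exp_pos _).le) fun l _ => ?_
    rw [← mul_neg, Real.exp_nat_mul]
    exact pow_le_pow_left₀ (Real.exp_pos _).le (exp_le_one_sub (hδ0 l) (hδ1 l)) _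
  have h3 : Real.exp (-F) ≤ (∏ l, (1 - δ l) ^ k l) * Real.exp (-Pot) := by
    refine le_trans ?_ (mul_le_mul_of_nonneg_right h2 (Real.exp_pos _).le)
    rw [← Real.exp_add]
    apply Real.exp_le_exp.2
    linarith
  have h4 : (∏ l, (1 - δ l) ^ k l) * Real.exp (-Mx) ≤ Real.exp (-Mx) :=
    mul_le_of_le_one_left (Real.exp_pos _).le h1
  refine le_trans ?_ hW
  rw [e, mul_assoc]
  apply mul_le_mul_of_nonneg_left _ (PP_nonneg τ L k)
  rw [mul_sub]
  linarith

lemma ratio_le {δ θ ρ : ℝ} (h0 : 0 ≤ δ) (h1 : δ ≤ ρ) (h2 : 0 ≤ θ) (hρ : ρ ≤ 1 / 10) :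
    (1 - θ) / (1 - δ) ≤ 1 + (δ - θ) + 2 * ρ ^ 2 := by
  rw [div_le_iff₀ (by linarith)]
  have h3 : δ ^ 2 ≤ ρ ^ 2 := pow_le_pow_left₀ h0 h1 2
  have h4 : 0 ≤ δ * θ := mul_nonneg h0 h2
  have h5 : ρ ^ 2 * δ ≤ ρ ^ 2 * (1 / 10) := mul_le_mul_of_nonneg_left (by linarith) (sq_nonneg ρ)
  nlinarith [sq_nonneg ρ]

lemma ratio_mul_le {δ θ δ' θ' ρ : ℝ} (h0 : 0 ≤ δ) (h1 : δ ≤ ρ) (h2 : 0 ≤ θ) (h3 : θ ≤ ρ)
    (h0' : 0 ≤ δ') (h1' : δ' ≤ ρ) (h2' : 0 ≤ θ') (h3' : θ' ≤ ρ) (hρ : ρ ≤ 1 / 10) :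
    (1 - θ) / (1 - δ) * ((1 - θ') / (1 - δ')) ≤ 1 + (δ - θ) + (δ' - θ') + 10 * ρ ^ 2 := by
  have a1 := ratio_le h0 h1 h2 hρ
  have a2 := ratio_le h0' h1' h2' hρ
  have b2 : 0 ≤ (1 - θ') / (1 - δ') := div_nonneg (by linarith) (by linarith)
  have hρ0 : 0 ≤ ρ := h0.trans h1
  have b3 : 0 ≤ 1 + (δ - θ) + 2 * ρ ^ 2 := by nlinarith [sq_nonneg ρ]
  refine (mul_le_mul a1 a2 b2 b3).trans ?_
  have c1 : (δ - θ) * (δ' - θ') ≤ ρ ^ 2 := by
    have : |(δ - θ) * (δ' - θ')| ≤ ρ ^ 2 := by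
      rw [abs_mul, sq]
      exact mul_le_mul (abs_le.2 ⟨by linarith, by linarith⟩) (abs_le.2 ⟨by linarith, by linarith⟩)
        (abs_nonneg _) hρ0
    exact (le_abs_self _).trans this
  have c2 : ρ ^ 2 * ((δ - θ) + (δ' - θ')) ≤ ρ ^ 2 * (1 / 5) :=
    mul_le_mul_of_nonneg_left (by linarith) (sq_nonneg ρ)
  have c3 : ρ ^ 2 * ρ ^ 2 ≤ ρ ^ 2 * (1 / 100) :=
    mul_le_mul_of_nonneg_left (by nlinarith) (sq_nonneg ρ)
  nlinarith [sq_nonneg ρ]

end
end Pool.Agent.MP_b5eafd_co.ShearerAux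

end

-- part MP_b5eafd_co.Shearer2
section

/-! The potential function and the one step estimates for the Shearer type bound. -/

set_option autoImplicit false
set_option linter.unusedSectionVars false
open Finset

namespace Pool.Agent.MP_b5eafd_co.ShearerAux
noncomputable section
open Classical

variable {V : Type} [Fintype V] {ι : Type} [Fintype ι]

def DD (G : SimpleGraph V) (x : V → ℝ) (L : Finset V) (v : V) : ℝ := ∑ u ∈ L, x u * adjR G v u
def QQ (G : SimpleGraph V) (x : V → ℝ) (L : Finset V) : ℝ := (∑ u ∈ L, x u * DD G x L u) / 2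

lemma DD_nonneg (G : SimpleGraph V) (x : V → ℝ) (L : Finset V) (hx : ∀ u, 0 ≤ x u) (v : V) :
    0 ≤ DD G x L v := sum_nonneg fun u _ => mul_nonneg (hx u) (adjR_nonneg G v u)

lemma QQ_nonneg (G : SimpleGraph V) (x : V → ℝ) (L : Finset V) (hx : ∀ u, 0 ≤ x u) :
    0 ≤ QQ G x L :=
  div_nonneg (sum_nonneg fun u _ => mul_nonneg (hx u) (DD_nonneg G x L hx u)) (by norm_num)

lemma sum_adj_swap (G : SimpleGraph V) (x : V → ℝ) (L : Finset V) (g : V → ℝ) :
    ∑ v ∈ L, x v * ∑ w ∈ L, g w * adjR G v w = ∑ w ∈ L, g w * DD G x L w := by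
  unfold DD
  simp only [mul_sum]
  rw [sum_comm]
  refine sum_congr rfl fun w _ => sum_congr rfl fun v _ => ?_
  rw [adjR_symm G w v]; ring

lemma Q_gen (G : SimpleGraph V) (x : V → ℝ) (L : Finset V) (c : ℝ) (g : V → ℝ) :
    ∑ u ∈ L, ∑ w ∈ L, x u * x w * adjR G u w * (c + g u + g w)
      = 2 * (c * QQ G x L + ∑ u ∈ L, x u * DD G x L u * g u) := by
  have h1 : ∑ u ∈ L, ∑ w ∈ L, x u * x w * adjR G u w * (c + g u + g w)
      = ∑ u ∈ L, (x u * (c + g u) * DD G x L u + x u * ∑ w ∈ L, (x w * g w) * adjR G u w) := by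
    refine sum_congr rfl fun u _ => ?_
    unfold DD
    rw [mul_sum, mul_sum, ← sum_add_distrib]
    refine sum_congr rfl fun w _ => ?_
    ring
  rw [h1, sum_add_distrib, sum_adj_swap]
  unfold QQ
  have h2 : ∑ u ∈ L, x u * (c + g u) * DD G x L u
      = c * ∑ u ∈ L, x u * DD G x L u + ∑ u ∈ L, x u * DD G x L u * g u := by
    rw [mul_sum, ← sum_add_distrib]
    refine sum_congr rfl fun w _ => ?_
    ring
  have h3 : ∑ w ∈ L, x w * g w * DD G x L w = ∑ u ∈ L, x u * DD G x L u * g u :=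
    sum_congr rfl fun w _ => by ring
  rw [h2, h3]
  ring

lemma Q_sub (G : SimpleGraph V) (x x' : V → ℝ) (L L' : Finset V) (hL : L' ⊆ L) (c : ℝ)
    (g : V → ℝ)
    (h1 : ∀ u ∈ L', ∀ w ∈ L', G.Adj u w → x' u * x' w ≤ x u * x w * (c + g u + g w))
    (h2 : ∀ u ∈ L, ∀ w ∈ L, G.Adj u w → 0 ≤ x u * x w * (c + g u + g w)) :
    QQ G x' L' ≤ c * QQ G x L + ∑ u ∈ L, x u * DD G x L u * g u := by
  have e := Q_gen G x L c g
  have hnn : ∀ u ∈ L, ∀ w ∈ L, 0 ≤ x u * x w * adjR G u w * (c + g u + g w) := by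
    intro u hu w hw
    unfold adjR
    by_cases h : G.Adj u w
    · rw [if_pos h, mul_one]; exact h2 u hu w hw h
    · rw [if_neg h]; simp
  have a1 : ∑ u ∈ L', x' u * DD G x' L' u
      ≤ ∑ u ∈ L', ∑ w ∈ L', x u * x w * adjR G u w * (c + g u + g w) := by
    refine sum_le_sum fun u hu => ?_
    unfold DD
    rw [mul_sum]
    refine sum_le_sum fun w hw => ?_
    unfold adjR
    by_cases h : G.Adj u w
    · rw [if_pos h, mul_one, mul_one]; exact h1 u hu w hw h
    · rw [if_neg h]; simp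
  have a2 : ∑ u ∈ L', ∑ w ∈ L', x u * x w * adjR G u w * (c + g u + g w)
      ≤ ∑ u ∈ L', ∑ w ∈ L, x u * x w * adjR G u w * (c + g u + g w) :=
    sum_le_sum fun u hu => sum_le_sum_of_subset_of_nonneg hL fun w hw _ => hnn u (hL hu) w hw
  have a3 : ∑ u ∈ L', ∑ w ∈ L, x u * x w * adjR G u w * (c + g u + g w)
      ≤ ∑ u ∈ L, ∑ w ∈ L, x u * x w * adjR G u w * (c + g u + g w) :=
    sum_le_sum_of_subset_of_nonneg hL fun u hu _ => sum_nonneg fun w hw => hnn u hu w hw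
  have a4 : QQ G x' L' = (∑ u ∈ L', x' u * DD G x' L' u) / 2 := rfl
  linarith

lemma sum_rem (G : SimpleGraph V) (L : Finset V) (v : V) (hv : v ∈ L) (f : V → ℝ) :
    ∑ w ∈ L, f w * rem G v w = ∑ w ∈ L, f w * adjR G v w + f v := by
  unfold rem
  simp only [mul_add, sum_add_distrib, mul_ite, mul_one, mul_zero, sum_ite_eq', hv, if_true]

lemma inv_sum_le (n n' δ : ι → ℝ) (ρ : ℝ) (hn : ∀ l, 0 < n l) (hδ0 : ∀ l, 0 ≤ δ l)
    (hδ : ∀ l, δ l ≤ ρ) (hρ : ρ ≤ 1 / 2) (h : ∀ l, n' l = n l * (1 - δ l)) :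
    ∑ l, 1 / n' l ≤ (1 + 2 * ρ) * ∑ l, 1 / n l := by
  rw [mul_sum]
  refine sum_le_sum fun l _ => ?_
  have h1 : 0 < 1 - δ l := by linarith [hδ l]
  rw [h l, mul_one_div, div_le_div_iff₀ (mul_pos (hn l) h1) (hn l)]
  have h2 : 1 ≤ (1 + 2 * ρ) * (1 - δ l) := by nlinarith [hδ l, hδ0 l]
  have := mul_le_mul_of_nonneg_left h2 (hn l).le
  linarith

/-- numerical parameters of the induction. -/
structure Par (r : ℝ) where
  κ : ℝ
  Mx : ℝ
  Ds : ℝ
  ρ : ℝ
  κ1 : ℝ
  π0 : ℝ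
  lam : ℝ
  c0 : ℝ
  η : ℝ
  N0 : ℝ
  T : ℝ
  hκ : 0 < κ
  hMx : 0 < Mx
  hDs : 5 * Mx ≤ κ * (Ds - 2)
  hρ : Ds + 1 ≤ ρ * κ
  hρ1 : ρ ≤ 1 / 10
  hκ1 : 0 < κ1
  hκ1ρ : κ1 * ρ ≤ 1 / 2
  hπ : π0 * (κ1 + r * κ) ≤ κ1
  hπ1 : π0 ≤ 1
  hlam0 : 0 ≤ lam
  hlam : 2 * ρ ≤ π0 * (1 - Real.exp (-lam))
  hc0 : N0 * Mx ≤ c0
  hN : 10 ≤ N0
  hNκ : κ ≤ N0
  hη : 0 ≤ η
  herr : 10 * ρ ^ 2 * Mx + 2 * ρ * Ds ^ 2 + (Ds + 1) * ((T + κ) / N0) + T * ρ ^ 2 ≤ η * π0

lemma Par.Ds_ge {r : ℝ} (p : Par r) : 2 ≤ p.Ds := by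
  have h1 := p.hDs
  have h2 := p.hMx
  have h3 := p.hκ
  by_contra h
  push Not at h
  have : p.κ * (p.Ds - 2) < 0 := mul_neg_of_pos_of_neg h3 (by linarith)
  linarith

lemma Par.ρ_pos {r : ℝ} (p : Par r) : 0 < p.ρ := by
  have h1 := p.hρ
  have h2 := p.Ds_ge
  have h3 := p.hκ
  by_contra h
  push Not at h
  have : p.ρ * p.κ ≤ 0 := mul_nonpos_of_nonpos_of_nonneg h h3.le
  linarith

lemma Par.c0_nonneg {r : ℝ} (p : Par r) : 0 ≤ p.c0 :=
  le_trans (mul_nonneg (by linarith [p.hN]) p.hMx.le) p.hc0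

def xl (τ : V → ι) (κ : ℝ) (L : Finset V) (k : ι → ℕ) (l : ι) : ℝ := ((k l : ℝ) + κ) / nn τ L l
def xw (τ : V → ι) (κ : ℝ) (L : Finset V) (k : ι → ℕ) (u : V) : ℝ := xl τ κ L k (τ u)
def CC (τ : V → ι) (c0 lam : ℝ) (L : Finset V) (k : ι → ℕ) : ℝ :=
  c0 * Real.exp (lam * sz k) * ∑ l, 1 / nn τ L l
def Pot {r : ℝ} (p : Par r) (G : SimpleGraph V) (τ : V → ι) (L : Finset V) (k : ι → ℕ) : ℝ :=
  QQ G (xw τ p.κ L k) L + CC τ p.c0 p.lam L k + p.η * sz k + p.κ1

lemma xl_nonneg (τ : V → ι) {κ : ℝ} (hκ : 0 ≤ κ) (L : Finset V) (k : ι → ℕ) (l : ι) :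
    0 ≤ xl τ κ L k l := div_nonneg (add_nonneg (Nat.cast_nonneg _) hκ) (nn_nonneg τ L l)

lemma xw_nonneg (τ : V → ι) {κ : ℝ} (hκ : 0 ≤ κ) (L : Finset V) (k : ι → ℕ) (u : V) :
    0 ≤ xw τ κ L k u := xl_nonneg τ hκ L k _

lemma CC_nonneg (τ : V → ι) {c0 : ℝ} (lam : ℝ) (hc : 0 ≤ c0) (L : Finset V) (k : ι → ℕ) :
    0 ≤ CC τ c0 lam L k :=
  mul_nonneg (mul_nonneg hc (Real.exp_pos _).le)
    (sum_nonneg fun l _ => div_nonneg zero_le_one (nn_nonneg τ L l))

lemma nn_erase (τ : V → ι) (L : Finset V) (v : V) (hv : v ∈ L) (l : ι) :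
    nn τ (L.erase v) l = nn τ L l - (if l = τ v then 1 else 0) := by
  have h1 : fib τ (L.erase v) l = (fib τ L l).erase v := by
    ext u
    rw [mem_fib, mem_erase, mem_erase, mem_fib]
    tauto
  unfold nn
  rw [h1]
  by_cases h : l = τ v
  · have h2 : v ∈ fib τ L l := (mem_fib τ L l v).2 ⟨hv, h.symm⟩
    rw [if_pos h, card_erase_of_mem h2, Nat.cast_sub (card_pos.2 ⟨v, h2⟩)]
    simp
  · have h2 : v ∉ fib τ L l := fun h3 => h ((mem_fib τ L l v).1 h3).2.symm
    rw [if_neg h, erase_eq_of_notMem h2, sub_zero]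

/-- removing a vertex of large weighted degree does not increase the potential. -/
lemma trim {r : ℝ} (p : Par r) (G : SimpleGraph V) (τ : V → ι) (L : Finset V) (k : ι → ℕ)
    (hn : ∀ l, p.N0 ≤ nn τ L l) (hQ : QQ G (xw τ p.κ L k) L ≤ p.Mx)
    (hC : CC τ p.c0 p.lam L k ≤ p.Mx) (v : V) (hv : v ∈ L)
    (hD : p.Ds ≤ DD G (xw τ p.κ L k) L v)
    (ih : PP τ (L.erase v) k * (Real.exp (-Pot p G τ (L.erase v) k) - Real.exp (-p.Mx))
      ≤ WW G τ (L.erase v) k) :
    PP τ L k * (Real.exp (-Pot p G τ L k) - Real.exp (-p.Mx)) ≤ WW G τ L k := by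
  have hN := p.hN
  have hnpos : ∀ l, 0 < nn τ L l := fun l => by linarith [hn l]
  set t : ℝ := 1 / nn τ L (τ v) with ht
  have ht0 : 0 < t := div_pos one_pos (hnpos _)
  have ht1 : t ≤ 1 / 10 := one_div_le_one_div_of_le (by norm_num) (by linarith [hn (τ v)])
  set δ : ι → ℝ := fun l => if l = τ v then t else 0 with hδ
  have hδ0 : ∀ l, 0 ≤ δ l := fun l => by simp only [hδ]; split_ifs <;> linarith
  have hδt : ∀ l, δ l ≤ t := fun l => by simp only [hδ]; split_ifs <;> linarith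
  have hn' : ∀ l, nn τ (L.erase v) l = nn τ L l * (1 - δ l) := by
    intro l
    rw [nn_erase τ L v hv]
    simp only [hδ]
    by_cases h : l = τ v
    · rw [if_pos h, if_pos h, ht, h]
      field_simp [(hnpos (τ v)).ne']
    · rw [if_neg h, if_neg h]; ring
  refine transfer τ L (L.erase v) k δ _ _ _ _ hδ0 (fun l => by linarith [hδt l]) hn'
    (ih.trans (WW_mono G τ (erase_subset v L) k)) ?_
  have hx0 := xw_nonneg τ p.hκ.le L k
  have hx' : ∀ u, xw τ p.κ (L.erase v) k u ≤ xw τ p.κ L k u * (1 / (1 - t)) := by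
    intro u
    unfold xw xl
    rw [hn', div_mul_div_comm, mul_one]
    apply div_le_div_of_nonneg_left (add_nonneg (Nat.cast_nonneg _) p.hκ.le)
      (mul_pos (hnpos _) (by linarith))
    exact mul_le_mul_of_nonneg_left (by linarith [hδt (τ u)]) (hnpos _).le
  have hy : (1 / (1 - t)) * (1 / (1 - t)) ≤ 1 + 3 * t := by
    rw [div_mul_div_comm, one_mul, div_le_iff₀ (mul_pos (by linarith) (by linarith))]
    nlinarith [mul_nonneg ht0.le ht0.le, mul_nonneg ht0.le (mul_nonneg ht0.le ht0.le)]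
  have hQ' := Q_sub G (xw τ p.κ L k) (xw τ p.κ (L.erase v) k) L (L.erase v) (erase_subset v L)
    (1 + 3 * t) (fun u => -(if u = v then 1 else 0)) (by
      intro u hu w hw _
      have e1 : u ≠ v := ne_of_mem_erase hu
      have e2 : w ≠ v := ne_of_mem_erase hw
      simp only [if_neg e1, if_neg e2, neg_zero, add_zero]
      calc xw τ p.κ (L.erase v) k u * xw τ p.κ (L.erase v) k w
          ≤ (xw τ p.κ L k u * (1 / (1 - t))) * (xw τ p.κ L k w * (1 / (1 - t))) :=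
            mul_le_mul (hx' u) (hx' w) (xw_nonneg τ p.hκ.le _ k w)
              (mul_nonneg (hx0 u) (div_nonneg zero_le_one (by linarith)))
        _ = xw τ p.κ L k u * xw τ p.κ L k w * ((1 / (1 - t)) * (1 / (1 - t))) := by ring
        _ ≤ _ := mul_le_mul_of_nonneg_left hy (mul_nonneg (hx0 u) (hx0 w))) (by
      intro u _ w _ huw
      apply mul_nonneg (mul_nonneg (hx0 u) (hx0 w))
      by_cases e1 : u = v
      · have e2 : w ≠ v := fun e => G.irrefl (by rw [e1, e] at huw; exact huw)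
        simp only [if_pos e1, if_neg e2]
        linarith
      · simp only [if_neg e1]
        split_ifs <;> linarith)
  have e1 : ∑ u ∈ L, xw τ p.κ L k u * DD G (xw τ p.κ L k) L u * -(if u = v then 1 else 0)
      = -(xw τ p.κ L k v * DD G (xw τ p.κ L k) L v) := by
    simp only [mul_neg, mul_ite, mul_one, mul_zero, sum_neg_distrib, sum_ite_eq', hv, if_true]
  rw [e1] at hQ'
  have hC' : CC τ p.c0 p.lam (L.erase v) k ≤ (1 + 2 * t) * CC τ p.c0 p.lam L k := by
    unfold CC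
    have := inv_sum_le (nn τ L) (nn τ (L.erase v)) δ t hnpos hδ0 hδt (by linarith) hn'
    have h2 := mul_le_mul_of_nonneg_left this
      (mul_nonneg p.c0_nonneg (Real.exp_pos (p.lam * sz k)).le)
    linarith
  have e2 : ∑ l, (k l : ℝ) * (δ l + δ l ^ 2) = k (τ v) * (t + t ^ 2) := by
    rw [sum_eq_single (τ v)]
    · simp only [hδ, if_true]
    · intro l _ hl
      simp only [hδ, if_neg hl]
      ring
    · intro h; exact absurd (mem_univ _) h
  have e3 : xw τ p.κ L k v = ((k (τ v) : ℝ) + p.κ) * t := by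
    unfold xw xl
    rw [ht, mul_one_div]
  have hk0 : (0 : ℝ) ≤ k (τ v) := Nat.cast_nonneg _
  have hκ := p.hκ
  have h5 : ((k (τ v) : ℝ) + p.κ) * t * p.Ds ≤ xw τ p.κ L k v * DD G (xw τ p.κ L k) L v := by
    rw [e3]
    exact mul_le_mul_of_nonneg_left hD (by positivity)
  have h6 : t * QQ G (xw τ p.κ L k) L ≤ t * p.Mx := mul_le_mul_of_nonneg_left hQ ht0.le
  have h7 : t * CC τ p.c0 p.lam L k ≤ t * p.Mx := mul_le_mul_of_nonneg_left hC ht0.le
  have h8 : (k (τ v) : ℝ) * (t + t ^ 2) ≤ k (τ v) * (2 * t) :=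
    mul_le_mul_of_nonneg_left (by nlinarith) hk0
  have h9 : t * (5 * p.Mx) ≤ t * (p.κ * (p.Ds - 2)) := mul_le_mul_of_nonneg_left p.hDs ht0.le
  have h10 : (k (τ v) : ℝ) * t * 2 ≤ k (τ v) * t * p.Ds :=
    mul_le_mul_of_nonneg_left p.Ds_ge (by positivity)
  have h11 : 0 ≤ t * p.κ := by positivity
  rw [e2]
  unfold Pot
  nlinarith

lemma deg_bound {r : ℝ} (p : Par r) (G : SimpleGraph V) (τ : V → ι) (L : Finset V) (k : ι → ℕ)
    (hn : ∀ l, p.N0 ≤ nn τ L l) (v : V) (hD : DD G (xw τ p.κ L k) L v ≤ p.Ds) (l : ι) :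
    ∑ u ∈ fib τ L l, rem G v u ≤ p.ρ * nn τ L l := by
  have hN := p.hN
  have hκ := p.hκ
  have hnpos : 0 < nn τ L l := by linarith [hn l]
  have h1 : xl τ p.κ L k l * ∑ u ∈ fib τ L l, adjR G v u ≤ p.Ds := by
    refine le_trans ?_ hD
    unfold DD xw
    rw [sum_fib_mul τ L (xl τ p.κ L k) (adjR G v)]
    exact single_le_sum (f := fun l => xl τ p.κ L k l * ∑ u ∈ fib τ L l, adjR G v u)
      (fun l _ => mul_nonneg (xl_nonneg τ hκ.le L k l) (sum_nonneg fun u _ => adjR_nonneg G v u))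
      (mem_univ l)
  have h2 : 0 ≤ ∑ u ∈ fib τ L l, adjR G v u := sum_nonneg fun u _ => adjR_nonneg G v u
  have h3 : p.κ * ∑ u ∈ fib τ L l, adjR G v u ≤ p.Ds * nn τ L l := by
    unfold xl at h1
    rw [div_mul_eq_mul_div, div_le_iff₀ hnpos] at h1
    have : (0 : ℝ) ≤ k l * ∑ u ∈ fib τ L l, adjR G v u := mul_nonneg (Nat.cast_nonneg _) h2
    linarith
  have h4 : ∑ u ∈ fib τ L l, rem G v u ≤ ∑ u ∈ fib τ L l, adjR G v u + 1 := by
    unfold rem
    rw [sum_add_distrib, sum_ite_eq']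
    split_ifs <;> linarith
  have h5 : p.κ * ∑ u ∈ fib τ L l, rem G v u ≤ p.κ * (p.ρ * nn τ L l) := by
    have a1 := mul_le_mul_of_nonneg_left h4 hκ.le
    have a2 := mul_le_mul_of_nonneg_right p.hρ hnpos.le
    have a3 := p.hNκ
    have a4 := hn l
    nlinarith
  exact le_of_mul_le_mul_left h5 hκ

/-- the endgame: few vertices remain to be chosen. -/
lemma endgame {r : ℝ} (p : Par r) (G : SimpleGraph V) (τ : V → ι) (L : Finset V) (k : ι → ℕ)
    (hn : ∀ l, p.N0 ≤ nn τ L l) (hD : ∀ v ∈ L, DD G (xw τ p.κ L k) L v ≤ p.Ds)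
    (hk : sz k ≤ p.κ1) :
    PP τ L k * (Real.exp (-Pot p G τ L k) - Real.exp (-p.Mx)) ≤ WW G τ L k := by
  have hρ := p.ρ_pos
  have hm : sz k = ((∑ l, k l : ℕ) : ℝ) := by unfold sz; push_cast; rfl
  have h1 := greedy G τ L (fun l => p.ρ * nn τ L l) (fun l => nn τ L l * (1 / 2))
    (fun l => mul_nonneg (nn_nonneg τ L l) (by norm_num))
    (fun l => mul_nonneg hρ.le (nn_nonneg τ L l))
    (fun v hv l => deg_bound p G τ L k hn v (hD v hv) l) (∑ l, k l) k L Subset.rfl hm (by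
      intro l
      rw [← hm]
      have a1 : sz k * p.ρ ≤ 1 / 2 := (mul_le_mul_of_nonneg_right hk hρ.le).trans p.hκ1ρ
      have a2 := mul_le_mul_of_nonneg_right a1 (nn_nonneg τ L l)
      linarith)
  refine le_trans ?_ h1
  have e : ∏ l, (nn τ L l * (1 / 2)) ^ k l = PP τ L k * (1 / 2) ^ (∑ l, k l) := by
    unfold PP
    rw [← prod_pow_eq_pow_sum, ← prod_mul_distrib]
    exact prod_congr rfl fun l _ => mul_pow _ _ _
  rw [e]
  apply mul_le_mul_of_nonneg_left _ (PP_nonneg τ L k)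
  have h2 : Real.exp (-1) ≤ 1 / 2 := by
    rw [Real.exp_neg, one_div]
    apply inv_anti₀ (by norm_num)
    have := Real.add_one_le_exp (1 : ℝ)
    linarith
  have h3 : Real.exp (-1) ^ (∑ l, k l) ≤ (1 / 2 : ℝ) ^ (∑ l, k l) :=
    pow_le_pow_left₀ (Real.exp_pos _).le h2 _
  rw [← Real.exp_nat_mul, ← hm] at h3
  have h4 : Real.exp (-Pot p G τ L k) ≤ Real.exp (sz k * -1) := by
    apply Real.exp_le_exp.2
    unfold Pot
    have a1 := QQ_nonneg G _ L (xw_nonneg τ p.hκ.le L k)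
    have a2 := CC_nonneg τ p.lam p.c0_nonneg L k
    have a3 := mul_nonneg p.hη (sz_nonneg k)
    linarith
  have h5 := Real.exp_pos (-p.Mx)
  linarith

end
end Pool.Agent.MP_b5eafd_co.ShearerAux

end
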