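import Pool.Agent.MP_b5eafd_co.Mg.Shearer2

/-! The main step and the induction for the Shearer type bound. -/

set_option autoImplicit false
set_option linter.unusedSectionVars false
open Finset

namespace Pool.Agent.MP_b5eafd_co.ShearerAux
noncomputable section
open Classical

variable {V : Type} [Fintype V] {ι : Type} [Fintype ι]

def Db (G : SimpleGraph V) (τ : V → ι) (x : V → ℝ) (L : Finset V) (l : ι) : ℝ :=
  (∑ u ∈ fib τ L l, DD G x L u) / nn τ L l
def zz (τ : V → ι) (L : Finset V) (k : ι → ℕ) (l : ι) : ℝ := (k l : ℝ) / nn τ L l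
def dl (G : SimpleGraph V) (τ : V → ι) (L : Finset V) (v : V) (l : ι) : ℝ :=
  (∑ u ∈ fib τ L l, rem G v u) / nn τ L l
def YY (G : SimpleGraph V) (τ : V → ι) (x : V → ℝ) (L : Finset V) (k : ι → ℕ) (v : V) : ℝ :=
  ∑ w ∈ L, (x w * Db G τ x L (τ w) - x w * DD G x L w + zz τ L k (τ w)) * adjR G v w
def err {r : ℝ} (p : Par r) : ℝ :=
  10 * p.ρ ^ 2 * p.Mx + 2 * p.ρ * p.Ds ^ 2 + (p.Ds + 1) * ((p.T + p.κ) / p.N0) + p.T * p.ρ ^ 2

lemma sum_Db (G : SimpleGraph V) (τ : V → ι) (x : V → ℝ) (L : Finset V)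
    (hn : ∀ l, 0 < nn τ L l) (h : ι → ℝ) :
    ∑ w ∈ L, h (τ w) * DD G x L w = ∑ w ∈ L, h (τ w) * Db G τ x L (τ w) := by
  rw [sum_fib_mul τ L h, sum_fib_const τ L (fun l => h l * Db G τ x L l)]
  refine sum_congr rfl fun l _ => ?_
  unfold Db
  field_simp [(hn l).ne']

lemma Db_le (G : SimpleGraph V) (τ : V → ι) (x : V → ℝ) (L : Finset V) (D : ℝ)
    (hn : ∀ l, 0 < nn τ L l) (hD : ∀ v ∈ L, DD G x L v ≤ D) (l : ι) : Db G τ x L l ≤ D := by
  unfold Db
  rw [div_le_iff₀ (hn l)]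
  have := sum_le_card_nsmul (fib τ L l) (DD G x L) D fun u hu => hD u ((mem_fib τ L l u).1 hu).1
  rw [nsmul_eq_mul] at this
  unfold nn
  linarith

/-- pointwise estimate for one pick. -/
lemma step_pt {r : ℝ} (p : Par r) (G : SimpleGraph V) (hG : G.CliqueFree 3) (τ : V → ι)
    (L : Finset V) (k : ι → ℕ) (hn : ∀ l, p.N0 ≤ nn τ L l)
    (hQ : QQ G (xw τ p.κ L k) L ≤ p.Mx) (hD : ∀ v ∈ L, DD G (xw τ p.κ L k) L v ≤ p.Ds)
    (hT : sz k ≤ p.T) (v : V) (hv : v ∈ L) (σ : ℝ) (hσ : σ = 0 ∨ σ = 1) (k' : ι → ℕ)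
    (hk' : ∀ l, (k' l : ℝ) = k l - σ * (if l = τ v then 1 else 0)) :
    Pot p G τ (Lv G L v) k' + ∑ l, (k' l : ℝ) * (dl G τ L v l + dl G τ L v l ^ 2)
      ≤ Pot p G τ L k + 2 * p.ρ * CC τ p.c0 p.lam L k + err p + YY G τ (xw τ p.κ L k) L k v
        - σ * (Db G τ (xw τ p.κ L k) L (τ v)
          + (1 + 2 * p.ρ) * CC τ p.c0 p.lam L k * (1 - Real.exp (-p.lam)) + p.η) := by
  have hN := p.hN
  have hκ := p.hκ
  have hρ := p.ρ_pos
  have hρ1 := p.hρ1
  have hDs := p.Ds_ge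
  have hnpos : ∀ l, 0 < nn τ L l := fun l => by linarith [hn l]
  have hσ0 : 0 ≤ σ := by rcases hσ with h | h <;> linarith
  have hσ1 : σ ≤ 1 := by rcases hσ with h | h <;> linarith
  have hj : ∀ l, 0 < (k l : ℝ) + p.κ := fun l => add_pos_of_nonneg_of_pos (Nat.cast_nonneg _) hκ
  set x := xw τ p.κ L k with hx
  have hx0 : ∀ u, 0 ≤ x u := xw_nonneg τ hκ.le L k
  set δ := dl G τ L v with hδ
  have hδ0 : ∀ l, 0 ≤ δ l := fun l =>
    div_nonneg (sum_nonneg fun u _ => rem_nonneg G v u) (hnpos l).le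
  have hδρ : ∀ l, δ l ≤ p.ρ := fun l => by
    rw [hδ]; unfold dl
    rw [div_le_iff₀ (hnpos l)]
    exact deg_bound p G τ L k hn v (hD v hv) l
  have hn' : ∀ l, nn τ (Lv G L v) l = nn τ L l * (1 - δ l) := by
    intro l
    rw [nn_Lv, hδ]
    unfold dl
    field_simp [(hnpos l).ne']
  set θ : ι → ℝ := fun l => σ * (if l = τ v then 1 else 0) / ((k l : ℝ) + p.κ) with hθ
  have hθ0 : ∀ l, 0 ≤ θ l := fun l => by
    simp only [hθ]
    apply div_nonneg _ (hj l).le
    split_ifs <;> linarith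
  have hθρ : ∀ l, θ l ≤ p.ρ := fun l => by
    simp only [hθ]
    rw [div_le_iff₀ (hj l)]
    have a1 := p.hρ
    have a2 : 0 ≤ p.ρ * (k l : ℝ) := mul_nonneg hρ.le (Nat.cast_nonneg _)
    split_ifs <;> linarith
  have hx' : ∀ u, xw τ p.κ (Lv G L v) k' u = x u * ((1 - θ (τ u)) / (1 - δ (τ u))) := by
    intro u
    have a1 : 1 - δ (τ u) ≠ 0 := by have := hδρ (τ u); linarith
    have a2 := (hj (τ u)).ne'
    have a3 := (hnpos (τ u)).ne'
    rw [hx]
    unfold xw xl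
    rw [hn', hk']
    simp only [hθ]
    field_simp
    ring
  -- the quadratic term
  have hQ' := Q_sub G x (xw τ p.κ (Lv G L v) k') L (Lv G L v) (Lv_subset G L v)
    (1 + 10 * p.ρ ^ 2) (fun u => δ (τ u) - θ (τ u) - (1 - 2 * p.ρ) * adjR G v u) (by
      intro u hu w hw _
      have e1 : adjR G v u = 0 := by
        unfold Lv at hu; rw [mem_filter] at hu
        unfold adjR; rw [if_neg hu.2.2]
      have e2 : adjR G v w = 0 := by
        unfold Lv at hw; rw [mem_filter] at hw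
        unfold adjR; rw [if_neg hw.2.2]
      simp only [e1, e2, mul_zero, sub_zero]
      rw [hx', hx']
      have := ratio_mul_le (hδ0 (τ u)) (hδρ (τ u)) (hθ0 (τ u)) (hθρ (τ u))
        (hδ0 (τ w)) (hδρ (τ w)) (hθ0 (τ w)) (hθρ (τ w)) hρ1
      have h2 := mul_le_mul_of_nonneg_left this (mul_nonneg (hx0 u) (hx0 w))
      linarith) (by
      intro u _ w _ huw
      apply mul_nonneg (mul_nonneg (hx0 u) (hx0 w))
      have a1 := hδ0 (τ u)
      have a2 := hδ0 (τ w)
      have a3 := hθρ (τ u)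
      have a4 := hθρ (τ w)
      have a5 := sq_nonneg p.ρ
      unfold adjR
      by_cases e1 : G.Adj v u
      · have e2 : ¬ G.Adj v w := by
          intro e2
          exact hG {v, u, w} (SimpleGraph.is3Clique_triple_iff.2 ⟨e1, e2, huw⟩)
        simp only [if_pos e1, if_neg e2]
        linarith
      · simp only [if_neg e1]
        split_ifs <;> linarith)
  have e1 : ∑ u ∈ L, x u * DD G x L u * δ (τ u)
      = ∑ w ∈ L, x w * Db G τ x L (τ w) * adjR G v w + x v * Db G τ x L (τ v) := by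
    rw [← sum_rem G L v hv (fun w => x w * Db G τ x L (τ w))]
    have a1 := sum_fib_mul τ L (fun l => xl τ p.κ L k l * δ l) (DD G x L)
    have a2 := sum_fib_mul τ L (fun l => xl τ p.κ L k l * Db G τ x L l) (rem G v)
    have a3 : ∑ u ∈ L, x u * DD G x L u * δ (τ u)
        = ∑ u ∈ L, xl τ p.κ L k (τ u) * δ (τ u) * DD G x L u :=
      sum_congr rfl fun u _ => by rw [hx]; unfold xw; ring
    have a4 : ∑ w ∈ L, x w * Db G τ x L (τ w) * rem G v w
        = ∑ w ∈ L, xl τ p.κ L k (τ w) * Db G τ x L (τ w) * rem G v w := rfl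
    rw [a3, a1, a4, a2]
    refine sum_congr rfl fun l _ => ?_
    rw [hδ]
    unfold dl Db
    ring
  have e2 : ∑ u ∈ L, x u * DD G x L u * θ (τ u) = σ * Db G τ x L (τ v) := by
    have a1 := sum_fib_mul τ L (fun l => xl τ p.κ L k l * θ l) (DD G x L)
    have a3 : ∑ u ∈ L, x u * DD G x L u * θ (τ u)
        = ∑ u ∈ L, xl τ p.κ L k (τ u) * θ (τ u) * DD G x L u :=
      sum_congr rfl fun u _ => by rw [hx]; unfold xw; ring
    rw [a3, a1, sum_eq_single (τ v)]
    · simp only [hθ, if_true]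
      unfold xl Db
      have a2 := (hj (τ v)).ne'
      have a3 := (hnpos (τ v)).ne'
      field_simp
    · intro l _ hl
      simp only [hθ, if_neg hl]
      ring
    · intro h; exact absurd (mem_univ _) h
  have e3 : ∑ u ∈ L, x u * DD G x L u * adjR G v u ≤ p.Ds ^ 2 := by
    calc ∑ u ∈ L, x u * DD G x L u * adjR G v u ≤ ∑ u ∈ L, p.Ds * (x u * adjR G v u) := by
          refine sum_le_sum fun u hu => ?_
          have := mul_le_mul_of_nonneg_right (hD u hu) (mul_nonneg (hx0 u) (adjR_nonneg G v u))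
          linarith
      _ = p.Ds * DD G x L v := by rw [← mul_sum]; rfl
      _ ≤ p.Ds * p.Ds := mul_le_mul_of_nonneg_left (hD v hv) (by linarith)
      _ = p.Ds ^ 2 := by ring
  have e4 : ∑ u ∈ L, x u * DD G x L u * (δ (τ u) - θ (τ u) - (1 - 2 * p.ρ) * adjR G v u)
      = ∑ u ∈ L, x u * DD G x L u * δ (τ u) - ∑ u ∈ L, x u * DD G x L u * θ (τ u)
        - (1 - 2 * p.ρ) * ∑ u ∈ L, x u * DD G x L u * adjR G v u := by
    rw [mul_sum, ← sum_sub_distrib, ← sum_sub_distrib]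
    exact sum_congr rfl fun u _ => by ring
  rw [e4, e1, e2] at hQ'
  -- the loss
  have e5 : ∑ l, (k l : ℝ) * δ l = ∑ w ∈ L, zz τ L k (τ w) * adjR G v w + zz τ L k (τ v) := by
    rw [← sum_rem G L v hv (fun w => zz τ L k (τ w)), sum_fib_mul τ L (zz τ L k) (rem G v)]
    refine sum_congr rfl fun l _ => ?_
    rw [hδ]
    unfold dl zz
    ring
  have e6 : ∑ l, (k' l : ℝ) * (δ l + δ l ^ 2) ≤ ∑ l, (k l : ℝ) * δ l + sz k * p.ρ ^ 2 := by
    unfold sz
    rw [sum_mul, ← sum_add_distrib]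
    refine sum_le_sum fun l _ => ?_
    have a1 : (k' l : ℝ) ≤ k l := by
      rw [hk' l]
      split_ifs <;> linarith
    have a2 : δ l ^ 2 ≤ p.ρ ^ 2 := pow_le_pow_left₀ (hδ0 l) (hδρ l) 2
    have a3 : 0 ≤ δ l + δ l ^ 2 := add_nonneg (hδ0 l) (sq_nonneg _)
    have a4 := mul_le_mul_of_nonneg_right a1 a3
    have a5 := mul_le_mul_of_nonneg_left a2 (Nat.cast_nonneg (α := ℝ) (k l))
    linarith
  have e7 : sz k' = sz k - σ := by
    unfold sz
    simp only [hk', sum_sub_distrib, ← mul_sum, sum_ite_eq', mem_univ, if_true, mul_one]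
  have e8 : CC τ p.c0 p.lam (Lv G L v) k'
      ≤ (1 + 2 * p.ρ) * CC τ p.c0 p.lam L k * (1 - σ * (1 - Real.exp (-p.lam))) := by
    have a1 : Real.exp (p.lam * sz k') = Real.exp (p.lam * sz k) * (1 - σ * (1 - Real.exp (-p.lam))) := by
      rw [e7]
      rcases hσ with h | h
      · rw [h]; simp
      · rw [h, one_mul, sub_sub_cancel, ← Real.exp_add]
        congr 1
        ring
    have a2 := inv_sum_le (nn τ L) (nn τ (Lv G L v)) δ p.ρ hnpos hδ0 hδρ (by linarith) hn'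
    have a3 := mul_le_mul_of_nonneg_left a2
      (mul_nonneg p.c0_nonneg (Real.exp_pos (p.lam * sz k')).le)
    unfold CC
    refine a3.trans (le_of_eq ?_)
    rw [a1]
    ring
  have e9 : YY G τ x L k v = ∑ w ∈ L, x w * Db G τ x L (τ w) * adjR G v w
      - ∑ u ∈ L, x u * DD G x L u * adjR G v u + ∑ w ∈ L, zz τ L k (τ w) * adjR G v w := by
    unfold YY
    rw [← sum_sub_distrib, ← sum_add_distrib]
    exact sum_congr rfl fun u _ => by ring
  have hTk : (k (τ v) : ℝ) ≤ p.T := (le_sz k (τ v)).trans hT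
  have b1 : x v ≤ (p.T + p.κ) / p.N0 := by
    rw [hx]; unfold xw xl
    exact div_le_div₀ (by linarith [hj (τ v)]) (by linarith) (by linarith) (hn _)
  have b2 : zz τ L k (τ v) ≤ (p.T + p.κ) / p.N0 := by
    unfold zz
    exact div_le_div₀ (by linarith [hj (τ v)]) (by linarith) (by linarith) (hn _)
  have b3 : x v * Db G τ x L (τ v) ≤ (p.T + p.κ) / p.N0 * p.Ds := by
    have a1 := Db_le G τ x L p.Ds hnpos hD (τ v)
    exact (mul_le_mul_of_nonneg_left a1 (hx0 v)).trans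
      (mul_le_mul_of_nonneg_right b1 (by linarith))
  have b4 : p.ρ ^ 2 * QQ G x L ≤ p.ρ ^ 2 * p.Mx := mul_le_mul_of_nonneg_left hQ (sq_nonneg _)
  have b5 : p.ρ * ∑ u ∈ L, x u * DD G x L u * adjR G v u ≤ p.ρ * p.Ds ^ 2 :=
    mul_le_mul_of_nonneg_left e3 hρ.le
  have b6 : sz k * p.ρ ^ 2 ≤ p.T * p.ρ ^ 2 := mul_le_mul_of_nonneg_right hT (sq_nonneg _)
  unfold Pot err
  rw [e9, e7, ← hx]
  linarith

lemma sum_YY (G : SimpleGraph V) (τ : V → ι) {κ : ℝ} (hκ : 0 ≤ κ) (L : Finset V) (k : ι → ℕ)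
    (hn : ∀ l, 0 < nn τ L l) :
    ∑ v ∈ L, xw τ κ L k v * YY G τ (xw τ κ L k) L k v
      ≤ ∑ v ∈ L, zz τ L k (τ v) * Db G τ (xw τ κ L k) L (τ v) := by
  set x := xw τ κ L k with hx
  unfold YY
  rw [sum_adj_swap, ← sum_Db G τ x L hn (zz τ L k)]
  have a1 := sum_Db G τ x L hn (fun l => xl τ κ L k l * Db G τ x L l)
  have a2 : ∑ w ∈ L, (x w * Db G τ x L (τ w) - x w * DD G x L w + zz τ L k (τ w)) * DD G x L w
      ≤ ∑ w ∈ L, (xl τ κ L k (τ w) * Db G τ x L (τ w) * Db G τ x L (τ w)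
        - xl τ κ L k (τ w) * Db G τ x L (τ w) * DD G x L w + zz τ L k (τ w) * DD G x L w) := by
    refine sum_le_sum fun w _ => ?_
    have b1 : x w = xl τ κ L k (τ w) := rfl
    have b2 := mul_nonneg (xl_nonneg τ hκ L k (τ w)) (sq_nonneg (DD G x L w - Db G τ x L (τ w)))
    rw [b1]
    linarith
  rw [sum_add_distrib, sum_sub_distrib] at a2
  linarith

/-- the main step. -/
lemma main_step (p : Par (Fintype.card ι)) (G : SimpleGraph V) (hG : G.CliqueFree 3) (τ : V → ι)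
    (L : Finset V) (k : ι → ℕ) (hn : ∀ l, p.N0 ≤ nn τ L l)
    (hQ : QQ G (xw τ p.κ L k) L ≤ p.Mx) (hD : ∀ v ∈ L, DD G (xw τ p.κ L k) L v ≤ p.Ds)
    (hT : sz k ≤ p.T) (hk : p.κ1 ≤ sz k)
    (ih : ∀ v ∈ L, ∀ k' : ι → ℕ, sz k' ≤ p.T → (∀ l, 0 < nn τ (Lv G L v) l) →
      PP τ (Lv G L v) k' * (Real.exp (-Pot p G τ (Lv G L v) k') - Real.exp (-p.Mx))
        ≤ WW G τ (Lv G L v) k') :
    PP τ L k * (Real.exp (-Pot p G τ L k) - Real.exp (-p.Mx)) ≤ WW G τ L k := by
  have hN := p.hN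
  have hκ := p.hκ
  have hρ := p.ρ_pos
  have hρ1 := p.hρ1
  have hnpos : ∀ l, 0 < nn τ L l := fun l => by linarith [hn l]
  set x := xw τ p.κ L k with hx
  set C := CC τ p.c0 p.lam L k with hC
  have hC0 : 0 ≤ C := CC_nonneg τ p.lam p.c0_nonneg L k
  set Po := Pot p G τ L k with hPo
  set A : V → ℝ := fun v => 2 * p.ρ * C + err p + YY G τ x L k v with hA
  set H : V → ℝ := fun v => Db G τ x L (τ v) + (1 + 2 * p.ρ) * C * (1 - Real.exp (-p.lam)) + p.η
    with hH
  set E := Real.exp (-Po) with hE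
  set M := Real.exp (-p.Mx) with hM
  have hE0 : 0 < E := Real.exp_pos _
  have hpick : ∀ v ∈ L, ∀ σ : ℝ, (σ = 0 ∨ σ = 1) → ∀ k' : ι → ℕ,
      (∀ l, (k' l : ℝ) = k l - σ * (if l = τ v then 1 else 0)) →
      PP τ L k' * (E * (1 - (A v - σ * H v)) - M) ≤ WW G τ (Lv G L v) k' := by
    intro v hv σ hσ k' hk'
    have hσ0 : 0 ≤ σ := by rcases hσ with h | h <;> linarith
    have hδ0 : ∀ l, 0 ≤ dl G τ L v l := fun l =>
      div_nonneg (sum_nonneg fun u _ => rem_nonneg G v u) (hnpos l).le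
    have hδρ : ∀ l, dl G τ L v l ≤ p.ρ := fun l => by
      unfold dl
      rw [div_le_iff₀ (hnpos l)]
      exact deg_bound p G τ L k hn v (hD v hv) l
    have hn' : ∀ l, nn τ (Lv G L v) l = nn τ L l * (1 - dl G τ L v l) := by
      intro l
      rw [nn_Lv]
      unfold dl
      field_simp [(hnpos l).ne']
    have e7 : sz k' = sz k - σ := by
      unfold sz
      simp only [hk', sum_sub_distrib, ← mul_sum, sum_ite_eq', mem_univ, if_true, mul_one]
    have h1 := ih v hv k' (by linarith) (fun l => by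
      rw [hn']; exact mul_pos (hnpos l) (by linarith [hδρ l]))
    have h2 := step_pt p G hG τ L k hn hQ hD hT v hv σ hσ k' hk'
    have h3 := transfer τ L (Lv G L v) k' (dl G τ L v) _ _ (Po + (A v - σ * H v)) _ hδ0
      (fun l => by linarith [hδρ l]) hn' h1 (by
        simp only [hA, hH]
        linarith)
    refine le_trans (mul_le_mul_of_nonneg_left ?_ (PP_nonneg τ L k')) h3
    have h4 : Real.exp (-(Po + (A v - σ * H v))) = E * Real.exp (-(A v - σ * H v)) := by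
      rw [hE, ← Real.exp_add]; congr 1; ring
    have h5 := Real.add_one_le_exp (-(A v - σ * H v))
    have h6 := mul_le_mul_of_nonneg_left h5 hE0.le
    rw [h4]
    linarith
  -- real picks
  have hreal : PP τ L k * ∑ v ∈ L, zz τ L k (τ v) * (E * (1 - (A v - H v)) - M)
      ≤ sz k * WW G τ L k := by
    rw [sum_fib_mul τ L (zz τ L k), mul_sum]
    unfold sz
    rw [sum_mul]
    refine sum_le_sum fun a _ => ?_
    rcases Nat.eq_zero_or_pos (k a) with h0 | h0
    · unfold zz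
      rw [h0]
      simp
    · have h1 := WW_rec G τ L k a h0
      have h2 : PP τ L (dec k a) * ∑ v ∈ fib τ L a, (E * (1 - (A v - H v)) - M)
          ≤ ∑ v ∈ fib τ L a, WW G τ (Lv G L v) (dec k a) := by
        rw [mul_sum]
        refine sum_le_sum fun v hv => ?_
        obtain ⟨hvL, hva⟩ := (mem_fib τ L a v).1 hv
        have := hpick v hvL 1 (Or.inr rfl) (dec k a) (fun l => by
          rw [dec_cast k a h0, hva, one_mul])
        rwa [one_mul] at this
      have h3 : PP τ L k = nn τ L a * PP τ L (dec k a) := pow_dec (nn τ L) k a h0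
      have h4 := mul_le_mul_of_nonneg_left (h2.trans h1) (Nat.cast_nonneg (α := ℝ) (k a))
      refine le_trans (le_of_eq ?_) h4
      rw [h3]
      unfold zz
      field_simp [(hnpos a).ne']
  -- virtual picks
  have hvirt : PP τ L k * ∑ v ∈ L, p.κ / nn τ L (τ v) * (E * (1 - A v) - M)
      ≤ (Fintype.card ι : ℝ) * p.κ * WW G τ L k := by
    have h1 : (Fintype.card ι : ℝ) * p.κ = ∑ v ∈ L, p.κ / nn τ L (τ v) := by
      rw [sum_fib_const τ L (fun l => p.κ / nn τ L l)]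
      rw [sum_congr rfl fun l _ => div_mul_cancel₀ p.κ (hnpos l).ne']
      simp
    rw [h1, sum_mul, mul_sum]
    refine sum_le_sum fun v hv => ?_
    have h2 := hpick v hv 0 (Or.inl rfl) k (fun l => by ring)
    rw [zero_mul, sub_zero] at h2
    have h3 := mul_le_mul_of_nonneg_left (h2.trans (WW_mono G τ (Lv_subset G L v) k))
      (div_nonneg hκ.le (hnpos (τ v)).le)
    linarith
  -- averaging
  set J := sz k + (Fintype.card ι : ℝ) * p.κ with hJ
  have hsz : 0 < sz k := lt_of_lt_of_le p.hκ1 hk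
  have hJ0 : 0 < J := add_pos_of_pos_of_nonneg hsz (mul_nonneg (Nat.cast_nonneg _) hκ.le)
  have s1 : ∑ v ∈ L, zz τ L k (τ v) = sz k := by
    rw [sum_fib_const τ L (zz τ L k)]
    unfold sz zz
    exact sum_congr rfl fun l _ => div_mul_cancel₀ _ (hnpos l).ne'
  have s2 : ∑ v ∈ L, x v = J := by
    have : ∑ v ∈ L, x v = ∑ v ∈ L, xl τ p.κ L k (τ v) := rfl
    rw [this, sum_fib_const τ L (xl τ p.κ L k), hJ]
    unfold xl sz
    rw [sum_congr rfl fun l _ => div_mul_cancel₀ ((k l : ℝ) + p.κ) (hnpos l).ne', sum_add_distrib]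
    simp
  have s3 := sum_YY G τ hκ.le L k hnpos
  rw [← hx] at s3
  have s4 : ∑ v ∈ L, zz τ L k (τ v) * (E * (1 - (A v - H v)) - M)
      + ∑ v ∈ L, p.κ / nn τ L (τ v) * (E * (1 - A v) - M)
      = (E - M - E * (2 * p.ρ * C + err p)) * ∑ v ∈ L, x v - E * ∑ v ∈ L, x v * YY G τ x L k v
        + E * ∑ v ∈ L, zz τ L k (τ v) * Db G τ x L (τ v)
        + E * ((1 + 2 * p.ρ) * C * (1 - Real.exp (-p.lam)) + p.η) * ∑ v ∈ L, zz τ L k (τ v) := by
    simp only [mul_sum, ← sum_add_distrib, ← sum_sub_distrib]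
    refine sum_congr rfl fun v _ => ?_
    have b1 : x v = zz τ L k (τ v) + p.κ / nn τ L (τ v) := by
      rw [hx]; unfold xw xl zz; rw [add_div]
    simp only [hA, hH]
    rw [b1]
    ring
  rw [s1, s2] at s4
  have s5 : p.π0 * J ≤ sz k := by
    have a1 := p.hπ
    have a2 := mul_le_mul_of_nonneg_right p.hπ1 (sub_nonneg.2 hk)
    rw [hJ]
    linarith
  have hl0 : 0 ≤ 1 - Real.exp (-p.lam) := by
    have := Real.exp_le_one_iff.2 (neg_nonpos.2 p.hlam0)
    linarith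
  have s6 : (2 * p.ρ * C + err p) * J
      ≤ ((1 + 2 * p.ρ) * C * (1 - Real.exp (-p.lam)) + p.η) * sz k := by
    have a1 : err p ≤ p.η * p.π0 := p.herr
    have a2 := mul_le_mul_of_nonneg_right a1 hJ0.le
    have a3 := mul_le_mul_of_nonneg_left s5 p.hη
    have a4 := mul_le_mul_of_nonneg_right p.hlam (mul_nonneg hC0 hJ0.le)
    have a5 := mul_le_mul_of_nonneg_left s5 (mul_nonneg hC0 hl0)
    have a6 : 0 ≤ p.ρ * C * (1 - Real.exp (-p.lam)) * sz k :=
      mul_nonneg (mul_nonneg (mul_nonneg hρ.le hC0) hl0) hsz.le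
    linarith
  have s7 : (E - M) * J ≤ ∑ v ∈ L, zz τ L k (τ v) * (E * (1 - (A v - H v)) - M)
      + ∑ v ∈ L, p.κ / nn τ L (τ v) * (E * (1 - A v) - M) := by
    rw [s4]
    have a1 := mul_le_mul_of_nonneg_left s3 hE0.le
    have a2 := mul_le_mul_of_nonneg_left s6 hE0.le
    linarith
  have s8 := mul_le_mul_of_nonneg_left s7 (PP_nonneg τ L k)
  have s9 : J * (PP τ L k * (E - M)) ≤ J * WW G τ L k := by
    rw [hJ] at s8 ⊢
    linarith
  exact le_of_mul_le_mul_left s9 hJ0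

/-- the finite claim. -/
theorem claim (p : Par (Fintype.card ι)) (G : SimpleGraph V) (hG : G.CliqueFree 3) (τ : V → ι)
    (m : ℕ) : ∀ (L : Finset V), L.card = m → ∀ k : ι → ℕ, sz k ≤ p.T → (∀ l, 0 < nn τ L l) →
      PP τ L k * (Real.exp (-Pot p G τ L k) - Real.exp (-p.Mx)) ≤ WW G τ L k := by
  induction m using Nat.strong_induction_on with
  | _ m ih =>
  intro L hL k hT hpos
  by_cases hP : p.Mx ≤ Pot p G τ L k
  · have h1 : Real.exp (-Pot p G τ L k) ≤ Real.exp (-p.Mx) := Real.exp_le_exp.2 (by linarith)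
    exact (mul_nonpos_of_nonneg_of_nonpos (PP_nonneg τ L k) (by linarith)).trans
      (WW_nonneg G τ L k)
  push Not at hP
  have a1 := QQ_nonneg G _ L (xw_nonneg τ p.hκ.le L k)
  have a2 := CC_nonneg τ p.lam p.c0_nonneg L k
  have a3 := mul_nonneg p.hη (sz_nonneg k)
  have a4 := p.hκ1
  have hN := p.hN
  unfold Pot at hP
  have hQ : QQ G (xw τ p.κ L k) L ≤ p.Mx := by linarith
  have hC : CC τ p.c0 p.lam L k ≤ p.Mx := by linarith
  have hn : ∀ l, p.N0 ≤ nn τ L l := by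
    intro l
    have b1 : 1 / nn τ L l ≤ ∑ l, 1 / nn τ L l :=
      single_le_sum (f := fun l => 1 / nn τ L l)
        (fun l _ => div_nonneg zero_le_one (nn_nonneg τ L l)) (mem_univ l)
    have b2 : 1 ≤ Real.exp (p.lam * sz k) := Real.one_le_exp (mul_nonneg p.hlam0 (sz_nonneg k))
    have b3 : p.c0 * (1 / nn τ L l) ≤ CC τ p.c0 p.lam L k := by
      unfold CC
      apply mul_le_mul _ b1 (div_nonneg zero_le_one (nn_nonneg τ L l))
        (mul_nonneg p.c0_nonneg (Real.exp_pos _).le)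
      exact le_mul_of_one_le_right p.c0_nonneg b2
    have b4 : p.c0 ≤ p.Mx * nn τ L l := by
      have := b3.trans hC
      rwa [mul_one_div, div_le_iff₀ (hpos l)] at this
    have b5 : p.Mx * p.N0 ≤ p.Mx * nn τ L l := by linarith [p.hc0]
    exact le_of_mul_le_mul_left b5 p.hMx
  by_cases hD : ∃ v ∈ L, p.Ds ≤ DD G (xw τ p.κ L k) L v
  · obtain ⟨v, hv, hD⟩ := hD
    refine trim p G τ L k hn hQ hC v hv hD
      (ih (L.erase v).card (hL ▸ card_erase_lt_of_mem hv) _ rfl k hT fun l => ?_)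
    rw [nn_erase τ L v hv]
    have := hn l
    split_ifs <;> linarith
  push Not at hD
  have hD' : ∀ v ∈ L, DD G (xw τ p.κ L k) L v ≤ p.Ds := fun v hv => (hD v hv).le
  rcases le_total (sz k) p.κ1 with hk | hk
  · exact endgame p G τ L k hn hD' hk
  · exact main_step p G hG τ L k hn hQ hD' hT hk fun v hv k' hk' hpos' =>
      ih (Lv G L v).card (hL ▸ Lv_card_lt G L v hv) _ rfl k' hk' hpos'

end
end Pool.Agent.MP_b5eafd_co.ShearerAux
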